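import Mathlib

/-! Simplicial volume and ranked planar trees, part A1: this file joins several modules to save build time. -/

section S_LD

/-!
# Module LD: functions of lists and their coboundary
-/

set_option autoImplicit false

open scoped BigOperators Nat

namespace SimplVol

/-- The coboundary of a function of lists (with augmentation):
`dd F [z₀, …, z_k] = ∑ i, (-1)^i F [z₀, …, z_i removed, …, z_k]`. -/
def dd {Z : Type} : (List Z → ℝ) → List Z → ℝ
  | _, [] => 0
  | F, a :: l => F l - dd (fun m => F (a :: m)) l

@[simp] theorem dd_nil {Z : Type} (F : List Z → ℝ) : dd F [] = 0 := rfl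

theorem dd_cons {Z : Type} (F : List Z → ℝ) (a : Z) (l : List Z) :
    dd F (a :: l) = F l - dd (fun m => F (a :: m)) l := rfl

theorem dd_zero {Z : Type} (l : List Z) : dd (fun _ : List Z => (0 : ℝ)) l = 0 := by
  induction l with
  | nil => rfl
  | cons a l ih => rw [dd_cons, ih, sub_zero]

theorem dd_add {Z : Type} (F G : List Z → ℝ) (l : List Z) :
    dd (fun m => F m + G m) l = dd F l + dd G l := by
  induction l generalizing F G with
  | nil => simp
  | cons a l ih =>
    rw [dd_cons, dd_cons, dd_cons, ih (fun m => F (a :: m)) (fun m => G (a :: m))]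
    ring

theorem dd_smul {Z : Type} (c : ℝ) (F : List Z → ℝ) (l : List Z) :
    dd (fun m => c * F m) l = c * dd F l := by
  induction l generalizing F with
  | nil => simp
  | cons a l ih =>
    rw [dd_cons, dd_cons, ih (fun m => F (a :: m))]
    ring

theorem dd_sub {Z : Type} (F G : List Z → ℝ) (l : List Z) :
    dd (fun m => F m - G m) l = dd F l - dd G l := by
  induction l generalizing F G with
  | nil => simp
  | cons a l ih =>
    rw [dd_cons, dd_cons, dd_cons, ih (fun m => F (a :: m)) (fun m => G (a :: m))]
    ring

theorem dd_sum {Z J : Type} (s : Finset J) (F : J → List Z → ℝ) (l : List Z) :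
    dd (fun m => ∑ j ∈ s, F j m) l = ∑ j ∈ s, dd (F j) l := by
  classical
  induction s using Finset.induction_on with
  | empty => simp [dd_zero]
  | insert a s ha ih =>
    simp only [Finset.sum_insert ha]
    rw [dd_add, ih]

/-- The coboundary on lists of length `k + 1` depends only on the values on lists of length `k`. -/
theorem dd_congr {Z : Type} (F G : List Z → ℝ) (l : List Z)
    (h : ∀ m : List Z, m.length + 1 = l.length → F m = G m) : dd F l = dd G l := by
  induction l generalizing F G with
  | nil => rfl
  | cons a l ih =>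
    rw [dd_cons, dd_cons, h l rfl]
    rw [ih (fun m => F (a :: m)) (fun m => G (a :: m)) fun m hm => h _ (by
      rw [List.length_cons, List.length_cons, hm])]

theorem dd_dd {Z : Type} (F : List Z → ℝ) (l : List Z) : dd (dd F) l = 0 := by
  induction l generalizing F with
  | nil => rfl
  | cons a l ih =>
    rw [dd_cons]
    have h1 : (fun m => dd F (a :: m)) = fun m => F m - dd (fun m => F (a :: m)) m := by
      funext m
      rw [dd_cons]
    rw [h1, dd_sub, ih]
    ring

theorem dd_map {Z Z' : Type} (f : Z' → Z) (F : List Z → ℝ) (l : List Z') :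
    dd (fun m => F (m.map f)) l = dd F (l.map f) := by
  induction l generalizing F with
  | nil => rfl
  | cons a l ih =>
    rw [dd_cons, List.map_cons, dd_cons]
    rw [← ih (fun m => F (f a :: m))]
    rfl

theorem dd_ofFn {Z : Type} {k : ℕ} (F : List Z → ℝ) (z : Fin (k + 1) → Z) :
    dd F (List.ofFn z) =
      ∑ i : Fin (k + 1), (-1 : ℝ) ^ (i : ℕ) * F (List.ofFn fun j => z (i.succAbove j)) := by
  induction k generalizing F with
  | zero =>
    rw [List.ofFn_succ, dd_cons]
    simp
  | succ k ih =>
    rw [List.ofFn_succ, dd_cons, ih (fun m => F (z 0 :: m)) (fun i => z i.succ)]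
    conv_rhs => rw [Fin.sum_univ_succ]
    have h : ∀ i : Fin (k + 1), (List.ofFn fun j => z (i.succ.succAbove j)) =
        z 0 :: List.ofFn fun j => z (i.succAbove j).succ := by
      intro i
      rw [List.ofFn_succ, Fin.succ_succAbove_zero]
      simp only [Fin.succ_succAbove_succ]
    simp only [h, Fin.val_zero, pow_zero, one_mul, Fin.zero_succAbove, Fin.val_succ, pow_succ]
    rw [sub_eq_add_neg, ← Finset.sum_neg_distrib]
    congr 1
    refine Finset.sum_congr rfl fun i _ => ?_
    ring

theorem abs_dd_le {Z : Type} (F : List Z → ℝ) (C : ℝ) (l : List Z)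
    (h : ∀ m : List Z, m.length + 1 = l.length → |F m| ≤ C) : |dd F l| ≤ l.length * C := by
  induction l generalizing F with
  | nil => simp
  | cons a l ih =>
    rw [dd_cons, List.length_cons, Nat.cast_add, Nat.cast_one, add_mul, one_mul]
    have h1 := h l rfl
    have h2 := ih (fun m => F (a :: m)) fun m hm => h _ (by
      rw [List.length_cons, List.length_cons, hm])
    calc |F l - dd (fun m => F (a :: m)) l| ≤ |F l| + |dd (fun m => F (a :: m)) l| := abs_sub _ _
      _ ≤ _ := by linarith

end SimplVol

end S_LD

section S_EZ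

/-!
# Module EZ: the shuffle map

`ez F [a₀, …] [b₀, …]` is the sum of the values of `F` over all shuffles, with signs.
PROOF of `ez_dd` (the Leibniz rule). Induction on `x.length + y.length`, for all `F`. Write `x = a :: x'`,
`y = b :: y'`, `A := fun m => F ((a, b) :: m)`, so `A [] = F [(a, b)]`, `(dd F) ((a, b) :: m) = F m - dd A m`.
By definition (`ez_cons`), with `[..]` the `0/1` indicator,
 ez (dd F) x y = [x' = y' = []] * F [] + (ez F x' y - ez (dd A) x' y) + (-1)^|x'| (ez F x y' - ez (dd A) x y')
(linearity `ez_sub`; for `x' = y' = []`, `dd F [(a,b)] = F []`).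
 dd (fun u => ez F u y) x = ez F x' y - dd (fun u => ez F (a :: u) y) x', and
 ez F (a :: u) y = [u = y' = []] A [] + ez A u y + (-1)^|u| ez A (a :: u) y';
 inside `dd (..) x'` only `u` with `|u| + 1 = |x'|` occur (`dd_congr`), so there `(-1)^|u| = -(-1)^|x'|`.
 In the same way dd (fun v => ez F x v) y = ez F x y' - dd (fun v => ez F x (b :: v)) y',
 ez F x (b :: v) = [x' = v = []] A [] + ez A x' (b :: v) + (-1)^|x'| ez A x v.
 Also `dd (fun u => [u = []] c) w = [|w| = 1] c` (small induction).
Insert the induction hypothesis for `(x', y)` if `x' ≠ []` (else `ez _ [] y = 0`) and for `(x, y')` if `y' ≠ []`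
(else `0`), and `dd (fun v => ez A x' v) y = ez A x' y' - dd (fun v => ez A x' (b :: v)) y'`,
`dd (fun u => ez A u y') x = ez A x' y' - dd (fun u => ez A (a :: u) y') x'`. Everything cancels. Four cases
(`x'` empty or not, `y'` empty or not); e.g. for `x' = []`, `y' ≠ []` the term `[|y'| = 1] A []` from the induction
hypothesis cancels against the one from `dd (fun v => [v = []] A []) y'`.
-/

set_option autoImplicit false

open scoped BigOperators Nat

namespace SimplVol

variable {S Y : Type}

/-- The shuffle map. -/
def ez : (List (S × Y) → ℝ) → List S → List Y → ℝ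
  | _, [], _ => 0
  | _, _ :: _, [] => 0
  | F, a :: x, b :: y =>
    (if x.isEmpty && y.isEmpty then F [(a, b)] else 0) +
      ez (fun m => F ((a, b) :: m)) x (b :: y) +
      (-1) ^ x.length * ez (fun m => F ((a, b) :: m)) (a :: x) y
  termination_by _ x y => x.length + y.length

theorem ez_nil_left (F : List (S × Y) → ℝ) (y : List Y) : ez F [] y = 0 := by
  rw [ez]

theorem ez_nil_right (F : List (S × Y) → ℝ) (x : List S) : ez F x [] = 0 := by
  cases x <;> rw [ez]

theorem ez_cons (F : List (S × Y) → ℝ) (a : S) (x : List S) (b : Y) (y : List Y) :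
    ez F (a :: x) (b :: y) = (if x.isEmpty && y.isEmpty then F [(a, b)] else 0) +
      ez (fun m => F ((a, b) :: m)) x (b :: y) +
      (-1) ^ x.length * ez (fun m => F ((a, b) :: m)) (a :: x) y := by
  rw [ez]

theorem ez_add (F G : List (S × Y) → ℝ) (x : List S) (y : List Y) :
    ez (fun m => F m + G m) x y = ez F x y + ez G x y := by
  suffices h : ∀ (n : ℕ) (F G : List (S × Y) → ℝ) (x : List S) (y : List Y),
      x.length + y.length = n → ez (fun m => F m + G m) x y = ez F x y + ez G x y from
    h _ F G x y rfl
  intro n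
  induction n with
  | zero =>
    intro F G x y h
    have hx : x = [] := List.length_eq_zero_iff.mp (by omega)
    subst hx
    simp [ez_nil_left]
  | succ n ih =>
    intro F G x y h
    cases x with
    | nil => simp [ez_nil_left]
    | cons a x =>
      cases y with
      | nil => simp [ez_nil_right]
      | cons b y =>
        rw [List.length_cons, List.length_cons] at h
        rw [ez_cons, ez_cons, ez_cons]
        rw [ih (fun m => F ((a, b) :: m)) (fun m => G ((a, b) :: m)) x (b :: y)
            (by rw [List.length_cons]; omega),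
          ih (fun m => F ((a, b) :: m)) (fun m => G ((a, b) :: m)) (a :: x) y
            (by rw [List.length_cons]; omega)]
        split_ifs <;> ring

theorem ez_smul (c : ℝ) (F : List (S × Y) → ℝ) (x : List S) (y : List Y) :
    ez (fun m => c * F m) x y = c * ez F x y := by
  suffices h : ∀ (n : ℕ) (F : List (S × Y) → ℝ) (x : List S) (y : List Y),
      x.length + y.length = n → ez (fun m => c * F m) x y = c * ez F x y from
    h _ F x y rfl
  intro n
  induction n with
  | zero =>
    intro F x y h
    have hx : x = [] := List.length_eq_zero_iff.mp (by omega)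
    subst hx
    simp [ez_nil_left]
  | succ n ih =>
    intro F x y h
    cases x with
    | nil => simp [ez_nil_left]
    | cons a x =>
      cases y with
      | nil => simp [ez_nil_right]
      | cons b y =>
        rw [List.length_cons, List.length_cons] at h
        rw [ez_cons, ez_cons]
        rw [ih (fun m => F ((a, b) :: m)) x (b :: y)
            (by rw [List.length_cons]; omega),
          ih (fun m => F ((a, b) :: m)) (a :: x) y
            (by rw [List.length_cons]; omega)]
        split_ifs <;> ring

theorem ez_sub (F G : List (S × Y) → ℝ) (x : List S) (y : List Y) :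
    ez (fun m => F m - G m) x y = ez F x y - ez G x y := by
  have h := ez_add F (fun m => (-1) * G m) x y
  rw [ez_smul] at h
  have h1 : (fun m => F m - G m) = fun m => F m + (-1) * G m := by
    funext m
    ring
  rw [h1, h]
  ring

/-- Only the values of `F` on lists of length `|x| + |y| - 1` matter. -/
theorem ez_congr (F G : List (S × Y) → ℝ) (x : List S) (y : List Y)
    (h : ∀ m : List (S × Y), m.length + 1 = x.length + y.length → F m = G m) :
    ez F x y = ez G x y := by
  suffices h' : ∀ (n : ℕ) (F G : List (S × Y) → ℝ) (x : List S) (y : List Y),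
      x.length + y.length = n →
      (∀ m : List (S × Y), m.length + 1 = x.length + y.length → F m = G m) →
      ez F x y = ez G x y from h' _ F G x y rfl h
  intro n
  induction n with
  | zero =>
    intro F G x y h _
    have hx : x = [] := List.length_eq_zero_iff.mp (by omega)
    subst hx
    simp [ez_nil_left]
  | succ n ih =>
    intro F G x y h hFG
    cases x with
    | nil => simp [ez_nil_left]
    | cons a x =>
      cases y with
      | nil => simp [ez_nil_right]
      | cons b y =>
        rw [List.length_cons, List.length_cons] at h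
        simp only [List.length_cons] at hFG
        rw [ez_cons, ez_cons]
        rw [ih (fun m => F ((a, b) :: m)) (fun m => G ((a, b) :: m)) x (b :: y)
            (by rw [List.length_cons]; omega)
            (fun m hm => hFG _ (by
              rw [List.length_cons] at hm
              rw [List.length_cons]; omega)),
          ih (fun m => F ((a, b) :: m)) (fun m => G ((a, b) :: m)) (a :: x) y
            (by rw [List.length_cons]; omega)
            (fun m hm => hFG _ (by
              rw [List.length_cons] at hm
              rw [List.length_cons]; omega))]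
        congr 2
        by_cases hc : (x.isEmpty && y.isEmpty) = true
        · rw [if_pos hc, if_pos hc]
          rw [Bool.and_eq_true, List.isEmpty_iff, List.isEmpty_iff] at hc
          obtain ⟨h1, h2⟩ := hc
          subst h1; subst h2
          exact hFG _ rfl
        · rw [if_neg hc, if_neg hc]

/-- Naturality. -/
theorem ez_map {S' Y' : Type} (f : S' → S) (g : Y' → Y) (F : List (S × Y) → ℝ) (x : List S')
    (y : List Y') : ez F (x.map f) (y.map g) = ez (fun m => F (m.map (Prod.map f g))) x y := by
  suffices h' : ∀ (n : ℕ) (F : List (S × Y) → ℝ) (x : List S') (y : List Y'),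
      x.length + y.length = n →
      ez F (x.map f) (y.map g) = ez (fun m => F (m.map (Prod.map f g))) x y from
    h' _ F x y rfl
  intro n
  induction n with
  | zero =>
    intro F x y h
    have hx : x = [] := List.length_eq_zero_iff.mp (by omega)
    subst hx
    simp [ez_nil_left]
  | succ n ih =>
    intro F x y h
    cases x with
    | nil => simp [ez_nil_left]
    | cons a x =>
      cases y with
      | nil => simp [ez_nil_right]
      | cons b y =>
        rw [List.length_cons, List.length_cons] at h
        have h1 := ih (fun m => F ((f a, g b) :: m)) x (b :: y)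
          (by rw [List.length_cons]; omega)
        have h2 := ih (fun m => F ((f a, g b) :: m)) (a :: x) y
          (by rw [List.length_cons]; omega)
        rw [List.map_cons] at h1 h2
        rw [List.map_cons, List.map_cons, ez_cons, ez_cons, h1, h2]
        simp [List.length_map, Prod.map]

/-- A bound that depends only on the lengths. -/
theorem abs_ez_le (p q : ℕ) : ∃ K : ℝ, 0 ≤ K ∧ ∀ (F : List (S × Y) → ℝ) (C : ℝ), 0 ≤ C →
    (∀ m, |F m| ≤ C) → ∀ (x : List S) (y : List Y), x.length = p → y.length = q →
    |ez F x y| ≤ K * C := by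
  suffices h : ∀ (n p q : ℕ), p + q = n → ∃ K : ℝ, 0 ≤ K ∧
      ∀ (F : List (S × Y) → ℝ) (C : ℝ), 0 ≤ C →
      (∀ m, |F m| ≤ C) → ∀ (x : List S) (y : List Y), x.length = p → y.length = q →
      |ez F x y| ≤ K * C from h _ p q rfl
  intro n
  induction n with
  | zero =>
    intro p q h
    refine ⟨0, le_rfl, fun F C _ _ x y hx _ => ?_⟩
    have hx : x = [] := List.length_eq_zero_iff.mp (by omega)
    subst hx
    simp [ez_nil_left]
  | succ n ih =>
    intro p q h
    cases p with
    | zero =>
      refine ⟨0, le_rfl, fun F C _ _ x y hx _ => ?_⟩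
      have hx : x = [] := List.length_eq_zero_iff.mp (by omega)
      subst hx
      simp [ez_nil_left]
    | succ p =>
      cases q with
      | zero =>
        refine ⟨0, le_rfl, fun F C _ _ x y _ hy => ?_⟩
        have hy : y = [] := List.length_eq_zero_iff.mp (by omega)
        subst hy
        simp [ez_nil_right]
      | succ q =>
        obtain ⟨K1, hK1, h1⟩ := ih p (q + 1) (by omega)
        obtain ⟨K2, hK2, h2⟩ := ih (p + 1) q (by omega)
        refine ⟨1 + K1 + K2, by positivity, fun F C hC hF x y hx hy => ?_⟩
        cases x with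
        | nil => simp at hx
        | cons a x =>
          cases y with
          | nil => simp at hy
          | cons b y =>
            rw [List.length_cons] at hx hy
            have e1 := h1 (fun m => F ((a, b) :: m)) C hC (fun m => hF _) x (b :: y)
              (by omega) (by rw [List.length_cons]; omega)
            have e2 := h2 (fun m => F ((a, b) :: m)) C hC (fun m => hF _) (a :: x) y
              (by rw [List.length_cons]; omega) (by omega)
            rw [ez_cons]
            have e3 : |(if x.isEmpty && y.isEmpty then F [(a, b)] else 0 : ℝ)| ≤ C := by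
              split_ifs
              · exact hF _
              · rw [abs_zero]; exact hC
            have e4 : |(-1 : ℝ) ^ x.length * ez (fun m => F ((a, b) :: m)) (a :: x) y| ≤
                K2 * C := by
              rw [abs_mul, abs_pow, abs_neg, abs_one, one_pow, one_mul]
              exact e2
            have e5 := abs_add_le ((if x.isEmpty && y.isEmpty then F [(a, b)] else 0 : ℝ) +
              ez (fun m => F ((a, b) :: m)) x (b :: y))
              ((-1 : ℝ) ^ x.length * ez (fun m => F ((a, b) :: m)) (a :: x) y)
            have e6 := abs_add_le (if x.isEmpty && y.isEmpty then F [(a, b)] else 0 : ℝ)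
              (ez (fun m => F ((a, b) :: m)) x (b :: y))
            linarith

private theorem EZ_dd_ind {Z : Type} (q : Bool) (c : ℝ) (w : List Z) :
    dd (fun u : List Z => if u.isEmpty && q then c else 0) w =
      if w.length = 1 ∧ q = true then c else 0 := by
  cases w with
  | nil => simp
  | cons a w =>
    rw [dd_cons]
    have h0 : dd (fun m : List Z => if (a :: m).isEmpty && q then c else 0) w = 0 := by
      have : (fun m : List Z => if (a :: m).isEmpty && q then c else 0) = fun _ => 0 := by
        funext m
        simp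
      rw [this, dd_zero]
    rw [h0, sub_zero]
    cases w with
    | nil => simp
    | cons b w => simp

private theorem EZ_dd_ind' {Z : Type} (q : Bool) (c : ℝ) (w : List Z) :
    dd (fun u : List Z => if q && u.isEmpty then c else 0) w =
      if w.length = 1 ∧ q = true then c else 0 := by
  rw [← EZ_dd_ind q c w]
  congr 1
  funext u
  rw [Bool.and_comm]

theorem ez_dd (F : List (S × Y) → ℝ) (x : List S) (y : List Y) (hx : x ≠ []) (hy : y ≠ []) :
    ez (dd F) x y = dd (fun u => ez F u y) x + (-1) ^ (x.length - 1) * dd (fun v => ez F x v) y +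
      (if x.length = 1 ∧ y.length = 1 then F [] else 0) := by
  suffices h' : ∀ (n : ℕ) (F : List (S × Y) → ℝ) (x : List S) (y : List Y),
      x.length + y.length = n → x ≠ [] → y ≠ [] →
      ez (dd F) x y = dd (fun u => ez F u y) x + (-1) ^ (x.length - 1) * dd (fun v => ez F x v) y +
        (if x.length = 1 ∧ y.length = 1 then F [] else 0) from h' _ F x y rfl hx hy
  intro n
  induction n with
  | zero =>
    intro F x y h hx _
    exact absurd (List.length_eq_zero_iff.mp (by omega)) hx
  | succ n ih =>
    intro F x y h hx hy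
    cases x with
    | nil => exact absurd rfl hx
    | cons a x =>
      cases y with
      | nil => exact absurd rfl hy
      | cons b y =>
        rw [List.length_cons, List.length_cons] at h
        -- notation
        obtain ⟨A, hA⟩ : ∃ A : List (S × Y) → ℝ, A = fun m => F ((a, b) :: m) := ⟨_, rfl⟩
        have hddF : (fun m => dd F ((a, b) :: m)) = fun m => F m - dd A m := by
          funext m
          rw [dd_cons, hA]
        -- left side
        have hL : ez (dd F) (a :: x) (b :: y) =
            (if x.isEmpty && y.isEmpty then F [] else 0) +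
            (ez F x (b :: y) - ez (dd A) x (b :: y)) +
            (-1) ^ x.length * (ez F (a :: x) y - ez (dd A) (a :: x) y) := by
          rw [ez_cons, hddF, ez_sub, ez_sub]
          congr 2
          rw [dd_cons, dd_nil, sub_zero]
        -- right side, first term
        have hR1 : dd (fun u => ez F u (b :: y)) (a :: x) = ez F x (b :: y) -
            ((if x.length = 1 ∧ y.isEmpty = true then A [] else 0) +
              dd (fun u => ez A u (b :: y)) x +
              (-(-1) ^ x.length) * dd (fun u => ez A (a :: u) y) x) := by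
          rw [dd_cons, ← EZ_dd_ind y.isEmpty (A []) x, ← dd_smul, ← dd_add, ← dd_add]
          congr 1
          apply dd_congr
          intro u hu
          rw [ez_cons, ← hu, pow_succ, hA]
          ring
        have hR2 : dd (fun v => ez F (a :: x) v) (b :: y) = ez F (a :: x) y -
            ((if y.length = 1 ∧ x.isEmpty = true then A [] else 0) +
              dd (fun v => ez A x (b :: v)) y +
              (-1) ^ x.length * dd (fun v => ez A (a :: x) v) y) := by
          rw [dd_cons, ← EZ_dd_ind' x.isEmpty (A []) y, ← dd_smul, ← dd_add, ← dd_add]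
          congr 1
          apply dd_congr
          intro v hv
          rw [ez_cons, hA]
        rw [hL, hR1, hR2]
        have hs : ((-1 : ℝ) ^ x.length) * ((-1 : ℝ) ^ x.length) = 1 := by
          rw [← mul_pow]
          norm_num
        cases x with
        | nil =>
          have z1 : (fun v => ez A [] (b :: v)) = fun _ => (0 : ℝ) := by
            funext v
            rw [ez_nil_left]
          cases y with
          | nil => simp [ez_nil_left, ez_nil_right]
          | cons b' y =>
            have hI2 := ih A [a] (b' :: y) (by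
              simp only [List.length_cons, List.length_nil] at h ⊢; omega) (by simp) (by simp)
            rw [hI2, dd_cons, z1, dd_zero]
            simp [ez_nil_left]
            ring
        | cons a' x =>
          have hs1 : (-1 : ℝ) ^ ((a' :: x).length - 1) = - (-1) ^ (a' :: x).length := by
            simp [pow_succ]
          have hI1 := ih A (a' :: x) (b :: y) (by
              simp only [List.length_cons] at h ⊢; omega) (by simp) (by simp)
          rw [hs1, dd_cons _ b y] at hI1
          cases y with
          | nil =>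
            have z1 : (fun u => ez A (a :: u) ([] : List Y)) = fun _ => (0 : ℝ) := by
              funext u
              rw [ez_nil_right]
            rw [hI1, z1, dd_zero]
            simp [ez_nil_right]
            ring
          | cons b' y =>
            have hI2 := ih A (a :: a' :: x) (b' :: y) (by
              simp only [List.length_cons] at h ⊢; omega) (by simp) (by simp)
            rw [dd_cons _ a (a' :: x)] at hI2
            rw [hI1, hI2]
            simp only [List.length_cons, List.isEmpty_cons, Bool.and_false, Bool.false_and,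
              Bool.false_eq_true, if_false, and_false, Nat.add_sub_cancel,
              Nat.add_eq_right, false_and] at hs ⊢
            simp
            ring

end SimplVol

end S_EZ

section S_AW

/-!
# Module AW: front faces and back faces

`aw G [(x₀,y₀), …, (x_k,y_k)] = ∑_{p=0}^{k} G [x₀,…,x_p] [y_p,…,y_k]`.
PROOF of `aw_dtot`. Induction on `l`, for all `G`, starting with one-element lists. Write `l = z :: l'`, `x = z.1`,
`y = z.2`, `ys' = l'.map Prod.snd`, `G_x a b := G (x :: a) b`. For nonempty `a`:
 dtot G (x :: a) b = dd (fun u => G u b) (x :: a) + (-1)^|a| dd (G (x :: a)) b = G a b - dtot G_x a b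
(as `dd (fun u => G u b) (x :: a) = G a b - dd (fun u => G_x u b) a` and `(-1)^|a| = -(-1)^(|a|-1)`).
Case `l' = []`: both sides are `G [] [y] + G [x] []` (note `aw G [] = 0`).
Case `l' ≠ []`: in `aw (fun a b => dtot G (x :: a) b) l'` only nonempty `a`, `b` occur (`aw_congr`), so it is
 `aw G l' - aw (dtot G_x) l'`, and by induction `aw (dtot G_x) l' = dd (aw G_x) l' + G [x] ys' + (-1)^(|l'|-1) G (x :: xs') []`.
 `dtot G [x] (y :: ys') = G [] (y :: ys') + G [x] ys' - dd (fun b => G [x] (y :: b)) ys'`.
 `dd (aw G) (z :: l') = aw G l' - dd (fun m => G [x] (y :: m.map snd) + aw G_x m) l'`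
 `= aw G l' - dd (fun b => G [x] (y :: b)) ys' - dd (aw G_x) l'` (`dd_map`).
 Subtract: `aw (dtot G) l - dd (aw G) l = G [] (y :: ys') - (-1)^(|l'|-1) G (x :: xs') []`, and `-(-1)^(|l'|-1) = (-1)^(|l|-1)`.
-/

set_option autoImplicit false

open scoped BigOperators Nat

namespace SimplVol

variable {S Y : Type}

/-- The sum over all decompositions into a front face and a back face. -/
def aw : (List S → List Y → ℝ) → List (S × Y) → ℝ
  | _, [] => 0
  | G, z :: l => G [z.1] (z.2 :: l.map Prod.snd) + aw (fun a b => G (z.1 :: a) b) l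

theorem aw_nil (G : List S → List Y → ℝ) : aw G [] = 0 := rfl

theorem aw_cons (G : List S → List Y → ℝ) (z : S × Y) (l : List (S × Y)) :
    aw G (z :: l) = G [z.1] (z.2 :: l.map Prod.snd) + aw (fun a b => G (z.1 :: a) b) l := rfl

/-- The total coboundary. -/
def dtot (G : List S → List Y → ℝ) (a : List S) (b : List Y) : ℝ :=
  dd (fun u => G u b) a + (-1) ^ (a.length - 1) * dd (G a) b

theorem aw_add (G H : List S → List Y → ℝ) (l : List (S × Y)) :
    aw (fun a b => G a b + H a b) l = aw G l + aw H l := by
  induction l generalizing G H with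
  | nil => simp [aw_nil]
  | cons z l ih =>
    rw [aw_cons, aw_cons, aw_cons, ih (fun a b => G (z.1 :: a) b) (fun a b => H (z.1 :: a) b)]
    ring

theorem aw_sub (G H : List S → List Y → ℝ) (l : List (S × Y)) :
    aw (fun a b => G a b - H a b) l = aw G l - aw H l := by
  induction l generalizing G H with
  | nil => simp [aw_nil]
  | cons z l ih =>
    rw [aw_cons, aw_cons, aw_cons, ih (fun a b => G (z.1 :: a) b) (fun a b => H (z.1 :: a) b)]
    ring

theorem aw_smul (c : ℝ) (G : List S → List Y → ℝ) (l : List (S × Y)) :
    aw (fun a b => c * G a b) l = c * aw G l := by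
  induction l generalizing G with
  | nil => simp [aw_nil]
  | cons z l ih =>
    rw [aw_cons, aw_cons, ih (fun a b => G (z.1 :: a) b)]
    ring

/-- The explicit formula. -/
theorem aw_eq_sum (G : List S → List Y → ℝ) (l : List (S × Y)) :
    aw G l = ∑ p ∈ Finset.range l.length,
      G ((l.map Prod.fst).take (p + 1)) ((l.map Prod.snd).drop p) := by
  induction l generalizing G with
  | nil => simp [aw_nil]
  | cons z l ih =>
    rw [aw_cons, ih, List.length_cons, Finset.sum_range_succ']
    simp only [List.map_cons, List.take_succ_cons, List.drop_succ_cons, List.drop_zero,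
      List.take_zero]
    ring

/-- Only nonempty front faces `a` and back faces `b` with `|a| + |b| = |l| + 1` occur. -/
theorem aw_congr (G H : List S → List Y → ℝ) (l : List (S × Y))
    (h : ∀ (a : List S) (b : List Y), a ≠ [] → b ≠ [] → a.length + b.length = l.length + 1 →
      a <+: l.map Prod.fst → b <:+ l.map Prod.snd → G a b = H a b) : aw G l = aw H l := by
  rw [aw_eq_sum, aw_eq_sum]
  refine Finset.sum_congr rfl fun p hp => ?_
  rw [Finset.mem_range] at hp
  have h1 : ((l.map Prod.fst).take (p + 1)).length = p + 1 := by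
    rw [List.length_take, List.length_map]
    omega
  have h2 : ((l.map Prod.snd).drop p).length = l.length - p := by
    rw [List.length_drop, List.length_map]
  refine h _ _ ?_ ?_ ?_ (List.take_prefix _ _) (List.drop_suffix _ _)
  · intro e
    rw [e, List.length_nil] at h1
    omega
  · intro e
    rw [e, List.length_nil] at h2
    omega
  · rw [h1, h2]
    omega

/-- Naturality. -/
theorem aw_map {S' Y' : Type} (f : S' → S) (g : Y' → Y) (G : List S → List Y → ℝ)
    (l : List (S' × Y')) :
    aw G (l.map (Prod.map f g)) = aw (fun a b => G (a.map f) (b.map g)) l := by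
  induction l generalizing G with
  | nil => rfl
  | cons z l ih =>
    have h1 : (l.map (Prod.map f g)).map Prod.snd = (l.map Prod.snd).map g := by
      rw [List.map_map, List.map_map]
      rfl
    rw [List.map_cons, aw_cons, aw_cons, ih, h1]
    rfl

theorem abs_aw_le (G : List S → List Y → ℝ) (C : ℝ) (l : List (S × Y))
    (h : ∀ (a : List S) (b : List Y), a ≠ [] → b ≠ [] → a.length + b.length = l.length + 1 →
      |G a b| ≤ C) : |aw G l| ≤ l.length * C := by
  rw [aw_eq_sum]
  refine (Finset.abs_sum_le_sum_abs _ _).trans ?_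
  have h3 : ∑ p ∈ Finset.range l.length,
      |G ((l.map Prod.fst).take (p + 1)) ((l.map Prod.snd).drop p)| ≤
      ∑ _p ∈ Finset.range l.length, C := by
    refine Finset.sum_le_sum fun p hp => ?_
    rw [Finset.mem_range] at hp
    have h1 : ((l.map Prod.fst).take (p + 1)).length = p + 1 := by
      rw [List.length_take, List.length_map]
      omega
    have h2 : ((l.map Prod.snd).drop p).length = l.length - p := by
      rw [List.length_drop, List.length_map]
    refine h _ _ ?_ ?_ ?_
    · intro e
      rw [e, List.length_nil] at h1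
      omega
    · intro e
      rw [e, List.length_nil] at h2
      omega
    · rw [h1, h2]
      omega
  rw [Finset.sum_const, Finset.card_range, nsmul_eq_mul] at h3
  exact h3

theorem aw_dtot (G : List S → List Y → ℝ) (l : List (S × Y)) (hl : l ≠ []) :
    aw (dtot G) l = dd (aw G) l + G [] (l.map Prod.snd) +
      (-1) ^ (l.length - 1) * G (l.map Prod.fst) [] := by
  induction l generalizing G with
  | nil => exact absurd rfl hl
  | cons z l ih =>
    by_cases h0 : l = []
    · subst h0
      rw [aw_cons, aw_nil, dd_cons, dd_nil, aw_nil]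
      show dtot G [z.1] [z.2] + 0 = 0 - 0 + G [] [z.2] + (-1) ^ 0 * G [z.1] []
      unfold dtot
      rw [dd_cons, dd_cons, dd_nil, dd_nil]
      simp
    · have hlen : 1 ≤ l.length := by
        rcases l with _ | ⟨w, l⟩
        · exact absurd rfl h0
        · rw [List.length_cons]
          omega
      have hih := ih (fun a b => G (z.1 :: a) b) h0
      have h1 : aw (fun a b => dtot G (z.1 :: a) b) l =
          aw G l - aw (dtot (fun a b => G (z.1 :: a) b)) l := by
        rw [← aw_sub]
        refine aw_congr _ _ _ ?_
        intro a b ha _ _ _ _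
        have hal : 1 ≤ a.length := by
          rcases a with _ | ⟨w, a⟩
          · exact absurd rfl ha
          · rw [List.length_cons]
            omega
        unfold dtot
        rw [dd_cons, List.length_cons, Nat.add_sub_cancel]
        have hp : (-1 : ℝ) ^ a.length = -(-1) ^ (a.length - 1) := by
          obtain ⟨k, hk⟩ : ∃ k, a.length = k + 1 := ⟨a.length - 1, by omega⟩
          rw [hk, Nat.add_sub_cancel, pow_succ]
          ring
        rw [hp]
        ring
      have h2 : dtot G [z.1] (z.2 :: l.map Prod.snd) = G [] (z.2 :: l.map Prod.snd) +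
          G [z.1] (l.map Prod.snd) - dd (fun b => G [z.1] (z.2 :: b)) (l.map Prod.snd) := by
        unfold dtot
        rw [dd_cons, dd_nil, dd_cons, List.length_singleton, Nat.sub_self, pow_zero]
        ring
      have h3 : dd (aw G) (z :: l) = aw G l - (dd (fun b => G [z.1] (z.2 :: b)) (l.map Prod.snd) +
          dd (aw (fun a b => G (z.1 :: a) b)) l) := by
        rw [dd_cons, ← dd_map Prod.snd (fun b => G [z.1] (z.2 :: b)) l, ← dd_add]
        rfl
      have hp : (-1 : ℝ) ^ l.length = -(-1) ^ (l.length - 1) := by
        obtain ⟨k, hk⟩ : ∃ k, l.length = k + 1 := ⟨l.length - 1, by omega⟩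
        rw [hk, Nat.add_sub_cancel, pow_succ]
        ring
      rw [aw_cons, h1, h2, h3, hih, List.length_cons, Nat.add_sub_cancel, List.map_cons,
        List.map_cons, hp]
      ring

end SimplVol

end S_AW

section S_AL

/-!
# Module AL: alternation

* `altL_ofFn`: `(List.ofFn y).length = k` (`List.length_ofFn`); prove first: for every list `l` and every `k` with
  `h : l.length = k`, `altL G l = (1/k!) ∑ σ : Perm (Fin k), sgn σ * G (List.ofFn fun i => l.get (Fin.cast h.symm (σ i)))`
  (`subst h`), and use `List.get_ofFn`.
* `altL_perm`: substitute `σ ↦ π * σ` (`Equiv.sum_comp (Equiv.mulLeft π)`), `sign_mul`.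
* `dd_altL` (for a list `List.ofFn y` with `k + 1` entries; `dd_ofFn`): for `i : Fin (k+1)`, `i.succAbove = c_i ∘ Fin.succ` where `c_i = i.cycleRange.symm` (or `i.cycleRange⁻¹`;
  `Fin.cycleRange_symm_succ`), `sign c_i = (-1)^i` (`Fin.sign_cycleRange`). So
  `altL (dd G) y = (1/(k+1)!) ∑_σ sgn σ ∑_i (-1)^i G (y ∘ σ ∘ c_i ∘ succ) = (1/(k+1)!) ∑_i ∑_σ' sgn σ' G (y ∘ σ' ∘ succ)`
  (`σ' = σ * c_i`) `= (1/k!) ∑_σ' sgn σ' G (y ∘ σ' ∘ succ)`. Every `σ'` is uniquely `c_j * (extension of σ'' : Perm (Fin k)
  fixing 0)` with `j = σ' 0`, so that `σ' ∘ succ = j.succAbove ∘ σ''`, `sgn σ' = (-1)^j sgn σ''`: the map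
  `(j, σ'') ↦ c_j * decomposeFin.symm (0, σ'')` is a bijection `Fin (k+1) × Perm (Fin k) → Perm (Fin (k+1))`
  (injective: apply to `0` to get `j`; `Fintype.bijective_iff_injective_and_card`, `Fintype.card_perm`), see also
  `Equiv.Perm.decomposeFin`, `Equiv.Perm.decomposeFin.symm_sign`, `Matrix.det_succ_row_zero`'s proof. Hence it is
  `∑_j (-1)^j (1/k!) ∑_σ'' sgn σ'' G (y ∘ j.succAbove ∘ σ'') = dd (altL G) y`.
-/

set_option autoImplicit false

open scoped BigOperators Nat

namespace SimplVol

variable {Y : Type}

/-- The alternation of a function of lists. -/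
noncomputable def altL (G : List Y → ℝ) (l : List Y) : ℝ :=
  (1 / ((l.length)! : ℝ)) * ∑ σ : Equiv.Perm (Fin l.length), ((Equiv.Perm.sign σ : ℤ) : ℝ) *
    G (List.ofFn fun i => l.get (σ i))

theorem altL_eq (G : List Y → ℝ) (l : List Y) (k : ℕ) (h : l.length = k) :
    altL G l = (1 / (k ! : ℝ)) * ∑ σ : Equiv.Perm (Fin k), ((Equiv.Perm.sign σ : ℤ) : ℝ) *
      G (List.ofFn fun i => l.get (Fin.cast h.symm (σ i))) := by
  subst h
  rfl

theorem altL_ofFn {k : ℕ} (G : List Y → ℝ) (y : Fin k → Y) :
    altL G (List.ofFn y) = (1 / (k ! : ℝ)) * ∑ σ : Equiv.Perm (Fin k),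
      ((Equiv.Perm.sign σ : ℤ) : ℝ) * G (List.ofFn fun i => y (σ i)) := by
  rw [altL_eq G (List.ofFn y) k List.length_ofFn]
  congr 1
  refine Finset.sum_congr rfl fun σ _ => ?_
  congr 3
  funext i
  rw [List.get_ofFn]
  congr 1

theorem altL_nil (G : List Y → ℝ) : altL G [] = G [] := by
  have := altL_ofFn (k := 0) G (fun i => i.elim0)
  simpa using this

theorem altL_singleton (G : List Y → ℝ) (y : Y) : altL G [y] = G [y] := by
  have := altL_ofFn (k := 1) G (fun _ => y)
  simpa using this

theorem altL_perm {k : ℕ} (G : List Y → ℝ) (y : Fin k → Y) (π : Equiv.Perm (Fin k)) :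
    altL G (List.ofFn fun i => y (π i)) =
      ((Equiv.Perm.sign π : ℤ) : ℝ) * altL G (List.ofFn y) := by
  rw [altL_ofFn, altL_ofFn]
  rw [← Equiv.sum_comp (Equiv.mulLeft π) (fun σ : Equiv.Perm (Fin k) =>
    ((Equiv.Perm.sign σ : ℤ) : ℝ) * G (List.ofFn fun i => y (σ i)))]
  have h1 : ((Equiv.Perm.sign π : ℤ) : ℝ) * ((Equiv.Perm.sign π : ℤ) : ℝ) = 1 := by
    rcases Int.units_eq_one_or (Equiv.Perm.sign π) with h | h <;> rw [h] <;> norm_num
  rw [mul_left_comm]
  congr 1
  rw [Finset.mul_sum]
  refine Finset.sum_congr rfl fun σ _ => ?_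
  rw [Equiv.coe_mulLeft, Equiv.Perm.sign_mul]
  push_cast
  have h2 : (fun i => y ((⇑π ∘ ⇑σ) i)) = fun i => y (π (σ i)) := rfl
  rw [h2]
  linear_combination (-(((Equiv.Perm.sign σ : ℤ) : ℝ) *
    G (List.ofFn fun i => y (π (σ i))))) * h1

theorem altL_add (G H : List Y → ℝ) (l : List Y) :
    altL (fun m => G m + H m) l = altL G l + altL H l := by
  unfold altL
  rw [← mul_add, ← Finset.sum_add_distrib]
  congr 1
  exact Finset.sum_congr rfl fun σ _ => by ring

theorem altL_sub (G H : List Y → ℝ) (l : List Y) :
    altL (fun m => G m - H m) l = altL G l - altL H l := by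
  unfold altL
  rw [← mul_sub, ← Finset.sum_sub_distrib]
  congr 1
  exact Finset.sum_congr rfl fun σ _ => by ring

theorem altL_smul (c : ℝ) (G : List Y → ℝ) (l : List Y) :
    altL (fun m => c * G m) l = c * altL G l := by
  unfold altL
  rw [mul_left_comm]
  congr 1
  rw [Finset.mul_sum]
  exact Finset.sum_congr rfl fun σ _ => by ring

/-- Only the values on lists of the same length matter. -/
theorem altL_congr (G H : List Y → ℝ) (l : List Y) (h : ∀ m, m.length = l.length → G m = H m) :
    altL G l = altL H l := by
  unfold altL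
  congr 1
  exact Finset.sum_congr rfl fun σ _ => by rw [h _ List.length_ofFn]

theorem altL_map {Y' : Type} (f : Y' → Y) (G : List Y → ℝ) (l : List Y') :
    altL G (l.map f) = altL (fun m => G (m.map f)) l := by
  rw [altL_eq G (l.map f) l.length (List.length_map _)]
  unfold altL
  congr 1
  refine Finset.sum_congr rfl fun σ _ => ?_
  congr 2
  rw [List.map_ofFn]
  congr 1
  funext i
  simp

theorem abs_altL_le (G : List Y → ℝ) (C : ℝ) (l : List Y)
    (h : ∀ m, m.length = l.length → |G m| ≤ C) : |altL G l| ≤ C := by
  unfold altL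
  have hpos : (0 : ℝ) < (l.length ! : ℝ) := by exact_mod_cast Nat.factorial_pos _
  rw [abs_mul, abs_of_pos (by positivity)]
  have h1 : |∑ σ : Equiv.Perm (Fin l.length), ((Equiv.Perm.sign σ : ℤ) : ℝ) *
      G (List.ofFn fun i => l.get (σ i))| ≤ (l.length ! : ℝ) * C := by
    refine (Finset.abs_sum_le_sum_abs _ _).trans ?_
    calc ∑ σ : Equiv.Perm (Fin l.length), |((Equiv.Perm.sign σ : ℤ) : ℝ) *
          G (List.ofFn fun i => l.get (σ i))| ≤ ∑ _σ : Equiv.Perm (Fin l.length), C := by
          refine Finset.sum_le_sum fun σ _ => ?_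
          rw [abs_mul]
          have h2 : |((Equiv.Perm.sign σ : ℤ) : ℝ)| = 1 := by
            rcases Int.units_eq_one_or (Equiv.Perm.sign σ) with h | h <;> rw [h] <;> norm_num
          rw [h2, one_mul]
          exact h _ List.length_ofFn
      _ = (l.length ! : ℝ) * C := by
          rw [Finset.sum_const, Finset.card_univ, Fintype.card_perm, Fintype.card_fin, nsmul_eq_mul]
  calc 1 / (l.length ! : ℝ) * _ ≤ 1 / (l.length ! : ℝ) * ((l.length ! : ℝ) * C) :=
        mul_le_mul_of_nonneg_left h1 (by positivity)
    _ = C := by field_simp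

theorem dd_altL_aux (k : ℕ) (G : List Y → ℝ) (y : Fin (k + 1) → Y) :
    ∑ σ : Equiv.Perm (Fin (k + 1)), ((Equiv.Perm.sign σ : ℤ) : ℝ) *
      G (List.ofFn fun i : Fin k => y (σ i.succ)) =
    ∑ j : Fin (k + 1), (-1 : ℝ) ^ (j : ℕ) * ∑ τ : Equiv.Perm (Fin k),
      ((Equiv.Perm.sign τ : ℤ) : ℝ) * G (List.ofFn fun i : Fin k => y (j.succAbove (τ i))) := by
  classical
  let f : Fin (k + 1) × Equiv.Perm (Fin k) → Equiv.Perm (Fin (k + 1)) := fun q =>
    q.1.cycleRange.symm * Equiv.Perm.decomposeFin.symm (0, q.2)
  have hf0 : ∀ q, f q 0 = q.1 := by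
    intro q
    simp only [f, Equiv.Perm.mul_apply, Equiv.Perm.decomposeFin_symm_apply_zero,
      Fin.cycleRange_symm_zero]
  have hinj : Function.Injective f := by
    rintro ⟨j, τ⟩ ⟨j', τ'⟩ h
    have h0 : j = j' := by
      have := hf0 (j, τ)
      rw [h, hf0] at this
      exact this.symm
    subst h0
    have h1 : Equiv.Perm.decomposeFin.symm ((0 : Fin (k + 1)), τ)
        = Equiv.Perm.decomposeFin.symm ((0 : Fin (k + 1)), τ') := mul_left_cancel h
    have h2 := Equiv.Perm.decomposeFin.symm.injective h1
    rw [(Prod.mk.inj h2).2]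
  have hbij : Function.Bijective f := by
    rw [Fintype.bijective_iff_injective_and_card]
    refine ⟨hinj, ?_⟩
    rw [Fintype.card_prod, Fintype.card_perm, Fintype.card_perm, Fintype.card_fin,
      Fintype.card_fin, Nat.factorial_succ]
  rw [← hbij.sum_comp (fun σ : Equiv.Perm (Fin (k + 1)) => ((Equiv.Perm.sign σ : ℤ) : ℝ) *
      G (List.ofFn fun i : Fin k => y (σ i.succ)))]
  rw [Fintype.sum_prod_type]
  refine Finset.sum_congr rfl fun j _ => ?_
  rw [Finset.mul_sum]
  refine Finset.sum_congr rfl fun τ _ => ?_
  have h1 : Equiv.Perm.sign (f (j, τ)) = (-1) ^ (j : ℕ) * Equiv.Perm.sign τ := by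
    simp only [f, Equiv.Perm.sign_mul, Equiv.Perm.decomposeFin.symm_sign, if_true, one_mul,
      Equiv.Perm.sign_symm, Fin.sign_cycleRange]
  have h2 : ∀ i : Fin k, f (j, τ) i.succ = j.succAbove (τ i) := by
    intro i
    simp only [f, Equiv.Perm.mul_apply, Equiv.Perm.decomposeFin_symm_apply_succ, Equiv.swap_self,
      Equiv.refl_apply, Fin.cycleRange_symm_succ]
  simp only [h1, h2]
  push_cast
  ring

theorem dd_altL (G : List Y → ℝ) (l : List Y) : dd (altL G) l = altL (dd G) l := by
  classical
  rcases Nat.eq_zero_or_pos l.length with hl | hl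
  · rw [List.length_eq_zero_iff] at hl
    subst hl
    rw [altL_nil, dd_nil, dd_nil]
  · obtain ⟨k, hk⟩ : ∃ k, l.length = k + 1 := ⟨l.length - 1, by omega⟩
    obtain ⟨y, rfl⟩ : ∃ y : Fin (k + 1) → Y, l = List.ofFn y := by
      refine ⟨fun i => l.get (Fin.cast hk.symm i), ?_⟩
      apply List.ext_get
      · rw [List.length_ofFn, hk]
      · intro n h1 h2
        rw [List.get_ofFn]
        rfl
    rw [dd_ofFn, altL_ofFn]
    simp only [altL_ofFn, dd_ofFn]
    have hT : ∀ i : Fin (k + 1),
        ∑ σ : Equiv.Perm (Fin (k + 1)), ((Equiv.Perm.sign σ : ℤ) : ℝ) *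
          ((-1 : ℝ) ^ (i : ℕ) * G (List.ofFn fun j => y (σ (i.succAbove j))))
        = ∑ σ : Equiv.Perm (Fin (k + 1)), ((Equiv.Perm.sign σ : ℤ) : ℝ) *
          G (List.ofFn fun j : Fin k => y (σ j.succ)) := by
      intro i
      rw [← Equiv.sum_comp (Equiv.mulRight i.cycleRange.symm)
        (fun σ : Equiv.Perm (Fin (k + 1)) => ((Equiv.Perm.sign σ : ℤ) : ℝ) *
          G (List.ofFn fun j : Fin k => y (σ j.succ)))]
      refine Finset.sum_congr rfl fun σ _ => ?_
      rw [Equiv.coe_mulRight, Equiv.Perm.sign_mul, Equiv.Perm.sign_symm, Fin.sign_cycleRange]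
      have h2 : (fun j : Fin k => y ((σ * i.cycleRange.symm) j.succ))
          = fun j => y (σ (i.succAbove j)) := by
        funext j
        rw [Equiv.Perm.mul_apply, Fin.cycleRange_symm_succ]
      rw [h2]
      push_cast
      ring
    have hsum : ∑ σ : Equiv.Perm (Fin (k + 1)), ((Equiv.Perm.sign σ : ℤ) : ℝ) *
          ∑ i : Fin (k + 1), (-1 : ℝ) ^ (i : ℕ) * G (List.ofFn fun j => y (σ (i.succAbove j)))
        = ((k : ℝ) + 1) * ∑ σ : Equiv.Perm (Fin (k + 1)), ((Equiv.Perm.sign σ : ℤ) : ℝ) *
          G (List.ofFn fun j : Fin k => y (σ j.succ)) := by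
      simp only [Finset.mul_sum]
      rw [Finset.sum_comm]
      have : ∀ i ∈ (Finset.univ : Finset (Fin (k + 1))),
          ∑ σ : Equiv.Perm (Fin (k + 1)), ((Equiv.Perm.sign σ : ℤ) : ℝ) *
          ((-1 : ℝ) ^ (i : ℕ) * G (List.ofFn fun j => y (σ (i.succAbove j))))
          = ∑ σ : Equiv.Perm (Fin (k + 1)), ((Equiv.Perm.sign σ : ℤ) : ℝ) *
          G (List.ofFn fun j : Fin k => y (σ j.succ)) := fun i _ => hT i
      rw [Finset.sum_congr rfl this, Finset.sum_const, Finset.card_univ, Fintype.card_fin,
        nsmul_eq_mul, Finset.mul_sum]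
      push_cast
      rfl
    rw [hsum, dd_altL_aux, Nat.factorial_succ]
    rw [Finset.mul_sum, Finset.mul_sum]
    refine Finset.sum_congr rfl fun j _ => ?_
    have hk0 : (k ! : ℝ) ≠ 0 := by exact_mod_cast (Nat.factorial_pos k).ne'
    push_cast
    field_simp

end SimplVol

end S_AL

section S_TT

/-!
# Module TT: the natural cochain map `tt`

`tt F l = ∑_p altL (ez F (front face in S)) (back face in Y)`; it is compatible with `dd`.
* `tt_dd`. `l = []`: both sides are `0` (`tt (dd F) [] = dd F [] = 0`). Let `l ≠ []` and `G a b := altL (ez F a) b`, so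
  `G [] b = 0` (`ez_nil_left`, `altL` of `0`), `G a [] = 0` (`altL_nil`, `ez_nil_right`). `tt F m = aw G m` for `m ≠ []`,
  `tt F [] = F []`, `aw G [] = 0`: so `tt F m = aw G m + [m = []] F []`, and `dd (tt F) l = dd (aw G) l + [|l| = 1] F []`
  (`dd_add`; `dd (fun m => if m = [] then c else 0) l = [|l| = 1] c`). `aw_dtot` gives `dd (aw G) l = aw (dtot G) l`. For nonempty `a, b`:
  `dtot G a b = dd (fun u => altL (ez F u) b) a + (-1)^(|a|-1) dd (altL (ez F a)) b`; `altL` at `b` is a finite linear combination
  (unfold `altL`, `dd_smul`, `dd_sum`), so the first term is `altL (fun b' => dd (fun u => ez F u b') a) b`; the second is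
  `altL (fun b' => (-1)^(|a|-1) dd (ez F a) b') b` (`dd_altL`). By `altL_congr`, only `b'` with `|b'| = |b|` (nonempty) matter, and
  by `ez_dd` the sum is `altL (fun b' => ez (dd F) a b' - [|a| = 1 ∧ |b'| = 1] F []) b = altL (ez (dd F) a) b - [|a| = 1 ∧ |b| = 1] F []`.
  Finally `aw (fun a b => [|a| = 1 ∧ |b| = 1] c) l = [|l| = 1] c` (`aw_cons`, `aw_congr`: `|a| + |b| = |l| + 1`).
-/

set_option autoImplicit false

open scoped BigOperators Nat

namespace SimplVol

variable {S Y : Type}

/-- The natural cochain map. -/
noncomputable def tt (F : List (S × Y) → ℝ) : List (S × Y) → ℝ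
  | [] => F []
  | z :: l => aw (fun a b => altL (ez F a) b) (z :: l)

theorem tt_nil (F : List (S × Y) → ℝ) : tt F [] = F [] := rfl

theorem tt_of_ne (F : List (S × Y) → ℝ) (l : List (S × Y)) (hl : l ≠ []) :
    tt F l = aw (fun a b => altL (ez F a) b) l := by
  cases l with
  | nil => exact absurd rfl hl
  | cons z l => rfl

theorem tt_add (F G : List (S × Y) → ℝ) (l : List (S × Y)) :
    tt (fun m => F m + G m) l = tt F l + tt G l := by
  cases l with
  | nil => rfl
  | cons z l =>
    show aw (fun a b => altL (ez (fun m => F m + G m) a) b) (z :: l) =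
      aw (fun a b => altL (ez F a) b) (z :: l) + aw (fun a b => altL (ez G a) b) (z :: l)
    rw [← aw_add]
    congr 1
    funext a b
    rw [← altL_add]
    congr 1
    funext y
    exact ez_add F G a y

theorem tt_sub (F G : List (S × Y) → ℝ) (l : List (S × Y)) :
    tt (fun m => F m - G m) l = tt F l - tt G l := by
  cases l with
  | nil => rfl
  | cons z l =>
    show aw (fun a b => altL (ez (fun m => F m - G m) a) b) (z :: l) =
      aw (fun a b => altL (ez F a) b) (z :: l) - aw (fun a b => altL (ez G a) b) (z :: l)
    rw [← aw_sub]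
    congr 1
    funext a b
    rw [← altL_sub]
    congr 1
    funext y
    exact ez_sub F G a y

theorem tt_smul (c : ℝ) (F : List (S × Y) → ℝ) (l : List (S × Y)) :
    tt (fun m => c * F m) l = c * tt F l := by
  cases l with
  | nil => rfl
  | cons z l =>
    show aw (fun a b => altL (ez (fun m => c * F m) a) b) (z :: l) =
      c * aw (fun a b => altL (ez F a) b) (z :: l)
    rw [← aw_smul]
    congr 1
    funext a b
    rw [← altL_smul]
    congr 1
    funext y
    exact ez_smul c F a y

/-- Only the values of `F` on lists of the same length matter. -/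
theorem tt_congr (F G : List (S × Y) → ℝ) (l : List (S × Y))
    (h : ∀ m : List (S × Y), m.length = l.length → F m = G m) : tt F l = tt G l := by
  cases l with
  | nil => exact h [] rfl
  | cons z l =>
    show aw (fun a b => altL (ez F a) b) (z :: l) = aw (fun a b => altL (ez G a) b) (z :: l)
    refine aw_congr _ _ _ ?_
    intro a b _ _ hab _ _
    refine altL_congr _ _ _ ?_
    intro m hm
    refine ez_congr _ _ _ _ ?_
    intro m' hm'
    refine h m' ?_
    omega

theorem tt_map {S' Y' : Type} (f : S' → S) (g : Y' → Y) (F : List (S × Y) → ℝ)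
    (l : List (S' × Y')) :
    tt F (l.map (Prod.map f g)) = tt (fun m => F (m.map (Prod.map f g))) l := by
  by_cases hl : l = []
  · subst hl
    rfl
  · have hl' : l.map (Prod.map f g) ≠ [] := by
      intro h
      exact hl (List.map_eq_nil_iff.1 h)
    rw [tt_of_ne _ _ hl', tt_of_ne _ _ hl, aw_map]
    congr 1
    funext a b
    rw [altL_map]
    congr 1
    funext m
    exact ez_map f g F a m

theorem abs_tt_le (k : ℕ) : ∃ K : ℝ, 0 ≤ K ∧ ∀ (F : List (S × Y) → ℝ) (C : ℝ), 0 ≤ C →
    (∀ m, |F m| ≤ C) → ∀ l : List (S × Y), l.length = k → |tt F l| ≤ K * C := by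
  choose K hK0 hK using fun p q : ℕ => abs_ez_le (S := S) (Y := Y) p q
  have hs0 : 0 ≤ ∑ p ∈ Finset.range (k + 2), ∑ q ∈ Finset.range (k + 2), K p q :=
    Finset.sum_nonneg fun p _ => Finset.sum_nonneg fun q _ => hK0 p q
  refine ⟨1 + k * ∑ p ∈ Finset.range (k + 2), ∑ q ∈ Finset.range (k + 2), K p q, by positivity, ?_⟩
  intro F C hC hF l hl
  by_cases h : l = []
  · subst h
    have h1 := hF []
    have h2 : 0 ≤ (k * ∑ p ∈ Finset.range (k + 2), ∑ q ∈ Finset.range (k + 2), K p q) * C := by
      positivity
    show |F []| ≤ _
    linarith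
  · rw [tt_of_ne _ _ h]
    have h1 := abs_aw_le (fun a b => altL (ez F a) b)
      ((∑ p ∈ Finset.range (k + 2), ∑ q ∈ Finset.range (k + 2), K p q) * C) l ?_
    · rw [hl] at h1
      calc _ ≤ _ := h1
        _ ≤ _ := by
          have : (k : ℝ) * ((∑ p ∈ Finset.range (k + 2), ∑ q ∈ Finset.range (k + 2), K p q) * C) + C =
            (1 + k * ∑ p ∈ Finset.range (k + 2), ∑ q ∈ Finset.range (k + 2), K p q) * C := by ring
          linarith
    · intro a b _ _ hab
      refine abs_altL_le _ _ _ ?_
      intro m hm
      have h2 := hK a.length m.length F C hC hF a m rfl rfl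
      refine h2.trans (mul_le_mul_of_nonneg_right ?_ hC)
      have hp : a.length ∈ Finset.range (k + 2) := by
        rw [Finset.mem_range]; omega
      have hq : m.length ∈ Finset.range (k + 2) := by
        rw [Finset.mem_range]; omega
      calc K a.length m.length ≤ ∑ q ∈ Finset.range (k + 2), K a.length q :=
            Finset.single_le_sum (fun q _ => hK0 a.length q) hq
        _ ≤ _ := Finset.single_le_sum
            (f := fun p => ∑ q ∈ Finset.range (k + 2), K p q)
            (fun p _ => Finset.sum_nonneg fun q _ => hK0 p q) hp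

theorem TT_altL_zero (l : List Y) : altL (fun _ => 0) l = 0 := by
  unfold altL
  simp

theorem TT_dd_ite {Z : Type} (c : ℝ) (l : List Z) :
    dd (fun m : List Z => if m = [] then c else 0) l = if l.length = 1 then c else 0 := by
  cases l with
  | nil => simp
  | cons a l =>
    rw [dd_cons]
    have h1 : (fun m : List Z => if a :: m = [] then c else 0) = fun _ => 0 := by
      funext m
      simp
    rw [h1, dd_zero]
    cases l <;> simp

theorem TT_dd_altL (H : List S → List Y → ℝ) (a : List S) (b : List Y) :
    dd (fun u => altL (H u) b) a = altL (fun b' => dd (fun u => H u b') a) b := by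
  unfold altL
  rw [dd_smul, dd_sum]
  congr 1
  refine Finset.sum_congr rfl fun σ _ => ?_
  rw [dd_smul]

theorem TT_aw_zero (l : List (S × Y)) : aw (fun _ _ => 0) l = 0 := by
  induction l with
  | nil => rfl
  | cons z l ih =>
    rw [aw_cons, ih, add_zero]

theorem TT_aw_ite (c : ℝ) (l : List (S × Y)) :
    aw (fun a b => if a.length = 1 ∧ b.length = 1 then c else 0) l =
      if l.length = 1 then c else 0 := by
  by_cases h : l.length = 1
  · obtain ⟨z, rfl⟩ := List.length_eq_one_iff.1 h
    rw [aw_cons, aw_nil]
    simp
  · rw [if_neg h]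
    refine Eq.trans (aw_congr _ (fun _ _ => 0) _ ?_) (TT_aw_zero l)
    intro a b _ _ hab _ _
    rw [if_neg]
    rintro ⟨h1, h2⟩
    omega

theorem tt_dd (F : List (S × Y) → ℝ) (l : List (S × Y)) : tt (dd F) l = dd (tt F) l := by
  by_cases hl : l = []
  · subst hl
    rfl
  obtain ⟨G, hG⟩ : ∃ G : List S → List Y → ℝ, G = fun a b => altL (ez F a) b := ⟨_, rfl⟩
  have hG1 : ∀ b, G [] b = 0 := by
    intro b
    rw [hG]
    show altL (ez F []) b = 0
    have h1 : ez F [] = fun _ => 0 := by
      funext y
      exact ez_nil_left F y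
    rw [h1]
    exact TT_altL_zero b
  have hG2 : ∀ a, G a [] = 0 := by
    intro a
    rw [hG]
    show altL (ez F a) [] = 0
    rw [altL_nil, ez_nil_right]
  have hF : tt F = fun m => aw G m + if m = [] then F [] else 0 := by
    funext m
    cases m with
    | nil => simp [tt_nil, aw_nil]
    | cons z m =>
      rw [tt_of_ne _ _ (List.cons_ne_nil z m), hG]
      simp
  rw [hF, dd_add, TT_dd_ite]
  have h3 := aw_dtot G l hl
  rw [hG1, hG2, mul_zero, add_zero, add_zero] at h3
  rw [← h3, ← TT_aw_ite, ← aw_add, tt_of_ne _ _ hl]
  refine aw_congr _ _ _ ?_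
  intro a b ha hb _ _ _
  unfold dtot
  rw [hG]
  show altL (ez (dd F) a) b = dd (fun u => altL (ez F u) b) a +
    (-1) ^ (a.length - 1) * dd (altL (ez F a)) b + _
  rw [TT_dd_altL, dd_altL, ← altL_smul, ← altL_add]
  have h4 : (if a.length = 1 ∧ b.length = 1 then F [] else 0) =
      altL (fun b' : List Y => if a.length = 1 ∧ b'.length = 1 then F [] else 0) b := by
    by_cases h5 : b.length = 1
    · obtain ⟨y, rfl⟩ := List.length_eq_one_iff.1 h5
      rw [altL_singleton]
    · rw [if_neg (fun h => h5 h.2)]
      refine (Eq.trans (altL_congr _ (fun _ => 0) _ ?_) (TT_altL_zero b)).symm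
      intro m hm
      rw [if_neg]
      rintro ⟨_, h6⟩
      omega
  rw [h4, ← altL_add]
  refine altL_congr _ _ _ ?_
  intro m hm
  have hm' : m ≠ [] := by
    rintro rfl
    apply hb
    exact List.length_eq_zero_iff.1 hm.symm
  exact ez_dd F a m ha hm'

end SimplVol

end S_TT

section S_HH

/-!
# Module HH: the homotopy between `tt` and the identity

`hh k F l` is used for lists `l` of length `k`. PROOF of `homotopy`: induction on `k`, for all `F`, `l = z :: l'` with `l'.length = k`.
Put `A := fun m => F (z :: m)`; `(dd F) (z :: m) = F m - dd A m`. By definition and linearity (`hh_sub`, `tt_sub`, `dd_sub`)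
 `hh (k+1) (dd F) l = (F l - dd A l) - (tt F l - tt (dd A) l) - (dd (hh k F) l - dd (hh k (dd A)) l)`
 `= F l - tt F l - dd (hh k F) l - X`, `X = dd A l - tt (dd A) l - dd (hh k (dd A)) l`. Claim `X = 0`.
 If `k = 0`: `l = [z]`, `hh 0 _ = 0`, `dd A [z] = A []`, `tt (dd A) [z] = dd (tt A) [z] = tt A [] = A []` (`tt_dd`).
 If `k = j + 1`: for lists `m` of length `k = j + 1`, by induction `hh (j+1) (dd A) m = A m - tt A m - dd (hh j A) m`; by `dd_congr`
 `dd (hh k (dd A)) l = dd A l - dd (tt A) l - dd (dd (hh j A)) l = dd A l - tt (dd A) l` (`dd_dd`, `tt_dd`).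
`hh_map`: for maps `f : S → S`, `g : Y → Y` (the same spaces): induction on `k`; the first element of `l.map _` is `(f × g) z` and
`(fun m => F ((f × g) z :: m))` composed with `List.map` is `fun m => (F ∘ map) (z :: m)`.
-/

set_option autoImplicit false

open scoped BigOperators Nat

namespace SimplVol

variable {S Y : Type}

/-- The homotopy, defined by recursion on the length. -/
noncomputable def hh : ℕ → (List (S × Y) → ℝ) → List (S × Y) → ℝ
  | 0, _, _ => 0
  | _ + 1, _, [] => 0
  | k + 1, F, z :: l =>
    F (z :: z :: l) - tt (fun m => F (z :: m)) (z :: l) - dd (hh k (fun m => F (z :: m))) (z :: l)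

theorem hh_zero (F : List (S × Y) → ℝ) (l : List (S × Y)) : hh 0 F l = 0 := rfl

theorem hh_succ_cons (k : ℕ) (F : List (S × Y) → ℝ) (z : S × Y) (l : List (S × Y)) :
    hh (k + 1) F (z :: l) = F (z :: z :: l) - tt (fun m => F (z :: m)) (z :: l) -
      dd (hh k (fun m => F (z :: m))) (z :: l) := rfl

theorem hh_sub (k : ℕ) (F G : List (S × Y) → ℝ) (l : List (S × Y)) :
    hh k (fun m => F m - G m) l = hh k F l - hh k G l := by
  induction k generalizing F G l with
  | zero =>
    rw [hh_zero, hh_zero, hh_zero, sub_zero]
  | succ k ih =>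
    cases l with
    | nil =>
      show (0 : ℝ) = 0 - 0
      rw [sub_zero]
    | cons z l =>
      rw [hh_succ_cons, hh_succ_cons, hh_succ_cons,
        tt_sub (fun m => F (z :: m)) (fun m => G (z :: m))]
      have h1 : hh k (fun m => F (z :: m) - G (z :: m)) =
          fun m => hh k (fun m => F (z :: m)) m - hh k (fun m => G (z :: m)) m := by
        funext m
        exact ih (fun m => F (z :: m)) (fun m => G (z :: m)) m
      rw [h1, dd_sub]
      ring

/-- For `|l| = k`, only the values of `F` on lists of length `k + 1` matter. -/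
theorem hh_congr (k : ℕ) (F G : List (S × Y) → ℝ) (l : List (S × Y)) (hl : l.length = k)
    (h : ∀ m : List (S × Y), m.length = k + 1 → F m = G m) : hh k F l = hh k G l := by
  induction k generalizing F G l with
  | zero => rfl
  | succ k ih =>
    cases l with
    | nil => rfl
    | cons z l =>
      rw [List.length_cons] at hl
      rw [hh_succ_cons, hh_succ_cons, h (z :: z :: l) (by simp only [List.length_cons]; omega)]
      have h1 : tt (fun m => F (z :: m)) (z :: l) = tt (fun m => G (z :: m)) (z :: l) := by
        refine tt_congr _ _ _ (fun m hm => h (z :: m) ?_)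
        rw [List.length_cons] at hm ⊢
        omega
      have h2 : dd (hh k (fun m => F (z :: m))) (z :: l) =
          dd (hh k (fun m => G (z :: m))) (z :: l) := by
        refine dd_congr _ _ _ (fun m hm => ?_)
        rw [List.length_cons] at hm
        refine ih (fun m => F (z :: m)) (fun m => G (z :: m)) m (by omega) (fun m' hm' => ?_)
        refine h (z :: m') ?_
        rw [List.length_cons]
        omega
      rw [h1, h2]

theorem hh_zero_fun (k : ℕ) (l : List (S × Y)) : hh k (fun _ : List (S × Y) => (0 : ℝ)) l = 0 := by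
  have h := hh_sub k (fun _ : List (S × Y) => (0 : ℝ)) (fun _ => 0) l
  simp only [sub_self] at h
  exact h

theorem hh_map (f : S → S) (g : Y → Y) (k : ℕ) (F : List (S × Y) → ℝ) (l : List (S × Y)) :
    hh k F (l.map (Prod.map f g)) = hh k (fun m => F (m.map (Prod.map f g))) l := by
  induction k generalizing F l with
  | zero => rfl
  | succ k ih =>
    cases l with
    | nil => rfl
    | cons z l =>
      have h1 := tt_map f g (fun m => F (Prod.map f g z :: m)) (z :: l)
      have h2 : dd (hh k (fun m => F (Prod.map f g z :: m))) ((z :: l).map (Prod.map f g)) =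
          dd (hh k (fun m => F (Prod.map f g z :: m.map (Prod.map f g)))) (z :: l) := by
        rw [← dd_map]
        congr 1
        funext m
        exact ih (fun m => F (Prod.map f g z :: m)) m
      rw [List.map_cons] at h1 h2 ⊢
      rw [hh_succ_cons, hh_succ_cons, h1, h2]
      rfl

theorem abs_hh_le (k : ℕ) : ∃ K : ℝ, 0 ≤ K ∧ ∀ (F : List (S × Y) → ℝ) (C : ℝ), 0 ≤ C →
    (∀ m, |F m| ≤ C) → ∀ l : List (S × Y), l.length = k → |hh k F l| ≤ K * C := by
  induction k with
  | zero =>
    refine ⟨0, le_rfl, fun F C hC _ l _ => ?_⟩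
    rw [hh_zero, abs_zero, zero_mul]
  | succ k ih =>
    obtain ⟨K, hK, h⟩ := ih
    obtain ⟨K', hK', h'⟩ := abs_tt_le (S := S) (Y := Y) (k + 1)
    refine ⟨1 + K' + (k + 1) * K, by positivity, fun F C hC hF l hl => ?_⟩
    cases l with
    | nil =>
      rw [List.length_nil] at hl
      omega
    | cons z l =>
      rw [hh_succ_cons]
      have h1 := hF (z :: z :: l)
      have h2 := h' (fun m => F (z :: m)) C hC (fun m => hF _) (z :: l) hl
      have h3 := abs_dd_le (hh k (fun m => F (z :: m))) (K * C) (z :: l) (fun m hm =>
        h (fun m => F (z :: m)) C hC (fun m => hF _) m (by omega))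
      rw [hl] at h3
      push_cast at h3
      have h4 := abs_sub (F (z :: z :: l) - tt (fun m => F (z :: m)) (z :: l))
        (dd (hh k (fun m => F (z :: m))) (z :: l))
      have h5 := abs_sub (F (z :: z :: l)) (tt (fun m => F (z :: m)) (z :: l))
      have h6 : (1 + K' + (k + 1) * K) * C = C + K' * C + (k + 1) * (K * C) := by ring
      rw [h6]
      linarith

theorem homotopy (k : ℕ) (F : List (S × Y) → ℝ) (l : List (S × Y)) (hl : l.length = k + 1) :
    hh (k + 1) (dd F) l + dd (hh k F) l = F l - tt F l := by
  induction k generalizing F l with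
  | zero =>
    obtain ⟨z, rfl⟩ := List.length_eq_one_iff.mp hl
    rw [hh_succ_cons]
    have h1 : (fun m => dd F (z :: m)) = fun m => F m - dd (fun m => F (z :: m)) m := by
      funext m
      rw [dd_cons]
    have h2 : ∀ G : List (S × Y) → ℝ, dd (hh 0 G) [z] = 0 := by
      intro G
      rw [dd_cons, hh_zero, dd_nil, sub_zero]
    have h3 : tt (dd (fun m => F (z :: m))) [z] = F [z] := by
      rw [tt_dd, dd_cons, dd_nil, tt_nil, sub_zero]
    have h4 : dd F [z, z] = 0 := by
      rw [dd_cons, dd_cons, dd_nil, sub_zero, sub_self]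
    rw [h1, h2, h2, h4, tt_sub, h3]
    ring
  | succ j ih =>
    cases l with
    | nil =>
      rw [List.length_nil] at hl
      omega
    | cons z l =>
      rw [hh_succ_cons]
      have h1 : (fun m => dd F (z :: m)) = fun m => F m - dd (fun m => F (z :: m)) m := by
        funext m
        rw [dd_cons]
      have h2 : hh (j + 1) (fun m => F m - dd (fun m => F (z :: m)) m) =
          fun m => hh (j + 1) F m - hh (j + 1) (dd (fun m => F (z :: m))) m := by
        funext m
        exact hh_sub (j + 1) F (dd (fun m => F (z :: m))) m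
      have h3 : dd (hh (j + 1) (dd (fun m => F (z :: m)))) (z :: l) =
          dd (fun m => F (z :: m)) (z :: l) - tt (dd (fun m => F (z :: m))) (z :: l) := by
        have h4 : dd (hh (j + 1) (dd (fun m => F (z :: m)))) (z :: l) =
            dd (fun m => F (z :: m) - tt (fun m => F (z :: m)) m -
              dd (hh j (fun m => F (z :: m))) m) (z :: l) := by
          refine dd_congr _ _ _ (fun m hm => ?_)
          have h5 := ih (fun m => F (z :: m)) m (by
            rw [List.length_cons] at hm hl
            omega)
          linarith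
        rw [h4, dd_sub (fun m => F (z :: m) - tt (fun m => F (z :: m)) m)
          (dd (hh j (fun m => F (z :: m)))), dd_sub (fun m => F (z :: m))
          (tt (fun m => F (z :: m))), dd_dd, tt_dd, sub_zero]
      rw [h1, h2, dd_sub, h3, tt_sub F (dd (fun m => F (z :: m))), dd_cons F z (z :: l)]
      ring

end SimplVol

end S_HH
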