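import Mathlib

/-! Simplicial volume and ranked planar trees, part A2: this file joins several modules to save build time. -/

section S_PS

/-!
# Module PS: permutations and faces

* `exists_perm_face`: `i.succAbove j = (i.cycleRange.symm) j.succ` (`Fin.cycleRange_symm_succ`), `sign i.cycleRange = (-1)^i`
  (`Fin.sign_cycleRange`), `i.cycleRange i = 0` (`Fin.cycleRange_self`). Put `ρ = (σ c).cycleRange * σ * c.cycleRange⁻¹ : Perm (Fin (m+1))`; then
  `ρ 0 = 0`, so `ρ` comes from a permutation `π` of `Fin m` (`ρ j.succ = (π j).succ`), `sign π = sign ρ`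
  (`Equiv.Perm.decomposeFin`: `decomposeFin.symm (0, π)`, `Equiv.Perm.decomposeFin.symm_sign`), and
  `σ (c.succAbove j) = σ (c.cycleRange⁻¹ j.succ) = (σ c).cycleRange⁻¹ (ρ j.succ) = (σ c).succAbove (π j)`.
* `exists_perm_ext`: `decomposeFin.symm (0, π)`.
-/

set_option autoImplicit false

open scoped BigOperators Nat

namespace SimplVol

theorem exists_perm_ext {m : ℕ} (π : Equiv.Perm (Fin m)) :
    ∃ σ : Equiv.Perm (Fin (m + 1)), σ 0 = 0 ∧ (∀ i : Fin m, σ i.succ = (π i).succ) ∧
      Equiv.Perm.sign σ = Equiv.Perm.sign π := by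
  refine ⟨Equiv.Perm.decomposeFin.symm (0, π), ?_, ?_, ?_⟩
  · exact Equiv.Perm.decomposeFin_symm_apply_zero 0 π
  · intro i
    rw [Equiv.Perm.decomposeFin_symm_apply_succ, Equiv.swap_self, Equiv.refl_apply]
  · rw [Equiv.Perm.decomposeFin.symm_sign, if_pos rfl, one_mul]

theorem ps_restrict {m : ℕ} (ρ : Equiv.Perm (Fin (m + 1))) (h0 : ρ 0 = 0) :
    ∃ π : Equiv.Perm (Fin m), (∀ i : Fin m, ρ i.succ = (π i).succ) ∧
      Equiv.Perm.sign π = Equiv.Perm.sign ρ := by
  obtain ⟨⟨p, π⟩, hp⟩ := Equiv.Perm.decomposeFin.symm.surjective ρ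
  have hp0 : p = 0 := by
    rw [← hp, Equiv.Perm.decomposeFin_symm_apply_zero] at h0
    exact h0
  subst hp0
  refine ⟨π, fun i => ?_, ?_⟩
  · rw [← hp, Equiv.Perm.decomposeFin_symm_apply_succ, Equiv.swap_self, Equiv.refl_apply]
  · rw [← hp, Equiv.Perm.decomposeFin.symm_sign, if_pos rfl, one_mul]

theorem exists_perm_face {m : ℕ} (σ : Equiv.Perm (Fin (m + 1))) (c : Fin (m + 1)) :
    ∃ π : Equiv.Perm (Fin m), (∀ i, σ (c.succAbove i) = (σ c).succAbove (π i)) ∧
      ((Equiv.Perm.sign π : ℤ) : ℝ) =
        ((Equiv.Perm.sign σ : ℤ) : ℝ) * (-1) ^ ((c : ℕ) + ((σ c : Fin (m + 1)) : ℕ)) := by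
  obtain ⟨π, h1, h2⟩ := ps_restrict ((σ c).cycleRange * σ * c.cycleRange⁻¹) (by
    show (σ c).cycleRange (σ (c.cycleRange.symm 0)) = 0
    rw [Fin.cycleRange_symm_zero, Fin.cycleRange_self])
  refine ⟨π, fun i => ?_, ?_⟩
  · have h3 : (σ c).cycleRange (σ (c.cycleRange.symm i.succ)) = (π i).succ := h1 i
    rw [Fin.cycleRange_symm_succ] at h3
    rw [← Fin.cycleRange_symm_succ (σ c) (π i), ← h3, Equiv.symm_apply_apply]
  · rw [h2, Equiv.Perm.sign_mul, Equiv.Perm.sign_mul, Equiv.Perm.sign_inv, Fin.sign_cycleRange,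
      Fin.sign_cycleRange]
    push_cast
    rw [pow_add]
    ring

end SimplVol

end S_PS

section S_PX

/-!
# Module PX: successive sampling (Plackett-Luce)

`PE ℓ n E P`: for `n = |E|`, the expectation of `P l` for a random ordering `l` of `E`: the LAST element of `l` is chosen first, with probability proportional to the weights `ℓ`, then the last but one among the others, ...
* `PE_add`, `PE_smul`, `PE_const`, `PE_mono`, `PE_bdd`, `PE_congr`: induction on `n` (for `PE_const`, `PE_bdd`: `∑_{e ∈ E} ℓ e / ∑_E ℓ = 1`, positive weights, `E` nonempty).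
* `PE_congr`: only lists `l` with `l.Nodup` and `l.toFinset = E` occur.
* `PE_map`: relabelling by an injective map: induction on `n`, `(E.map e).erase (e a) = (E.erase a).map e`; or `PE_merge`.
* `PE_single`: for a list `l` without repetition, `PE ℓ |l| l.toFinset (fun l' => if l' = l then 1 else 0) = wl ℓ l` (`wl ℓ (l ++ [e]) = wl ℓ l * ℓ e / (sum of ℓ over l ++ [e])`), and it is `0` if `l.toFinset ≠ E` or `¬ l.Nodup`: induction on `l` from the right (`List.reverseRecOn`).
-/

set_option autoImplicit false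

open scoped BigOperators

namespace SimplVol

variable {A B : Type} [DecidableEq A] [DecidableEq B]

/-- Expectation for successive sampling without replacement (`n` is the number of elements of the set). -/
noncomputable def PE (w : A → ℝ) : ℕ → Finset A → (List A → ℝ) → ℝ
  | 0, _, P => P []
  | n + 1, E, P => ∑ e ∈ E, (w e / ∑ a ∈ E, w a) * PE w n (E.erase e) fun l => P (l ++ [e])

theorem px_nodup (l : List A) (e : A) (E : Finset A) (he : e ∈ E) (hl : l.Nodup)
    (hlE : l.toFinset = E.erase e) : (l ++ [e]).Nodup := by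
  rw [List.nodup_append]
  refine ⟨hl, List.nodup_singleton e, fun a ha b hb hab => ?_⟩
  rw [List.mem_singleton] at hb
  subst hb
  subst hab
  have : a ∈ l.toFinset := List.mem_toFinset.2 ha
  rw [hlE] at this
  exact (Finset.notMem_erase a E) this

theorem px_toFinset (l : List A) (e : A) (E : Finset A) (he : e ∈ E)
    (hlE : l.toFinset = E.erase e) : (l ++ [e]).toFinset = E := by
  rw [List.toFinset_append, hlE]
  ext a
  rw [Finset.mem_union, Finset.mem_erase, List.mem_toFinset, List.mem_singleton]
  constructor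
  · rintro (h | h)
    · exact h.2
    · rw [h]; exact he
  · intro h
    by_cases hae : a = e
    · exact Or.inr hae
    · exact Or.inl ⟨hae, h⟩

theorem PE_zero (w : A → ℝ) (E : Finset A) (P : List A → ℝ) : PE w 0 E P = P [] := rfl

theorem PE_succ (w : A → ℝ) (n : ℕ) (E : Finset A) (P : List A → ℝ) :
    PE w (n + 1) E P =
      ∑ e ∈ E, (w e / ∑ a ∈ E, w a) * PE w n (E.erase e) fun l => P (l ++ [e]) := rfl

theorem PE_add (w : A → ℝ) (n : ℕ) (E : Finset A) (P Q : List A → ℝ) :
    PE w n E (fun l => P l + Q l) = PE w n E P + PE w n E Q := by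
  induction n generalizing E P Q with
  | zero => rfl
  | succ n ih =>
    rw [PE_succ, PE_succ, PE_succ, ← Finset.sum_add_distrib]
    refine Finset.sum_congr rfl (fun e _ => ?_)
    rw [ih, mul_add]

theorem PE_smul (w : A → ℝ) (n : ℕ) (E : Finset A) (c : ℝ) (P : List A → ℝ) :
    PE w n E (fun l => c * P l) = c * PE w n E P := by
  induction n generalizing E P with
  | zero => rfl
  | succ n ih =>
    rw [PE_succ, PE_succ, Finset.mul_sum]
    refine Finset.sum_congr rfl (fun e _ => ?_)
    rw [ih, mul_left_comm]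

theorem PE_sum {J : Type} (w : A → ℝ) (n : ℕ) (E : Finset A) (s : Finset J) (P : J → List A → ℝ) :
    PE w n E (fun l => ∑ j ∈ s, P j l) = ∑ j ∈ s, PE w n E (P j) := by
  classical
  induction s using Finset.induction_on with
  | empty =>
    simp only [Finset.sum_empty]
    have h := PE_smul w n E 0 (fun _ => 0)
    simpa using h
  | insert j s hj ih =>
    simp only [Finset.sum_insert hj]
    rw [PE_add, ih]

theorem PE_const (w : A → ℝ) (E : Finset A) (hw : ∀ e ∈ E, 0 < w e) (c : ℝ) :
    PE w E.card E (fun _ => c) = c := by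
  have key : ∀ n, ∀ E : Finset A, E.card = n → (∀ e ∈ E, 0 < w e) → PE w n E (fun _ => c) = c := by
    intro n
    induction n with
    | zero => intro E _ _; rfl
    | succ n ih =>
      intro E hE hw
      rw [PE_succ]
      have h1 : ∀ e ∈ E, (w e / ∑ a ∈ E, w a) * PE w n (E.erase e) (fun _ => c) =
          (w e / ∑ a ∈ E, w a) * c := by
        intro e he
        rw [ih (E.erase e) (by rw [Finset.card_erase_of_mem he, hE]; rfl)
          (fun a ha => hw a (Finset.mem_of_mem_erase ha))]
      have hne : E.Nonempty := by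
        rw [← Finset.card_pos, hE]
        omega
      have hpos : 0 < ∑ a ∈ E, w a := Finset.sum_pos hw hne
      rw [Finset.sum_congr rfl h1, ← Finset.sum_mul, ← Finset.sum_div, div_self hpos.ne', one_mul]
  exact key _ E rfl hw

/-- Only the orderings of `E` matter. -/
theorem PE_congr (w : A → ℝ) (E : Finset A) (P Q : List A → ℝ)
    (h : ∀ l : List A, l.Nodup → l.toFinset = E → P l = Q l) :
    PE w E.card E P = PE w E.card E Q := by
  have key : ∀ n, ∀ E : Finset A, E.card = n → ∀ P Q : List A → ℝ,
      (∀ l : List A, l.Nodup → l.toFinset = E → P l = Q l) → PE w n E P = PE w n E Q := by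
    intro n
    induction n with
    | zero =>
      intro E hE P Q h
      rw [PE_zero, PE_zero]
      exact h [] List.nodup_nil (by rw [Finset.card_eq_zero.1 hE]; rfl)
    | succ n ih =>
      intro E hE P Q h
      rw [PE_succ, PE_succ]
      refine Finset.sum_congr rfl (fun e he => ?_)
      congr 1
      refine ih (E.erase e) (by rw [Finset.card_erase_of_mem he, hE]; rfl) _ _ (fun l hl hlE => ?_)
      exact h _ (px_nodup l e E he hl hlE) (px_toFinset l e E he hlE)
  exact key _ E rfl P Q h

theorem PE_nonneg (w : A → ℝ) (E : Finset A) (hw : ∀ e ∈ E, 0 < w e) (P : List A → ℝ)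
    (h : ∀ l : List A, l.Nodup → l.toFinset = E → 0 ≤ P l) : 0 ≤ PE w E.card E P := by
  have key : ∀ n, ∀ E : Finset A, E.card = n → (∀ e ∈ E, 0 < w e) → ∀ P : List A → ℝ,
      (∀ l : List A, l.Nodup → l.toFinset = E → 0 ≤ P l) → 0 ≤ PE w n E P := by
    intro n
    induction n with
    | zero =>
      intro E hE _ P h
      rw [PE_zero]
      exact h [] List.nodup_nil (by rw [Finset.card_eq_zero.1 hE]; rfl)
    | succ n ih =>
      intro E hE hw P h
      rw [PE_succ]
      refine Finset.sum_nonneg (fun e he => ?_)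
      apply mul_nonneg (div_nonneg (hw e he).le (Finset.sum_nonneg (fun a ha => (hw a ha).le)))
      refine ih (E.erase e) (by rw [Finset.card_erase_of_mem he, hE]; rfl)
        (fun a ha => hw a (Finset.mem_of_mem_erase ha)) _ (fun l hl hlE => ?_)
      exact h _ (px_nodup l e E he hl hlE) (px_toFinset l e E he hlE)
  exact key _ E rfl hw P h

theorem PE_bdd (w : A → ℝ) (E : Finset A) (hw : ∀ e ∈ E, 0 < w e) (P : List A → ℝ) (C : ℝ)
    (h : ∀ l : List A, l.Nodup → l.toFinset = E → |P l| ≤ C) : |PE w E.card E P| ≤ C := by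
  have h1 : 0 ≤ PE w E.card E (fun l => C + (-1) * P l) := by
    apply PE_nonneg w E hw
    intro l hl hlE
    have := (abs_le.1 (h l hl hlE)).2
    linarith
  have h2 : 0 ≤ PE w E.card E (fun l => C + 1 * P l) := by
    apply PE_nonneg w E hw
    intro l hl hlE
    have := (abs_le.1 (h l hl hlE)).1
    linarith
  rw [PE_add w E.card E (fun _ => C) (fun l => (-1) * P l), PE_const w E hw, PE_smul] at h1
  rw [PE_add w E.card E (fun _ => C) (fun l => 1 * P l), PE_const w E hw, PE_smul] at h2
  rw [abs_le]
  constructor <;> linarith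

/-- Only the weights of the elements of `E` matter. -/
theorem PE_weights (w w' : A → ℝ) (n : ℕ) (E : Finset A) (h : ∀ e ∈ E, w e = w' e)
    (P : List A → ℝ) : PE w n E P = PE w' n E P := by
  induction n generalizing E P with
  | zero => rfl
  | succ n ih =>
    rw [PE_succ, PE_succ, Finset.sum_congr rfl h]
    refine Finset.sum_congr rfl (fun e he => ?_)
    rw [h e he, ih (E.erase e) (fun a ha => h a (Finset.mem_of_mem_erase ha))]

/-- Relabelling. -/
theorem PE_map (w : B → ℝ) (E : Finset A) (e : A ↪ B) (P : List B → ℝ) :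
    PE w E.card (E.map e) P = PE (fun a => w (e a)) E.card E fun l => P (l.map e) := by
  have key : ∀ n, ∀ E : Finset A, ∀ P : List B → ℝ,
      PE w n (E.map e) P = PE (fun a => w (e a)) n E fun l => P (l.map e) := by
    intro n
    induction n with
    | zero => intro E P; rfl
    | succ n ih =>
      intro E P
      rw [PE_succ, PE_succ, Finset.sum_map, Finset.sum_map]
      refine Finset.sum_congr rfl (fun a _ => ?_)
      rw [← Finset.map_erase, ih]
      simp only [List.map_append, List.map_cons, List.map_nil]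
  exact key _ E P

/-- The probability of an ordering. -/
noncomputable def wl (w : A → ℝ) (l : List A) : ℝ :=
  ∏ i : Fin l.length, w (l.get i) / ((l.take ((i : ℕ) + 1)).map w).sum

theorem px_wl_range (w : A → ℝ) (l : List A) (n : ℕ) (hn : l.length = n) :
    wl w l = ∏ i ∈ Finset.range n,
      (if h : i < l.length then w (l[i]) / ((l.take (i + 1)).map w).sum else 1) := by
  subst hn
  rw [Finset.prod_range]
  unfold wl
  refine Finset.prod_congr rfl (fun i _ => ?_)
  rw [dif_pos i.2]
  rfl

theorem px_wl (w : A → ℝ) (l : List A) (x : A) :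
    wl w (l ++ [x]) = wl w l * (w x / ((l ++ [x]).map w).sum) := by
  have h1 : (l ++ [x]).length = l.length + 1 := by simp
  rw [px_wl_range w (l ++ [x]) _ h1, px_wl_range w l _ rfl, Finset.prod_range_succ]
  congr 1
  · refine Finset.prod_congr rfl (fun i hi => ?_)
    rw [Finset.mem_range] at hi
    rw [dif_pos (by omega : i < (l ++ [x]).length), dif_pos hi, List.getElem_append_left hi,
      List.take_append_of_le_length (by omega)]
  · rw [dif_pos (by omega : l.length < (l ++ [x]).length)]
    rw [List.getElem_append_right (le_refl _), List.take_of_length_le (by simp)]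
    simp

theorem PE_single (w : A → ℝ) (E : Finset A) (l : List A) :
    PE w E.card E (fun l' => if l' = l then 1 else 0) =
      if l.Nodup ∧ l.toFinset = E then wl w l else 0 := by
  induction l using List.reverseRecOn generalizing E with
  | nil =>
    rcases Finset.eq_empty_or_nonempty E with hE | hE
    · subst hE
      rw [if_pos ⟨List.nodup_nil, rfl⟩]
      rfl
    · rw [if_neg (by
        rintro ⟨_, h⟩
        rw [← h] at hE
        simp at hE)]
      obtain ⟨n, hn⟩ : ∃ n, E.card = n + 1 := ⟨E.card - 1, by have := hE.card_pos; omega⟩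
      rw [hn, PE_succ]
      apply Finset.sum_eq_zero
      intro e _
      have h1 : (fun l : List A => if l ++ [e] = [] then (1 : ℝ) else 0) = fun _ => 0 * 0 := by
        funext l
        rw [if_neg (by simp), mul_zero]
      rw [h1, PE_smul, zero_mul, mul_zero]
  | append_singleton l x ih =>
    rcases Finset.eq_empty_or_nonempty E with hE | hE
    · subst hE
      rw [if_neg (by
        rintro ⟨_, h⟩
        have h2 : x ∈ (l ++ [x]).toFinset := by simp
        rw [h] at h2
        simp at h2)]
      show (if ([] : List A) = l ++ [x] then (1 : ℝ) else 0) = 0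
      rw [if_neg (by simp)]
    · obtain ⟨n, hn⟩ : ∃ n, E.card = n + 1 := ⟨E.card - 1, by have := hE.card_pos; omega⟩
      rw [hn, PE_succ]
      have h1 : ∀ e ∈ E, (w e / ∑ a ∈ E, w a) *
          PE w n (E.erase e) (fun l' => if l' ++ [e] = l ++ [x] then (1 : ℝ) else 0) =
          if e = x then (w x / ∑ a ∈ E, w a) *
            (if l.Nodup ∧ l.toFinset = E.erase x then wl w l else 0) else 0 := by
        intro e he
        by_cases hex : e = x
        · subst hex
          rw [if_pos rfl, ← ih (E.erase e)]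
          have h3 : (E.erase e).card = n := by
            rw [Finset.card_erase_of_mem he, hn]
            rfl
          rw [h3]
          congr 2
          funext l'
          by_cases h : l' = l
          · rw [if_pos h, if_pos (by rw [h])]
          · rw [if_neg h, if_neg (fun h' => h (List.append_cancel_right h'))]
        · rw [if_neg hex]
          have h2 : (fun l' : List A => if l' ++ [e] = l ++ [x] then (1 : ℝ) else 0) =
              fun _ => 0 * 0 := by
            funext l'
            rw [if_neg, mul_zero]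
            intro h
            have h4 := congrArg List.getLast? h
            simp at h4
            exact hex h4
          rw [h2, PE_smul, zero_mul, mul_zero]
      rw [Finset.sum_congr rfl h1, Finset.sum_ite_eq']
      by_cases hx : x ∈ E
      · rw [if_pos hx]
        by_cases hc : l.Nodup ∧ l.toFinset = E.erase x
        · have hc2 : (l ++ [x]).Nodup ∧ (l ++ [x]).toFinset = E :=
            ⟨px_nodup l x E hx hc.1 hc.2, px_toFinset l x E hx hc.2⟩
          rw [if_pos hc, if_pos hc2, px_wl, mul_comm]
          congr 2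
          rw [← hc2.2, List.sum_toFinset w hc2.1]
        · rw [if_neg hc, if_neg, mul_zero]
          rintro ⟨h2, h3⟩
          apply hc
          have h4 : x ∉ l := by
            rw [List.nodup_append] at h2
            intro hxl
            exact h2.2.2 x hxl x (by simp) rfl
          refine ⟨(List.nodup_append.1 h2).1, ?_⟩
          rw [← h3]
          ext a
          rw [Finset.mem_erase, List.mem_toFinset, List.mem_toFinset, List.mem_append,
            List.mem_singleton]
          constructor
          · intro ha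
            refine ⟨?_, Or.inl ha⟩
            rintro rfl
            exact h4 ha
          · rintro ⟨ha, hb | hb⟩
            · exact hb
            · exact absurd hb ha
      · rw [if_neg hx, if_neg]
        rintro ⟨_, h3⟩
        apply hx
        rw [← h3]
        simp

end SimplVol

end S_PX

section S_PY

/-!
# Module PY: successive sampling and merging

* `PE_merge`. General statement, by induction on `n`: for a finite set `I` of colours let `out I l = ((l.filterMap π).dedup).filter (· ∉ I)` and `col E = {b | ∃ e ∈ E, π e = some b}` (a finset: `E.biUnion`/`image`; here given as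
  `(E.image π)` filtered), `w E b = ∑_{e ∈ E, π e = some b} ℓ e`. Then `PE ℓ |E| E (fun l => P (out I l)) = PE (w E) |col E \ I| (col E \ I) P`.
  Proof. `n = 0`: `E = ∅`: both are `P []`. Step: call `e ∈ E` ignored if `π e = none` or `π e ∈ I`. For ignored `e`: `out I (l ++ [e]) = out I l`, and `col (E \ e) \ I = col E \ I`, `w (E \ e) b = w E b` for `b ∉ I`, so by induction the
  term is `(ℓ e / ℓ(E)) X` with `X = PE (w E) .. (col E \ I) P` (the weights matter only on `col E \ I`: `PE_weights`). If `π e = some b`, `b ∉ I`: `out I (l ++ [e]) = out (insert b I) l ++ [b]` (`dedup` keeps the last occurrence), so by induction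
  (for `insert b I` and `P (· ++ [b])`) the term is `(ℓ e / ℓ(E)) PE (w E) .. (col E \ I \ {b}) (P (· ++ [b]))` (`col (E \ e) \ insert b I = (col E \ I) \ {b}`, weights of the other colours unchanged). Sum over `e` of colour `b`: `w E b / ℓ(E)`.
  If `col E \ I` is empty, all `e` are ignored, the sum is `X`. Else with `W = ∑_{b ∈ col E \ I} w E b`: the sum over the non-ignored `e` is `(W/ℓ(E)) X` by the recursion for `X`, the ignored ones contribute `((ℓ(E) - W)/ℓ(E)) X`. Take `I = ∅` at the end.
-/

set_option autoImplicit false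

open scoped BigOperators

namespace SimplVol

variable {A B : Type} [DecidableEq A] [DecidableEq B]

theorem py_dedup_append (L : List B) (b : B) :
    (L ++ [b]).dedup = L.dedup.filter (fun x => decide (x ≠ b)) ++ [b] := by
  induction L with
  | nil => simp
  | cons a L ih =>
    by_cases ha : a ∈ L
    · rw [List.cons_append, List.dedup_cons_of_mem (List.mem_append_left _ ha), ih,
        List.dedup_cons_of_mem ha]
    · by_cases hb : a = b
      · subst hb
        rw [List.cons_append, List.dedup_cons_of_mem (by simp), ih,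
          List.dedup_cons_of_notMem ha, List.filter_cons_of_neg (by simp)]
      · rw [List.cons_append, List.dedup_cons_of_notMem (by simp [ha, hb]), ih,
          List.dedup_cons_of_notMem ha, List.filter_cons_of_pos (by simp [hb]), List.cons_append]

/-- The colours of a list outside `I`. -/
def py_out (π : A → Option B) (I : Finset B) (l : List A) : List B :=
  ((l.filterMap π).dedup).filter (fun b => decide (b ∉ I))

omit [DecidableEq A] in
theorem py_out_ign {π : A → Option B} {I : Finset B} {e : A} (h : ∀ b, π e = some b → b ∈ I)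
    (l : List A) : py_out π I (l ++ [e]) = py_out π I l := by
  unfold py_out
  rw [List.filterMap_append]
  rcases hb : π e with _ | b
  · simp [hb]
  · have h1 : List.filterMap π [e] = [b] := by simp [hb]
    have h2 := h b hb
    rw [h1, py_dedup_append, List.filter_append, List.filter_filter]
    have h3 : List.filter (fun b => decide (b ∉ I)) [b] = [] := by simp [h2]
    rw [h3, List.append_nil]
    refine List.filter_congr fun x _ => ?_
    by_cases hx : x ∈ I
    · simp [hx]
    · have : x ≠ b := fun h => hx (h ▸ h2)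
      simp [hx, this]

omit [DecidableEq A] in
theorem py_out_some {π : A → Option B} {I : Finset B} {e : A} {b : B} (hb : π e = some b)
    (h2 : b ∉ I) (l : List A) : py_out π I (l ++ [e]) = py_out π (insert b I) l ++ [b] := by
  unfold py_out
  rw [List.filterMap_append]
  have h1 : List.filterMap π [e] = [b] := by simp [hb]
  rw [h1, py_dedup_append, List.filter_append, List.filter_filter]
  have h3 : List.filter (fun b => decide (b ∉ I)) [b] = [b] := by simp [h2]
  rw [h3]
  congr 1
  refine List.filter_congr fun x _ => ?_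
  by_cases hx : x = b
  · simp [hx]
  · simp [hx]

theorem py_main (w : A → ℝ) (π : A → Option B) (n : ℕ) : ∀ (E : Finset A) (I E' : Finset B)
    (P : List B → ℝ), E.card = n → (∀ e ∈ E, 0 < w e) →
    (∀ b, b ∈ E' ↔ b ∉ I ∧ ∃ e ∈ E, π e = some b) →
    PE w n E (fun l => P (py_out π I l)) =
      PE (fun b => ∑ e ∈ E.filter fun e => π e = some b, w e) E'.card E' P := by
  induction n with
  | zero =>
    intro E I E' P hE hw hE'
    have h1 : E = ∅ := Finset.card_eq_zero.1 hE
    subst h1
    have h2 : E' = ∅ := by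
      refine Finset.eq_empty_of_forall_notMem fun b hb => ?_
      obtain ⟨_, e, he, _⟩ := (hE' b).1 hb
      exact absurd he (Finset.notMem_empty e)
    subst h2
    rfl
  | succ n ih =>
    intro E I E' P hE hw hE'
    set wc : B → ℝ := fun b => ∑ e ∈ E.filter fun e => π e = some b, w e with hwc
    set X : ℝ := PE wc E'.card E' P with hX
    have hY : ∃ Y : B → ℝ, ∀ b, Y b = PE wc (E'.erase b).card (E'.erase b) fun l => P (l ++ [b]) :=
      ⟨_, fun _ => rfl⟩
    obtain ⟨Y, hY⟩ := hY
    have hcard : ∀ e ∈ E, (E.erase e).card = n := by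
      intro e he
      rw [Finset.card_erase_of_mem he, hE]
      rfl
    have hne : E.Nonempty := Finset.card_pos.1 (by omega)
    have hW : 0 < ∑ a ∈ E, w a := Finset.sum_pos hw hne
    have hfil : ∀ e b, π e ≠ some b →
        ((E.erase e).filter fun e => π e = some b) = E.filter fun e => π e = some b := by
      intro e b h
      ext a
      rw [Finset.mem_filter, Finset.mem_filter, Finset.mem_erase]
      constructor
      · rintro ⟨⟨_, h1⟩, h2⟩
        exact ⟨h1, h2⟩
      · rintro ⟨h1, h2⟩
        exact ⟨⟨fun h3 => h (h3 ▸ h2), h1⟩, h2⟩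
    have hZ : ∀ e ∈ E, (PE w n (E.erase e) fun l => P (py_out π I (l ++ [e]))) =
        X + ∑ b ∈ E', if π e = some b then Y b - X else 0 := by
      intro e he
      by_cases hig : ∀ b, π e = some b → b ∈ I
      · have h1 : ∀ l, P (py_out π I (l ++ [e])) = P (py_out π I l) := fun l => by
          rw [py_out_ign hig]
        simp only [h1]
        have hnot : ∀ b ∈ E', π e ≠ some b := fun b hb h => ((hE' b).1 hb).1 (hig b h)
        rw [ih (E.erase e) I E' P (hcard e he) (fun a ha => hw a (Finset.mem_of_mem_erase ha)) ?_]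
        · rw [Finset.sum_eq_zero fun b hb => if_neg (hnot b hb), add_zero]
          refine PE_weights _ _ _ _ (fun b hb => ?_) _
          show ∑ e ∈ (E.erase e).filter fun e => π e = some b, w e = wc b
          rw [hfil e b (hnot b hb)]
        · intro b
          rw [hE' b]
          constructor
          · rintro ⟨hbI, a, ha, hab⟩
            refine ⟨hbI, a, Finset.mem_erase.2 ⟨?_, ha⟩, hab⟩
            rintro rfl
            exact hbI (hig b hab)
          · rintro ⟨h1, a, ha, hab⟩
            exact ⟨h1, a, Finset.mem_of_mem_erase ha, hab⟩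
      · push Not at hig
        obtain ⟨b, hb, hbI⟩ := hig
        have hbE : b ∈ E' := (hE' b).2 ⟨hbI, e, he, hb⟩
        have h1 : ∀ l, P (py_out π I (l ++ [e])) =
            (fun l => P (l ++ [b])) (py_out π (insert b I) l) := fun l => by
          rw [py_out_some hb hbI]
        simp only [h1]
        rw [ih (E.erase e) (insert b I) (E'.erase b) (fun l => P (l ++ [b])) (hcard e he)
          (fun a ha => hw a (Finset.mem_of_mem_erase ha)) ?_]
        · have h2 : ∑ c ∈ E', (if π e = some c then Y c - X else 0) = Y b - X := by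
            rw [Finset.sum_eq_single b, if_pos hb]
            · intro c _ hc
              rw [if_neg]
              intro h
              rw [hb] at h
              exact hc (Option.some.inj h).symm
            · intro h
              exact absurd hbE h
          rw [h2, hY b, add_sub_cancel]
          refine PE_weights _ _ _ _ (fun c hc => ?_) _
          show ∑ e ∈ (E.erase e).filter fun e => π e = some c, w e = wc c
          rw [hfil e c ?_]
          intro h
          rw [hb] at h
          exact (Finset.mem_erase.1 hc).1 (Option.some.inj h).symm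
        · intro c
          rw [Finset.mem_erase, hE' c, Finset.mem_insert]
          constructor
          · rintro ⟨hcb, h2, a, ha, hac⟩
            refine ⟨fun h => h.elim hcb h2, a, Finset.mem_erase.2 ⟨?_, ha⟩, hac⟩
            rintro rfl
            rw [hb] at hac
            exact hcb (Option.some.inj hac).symm
          · rintro ⟨h1, a, ha, hac⟩
            exact ⟨fun h => h1 (Or.inl h), fun h => h1 (Or.inr h), a, Finset.mem_of_mem_erase ha,
              hac⟩
    rw [PE_succ]
    have hsum : ∑ e ∈ E, (w e / ∑ a ∈ E, w a) *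
        (PE w n (E.erase e) fun l => P (py_out π I (l ++ [e]))) =
        (∑ e ∈ E, w e * (X + ∑ b ∈ E', if π e = some b then Y b - X else 0)) / ∑ a ∈ E, w a := by
      rw [Finset.sum_div]
      refine Finset.sum_congr rfl fun e he => ?_
      rw [hZ e he]
      ring
    rw [hsum]
    have h3 : ∑ e ∈ E, w e * (X + ∑ b ∈ E', if π e = some b then Y b - X else 0) =
        (∑ a ∈ E, w a) * X + ∑ b ∈ E', wc b * (Y b - X) := by
      simp only [mul_add, Finset.sum_add_distrib, Finset.mul_sum]
      rw [Finset.sum_mul, Finset.sum_comm]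
      congr 1
      refine Finset.sum_congr rfl fun b _ => ?_
      rw [hwc, Finset.sum_mul, Finset.sum_filter]
      refine Finset.sum_congr rfl fun e _ => ?_
      split_ifs <;> simp
    have h4 : ∑ b ∈ E', wc b * (Y b - X) = 0 := by
      rcases Nat.eq_zero_or_pos E'.card with h0 | h0
      · rw [Finset.card_eq_zero.1 h0, Finset.sum_empty]
      · obtain ⟨k, hk⟩ : ∃ k, E'.card = k + 1 := ⟨E'.card - 1, by omega⟩
        have hpos : ∀ b ∈ E', 0 < wc b := by
          intro b hb
          obtain ⟨_, e, he, heb⟩ := (hE' b).1 hb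
          exact Finset.sum_pos (fun a ha => hw a (Finset.mem_filter.1 ha).1)
            ⟨e, Finset.mem_filter.2 ⟨he, heb⟩⟩
        have hW' : 0 < ∑ b ∈ E', wc b := Finset.sum_pos hpos (Finset.card_pos.1 h0)
        have h5 : X = ∑ b ∈ E', (wc b / ∑ a ∈ E', wc a) * Y b := by
          rw [hX, hk, PE_succ]
          refine Finset.sum_congr rfl fun b hb => ?_
          rw [hY b, Finset.card_erase_of_mem hb, hk]
          rfl
        have h6 : (∑ b ∈ E', wc b) * X = ∑ b ∈ E', wc b * Y b := by
          rw [h5, Finset.mul_sum]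
          refine Finset.sum_congr rfl fun b _ => ?_
          rw [← mul_assoc, mul_div_cancel₀ _ hW'.ne']
        simp only [mul_sub, Finset.sum_sub_distrib]
        rw [← h6, Finset.sum_mul, sub_self]
    rw [h3, h4, add_zero, mul_div_cancel_left₀ _ hW.ne']

/-- Merging: the order of the last occurrences of the colours. -/
theorem PE_merge (w : A → ℝ) (E : Finset A) (hw : ∀ e ∈ E, 0 < w e) (π : A → Option B)
    (E' : Finset B) (hE' : ∀ b, b ∈ E' ↔ ∃ e ∈ E, π e = some b) (P : List B → ℝ) :
    PE w E.card E (fun l => P (l.filterMap π).dedup) =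
      PE (fun b => ∑ e ∈ E.filter fun e => π e = some b, w e) E'.card E' P := by
  rw [← py_main w π E.card E ∅ E' P rfl hw fun b => by
    rw [hE' b]
    simp]
  congr 1
  funext l
  unfold py_out
  congr 1
  symm
  refine List.filter_eq_self.2 fun b _ => ?_
  simp

end SimplVol

end S_PY

section S_WM

/-!
# Module WM: the mean on words

`EA a P` is the average of `P` over the `2^a` words of length `a`: `EA 0 P = P []`, `EA (a+1) P = ½ (EA a (P (true :: ·)) + EA a (P (false :: ·)))`.
* `EA` is linear, monotone, `EA a 1 = 1`, `EA (a+1) P = ½ (EA a (P (· ++ [true])) + EA a (P (· ++ [false])))` (induction on `a`), so `EA a (P ∘ rv) = EA a P` (induction, `rv (t :: w) = rv w ++ [!t]`).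
* Let `av N P = (1/(N+1)) ∑_{a ≤ N} EA a P`. For bounded `P` (`|P| ≤ C`): `av N P - ½ ∑_t av N (P (t :: ·)) = (1/(N+1)) (EA 0 P - EA (N+1) P)`, at most `2C/(N+1)`.
* `exists_wmean`: let `U = Filter.hyperfilter ℕ` (an ultrafilter `≤ cofinite = atTop`). For bounded `P` the sequence `av N P` lies in the compact set `[-C, C]`, so it converges along `U` (`IsCompact.ultrafilter_le_nhds`,
  or `Ultrafilter.le_nhds_lim`...). The limit is linear on the submodule of the bounded functions; extend it to a linear map on all functions (`LinearMap.exists_extend`). All properties follow by taking limits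
  along `U` (differences that tend to `0` along `atTop` tend to `0` along `U`; `tendsto_nhds_unique`). `small`: `av N (1/(len+1)) = (1/(N+1)) ∑_{a≤N} 1/(a+1) → 0`
  (Cesàro: `Filter.Tendsto.cesaro`).
* `key`: let `|q| ≤ C`, `q u = ½ (q (u ++ [true]) + q (u ++ [false]))`, `d u = ½ (q (u ++ [true]) - q (u ++ [false]))`. Then `EA a q = q []` for all `a`, `q (u ++ [t]) = q u ± d u`, `EA (a+1) (q²) = EA a (q² + d²)`, so
  `∑_{a ≤ N} EA a (d²) = EA (N+1) (q²) - (q [])² ≤ C²`. By Jensen (`(EA a P)² ≤ EA a (P²)`, induction with `((x+y)/2)² ≤ (x²+y²)/2`) `|EA a (q (· ++ [t])) - q []|² ≤ EA a (d²)` and by Cauchy-Schwarz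
  (`inner_mul_le_norm_mul_norm` or `Finset.sum_div_card_le..`, `sq_sum_le_card_mul_sum_sq`) `|av N (q (· ++ [t])) - q []| ≤ C/√(N+1) → 0`.
-/

set_option autoImplicit false

open scoped BigOperators

namespace SimplVol

/-- Words in two letters (left and right turns). -/
abbrev Wd : Type := List Bool

/-- The word of the reversed path. -/
def rv (w : Wd) : Wd := (w.map fun t => !t).reverse

theorem rv_nil : rv [] = [] := rfl

theorem rv_cons (t : Bool) (w : Wd) : rv (t :: w) = rv w ++ [!t] := by
  simp [rv]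

theorem rv_append (v w : Wd) : rv (v ++ w) = rv w ++ rv v := by
  simp [rv]

theorem rv_rv (w : Wd) : rv (rv w) = w := by
  simp [rv, Function.comp_def]

/-- A mean on words. -/
structure WMean (M : (Wd → ℝ) →ₗ[ℝ] ℝ) : Prop where
  bdd : ∀ (P : Wd → ℝ) (C : ℝ), (∀ w, |P w| ≤ C) → |M P| ≤ C
  one : M (fun _ => 1) = 1
  left : ∀ P : Wd → ℝ, (∃ C, ∀ w, |P w| ≤ C) →
    M P = (1 / 2) * (M (fun w => P (true :: w)) + M (fun w => P (false :: w)))
  rev : ∀ P : Wd → ℝ, (∃ C, ∀ w, |P w| ≤ C) → M (fun w => P (rv w)) = M P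
  small : M (fun w => 1 / ((w.length : ℝ) + 1)) = 0
  key : ∀ q : Wd → ℝ, (∃ C, ∀ w, |q w| ≤ C) →
    (∀ u, q u = (1 / 2) * (q (u ++ [true]) + q (u ++ [false]))) →
    ∀ t : Bool, M (fun u => q (u ++ [t])) = q []

/-- Average over the words of length `a`. -/
noncomputable def WM_EA : ℕ → (Wd → ℝ) → ℝ
  | 0, P => P []
  | a + 1, P => (1 / 2) * (WM_EA a (fun w => P (true :: w)) + WM_EA a (fun w => P (false :: w)))

theorem WM_zero (P : Wd → ℝ) : WM_EA 0 P = P [] := rfl

theorem WM_succ (a : ℕ) (P : Wd → ℝ) : WM_EA (a + 1) P =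
    (1 / 2) * (WM_EA a (fun w => P (true :: w)) + WM_EA a (fun w => P (false :: w))) := rfl

theorem WM_add (a : ℕ) (P Q : Wd → ℝ) : WM_EA a (fun w => P w + Q w) = WM_EA a P + WM_EA a Q := by
  induction a generalizing P Q with
  | zero => rfl
  | succ a ih =>
    rw [WM_succ, WM_succ, WM_succ, ih, ih]
    ring

theorem WM_smul (a : ℕ) (c : ℝ) (P : Wd → ℝ) : WM_EA a (fun w => c * P w) = c * WM_EA a P := by
  induction a generalizing P with
  | zero => rfl
  | succ a ih =>
    rw [WM_succ, WM_succ, ih, ih]
    ring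

theorem WM_mono (a : ℕ) (P Q : Wd → ℝ) (h : ∀ w, P w ≤ Q w) : WM_EA a P ≤ WM_EA a Q := by
  induction a generalizing P Q with
  | zero => exact h []
  | succ a ih =>
    rw [WM_succ, WM_succ]
    have h1 := ih (fun w => P (true :: w)) (fun w => Q (true :: w)) (fun w => h _)
    have h2 := ih (fun w => P (false :: w)) (fun w => Q (false :: w)) (fun w => h _)
    linarith

theorem WM_len (a : ℕ) (g : ℕ → ℝ) : WM_EA a (fun w => g w.length) = g a := by
  induction a generalizing g with
  | zero => rfl
  | succ a ih =>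
    rw [WM_succ]
    simp only [List.length_cons]
    rw [ih (fun k => g (k + 1))]
    ring

theorem WM_const (a : ℕ) (c : ℝ) : WM_EA a (fun _ => c) = c := WM_len a (fun _ => c)

theorem WM_bdd (a : ℕ) (P : Wd → ℝ) (C : ℝ) (h : ∀ w, |P w| ≤ C) : |WM_EA a P| ≤ C := by
  rw [abs_le]
  constructor
  · have := WM_mono a (fun _ => -C) P (fun w => (abs_le.1 (h w)).1)
    rwa [WM_const] at this
  · have := WM_mono a P (fun _ => C) (fun w => (abs_le.1 (h w)).2)
    rwa [WM_const] at this

theorem WM_right (a : ℕ) (P : Wd → ℝ) : WM_EA (a + 1) P =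
    (1 / 2) * (WM_EA a (fun w => P (w ++ [true])) + WM_EA a (fun w => P (w ++ [false]))) := by
  induction a generalizing P with
  | zero => rfl
  | succ a ih =>
    rw [WM_succ, ih, ih, WM_succ a, WM_succ a]
    simp only [List.cons_append]
    ring

theorem WM_rv (a : ℕ) (P : Wd → ℝ) : WM_EA a (fun w => P (rv w)) = WM_EA a P := by
  induction a generalizing P with
  | zero => rfl
  | succ a ih =>
    rw [WM_succ, WM_right]
    simp only [rv_cons, Bool.not_true, Bool.not_false]
    rw [ih (fun w => P (w ++ [false])), ih (fun w => P (w ++ [true]))]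
    ring

theorem WM_jensen (a : ℕ) (P : Wd → ℝ) : (WM_EA a P) ^ 2 ≤ WM_EA a (fun w => P w ^ 2) := by
  induction a generalizing P with
  | zero => exact le_rfl
  | succ a ih =>
    rw [WM_succ, WM_succ]
    have h1 := ih (fun w => P (true :: w))
    have h2 := ih (fun w => P (false :: w))
    nlinarith [sq_nonneg (WM_EA a (fun w => P (true :: w)) - WM_EA a (fun w => P (false :: w)))]

/-- Cesàro averages. -/
noncomputable def WM_av (N : ℕ) (P : Wd → ℝ) : ℝ := (∑ a ∈ Finset.range (N + 1), WM_EA a P) / ((N : ℝ) + 1)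

theorem WM_av_add (N : ℕ) (P Q : Wd → ℝ) : WM_av N (fun w => P w + Q w) = WM_av N P + WM_av N Q := by
  unfold WM_av
  simp only [WM_add, Finset.sum_add_distrib]
  rw [add_div]

theorem WM_av_smul (N : ℕ) (c : ℝ) (P : Wd → ℝ) : WM_av N (fun w => c * P w) = c * WM_av N P := by
  unfold WM_av
  simp only [WM_smul]
  rw [← Finset.mul_sum, mul_div_assoc]

theorem WM_av_bdd (N : ℕ) (P : Wd → ℝ) (C : ℝ) (h : ∀ w, |P w| ≤ C) : |WM_av N P| ≤ C := by
  unfold WM_av
  have hN : (0 : ℝ) < (N : ℝ) + 1 := by positivity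
  rw [abs_div, abs_of_pos hN, div_le_iff₀ hN]
  calc |∑ a ∈ Finset.range (N + 1), WM_EA a P| ≤ ∑ a ∈ Finset.range (N + 1), |WM_EA a P| :=
        Finset.abs_sum_le_sum_abs _ _
    _ ≤ ∑ _a ∈ Finset.range (N + 1), C := Finset.sum_le_sum fun a _ => WM_bdd a P C h
    _ = C * ((N : ℝ) + 1) := by
        rw [Finset.sum_const, Finset.card_range, nsmul_eq_mul]
        push_cast
        ring

theorem WM_av_const (N : ℕ) (c : ℝ) : WM_av N (fun _ => c) = c := by
  unfold WM_av
  simp only [WM_const]
  rw [Finset.sum_const, Finset.card_range, nsmul_eq_mul]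
  have hN : (N : ℝ) + 1 ≠ 0 := by positivity
  push_cast
  rw [mul_comm, mul_div_assoc, div_self hN, mul_one]

theorem WM_av_tele (N : ℕ) (P : Wd → ℝ) :
    WM_av N P - (1 / 2) * (WM_av N (fun w => P (true :: w)) + WM_av N (fun w => P (false :: w))) =
      (WM_EA 0 P - WM_EA (N + 1) P) / ((N : ℝ) + 1) := by
  have h1 : ∑ a ∈ Finset.range (N + 1), (WM_EA (a + 1) P - WM_EA a P) = WM_EA (N + 1) P - WM_EA 0 P :=
    Finset.sum_range_sub (fun a => WM_EA a P) (N + 1)
  have h2 : ∑ a ∈ Finset.range (N + 1), WM_EA (a + 1) P =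
      (1 / 2) * (∑ a ∈ Finset.range (N + 1), WM_EA a (fun w => P (true :: w)) +
        ∑ a ∈ Finset.range (N + 1), WM_EA a (fun w => P (false :: w))) := by
    rw [← Finset.sum_add_distrib, Finset.mul_sum]
    rfl
  rw [Finset.sum_sub_distrib] at h1
  unfold WM_av
  have h3 : ∑ a ∈ Finset.range (N + 1), WM_EA a P -
      (1 / 2) * (∑ a ∈ Finset.range (N + 1), WM_EA a (fun w => P (true :: w)) +
        ∑ a ∈ Finset.range (N + 1), WM_EA a (fun w => P (false :: w))) =
      WM_EA 0 P - WM_EA (N + 1) P := by
    rw [← h2]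
    linarith
  rw [← h3]
  ring

/-- the ultrafilter -/
noncomputable def WM_U : Ultrafilter ℕ := Filter.hyperfilter ℕ

theorem WM_U_le : (WM_U : Filter ℕ) ≤ Filter.atTop := Nat.hyperfilter_le_atTop

theorem WM_lim (P : Wd → ℝ) (C : ℝ) (h : ∀ w, |P w| ≤ C) :
    ∃ L : ℝ, |L| ≤ C ∧ Filter.Tendsto (fun N => WM_av N P) WM_U (nhds L) := by
  have h1 : (Set.Icc (-C) C) ∈ WM_U.map (fun N => WM_av N P) := by
    rw [Ultrafilter.mem_map]
    refine Filter.mem_of_superset Filter.univ_mem fun N _ => ?_
    exact abs_le.1 (WM_av_bdd N P C h)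
  obtain ⟨L, hL, hle⟩ := isCompact_Icc.ultrafilter_le_nhds' (WM_U.map (fun N => WM_av N P)) h1
  exact ⟨L, abs_le.2 hL, hle⟩

/-- functions with a limit along the ultrafilter -/
def WM_S : Submodule ℝ (Wd → ℝ) where
  carrier := {P | ∃ L : ℝ, Filter.Tendsto (fun N => WM_av N P) WM_U (nhds L)}
  zero_mem' := ⟨0, by
    have : (fun N => WM_av N (0 : Wd → ℝ)) = fun _ => 0 := funext fun N => WM_av_const N 0
    rw [this]
    exact tendsto_const_nhds⟩
  add_mem' := by
    rintro P Q ⟨L, hL⟩ ⟨L', hL'⟩
    refine ⟨L + L', ?_⟩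
    have : (fun N => WM_av N (P + Q)) = fun N => WM_av N P + WM_av N Q := funext fun N => WM_av_add N P Q
    rw [this]
    exact hL.add hL'
  smul_mem' := by
    rintro c P ⟨L, hL⟩
    refine ⟨c * L, ?_⟩
    have : (fun N => WM_av N (c • P)) = fun N => c * WM_av N P := funext fun N => WM_av_smul N c P
    rw [this]
    exact hL.const_mul c

theorem WM_exists : ∃ M : (Wd → ℝ) →ₗ[ℝ] ℝ, ∀ (P : Wd → ℝ) (L : ℝ),
    Filter.Tendsto (fun N => WM_av N P) WM_U (nhds L) → M P = L := by
  have hch : ∀ P : WM_S, Filter.Tendsto (fun N => WM_av N P.1) WM_U (nhds P.2.choose) :=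
    fun P => P.2.choose_spec
  let M0 : WM_S →ₗ[ℝ] ℝ :=
    { toFun := fun P => P.2.choose
      map_add' := fun P Q => by
        refine tendsto_nhds_unique (hch (P + Q)) ?_
        have : (fun N => WM_av N (P + Q).1) = fun N => WM_av N P.1 + WM_av N Q.1 :=
          funext fun N => WM_av_add N P.1 Q.1
        rw [this]
        exact (hch P).add (hch Q)
      map_smul' := fun c P => by
        refine tendsto_nhds_unique (hch (c • P)) ?_
        have : (fun N => WM_av N (c • P).1) = fun N => c * WM_av N P.1 :=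
          funext fun N => WM_av_smul N c P.1
        rw [this]
        exact (hch P).const_mul c }
  obtain ⟨M, hM⟩ := M0.exists_extend
  refine ⟨M, fun P L hL => ?_⟩
  have hP : P ∈ WM_S := ⟨L, hL⟩
  have h1 : M P = M0 ⟨P, hP⟩ := LinearMap.congr_fun hM ⟨P, hP⟩
  rw [h1]
  exact tendsto_nhds_unique (hch ⟨P, hP⟩) hL

theorem WM_inv_tendsto : Filter.Tendsto (fun N : ℕ => 1 / ((N : ℝ) + 1)) Filter.atTop (nhds 0) :=
  tendsto_one_div_add_atTop_nhds_zero_nat

theorem exists_wmean : ∃ M : (Wd → ℝ) →ₗ[ℝ] ℝ, WMean M := by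
  obtain ⟨M, hM⟩ := WM_exists
  have hMt : ∀ (P : Wd → ℝ) (L : ℝ), Filter.Tendsto (fun N => WM_av N P) Filter.atTop (nhds L) → M P = L :=
    fun P L h => hM P L (h.mono_left WM_U_le)
  refine ⟨M, ?_, ?_, ?_, ?_, ?_, ?_⟩
  · intro P C h
    obtain ⟨L, hL, ht⟩ := WM_lim P C h
    rw [hM P L ht]
    exact hL
  · refine hM _ 1 ?_
    simp only [WM_av_const]
    exact tendsto_const_nhds
  · rintro P ⟨C, h⟩
    obtain ⟨L, hL, ht⟩ := WM_lim P C h
    obtain ⟨L1, hL1, ht1⟩ := WM_lim (fun w => P (true :: w)) C (fun w => h _)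
    obtain ⟨L2, hL2, ht2⟩ := WM_lim (fun w => P (false :: w)) C (fun w => h _)
    rw [hM P L ht, hM _ L1 ht1, hM _ L2 ht2]
    have h0 : Filter.Tendsto (fun N : ℕ => WM_av N P -
        (1 / 2) * (WM_av N (fun w => P (true :: w)) + WM_av N (fun w => P (false :: w)))) Filter.atTop
        (nhds 0) := by
      simp only [WM_av_tele]
      have hb : ∀ N : ℕ, |(WM_EA 0 P - WM_EA (N + 1) P) / ((N : ℝ) + 1)| ≤ (2 * C) * (1 / ((N : ℝ) + 1)) := by
        intro N
        have hN : (0 : ℝ) < (N : ℝ) + 1 := by positivity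
        rw [abs_div, abs_of_pos hN, mul_one_div]
        refine div_le_div_of_nonneg_right ?_ hN.le
        have h1 := WM_bdd 0 P C h
        have h2 := WM_bdd (N + 1) P C h
        calc |WM_EA 0 P - WM_EA (N + 1) P| ≤ |WM_EA 0 P| + |WM_EA (N + 1) P| := abs_sub _ _
          _ ≤ 2 * C := by linarith
      refine squeeze_zero_norm hb ?_
      have := WM_inv_tendsto.const_mul (2 * C)
      rwa [mul_zero] at this
    have h1 := ht.sub ((ht1.add ht2).const_mul (1 / 2))
    have h2 := tendsto_nhds_unique h1 (h0.mono_left WM_U_le)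
    linarith
  · rintro P ⟨C, h⟩
    obtain ⟨L, hL, ht⟩ := WM_lim P C h
    rw [hM P L ht]
    refine hM _ L ?_
    have : (fun N => WM_av N (fun w => P (rv w))) = fun N => WM_av N P := by
      funext N
      unfold WM_av
      simp only [WM_rv]
    rw [this]
    exact ht
  · refine hMt _ 0 ?_
    have h1 : (fun N => WM_av N (fun w : Wd => 1 / ((w.length : ℝ) + 1))) =
        fun N : ℕ => (((N + 1 : ℕ) : ℝ))⁻¹ * ∑ a ∈ Finset.range (N + 1), 1 / ((a : ℝ) + 1) := by
      funext N
      unfold WM_av
      rw [div_eq_inv_mul]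
      push_cast
      congr 1
      refine Finset.sum_congr rfl fun a _ => ?_
      exact WM_len a (fun k => 1 / ((k : ℝ) + 1))
    rw [h1]
    exact WM_inv_tendsto.cesaro.comp (Filter.tendsto_add_atTop_nat 1)
  · rintro q ⟨C, h⟩ hq t
    set d : Wd → ℝ := fun u => (1 / 2) * (q (u ++ [true]) - q (u ++ [false])) with hd
    have q1 : ∀ u, q (u ++ [true]) = q u + d u := fun u => by
      have := hq u
      simp only [hd]
      linarith
    have q2 : ∀ u, q (u ++ [false]) = q u - d u := fun u => by
      have := hq u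
      simp only [hd]
      linarith
    have e1 : ∀ a, WM_EA a q = q [] := by
      intro a
      induction a with
      | zero => rfl
      | succ a ih =>
        rw [WM_right, ← WM_add, ← WM_smul]
        have : (fun w => (1 / 2 : ℝ) * (q (w ++ [true]) + q (w ++ [false]))) = q :=
          funext fun w => (hq w).symm
        rw [this, ih]
    have e2 : ∀ a, WM_EA (a + 1) (fun w => q w ^ 2) = WM_EA a (fun w => q w ^ 2) +
        WM_EA a (fun w => d w ^ 2) := by
      intro a
      rw [WM_right, ← WM_add, ← WM_smul, ← WM_add]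
      congr 1
      funext w
      rw [q1, q2]
      ring
    have e3 : ∀ N : ℕ, ∑ a ∈ Finset.range (N + 1), WM_EA a (fun w => d w ^ 2) ≤ C ^ 2 := by
      intro N
      have h1 : ∑ a ∈ Finset.range (N + 1), WM_EA a (fun w => d w ^ 2) =
          WM_EA (N + 1) (fun w => q w ^ 2) - WM_EA 0 (fun w => q w ^ 2) := by
        rw [← Finset.sum_range_sub (fun a => WM_EA a (fun w => q w ^ 2)) (N + 1)]
        refine Finset.sum_congr rfl fun a _ => ?_
        rw [e2]
        ring
      rw [h1]
      have h2 : WM_EA (N + 1) (fun w => q w ^ 2) ≤ C ^ 2 := by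
        have := WM_mono (N + 1) (fun w => q w ^ 2) (fun _ => C ^ 2) (fun w => by
          have h3 := h w
          rw [← sq_abs]
          exact pow_le_pow_left₀ (abs_nonneg _) h3 2)
        rwa [WM_const] at this
      have h4 : 0 ≤ WM_EA 0 (fun w => q w ^ 2) := sq_nonneg (q [])
      linarith
    have e4 : ∀ N : ℕ, (WM_av N d) ^ 2 ≤ C ^ 2 * (1 / ((N : ℝ) + 1)) := by
      intro N
      have hN : (0 : ℝ) < (N : ℝ) + 1 := by positivity
      unfold WM_av
      rw [div_pow, mul_one_div, div_le_div_iff₀ (by positivity) hN]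
      have h1 : (∑ a ∈ Finset.range (N + 1), WM_EA a d) ^ 2 ≤
          ((N : ℝ) + 1) * ∑ a ∈ Finset.range (N + 1), WM_EA a (fun w => d w ^ 2) := by
        have h2 := sq_sum_le_card_mul_sum_sq (s := Finset.range (N + 1)) (f := fun a => WM_EA a d)
        rw [Finset.card_range] at h2
        push_cast at h2
        refine h2.trans (mul_le_mul_of_nonneg_left ?_ hN.le)
        exact Finset.sum_le_sum fun a _ => WM_jensen a d
      have h3 := mul_le_mul_of_nonneg_left (e3 N) hN.le
      calc (∑ a ∈ Finset.range (N + 1), WM_EA a d) ^ 2 * ((N : ℝ) + 1)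
          ≤ (((N : ℝ) + 1) * C ^ 2) * ((N : ℝ) + 1) :=
            mul_le_mul_of_nonneg_right (h1.trans h3) hN.le
        _ = C ^ 2 * ((N : ℝ) + 1) ^ 2 := by ring
    have e5 : Filter.Tendsto (fun N => WM_av N d) Filter.atTop (nhds 0) := by
      have h1 : Filter.Tendsto (fun N => (WM_av N d) ^ 2) Filter.atTop (nhds 0) := by
        refine squeeze_zero (fun N => sq_nonneg _) e4 ?_
        have := WM_inv_tendsto.const_mul (C ^ 2)
        rwa [mul_zero] at this
      have h2 := (Real.continuous_sqrt.tendsto 0).comp h1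
      rw [Real.sqrt_zero] at h2
      rw [tendsto_zero_iff_abs_tendsto_zero]
      refine h2.congr fun N => ?_
      simp only [Function.comp_apply]
      rw [Real.sqrt_sq_eq_abs]
    have e6 : ∀ N, WM_av N q = q [] := by
      intro N
      have : WM_av N q = WM_av N (fun _ => q []) := by
        unfold WM_av
        simp only [e1, WM_const]
      rw [this, WM_av_const]
    refine hMt _ _ ?_
    cases t with
    | true =>
      have h1 : (fun N => WM_av N (fun u => q (u ++ [true]))) = fun N => q [] + WM_av N d := by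
        funext N
        simp only [q1]
        rw [WM_av_add, e6]
      rw [h1]
      have := e5.const_add (q [])
      rwa [add_zero] at this
    | false =>
      have h1 : (fun N => WM_av N (fun u => q (u ++ [false]))) = fun N => q [] + (-1) * WM_av N d := by
        funext N
        have h2 : (fun u => q (u ++ [false])) = fun u => q u + (-1) * d u := by
          funext u
          rw [q2]
          ring
        rw [h2, WM_av_add N q (fun u => (-1) * d u), WM_av_smul, e6]
      rw [h1]
      have := (e5.const_mul (-1)).const_add (q [])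
      rwa [mul_zero, add_zero] at this

end SimplVol

end S_WM

section S_WJ

/-!
# Module WJ: iterated means

`JJ M L P`: mean over the words `v s`, `s ∈ L`, the first element of `L` is the outermost (integrated last).
* `JJ_add`, `JJ_smul`, `JJ_const`, `JJ_bdd`: induction on `L`.
* `JJ_indep`: induction on `L₁`; base: the inner function does not depend on `u`: mean of a constant. Step: `fun v => P (update v s' u)` does not depend on `v s` either (`Function.update_comm`, `update_idem`).
* `JJ_rev`: induction on `L`: with `T v := fun x => if X x then rv (v x) else v x`, `T (update v s u) = update (T v) s (if X s then rv u else u)`, `T (fun _ => []) = fun _ => []`; the inner mean for fixed `u` by induction, then `hM.rev`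
  for the bounded function `u ↦ JJ M L (fun v => P (update v s u))`.
* `JJ_map`: induction on `L`, `L.map e = e s :: L'.map e`; for fixed `u` apply the induction hypothesis to the function `w ↦ P (update w (e s) u)`: `P (R (update v s u)) = P (update (R v) (e s) u)`.
* `JJ_left`: (stationarity at `s`) induction on `L₁`; base: `hM.left` for `u ↦ JJ M L₂ (fun v => P (update v s u))`; in `fun v => P (update v s (t :: v s))` the inner update gives `P (update v s (t :: u))`
  (`update_idem`, `update_self`). Step for `s' ≠ s`: `update_comm`. `JJ_right`: the same with `right` : `M P = ½ ∑_t M (P (· ++ [t]))` (from `left` and `rev`: `rv (t :: w) = rv w ++ [!t]`).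
* `JJ_merge₁`: reduce to `L₁ = []` by induction on `L₁` (the elements of `L₁` are different from `s₁, s₂`: `update_comm`). Then with `q w := JJ M (L₂ ++ s₂ :: L₃) (fun v => P (update v s₂ (w ++ v s₂)))` the left side is `M (fun u => q (u ++ [t]))`:
  `P (update (update v s₁ u) s₂ (u ++ [t] ++ v s₂)) = P (update v s₂ (u ++ [t] ++ v s₂))` by independence of `v s₁` (`update_comm`, `update_self`, `update_of_ne`). `q` is bounded and harmonic by `JJ_left`. `hM.key`: it is
  `q [] = JJ M (L₂ ++ s₂ :: L₃) P` (`update_eq_self`).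
* `JJ_merge₂`: the same with `q w := JJ M (L₂ ++ s₂ :: L₃) (fun v => P (update v s₂ (v s₂ ++ w)))`, `q w = ½ ∑_t q (t :: w)` (`JJ_right`) and `M (fun u => q (t :: u)) = q []`, which is `hM.key` for `q ∘ rv` and `hM.rev`.
-/

set_option autoImplicit false

open scoped BigOperators

namespace SimplVol

variable {M : (Wd → ℝ) →ₗ[ℝ] ℝ} {A B : Type} [DecidableEq A] [DecidableEq B]

/-- The iterated mean over the words of the elements of a list. -/
noncomputable def JJ (M : (Wd → ℝ) →ₗ[ℝ] ℝ) : List A → ((A → Wd) → ℝ) → ℝ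
  | [], P => P fun _ => []
  | s :: L, P => M fun u => JJ M L fun v => P (Function.update v s u)

theorem WJ_const (hM : WMean M) (c : ℝ) : M (fun _ => c) = c := by
  have h1 : (fun _ : Wd => c) = c • (fun _ : Wd => (1 : ℝ)) := by
    funext w
    simp
  rw [h1, map_smul, hM.one, smul_eq_mul, mul_one]

theorem WJ_add (P Q : Wd → ℝ) : M (fun w => P w + Q w) = M P + M Q := by
  have h1 : (fun w => P w + Q w) = P + Q := rfl
  rw [h1, map_add]

theorem WJ_smul (c : ℝ) (P : Wd → ℝ) : M (fun w => c * P w) = c * M P := by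
  have h1 : (fun w => c * P w) = c • P := rfl
  rw [h1, map_smul, smul_eq_mul]

theorem JJ_add (L : List A) (P Q : (A → Wd) → ℝ) :
    JJ M L (fun v => P v + Q v) = JJ M L P + JJ M L Q := by
  induction L generalizing P Q with
  | nil => rfl
  | cons s L ih =>
    show M (fun u => JJ M L fun v => P (Function.update v s u) + Q (Function.update v s u)) =
      M (fun u => JJ M L fun v => P (Function.update v s u)) +
      M (fun u => JJ M L fun v => Q (Function.update v s u))
    rw [← WJ_add]
    congr 1
    funext u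
    exact ih _ _

theorem JJ_smul (L : List A) (c : ℝ) (P : (A → Wd) → ℝ) :
    JJ M L (fun v => c * P v) = c * JJ M L P := by
  induction L generalizing P with
  | nil => rfl
  | cons s L ih =>
    show M (fun u => JJ M L fun v => c * P (Function.update v s u)) =
      c * M (fun u => JJ M L fun v => P (Function.update v s u))
    rw [← WJ_smul]
    congr 1
    funext u
    exact ih _

theorem JJ_const (hM : WMean M) (L : List A) (c : ℝ) : JJ M L (fun _ : A → Wd => c) = c := by
  induction L with
  | nil => rfl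
  | cons s L ih =>
    show M (fun u => JJ M L fun _ => c) = c
    rw [ih]
    exact WJ_const hM c

theorem JJ_bdd (hM : WMean M) (L : List A) (P : (A → Wd) → ℝ) (C : ℝ) (h : ∀ v, |P v| ≤ C) :
    |JJ M L P| ≤ C := by
  induction L generalizing P with
  | nil => exact h _
  | cons s L ih => exact hM.bdd _ C fun u => ih _ fun v => h _

theorem JJ_indep (hM : WMean M) (L₁ L₂ : List A) (s : A) (P : (A → Wd) → ℝ)
    (h : ∀ v u, P (Function.update v s u) = P v) :
    JJ M (L₁ ++ s :: L₂) P = JJ M (L₁ ++ L₂) P := by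
  induction L₁ generalizing P with
  | nil =>
    show M (fun u => JJ M L₂ fun v => P (Function.update v s u)) = JJ M L₂ P
    simp only [h]
    exact WJ_const hM _
  | cons s' L₁ ih =>
    show M (fun u => JJ M (L₁ ++ s :: L₂) fun v => P (Function.update v s' u)) =
      M (fun u => JJ M (L₁ ++ L₂) fun v => P (Function.update v s' u))
    congr 1
    funext u
    refine ih _ ?_
    intro v w
    by_cases hs : s = s'
    · subst hs
      rw [Function.update_idem]
    · rw [Function.update_comm hs, h]

theorem JJ_rev (hM : WMean M) (L : List A) (X : A → Prop) [DecidablePred X] (P : (A → Wd) → ℝ)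
    (hP : ∃ C, ∀ v, |P v| ≤ C) :
    JJ M L (fun v => P fun x => if X x then rv (v x) else v x) = JJ M L P := by
  induction L generalizing P with
  | nil =>
    show P (fun x => if X x then rv [] else []) = P fun _ => []
    congr 1
    funext x
    split_ifs <;> rfl
  | cons s L ih =>
    obtain ⟨C, hC⟩ := hP
    show M (fun u => JJ M L fun v => P fun x => if X x then rv (Function.update v s u x)
      else Function.update v s u x) = M (fun u => JJ M L fun v => P (Function.update v s u))
    have h1 : ∀ u : Wd, (JJ M L fun v => P fun x => if X x then rv (Function.update v s u x)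
        else Function.update v s u x) =
        JJ M L fun v => P (Function.update v s (if X s then rv u else u)) := by
      intro u
      rw [← ih (fun v => P (Function.update v s (if X s then rv u else u))) ⟨C, fun v => hC _⟩]
      congr 1
      funext v
      congr 1
      funext x
      by_cases hx : x = s
      · subst hx
        simp
      · simp [Function.update_of_ne hx]
    simp only [h1]
    by_cases hX : X s
    · simp only [hX, if_true]
      exact hM.rev (fun u => JJ M L fun v => P (Function.update v s u))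
        ⟨C, fun u => JJ_bdd hM L _ C fun v => hC _⟩
    · simp only [hX, if_false]

theorem JJ_map (L : List A) (e : A → B) (R : (A → Wd) → (B → Wd))
    (h0 : R (fun _ => []) = fun _ => [])
    (hR : ∀ v, ∀ s ∈ L, ∀ u, R (Function.update v s u) = Function.update (R v) (e s) u)
    (P : (B → Wd) → ℝ) : JJ M L (fun v => P (R v)) = JJ M (L.map e) P := by
  induction L generalizing P with
  | nil =>
    show P (R fun _ => []) = P fun _ => []
    rw [h0]
  | cons s L ih =>
    show M (fun u => JJ M L fun v => P (R (Function.update v s u))) =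
      M (fun u => JJ M (L.map e) fun v => P (Function.update v (e s) u))
    congr 1
    funext u
    rw [← ih (fun v s' hs' u => hR v s' (List.mem_cons_of_mem _ hs') u)
      (fun w => P (Function.update w (e s) u))]
    congr 1
    funext v
    rw [hR v s List.mem_cons_self u]

/-- stationarity in a general form. -/
theorem WJ_st (hM : WMean M) (f g : Wd → Wd)
    (hfg : ∀ P : Wd → ℝ, (∃ C, ∀ w, |P w| ≤ C) →
      M P = (1 / 2) * (M (fun w => P (f w)) + M (fun w => P (g w))))
    (L₁ L₂ : List A) (s : A) (hs : s ∉ L₁)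
    (P : (A → Wd) → ℝ) (hP : ∃ C, ∀ v, |P v| ≤ C) :
    JJ M (L₁ ++ s :: L₂) P =
      (1 / 2) * (JJ M (L₁ ++ s :: L₂) (fun v => P (Function.update v s (f (v s)))) +
        JJ M (L₁ ++ s :: L₂) fun v => P (Function.update v s (g (v s)))) := by
  obtain ⟨C, hC⟩ := hP
  induction L₁ generalizing P with
  | nil =>
    show M (fun u => JJ M L₂ fun v => P (Function.update v s u)) =
      (1 / 2) * (M (fun u => JJ M L₂ fun v => P (Function.update (Function.update v s u) s
        (f (Function.update v s u s)))) +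
      M (fun u => JJ M L₂ fun v => P (Function.update (Function.update v s u) s
        (g (Function.update v s u s)))))
    simp only [Function.update_idem, Function.update_self]
    exact hfg (fun u => JJ M L₂ fun v => P (Function.update v s u))
      ⟨C, fun u => JJ_bdd hM L₂ _ C fun v => hC _⟩
  | cons s' L₁ ih =>
    rw [List.mem_cons, not_or] at hs
    show M (fun u => JJ M (L₁ ++ s :: L₂) fun v => P (Function.update v s' u)) =
      (1 / 2) * (M (fun u => JJ M (L₁ ++ s :: L₂) fun v => P (Function.update (Function.update v s' u) s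
        (f (Function.update v s' u s)))) +
      M (fun u => JJ M (L₁ ++ s :: L₂) fun v => P (Function.update (Function.update v s' u) s
        (g (Function.update v s' u s)))))
    rw [← WJ_add, ← WJ_smul]
    congr 1
    funext u
    rw [ih hs.2 (fun v => P (Function.update v s' u)) fun v => hC _]
    have h1 : ∀ (φ : Wd → Wd), (fun v : A → Wd => P (Function.update (Function.update v s (φ (v s))) s' u)) =
        fun v => P (Function.update (Function.update v s' u) s (φ (Function.update v s' u s))) := by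
      intro φ
      funext v
      rw [Function.update_of_ne hs.1, Function.update_comm hs.1]
    rw [h1 f, h1 g]

theorem WJ_right (hM : WMean M) (P : Wd → ℝ) (hP : ∃ C, ∀ w, |P w| ≤ C) :
    M P = (1 / 2) * (M (fun w => P (w ++ [true])) + M (fun w => P (w ++ [false]))) := by
  obtain ⟨C, hC⟩ := hP
  have h1 := hM.rev P ⟨C, hC⟩
  have h2 := hM.left (fun w => P (rv w)) ⟨C, fun w => hC _⟩
  have h3 := hM.rev (fun w => P (w ++ [true])) ⟨C, fun w => hC _⟩
  have h4 := hM.rev (fun w => P (w ++ [false])) ⟨C, fun w => hC _⟩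
  simp only [rv_cons, Bool.not_true, Bool.not_false] at h2
  rw [h1, h3, h4] at h2
  rw [h2, add_comm]

theorem JJ_left (hM : WMean M) (L₁ L₂ : List A) (s : A) (hs : s ∉ L₁) (hs' : s ∉ L₂)
    (P : (A → Wd) → ℝ) (hP : ∃ C, ∀ v, |P v| ≤ C) :
    JJ M (L₁ ++ s :: L₂) P =
      (1 / 2) * (JJ M (L₁ ++ s :: L₂) (fun v => P (Function.update v s (true :: v s))) +
        JJ M (L₁ ++ s :: L₂) fun v => P (Function.update v s (false :: v s))) :=
  WJ_st hM (fun w => true :: w) (fun w => false :: w) hM.left L₁ L₂ s hs P hP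

theorem JJ_right (hM : WMean M) (L₁ L₂ : List A) (s : A) (hs : s ∉ L₁) (hs' : s ∉ L₂)
    (P : (A → Wd) → ℝ) (hP : ∃ C, ∀ v, |P v| ≤ C) :
    JJ M (L₁ ++ s :: L₂) P =
      (1 / 2) * (JJ M (L₁ ++ s :: L₂) (fun v => P (Function.update v s (v s ++ [true]))) +
        JJ M (L₁ ++ s :: L₂) fun v => P (Function.update v s (v s ++ [false]))) :=
  WJ_st hM (fun w => w ++ [true]) (fun w => w ++ [false]) (WJ_right hM) L₁ L₂ s hs P hP

/-- the outer variables do not matter for a merge. -/
theorem WJ_merge (L₁ L₂ L₃ : List A) (s₁ s₂ : A) (f : Wd → Wd → Wd)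
    (h1 : s₁ ∉ L₁) (h2 : s₂ ∉ L₁)
    (hbase : ∀ P : (A → Wd) → ℝ, (∃ C, ∀ v, |P v| ≤ C) → (∀ v u, P (Function.update v s₁ u) = P v) →
      JJ M (s₁ :: (L₂ ++ s₂ :: L₃)) (fun v => P (Function.update v s₂ (f (v s₁) (v s₂)))) =
        JJ M (L₂ ++ s₂ :: L₃) P)
    (P : (A → Wd) → ℝ) (hP : ∃ C, ∀ v, |P v| ≤ C)
    (h : ∀ v u, P (Function.update v s₁ u) = P v) :
    JJ M (L₁ ++ s₁ :: (L₂ ++ s₂ :: L₃))
      (fun v => P (Function.update v s₂ (f (v s₁) (v s₂)))) =
        JJ M (L₁ ++ (L₂ ++ s₂ :: L₃)) P := by
  obtain ⟨C, hC⟩ := hP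
  induction L₁ generalizing P with
  | nil => exact hbase P ⟨C, hC⟩ h
  | cons s' L₁ ih =>
    rw [List.mem_cons, not_or] at h1 h2
    show M (fun u => JJ M (L₁ ++ s₁ :: (L₂ ++ s₂ :: L₃)) fun v =>
      P (Function.update (Function.update v s' u) s₂
        (f (Function.update v s' u s₁) (Function.update v s' u s₂)))) =
      M (fun u => JJ M (L₁ ++ (L₂ ++ s₂ :: L₃)) fun v => P (Function.update v s' u))
    congr 1
    funext u
    rw [← ih h1.2 h2.2 (fun v => P (Function.update v s' u)) (fun v w => ?_) fun v => hC _]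
    · congr 1
      funext v
      rw [Function.update_of_ne h1.1, Function.update_of_ne h2.1, Function.update_comm h2.1]
    · rw [Function.update_comm h1.1, h]

theorem JJ_merge₁ (hM : WMean M) (L₁ L₂ L₃ : List A) (s₁ s₂ : A)
    (hn : (L₁ ++ s₁ :: (L₂ ++ s₂ :: L₃)).Nodup) (P : (A → Wd) → ℝ) (hP : ∃ C, ∀ v, |P v| ≤ C)
    (h : ∀ v u, P (Function.update v s₁ u) = P v) (t : Bool) :
    JJ M (L₁ ++ s₁ :: (L₂ ++ s₂ :: L₃))
      (fun v => P (Function.update v s₂ (v s₁ ++ [t] ++ v s₂))) =
        JJ M (L₁ ++ (L₂ ++ s₂ :: L₃)) P := by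
  rw [List.nodup_append, List.nodup_cons, List.nodup_append, List.nodup_cons] at hn
  obtain ⟨-, ⟨n1, -, ⟨n2, -⟩, n3⟩, n4⟩ := hn
  have e1 : s₁ ∉ L₁ := fun h => n4 _ h _ List.mem_cons_self rfl
  have e2 : s₂ ∉ L₁ := fun h => n4 _ h _ (by simp) rfl
  have e3 : s₁ ≠ s₂ := by
    rintro rfl
    exact n1 (by simp)
  have e4 : s₂ ∉ L₂ := fun h => n3 _ h _ List.mem_cons_self rfl
  refine WJ_merge L₁ L₂ L₃ s₁ s₂ (fun a b => a ++ [t] ++ b) e1 e2 ?_ P hP h
  rintro Q ⟨C, hC⟩ hQ
  have key := hM.key (fun w => JJ M (L₂ ++ s₂ :: L₃) fun v => Q (Function.update v s₂ (w ++ v s₂)))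
    ⟨C, fun w => JJ_bdd hM _ _ C fun v => hC _⟩ ?_ t
  · show M (fun u => JJ M (L₂ ++ s₂ :: L₃) fun v => Q (Function.update (Function.update v s₁ u) s₂
      (Function.update v s₁ u s₁ ++ [t] ++ Function.update v s₁ u s₂))) = _
    have h5 : ∀ (u : Wd), (fun v : A → Wd => Q (Function.update (Function.update v s₁ u) s₂
        (Function.update v s₁ u s₁ ++ [t] ++ Function.update v s₁ u s₂))) =
        fun v => Q (Function.update v s₂ (u ++ [t] ++ v s₂)) := by
      intro u
      funext v
      rw [Function.update_self, Function.update_of_ne e3.symm, Function.update_comm e3, hQ]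
    simp only [h5]
    refine key.trans ?_
    simp only [List.nil_append, Function.update_eq_self]
  · intro u
    have h6 := JJ_left hM L₂ L₃ s₂ e4 n2 (fun v => Q (Function.update v s₂ (u ++ v s₂)))
      ⟨C, fun v => hC _⟩
    simp only [Function.update_idem, Function.update_self] at h6
    simp only [List.append_assoc, List.singleton_append]
    exact h6

theorem JJ_merge₂ (hM : WMean M) (L₁ L₂ L₃ : List A) (s₁ s₂ : A)
    (hn : (L₁ ++ s₁ :: (L₂ ++ s₂ :: L₃)).Nodup) (P : (A → Wd) → ℝ) (hP : ∃ C, ∀ v, |P v| ≤ C)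
    (h : ∀ v u, P (Function.update v s₁ u) = P v) (t : Bool) :
    JJ M (L₁ ++ s₁ :: (L₂ ++ s₂ :: L₃))
      (fun v => P (Function.update v s₂ (v s₂ ++ [t] ++ v s₁))) =
        JJ M (L₁ ++ (L₂ ++ s₂ :: L₃)) P := by
  rw [List.nodup_append, List.nodup_cons, List.nodup_append, List.nodup_cons] at hn
  obtain ⟨-, ⟨n1, -, ⟨n2, -⟩, n3⟩, n4⟩ := hn
  have e1 : s₁ ∉ L₁ := fun h => n4 _ h _ List.mem_cons_self rfl
  have e2 : s₂ ∉ L₁ := fun h => n4 _ h _ (by simp) rfl
  have e3 : s₁ ≠ s₂ := by
    rintro rfl
    exact n1 (by simp)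
  have e4 : s₂ ∉ L₂ := fun h => n3 _ h _ List.mem_cons_self rfl
  refine WJ_merge L₁ L₂ L₃ s₁ s₂ (fun a b => b ++ [t] ++ a) e1 e2 ?_ P hP h
  rintro Q ⟨C, hC⟩ hQ
  have key := hM.key (fun w => JJ M (L₂ ++ s₂ :: L₃) fun v => Q (Function.update v s₂ (v s₂ ++ rv w)))
    ⟨C, fun w => JJ_bdd hM _ _ C fun v => hC _⟩ ?_ (!t)
  · show M (fun u => JJ M (L₂ ++ s₂ :: L₃) fun v => Q (Function.update (Function.update v s₁ u) s₂
      (Function.update v s₁ u s₂ ++ [t] ++ Function.update v s₁ u s₁))) = _
    have h5 : ∀ (u : Wd), (fun v : A → Wd => Q (Function.update (Function.update v s₁ u) s₂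
        (Function.update v s₁ u s₂ ++ [t] ++ Function.update v s₁ u s₁))) =
        fun v => Q (Function.update v s₂ (v s₂ ++ [t] ++ u)) := by
      intro u
      funext v
      rw [Function.update_self, Function.update_of_ne e3.symm, Function.update_comm e3, hQ]
    simp only [h5]
    have h7 := hM.rev (fun u => JJ M (L₂ ++ s₂ :: L₃) fun v => Q (Function.update v s₂ (v s₂ ++ [t] ++ u)))
      ⟨C, fun w => JJ_bdd hM _ _ C fun v => hC _⟩
    rw [← h7]
    have h8 : ∀ u : Wd, rv (u ++ [!t]) = t :: rv u := by
      intro u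
      rw [rv_append]
      simp [rv]
    simp only [h8] at key
    simp only [List.append_assoc, List.singleton_append]
    refine key.trans ?_
    simp only [rv_nil, List.append_nil, Function.update_eq_self]
  · intro u
    have h6 := JJ_right hM L₂ L₃ s₂ e4 n2 (fun v => Q (Function.update v s₂ (v s₂ ++ rv u)))
      ⟨C, fun v => hC _⟩
    simp only [Function.update_idem, Function.update_self, List.append_assoc,
      List.singleton_append] at h6
    have h8 : ∀ b : Bool, rv (u ++ [b]) = (!b) :: rv u := by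
      intro b
      rw [rv_append]
      simp [rv]
    simp only [h8, Bool.not_true, Bool.not_false]
    rw [add_comm]
    exact h6

end SimplVol

end S_WJ

section S_FDL

/-!
# Module FDL: exact measurable fundamental domains

`R = {x ∈ X | ∀ g, k x < k (T g x) ∨ (k x = k (T g x) ∧ e x ≤ e (T g x))}`.
* measurable: countable intersection of sets given by measurable functions (`measurableSet_lt`, `measurableSet_le`, `measurableSet_eq_fun`).
* existence: for `x ∈ X` the set `{g | k (T g x) ≤ k x}` is finite and contains `1`; let `g` minimise `(k (T g x), e (T g x))` lexicographically in it (`Finset.exists_min_image` with values in `ℝ ×ₗ ℝ`, `toLex`; or first minimise `k`, then `e` among the minimisers); `T g x ∈ R` (`T h (T g x) = T (h * g) x`).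
* uniqueness: if `T g x` and `T h x` are in `R` then each is `≤` the other in the lexicographic order, so `e (T g x) = e (T h x)`, so `T g x = T h x` (`e` injective), `T (h⁻¹ * g) x = x`, `g = h` by freeness.
-/

set_option autoImplicit false

namespace SimplVol

theorem exists_fd {G α : Type} [Group G] [Countable G] [MeasurableSpace α] (T : G → α → α)
    (hT1 : ∀ x, T 1 x = x) (hTm : ∀ g h x, T (g * h) x = T g (T h x))
    (hmeas : ∀ g, Measurable (T g)) (X : Set α) (hX : MeasurableSet X)
    (hinv : ∀ g, ∀ x ∈ X, T g x ∈ X) (hfree : ∀ g, ∀ x ∈ X, T g x = x → g = 1)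
    (k e : α → ℝ) (hk : Measurable k) (he : Measurable e) (hei : Function.Injective e)
    (hfin : ∀ x ∈ X, ∀ r : ℝ, {g : G | k (T g x) ≤ r}.Finite) :
    ∃ R : Set α, MeasurableSet R ∧ R ⊆ X ∧ (∀ x ∈ X, ∃! g : G, T g x ∈ R) ∧
      ∀ x ∈ R, ∀ g : G, k x ≤ k (T g x) := by
  classical
  refine ⟨{x | x ∈ X ∧ ∀ g, k x < k (T g x) ∨ (k x = k (T g x) ∧ e x ≤ e (T g x))}, ?_, ?_, ?_, ?_⟩
  · have h1 : {x | x ∈ X ∧ ∀ g, k x < k (T g x) ∨ (k x = k (T g x) ∧ e x ≤ e (T g x))} =
        X ∩ ⋂ g, ({x | k x < k (T g x)} ∪ ({x | k x = k (T g x)} ∩ {x | e x ≤ e (T g x)})) := by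
      ext x
      simp only [Set.mem_setOf_eq, Set.mem_inter_iff, Set.mem_iInter, Set.mem_union]
    rw [h1]
    refine hX.inter (MeasurableSet.iInter fun g => ?_)
    exact (measurableSet_lt hk (hk.comp (hmeas g))).union
      ((measurableSet_eq_fun hk (hk.comp (hmeas g))).inter (measurableSet_le he (he.comp (hmeas g))))
  · intro x hx
    exact hx.1
  · intro x hx
    have hS : ∀ g, g ∈ (hfin x hx (k x)).toFinset ↔ k (T g x) ≤ k x := by
      intro g
      rw [Set.Finite.mem_toFinset]
      rfl
    have h1S : (1 : G) ∈ (hfin x hx (k x)).toFinset := by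
      rw [hS, hT1]
    obtain ⟨g0, hg0, hmin0⟩ := Finset.exists_min_image (hfin x hx (k x)).toFinset
      (fun g => k (T g x)) ⟨1, h1S⟩
    obtain ⟨g1, hg1, hmin1⟩ := Finset.exists_min_image
      ((hfin x hx (k x)).toFinset.filter (fun g => k (T g x) = k (T g0 x)))
      (fun g => e (T g x)) ⟨g0, Finset.mem_filter.2 ⟨hg0, rfl⟩⟩
    rw [Finset.mem_filter] at hg1
    have hk0 : k (T g0 x) ≤ k x := (hS g0).1 hg0
    refine ⟨g1, ⟨hinv g1 x hx, fun h => ?_⟩, ?_⟩
    · rw [← hTm]
      by_cases hc : k (T (h * g1) x) ≤ k x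
      · have h2 := hmin0 (h * g1) ((hS _).2 hc)
        rcases h2.lt_or_eq with h3 | h3
        · left
          rw [hg1.2]
          exact h3
        · right
          refine ⟨by rw [hg1.2]; exact h3, ?_⟩
          exact hmin1 (h * g1) (Finset.mem_filter.2 ⟨(hS _).2 hc, h3.symm⟩)
      · left
        rw [hg1.2]
        exact lt_of_le_of_lt hk0 (not_le.1 hc)
    · rintro g ⟨_, hg⟩
      have a1 := hg (g1 * g⁻¹)
      rw [← hTm, inv_mul_cancel_right] at a1
      have hR1 : ∀ h, k (T g1 x) < k (T h (T g1 x)) ∨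
          (k (T g1 x) = k (T h (T g1 x)) ∧ e (T g1 x) ≤ e (T h (T g1 x))) := by
        intro h
        rw [← hTm]
        by_cases hc : k (T (h * g1) x) ≤ k x
        · have h2 := hmin0 (h * g1) ((hS _).2 hc)
          rcases h2.lt_or_eq with h3 | h3
          · left
            rw [hg1.2]
            exact h3
          · right
            refine ⟨by rw [hg1.2]; exact h3, ?_⟩
            exact hmin1 (h * g1) (Finset.mem_filter.2 ⟨(hS _).2 hc, h3.symm⟩)
        · left
          rw [hg1.2]
          exact lt_of_le_of_lt hk0 (not_le.1 hc)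
      have a2 := hR1 (g * g1⁻¹)
      rw [← hTm, inv_mul_cancel_right] at a2
      have a3 : e (T g x) = e (T g1 x) := by
        rcases a1 with a1 | a1 <;> rcases a2 with a2 | a2
        · exact absurd (a1.trans a2) (lt_irrefl _)
        · exact absurd a2.1 (ne_of_gt a1)
        · exact absurd a1.1 (ne_of_gt a2)
        · exact le_antisymm a1.2 a2.2
      have a4 := hei a3
      have a5 : T (g1⁻¹ * g) x = x := by
        rw [hTm, a4, ← hTm, inv_mul_cancel, hT1]
      have a6 := hfree _ x hx a5
      rw [inv_mul_eq_one] at a6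
      exact a6.symm
  · rintro x ⟨_, hx⟩ g
    rcases hx g with h | h
    · exact h.le
    · exact h.1.le

end SimplVol

end S_FDL

section S_LQ

/-!
# Module LQ: finite linear programmes with rational data have rational optimal values

Fourier-Motzkin elimination.
* `fm_one`: eliminating one real variable `t`. For a list `L` of pairs `(α, f)` (`α` rational, `f` a real number): `(∃ t, ∀ c ∈ L, 0 ≤ α_c t + f_c)` iff (for all `c ∈ L` with `α_c = 0`: `0 ≤ f_c`) and
  (for all `c, c' ∈ L` with `0 < α_c`, `α_c' < 0`: `0 ≤ α_c f_c' - α_c' f_c`). (Lower bounds `-f_c/α_c`, upper bounds `f_c'/(-α_c')`; if there are lower bounds take `t` = the largest one, else any number below all upper bounds.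
  `Finset.exists_max_image` / `List` induction, your choice.)
* `fm`: the projection to `v` of the set given by finitely many rational inequalities is given by finitely many rational inequalities. Induction on `k` (peel off the variable `b 0`: `b = Fin.cons t b'`, `Fin.sum_univ_succ`); the new list of
  constraints consists of the `c` with `c.1 0 = 0` (drop the coordinate `0`) and of the combinations `(α_c) c' - (α_c') c`; finite lists: `List.filter`, `List.product` or `Finset`s, your choice (you may replace lists by finsets of `(Fin k → ℚ) × ℚ × ℚ`, as long as `lp_rat` is as stated).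
* `lp_rat`: the set `S` is given by the constraints `w i + ∑ A i j b j ≤ v` and `-(w i + ∑ ..) ≤ v`. By `fm`, `S = {v | ∀ c ∈ L', 0 ≤ c.1 v + c.2}`. `S` is nonempty (`b = 0`, `v` large), bounded below by `0` (`I` nonempty). So some `c ∈ L'` has `c.1 > 0` (otherwise every smaller
  number would be in `S`). Let `m` be the maximum of `-c.2/c.1` over the `c ∈ L'` with `c.1 > 0`: rational; `m ≤ v` for `v ∈ S`, and `m ∈ S` (constraints with `c.1 ≤ 0`: they hold for `v₀ ∈ S` and `m ≤ v₀`).
-/

set_option autoImplicit false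

open scoped BigOperators

namespace SimplVol

/-- Elimination of one real variable. -/
theorem LQ_one {β : Type} (L : List β) (α f : β → ℝ) :
    (∃ t : ℝ, ∀ c ∈ L, 0 ≤ α c * t + f c) ↔
      (∀ c ∈ L, α c = 0 → 0 ≤ f c) ∧
        ∀ c ∈ L, ∀ c' ∈ L, 0 < α c → α c' < 0 → 0 ≤ α c * f c' - α c' * f c := by
  constructor
  · rintro ⟨t, ht⟩
    refine ⟨?_, ?_⟩
    · intro c hc h0
      have := ht c hc
      rw [h0] at this
      linarith
    · intro c hc c' hc' h1 h2
      have a1 := ht c hc
      have a2 := ht c' hc'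
      nlinarith [mul_nonneg h1.le a2, mul_nonneg (neg_nonneg.2 h2.le) a1]
  · rintro ⟨h0, h1⟩
    have fin : ∀ p : β → Prop, {c | c ∈ L ∧ p c}.Finite := fun p =>
      (List.finite_toSet L).subset (fun c hc => hc.1)
    by_cases hp : {c | c ∈ L ∧ 0 < α c}.Nonempty
    · obtain ⟨c0, ⟨hc0, hα0⟩, hmax⟩ := Set.exists_max_image _ (fun c => -f c / α c) (fin _) hp
      refine ⟨-f c0 / α c0, ?_⟩
      intro c hc
      rcases lt_trichotomy (α c) 0 with h | h | h
      · have h2 := h1 c0 hc0 c hc hα0 h
        have e : α c * (-f c0 / α c0) + f c = (α c0 * f c - α c * f c0) / α c0 := by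
          field_simp
          ring
        rw [e]
        positivity
      · rw [h, zero_mul, zero_add]
        exact h0 c hc h
      · have h2 : -f c / α c ≤ -f c0 / α c0 := hmax c ⟨hc, h⟩
        have h3 := mul_le_mul_of_nonneg_left h2 h.le
        have e : α c * (-f c / α c) = -f c := by field_simp
        rw [e] at h3
        linarith
    · by_cases hn : {c | c ∈ L ∧ α c < 0}.Nonempty
      · obtain ⟨c0, ⟨hc0, hα0⟩, hmin⟩ := Set.exists_min_image _ (fun c => -f c / α c) (fin _) hn
        refine ⟨-f c0 / α c0, ?_⟩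
        intro c hc
        rcases lt_trichotomy (α c) 0 with h | h | h
        · have h2 : -f c0 / α c0 ≤ -f c / α c := hmin c ⟨hc, h⟩
          have h3 := mul_le_mul_of_nonpos_left h2 h.le
          have e : α c * (-f c / α c) = -f c := by
            have := h.ne
            field_simp
          rw [e] at h3
          linarith
        · rw [h, zero_mul, zero_add]
          exact h0 c hc h
        · exact absurd ⟨c, hc, h⟩ hp
      · refine ⟨0, ?_⟩
        intro c hc
        rcases lt_trichotomy (α c) 0 with h | h | h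
        · exact absurd ⟨c, hc, h⟩ hn
        · rw [h, zero_mul, zero_add]
          exact h0 c hc h
        · exact absurd ⟨c, hc, h⟩ hp

/-- The combination of two constraints. -/
def LQ_comb {k : ℕ} (c c' : (Fin (k + 1) → ℚ) × ℚ × ℚ) : (Fin k → ℚ) × ℚ × ℚ :=
  (fun j => c.1 0 * c'.1 j.succ - c'.1 0 * c.1 j.succ,
    c.1 0 * c'.2.1 - c'.1 0 * c.2.1, c.1 0 * c'.2.2 - c'.1 0 * c.2.2)

/-- The value of a constraint. -/
def LQ_val {k : ℕ} (c : (Fin k → ℚ) × ℚ × ℚ) (b : Fin k → ℝ) (v : ℝ) : ℝ :=
  ∑ j, (c.1 j : ℝ) * b j + (c.2.1 : ℝ) * v + (c.2.2 : ℝ)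

/-- Drop the first variable. -/
def LQ_tail {k : ℕ} (c : (Fin (k + 1) → ℚ) × ℚ × ℚ) : (Fin k → ℚ) × ℚ × ℚ :=
  (fun j => c.1 j.succ, c.2)

theorem LQ_val_comb {k : ℕ} (c c' : (Fin (k + 1) → ℚ) × ℚ × ℚ) (b : Fin k → ℝ) (v : ℝ) :
    LQ_val (LQ_comb c c') b v =
      (c.1 0 : ℝ) * LQ_val (LQ_tail c') b v - (c'.1 0 : ℝ) * LQ_val (LQ_tail c) b v := by
  unfold LQ_val LQ_comb LQ_tail
  simp only
  push_cast
  have e : ∑ j, ((c.1 0 : ℝ) * (c'.1 j.succ : ℝ) - (c'.1 0 : ℝ) * (c.1 j.succ : ℝ)) * b j =
      (c.1 0 : ℝ) * ∑ j, (c'.1 j.succ : ℝ) * b j - (c'.1 0 : ℝ) * ∑ j, (c.1 j.succ : ℝ) * b j := by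
    rw [Finset.mul_sum, Finset.mul_sum, ← Finset.sum_sub_distrib]
    apply Finset.sum_congr rfl
    intro j _
    ring
  rw [e]
  ring

theorem LQ_val_succ {k : ℕ} (c : (Fin (k + 1) → ℚ) × ℚ × ℚ) (b : Fin (k + 1) → ℝ) (v : ℝ) :
    LQ_val c b v = (c.1 0 : ℝ) * b 0 + LQ_val (LQ_tail c) (fun j => b j.succ) v := by
  unfold LQ_val LQ_tail
  rw [Fin.sum_univ_succ]
  ring

theorem fm (k : ℕ) (L : List ((Fin k → ℚ) × ℚ × ℚ)) : ∃ L' : List (ℚ × ℚ), ∀ v : ℝ,
    (∃ b : Fin k → ℝ, ∀ c ∈ L, 0 ≤ ∑ j, (c.1 j : ℝ) * b j + (c.2.1 : ℝ) * v + (c.2.2 : ℝ)) ↔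
      ∀ c ∈ L', 0 ≤ (c.1 : ℝ) * v + (c.2 : ℝ) := by
  induction k with
  | zero =>
    refine ⟨L.map (fun c => c.2), ?_⟩
    intro v
    constructor
    · rintro ⟨b, hb⟩ c hc
      obtain ⟨c', hc', rfl⟩ := List.mem_map.1 hc
      have := hb c' hc'
      simpa using this
    · intro h
      refine ⟨fun _ => 0, ?_⟩
      intro c hc
      have := h c.2 (List.mem_map.2 ⟨c, hc, rfl⟩)
      simpa using this
  | succ k ih =>
    classical
    obtain ⟨L', hL'⟩ := ih ((L.filter (fun c => c.1 0 = 0)).map LQ_tail ++
      ((L.product L).filter (fun p => 0 < p.1.1 0 ∧ p.2.1 0 < 0)).map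
        (fun p => LQ_comb p.1 p.2))
    refine ⟨L', ?_⟩
    intro v
    rw [← hL' v]
    have key : ∀ b' : Fin k → ℝ, (∃ t : ℝ, ∀ c ∈ L, 0 ≤ (c.1 0 : ℝ) * t + LQ_val (LQ_tail c) b' v) ↔
        ∀ c ∈ (L.filter (fun c => c.1 0 = 0)).map LQ_tail ++
          ((L.product L).filter (fun p => 0 < p.1.1 0 ∧ p.2.1 0 < 0)).map
            (fun p => LQ_comb p.1 p.2), 0 ≤ LQ_val c b' v := by
      intro b'
      rw [LQ_one L (fun c => (c.1 0 : ℝ)) (fun c => LQ_val (LQ_tail c) b' v)]
      constructor
      · rintro ⟨h0, h1⟩ c hc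
        rcases List.mem_append.1 hc with hc | hc
        · obtain ⟨c', hc', rfl⟩ := List.mem_map.1 hc
          have h2 := List.mem_filter.1 hc'
          exact h0 c' h2.1 (by
            have : c'.1 0 = 0 := by simpa using h2.2
            rw [this, Rat.cast_zero])
        · obtain ⟨⟨c1, c2⟩, hc', rfl⟩ := List.mem_map.1 hc
          have h2 := List.mem_filter.1 hc'
          have h3 := List.mem_product.1 h2.1
          have h4 : 0 < c1.1 0 ∧ c2.1 0 < 0 := by simpa using h2.2
          rw [LQ_val_comb]
          exact h1 c1 h3.1 c2 h3.2 (by exact_mod_cast h4.1) (by exact_mod_cast h4.2)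
      · intro h
        refine ⟨?_, ?_⟩
        · intro c hc h0
          apply h
          apply List.mem_append_left
          refine List.mem_map.2 ⟨c, List.mem_filter.2 ⟨hc, ?_⟩, rfl⟩
          have h0' : (c.1 0 : ℝ) = 0 := h0
          have : c.1 0 = 0 := by exact_mod_cast h0'
          simpa using this
        · intro c hc c' hc' h0 h1
          have h0' : 0 < (c.1 0 : ℝ) := h0
          have h1' : (c'.1 0 : ℝ) < 0 := h1
          show 0 ≤ (c.1 0 : ℝ) * LQ_val (LQ_tail c') b' v - (c'.1 0 : ℝ) * LQ_val (LQ_tail c) b' v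
          rw [← LQ_val_comb]
          apply h
          apply List.mem_append_right
          refine List.mem_map.2 ⟨(c, c'), List.mem_filter.2 ⟨List.mem_product.2 ⟨hc, hc'⟩, ?_⟩, rfl⟩
          have a1 : 0 < c.1 0 := by exact_mod_cast h0'
          have a2 : c'.1 0 < 0 := by exact_mod_cast h1'
          simpa using And.intro a1 a2
    constructor
    · rintro ⟨b, hb⟩
      refine ⟨fun j => b j.succ, ?_⟩
      refine (key _).1 ⟨b 0, ?_⟩
      intro c hc
      rw [← LQ_val_succ]
      exact hb c hc
    · rintro ⟨b', hb'⟩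
      obtain ⟨t, ht⟩ := (key b').2 hb'
      refine ⟨Fin.cons t b', ?_⟩
      intro c hc
      have h := LQ_val_succ c (Fin.cons t b') v
      have e : (fun j : Fin k => (Fin.cons t b' : Fin (k + 1) → ℝ) j.succ) = b' := by
        funext j
        rw [Fin.cons_succ]
      rw [e, Fin.cons_zero] at h
      have h2 := ht c hc
      rw [← h] at h2
      exact h2

theorem lp_rat {I J : Type} [Fintype I] [Nonempty I] [Fintype J] (w : I → ℚ) (A : I → J → ℚ) :
    ∃ q : ℚ, IsLeast {v : ℝ | ∃ b : J → ℝ, ∀ i, |(w i : ℝ) + ∑ j, (A i j : ℝ) * b j| ≤ v} q := by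
  classical
  set e := Fintype.equivFin J with he
  obtain ⟨L', hL'⟩ := fm (Fintype.card J) ((Finset.univ : Finset I).toList.flatMap (fun i =>
    [((fun j => -A i (e.symm j)), 1, -w i), ((fun j => A i (e.symm j)), 1, w i)]))
  have hS : ∀ v : ℝ, (∃ b : J → ℝ, ∀ i, |(w i : ℝ) + ∑ j, (A i j : ℝ) * b j| ≤ v) ↔
      ∀ c ∈ L', 0 ≤ (c.1 : ℝ) * v + (c.2 : ℝ) := by
    intro v
    rw [← hL' v]
    have hsum : ∀ (i : I) (b : J → ℝ), ∑ j, (A i j : ℝ) * b j =
        ∑ j : Fin (Fintype.card J), (A i (e.symm j) : ℝ) * b (e.symm j) := by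
      intro i b
      exact (Equiv.sum_comp e.symm (fun j => (A i j : ℝ) * b j)).symm
    constructor
    · rintro ⟨b, hb⟩
      refine ⟨fun j => b (e.symm j), ?_⟩
      intro c hc
      obtain ⟨i, -, hi⟩ := List.mem_flatMap.1 hc
      have h := abs_le.1 (hb i)
      rw [hsum] at h
      simp only [List.mem_cons, List.not_mem_nil, or_false] at hi
      rcases hi with rfl | rfl
      · simp only [Rat.cast_neg, Rat.cast_one, neg_mul, Finset.sum_neg_distrib, one_mul]
        linarith [h.2]
      · simp only [Rat.cast_one, one_mul]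
        linarith [h.1]
    · rintro ⟨b, hb⟩
      refine ⟨fun j => b (e j), ?_⟩
      intro i
      rw [hsum]
      have e2 : (fun j : Fin (Fintype.card J) => (A i (e.symm j) : ℝ) * b (e (e.symm j))) =
          fun j => (A i (e.symm j) : ℝ) * b j := by
        funext j
        rw [Equiv.apply_symm_apply]
      rw [e2]
      have h1 := hb ((fun j => -A i (e.symm j)), 1, -w i) (List.mem_flatMap.2
        ⟨i, Finset.mem_toList.2 (Finset.mem_univ i), by simp⟩)
      have h2 := hb ((fun j => A i (e.symm j)), 1, w i) (List.mem_flatMap.2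
        ⟨i, Finset.mem_toList.2 (Finset.mem_univ i), by simp⟩)
      simp only [Rat.cast_neg, Rat.cast_one, neg_mul, Finset.sum_neg_distrib, one_mul] at h1
      simp only [Rat.cast_one, one_mul] at h2
      rw [abs_le]
      constructor <;> linarith
  -- a point of the set
  obtain ⟨v0, hv0⟩ : ∃ v0 : ℝ, ∃ b : J → ℝ, ∀ i, |(w i : ℝ) + ∑ j, (A i j : ℝ) * b j| ≤ v0 := by
    refine ⟨∑ i, |(w i : ℝ)|, fun _ => 0, ?_⟩
    intro i
    simp only [mul_zero, Finset.sum_const_zero, add_zero]
    exact Finset.single_le_sum (f := fun i => |(w i : ℝ)|) (fun i _ => abs_nonneg _)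
      (Finset.mem_univ i)
  have hpos : ∀ v : ℝ, (∃ b : J → ℝ, ∀ i, |(w i : ℝ) + ∑ j, (A i j : ℝ) * b j| ≤ v) → 0 ≤ v := by
    rintro v ⟨b, hb⟩
    obtain ⟨i⟩ := (inferInstance : Nonempty I)
    exact (abs_nonneg _).trans (hb i)
  have hv0' := (hS v0).1 hv0
  have hv00 := hpos v0 hv0
  have hex : {c | c ∈ L' ∧ 0 < c.1}.Nonempty := by
    by_contra hne
    have h1 : ∀ c ∈ L', 0 ≤ (c.1 : ℝ) * (-1 : ℝ) + (c.2 : ℝ) := by
      intro c hc
      have h2 : c.1 ≤ 0 := by
        by_contra h3
        exact hne ⟨c, hc, not_le.1 h3⟩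
      have h2' : (c.1 : ℝ) ≤ 0 := by exact_mod_cast h2
      have h3 := hv0' c hc
      nlinarith
    have h4 := hpos _ ((hS (-1)).2 h1)
    linarith
  obtain ⟨c0, ⟨hc0, hp0⟩, hmax⟩ := Set.exists_max_image {c | c ∈ L' ∧ 0 < c.1}
    (fun c => -c.2 / c.1) ((List.finite_toSet L').subset (fun c hc => hc.1)) hex
  have hp0' : (0 : ℝ) < (c0.1 : ℝ) := by exact_mod_cast hp0
  have hlow : ∀ v : ℝ, (∃ b : J → ℝ, ∀ i, |(w i : ℝ) + ∑ j, (A i j : ℝ) * b j| ≤ v) →
      ((-c0.2 / c0.1 : ℚ) : ℝ) ≤ v := by
    intro v hv
    have h := (hS v).1 hv c0 hc0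
    push_cast
    rw [div_le_iff₀ hp0']
    linarith
  refine ⟨-c0.2 / c0.1, ?_, fun v hv => hlow v hv⟩
  show ∃ b : J → ℝ, ∀ i, |(w i : ℝ) + ∑ j, (A i j : ℝ) * b j| ≤ ((-c0.2 / c0.1 : ℚ) : ℝ)
  rw [hS]
  intro c hc
  by_cases hcp : 0 < c.1
  · have h2 : -c.2 / c.1 ≤ -c0.2 / c0.1 := hmax c ⟨hc, hcp⟩
    have h3 : 0 ≤ c.1 * (-c0.2 / c0.1) + c.2 := by
      rw [div_le_iff₀ hcp] at h2
      linarith
    exact_mod_cast h3
  · have h2' : (c.1 : ℝ) ≤ 0 := by exact_mod_cast not_lt.1 hcp
    have h3 := hv0' c hc
    have h4 := hlow v0 hv0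
    nlinarith

end SimplVol

end S_LQ
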