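import Pool.Agent.H54.RT.Defs
import Pool.Agent.H54.RM.A1
import Pool.Agent.H54.RM.A2

/-! Simplicial volume and ranked planar trees, part B1: this file joins several modules to save build time. -/

section S_TB

/-!
# Module TB: basic facts on ranked planar trees

* `pull_trans`: the orientations agree by definition. Lists: `l` is restricted, filtered by `NT`, deduplicated, restricted again,
  filtered, deduplicated. Restriction commutes: `resS κ (resS ι s) = resS (κ.trans ι) s` (`rfl`). If `resS κ t` is `NT` then `t` is `NT`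
  (`κ` is injective), so the first filter may be dropped: `(l.filter NT).map r |>.filter NT = (l.map r).filter NT` for such `r`
  (induction on `l`). And `((l.dedup).map r).filter p |>.dedup = ((l.map r).filter p).dedup`: both keep the LAST occurrence of every
  element. Lemma: `(l.dedup.map r).dedup = (l.map r).dedup` (induction on `l`: `List.dedup_cons_of_mem`,
  `List.dedup_cons_of_notMem`, `List.mem_dedup`; if `a ∈ l` then `r a ∈ l.map r`, `r a ∈ l.dedup.map r`), and
  `(l.filter p).dedup = l.dedup.filter p` (`List.dedup_filter` or induction).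
* `pull_refl`: `resS (refl) s = s`, all elements are `NT` (`τ.nt`), `List.Nodup.dedup` (`List.dedup_eq_self`).
* `finite`: `τ ↦ (o, l)` is injective (`RTree.ext`); `o` takes values in `{-1, 0, 1}` (`o_zero₁₂` etc. for equal indices), `l` is a list
  without repetition over a finite type: `Finite {l : List (Split m) // l.Nodup}`. (`Finite.of_injective` into
  `(Fin m → Fin m → Fin m → Set.Icc (-1 : ℤ) 1) × {l : List (Split m) // l.Nodup}`.)
* `ext_of_le_two`: for `m ≤ 2` two of three indices agree, so `o = 0`; `NT s` needs four different points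
  (`Sep s a b c d`, `s` given by `f`: `a, b` in one class, `c, d` in the other) so `l = []` for `m ≤ 3`.
* `three_ext`: for `m = 3`: `l = []`, and `o` is determined by `o 0 1 2` (`Fin` cases; `o_swap`, `o_rot`).
-/

set_option autoImplicit false

open scoped BigOperators Nat

namespace SimplVol

theorem RTree.o_zero₂₃ {m : ℕ} (τ : RTree m) (a b : Fin m) : τ.o a b b = 0 := by
  have := τ.o_swap a b b
  omega

theorem RTree.o_zero₁₂ {m : ℕ} (τ : RTree m) (a b : Fin m) : τ.o a a b = 0 := by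
  rw [← τ.o_rot a a b, ← τ.o_rot a b a]
  exact τ.o_zero₂₃ b a

theorem RTree.o_zero₁₃ {m : ℕ} (τ : RTree m) (a b : Fin m) : τ.o a b a = 0 := by
  rw [← τ.o_rot a b a]
  exact τ.o_zero₂₃ b a

theorem RTree.abs_o_le {m : ℕ} (τ : RTree m) (a b c : Fin m) : |τ.o a b c| ≤ 1 := by
  by_cases h1 : a = b
  · subst h1
    rw [τ.o_zero₁₂]
    norm_num
  by_cases h2 : b = c
  · subst h2
    rw [τ.o_zero₂₃]
    norm_num
  by_cases h3 : a = c
  · subst h3
    rw [τ.o_zero₁₃]
    norm_num
  rcases τ.o_vals a b c h1 h2 h3 with h | h <;> rw [h] <;> norm_num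

/-- A division in the list is an equivalence relation. -/
theorem RTree.s_trans {m : ℕ} (τ : RTree m) {s : Split m} (hs : s ∈ τ.l) {a b c : Fin m}
    (h1 : s a b = true) (h2 : s b c = true) : s a c = true := by
  obtain ⟨f, hf⟩ := τ.split s hs
  rw [hf, beq_iff_eq] at h1 h2 ⊢
  exact h1.trans h2

theorem RTree.s_symm {m : ℕ} (τ : RTree m) {s : Split m} (hs : s ∈ τ.l) (a b : Fin m) :
    s a b = s b a := by
  obtain ⟨f, hf⟩ := τ.split s hs
  rw [hf, hf, Bool.eq_iff_iff, beq_iff_eq, beq_iff_eq]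
  exact eq_comm

theorem RTree.s_refl {m : ℕ} (τ : RTree m) {s : Split m} (hs : s ∈ τ.l) (a : Fin m) :
    s a a = true := by
  obtain ⟨f, hf⟩ := τ.split s hs
  rw [hf, beq_iff_eq]

/-- Duplicates may be removed before a map. -/
theorem TB_dedup_map {α β : Type*} [DecidableEq α] [DecidableEq β] (r : α → β) (p : β → Bool)
    (l : List α) : ((l.dedup.map r).filter p).dedup = ((l.map r).filter p).dedup := by
  induction l with
  | nil => rfl
  | cons a l ih =>
    have hm : p (r a) = true → (r a ∈ (l.dedup.map r).filter p ↔ r a ∈ (l.map r).filter p) := by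
      intro _
      simp only [List.mem_filter, List.mem_map, List.mem_dedup]
    by_cases h : a ∈ l
    · rw [List.dedup_cons_of_mem h, ih, List.map_cons]
      by_cases hp : p (r a) = true
      · rw [List.filter_cons_of_pos hp, List.dedup_cons_of_mem]
        exact List.mem_filter.2 ⟨List.mem_map_of_mem h, hp⟩
      · rw [List.filter_cons_of_neg hp]
    · rw [List.dedup_cons_of_notMem h, List.map_cons, List.map_cons]
      by_cases hp : p (r a) = true
      · rw [List.filter_cons_of_pos hp, List.filter_cons_of_pos hp]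
        by_cases h2 : r a ∈ (l.map r).filter p
        · rw [List.dedup_cons_of_mem h2, List.dedup_cons_of_mem ((hm hp).2 h2), ih]
        · rw [List.dedup_cons_of_notMem h2,
            List.dedup_cons_of_notMem (fun h3 => h2 ((hm hp).1 h3)), ih]
      · rw [List.filter_cons_of_neg hp, List.filter_cons_of_neg hp, ih]

/-- A filter may be dropped before a map. -/
theorem TB_filter_map {α β : Type*} (r : α → β) (q : α → Bool) (p : β → Bool)
    (l : List α) (h : ∀ t, p (r t) = true → q t = true) :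
    ((l.filter q).map r).filter p = (l.map r).filter p := by
  induction l with
  | nil => rfl
  | cons a l ih =>
    by_cases hq : q a = true
    · rw [List.filter_cons_of_pos hq, List.map_cons, List.map_cons]
      by_cases hp : p (r a) = true
      · rw [List.filter_cons_of_pos hp, List.filter_cons_of_pos hp, ih]
      · rw [List.filter_cons_of_neg hp, List.filter_cons_of_neg hp, ih]
    · rw [List.filter_cons_of_neg hq, List.map_cons, List.filter_cons_of_neg, ih]
      intro hp
      exact hq (h a hp)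

theorem RTree.pull_trans {j k m : ℕ} (κ : Fin j ↪ Fin k) (ι : Fin k ↪ Fin m) (τ : RTree m) :
    (τ.pull ι).pull κ = τ.pull (κ.trans ι) := by
  refine RTree.ext rfl ?_
  show (((((τ.l.map (resS ι)).filter fun s => decide (NT s)).dedup).map (resS κ)).filter
    fun s => decide (NT s)).dedup = ((τ.l.map (resS (κ.trans ι))).filter fun s => decide (NT s)).dedup
  rw [TB_dedup_map, TB_filter_map, List.map_map]
  · rfl
  · intro t ht
    rw [decide_eq_true_eq] at ht ⊢
    obtain ⟨a, b, c, d, h1, h2, h3⟩ := ht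
    exact ⟨κ a, κ b, κ c, κ d, fun h => h1 (κ.injective h), fun h => h2 (κ.injective h), h3⟩

theorem RTree.pull_refl {m : ℕ} (τ : RTree m) : τ.pull (Function.Embedding.refl _) = τ := by
  refine RTree.ext rfl ?_
  show ((τ.l.map (resS (Function.Embedding.refl _))).filter fun s => decide (NT s)).dedup = τ.l
  have h1 : τ.l.map (resS (Function.Embedding.refl _)) = τ.l := by
    conv_rhs => rw [← List.map_id τ.l]
    exact List.map_congr_left (fun s _ => rfl)
  rw [h1, List.filter_eq_self.2 (fun s hs => decide_eq_true (τ.nt s hs)), τ.nodup.dedup]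

/-- The restriction depends only on the restrictions of the orientation and of the divisions. -/
theorem RTree.pull_congr {k m : ℕ} (τ : RTree m) (ι ι' : Fin k ↪ Fin m)
    (h1 : ∀ a b c, τ.o (ι a) (ι b) (ι c) = τ.o (ι' a) (ι' b) (ι' c))
    (h2 : ∀ s ∈ τ.l, ∀ a b, s (ι a) (ι b) = s (ι' a) (ι' b)) : τ.pull ι = τ.pull ι' := by
  refine RTree.ext ?_ ?_
  · funext a b c
    exact h1 a b c
  · show ((τ.l.map (resS ι)).filter fun s => decide (NT s)).dedup =
      ((τ.l.map (resS ι')).filter fun s => decide (NT s)).dedup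
    rw [List.map_congr_left (g := resS ι') (fun s hs => by
      funext a b
      exact h2 s hs a b)]

instance RTree.finite (m : ℕ) : Finite (RTree m) := by
  classical
  refine Finite.of_injective (β := (Fin m → Fin m → Fin m → Set.Icc (-1 : ℤ) 1) ×
    {l : List (Split m) // l.Nodup})
    (fun τ => (fun a b c => ⟨τ.o a b c, abs_le.1 (τ.abs_o_le a b c)⟩, ⟨τ.l, τ.nodup⟩)) ?_
  intro τ τ' h
  rw [Prod.mk.injEq] at h
  refine RTree.ext ?_ ?_
  · funext a b c
    have := congrFun (congrFun (congrFun h.1 a) b) c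
    exact congrArg Subtype.val this
  · exact congrArg Subtype.val h.2

theorem RTree.l_eq_nil {m : ℕ} (hm : m ≤ 3) (τ : RTree m) : τ.l = [] := by
  rw [List.eq_nil_iff_forall_not_mem]
  intro s hs
  obtain ⟨f, hf⟩ := τ.split s hs
  obtain ⟨a, b, c, d, h1, h2, h3, h4, h5⟩ := τ.nt s hs
  rw [hf, beq_iff_eq] at h3 h4
  rw [hf] at h5
  have h5' : f a ≠ f c := by
    intro h
    rw [h] at h5
    simp at h5
  have e1 : a ≠ c := fun h => h5' (by rw [h])
  have e2 : a ≠ d := fun h => h5' (by rw [h, h4])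
  have e3 : b ≠ c := fun h => h5' (by rw [h3, h])
  have e4 : b ≠ d := fun h => h5' (by rw [h3, h, h4])
  have f1 := Fin.val_ne_of_ne e1
  have f2 := Fin.val_ne_of_ne e2
  have f3 := Fin.val_ne_of_ne e3
  have f4 := Fin.val_ne_of_ne e4
  have f5 := Fin.val_ne_of_ne h1
  have f6 := Fin.val_ne_of_ne h2
  omega

theorem RTree.l_ne_nil {m : ℕ} (hm : 4 ≤ m) (τ : RTree m) : τ.l ≠ [] := by
  intro h
  have hne : ∀ i j : ℕ, ∀ hi : i < m, ∀ hj : j < m, i ≠ j → (⟨i, hi⟩ : Fin m) ≠ ⟨j, hj⟩ :=
    fun i j hi hj h1 h2 => h1 (congrArg Fin.val h2)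
  obtain ⟨s, hs, _⟩ := τ.res ⟨0, by omega⟩ ⟨1, by omega⟩ ⟨2, by omega⟩ ⟨3, by omega⟩
    (hne _ _ _ _ (by omega)) (hne _ _ _ _ (by omega)) (hne _ _ _ _ (by omega))
    (hne _ _ _ _ (by omega)) (hne _ _ _ _ (by omega)) (hne _ _ _ _ (by omega))
  rw [h] at hs
  exact (List.not_mem_nil hs).elim

theorem RTree.ext_of_le_two {m : ℕ} (hm : m ≤ 2) (τ τ' : RTree m) : τ = τ' := by
  have h0 : ∀ (σ : RTree m) (a b c : Fin m), σ.o a b c = 0 := by
    intro σ a b c
    by_cases h1 : a = b
    · subst h1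
      exact σ.o_zero₁₂ a c
    by_cases h2 : b = c
    · subst h2
      exact σ.o_zero₂₃ a b
    by_cases h3 : a = c
    · subst h3
      exact σ.o_zero₁₃ a b
    have f1 := Fin.val_ne_of_ne h1
    have f2 := Fin.val_ne_of_ne h2
    have f3 := Fin.val_ne_of_ne h3
    omega
  refine RTree.ext ?_ ?_
  · funext a b c
    rw [h0, h0]
  · rw [τ.l_eq_nil (by omega), τ'.l_eq_nil (by omega)]

theorem RTree.three_ext (τ τ' : RTree 3) (h : τ.o 0 1 2 = τ'.o 0 1 2) : τ = τ' := by
  have h1 : ∀ σ : RTree 3, σ.o 1 2 0 = σ.o 0 1 2 ∧ σ.o 2 0 1 = σ.o 0 1 2 ∧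
      σ.o 0 2 1 = -σ.o 0 1 2 ∧ σ.o 2 1 0 = -σ.o 0 1 2 ∧ σ.o 1 0 2 = -σ.o 0 1 2 := by
    intro σ
    have e1 := σ.o_rot 0 1 2
    have e2 := σ.o_rot 1 2 0
    have e3 := σ.o_swap 0 1 2
    have e4 := σ.o_rot 0 2 1
    have e5 := σ.o_rot 2 1 0
    refine ⟨e1, by rw [e2, e1], e3, by rw [e4, e3], by rw [e5, e4, e3]⟩
  refine RTree.ext ?_ (by rw [τ.l_eq_nil le_rfl, τ'.l_eq_nil le_rfl])
  funext a b c
  by_cases g1 : a = b
  · subst g1
    rw [τ.o_zero₁₂, τ'.o_zero₁₂]
  by_cases g2 : b = c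
  · subst g2
    rw [τ.o_zero₂₃, τ'.o_zero₂₃]
  by_cases g3 : a = c
  · subst g3
    rw [τ.o_zero₁₃, τ'.o_zero₁₃]
  obtain ⟨t1, t2, t3, t4, t5⟩ := h1 τ
  obtain ⟨u1, u2, u3, u4, u5⟩ := h1 τ'
  have hd : ∀ a b c : Fin 3, a ≠ b → b ≠ c → a ≠ c → (a = 0 ∧ b = 1 ∧ c = 2) ∨
      (a = 1 ∧ b = 2 ∧ c = 0) ∨ (a = 2 ∧ b = 0 ∧ c = 1) ∨ (a = 0 ∧ b = 2 ∧ c = 1) ∨
      (a = 2 ∧ b = 1 ∧ c = 0) ∨ (a = 1 ∧ b = 0 ∧ c = 2) := by decide
  rcases hd a b c g1 g2 g3 with ⟨rfl, rfl, rfl⟩ | ⟨rfl, rfl, rfl⟩ | ⟨rfl, rfl, rfl⟩ |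
    ⟨rfl, rfl, rfl⟩ | ⟨rfl, rfl, rfl⟩ | ⟨rfl, rfl, rfl⟩
  · exact h
  · rw [t1, u1, h]
  · rw [t2, u2, h]
  · rw [t3, u3, h]
  · rw [t4, u4, h]
  · rw [t5, u5, h]

/-- The positively oriented tree with three leaves. -/
def tplus : RTree 3 where
  o a b c := (((b : ℕ) : ℤ) - ((a : ℕ) : ℤ)) * (((c : ℕ) : ℤ) - ((b : ℕ) : ℤ)) *
    (((c : ℕ) : ℤ) - ((a : ℕ) : ℤ)) / 2
  l := []
  o_vals := by decide
  o_swap := by decide
  o_rot := by decide
  o_coc := by decide
  nodup := List.nodup_nil
  split := by simp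
  nt := by simp
  planar := by simp
  res a b c d h1 h2 h3 h4 h5 h6 := by omega
  excl := by simp

theorem tplus_o : tplus.o 0 1 2 = 1 := by decide

/-- The tree with one leaf. -/
def tone : RTree 1 where
  o _ _ _ := 0
  l := []
  o_vals a b _ h _ _ := absurd (Subsingleton.elim a b) h
  o_swap _ _ _ := by simp
  o_rot _ _ _ := rfl
  o_coc _ _ _ _ := by simp
  nodup := List.nodup_nil
  split := by simp
  nt := by simp
  planar := by simp
  res a b c d h1 h2 h3 h4 h5 h6 := absurd (Subsingleton.elim a b) h1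
  excl := by simp

/-- The two trees with three leaves. -/
theorem RTree.three_cases (τ : RTree 3) :
    τ = tplus ∨ τ = tplus.pull (Equiv.swap (0 : Fin 3) 1).toEmbedding := by
  rcases τ.o_vals 0 1 2 (by decide) (by decide) (by decide) with h | h
  · left
    exact RTree.three_ext _ _ (by rw [h, tplus_o])
  · right
    refine RTree.three_ext _ _ ?_
    rw [h]
    decide

end SimplVol

end S_TB

section S_TW

/-!
# Module TW: alternating functions on trees, twins

* `twin_cancel`: let `σ = swap c c'`, `sign σ = -1`, `σ c = c'`. By `exists_perm_face` there is `π : Perm (Fin m)` with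
  `σ (c.succAbove i) = c'.succAbove (π i)`, `sign π = -(-1)^(c+c')`. So `(τ.pull δ_{c'}).pull π = τ.pull (δ_c then σ)` (`pull_trans`; equality of
  the embeddings by `Function.Embedding.ext`). The embeddings `δ_c` then `σ` and `δ_c` differ only in that `c'` is replaced by `c`
  (note `c.succAbove i ≠ c`, and `swap c c' x = x` for `x ≠ c, c'`, `= c` for `x = c'`). As `c`, `c'` are twins, `pull_congr` gives
  `τ.pull (δ_c then σ) = τ.pull δ_c`: for the orientation distinguish which of the three arguments is `c'` (at most one unless two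
  arguments are equal, then both sides are `0`: `o_zero₁₂`, ...; move it to the first place by `o_rot`), for `s ∈ τ.l`: `s c x = s c' x`
  as `s c c' = true` (`s_trans`, `s_symm`). Hence `g m (τ.pull δ_c) = sign π * g m (τ.pull δ_{c'})`, and `(-1)^c * (-(-1)^(c+c')) = -(-1)^c'`.
-/

set_option autoImplicit false

open scoped BigOperators Nat

namespace SimplVol

/-- A family of functions on trees is alternating. -/
def AltT (g : ∀ m, RTree m → ℝ) : Prop :=
  ∀ (m : ℕ) (σ : Equiv.Perm (Fin m)) (τ : RTree m),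
    g m (τ.pull σ.toEmbedding) = ((Equiv.Perm.sign σ : ℤ) : ℝ) * g m τ

/-- Two leaves are twins: no division separates them and they have the same position. -/
def Twin {m : ℕ} (τ : RTree m) (c c' : Fin m) : Prop :=
  c ≠ c' ∧ (∀ s ∈ τ.l, s c c' = true) ∧
    ∀ x y, x ≠ c → x ≠ c' → y ≠ c → y ≠ c' → τ.o c x y = τ.o c' x y

theorem TW_o {m : ℕ} (τ : RTree m) (c c' : Fin m) (h : Twin τ c c') (x y z : Fin m)
    (hx : x ≠ c) (hy : y ≠ c) (hz : z ≠ c) :
    τ.o (Equiv.swap c c' x) (Equiv.swap c c' y) (Equiv.swap c c' z) = τ.o x y z := by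
  have hne : ∀ w, w ≠ c → w ≠ c' → Equiv.swap c c' w = w :=
    fun w h1 h2 => Equiv.swap_apply_of_ne_of_ne h1 h2
  have hr : Equiv.swap c c' c' = c := Equiv.swap_apply_right c c'
  by_cases h1 : x = c'
  · subst h1
    rw [hr]
    by_cases h2 : y = x
    · subst h2
      rw [hr, τ.o_zero₁₂, τ.o_zero₁₂]
    · rw [hne y hy h2]
      by_cases h3 : z = x
      · subst h3
        rw [hr, τ.o_zero₁₃, τ.o_zero₁₃]
      · rw [hne z hz h3]
        exact h.2.2 y z hy h2 hz h3
  · rw [hne x hx h1]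
    by_cases h2 : y = c'
    · subst h2
      rw [hr]
      by_cases h3 : z = y
      · subst h3
        rw [hr, τ.o_zero₂₃, τ.o_zero₂₃]
      · rw [hne z hz h3, ← τ.o_rot x c z, ← τ.o_rot x y z]
        exact h.2.2 z x hz h3 hx h1
    · rw [hne y hy h2]
      by_cases h3 : z = c'
      · subst h3
        rw [hr, τ.o_rot c x y, τ.o_rot z x y]
        exact h.2.2 x y hx h1 hy h2
      · rw [hne z hz h3]

theorem TW_s1 {m : ℕ} (τ : RTree m) (c c' : Fin m) (h : Twin τ c c') {s : Split m} (hs : s ∈ τ.l)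
    (x : Fin m) : s c x = s c' x := by
  have h1 := h.2.1 s hs
  have h2 : s c' c = true := by rw [← τ.s_symm hs c c']; exact h1
  rw [Bool.eq_iff_iff]
  exact ⟨fun h3 => τ.s_trans hs h2 h3, fun h3 => τ.s_trans hs h1 h3⟩

theorem TW_s {m : ℕ} (τ : RTree m) (c c' : Fin m) (h : Twin τ c c') {s : Split m} (hs : s ∈ τ.l)
    (x y : Fin m) (hx : x ≠ c) (hy : y ≠ c) :
    s (Equiv.swap c c' x) (Equiv.swap c c' y) = s x y := by
  have key : ∀ w v, w ≠ c → s (Equiv.swap c c' w) v = s w v := by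
    intro w v hw
    by_cases h1 : w = c'
    · rw [h1, Equiv.swap_apply_right]
      exact TW_s1 τ c c' h hs v
    · rw [Equiv.swap_apply_of_ne_of_ne hw h1]
  rw [key x _ hx, τ.s_symm hs, key y _ hy, τ.s_symm hs]

theorem twin_cancel (g : ∀ m, RTree m → ℝ) (hg : AltT g) {m : ℕ} (τ : RTree (m + 1))
    (c c' : Fin (m + 1)) (h : Twin τ c c') :
    (-1 : ℝ) ^ (c : ℕ) * g m (τ.pull (Fin.succAboveEmb c)) +
      (-1) ^ (c' : ℕ) * g m (τ.pull (Fin.succAboveEmb c')) = 0 := by
  obtain ⟨π, h1, h2⟩ := exists_perm_face (Equiv.swap c c') c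
  rw [Equiv.swap_apply_left] at h1 h2
  rw [Equiv.Perm.sign_swap h.1] at h2
  have h3 := hg m π (τ.pull (Fin.succAboveEmb c'))
  rw [RTree.pull_trans] at h3
  have h4 : τ.pull (π.toEmbedding.trans (Fin.succAboveEmb c')) = τ.pull (Fin.succAboveEmb c) := by
    refine τ.pull_congr _ _ ?_ ?_
    · intro x y z
      have e : ∀ w : Fin m, (π.toEmbedding.trans (Fin.succAboveEmb c')) w =
          Equiv.swap c c' (c.succAbove w) := fun w => (h1 w).symm
      rw [e, e, e]
      exact TW_o τ c c' h _ _ _ (Fin.succAbove_ne c x) (Fin.succAbove_ne c y) (Fin.succAbove_ne c z)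
    · intro s hs x y
      have e : ∀ w : Fin m, (π.toEmbedding.trans (Fin.succAboveEmb c')) w =
          Equiv.swap c c' (c.succAbove w) := fun w => (h1 w).symm
      rw [e, e]
      exact TW_s τ c c' h hs _ _ (Fin.succAbove_ne c x) (Fin.succAbove_ne c y)
  rw [h4] at h3
  rw [h3, h2]
  have h5 : (-1 : ℝ) ^ (c : ℕ) * (-1) ^ ((c : ℕ) + (c' : ℕ)) = (-1) ^ (c' : ℕ) := by
    rw [pow_add, ← mul_assoc, ← mul_pow]
    norm_num
  push_cast
  linear_combination (-(g m (τ.pull (Fin.succAboveEmb c')))) * h5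

/-- The coboundary. -/
noncomputable def dT (g : ∀ m, RTree m → ℝ) : ∀ m, RTree m → ℝ
  | 0, _ => 0
  | m + 1, τ => ∑ i : Fin (m + 1), (-1 : ℝ) ^ (i : ℕ) * g m (τ.pull (Fin.succAboveEmb i))

theorem dT_succ (g : ∀ m, RTree m → ℝ) (m : ℕ) (τ : RTree (m + 1)) :
    dT g (m + 1) τ = ∑ i : Fin (m + 1), (-1 : ℝ) ^ (i : ℕ) * g m (τ.pull (Fin.succAboveEmb i)) :=
  rfl

end SimplVol

end S_TW

section S_ME

/-!
# Module ME: systems of means, cocycles (definitions)
-/

set_option autoImplicit false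

open scoped BigOperators UpperHalfPlane MatrixGroups

namespace SimplVol

/-- Invariance under `SL(2, ℝ)` of a function of tuples of points of the upper half plane. -/
def InvH {m : ℕ} (φ : (Fin m → ℍ) → ℝ) : Prop :=
  ∀ (g : SL(2, ℝ)) (y : Fin m → ℍ), φ (fun i => g • y i) = φ y

/-- A natural system of means on tuples of points of the upper half plane, indexed by ranked planar
binary trees. -/
structure Means (μ : ∀ m, RTree m → ((Fin m → ℍ) → ℝ) →ₗ[ℝ] ℝ) : Prop where
  bdd : ∀ (m : ℕ) (τ : RTree m) (φ : (Fin m → ℍ) → ℝ) (C : ℝ), (∀ y, |φ y| ≤ C) → |μ m τ φ| ≤ C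
  nat : ∀ (k m : ℕ) (ι : Fin k ↪ Fin m) (τ : RTree m) (φ : (Fin k → ℍ) → ℝ), 1 ≤ k → InvH φ →
    (∃ C, ∀ y, |φ y| ≤ C) → μ m τ (fun y => φ fun i => y (ι i)) = μ k (τ.pull ι) φ
  area : ∀ (m : ℕ) (τ : RTree m) (a b c : Fin m),
    μ m τ (fun y => area (y a) (y b) (y c)) = Real.pi * ((τ.o a b c : ℤ) : ℝ)

/-- Bounded cocycles with `p` points, invariant under a set of maps. -/
structure Coc {Z : Type} (K : Set (Z → Z)) (p : ℕ) (F : List Z → ℝ) : Prop where
  supp : ∀ l, l.length ≠ p → F l = 0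
  bdd : ∃ C, ∀ l, |F l| ≤ C
  inv : ∀ κ ∈ K, ∀ l, F (l.map κ) = F l
  coc : ∀ l, dd F l = 0

/-- The maps of `S × ℍ`. -/
def prodK {S : Type} (K : Set (S → S)) : Set (S × ℍ → S × ℍ) :=
  {f | ∃ κ ∈ K, f = Prod.map κ id} ∪ {f | ∃ g : SL(2, ℝ), f = Prod.map id fun z => g • z}

/-- The value of a function of trees on the restriction of a tree to a list of leaves. -/
noncomputable def ev {S : Type} (g : List S → ∀ m, RTree m → ℝ) {M : ℕ} (τ : RTree M) (a : List S)
    (l : List (Fin M)) : ℝ :=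
  if h : l.Nodup then g a l.length (τ.pull ⟨l.get, List.nodup_iff_injective_get.1 h⟩) else 0

/-- The function of trees given by a function of lists of points. -/
noncomputable def mg {S : Type} (μ : ∀ m, RTree m → ((Fin m → ℍ) → ℝ) →ₗ[ℝ] ℝ)
    (G : List S → List ℍ → ℝ) (a : List S) (m : ℕ) (τ : RTree m) : ℝ :=
  μ m τ fun y => G a (List.ofFn y)

/-- The alternated shuffle map. -/
noncomputable def GG {S : Type} (F : List (S × ℍ) → ℝ) (a : List S) (b : List ℍ) : ℝ :=
  altL (ez F a) b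

/-- The part of degree zero in the last factor. -/
noncomputable def G0 {S : Type} (μ : ∀ m, RTree m → ((Fin m → ℍ) → ℝ) →ₗ[ℝ] ℝ)
    (F : List (S × ℍ) → ℝ) (a : List S) : ℝ := mg μ (GG F) a 1 tone

/-- The part of degree two in the last factor. -/
noncomputable def G2 {S : Type} (μ : ∀ m, RTree m → ((Fin m → ℍ) → ℝ) →ₗ[ℝ] ℝ)
    (F : List (S × ℍ) → ℝ) (a : List S) : ℝ := mg μ (GG F) a 3 tplus

end SimplVol

end S_ME

section S_MN

/-!
# Module MN: means on tuples of points of `ℍⁿ`

`MM n m F τ` iterates the means `μ m (τ j)` over the factors `j`.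
* `MM_add`, `MM_smul`, `MM_sum`: induction on `n`; `μ m (τ 0)` is linear (`map_add`, `map_smul`; the function `y ↦ F (..) + G (..)` is the sum of functions). `MM_sum` from
  `MM_add` and `MM_smul` (with `c = 0`) by `Finset.induction_on`.
* `MM_bdd`: induction on `n`, `hμ.bdd`. For `n = 0` use that `|F x| ≤ C`.
* `MM_nat`: induction on `n`. `n = 0`: all functions `Fin k → Fin 0 → ℍ` are equal (`Subsingleton`). Step: for every `x : Fin m → Fin n → ℍ`, the inner function is
  `μ m (τ 0) (fun y => F (fun i => Fin.cons (y (ι i)) (x (ι i)))) = μ k ((τ 0).pull ι) (fun y' => F (fun i => Fin.cons (y' i) (x (ι i))))` by `hμ.nat` (invariant: the element of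
  `KK (n+1)` given by `Fin.cons g 1`; bounded). So the inner function is `G (fun i => x (ι i))` with `G x' = μ k ((τ 0).pull ι) (fun y' => F (fun i => Fin.cons (y' i) (x' i)))`, which is
  bounded and invariant (under `g : Fin n → SL(2, ℝ)`: the element `Fin.cons 1 g`), and the induction hypothesis applies to `G`.
* `MM_prod`: induction on `n`: `Fin.prod_univ_succ`; the inner function is `(∏_{j} f j.succ (fun i => x i j)) * μ m (τ 0) (f 0)` (`map_smul`), then `MM_smul`.
* `MMn_vol`: `vol n x` is `(1/(2n)!) ∑_σ sgn σ ∏_j area ..` : `MM_smul`, `MM_sum`, `MM_prod` with `f j y = area (y 0) (y a_j) (y b_j)`, `hμ.area`; `∏_j (π * o_j) = π^n ∏_j o_j` (`Finset.prod_mul_distrib`).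
-/

set_option autoImplicit false

open scoped BigOperators UpperHalfPlane MatrixGroups

namespace SimplVol

/-- The maps of `ℍⁿ` given by `SL(2, ℝ)ⁿ`. -/
def KK (n : ℕ) : Set ((Fin n → ℍ) → (Fin n → ℍ)) :=
  {f | ∃ g : Fin n → SL(2, ℝ), f = fun z j => g j • z j}

/-- Invariance under `SL(2, ℝ)ⁿ` of a function of tuples of points of `ℍⁿ`. -/
def InvN {n m : ℕ} (F : (Fin m → Fin n → ℍ) → ℝ) : Prop :=
  ∀ (g : Fin n → SL(2, ℝ)) (x : Fin m → Fin n → ℍ), F (fun i j => g j • x i j) = F x

/-- The iterated means. -/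
noncomputable def MM (μ : ∀ m, RTree m → ((Fin m → ℍ) → ℝ) →ₗ[ℝ] ℝ) : ∀ (n m : ℕ),
    ((Fin m → Fin n → ℍ) → ℝ) → (Fin n → RTree m) → ℝ
  | 0, _, F, _ => F fun _ j => j.elim0
  | n + 1, m, F, τ => MM μ n m (fun x => μ m (τ 0) fun y => F fun i => Fin.cons (y i) (x i))
      fun j => τ j.succ

variable {μ : ∀ m, RTree m → ((Fin m → ℍ) → ℝ) →ₗ[ℝ] ℝ}

theorem MM_zero {m : ℕ} (F : (Fin m → Fin 0 → ℍ) → ℝ) (τ : Fin 0 → RTree m) :
    MM μ 0 m F τ = F fun _ j => j.elim0 := rfl

theorem MM_succ {n m : ℕ} (F : (Fin m → Fin (n + 1) → ℍ) → ℝ) (τ : Fin (n + 1) → RTree m) :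
    MM μ (n + 1) m F τ =
      MM μ n m (fun x => μ m (τ 0) fun y => F fun i => Fin.cons (y i) (x i)) fun j => τ j.succ :=
  rfl

theorem MM_add {n m : ℕ} (F G : (Fin m → Fin n → ℍ) → ℝ) (τ : Fin n → RTree m) :
    MM μ n m (fun x => F x + G x) τ = MM μ n m F τ + MM μ n m G τ := by
  induction n with
  | zero => rfl
  | succ n ih =>
    rw [MM_succ, MM_succ, MM_succ, ← ih]
    congr 1
    funext x
    exact map_add (μ m (τ 0)) (fun y => F fun i => Fin.cons (y i) (x i))
      (fun y => G fun i => Fin.cons (y i) (x i))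

theorem MM_smul {n m : ℕ} (c : ℝ) (F : (Fin m → Fin n → ℍ) → ℝ) (τ : Fin n → RTree m) :
    MM μ n m (fun x => c * F x) τ = c * MM μ n m F τ := by
  induction n with
  | zero => rfl
  | succ n ih =>
    rw [MM_succ, MM_succ, ← ih]
    congr 1
    funext x
    exact map_smul (μ m (τ 0)) c (fun y => F fun i => Fin.cons (y i) (x i))

theorem mn_zero {n m : ℕ} (τ : Fin n → RTree m) : MM μ n m (fun _ => 0) τ = 0 := by
  have h := MM_smul (μ := μ) 0 (fun _ => (0 : ℝ)) τ
  simp only [mul_zero, zero_mul] at h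
  exact h

theorem MM_sum {n m : ℕ} {J : Type} (s : Finset J) (F : J → (Fin m → Fin n → ℍ) → ℝ)
    (τ : Fin n → RTree m) :
    MM μ n m (fun x => ∑ j ∈ s, F j x) τ = ∑ j ∈ s, MM μ n m (F j) τ := by
  classical
  induction s using Finset.induction_on with
  | empty =>
    simp only [Finset.sum_empty]
    exact mn_zero τ
  | insert a s ha ih =>
    rw [Finset.sum_insert ha, ← ih]
    simp only [Finset.sum_insert ha]
    exact MM_add _ _ τ

theorem MM_bdd (hμ : Means μ) {n m : ℕ} (F : (Fin m → Fin n → ℍ) → ℝ) (C : ℝ)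
    (hF : ∀ x, |F x| ≤ C) (τ : Fin n → RTree m) : |MM μ n m F τ| ≤ C := by
  induction n with
  | zero => exact hF _
  | succ n ih =>
    rw [MM_succ]
    exact ih _ (fun x => hμ.bdd m (τ 0) _ C (fun y => hF _)) _

theorem MM_nat (hμ : Means μ) {n k m : ℕ} (hk : 1 ≤ k) (ι : Fin k ↪ Fin m)
    (F : (Fin k → Fin n → ℍ) → ℝ) (hI : InvN F) (hF : ∃ C, ∀ x, |F x| ≤ C)
    (τ : Fin n → RTree m) :
    MM μ n m (fun x => F fun i => x (ι i)) τ = MM μ n k F fun j => (τ j).pull ι := by
  induction n with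
  | zero => rfl
  | succ n ih =>
    obtain ⟨C, hC⟩ := hF
    rw [MM_succ, MM_succ]
    have hG : InvN (fun x' : Fin k → Fin n → ℍ => μ k ((τ 0).pull ι)
        fun y' => F fun i => Fin.cons (y' i) (x' i)) := by
      intro g x
      show μ k ((τ 0).pull ι) (fun y' => F fun i => Fin.cons (y' i) (fun j => g j • x i j)) =
        μ k ((τ 0).pull ι) (fun y' => F fun i => Fin.cons (y' i) (x i))
      congr 1
      funext y'
      have h1 := hI (Fin.cons 1 g) (fun i => Fin.cons (y' i) (x i))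
      rw [← h1]
      congr 1
      funext i j
      refine Fin.cases ?_ (fun j => ?_) j
      · simp
      · simp
    have h2 := ih (fun x' => μ k ((τ 0).pull ι) fun y' => F fun i => Fin.cons (y' i) (x' i)) hG
      ⟨C, fun x => hμ.bdd k _ _ C (fun y => hC _)⟩ (fun j => τ j.succ)
    rw [← h2]
    congr 1
    funext x
    refine hμ.nat k m ι (τ 0) (fun y' => F fun i => Fin.cons (y' i) (x (ι i))) hk ?_
      ⟨C, fun y => hC _⟩
    intro g y
    have h1 := hI (Fin.cons g 1) (fun i => Fin.cons (y i) (x (ι i)))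
    show F (fun i => Fin.cons (g • y i) (x (ι i))) = F fun i => Fin.cons (y i) (x (ι i))
    rw [← h1]
    congr 1
    funext i j
    refine Fin.cases ?_ (fun j => ?_) j
    · simp
    · simp

theorem MM_prod {n m : ℕ} (f : Fin n → (Fin m → ℍ) → ℝ) (τ : Fin n → RTree m) :
    MM μ n m (fun x => ∏ j, f j fun i => x i j) τ = ∏ j, μ m (τ j) (f j) := by
  induction n with
  | zero =>
    rw [MM_zero, Fin.prod_univ_zero, Fin.prod_univ_zero]
  | succ n ih =>
    rw [MM_succ, Fin.prod_univ_succ, ← ih (fun j => f j.succ) (fun j => τ j.succ), ← MM_smul]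
    congr 1
    funext x
    have h1 : (fun y : Fin m → ℍ => ∏ j : Fin (n + 1),
        f j fun i => (Fin.cons (y i) (x i) : Fin (n + 1) → ℍ) j) =
        (∏ j : Fin n, f j.succ fun i => x i j) • (f 0) := by
      funext y
      rw [Fin.prod_univ_succ]
      simp only [Fin.cons_zero, Fin.cons_succ, Pi.smul_apply, smul_eq_mul]
      rw [mul_comm]
    rw [h1, map_smul, smul_eq_mul, mul_comm]

theorem MMn_vol (hμ : Means μ) {n : ℕ} (τ : Fin n → RTree (n * 2 + 1)) :
    MM μ n (n * 2 + 1) (vol n) τ = Real.pi ^ n * treeVol n τ := by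
  have h0 : vol n = fun x => (1 / ((n * 2).factorial : ℝ)) *
      (∑ σ : Equiv.Perm (Fin (n * 2)), ((Equiv.Perm.sign σ : ℤ) : ℝ) *
        ∏ j : Fin n, area (x 0 j) (x (σ (finProdFinEquiv (j, 0))).succ j)
          (x (σ (finProdFinEquiv (j, 1))).succ j)) := rfl
  have h1 : ∀ σ : Equiv.Perm (Fin (n * 2)), MM μ n (n * 2 + 1)
      (fun x => ((Equiv.Perm.sign σ : ℤ) : ℝ) *
        ∏ j : Fin n, area (x 0 j) (x (σ (finProdFinEquiv (j, 0))).succ j)
          (x (σ (finProdFinEquiv (j, 1))).succ j)) τ =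
      Real.pi ^ n * (((Equiv.Perm.sign σ : ℤ) : ℝ) * ∏ j : Fin n,
        (((τ j).o 0 (σ (finProdFinEquiv (j, 0))).succ
          (σ (finProdFinEquiv (j, 1))).succ : ℤ) : ℝ)) := by
    intro σ
    rw [MM_smul]
    have h2 := MM_prod (μ := μ) (fun j (y : Fin (n * 2 + 1) → ℍ) =>
      area (y 0) (y (σ (finProdFinEquiv (j, 0))).succ) (y (σ (finProdFinEquiv (j, 1))).succ)) τ
    have h3 : ∀ j : Fin n, μ (n * 2 + 1) (τ j) (fun y : Fin (n * 2 + 1) → ℍ =>
        area (y 0) (y (σ (finProdFinEquiv (j, 0))).succ) (y (σ (finProdFinEquiv (j, 1))).succ)) =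
        Real.pi * (((τ j).o 0 (σ (finProdFinEquiv (j, 0))).succ
          (σ (finProdFinEquiv (j, 1))).succ : ℤ) : ℝ) := fun j => hμ.area _ _ _ _ _
    simp only [h3] at h2
    rw [Finset.prod_mul_distrib, Finset.prod_const, Finset.card_univ, Fintype.card_fin] at h2
    rw [h2]
    ring
  rw [h0, MM_smul, MM_sum]
  simp only [h1]
  rw [← Finset.mul_sum]
  unfold treeVol
  ring

end SimplVol

end S_MN

section S_LR1

/-!
# Module LR1: evaluation on lists of leaves

* `ev_ofFn`: `(List.ofFn e).Nodup` (`List.nodup_ofFn`), the length is `k`; prove first: for a list `l` with `h : l.Nodup`, `hk : l.length = k` and `e : Fin k ↪ Fin M` with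
  `∀ i, l.get (Fin.cast hk.symm i) = e i`: `g a l.length (τ.pull ⟨l.get, _⟩) = g a k (τ.pull e)` (`subst hk`; the embeddings agree).
* `ev_map`: `(l.map ι).Nodup ↔ l.Nodup` (`List.nodup_map_iff`, `ι.injective`); if not `Nodup` both are `0`; else write `l = List.ofFn e`, `e = ⟨l.get, _⟩`
  (`List.ofFn_get`), `l.map ι = List.ofFn (e.trans ι)` (`List.map_ofFn`), use `ev_ofFn` and `pull_trans`.
* `dd_ev`: write `l = List.ofFn e`; `l.length = 0`: both `0`; `l.length = k + 1`: `dd_ofFn`, the lists there are `List.ofFn ((Fin.succAboveEmb i).trans e)`, `ev_ofFn`, `pull_trans`, `dT_succ`.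
* `ev_alt`: for the list `List.ofFn (e ∘ σ)`: not needed elsewhere.
* `mean_list`: `l = List.ofFn e`; `l.map y = List.ofFn (fun i => y (e i))`; `hμ.nat`.
* `mean_aw`: induction on `L`, for all `G`: `aw G ((z :: L).map ..) = G [z.1] (y z.2 :: (L.map ..).map snd) + aw (fun a b => G (z.1 :: a) b) (L.map ..)`; `μ` is linear
  (`map_add`); first term: `mean_list` for the list `z.2 :: L.map snd` of leaves (`y z.2 :: (L.map snd).map y = (z.2 :: L.map snd).map y`); second: induction hypothesis for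
  `fun a b => G (z.1 :: a) b`, and `ev (mg μ (fun a b => G (z :: a) b)) τ a l = ev (mg μ G) τ (z :: a) l` (by definition).
-/

set_option autoImplicit false

open scoped BigOperators UpperHalfPlane MatrixGroups

namespace SimplVol

variable {S : Type}

/-- The value on a list given by an embedding. -/
theorem LR1_get (g : List S → ∀ m, RTree m → ℝ) {M : ℕ} (τ : RTree M) (a : List S)
    (l : List (Fin M)) (h : l.Nodup) {k : ℕ} (hk : l.length = k) (e : Fin k ↪ Fin M)
    (he : ∀ i, l.get (Fin.cast hk.symm i) = e i) : ev g τ a l = g a k (τ.pull e) := by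
  subst hk
  unfold ev
  rw [dif_pos h]
  congr 2
  ext i
  exact congrArg Fin.val (he i)

theorem ev_ofFn (g : List S → ∀ m, RTree m → ℝ) {k M : ℕ} (τ : RTree M) (a : List S)
    (e : Fin k ↪ Fin M) : ev g τ a (List.ofFn e) = g a k (τ.pull e) := by
  refine LR1_get g τ a (List.ofFn e) (List.nodup_ofFn.2 e.injective) (List.length_ofFn) e fun i => ?_
  rw [List.get_ofFn]
  rfl

/-- Every list without repetitions comes from an embedding. -/
theorem LR1_ex {M : ℕ} (l : List (Fin M)) (h : l.Nodup) {k : ℕ} (hk : l.length = k) :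
    ∃ e : Fin k ↪ Fin M, l = List.ofFn e := by
  subst hk
  exact ⟨⟨l.get, List.nodup_iff_injective_get.1 h⟩, (List.ofFn_get l).symm⟩

theorem ev_map (g : List S → ∀ m, RTree m → ℝ) {M M' : ℕ} (ι : Fin M' ↪ Fin M) (τ : RTree M)
    (a : List S) (l : List (Fin M')) : ev g τ a (l.map ι) = ev g (τ.pull ι) a l := by
  by_cases h : l.Nodup
  · obtain ⟨k, hk⟩ : ∃ k, l.length = k := ⟨_, rfl⟩
    obtain ⟨e, rfl⟩ := LR1_ex l h hk
    have h1 : (List.ofFn e).map ι = List.ofFn (e.trans ι) := by
      rw [List.map_ofFn]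
      rfl
    rw [h1, ev_ofFn, ev_ofFn, RTree.pull_trans]
  · have h' : ¬ (l.map ι).Nodup := by rwa [List.nodup_map_iff ι.injective]
    unfold ev
    rw [dif_neg h, dif_neg h']

theorem ev_of_not_nodup (g : List S → ∀ m, RTree m → ℝ) {M : ℕ} (τ : RTree M)
    (a : List S) (l : List (Fin M)) (h : ¬ l.Nodup) : ev g τ a l = 0 := by
  unfold ev
  rw [dif_neg h]

theorem dd_ev (g : List S → ∀ m, RTree m → ℝ) {M : ℕ} (τ : RTree M) (a : List S)
    (l : List (Fin M)) (h : l.Nodup) : dd (ev g τ a) l = ev (fun a => dT (g a)) τ a l := by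
  cases hk : l.length with
  | zero =>
    obtain ⟨e, rfl⟩ := LR1_ex l h hk
    rw [ev_ofFn]
    rw [List.ofFn_zero, dd_nil]
    rfl
  | succ k =>
    obtain ⟨e, rfl⟩ := LR1_ex l h hk
    rw [ev_ofFn, dd_ofFn, dT_succ]
    refine Finset.sum_congr rfl fun i _ => ?_
    have h1 : (List.ofFn fun j => e (i.succAbove j)) = List.ofFn ((Fin.succAboveEmb i).trans e) := rfl
    rw [h1, ev_ofFn, RTree.pull_trans]

theorem dd_ev_left (g : List S → ∀ m, RTree m → ℝ) {M : ℕ} (τ : RTree M) (a : List S)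
    (l : List (Fin M)) (h : l.Nodup) :
    dd (fun u => ev g τ u l) a = ev (fun a m τ => dd (fun u => g u m τ) a) τ a l := by
  unfold ev
  simp only [dif_pos h]

theorem mean_list {μ : ∀ m, RTree m → ((Fin m → ℍ) → ℝ) →ₗ[ℝ] ℝ} (hμ : Means μ)
    (G : List S → List ℍ → ℝ) (a : List S)
    (hG : ∀ (g : SL(2, ℝ)) (b : List ℍ), G a (b.map fun z => g • z) = G a b)
    (hb : ∀ n : ℕ, ∃ C, ∀ b : List ℍ, b.length = n → |G a b| ≤ C)
    {M : ℕ} (τ : RTree M) (l : List (Fin M)) (hl : l ≠ []) (hn : l.Nodup) :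
    μ M τ (fun y => G a (l.map y)) = ev (mg μ G) τ a l := by
  have hpos : 1 ≤ l.length := List.length_pos_iff.2 hl
  obtain ⟨e, he⟩ := LR1_ex l hn rfl
  generalize l.length = k at hpos e he
  subst he
  rw [ev_ofFn]
  unfold mg
  obtain ⟨C, hC⟩ := hb k
  rw [← hμ.nat k M e τ (fun y => G a (List.ofFn y)) hpos ?_ ⟨C, fun y => hC _ (List.length_ofFn)⟩]
  · congr 1
    funext y
    rw [List.map_ofFn]
    rfl
  · intro g y
    have := hG g (List.ofFn y)
    rw [List.map_ofFn] at this
    exact this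

theorem mean_aw {μ : ∀ m, RTree m → ((Fin m → ℍ) → ℝ) →ₗ[ℝ] ℝ} (hμ : Means μ)
    (G : List S → List ℍ → ℝ)
    (hG : ∀ (a : List S) (g : SL(2, ℝ)) (b : List ℍ), G a (b.map fun z => g • z) = G a b)
    (hb : ∀ (a : List S) (n : ℕ), ∃ C, ∀ b : List ℍ, b.length = n → |G a b| ≤ C)
    {M : ℕ} (τ : RTree M) (L : List (S × Fin M)) (hn : (L.map Prod.snd).Nodup) :
    μ M τ (fun y => aw G (L.map fun p => (p.1, y p.2))) = aw (ev (mg μ G) τ) L := by
  induction L generalizing G with
  | nil =>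
    simp only [List.map_nil, aw_nil]
    exact map_zero (μ M τ)
  | cons z L ih =>
    rw [List.map_cons, List.nodup_cons] at hn
    have h1 : (fun y : Fin M → ℍ => aw G ((z :: L).map fun p => (p.1, y p.2))) =
        (fun y => G [z.1] ((z.2 :: L.map Prod.snd).map y)) +
        fun y => aw (fun a b => G (z.1 :: a) b) (L.map fun p => (p.1, y p.2)) := by
      funext y
      rw [List.map_cons, aw_cons, Pi.add_apply, List.map_cons, List.map_map, List.map_map]
      rfl
    rw [h1, map_add, aw_cons]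
    have h2 := mean_list hμ G [z.1] (hG [z.1]) (hb [z.1]) τ (z.2 :: L.map Prod.snd) (by simp)
      (List.nodup_cons.2 hn)
    have h3 := ih (fun a b => G (z.1 :: a) b) (fun a => hG (z.1 :: a)) (fun a => hb (z.1 :: a)) hn.2
    rw [h2, h3]
    rfl

end SimplVol

end S_LR1

section S_LR2

/-!
# Module LR2: properties of the alternated shuffle map `GG` and of its means

Let `F` be a cocycle with `p` points, `p ≥ 2`.
* `GG_map_left`, `GG_map_right`: `ez_map`, `altL_map`, invariance of `F` (the map `Prod.map κ id`, `Prod.map id g`).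
* `GG_supp`: `ez F a b'` is computed from values of `F` at lists of length `|a| + |b'| - 1 ≠ p` (`ez_congr` with the zero function; `altL_congr`; for empty lists
  it is `0` anyway). `GG_bdd`: only finitely many pairs `(|a|, |b|)` with `|a| + |b| = p + 1`; `abs_ez_le`, `abs_altL_le`; take the sum of the constants.
* `GG_total`: as in the proof of `tt_dd`: `dd (fun u => altL (ez F u) b) a = altL (fun b' => dd (fun u => ez F u b') a) b`, `dd (altL (ez F a)) b = altL (dd (ez F a)) b`
  (`dd_altL`), `ez_dd` for `dd F = 0`, `F [] = 0` (`F.supp`).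
* `mg_alt`: `m ≥ 1`: `hμ.nat` for the permutation (`k = m`), function `y ↦ GG F a (ofFn y)` (invariant and bounded), and `altL_perm`. `m = 0`: `σ = 1`, `RTree.ext_of_le_two`.
* `mg_total`: `dd (fun u => mg μ G u m τ) a = μ m τ (fun y => dd (fun u => G u (ofFn y)) a)` (`μ` linear; induction on `a`, or expand); for `m = j + 1`:
  `dT (mg μ G a) (j+1) τ = ∑ (-1)^i mg μ G a j (τ.pull δ_i)`, and `mg μ G a j (τ.pull δ_i) = μ m τ (fun y => G a (ofFn (y ∘ i.succAbove)))` (`hμ.nat` if `j ≥ 1`; if `j = 0`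
  both sides are `0` since `G a [] = 0`); `dd_ofFn`; `GG_total` with `b = ofFn y`.
* `mg_two`: `mg_alt` for the transposition and `RTree.ext_of_le_two` (the tree with two leaves is unique), so `x = -x`.
* `mg_three`: `RTree.three_cases`, `mg_alt` for `swap 0 1`, `tplus_o`, and `(tplus.pull (swap 0 1)).o 0 1 2 = tplus.o 1 0 2 = -1`.
-/

set_option autoImplicit false

open scoped BigOperators UpperHalfPlane MatrixGroups

namespace SimplVol

variable {S : Type} {K : Set (S → S)} {p : ℕ} {F : List (S × ℍ) → ℝ}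

theorem lr2_altL_zero (b : List ℍ) : altL (fun _ : List ℍ => (0 : ℝ)) b = 0 := by
  unfold altL
  simp

theorem lr2_ez_zero (a : List S) (b : List ℍ) : ez (fun _ : List (S × ℍ) => (0 : ℝ)) a b = 0 := by
  have h := ez_smul 0 (fun _ : List (S × ℍ) => (0 : ℝ)) a b
  simpa using h

theorem GG_nil_left (F : List (S × ℍ) → ℝ) (b : List ℍ) : GG F [] b = 0 := by
  unfold GG
  have h : ez F ([] : List S) = fun _ : List ℍ => (0 : ℝ) := funext fun y => ez_nil_left F y
  rw [h, lr2_altL_zero]

theorem GG_nil_right (F : List (S × ℍ) → ℝ) (a : List S) : GG F a [] = 0 := by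
  unfold GG
  rw [altL_nil, ez_nil_right]

theorem GG_map_left (hF : Coc (prodK K) p F) (κ : S → S) (hκ : κ ∈ K) (a : List S) (b : List ℍ) :
    GG F (a.map κ) b = GG F a b := by
  unfold GG
  refine altL_congr _ _ _ fun m _ => ?_
  have h := ez_map κ (id : ℍ → ℍ) F a m
  rw [List.map_id] at h
  rw [h]
  have h2 : (fun m : List (S × ℍ) => F (m.map (Prod.map κ id))) = F := by
    funext m
    exact hF.inv _ (Or.inl ⟨κ, hκ, rfl⟩) m
  rw [h2]

theorem GG_map_right (hF : Coc (prodK K) p F) (g : SL(2, ℝ)) (a : List S) (b : List ℍ) :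
    GG F a (b.map fun z => g • z) = GG F a b := by
  unfold GG
  rw [altL_map]
  refine altL_congr _ _ _ fun m _ => ?_
  have h := ez_map (id : S → S) (fun z : ℍ => g • z) F a m
  rw [List.map_id] at h
  rw [h]
  have h2 : (fun m : List (S × ℍ) => F (m.map (Prod.map id fun z : ℍ => g • z))) = F := by
    funext m
    exact hF.inv _ (Or.inr ⟨g, rfl⟩) m
  rw [h2]

theorem GG_supp (hF : Coc (prodK K) p F) (a : List S) (b : List ℍ)
    (h : a.length + b.length ≠ p + 1) : GG F a b = 0 := by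
  unfold GG
  have h1 : altL (ez F a) b = altL (fun _ : List ℍ => (0 : ℝ)) b := by
    refine altL_congr _ _ _ fun m hm => ?_
    rw [ez_congr F (fun _ => 0) a m fun m' hm' => hF.supp m' (by omega), lr2_ez_zero]
  rw [h1, lr2_altL_zero]

theorem GG_bdd (hF : Coc (prodK K) p F) : ∃ C, 0 ≤ C ∧ ∀ a b, |GG F a b| ≤ C := by
  obtain ⟨C, hC⟩ := hF.bdd
  have hC0 : 0 ≤ C := (abs_nonneg _).trans (hC [])
  choose M hM0 hM using fun i j : ℕ => abs_ez_le (S := S) (Y := ℍ) i j
  have hs : ∀ i j : ℕ, 0 ≤ M i j * C := fun i j => mul_nonneg (hM0 i j) hC0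
  refine ⟨∑ i ∈ Finset.range (p + 2), ∑ j ∈ Finset.range (p + 2), M i j * C,
    Finset.sum_nonneg fun i _ => Finset.sum_nonneg fun j _ => hs i j, fun a b => ?_⟩
  by_cases h : a.length + b.length = p + 1
  · have h1 : |GG F a b| ≤ M a.length b.length * C := by
      unfold GG
      refine abs_altL_le _ _ _ fun m hm => ?_
      exact hM a.length b.length F C hC0 hC a m rfl hm
    refine h1.trans ?_
    have h2 : M a.length b.length * C ≤ ∑ j ∈ Finset.range (p + 2), M a.length j * C :=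
      Finset.single_le_sum (f := fun j => M a.length j * C) (fun j _ => hs _ j)
        (Finset.mem_range.2 (by omega))
    refine h2.trans ?_
    exact Finset.single_le_sum (f := fun i => ∑ j ∈ Finset.range (p + 2), M i j * C)
      (fun i _ => Finset.sum_nonneg fun j _ => hs i j) (Finset.mem_range.2 (by omega))
  · rw [GG_supp hF a b h, abs_zero]
    exact Finset.sum_nonneg fun i _ => Finset.sum_nonneg fun j _ => hs i j

theorem lr2_dd_altL_left (H : List S → List ℍ → ℝ) (a : List S) (b : List ℍ) :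
    dd (fun u => altL (H u) b) a = altL (fun b' => dd (fun u => H u b') a) b := by
  unfold altL
  rw [dd_smul, dd_sum]
  congr 1
  refine Finset.sum_congr rfl fun σ _ => ?_
  rw [dd_smul]

theorem GG_total (hF : Coc (prodK K) p F) (hp : 2 ≤ p) (a : List S) (b : List ℍ) (ha : a ≠ [])
    (hb : b ≠ []) :
    dd (fun u => GG F u b) a + (-1) ^ (a.length - 1) * dd (GG F a) b = 0 := by
  have h1 : dd (fun u => GG F u b) a = altL (fun b' => dd (fun u => ez F u b') a) b :=
    lr2_dd_altL_left (ez F) a b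
  have h2 : dd (GG F a) b = altL (dd (ez F a)) b := dd_altL (ez F a) b
  rw [h1, h2, ← altL_smul, ← altL_add]
  have h3 : altL (fun m => dd (fun u => ez F u m) a + (-1) ^ (a.length - 1) * dd (ez F a) m) b =
      altL (fun _ : List ℍ => (0 : ℝ)) b := by
    refine altL_congr _ _ _ fun m hm => ?_
    have hm0 : m ≠ [] := by
      intro h
      rw [h, List.length_nil] at hm
      exact hb (List.length_eq_zero_iff.1 hm.symm)
    have h4 := ez_dd F a m ha hm0
    have h5 : dd F = fun _ => (0 : ℝ) := funext fun l => hF.coc l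
    have h6 : F [] = 0 := hF.supp [] (by rw [List.length_nil]; omega)
    rw [h5, lr2_ez_zero, h6, ite_self, add_zero] at h4
    exact h4.symm
  rw [h3, lr2_altL_zero]

variable {μ : ∀ m, RTree m → ((Fin m → ℍ) → ℝ) →ₗ[ℝ] ℝ}

theorem mg_zero (F : List (S × ℍ) → ℝ) (a : List S) (τ : RTree 0) : mg μ (GG F) a 0 τ = 0 := by
  unfold mg
  have h : (fun y : Fin 0 → ℍ => GG F a (List.ofFn y)) = 0 := by
    funext y
    rw [List.ofFn_zero, GG_nil_right]
    rfl
  rw [h, map_zero]

theorem mg_nil (F : List (S × ℍ) → ℝ) (m : ℕ) (τ : RTree m) : mg μ (GG F) [] m τ = 0 := by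
  unfold mg
  have h : (fun y : Fin m → ℍ => GG F ([] : List S) (List.ofFn y)) = 0 := by
    funext y
    rw [GG_nil_left]
    rfl
  rw [h, map_zero]

theorem lr2_inv (hF : Coc (prodK K) p F) (a : List S) (m : ℕ) :
    InvH fun y : Fin m → ℍ => GG F a (List.ofFn y) := by
  intro g y
  have h := GG_map_right hF g a (List.ofFn y)
  rw [List.map_ofFn] at h
  exact h

theorem lr2_bdd (hF : Coc (prodK K) p F) (a : List S) (m : ℕ) :
    ∃ C, ∀ y : Fin m → ℍ, |GG F a (List.ofFn y)| ≤ C := by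
  obtain ⟨C, _, hC⟩ := GG_bdd hF
  exact ⟨C, fun y => hC a _⟩

theorem mg_alt (hμ : Means μ) (hF : Coc (prodK K) p F) (a : List S) : AltT (mg μ (GG F) a) := by
  intro m σ τ
  rcases Nat.eq_zero_or_pos m with rfl | hm
  · rw [mg_zero, mg_zero, mul_zero]
  · have h := hμ.nat m m σ.toEmbedding τ (fun y => GG F a (List.ofFn y)) hm (lr2_inv hF a m)
      (lr2_bdd hF a m)
    unfold mg
    rw [← h]
    have h2 : (fun y : Fin m → ℍ => GG F a (List.ofFn fun i => y (σ.toEmbedding i))) =
        ((Equiv.Perm.sign σ : ℤ) : ℝ) • fun y : Fin m → ℍ => GG F a (List.ofFn y) := by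
      funext y
      exact altL_perm (ez F a) y σ
    rw [h2, map_smul, smul_eq_mul]

theorem lr2_dd_lin {X : Type} (L : (X → ℝ) →ₗ[ℝ] ℝ) (H : List S → X → ℝ) (a : List S) :
    dd (fun u => L (fun y => H u y)) a = L (fun y => dd (fun u => H u y) a) := by
  induction a generalizing H with
  | nil =>
    have h : (fun y : X => dd (fun u : List S => H u y) []) = 0 := by
      funext y
      rfl
    rw [h, map_zero]
    rfl
  | cons c a ih =>
    rw [dd_cons, ih (fun u => H (c :: u)), ← map_sub]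
    rfl

theorem mg_total (hμ : Means μ) (hF : Coc (prodK K) p F) (hp : 2 ≤ p) (a : List S) (ha : a ≠ [])
    (m : ℕ) (hm : 1 ≤ m) (τ : RTree m) :
    dd (fun u => mg μ (GG F) u m τ) a + (-1) ^ (a.length - 1) * dT (mg μ (GG F) a) m τ = 0 := by
  obtain ⟨j, rfl⟩ : ∃ j, m = j + 1 := ⟨m - 1, by omega⟩
  have h1 : dd (fun u => mg μ (GG F) u (j + 1) τ) a =
      μ (j + 1) τ (fun y => dd (fun u => GG F u (List.ofFn y)) a) :=
    lr2_dd_lin (μ (j + 1) τ) (fun u y => GG F u (List.ofFn y)) a
  have h2 : ∀ i : Fin (j + 1), mg μ (GG F) a j (τ.pull (Fin.succAboveEmb i)) =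
      μ (j + 1) τ (fun y => GG F a (List.ofFn fun k => y (i.succAbove k))) := by
    intro i
    rcases Nat.eq_zero_or_pos j with rfl | hj
    · rw [mg_zero]
      have h : (fun y : Fin (0 + 1) → ℍ => GG F a (List.ofFn fun k => y (i.succAbove k))) = 0 := by
        funext y
        rw [List.ofFn_zero, GG_nil_right]
        rfl
      rw [h, map_zero]
    · exact (hμ.nat j (j + 1) (Fin.succAboveEmb i) τ (fun y => GG F a (List.ofFn y)) hj
        (lr2_inv hF a j) (lr2_bdd hF a j)).symm
  have h3 : dT (mg μ (GG F) a) (j + 1) τ =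
      μ (j + 1) τ (fun y => dd (GG F a) (List.ofFn y)) := by
    rw [dT_succ]
    simp only [h2]
    have h4 : (fun y : Fin (j + 1) → ℍ => dd (GG F a) (List.ofFn y)) =
        ∑ i : Fin (j + 1), ((-1 : ℝ) ^ (i : ℕ)) •
          fun y : Fin (j + 1) → ℍ => GG F a (List.ofFn fun k => y (i.succAbove k)) := by
      funext y
      rw [dd_ofFn, Finset.sum_apply]
      rfl
    rw [h4, map_sum]
    refine Finset.sum_congr rfl fun i _ => ?_
    rw [map_smul, smul_eq_mul]
  rw [h1, h3, ← smul_eq_mul, ← map_smul, ← map_add]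
  have h5 : ((fun y : Fin (j + 1) → ℍ => dd (fun u => GG F u (List.ofFn y)) a) +
      ((-1 : ℝ) ^ (a.length - 1)) • fun y : Fin (j + 1) → ℍ => dd (GG F a) (List.ofFn y)) = 0 := by
    funext y
    refine GG_total hF hp a (List.ofFn y) ha ?_
    intro h
    have h6 := congrArg List.length h
    rw [List.length_ofFn, List.length_nil] at h6
    omega
  rw [h5, map_zero]

theorem mg_two (hμ : Means μ) (hF : Coc (prodK K) p F) (a : List S) (τ : RTree 2) :
    mg μ (GG F) a 2 τ = 0 := by
  have h := mg_alt hμ hF a 2 (Equiv.swap 0 1) τ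
  rw [RTree.ext_of_le_two le_rfl (τ.pull (Equiv.swap (0 : Fin 2) 1).toEmbedding) τ,
    Equiv.Perm.sign_swap (by decide)] at h
  simp only [Units.val_neg, Units.val_one, Int.cast_neg, Int.cast_one] at h
  linarith

theorem mg_three (hμ : Means μ) (hF : Coc (prodK K) p F) (a : List S) (τ : RTree 3) :
    mg μ (GG F) a 3 τ = mg μ (GG F) a 3 tplus * ((τ.o 0 1 2 : ℤ) : ℝ) := by
  rcases τ.three_cases with rfl | rfl
  · rw [tplus_o]
    simp
  · rw [mg_alt hμ hF a 3 (Equiv.swap 0 1) tplus, Equiv.Perm.sign_swap (by decide)]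
    have h : (tplus.pull (Equiv.swap (0 : Fin 3) 1).toEmbedding).o 0 1 2 = -1 := by
      show tplus.o (Equiv.swap (0 : Fin 3) 1 0) (Equiv.swap (0 : Fin 3) 1 1)
        (Equiv.swap (0 : Fin 3) 1 2) = -1
      decide
    rw [h]
    simp

end SimplVol

end S_LR2

section S_ZX

/-!
# Module ZX: the iterated evaluation on triangles

`ZZ n F`: the value of `F` on the products of `n` alternated triangles vanishes (iterated shuffle products).
* `swap_smul`: for `x₀ + i v₀`, `x₁ + i v₁` the matrix `λ (a b; c -a)` with `c = v₀ + v₁`, `a = x₀ v₁ + x₁ v₀`, `b = (v₀ + v₁) (x₀ x₁ - v₀ v₁) - (x₀ + x₁) (x₀ v₁ + x₁ v₀)` has determinant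
  `λ² (-a² - b c) = λ² v₀ v₁ ((x₀ - x₁)² + (v₀ + v₁)²)` (`ring`), choose `λ > 0`; it exchanges the points: `a y₀ + b = y₁ (c y₀ - a)` (real and imaginary part).
* `ZZ_mean`: `ZZ n` only involves finite linear combinations: `ez (fun l => μ 3 τ (fun y => G y l)) a b = μ 3 τ (fun y => ez (G y) a b)` (induction as in the definition of `ez`; `map_add`, `map_smul`, `map_zero`), the
  same for `altL`; so induction on `n` with `ZZ n (G y)` for all `y`; `n = 0`: `μ 3 τ (fun y => 0) = 0`.
* `ZZ_exact`: induction on `n`, for all `B`. `n = 0`: `dd B [default] = B [] = 0`. Step: `B̂ l = B (l.map cE)`, so `(dd B) (l.map cE) = dd B̂ l` (`dd_map`). For every list `a` and `y : Fin 3 → ℍ`,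
  `altL (ez (dd B̂) a) (ofFn y) = dd B' a`, `B' u = altL (ez B̂ u) (ofFn y)`: for `a = []` both are `0`; for `a ≠ []`: `ez_dd` (the lists `b'` in `altL` have three elements, so the last term of `ez_dd` is
  `0`), `dd` in the first variable commutes with `altL`, `dd_altL`: the second part is `± dd (altL (ez B̂ a)) (ofFn y) = ± ∑_i ± altL (ez B̂ a) [y_j, y_k]`, and `altL (ez B̂ a) [u, v] = 0` for all `u, v`:
  it is antisymmetric (`altL_perm`) and, with `g` from `swap_smul`, `ez B̂ a (b.map g) = ez B̂ a b` (`ez_map`, invariance), so it is also symmetric. `B'` is invariant under `KK n` (`ez_map`), `B' [] = 0`.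
-/

set_option autoImplicit false

open scoped BigOperators UpperHalfPlane MatrixGroups

namespace SimplVol

theorem ZX_act (g : SL(2, ℝ)) (z w : ℍ) (a b c d : ℝ) (h00 : g 0 0 = a) (h01 : g 0 1 = b)
    (h10 : g 1 0 = c) (h11 : g 1 1 = d)
    (h : (a : ℂ) * z + b = w * ((c : ℂ) * z + d)) (hne : (c : ℂ) * z + d ≠ 0) : g • z = w := by
  apply UpperHalfPlane.ext
  rw [UpperHalfPlane.coe_specialLinearGroup_apply, h00, h01, h10, h11]
  show ((a : ℂ) * z + b) / ((c : ℂ) * z + d) = w
  rw [div_eq_iff hne, h]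

theorem swap_smul (x y : ℍ) : ∃ g : SL(2, ℝ), g • x = y ∧ g • y = x := by
  obtain ⟨x0, hx0⟩ : ∃ t : ℝ, t = x.re := ⟨_, rfl⟩
  obtain ⟨v0, hv0⟩ : ∃ t : ℝ, t = x.im := ⟨_, rfl⟩
  obtain ⟨x1, hx1⟩ : ∃ t : ℝ, t = y.re := ⟨_, rfl⟩
  obtain ⟨v1, hv1⟩ : ∃ t : ℝ, t = y.im := ⟨_, rfl⟩
  have p0 : 0 < v0 := by rw [hv0]; exact x.im_pos
  have p1 : 0 < v1 := by rw [hv1]; exact y.im_pos
  have ex : (x : ℂ) = x0 + v0 * Complex.I := by
    apply Complex.ext
    · simp [hx0]
    · simp [hv0]
  have ey : (y : ℂ) = x1 + v1 * Complex.I := by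
    apply Complex.ext
    · simp [hx1]
    · simp [hv1]
  have hD : 0 < v0 * v1 * ((x0 - x1) ^ 2 + (v0 + v1) ^ 2) := by positivity
  obtain ⟨l, hl0, hl⟩ : ∃ l : ℝ, 0 < l ∧ l ^ 2 * (v0 * v1 * ((x0 - x1) ^ 2 + (v0 + v1) ^ 2)) = 1 := by
    refine ⟨(Real.sqrt (v0 * v1 * ((x0 - x1) ^ 2 + (v0 + v1) ^ 2)))⁻¹, by positivity, ?_⟩
    rw [inv_pow, Real.sq_sqrt hD.le]
    exact inv_mul_cancel₀ hD.ne'
  obtain ⟨a, ha⟩ : ∃ t : ℝ, t = x0 * v1 + x1 * v0 := ⟨_, rfl⟩
  obtain ⟨c, hc⟩ : ∃ t : ℝ, t = v0 + v1 := ⟨_, rfl⟩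
  obtain ⟨b, hb⟩ : ∃ t : ℝ, t = (v0 + v1) * (x0 * x1 - v0 * v1) - (x0 + x1) * (x0 * v1 + x1 * v0) :=
    ⟨_, rfl⟩
  have hdet : (!![l * a, l * b; l * c, -(l * a)] : Matrix (Fin 2) (Fin 2) ℝ).det = 1 := by
    rw [Matrix.det_fin_two_of, ← hl, ha, hb, hc]
    ring
  have hc0 : 0 < c := by rw [hc]; positivity
  have key : (a : ℂ) * ((x : ℂ) + y) + b = c * (x * y) := by
    rw [ex, ey, ha, hb, hc]
    push_cast
    linear_combination (-((v0 : ℂ) + v1) * v0 * v1) * Complex.I_sq
  have hne : ∀ z : ℍ, ((l * c : ℝ) : ℂ) * z + ((-(l * a) : ℝ) : ℂ) ≠ 0 := by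
    intro z h
    have h1 := congrArg Complex.im h
    simp at h1
    rcases h1 with h2 | h2
    · rcases h2 with h3 | h3
      · exact hl0.ne' h3
      · exact hc0.ne' h3
    · exact z.im_pos.ne' h2
  refine ⟨⟨!![l * a, l * b; l * c, -(l * a)], hdet⟩, ?_, ?_⟩
  · refine ZX_act _ x y (l * a) (l * b) (l * c) (-(l * a)) rfl rfl rfl rfl ?_ (hne x)
    push_cast
    linear_combination (l : ℂ) * key
  · refine ZX_act _ y x (l * a) (l * b) (l * c) (-(l * a)) rfl rfl rfl rfl ?_ (hne y)
    push_cast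
    linear_combination (l : ℂ) * key

/-- Adding a factor. -/
def cE (n : ℕ) (z : (Fin n → ℍ) × ℍ) : Fin (n + 1) → ℍ := Fin.cons z.2 z.1

/-- The iterated evaluation on triangles vanishes. -/
def ZZ : ∀ n : ℕ, (List (Fin n → ℍ) → ℝ) → Prop
  | 0, F => F [fun j => j.elim0] = 0
  | n + 1, F => ∀ y : Fin 3 → ℍ, ZZ n fun a => GG (fun l => F (l.map (cE n))) a (List.ofFn y)

theorem ZX_ez {S Y T : Type} (Λ : (T → ℝ) →ₗ[ℝ] ℝ) (k : ℕ) :
    ∀ (G : T → List (S × Y) → ℝ) (a : List S) (b : List Y), a.length + b.length = k →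
      ez (fun l => Λ fun t => G t l) a b = Λ fun t => ez (G t) a b := by
  induction k with
  | zero =>
    intro G a b h
    have ha : a = [] := List.length_eq_zero_iff.1 (by omega)
    subst ha
    simp only [ez_nil_left]
    exact (map_zero Λ).symm
  | succ k ih =>
    intro G a b h
    cases a with
    | nil =>
      simp only [ez_nil_left]
      exact (map_zero Λ).symm
    | cons a x =>
      cases b with
      | nil =>
        simp only [ez_nil_right]
        exact (map_zero Λ).symm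
      | cons b y =>
        simp only [ez_cons]
        simp only [List.length_cons] at h
        have e1 := ih (fun t m => G t ((a, b) :: m)) x (b :: y) (by simp only [List.length_cons]; omega)
        have e2 := ih (fun t m => G t ((a, b) :: m)) (a :: x) y (by simp only [List.length_cons]; omega)
        rw [e1, e2]
        have e3 : (fun t => (if (x.isEmpty && y.isEmpty) = true then G t [(a, b)] else 0) +
            ez (fun m => G t ((a, b) :: m)) x (b :: y) +
            (-1) ^ x.length * ez (fun m => G t ((a, b) :: m)) (a :: x) y) =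
            (fun t => (if (x.isEmpty && y.isEmpty) = true then G t [(a, b)] else 0)) +
            (fun t => ez (fun m => G t ((a, b) :: m)) x (b :: y)) +
            ((-1 : ℝ) ^ x.length) • fun t => ez (fun m => G t ((a, b) :: m)) (a :: x) y := by
          funext t
          simp
        rw [e3, map_add, map_add, map_smul, smul_eq_mul]
        congr 2
        split_ifs
        · rfl
        · exact (map_zero Λ).symm

theorem ZX_altL {Y T : Type} (Λ : (T → ℝ) →ₗ[ℝ] ℝ) (H : T → List Y → ℝ) (l : List Y) :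
    altL (fun m => Λ fun t => H t m) l = Λ fun t => altL (H t) l := by
  unfold altL
  have e : (fun t => (1 / (Nat.factorial l.length : ℝ)) * ∑ σ : Equiv.Perm (Fin l.length),
      ((Equiv.Perm.sign σ : ℤ) : ℝ) * H t (List.ofFn fun i => l.get (σ i))) =
      (1 / (Nat.factorial l.length : ℝ)) • ∑ σ : Equiv.Perm (Fin l.length),
        ((Equiv.Perm.sign σ : ℤ) : ℝ) • fun t => H t (List.ofFn fun i => l.get (σ i)) := by
    funext t
    simp
  rw [e, map_smul, map_sum, smul_eq_mul]
  congr 1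
  refine Finset.sum_congr rfl fun σ _ => ?_
  rw [map_smul, smul_eq_mul]

theorem ZX_GG {S T : Type} (Λ : (T → ℝ) →ₗ[ℝ] ℝ) (G : T → List (S × ℍ) → ℝ) (a : List S)
    (b : List ℍ) : GG (fun l => Λ fun t => G t l) a b = Λ fun t => GG (G t) a b := by
  unfold GG
  rw [← ZX_altL Λ (fun t => ez (G t) a) b]
  refine altL_congr _ _ b fun m _ => ?_
  exact ZX_ez Λ _ G a m rfl

theorem ZZ_mean (μ : ∀ m, RTree m → ((Fin m → ℍ) → ℝ) →ₗ[ℝ] ℝ) (n : ℕ)
    (G : (Fin 3 → ℍ) → List (Fin n → ℍ) → ℝ) (hG : ∀ y, ZZ n (G y)) (τ : RTree 3) :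
    ZZ n fun a => μ 3 τ fun y => G y a := by
  induction n with
  | zero =>
    show μ 3 τ (fun y => G y [fun j => j.elim0]) = 0
    have h1 : (fun y => G y [fun j => j.elim0]) = 0 := by
      funext y
      exact hG y
    rw [h1, map_zero]
  | succ n ih =>
    intro y'
    have h1 := ih (fun y a => GG (fun l => G y (l.map (cE n))) a (List.ofFn y')) fun y => hG y y'
    have h2 : (fun a => GG (fun l => μ 3 τ fun y => G y (l.map (cE n))) a (List.ofFn y')) =
        fun a => μ 3 τ fun y => GG (fun l => G y (l.map (cE n))) a (List.ofFn y') := by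
      funext a
      exact ZX_GG (μ 3 τ) (fun y l => G y (l.map (cE n))) a (List.ofFn y')
    rw [h2]
    exact h1

/-- `dd` commutes with the alternation in another variable. -/
theorem ZX_dd_altL {S Y : Type} (H : List S → List Y → ℝ) (a : List S) (b : List Y) :
    altL (fun m => dd (fun u => H u m) a) b = dd (fun u => altL (H u) b) a := by
  unfold altL
  rw [dd_smul, dd_sum]
  congr 1
  refine Finset.sum_congr rfl fun σ _ => ?_
  rw [dd_smul]

theorem ZX_cE_left (n : ℕ) (g : Fin n → SL(2, ℝ)) (l : List ((Fin n → ℍ) × ℍ)) :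
    (l.map (Prod.map (fun z j => g j • z j) id)).map (cE n) =
      (l.map (cE n)).map fun z j => (Fin.cons 1 g : Fin (n + 1) → SL(2, ℝ)) j • z j := by
  rw [List.map_map, List.map_map]
  refine List.map_congr_left fun z _ => ?_
  funext j
  refine Fin.cases ?_ (fun i => ?_) j
  · simp [cE]
  · simp [cE]

theorem ZX_cE_right (n : ℕ) (g : SL(2, ℝ)) (l : List ((Fin n → ℍ) × ℍ)) :
    (l.map (Prod.map id fun z => g • z)).map (cE n) =
      (l.map (cE n)).map fun z j => (Fin.cons g 1 : Fin (n + 1) → SL(2, ℝ)) j • z j := by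
  rw [List.map_map, List.map_map]
  refine List.map_congr_left fun z _ => ?_
  funext j
  refine Fin.cases ?_ (fun i => ?_) j
  · simp [cE]
  · simp [cE]

theorem ZX_two {S : Type} (F : List (S × ℍ) → ℝ)
    (hF : ∀ (g : SL(2, ℝ)) (l : List (S × ℍ)), F (l.map (Prod.map id fun z => g • z)) = F l)
    (a : List S) (u v : ℍ) : altL (ez F a) [u, v] = 0 := by
  obtain ⟨g, h1, h2⟩ := swap_smul u v
  have e1 : altL (ez F a) [v, u] = altL (ez F a) [u, v] := by
    have e2 := altL_map (fun z : ℍ => g • z) (ez F a) [u, v]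
    have e3 : [u, v].map (fun z : ℍ => g • z) = [v, u] := by
      simp [h1, h2]
    rw [e3] at e2
    rw [e2]
    refine altL_congr _ _ _ fun m _ => ?_
    have e4 := ez_map (id : S → S) (fun z : ℍ => g • z) F a m
    rw [List.map_id] at e4
    rw [e4]
    congr 1
    funext l
    exact hF g l
  have e5 := altL_perm (ez F a) ![u, v] (Equiv.swap 0 1)
  have e6 : (List.ofFn fun i => (![u, v] : Fin 2 → ℍ) (Equiv.swap 0 1 i)) = [v, u] := by
    simp [List.ofFn_succ]
  have e7 : List.ofFn (![u, v] : Fin 2 → ℍ) = [u, v] := by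
    simp [List.ofFn_succ]
  rw [e6, e7, Equiv.Perm.sign_swap (by decide), e1] at e5
  push_cast at e5
  linarith

theorem ZZ_exact (n : ℕ) (B : List (Fin n → ℍ) → ℝ)
    (hB : ∀ (g : Fin n → SL(2, ℝ)) (l : List (Fin n → ℍ)), B (l.map fun z j => g j • z j) = B l)
    (h0 : B [] = 0) : ZZ n (dd B) := by
  induction n with
  | zero =>
    show dd B [fun j => j.elim0] = 0
    rw [dd_cons, dd_nil, h0, sub_zero]
  | succ n ih =>
    intro y
    obtain ⟨B1, hB1⟩ : ∃ B1 : List ((Fin n → ℍ) × ℍ) → ℝ, B1 = fun l => B (l.map (cE n)) := ⟨_, rfl⟩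
    have hdd : (fun l : List ((Fin n → ℍ) × ℍ) => dd B (l.map (cE n))) = dd B1 := by
      funext l
      rw [hB1, dd_map (cE n) B l]
    have hr : ∀ (g : SL(2, ℝ)) (l : List ((Fin n → ℍ) × ℍ)),
        B1 (l.map (Prod.map id fun z => g • z)) = B1 l := by
      intro g l
      rw [hB1]
      show B ((l.map (Prod.map id fun z => g • z)).map (cE n)) = B (l.map (cE n))
      rw [ZX_cE_right]
      exact hB _ _
    have hl : ∀ (g : Fin n → SL(2, ℝ)) (l : List ((Fin n → ℍ) × ℍ)),
        B1 (l.map (Prod.map (fun z j => g j • z j) id)) = B1 l := by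
      intro g l
      rw [hB1]
      show B ((l.map (Prod.map (fun z j => g j • z j) id)).map (cE n)) = B (l.map (cE n))
      rw [ZX_cE_left]
      exact hB _ _
    have hB10 : B1 [] = 0 := by
      rw [hB1]
      exact h0
    have key : (fun a => GG (fun l => dd B (l.map (cE n))) a (List.ofFn y)) =
        dd fun u => altL (ez B1 u) (List.ofFn y) := by
      funext a
      rw [hdd]
      unfold GG
      by_cases ha : a = []
      · subst ha
        rw [dd_nil]
        have e1 : (ez (dd B1) ([] : List (Fin n → ℍ)) : List ℍ → ℝ) = fun _ => 0 := by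
          funext b
          exact ez_nil_left _ _
        rw [e1]
        have e2 := altL_smul 0 (fun _ : List ℍ => (0 : ℝ)) (List.ofFn y)
        simpa using e2
      · have e1 : altL (ez (dd B1) a) (List.ofFn y) =
            altL (fun b => dd (fun u => ez B1 u b) a + (-1) ^ (a.length - 1) * dd (ez B1 a) b)
              (List.ofFn y) := by
          refine altL_congr _ _ _ fun m hm => ?_
          rw [List.length_ofFn] at hm
          have hm0 : m ≠ [] := by
            intro h
            rw [h] at hm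
            simp at hm
          rw [ez_dd B1 a m ha hm0, if_neg (by omega), add_zero]
        rw [e1, altL_add, altL_smul, ZX_dd_altL, ← dd_altL]
        have e2 : dd (altL (ez B1 a)) (List.ofFn y) = 0 := by
          rw [dd_ofFn]
          refine Finset.sum_eq_zero fun i _ => ?_
          have e3 : (List.ofFn fun j : Fin 2 => y (i.succAbove j)) =
              [y (i.succAbove 0), y (i.succAbove 1)] := by
            simp [List.ofFn_succ]
          rw [e3, ZX_two B1 hr, mul_zero]
        rw [e2, mul_zero, add_zero]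
    show ZZ n fun a => GG (fun l => dd B (l.map (cE n))) a (List.ofFn y)
    rw [key]
    refine ih _ ?_ ?_
    · intro g l
      refine altL_congr _ _ _ fun m _ => ?_
      have e4 := ez_map (fun (z : Fin n → ℍ) j => g j • z j) (id : ℍ → ℍ) B1 l m
      rw [List.map_id] at e4
      rw [e4]
      congr 1
      funext l'
      exact hl g l'
    · have e1 : (ez B1 ([] : List (Fin n → ℍ)) : List ℍ → ℝ) = fun _ => 0 := by
        funext b
        exact ez_nil_left _ _
      show altL (ez B1 []) (List.ofFn y) = 0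
      rw [e1]
      have e2 := altL_smul 0 (fun _ : List ℍ => (0 : ℝ)) (List.ofFn y)
      simpa using e2

end SimplVol

end S_ZX
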