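import Pool.Agent.H54.RM.A2
import Pool.Agent.H54.RM.B1
import Pool.Agent.H74.SV.PL

/-! Simplicial volume and ranked planar trees, part C1: this file joins several modules to save build time. -/

section S_FY

/-!
# Module FY: matrices, Farey divisions (definitions)
-/

set_option autoImplicit false

open scoped BigOperators UpperHalfPlane MatrixGroups
open MeasureTheory

namespace SimplVol

noncomputable instance RTree.fintype (m : ℕ) : Fintype (RTree m) := Fintype.ofFinite _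

/-- The real matrix of an integral matrix. -/
noncomputable def tR : SL(2, ℤ) →* SL(2, ℝ) :=
  Matrix.SpecialLinearGroup.map (Int.castRingHom ℝ)

/-- The product of the two coordinates of the image of a vector. -/
noncomputable def cc (γ : SL(2, ℤ)) (u : Pl) : ℝ := (act (tR γ) u).1 * (act (tR γ) u).2

open Classical in
/-- The division of vectors by the signs of `cc γ`. -/
noncomputable def fs {m : ℕ} (γ : SL(2, ℤ)) (u : Fin m → Pl) : Split m :=
  fun a b => decide (0 < cc γ (u a) * cc γ (u b))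

/-- Vectors of irrational slope. -/
def Irr (v : Pl) : Prop := ∀ a b : ℤ, (a ≠ 0 ∨ b ≠ 0) → (a : ℝ) * v.1 + (b : ℝ) * v.2 ≠ 0

/-- Pairwise independent vectors of irrational slope. -/
def Good {m : ℕ} (u : Fin m → Pl) : Prop :=
  (∀ i, Irr (u i)) ∧ ∀ i j, i ≠ j → dt (u i) (u j) ≠ 0

open Classical in
/-- The orientation of three lines, as an integer. -/
noncomputable def fo {m : ℕ} (u : Fin m → Pl) (a b c : Fin m) : ℤ :=
  if 0 < dt (u a) (u b) * dt (u b) (u c) * dt (u c) (u a) then 1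
  else if dt (u a) (u b) * dt (u b) (u c) * dt (u c) (u a) < 0 then -1 else 0

/-- The number of matrices giving a division. -/
noncomputable def fl {m : ℕ} (u : Fin m → Pl) (s : Split m) : ℝ :=
  (Nat.card {γ : SL(2, ℤ) // fs γ u = s} : ℝ)

open Classical in
/-- The divisions that occur. -/
noncomputable def fE {m : ℕ} (u : Fin m → Pl) : Finset (Split m) :=
  Finset.univ.filter fun s => NT s ∧ ∃ γ : SL(2, ℤ), fs γ u = s

open Classical in
/-- The probability of a ranked tree: the order of the ranks is chosen by successive sampling (highest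
rank first) with the weights `fl u`. -/
noncomputable def pr {m : ℕ} (u : Fin m → Pl) (τ : RTree m) : ℝ :=
  if Good u ∧ τ.o = fo u then
    PE (fl u) (fE u).card (fE u) fun l => if l = τ.l then 1 else 0
  else 0

/-- Pairs of vectors (the columns of a matrix) with determinant in `(0, 1]`. -/
def XX : Set (Pl × Pl) := {A | 0 < dt A.1 A.2 ∧ dt A.1 A.2 ≤ 1}

/-- Multiplication from the left. -/
def lm (g : SL(2, ℝ)) (A : Pl × Pl) : Pl × Pl := (act g A.1, act g A.2)

/-- Multiplication from the right. -/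
def rm (g : SL(2, ℝ)) (A : Pl × Pl) : Pl × Pl :=
  ((g 0 0 * A.1.1 + g 1 0 * A.2.1, g 0 0 * A.1.2 + g 1 0 * A.2.2),
    (g 0 1 * A.1.1 + g 1 1 * A.2.1, g 0 1 * A.1.2 + g 1 1 * A.2.2))

/-- The normalised matrix. -/
noncomputable def sl (A : Pl × Pl) : SL(2, ℝ) :=
  if h : 0 < dt A.1 A.2 then
    ⟨!![A.1.1 / Real.sqrt (dt A.1 A.2), A.2.1 / Real.sqrt (dt A.1 A.2);
        A.1.2 / Real.sqrt (dt A.1 A.2), A.2.2 / Real.sqrt (dt A.1 A.2)], by
      rw [Matrix.det_fin_two_of, div_mul_div_comm, div_mul_div_comm, Real.mul_self_sqrt h.le,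
        ← sub_div]
      exact (div_eq_one_iff_eq h.ne').2 (by unfold dt; ring)⟩
  else 1

/-- Exact fundamental domains (of finite measure) in the space of matrices. -/
structure FDom (Γ : Subgroup SL(2, ℝ)) (R : Set (Pl × Pl)) : Prop where
  meas : MeasurableSet R
  sub : R ⊆ XX
  dom : ∀ A ∈ XX, ∃! γ : Γ, lm (γ : SL(2, ℝ)) A ∈ R
  fin : volume R ≠ ⊤

/-- The average over a fundamental domain. -/
noncomputable def Ev (R : Set (Pl × Pl)) (Φ : SL(2, ℝ) → ℝ) : ℝ :=
  (volume R).toReal⁻¹ * ∫ A in R, Φ (sl A)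

/-- The uniform probability measure on an ellipse. -/
noncomputable def eP (z : ℍ) : Measure Pl := (ENNReal.ofReal Real.pi)⁻¹ • volume.restrict (ell z)

/-- The distribution of the random tree of points of the upper half plane (invariant under
`SL(2, ℤ)` only). -/
noncomputable def NN {m : ℕ} (x : Fin m → ℍ) (τ : RTree m) : ℝ :=
  ∫ v, pr v τ ∂(Measure.pi fun i => eP (x i))

/-- A natural invariant family of random ranked planar binary trees. -/
structure CStar (M : ∀ m : ℕ, (Fin m → ℍ) → RTree m → ℝ) : Prop where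
  nonneg : ∀ m x τ, 0 ≤ M m x τ
  one : ∀ m x, ∑ τ, M m x τ = 1
  inv : ∀ m (g : SL(2, ℝ)) (x : Fin m → ℍ) τ, M m (fun i => g • x i) τ = M m x τ
  nat : ∀ (k m : ℕ) (ι : Fin k ↪ Fin m) (x : Fin m → ℍ) (φ : RTree k → ℝ),
    ∑ τ, M m x τ * φ (τ.pull ι) = ∑ τ', M k (fun i => x (ι i)) τ' * φ τ'
  area : ∀ m (x : Fin m → ℍ) (a b c : Fin m),
    ∑ τ, M m x τ * ((τ.o a b c : ℤ) : ℝ) = area (x a) (x b) (x c) / Real.pi

/-- Natural averages over roundings of points to an orbit of the group `Γ`. -/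
structure Rnd (Γ : Subgroup SL(2, ℝ))
    (κ : ∀ m, (Fin m → ℍ) → ((Fin m → ℍ) → ℝ) →ₗ[ℝ] ℝ) : Prop where
  bdd : ∀ m x φ (C : ℝ), (∀ y, |φ y| ≤ C) → |κ m x φ| ≤ C
  nat : ∀ (k m : ℕ) (ι : Fin k → Fin m) x φ,
    κ m x (fun y => φ fun i => y (ι i)) = κ k (fun i => x (ι i)) φ
  inv : ∀ m x φ (g : SL(2, ℝ)),
    (∀ γ : SL(2, ℝ), γ ∈ Γ → ∀ y : Fin m → ℍ, φ (fun i => γ • y i) = φ y) →
    κ m (fun i => g • x i) φ = κ m x φ
  area : ∀ m x (a b c : Fin m),
    κ m x (fun y => area (y a) (y b) (y c)) = area (x a) (x b) (x c)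

/-- A rounding map with a fundamental domain. -/
structure Rd (Γ : Subgroup SL(2, ℝ)) (R : Set (Pl × Pl)) (ρ : ℍ → ℍ) : Prop where
  fd : FDom Γ R
  equiv : ∀ γ : SL(2, ℝ), γ ∈ Γ → ∀ z, ρ (γ • z) = γ • ρ z
  fin : ∀ z, {w | ∃ A ∈ R, w = ρ (sl A • z)}.Finite
  meas : ∀ z w, MeasurableSet {A : Pl × Pl | ρ (sl A • z) = w}

end SimplVol

end S_FY

section S_SG

/-!
# Module SG: planarity, Farey edges do not cross

Write `γ = (p q; r s)`, `α₁ = (act (tR γ) a).1`, `α₂ = (act (tR γ) a).2`, the same with `β, γ, δ` for `b, c, d`. `dt_act`: `dt a b = α₁ β₂ - α₂ β₁` etc.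
* `irr_act`: `act (tR γ) v` satisfies `a v'.1 + b v'.2 = (a p + b r) v.1 + (a q + b s) v.2`, and `(ap + br, aq + bs) ≠ 0` as `γ` is invertible. `cc_ne`: both coordinates of `act (tR γ) v` are nonzero (`(a, b) = (1, 0), (0, 1)`).
* `cc_mul`: `cc (δ * γ) v = cc δ (act (tR γ) v)`. Write `act_mul : act (g * h) u = act g (act h u)`.
* `cc_planar`: `dt b c = β₁ γ₂ - β₂ γ₁`, and `(β₁ γ₂)(β₂ γ₁) = cc b * cc c < 0`, so `0 < dt b c * (β₁ γ₂)`; `dt c a = γ₁ α₂ - γ₂ α₁`, `0 < dt c a * (γ₁ α₂)`. Product: `0 < dt b c * dt c a * (β₁ α₂) * cc c`. The same for `d`: `0 < dt b d * dt d a * (β₁ α₂) * cc d`.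
  Multiply: `0 < (dt b c * dt c a) * (dt b d * dt d a) * (β₁ α₂)² * (cc c * cc d)`.
* `cc_excl`: replace `a, b, c, d` by their images under `γ` and `δ` by `δ γ⁻¹` (`cc_mul`), so assume `γ = 1`: `cc 1 v = v.1 v.2`. Let `δ = (p q; r s)`. If `a, b` have products of coordinates `> 0` and `c, d` have `< 0` (or the other way round, exchange the roles): from `h4`-`h6`:
  `cc δ a * cc δ b < 0` and `cc δ c * cc δ d < 0`. For vectors `u, v` with `u.1 u.2 > 0`, `v.1 v.2 > 0`: all the products `u.i v.j` have the same sign; if `p q ≥ 0` and `r s ≥ 0` then `R₁(u) R₁(v) = p² u₁v₁ + pq (u₁v₂ + u₂v₁) + q² u₂v₂` has (weakly) this sign and so has `R₂(u) R₂(v)`, so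
  `cc δ u * cc δ v ≥ 0`. Hence `p q < 0` or `r s < 0`. For `u.1 u.2 < 0`, `v.1 v.2 < 0`: similarly `p q > 0` or `r s > 0`. So (`pq < 0` and `rs > 0`) or (`pq > 0` and `rs < 0`): `(ps)(qr) = (pq)(rs) < 0`, so `ps`, `qr` are nonzero integers of opposite signs, and `|ps - qr| ≥ 2`, contradiction to `ps - qr = 1`.
-/

set_option autoImplicit false

open scoped BigOperators UpperHalfPlane MatrixGroups

namespace SimplVol

theorem act_mul (g h : SL(2, ℝ)) (u : Pl) : act (g * h) u = act g (act h u) := by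
  unfold act
  ext <;>
  · simp only [Matrix.SpecialLinearGroup.coe_mul, Matrix.mul_apply, Fin.sum_univ_two]
    ring

theorem act_one (u : Pl) : act 1 u = u := by
  unfold act
  ext <;> simp

theorem SG_tR_apply (γ : SL(2, ℤ)) (i j : Fin 2) : (tR γ) i j = ((γ i j : ℤ) : ℝ) := by
  simp [tR]

theorem SG_det (γ : SL(2, ℤ)) : γ 0 0 * γ 1 1 - γ 0 1 * γ 1 0 = 1 := by
  have h := γ.det_coe
  rw [Matrix.det_fin_two] at h
  exact h

theorem irr_act (γ : SL(2, ℤ)) (v : Pl) (hv : Irr v) : Irr (act (tR γ) v) := by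
  intro a b hab h
  have hd := SG_det γ
  simp only [act, SG_tR_apply] at h
  refine hv (a * γ 0 0 + b * γ 1 0) (a * γ 0 1 + b * γ 1 1) ?_ ?_
  · by_contra hcon
    push Not at hcon
    obtain ⟨h1, h2⟩ := hcon
    have ha : a = 0 := by linear_combination γ 1 1 * h1 - γ 1 0 * h2 - a * hd
    have hb : b = 0 := by linear_combination γ 0 0 * h2 - γ 0 1 * h1 - b * hd
    rcases hab with h3 | h3
    · exact h3 ha
    · exact h3 hb
  · push_cast
    linear_combination h

theorem cc_ne (γ : SL(2, ℤ)) (v : Pl) (hv : Irr v) : cc γ v ≠ 0 := by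
  have h := irr_act γ v hv
  unfold cc
  refine mul_ne_zero ?_ ?_
  · have h1 := h 1 0 (Or.inl one_ne_zero)
    intro h2
    apply h1
    push_cast
    rw [h2]
    ring
  · have h1 := h 0 1 (Or.inr one_ne_zero)
    intro h2
    apply h1
    push_cast
    rw [h2]
    ring

theorem cc_mul (δ γ : SL(2, ℤ)) (v : Pl) : cc (δ * γ) v = cc δ (act (tR γ) v) := by
  unfold cc
  rw [map_mul, act_mul]

theorem SG_aux (x1 x2 y1 y2 : ℝ) (h : (x1 * x2) * (y1 * y2) < 0) :
    0 < (x1 * y2 - x2 * y1) * (x1 * y2) := by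
  nlinarith [sq_nonneg (x1 * y2)]

theorem cc_planar (γ : SL(2, ℤ)) (a b c d : Pl) (h1 : 0 < cc γ a * cc γ b)
    (h2 : 0 < cc γ c * cc γ d) (h3 : cc γ a * cc γ c < 0) :
    0 < (dt b c * dt c a) * (dt b d * dt d a) := by
  have hbc0 : dt b c = dt (act (tR γ) b) (act (tR γ) c) := (dt_act _ _ _).symm
  have hca0 : dt c a = dt (act (tR γ) c) (act (tR γ) a) := (dt_act _ _ _).symm
  have hbd0 : dt b d = dt (act (tR γ) b) (act (tR γ) d) := (dt_act _ _ _).symm
  have hda0 : dt d a = dt (act (tR γ) d) (act (tR γ) a) := (dt_act _ _ _).symm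
  rw [hbc0, hca0, hbd0, hda0]
  unfold cc at h1 h2 h3
  generalize act (tR γ) a = A at *
  generalize act (tR γ) b = B at *
  generalize act (tR γ) c = C at *
  generalize act (tR γ) d = D at *
  unfold dt
  have ha0 : A.1 * A.2 ≠ 0 := by
    intro h
    rw [h, zero_mul] at h3
    exact lt_irrefl _ h3
  have hc0 : C.1 * C.2 ≠ 0 := by
    intro h
    rw [h, mul_zero] at h3
    exact lt_irrefl _ h3
  have hbc : (B.1 * B.2) * (C.1 * C.2) < 0 := by
    have h4 : (A.1 * A.2 * (B.1 * B.2)) * (A.1 * A.2 * (C.1 * C.2)) < 0 := mul_neg_of_pos_of_neg h1 h3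
    have h5 : 0 < (A.1 * A.2) ^ 2 := by positivity
    by_contra hcon
    push Not at hcon
    have h6 : 0 ≤ (A.1 * A.2) ^ 2 * ((B.1 * B.2) * (C.1 * C.2)) := mul_nonneg h5.le hcon
    nlinarith
  have had : (A.1 * A.2) * (D.1 * D.2) < 0 := by
    have h4 : (A.1 * A.2 * (C.1 * C.2)) * (C.1 * C.2 * (D.1 * D.2)) < 0 := mul_neg_of_neg_of_pos h3 h2
    have h5 : 0 < (C.1 * C.2) ^ 2 := by positivity
    by_contra hcon
    push Not at hcon
    have h6 : 0 ≤ (C.1 * C.2) ^ 2 * ((A.1 * A.2) * (D.1 * D.2)) := mul_nonneg h5.le hcon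
    nlinarith
  have hbd : (B.1 * B.2) * (D.1 * D.2) < 0 := by
    have h4 : ((B.1 * B.2) * (C.1 * C.2)) * (C.1 * C.2 * (D.1 * D.2)) < 0 := mul_neg_of_neg_of_pos hbc h2
    have h5 : 0 < (C.1 * C.2) ^ 2 := by positivity
    by_contra hcon
    push Not at hcon
    have h6 : 0 ≤ (C.1 * C.2) ^ 2 * ((B.1 * B.2) * (D.1 * D.2)) := mul_nonneg h5.le hcon
    nlinarith
  have k1 := SG_aux B.1 B.2 C.1 C.2 hbc
  have k2 := SG_aux C.1 C.2 A.1 A.2 (by rw [mul_comm]; exact h3)
  have k3 := SG_aux B.1 B.2 D.1 D.2 hbd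
  have k4 := SG_aux D.1 D.2 A.1 A.2 (by rw [mul_comm]; exact had)
  have k5 := mul_pos (mul_pos k1 k2) (mul_pos k3 k4)
  have k6 : 0 < ((B.1 * C.2 - B.2 * C.1) * (C.1 * A.2 - C.2 * A.1) *
      ((B.1 * D.2 - B.2 * D.1) * (D.1 * A.2 - D.2 * A.1))) *
      ((B.1 * A.2) ^ 2 * (C.1 * C.2 * (D.1 * D.2))) := by
    refine lt_of_lt_of_eq k5 ?_
    ring
  have k7 : 0 ≤ (B.1 * A.2) ^ 2 * (C.1 * C.2 * (D.1 * D.2)) :=
    mul_nonneg (sq_nonneg _) h2.le
  by_contra hcon
  push Not at hcon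
  exact absurd (mul_nonpos_of_nonpos_of_nonneg hcon k7) (not_le.2 k6)

theorem SG_pos (p q u1 u2 v1 v2 : ℝ) (hpq : 0 ≤ p * q) (h1 : 0 < u1 * v1) (h2 : 0 < u1 * v2)
    (h3 : 0 < u2 * v1) (h4 : 0 < u2 * v2) : 0 ≤ (p * u1 + q * u2) * (p * v1 + q * v2) := by
  have e : (p * u1 + q * u2) * (p * v1 + q * v2) =
      p ^ 2 * (u1 * v1) + (p * q) * (u1 * v2 + u2 * v1) + q ^ 2 * (u2 * v2) := by ring
  rw [e]
  have := mul_nonneg (sq_nonneg p) h1.le
  have := mul_nonneg (sq_nonneg q) h4.le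
  have := mul_nonneg hpq (add_pos h2 h3).le
  linarith

/-- Two vectors in quadrants of positive product of coordinates. -/
theorem SG_K (p q r s u1 u2 v1 v2 : ℝ) (hpq : 0 ≤ p * q) (hrs : 0 ≤ r * s) (hu : 0 < u1 * u2)
    (hv : 0 < v1 * v2) :
    0 ≤ ((p * u1 + q * u2) * (r * u1 + s * u2)) * ((p * v1 + q * v2) * (r * v1 + s * v2)) := by
  have e : ((p * u1 + q * u2) * (r * u1 + s * u2)) * ((p * v1 + q * v2) * (r * v1 + s * v2)) =
      ((p * u1 + q * u2) * (p * v1 + q * v2)) * ((r * u1 + s * u2) * (r * v1 + s * v2)) := by ring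
  rw [e]
  rcases lt_or_gt_of_ne (left_ne_zero_of_mul hu.ne') with hu1 | hu1 <;>
    rcases lt_or_gt_of_ne (left_ne_zero_of_mul hv.ne') with hv1 | hv1
  · have hu2 : u2 < 0 := by nlinarith
    have hv2 : v2 < 0 := by nlinarith
    exact mul_nonneg
      (SG_pos p q u1 u2 v1 v2 hpq (mul_pos_of_neg_of_neg hu1 hv1) (mul_pos_of_neg_of_neg hu1 hv2)
        (mul_pos_of_neg_of_neg hu2 hv1) (mul_pos_of_neg_of_neg hu2 hv2))
      (SG_pos r s u1 u2 v1 v2 hrs (mul_pos_of_neg_of_neg hu1 hv1) (mul_pos_of_neg_of_neg hu1 hv2)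
        (mul_pos_of_neg_of_neg hu2 hv1) (mul_pos_of_neg_of_neg hu2 hv2))
  · have hu2 : u2 < 0 := by nlinarith
    have hv2 : 0 < v2 := by nlinarith
    have a1 := SG_pos p q (-u1) (-u2) v1 v2 hpq (mul_pos (neg_pos.2 hu1) hv1)
      (mul_pos (neg_pos.2 hu1) hv2) (mul_pos (neg_pos.2 hu2) hv1) (mul_pos (neg_pos.2 hu2) hv2)
    have a2 := SG_pos r s (-u1) (-u2) v1 v2 hrs (mul_pos (neg_pos.2 hu1) hv1)
      (mul_pos (neg_pos.2 hu1) hv2) (mul_pos (neg_pos.2 hu2) hv1) (mul_pos (neg_pos.2 hu2) hv2)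
    refine le_of_le_of_eq (mul_nonneg a1 a2) ?_
    ring
  · have hu2 : 0 < u2 := by nlinarith
    have hv2 : v2 < 0 := by nlinarith
    have a1 := SG_pos p q u1 u2 (-v1) (-v2) hpq (mul_pos hu1 (neg_pos.2 hv1))
      (mul_pos hu1 (neg_pos.2 hv2)) (mul_pos hu2 (neg_pos.2 hv1)) (mul_pos hu2 (neg_pos.2 hv2))
    have a2 := SG_pos r s u1 u2 (-v1) (-v2) hrs (mul_pos hu1 (neg_pos.2 hv1))
      (mul_pos hu1 (neg_pos.2 hv2)) (mul_pos hu2 (neg_pos.2 hv1)) (mul_pos hu2 (neg_pos.2 hv2))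
    refine le_of_le_of_eq (mul_nonneg a1 a2) ?_
    ring
  · have hu2 : 0 < u2 := by nlinarith
    have hv2 : 0 < v2 := by nlinarith
    exact mul_nonneg
      (SG_pos p q u1 u2 v1 v2 hpq (mul_pos hu1 hv1) (mul_pos hu1 hv2) (mul_pos hu2 hv1)
        (mul_pos hu2 hv2))
      (SG_pos r s u1 u2 v1 v2 hrs (mul_pos hu1 hv1) (mul_pos hu1 hv2) (mul_pos hu2 hv1)
        (mul_pos hu2 hv2))

theorem SG_K' (p q r s u1 u2 v1 v2 : ℝ) (hpq : p * q ≤ 0) (hrs : r * s ≤ 0) (hu : u1 * u2 < 0)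
    (hv : v1 * v2 < 0) :
    0 ≤ ((p * u1 + q * u2) * (r * u1 + s * u2)) * ((p * v1 + q * v2) * (r * v1 + s * v2)) := by
  have h := SG_K p (-q) r (-s) u1 (-u2) v1 (-v2) (by linarith) (by linarith) (by linarith)
    (by linarith)
  refine le_of_le_of_eq h ?_
  ring

theorem SG_sgn3 (x y z w : ℝ) (h4 : 0 < x * z) (h5 : 0 < y * w) (h6 : x * y < 0) : z * w < 0 := by
  have h7 : (x * z) * (y * w) > 0 := mul_pos h4 h5
  have h8 : 0 < (x * y) * (z * w) := by
    refine lt_of_lt_of_eq h7 ?_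
    ring
  by_contra hcon
  push Not at hcon
  exact absurd (mul_nonpos_of_nonpos_of_nonneg h6.le hcon) (not_le.2 h8)

theorem SG_core (δ : SL(2, ℤ)) (A B C D : Pl) (h1 : 0 < (A.1 * A.2) * (B.1 * B.2))
    (h2 : 0 < (C.1 * C.2) * (D.1 * D.2)) (h3 : (A.1 * A.2) * (C.1 * C.2) < 0)
    (hA : 0 < A.1 * A.2) (h6 : cc δ A * cc δ B < 0) (h7 : cc δ C * cc δ D < 0) : False := by
  have hB : 0 < B.1 * B.2 := (mul_pos_iff_of_pos_left hA).1 h1
  have hC : C.1 * C.2 < 0 := by
    by_contra hcon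
    push Not at hcon
    exact absurd (mul_nonneg hA.le hcon) (not_le.2 h3)
  have hD : D.1 * D.2 < 0 := by
    by_contra hcon
    push Not at hcon
    exact absurd (mul_nonpos_of_nonpos_of_nonneg hC.le hcon) (not_le.2 h2)
  have hd := SG_det δ
  simp only [cc, act, SG_tR_apply] at h6 h7
  generalize δ 0 0 = p at *
  generalize δ 0 1 = q at *
  generalize δ 1 0 = r at *
  generalize δ 1 1 = s at *
  have k1 : ¬ (0 ≤ p * q ∧ 0 ≤ r * s) := by
    rintro ⟨e1, e2⟩
    have e1' : (0 : ℝ) ≤ (p : ℝ) * q := by exact_mod_cast e1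
    have e2' : (0 : ℝ) ≤ (r : ℝ) * s := by exact_mod_cast e2
    exact absurd (SG_K p q r s A.1 A.2 B.1 B.2 e1' e2' hA hB) (not_le.2 h6)
  have k2 : ¬ (p * q ≤ 0 ∧ r * s ≤ 0) := by
    rintro ⟨e1, e2⟩
    have e1' : (p : ℝ) * q ≤ 0 := by exact_mod_cast e1
    have e2' : (r : ℝ) * s ≤ 0 := by exact_mod_cast e2
    exact absurd (SG_K' p q r s C.1 C.2 D.1 D.2 e1' e2' hC hD) (not_le.2 h7)
  have k3 : (p * q) * (r * s) < 0 := by
    rcases lt_trichotomy (p * q) 0 with e | e | e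
    · have e2 : 0 < r * s := by
        by_contra hcon
        push Not at hcon
        exact k2 ⟨e.le, hcon⟩
      exact mul_neg_of_neg_of_pos e e2
    · exfalso
      rcases le_total 0 (r * s) with e2 | e2
      · exact k1 ⟨e.ge, e2⟩
      · exact k2 ⟨e.le, e2⟩
    · have e2 : r * s < 0 := by
        by_contra hcon
        push Not at hcon
        exact k1 ⟨e.le, hcon⟩
      exact mul_neg_of_pos_of_neg e e2
  have k4 : (q * r + 1) * (q * r) < 0 := by
    have e : p * s = q * r + 1 := by linarith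
    rw [← e]
    refine lt_of_eq_of_lt ?_ k3
    ring
  rcases le_or_gt 0 (q * r) with e | e
  · exact absurd (mul_nonneg (by linarith) e) (not_le.2 k4)
  · exact absurd (mul_nonneg_of_nonpos_of_nonpos (by linarith [Int.add_one_le_iff.2 e]) e.le)
      (not_le.2 k4)

theorem cc_excl (γ δ : SL(2, ℤ)) (a b c d : Pl) (h1 : 0 < cc γ a * cc γ b)
    (h2 : 0 < cc γ c * cc γ d) (h3 : cc γ a * cc γ c < 0) (h4 : 0 < cc δ a * cc δ c)
    (h5 : 0 < cc δ b * cc δ d) (h6 : cc δ a * cc δ b < 0) : False := by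
  have e : ∀ v, cc δ v = cc (δ * γ⁻¹) (act (tR γ) v) := by
    intro v
    rw [← cc_mul, inv_mul_cancel_right]
  have h7 := SG_sgn3 _ _ _ _ h4 h5 h6
  rw [e a, e b] at h6
  rw [e c, e d] at h7
  unfold cc at h1 h2 h3
  have hne : (act (tR γ) a).1 * (act (tR γ) a).2 ≠ 0 := by
    intro h
    rw [h, zero_mul] at h3
    exact lt_irrefl _ h3
  rcases lt_or_gt_of_ne hne with ha | ha
  · refine SG_core (δ * γ⁻¹) (act (tR γ) c) (act (tR γ) d) (act (tR γ) a) (act (tR γ) b) h2 h1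
      (by rw [mul_comm]; exact h3) ?_ h7 h6
    by_contra hcon
    push Not at hcon
    exact absurd (mul_nonneg_of_nonpos_of_nonpos ha.le hcon) (not_le.2 h3)
  · exact SG_core (δ * γ⁻¹) (act (tR γ) a) (act (tR γ) b) (act (tR γ) c) (act (tR γ) d) h1 h2 h3 ha
      h6 h7

end SimplVol

end S_SG

section S_SR

/-!
# Module SR: Euclid's algorithm for two vectors

Call a vector positive if the product of its coordinates is `> 0`, negative if it is `< 0`. Work with positive `b, c` of irrational slope, `dt b c ≠ 0`. Up to changing signs of `b` and `c` (everything in `sep2` is unchanged, `act` is linear; or work with squares/absolute values) both coordinates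
of `b` and `c` are `> 0`.
`sep2_aux`, by induction on `N : ℕ`: for `b, c` with positive coordinates, irrational slope, `dt b c ≠ 0` and real `P, Q ≥ 1` with `(P b.1 + Q b.2) * (P c.1 + Q c.2) ≤ (P Q + N) * |dt b c|` (so after `N` steps one is done) the conclusion holds. `N = 0`:
`(P b.1 + Q b.2)(P c.1 + Q c.2) > P Q (b.1 c.2 + b.2 c.1) ≥ P Q |dt b c|` (as `P² b.1 c.1 > 0`), contradiction. Step: `b.1 ≠ b.2`, `c.1 ≠ c.2` (irrational). If `b.1 < b.2` and `c.2 < c.1`, or the other way round: `γ = 1`. If `b.1 > b.2` and `c.1 > c.2`: apply `T = (1 -1; 0 1)`: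
`b' = (b.1 - b.2, b.2)`, `c' = (c.1 - c.2, c.2)`, `P' = P`, `Q' = P + Q`: `P' b'.1 + Q' b'.2 = P b.1 + Q b.2`, `dt b' c' = dt b c`, `P'Q' = PQ + P² ≥ PQ + 1`; induction gives `γ'`, take `γ = γ' * T`; a negative vector `a` (`a.1 a.2 < 0`) is mapped by `T` to a negative vector (`(a.1 - a.2) a.2 = a.1 a.2 - a.2² < 0`).
If `b.1 < b.2` and `c.1 < c.2`: apply `U = (1 0; -1 1)`: `b' = (b.1, b.2 - b.1)`, `P' = P + Q`, `Q' = Q`; same. (`irr_act`, `cc_mul`, `act_mul`.) Start: `P = Q = 1`, `N` large (Archimedean, `|dt b c| > 0`).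
-/

set_option autoImplicit false

open scoped BigOperators UpperHalfPlane MatrixGroups

namespace SimplVol

theorem SR_neg (g : SL(2, ℝ)) (v : Pl) : act g (-v) = -act g v := by
  refine Prod.ext ?_ ?_
  · show g 0 0 * (-v.1) + g 0 1 * (-v.2) = -(g 0 0 * v.1 + g 0 1 * v.2)
    ring
  · show g 1 0 * (-v.1) + g 1 1 * (-v.2) = -(g 1 0 * v.1 + g 1 1 * v.2)
    ring

def SR_T : SL(2, ℤ) := ⟨!![1, -1; 0, 1], by simp [Matrix.det_fin_two_of]⟩

def SR_U : SL(2, ℤ) := ⟨!![1, 0; -1, 1], by simp [Matrix.det_fin_two_of]⟩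

theorem SR_tR (g : SL(2, ℤ)) (i j : Fin 2) : (tR g) i j = ((g i j : ℤ) : ℝ) := rfl

theorem SR_actT (v : Pl) : act (tR SR_T) v = (v.1 - v.2, v.2) := by
  refine Prod.ext ?_ ?_
  · show (tR SR_T) 0 0 * v.1 + (tR SR_T) 0 1 * v.2 = v.1 - v.2
    rw [SR_tR, SR_tR]
    have h1 : SR_T 0 0 = 1 := rfl
    have h2 : SR_T 0 1 = -1 := rfl
    rw [h1, h2]; push_cast; ring
  · show (tR SR_T) 1 0 * v.1 + (tR SR_T) 1 1 * v.2 = v.2
    rw [SR_tR, SR_tR]
    have h1 : SR_T 1 0 = 0 := rfl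
    have h2 : SR_T 1 1 = 1 := rfl
    rw [h1, h2]; push_cast; ring

theorem SR_actU (v : Pl) : act (tR SR_U) v = (v.1, v.2 - v.1) := by
  refine Prod.ext ?_ ?_
  · show (tR SR_U) 0 0 * v.1 + (tR SR_U) 0 1 * v.2 = v.1
    rw [SR_tR, SR_tR]
    have h1 : SR_U 0 0 = 1 := rfl
    have h2 : SR_U 0 1 = 0 := rfl
    rw [h1, h2]; push_cast; ring
  · show (tR SR_U) 1 0 * v.1 + (tR SR_U) 1 1 * v.2 = v.2 - v.1
    rw [SR_tR, SR_tR]
    have h1 : SR_U 1 0 = -1 := rfl
    have h2 : SR_U 1 1 = 1 := rfl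
    rw [h1, h2]; push_cast; ring

/-- The conclusion of `sep2`. -/
def SR_C (b c : Pl) (γ : SL(2, ℤ)) : Prop :=
  0 < cc γ b ∧ 0 < cc γ c ∧ (∀ a : Pl, a.1 * a.2 < 0 → cc γ a < 0) ∧
      (((act (tR γ) b).1 ^ 2 < (act (tR γ) b).2 ^ 2 ∧
          (act (tR γ) c).2 ^ 2 < (act (tR γ) c).1 ^ 2) ∨
        ((act (tR γ) c).1 ^ 2 < (act (tR γ) c).2 ^ 2 ∧
          (act (tR γ) b).2 ^ 2 < (act (tR γ) b).1 ^ 2))

theorem SR_step (b c : Pl) (γ δ : SL(2, ℤ)) (h : SR_C (act (tR δ) b) (act (tR δ) c) γ)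
    (hδ : ∀ a : Pl, a.1 * a.2 < 0 → (act (tR δ) a).1 * (act (tR δ) a).2 < 0) :
    SR_C b c (γ * δ) := by
  obtain ⟨h1, h2, h3, h4⟩ := h
  refine ⟨?_, ?_, ?_, ?_⟩
  · rw [cc_mul]; exact h1
  · rw [cc_mul]; exact h2
  · intro a ha
    rw [cc_mul]
    exact h3 _ (hδ a ha)
  · rw [map_mul, act_mul, act_mul]
    exact h4

theorem SR_one (v : Pl) : act (tR 1) v = v := by
  rw [map_one, act_one]

theorem SR_ne (v : Pl) (hv : Irr v) : v.1 ≠ v.2 := by
  intro h
  have := hv 1 (-1) (Or.inl one_ne_zero)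
  apply this
  push_cast
  rw [h]; ring

theorem SR_aux (N : ℕ) : ∀ (b c : Pl) (P Q : ℝ), 0 < b.1 → 0 < b.2 → 0 < c.1 → 0 < c.2 →
    Irr b → Irr c → dt b c ≠ 0 → 1 ≤ P → 1 ≤ Q →
    (P * b.1 + Q * b.2) * (P * c.1 + Q * c.2) ≤ (P * Q + N) * |dt b c| →
    ∃ γ : SL(2, ℤ), SR_C b c γ := by
  induction N with
  | zero =>
    intro b c P Q hb1 hb2 hc1 hc2 _ _ _ hP hQ h
    exfalso
    have h1 : |dt b c| ≤ b.1 * c.2 + b.2 * c.1 := by
      have e1 : 0 < b.1 * c.2 := mul_pos hb1 hc2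
      have e2 : 0 < b.2 * c.1 := mul_pos hb2 hc1
      unfold dt
      rw [abs_le]
      constructor <;> linarith
    have hP0 : 0 < P := by linarith
    have hQ0 : 0 < Q := by linarith
    have h2 : P * Q * |dt b c| ≤ P * Q * (b.1 * c.2 + b.2 * c.1) :=
      mul_le_mul_of_nonneg_left h1 (mul_pos hP0 hQ0).le
    have h3 : 0 < P * P * (b.1 * c.1) := mul_pos (mul_pos hP0 hP0) (mul_pos hb1 hc1)
    have h4 : 0 < Q * Q * (b.2 * c.2) := mul_pos (mul_pos hQ0 hQ0) (mul_pos hb2 hc2)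
    have e : (P * b.1 + Q * b.2) * (P * c.1 + Q * c.2) =
        P * P * (b.1 * c.1) + P * Q * (b.1 * c.2 + b.2 * c.1) + Q * Q * (b.2 * c.2) := by ring
    rw [e] at h
    push_cast at h
    rw [add_zero] at h
    linarith
  | succ N ih =>
    intro b c P Q hb1 hb2 hc1 hc2 hb hc hd hP hQ h
    have hdp : 0 < |dt b c| := abs_pos.2 hd
    have key : ∀ P' Q' : ℝ, P * Q + 1 ≤ P' * Q' →
        (P * Q + ((N + 1 : ℕ) : ℝ)) * |dt b c| ≤ (P' * Q' + N) * |dt b c| := by
      intro P' Q' hPQ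
      refine mul_le_mul_of_nonneg_right ?_ hdp.le
      push_cast
      linarith
    rcases lt_or_gt_of_ne (SR_ne b hb) with hb' | hb'
    · rcases lt_or_gt_of_ne (SR_ne c hc) with hc' | hc'
      · -- U
        have hd' : dt (act (tR SR_U) b) (act (tR SR_U) c) = dt b c := dt_act _ _ _
        have hb3 := irr_act SR_U b hb
        have hc3 := irr_act SR_U c hc
        have hPQ : P * Q + 1 ≤ (P + Q) * Q := by nlinarith
        have h' := h.trans (key _ _ hPQ)
        obtain ⟨γ, hγ⟩ := ih (act (tR SR_U) b) (act (tR SR_U) c) (P + Q) Q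
          (by rw [SR_actU]; exact hb1) (by rw [SR_actU]; exact sub_pos.2 hb')
          (by rw [SR_actU]; exact hc1) (by rw [SR_actU]; exact sub_pos.2 hc') hb3 hc3
          (by rw [hd']; exact hd) (by linarith) hQ
          (by
            rw [hd', SR_actU, SR_actU]
            have e1 : (P + Q) * b.1 + Q * (b.2 - b.1) = P * b.1 + Q * b.2 := by ring
            have e2 : (P + Q) * c.1 + Q * (c.2 - c.1) = P * c.1 + Q * c.2 := by ring
            rw [e1, e2]
            exact h')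
        refine ⟨γ * SR_U, SR_step b c γ SR_U hγ ?_⟩
        intro a ha
        rw [SR_actU]
        show a.1 * (a.2 - a.1) < 0
        nlinarith [sq_nonneg a.1]
      · refine ⟨1, ?_, ?_, ?_, Or.inl ?_⟩
        · show 0 < (act (tR 1) b).1 * (act (tR 1) b).2
          rw [SR_one]; exact mul_pos hb1 hb2
        · show 0 < (act (tR 1) c).1 * (act (tR 1) c).2
          rw [SR_one]; exact mul_pos hc1 hc2
        · intro a ha
          show (act (tR 1) a).1 * (act (tR 1) a).2 < 0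
          rw [SR_one]; exact ha
        · rw [SR_one, SR_one]
          exact ⟨pow_lt_pow_left₀ hb' hb1.le two_ne_zero, pow_lt_pow_left₀ hc' hc2.le two_ne_zero⟩
    · rcases lt_or_gt_of_ne (SR_ne c hc) with hc' | hc'
      · refine ⟨1, ?_, ?_, ?_, Or.inr ?_⟩
        · show 0 < (act (tR 1) b).1 * (act (tR 1) b).2
          rw [SR_one]; exact mul_pos hb1 hb2
        · show 0 < (act (tR 1) c).1 * (act (tR 1) c).2
          rw [SR_one]; exact mul_pos hc1 hc2
        · intro a ha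
          show (act (tR 1) a).1 * (act (tR 1) a).2 < 0
          rw [SR_one]; exact ha
        · rw [SR_one, SR_one]
          exact ⟨pow_lt_pow_left₀ hc' hc1.le two_ne_zero, pow_lt_pow_left₀ hb' hb2.le two_ne_zero⟩
      · -- T
        have hd' : dt (act (tR SR_T) b) (act (tR SR_T) c) = dt b c := dt_act _ _ _
        have hb3 := irr_act SR_T b hb
        have hc3 := irr_act SR_T c hc
        have hPQ : P * Q + 1 ≤ P * (P + Q) := by nlinarith
        have h' := h.trans (key _ _ hPQ)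
        obtain ⟨γ, hγ⟩ := ih (act (tR SR_T) b) (act (tR SR_T) c) P (P + Q)
          (by rw [SR_actT]; exact sub_pos.2 hb') (by rw [SR_actT]; exact hb2)
          (by rw [SR_actT]; exact sub_pos.2 hc') (by rw [SR_actT]; exact hc2) hb3 hc3
          (by rw [hd']; exact hd) hP (by linarith)
          (by
            rw [hd', SR_actT, SR_actT]
            have e1 : P * (b.1 - b.2) + (P + Q) * b.2 = P * b.1 + Q * b.2 := by ring
            have e2 : P * (c.1 - c.2) + (P + Q) * c.2 = P * c.1 + Q * c.2 := by ring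
            rw [e1, e2]
            exact h')
        refine ⟨γ * SR_T, SR_step b c γ SR_T hγ ?_⟩
        intro a ha
        rw [SR_actT]
        show (a.1 - a.2) * a.2 < 0
        nlinarith [sq_nonneg a.2]

theorem SR_sign (b : Pl) (hb : Irr b) (hb0 : 0 < b.1 * b.2) :
    ∃ b' : Pl, 0 < b'.1 ∧ 0 < b'.2 ∧ Irr b' ∧ (b' = b ∨ b' = -b) := by
  rcases lt_trichotomy b.1 0 with h | h | h
  · have h2 : b.2 < 0 := by
      by_contra hc
      have := mul_nonpos_of_nonpos_of_nonneg h.le (not_lt.1 hc)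
      linarith
    refine ⟨-b, neg_pos.2 h, neg_pos.2 h2, ?_, Or.inr rfl⟩
    intro m n hmn h3
    apply hb m n hmn
    have h4 : (m : ℝ) * (-b.1) + (n : ℝ) * (-b.2) = 0 := h3
    linarith
  · rw [h, zero_mul] at hb0
    exact absurd hb0 (lt_irrefl _)
  · have h2 : 0 < b.2 := by
      by_contra hc
      have := mul_nonpos_of_nonneg_of_nonpos h.le (not_lt.1 hc)
      linarith
    exact ⟨b, h, h2, hb, Or.inl rfl⟩

theorem SR_cc_neg (γ : SL(2, ℤ)) (v : Pl) : cc γ (-v) = cc γ v := by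
  unfold cc
  rw [SR_neg]
  show (-(act (tR γ) v).1) * (-(act (tR γ) v).2) = _
  ring

theorem SR_eq (γ : SL(2, ℤ)) (b b' : Pl) (h : b' = b ∨ b' = -b) :
    cc γ b' = cc γ b ∧ (act (tR γ) b').1 ^ 2 = (act (tR γ) b).1 ^ 2 ∧
      (act (tR γ) b').2 ^ 2 = (act (tR γ) b).2 ^ 2 := by
  rcases h with rfl | rfl
  · exact ⟨rfl, rfl, rfl⟩
  · refine ⟨SR_cc_neg γ b, ?_, ?_⟩
    · rw [SR_neg]
      show (-(act (tR γ) b).1) ^ 2 = _
      ring
    · rw [SR_neg]
      show (-(act (tR γ) b).2) ^ 2 = _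
      ring

theorem sep2 (b c : Pl) (hb : Irr b) (hc : Irr c) (hbc : dt b c ≠ 0) (hb0 : 0 < b.1 * b.2)
    (hc0 : 0 < c.1 * c.2) :
    ∃ γ : SL(2, ℤ), 0 < cc γ b ∧ 0 < cc γ c ∧ (∀ a : Pl, a.1 * a.2 < 0 → cc γ a < 0) ∧
      (((act (tR γ) b).1 ^ 2 < (act (tR γ) b).2 ^ 2 ∧
          (act (tR γ) c).2 ^ 2 < (act (tR γ) c).1 ^ 2) ∨
        ((act (tR γ) c).1 ^ 2 < (act (tR γ) c).2 ^ 2 ∧
          (act (tR γ) b).2 ^ 2 < (act (tR γ) b).1 ^ 2)) := by
  obtain ⟨b', hb1, hb2, hb3, hb4⟩ := SR_sign b hb hb0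
  obtain ⟨c', hc1, hc2, hc3, hc4⟩ := SR_sign c hc hc0
  have hd : dt b' c' ≠ 0 := by
    have e1 : dt (-b) c = -dt b c := by
      show (-b.1) * c.2 - (-b.2) * c.1 = -(b.1 * c.2 - b.2 * c.1)
      ring
    have e2 : dt b (-c) = -dt b c := by
      show b.1 * (-c.2) - b.2 * (-c.1) = -(b.1 * c.2 - b.2 * c.1)
      ring
    have e3 : dt (-b) (-c) = dt b c := by
      show (-b.1) * (-c.2) - (-b.2) * (-c.1) = (b.1 * c.2 - b.2 * c.1)
      ring
    rcases hb4 with rfl | rfl <;> rcases hc4 with rfl | rfl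
    · exact hbc
    · rw [e2]; exact neg_ne_zero.2 hbc
    · rw [e1]; exact neg_ne_zero.2 hbc
    · rw [e3]; exact hbc
  have hdp : 0 < |dt b' c'| := abs_pos.2 hd
  obtain ⟨N, hN⟩ := exists_nat_ge ((1 * b'.1 + 1 * b'.2) * (1 * c'.1 + 1 * c'.2) / |dt b' c'|)
  rw [div_le_iff₀ hdp] at hN
  obtain ⟨γ, g1, g2, g3, g4⟩ := SR_aux N b' c' 1 1 hb1 hb2 hc1 hc2 hb3 hc3 hd le_rfl le_rfl (by
    refine hN.trans (mul_le_mul_of_nonneg_right ?_ hdp.le)
    linarith)
  obtain ⟨b5, b6, b7⟩ := SR_eq γ b b' hb4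
  obtain ⟨c5, c6, c7⟩ := SR_eq γ c c' hc4
  rw [b5] at g1
  rw [c5] at g2
  rw [b6, b7, c6, c7] at g4
  exact ⟨γ, g1, g2, g3, g4⟩

end SimplVol

end S_SR

section S_SR2

/-!
# Module SR2: four lines are separated by a Farey edge

For a vector `v` of irrational slope let `arc v = 0` if `v.1 v.2 < 0`, `1` if `v.1 v.2 > 0` and `v.1² < v.2²`, `2` if `v.1 v.2 > 0` and `v.2² < v.1²` (no other case: `v.1² = v.2²` would be a rational slope). Edges: with `ε₀ = 1`, `ε₁ = (1 0; -1 1)`, `ε₂ = (1 -1; 0 1)`: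
`cc ε₀ v < 0` iff `arc v = 0`; `cc ε₁ v = v.1 (v.2 - v.1) > 0` iff `arc v = 1`; `cc ε₂ v = (v.1 - v.2) v.2 > 0` iff `arc v = 2`. So if exactly two of the four vectors `act (tR γ) a, …` have `arc = k`, then `ε_k * γ` separates the four vectors in two pairs (`res_of_arc`; finite case check).
Proof of `farey_res`. `S = (0 -1; 1 0)`: `cc (S γ) v = - cc γ v`.
1. Among the four vectors two have the same sign of `v.1 v.2`; applying `1` or `S` we may assume that two of them, say `x, y`, are positive. (Write the statement symmetrically for a function `v : Fin 4 → Pl` with pairwise independent values, and conclusion: there are `γ` and a two-element subset/`i ≠ j` such that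
`cc γ (v i)`, `cc γ (v j)` have the same sign and the other two have the opposite sign; then translate to the three cases at the end by `decide`-like case analysis.)
2. `sep2` for `x, y` gives `γ` with `x, y` in the arcs `1` and `2` (one in each). Let `n₀, n₁, n₂` be the numbers of the four vectors in the arcs (`n₁, n₂ ≥ 1`, sum `4`). If one of them is `2`: done. Otherwise `(n₀, n₁, n₂) = (0, 1, 3)` or `(0, 3, 1)`.
3. So one of the arcs `k = 1, 2` contains three vectors and the other arc one. With `ε_k γ` the three are positive and the remaining one, `a`, is negative. Apply `sep2` to two of the three positive ones: now `a` is in arc `0`, the two are in arcs `1` and `2`, the fourth vector is somewhere, so some arc contains exactly two: done.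
-/

set_option autoImplicit false

open scoped BigOperators UpperHalfPlane MatrixGroups

namespace SimplVol

/-- The arc of a vector. -/
private noncomputable def SR2_arc (u : Pl) : Fin 3 :=
  if u.1 * u.2 < 0 then 0 else if u.1 ^ 2 < u.2 ^ 2 then 1 else 2

private def SR2_e1 : SL(2, ℤ) := ⟨!![1, 0; -1, 1], by simp [Matrix.det_fin_two_of]⟩
private def SR2_e2 : SL(2, ℤ) := ⟨!![1, -1; 0, 1], by simp [Matrix.det_fin_two_of]⟩
private def SR2_S : SL(2, ℤ) := ⟨!![0, -1; 1, 0], by simp [Matrix.det_fin_two_of]⟩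

private theorem SR2_tR (g : SL(2, ℤ)) (i j : Fin 2) : (tR g) i j = ((g i j : ℤ) : ℝ) := rfl

private theorem SR2_cc1 (u : Pl) : cc SR2_e1 u = u.1 * (u.2 - u.1) := by
  have h1 : SR2_e1 0 0 = 1 := rfl
  have h2 : SR2_e1 0 1 = 0 := rfl
  have h3 : SR2_e1 1 0 = -1 := rfl
  have h4 : SR2_e1 1 1 = 1 := rfl
  simp only [cc, act, SR2_tR, h1, h2, h3, h4]
  push_cast
  ring

private theorem SR2_cc2 (u : Pl) : cc SR2_e2 u = (u.1 - u.2) * u.2 := by
  have h1 : SR2_e2 0 0 = 1 := rfl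
  have h2 : SR2_e2 0 1 = -1 := rfl
  have h3 : SR2_e2 1 0 = 0 := rfl
  have h4 : SR2_e2 1 1 = 1 := rfl
  simp only [cc, act, SR2_tR, h1, h2, h3, h4]
  push_cast
  ring

private theorem SR2_ccS (u : Pl) : cc SR2_S u = - (u.1 * u.2) := by
  have h1 : SR2_S 0 0 = 0 := rfl
  have h2 : SR2_S 0 1 = -1 := rfl
  have h3 : SR2_S 1 0 = 1 := rfl
  have h4 : SR2_S 1 1 = 0 := rfl
  simp only [cc, act, SR2_tR, h1, h2, h3, h4]
  push_cast
  ring

private theorem SR2_irr_ne {u : Pl} (h : Irr u) : u.1 ≠ 0 ∧ u.2 ≠ 0 ∧ u.1 ≠ u.2 ∧ u.1 ≠ -u.2 := by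
  refine ⟨?_, ?_, ?_, ?_⟩
  · have := h 1 0 (Or.inl one_ne_zero)
    simpa using this
  · have := h 0 1 (Or.inr one_ne_zero)
    simpa using this
  · have := h 1 (-1) (Or.inl one_ne_zero)
    intro h1
    apply this
    push_cast
    linarith
  · have := h 1 1 (Or.inl one_ne_zero)
    intro h1
    apply this
    push_cast
    linarith

private theorem SR2_arc0 {u : Pl} : u.1 * u.2 < 0 ↔ SR2_arc u = 0 := by
  unfold SR2_arc
  by_cases h : u.1 * u.2 < 0
  · simp [h]
  · rw [if_neg h]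
    constructor
    · intro h1; exact absurd h1 h
    · intro h1
      split_ifs at h1 <;> exact absurd h1 (by decide)

private theorem SR2_arc1 {u : Pl} (h : Irr u) : 0 < u.1 * (u.2 - u.1) ↔ SR2_arc u = 1 := by
  obtain ⟨h1, h2, h3, h4⟩ := SR2_irr_ne h
  unfold SR2_arc
  by_cases hn : u.1 * u.2 < 0
  · rw [if_pos hn]
    constructor
    · intro h5; nlinarith [sq_nonneg u.1]
    · intro h5; exact absurd h5 (by decide)
  · rw [if_neg hn]
    by_cases hs : u.1 ^ 2 < u.2 ^ 2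
    · rw [if_pos hs]
      refine ⟨fun _ => rfl, fun _ => ?_⟩
      have hp : 0 < u.1 * u.2 := lt_of_le_of_ne (not_lt.1 hn) (Ne.symm (mul_ne_zero h1 h2))
      have h5 : 0 < u.1 ^ 2 := by positivity
      by_contra h6
      have h7 : u.1 * u.2 ≤ u.1 ^ 2 := by nlinarith
      nlinarith [mul_pos hp h5]
    · rw [if_neg hs]
      constructor
      · intro h5
        exfalso
        have h6 : 0 < u.1 ^ 2 := by positivity
        have h7 : u.1 ^ 2 < u.1 * u.2 := by nlinarith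
        apply hs
        have h8 : (u.1 ^ 2) ^ 2 < (u.1 * u.2) ^ 2 := by
          apply pow_lt_pow_left₀ h7 h6.le two_ne_zero
        have h9 : u.1 ^ 2 * u.1 ^ 2 < u.1 ^ 2 * u.2 ^ 2 := by nlinarith
        exact lt_of_mul_lt_mul_left h9 h6.le
      · intro h5; exact absurd h5 (by decide)

private theorem SR2_arc2 {u : Pl} (h : Irr u) : 0 < (u.1 - u.2) * u.2 ↔ SR2_arc u = 2 := by
  obtain ⟨h1, h2, h3, h4⟩ := SR2_irr_ne h
  have hne : u.1 ^ 2 ≠ u.2 ^ 2 := by
    intro h5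
    rcases sq_eq_sq_iff_eq_or_eq_neg.1 h5 with h6 | h6
    · exact h3 h6
    · exact h4 h6
  unfold SR2_arc
  by_cases hn : u.1 * u.2 < 0
  · rw [if_pos hn]
    constructor
    · intro h5; nlinarith [sq_nonneg u.2]
    · intro h5; exact absurd h5 (by decide)
  · rw [if_neg hn]
    by_cases hs : u.1 ^ 2 < u.2 ^ 2
    · rw [if_pos hs]
      constructor
      · intro h5
        exfalso
        have h6 : 0 < u.2 ^ 2 := by positivity
        have h7 : u.2 ^ 2 < u.1 * u.2 := by nlinarith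
        have h8 : (u.2 ^ 2) ^ 2 < (u.1 * u.2) ^ 2 := by
          apply pow_lt_pow_left₀ h7 h6.le two_ne_zero
        have h9 : u.2 ^ 2 * u.2 ^ 2 < u.2 ^ 2 * u.1 ^ 2 := by nlinarith
        have := lt_of_mul_lt_mul_left h9 h6.le
        linarith
      · intro h5; exact absurd h5 (by decide)
    · rw [if_neg hs]
      refine ⟨fun _ => rfl, fun _ => ?_⟩
      have hs' : u.2 ^ 2 < u.1 ^ 2 := lt_of_le_of_ne (not_lt.1 hs) (Ne.symm hne)
      have hp : 0 < u.1 * u.2 := lt_of_le_of_ne (not_lt.1 hn) (Ne.symm (mul_ne_zero h1 h2))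
      have h5 : 0 < u.2 ^ 2 := by positivity
      by_contra h6
      have h7 : u.1 * u.2 ≤ u.2 ^ 2 := by nlinarith
      nlinarith [mul_pos hp h5]

private theorem SR2_two {v : Fin 4 → Pl} (hI : ∀ i, Irr (v i)) (γ : SL(2, ℤ)) (k : Fin 3)
    (hk : (Finset.univ.filter fun i => SR2_arc (act (tR γ) (v i)) = k).card = 2) :
    ∃ δ : SL(2, ℤ), (Finset.univ.filter fun i => 0 < cc δ (v i)).card = 2 := by
  have hI' : ∀ i, Irr (act (tR γ) (v i)) := fun i => irr_act γ _ (hI i)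
  fin_cases k
  · refine ⟨γ, ?_⟩
    have h1 : (Finset.univ.filter fun i => 0 < cc γ (v i)) =
        Finset.univ \ (Finset.univ.filter fun i => SR2_arc (act (tR γ) (v i)) = 0) := by
      ext i
      simp only [Finset.mem_filter, Finset.mem_univ, true_and, Finset.mem_sdiff]
      rw [← SR2_arc0]
      have := cc_ne γ _ (hI i)
      unfold cc at this ⊢
      constructor
      · intro h; exact not_lt.2 h.le
      · intro h; exact lt_of_le_of_ne (not_lt.1 h) (Ne.symm this)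
    have hk' : (Finset.univ.filter fun i => SR2_arc (act (tR γ) (v i)) = 0).card = 2 := hk
    rw [h1, Finset.card_sdiff_of_subset (Finset.subset_univ _), hk']
    rfl
  · refine ⟨SR2_e1 * γ, ?_⟩
    have hk' : (Finset.univ.filter fun i => SR2_arc (act (tR γ) (v i)) = 1).card = 2 := hk
    refine Eq.trans ?_ hk'
    congr 1
    ext i
    simp only [Finset.mem_filter, Finset.mem_univ, true_and]
    rw [cc_mul, SR2_cc1, SR2_arc1 (hI' i)]
  · refine ⟨SR2_e2 * γ, ?_⟩
    have hk' : (Finset.univ.filter fun i => SR2_arc (act (tR γ) (v i)) = 2).card = 2 := hk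
    refine Eq.trans ?_ hk'
    congr 1
    ext i
    simp only [Finset.mem_filter, Finset.mem_univ, true_and]
    rw [cc_mul, SR2_cc2, SR2_arc2 (hI' i)]

set_option maxRecDepth 100000 in
private theorem SR2_comb1 : ∀ A : Fin 4 → Fin 3, (∃ x y, A x = 1 ∧ A y = 2) →
    (∃ k, (Finset.univ.filter fun i => A i = k).card = 2) ∨
    (∃ k, (k = 1 ∨ k = 2) ∧ ∃ a, A a ≠ k ∧ A a ≠ 0 ∧ ∀ i, i ≠ a → A i = k) := by
  decide

set_option maxRecDepth 100000 in
private theorem SR2_comb2 : ∀ A : Fin 4 → Fin 3, (∃ a x y, A a = 0 ∧ A x = 1 ∧ A y = 2) →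
    ∃ k, (Finset.univ.filter fun i => A i = k).card = 2 := by
  decide

private theorem SR2_ex2 : ∀ a : Fin 4, ∃ p q : Fin 4, p ≠ q ∧ p ≠ a ∧ q ≠ a := by
  decide

/-- one step: from positive `v x, v y` to arcs `1`, `2` -/
private theorem SR2_step {v : Fin 4 → Pl} (hI : ∀ i, Irr (v i))
    (hD : ∀ i j, i ≠ j → dt (v i) (v j) ≠ 0) (δ : SL(2, ℤ)) {x y : Fin 4} (hxy : x ≠ y)
    (hx : 0 < cc δ (v x)) (hy : 0 < cc δ (v y)) :
    ∃ γ : SL(2, ℤ), (∃ x y, SR2_arc (act (tR γ) (v x)) = 1 ∧ SR2_arc (act (tR γ) (v y)) = 2) ∧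
      ∀ a, cc δ (v a) < 0 → SR2_arc (act (tR γ) (v a)) = 0 := by
  have hI' : ∀ i, Irr (act (tR δ) (v i)) := fun i => irr_act δ _ (hI i)
  obtain ⟨γ, h1, h2, h3, h4⟩ := sep2 (act (tR δ) (v x)) (act (tR δ) (v y)) (hI' x) (hI' y)
    (by rw [dt_act]; exact hD x y hxy) hx hy
  refine ⟨γ * δ, ?_, ?_⟩
  · have key : ∀ i, act (tR (γ * δ)) (v i) = act (tR γ) (act (tR δ) (v i)) := by
      intro i
      rw [map_mul, act_mul]
    have e1 : ∀ i, 0 < cc γ (act (tR δ) (v i)) →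
        (act (tR γ) (act (tR δ) (v i))).1 ^ 2 < (act (tR γ) (act (tR δ) (v i))).2 ^ 2 →
        SR2_arc (act (tR (γ * δ)) (v i)) = 1 := by
      intro i hi1 hi2
      rw [key]
      have hi3 : 0 < (act (tR γ) (act (tR δ) (v i))).1 * (act (tR γ) (act (tR δ) (v i))).2 := hi1
      unfold SR2_arc
      rw [if_neg (not_lt.2 (le_of_lt hi3)), if_pos hi2]
    have e2 : ∀ i, 0 < cc γ (act (tR δ) (v i)) →
        (act (tR γ) (act (tR δ) (v i))).2 ^ 2 < (act (tR γ) (act (tR δ) (v i))).1 ^ 2 →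
        SR2_arc (act (tR (γ * δ)) (v i)) = 2 := by
      intro i hi1 hi2
      rw [key]
      have hi3 : 0 < (act (tR γ) (act (tR δ) (v i))).1 * (act (tR γ) (act (tR δ) (v i))).2 := hi1
      unfold SR2_arc
      rw [if_neg (not_lt.2 (le_of_lt hi3)), if_neg (not_lt.2 hi2.le)]
    rcases h4 with ⟨h5, h6⟩ | ⟨h5, h6⟩
    · exact ⟨x, y, e1 x h1 h5, e2 y h2 h6⟩
    · exact ⟨y, x, e1 y h2 h5, e2 x h1 h6⟩
  · intro a ha
    have := h3 (act (tR δ) (v a)) ha
    rw [← SR2_arc0]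
    rw [← cc_mul] at this
    exact this

private theorem SR2_core {v : Fin 4 → Pl} (hI : ∀ i, Irr (v i))
    (hD : ∀ i j, i ≠ j → dt (v i) (v j) ≠ 0) :
    ∃ δ : SL(2, ℤ), (Finset.univ.filter fun i => 0 < cc δ (v i)).card = 2 := by
  -- two positive vectors
  obtain ⟨δ, x, y, hxy, hx, hy⟩ : ∃ (δ : SL(2, ℤ)) (x y : Fin 4), x ≠ y ∧ 0 < cc δ (v x) ∧
      0 < cc δ (v y) := by
    have hS : ∀ i, cc SR2_S (v i) = - cc 1 (v i) := by
      intro i
      rw [SR2_ccS]
      unfold cc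
      rw [map_one, act_one]
    have h01 : ∀ s : Fin 3 → Prop, ∃ i j : Fin 3, i ≠ j ∧ (s i ↔ s j) := by
      intro s
      by_cases h0 : s 0 <;> by_cases h1 : s 1 <;> by_cases h2 : s 2
      · exact ⟨0, 1, by decide, by tauto⟩
      · exact ⟨0, 1, by decide, by tauto⟩
      · exact ⟨0, 2, by decide, by tauto⟩
      · exact ⟨1, 2, by decide, by tauto⟩
      · exact ⟨1, 2, by decide, by tauto⟩
      · exact ⟨0, 2, by decide, by tauto⟩
      · exact ⟨0, 1, by decide, by tauto⟩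
      · exact ⟨0, 1, by decide, by tauto⟩
    obtain ⟨i, j, hij, hs⟩ := h01 (fun i => 0 < cc 1 (v i.castSucc))
    have hij' : i.castSucc ≠ j.castSucc := fun h => hij (Fin.castSucc_injective _ h)
    by_cases hp : 0 < cc 1 (v i.castSucc)
    · exact ⟨1, _, _, hij', hp, hs.1 hp⟩
    · have hp' : ¬ 0 < cc 1 (v j.castSucc) := fun h => hp (hs.2 h)
      refine ⟨SR2_S, _, _, hij', ?_, ?_⟩
      · rw [hS]
        have := cc_ne 1 _ (hI i.castSucc)
        have h5 : cc 1 (v i.castSucc) < 0 := lt_of_le_of_ne (not_lt.1 hp) this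
        linarith
      · rw [hS]
        have := cc_ne 1 _ (hI j.castSucc)
        have h5 : cc 1 (v j.castSucc) < 0 := lt_of_le_of_ne (not_lt.1 hp') this
        linarith
  obtain ⟨γ, hγ, -⟩ := SR2_step hI hD δ hxy hx hy
  rcases SR2_comb1 (fun i => SR2_arc (act (tR γ) (v i))) hγ with ⟨k, hk⟩ | ⟨k, hk, a, ha, ha0, hak⟩
  · exact SR2_two hI γ k hk
  · obtain ⟨p, q, hpq, hpa, hqa⟩ := SR2_ex2 a
    have hI' : ∀ i, Irr (act (tR γ) (v i)) := fun i => irr_act γ _ (hI i)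
    obtain ⟨δ', h1⟩ : ∃ δ' : SL(2, ℤ), ∀ i, 0 < cc δ' (v i) ↔
        SR2_arc (act (tR γ) (v i)) = k := by
      rcases hk with rfl | rfl
      · exact ⟨SR2_e1 * γ, fun i => by rw [cc_mul, SR2_cc1, SR2_arc1 (hI' i)]⟩
      · exact ⟨SR2_e2 * γ, fun i => by rw [cc_mul, SR2_cc2, SR2_arc2 (hI' i)]⟩
    have hna : cc δ' (v a) < 0 := by
      have h2 : ¬ 0 < cc δ' (v a) := fun h => ha ((h1 a).1 h)
      exact lt_of_le_of_ne (not_lt.1 h2) (cc_ne δ' _ (hI a))
    obtain ⟨γ', ⟨x', y', h3, h4⟩, h5⟩ := SR2_step hI hD δ' hpq ((h1 p).2 (hak p hpa))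
      ((h1 q).2 (hak q hqa))
    obtain ⟨k', hk'⟩ := SR2_comb2 (fun i => SR2_arc (act (tR γ') (v i)))
      ⟨a, x', y', h5 a hna, h3, h4⟩
    exact SR2_two hI γ' k' hk'

set_option maxRecDepth 100000 in
private theorem SR2_comb3 : ∀ s : Fin 4 → Bool,
    (Finset.univ.filter fun i => s i = true).card = 2 →
    (s 0 = s 1 ∧ s 2 = s 3 ∧ s 0 ≠ s 2) ∨ (s 0 = s 2 ∧ s 1 = s 3 ∧ s 0 ≠ s 1) ∨
      (s 0 = s 3 ∧ s 1 = s 2 ∧ s 0 ≠ s 1) := by
  decide

theorem farey_res (a b c d : Pl) (ha : Irr a) (hb : Irr b) (hc : Irr c) (hd : Irr d)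
    (hab : dt a b ≠ 0) (hac : dt a c ≠ 0) (had : dt a d ≠ 0) (hbc : dt b c ≠ 0)
    (hbd : dt b d ≠ 0) (hcd : dt c d ≠ 0) :
    ∃ γ : SL(2, ℤ), (0 < cc γ a * cc γ b ∧ 0 < cc γ c * cc γ d ∧ cc γ a * cc γ c < 0) ∨
      (0 < cc γ a * cc γ c ∧ 0 < cc γ b * cc γ d ∧ cc γ a * cc γ b < 0) ∨
      (0 < cc γ a * cc γ d ∧ 0 < cc γ b * cc γ c ∧ cc γ a * cc γ b < 0) := by
  have hsymm : ∀ u w : Pl, dt u w ≠ 0 → dt w u ≠ 0 := by
    intro u w h h'
    apply h
    unfold dt at h' ⊢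
    linarith
  obtain ⟨γ, hγ⟩ := SR2_core (v := ![a, b, c, d])
    (by intro i; fin_cases i <;> assumption)
    (by
      intro i j hij
      fin_cases i <;> fin_cases j <;> first | exact absurd rfl hij | skip
      · exact hab
      · exact hac
      · exact had
      · exact hsymm _ _ hab
      · exact hbc
      · exact hbd
      · exact hsymm _ _ hac
      · exact hsymm _ _ hbc
      · exact hcd
      · exact hsymm _ _ had
      · exact hsymm _ _ hbd
      · exact hsymm _ _ hcd)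
  refine ⟨γ, ?_⟩
  have hna := cc_ne γ a ha
  have hnb := cc_ne γ b hb
  have hnc := cc_ne γ c hc
  have hnd := cc_ne γ d hd
  have hsame : ∀ x y : ℝ, x ≠ 0 → y ≠ 0 → (decide (0 < x) = decide (0 < y)) → 0 < x * y := by
    intro x y hx hy h
    by_cases h0 : 0 < x
    · have h1 : 0 < y := by
        rw [decide_eq_true h0] at h
        exact of_decide_eq_true h.symm
      exact mul_pos h0 h1
    · have h1 : ¬ 0 < y := by
        rw [decide_eq_false h0] at h
        exact of_decide_eq_false h.symm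
      exact mul_pos_of_neg_of_neg (lt_of_le_of_ne (not_lt.1 h0) hx)
        (lt_of_le_of_ne (not_lt.1 h1) hy)
  have hdiff : ∀ x y : ℝ, x ≠ 0 → y ≠ 0 → (decide (0 < x) ≠ decide (0 < y)) → x * y < 0 := by
    intro x y hx hy h
    by_cases h0 : 0 < x
    · have h1 : ¬ 0 < y := by
        intro h1
        apply h
        rw [decide_eq_true h0, decide_eq_true h1]
      exact mul_neg_of_pos_of_neg h0 (lt_of_le_of_ne (not_lt.1 h1) hy)
    · have h1 : 0 < y := by
        by_contra h1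
        apply h
        rw [decide_eq_false h0, decide_eq_false h1]
      exact mul_neg_of_neg_of_pos (lt_of_le_of_ne (not_lt.1 h0) hx) h1
  have hs := SR2_comb3 (fun i => decide (0 < cc γ ((![a, b, c, d] : Fin 4 → Pl) i))) (by
    refine Eq.trans ?_ hγ
    congr 1
    ext i
    simp only [Finset.mem_filter, Finset.mem_univ, true_and, decide_eq_true_eq])
  rcases hs with ⟨h1, h2, h3⟩ | ⟨h1, h2, h3⟩ | ⟨h1, h2, h3⟩
  · exact Or.inl ⟨hsame _ _ hna hnb h1, hsame _ _ hnc hnd h2, hdiff _ _ hna hnc h3⟩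
  · exact Or.inr (Or.inl ⟨hsame _ _ hna hnc h1, hsame _ _ hnb hnd h2, hdiff _ _ hna hnb h3⟩)
  · exact Or.inr (Or.inr ⟨hsame _ _ hna hnd h1, hsame _ _ hnb hnc h2, hdiff _ _ hna hnb h3⟩)

end SimplVol

end S_SR2

section S_FT

/-!
# Module FT: the ranked planar trees of a configuration of lines

`u : Fin m → Pl` with `Good u`. `fs γ u a b = true ↔ 0 < cc γ (u a) * cc γ (u b)`, and `= false ↔ ... < 0` (`cc_ne`, the product is nonzero). So `Sep (fs γ u) a b c d ↔ 0 < cc a cc b ∧ 0 < cc c cc d ∧ cc a cc c < 0` (`sep_fs`).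
`exists_tree`: `o := fo u`.
* `o_vals`: the three determinants are nonzero for distinct `a, b, c`. `o_swap`: `dt` is antisymmetric, the product `dt a c * dt c b * dt b a` is minus `dt a b * dt b c * dt c a`. `o_rot`: cyclic invariance (commutativity).
* `o_coc`: if two of `a, b, c, d` are equal it follows from `o_swap`, `o_rot` (and `fo = 0` if two arguments are equal: `dt v v = 0`). Otherwise all six determinants are nonzero; Plücker: `dt a b * dt c d - dt a c * dt b d + dt a d * dt b c = 0` (`ring`). With `x = dt a b, y = dt a c, z = dt a d, p = dt b c, q = dt b d,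
  r = dt c d`: `fo b c d = - sign (p q r)`, `fo a c d = - sign (y r z)`, `fo a b d = - sign (x q z)`, `fo a b c = - sign (x p y)`, `x r - y q + z p = 0`: case distinction on the six signs (64 cases; in the bad cases `x r`, `- y q`, `z p` all have the same sign, contradiction by `nlinarith`/`mul_pos`). Reduce the number of cases: e.g. let
  `A = x r, B = - y q, C = z p` (sum zero, nonzero).
* `nodup`: `hl`. `split`: `s = fs γ u` (`fE`), `f a = decide (0 < cc γ (u a))`; for nonzero reals `0 < s t ↔ (0 < s ↔ 0 < t)`. `nt`: from `fE`. `planar`: `cc_planar` gives `0 < (dt b c * dt c a) * (dt b d * dt d a)`, and `fo a b c = sign (dt a b * (dt b c * dt c a))`, `fo a b d = sign (dt a b * (dt b d * dt d a))`; the same sign.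
* `res`: `farey_res` for `u a, u b, u c, u d`, `s = fs γ u` is in `fE u`: `NT s` by the separation itself. `excl`: `cc_excl`.
-/

set_option autoImplicit false

open scoped BigOperators UpperHalfPlane MatrixGroups

namespace SimplVol

theorem FT_fo {m : ℕ} (u : Fin m → Pl) (a b c : Fin m) :
    fo u a b c = ((SignType.sign (dt (u a) (u b) * dt (u b) (u c) * dt (u c) (u a)) : SignType) : ℤ) := by
  unfold fo
  rw [sign_apply]
  by_cases h1 : 0 < dt (u a) (u b) * dt (u b) (u c) * dt (u c) (u a)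
  · rw [if_pos h1, if_pos h1]; rfl
  · rw [if_neg h1, if_neg h1]
    by_cases h2 : dt (u a) (u b) * dt (u b) (u c) * dt (u c) (u a) < 0
    · rw [if_pos h2, if_pos h2]; rfl
    · rw [if_neg h2, if_neg h2]; rfl

theorem FT_anti (u v : Pl) : dt u v = - dt v u := by
  unfold dt
  ring

theorem FT_fs_true {m : ℕ} (u : Fin m → Pl) (γ : SL(2, ℤ)) (a b : Fin m) :
    fs γ u a b = true ↔ 0 < cc γ (u a) * cc γ (u b) := by
  unfold fs
  exact decide_eq_true_iff

theorem FT_fs_false {m : ℕ} (u : Fin m → Pl) (hu : Good u) (γ : SL(2, ℤ)) (a b : Fin m) :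
    fs γ u a b = false ↔ cc γ (u a) * cc γ (u b) < 0 := by
  have hne : cc γ (u a) * cc γ (u b) ≠ 0 :=
    mul_ne_zero (cc_ne γ _ (hu.1 a)) (cc_ne γ _ (hu.1 b))
  rw [← Bool.not_eq_true, FT_fs_true]
  constructor
  · intro h
    exact lt_of_le_of_ne (not_lt.1 h) hne
  · intro h
    exact not_lt.2 h.le

theorem sep_fs {m : ℕ} (u : Fin m → Pl) (hu : Good u) (γ : SL(2, ℤ)) (a b c d : Fin m) :
    Sep (fs γ u) a b c d ↔ 0 < cc γ (u a) * cc γ (u b) ∧ 0 < cc γ (u c) * cc γ (u d) ∧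
      cc γ (u a) * cc γ (u c) < 0 := by
  unfold Sep
  rw [FT_fs_true, FT_fs_true, FT_fs_false u hu]

theorem fo_ori {m : ℕ} (u : Fin m → Pl) (a b c : Fin m) :
    ((fo u a b c : ℤ) : ℝ) = ori (u a) (u b) (u c) := by
  unfold fo ori
  by_cases h1 : 0 < dt (u a) (u b) * dt (u b) (u c) * dt (u c) (u a)
  · rw [if_pos h1, if_pos h1]; push_cast; ring
  · rw [if_neg h1, if_neg h1]
    by_cases h2 : dt (u a) (u b) * dt (u b) (u c) * dt (u c) (u a) < 0
    · rw [if_pos h2, if_pos h2]; push_cast; ring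
    · rw [if_neg h2, if_neg h2]; push_cast; ring

theorem FT_swap {m : ℕ} (u : Fin m → Pl) (a b c : Fin m) : fo u a c b = - fo u a b c := by
  rw [FT_fo, FT_fo]
  have e : dt (u a) (u c) * dt (u c) (u b) * dt (u b) (u a) =
      - (dt (u a) (u b) * dt (u b) (u c) * dt (u c) (u a)) := by
    unfold dt
    ring
  rw [e, Left.sign_neg, SignType.coe_neg]

theorem FT_rot {m : ℕ} (u : Fin m → Pl) (a b c : Fin m) : fo u b c a = fo u a b c := by
  rw [FT_fo, FT_fo]
  have e : dt (u b) (u c) * dt (u c) (u a) * dt (u a) (u b) =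
      (dt (u a) (u b) * dt (u b) (u c) * dt (u c) (u a)) := by
    ring
  rw [e]

theorem FT_self {m : ℕ} (u : Fin m → Pl) (a b : Fin m) : fo u a b b = 0 := by
  have := FT_swap u a b b
  omega

theorem FT_self2 {m : ℕ} (u : Fin m → Pl) (a b : Fin m) : fo u b b a = 0 := by
  rw [FT_rot]
  exact FT_self u a b

theorem FT_self3 {m : ℕ} (u : Fin m → Pl) (a b : Fin m) : fo u b a b = 0 := by
  rw [← FT_rot]
  exact FT_self u a b

theorem FT_dec : ∀ X Y Z P Q R : SignType, X ≠ 0 → Y ≠ 0 → Z ≠ 0 → P ≠ 0 → Q ≠ 0 → R ≠ 0 →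
    ¬ (X * R = -(Y * Q) ∧ X * R = Z * P) →
    ((P * R * (-Q) : SignType) : ℤ) - ((Y * R * (-Z) : SignType) : ℤ) +
      ((X * Q * (-Z) : SignType) : ℤ) - ((X * P * (-Y) : SignType) : ℤ) = 0 := by
  intro X Y Z P Q R hX hY hZ hP hQ hR
  cases X <;> cases Y <;> cases Z <;> cases P <;> cases Q <;> cases R <;>
    first
    | exact absurd rfl hX
    | exact absurd rfl hY
    | exact absurd rfl hZ
    | exact absurd rfl hP
    | exact absurd rfl hQ
    | exact absurd rfl hR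
    | decide

theorem FT_coc {m : ℕ} (u : Fin m → Pl) (hu : Good u) (a b c d : Fin m) :
    fo u b c d - fo u a c d + fo u a b d - fo u a b c = 0 := by
  by_cases hab : a = b
  · subst hab
    rw [FT_self2, FT_self2]; ring
  by_cases hbc : b = c
  · subst hbc
    rw [FT_self2, FT_self]; ring
  by_cases hcd : c = d
  · subst hcd
    rw [FT_self, FT_self]; ring
  by_cases hac : a = c
  · subst hac
    rw [FT_self2, FT_self3, ← FT_rot u b a d, FT_swap u a b d]; ring
  by_cases had : a = d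
  · subst had
    rw [FT_self3, FT_self3, FT_rot u a b c]; ring
  by_cases hbd : b = d
  · subst hbd
    rw [FT_self3, FT_self, FT_swap u a b c]; ring
  have k1 := hu.2 a b hab
  have k2 := hu.2 a c hac
  have k3 := hu.2 a d had
  have k4 := hu.2 b c hbc
  have k5 := hu.2 b d hbd
  have k6 := hu.2 c d hcd
  have hpl : dt (u a) (u b) * dt (u c) (u d) - dt (u a) (u c) * dt (u b) (u d) +
      dt (u a) (u d) * dt (u b) (u c) = 0 := by
    unfold dt
    ring
  rw [FT_fo, FT_fo, FT_fo, FT_fo, FT_anti (u d) (u b), FT_anti (u d) (u a), FT_anti (u c) (u a)]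
  simp only [sign_mul, Left.sign_neg]
  refine FT_dec _ _ _ _ _ _ (sign_ne_zero.2 k1) (sign_ne_zero.2 k2) (sign_ne_zero.2 k3)
    (sign_ne_zero.2 k4) (sign_ne_zero.2 k5) (sign_ne_zero.2 k6) ?_
  rintro ⟨h1, h2⟩
  rw [← sign_mul, ← sign_mul, ← Left.sign_neg] at h1
  rw [← sign_mul, ← sign_mul] at h2
  have hne : dt (u a) (u b) * dt (u c) (u d) ≠ 0 := mul_ne_zero k1 k6
  rcases lt_or_gt_of_ne hne with h3 | h3
  · rw [sign_neg h3] at h1 h2
    have h4 := sign_eq_neg_one_iff.1 h1.symm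
    have h5 := sign_eq_neg_one_iff.1 h2.symm
    linarith
  · rw [sign_pos h3] at h1 h2
    have h4 := sign_eq_one_iff.1 h1.symm
    have h5 := sign_eq_one_iff.1 h2.symm
    linarith

theorem FT_bool (x y : ℝ) (hx : x ≠ 0) (hy : y ≠ 0) : (0 < x * y) ↔ ((0 < x) ↔ (0 < y)) := by
  rcases lt_or_gt_of_ne hx with h1 | h1 <;> rcases lt_or_gt_of_ne hy with h2 | h2
  · exact iff_of_true (mul_pos_of_neg_of_neg h1 h2) (iff_of_false (not_lt.2 h1.le) (not_lt.2 h2.le))
  · refine iff_of_false (not_lt.2 (mul_neg_of_neg_of_pos h1 h2).le) ?_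
    intro h
    exact absurd (h.2 h2) (not_lt.2 h1.le)
  · refine iff_of_false (not_lt.2 (mul_neg_of_pos_of_neg h1 h2).le) ?_
    intro h
    exact absurd (h.1 h1) (not_lt.2 h2.le)
  · exact iff_of_true (mul_pos h1 h2) (iff_of_true h1 h2)

open Classical in
theorem FT_split {m : ℕ} (u : Fin m → Pl) (hu : Good u) (γ : SL(2, ℤ)) :
    ∃ f : Fin m → Bool, ∀ a b, fs γ u a b = (f a == f b) := by
  refine ⟨fun a => decide (0 < cc γ (u a)), fun a b => ?_⟩
  have h := FT_bool _ _ (cc_ne γ _ (hu.1 a)) (cc_ne γ _ (hu.1 b))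
  have h2 := FT_fs_true u γ a b
  by_cases ha : 0 < cc γ (u a) <;> by_cases hb : 0 < cc γ (u b)
  · have h3 : fs γ u a b = true := h2.2 (h.2 (iff_of_true ha hb))
    rw [h3]
    simp [ha, hb]
  · have h3 : fs γ u a b = false := by
      rw [← Bool.not_eq_true, h2, h]
      exact fun h4 => hb (h4.1 ha)
    rw [h3]
    simp [ha, hb]
  · have h3 : fs γ u a b = false := by
      rw [← Bool.not_eq_true, h2, h]
      exact fun h4 => ha (h4.2 hb)
    rw [h3]
    simp [ha, hb]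
  · have h3 : fs γ u a b = true := h2.2 (h.2 (iff_of_false ha hb))
    rw [h3]
    simp [ha, hb]

theorem FT_fE {m : ℕ} (u : Fin m → Pl) (s : Split m) :
    s ∈ fE u ↔ NT s ∧ ∃ γ : SL(2, ℤ), fs γ u = s := by
  unfold fE
  simp only [Finset.mem_filter, Finset.mem_univ, true_and]

theorem FT_planar {m : ℕ} (u : Fin m → Pl) (hu : Good u) (γ : SL(2, ℤ)) (a b c d : Fin m)
    (h : Sep (fs γ u) a b c d) : fo u a b c = fo u a b d := by
  obtain ⟨h1, h2, h3⟩ := (sep_fs u hu γ a b c d).1 h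
  have h4 := cc_planar γ (u a) (u b) (u c) (u d) h1 h2 h3
  rw [FT_fo, FT_fo, mul_assoc, mul_assoc,
    sign_mul (dt (u a) (u b)) (dt (u b) (u c) * dt (u c) (u a)),
    sign_mul (dt (u a) (u b)) (dt (u b) (u d) * dt (u d) (u a))]
  have h5 : SignType.sign (dt (u b) (u c) * dt (u c) (u a)) =
      SignType.sign (dt (u b) (u d) * dt (u d) (u a)) := by
    rcases pos_and_pos_or_neg_and_neg_of_mul_pos h4 with ⟨h6, h7⟩ | ⟨h6, h7⟩
    · rw [sign_pos h6, sign_pos h7]
    · rw [sign_neg h6, sign_neg h7]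
  rw [h5]

theorem exists_tree {m : ℕ} (u : Fin m → Pl) (hu : Good u) (l : List (Split m)) (hl : l.Nodup)
    (hlE : l.toFinset = fE u) : ∃ τ : RTree m, τ.o = fo u ∧ τ.l = l := by
  have hmem : ∀ s, s ∈ l ↔ NT s ∧ ∃ γ : SL(2, ℤ), fs γ u = s := by
    intro s
    rw [← List.mem_toFinset, hlE, FT_fE]
  refine ⟨RTree.mk (fo u) l ?_ (FT_swap u) (FT_rot u) (FT_coc u hu) hl ?_ ?_ ?_ ?_ ?_, rfl, rfl⟩
  · intro a b c hab hbc hac
    rw [FT_fo]
    have hne : dt (u a) (u b) * dt (u b) (u c) * dt (u c) (u a) ≠ 0 :=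
      mul_ne_zero (mul_ne_zero (hu.2 a b hab) (hu.2 b c hbc)) (hu.2 c a (Ne.symm hac))
    rcases lt_or_gt_of_ne hne with h | h
    · right
      rw [sign_neg h]
      rfl
    · left
      rw [sign_pos h]
      rfl
  · intro s hs
    obtain ⟨_, γ, rfl⟩ := (hmem s).1 hs
    exact FT_split u hu γ
  · intro s hs
    exact ((hmem s).1 hs).1
  · intro s hs a b c d h
    obtain ⟨_, γ, rfl⟩ := (hmem s).1 hs
    exact FT_planar u hu γ a b c d h
  · intro a b c d hab hac had hbc hbd hcd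
    obtain ⟨γ, hγ⟩ := farey_res (u a) (u b) (u c) (u d) (hu.1 a) (hu.1 b) (hu.1 c) (hu.1 d)
      (hu.2 a b hab) (hu.2 a c hac) (hu.2 a d had) (hu.2 b c hbc) (hu.2 b d hbd) (hu.2 c d hcd)
    rw [← sep_fs u hu, ← sep_fs u hu, ← sep_fs u hu] at hγ
    refine ⟨fs γ u, (hmem _).2 ⟨?_, γ, rfl⟩, hγ⟩
    rcases hγ with h | h | h
    · exact ⟨a, b, c, d, hab, hcd, h⟩
    · exact ⟨a, c, b, d, hac, hbd, h⟩
    · exact ⟨a, d, b, c, had, hbc, h⟩
  · intro s hs t ht a b c d h1 h2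
    obtain ⟨_, γ, rfl⟩ := (hmem s).1 hs
    obtain ⟨_, δ, rfl⟩ := (hmem t).1 ht
    obtain ⟨k1, k2, k3⟩ := (sep_fs u hu γ a b c d).1 h1
    obtain ⟨k4, k5, k6⟩ := (sep_fs u hu δ a c b d).1 h2
    exact cc_excl γ δ (u a) (u b) (u c) (u d) k1 k2 k3 k4 k5 k6

end SimplVol

end S_FT

section S_SF

/-!
# Module SF: finitely many Farey edges separate two pairs of vectors

Write `γ = (p q; r s)`, `ps - qr = 1`, `R₁(v) = p v.1 + q v.2 = (act (tR γ) v).1`, `R₂(v) = r v.1 + s v.2`, `cc γ v = R₁(v) R₂(v)`. `dt_act`: `R₁(v) R₂(w) - R₁(w) R₂(v) = dt v w` (up to order).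
For `v ∈ {a, b}`, `w ∈ {c, d}`: `cc γ v * cc γ w < 0`, so `R₁(v) R₂(w)` and `R₁(w) R₂(v)` have opposite signs and their difference is `dt v w`: both are at most `|dt v w| ≤ C` in absolute value (`C` = the largest of the four).
As `dt a b ≠ 0`, one of `|R₁(a) R₂(b)|`, `|R₁(b) R₂(a)|` is at least `m = |dt a b|/2 > 0`. Say `|R₁(a)| |R₂(b)| ≥ m` (the other case: exchange `a` and `b`). For `w, w' ∈ {c, d}`: `|R₂(w)| |R₁(a)| ≤ C`, `|R₁(w')| |R₂(b)| ≤ C`, so
`|R₁(w') R₂(w)| ≤ C²/m`. As `c, d` are a basis of the plane, `p = R₁(e₁)`, `q = R₁(e₂)` are fixed linear combinations of `R₁(c), R₁(d)`: `dt c d * p = R₁(c) d.2 - R₁(d) c.2`, `dt c d * q = - R₁(c) d.1 + R₁(d) c.1`, the same for `r`, `s` with `R₂`. So all products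
`|p r|, |p s|, |q r|, |q s|` are at most some `K` (depending only on `a, b, c, d`). Since `(r, s) ≠ 0` and `(p, q) ≠ 0` are integer vectors, `|p|, |q|, |r|, |s| ≤ K`. Finitely many integer matrices with bounded entries: `Set.Finite.subset` / `Set.Finite.of_injOn`/`Set.Finite.preimage` of the
set of `(p, q, r, s) ∈ [-N, N]^4` under the injective map `γ ↦ (γ 0 0, γ 0 1, γ 1 0, γ 1 1)`.
(`tR γ i j = (γ i j : ℝ)` by `rfl`/`simp [tR]`.)
-/

set_option autoImplicit false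

open scoped BigOperators UpperHalfPlane MatrixGroups

namespace SimplVol

theorem SF_key {x y D : ℝ} (h : x * y < 0) (hD : x - y = D) : |x| ≤ |D| ∧ |y| ≤ |D| := by
  constructor
  · apply sq_le_sq.1
    rw [← hD]
    nlinarith [sq_nonneg y]
  · apply sq_le_sq.1
    rw [← hD]
    nlinarith [sq_nonneg x]

theorem SF_sign {A C D : ℝ} (h1 : A * C < 0) (h2 : 0 < C * D) : A * D < 0 := by
  by_contra h
  push Not at h
  have h3 : A * C * (C * D) < 0 := mul_neg_of_neg_of_pos h1 h2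
  have h4 : 0 ≤ A * D * C ^ 2 := mul_nonneg h (sq_nonneg C)
  nlinarith

theorem SF_PQ {Xa Xb Xc Xd Ya Yb Yc Yd Dab Dac Dad Dbc Dbd : ℝ} (e1 : Xa * Yb - Xb * Ya = Dab)
    (e2 : Xa * Yc - Xc * Ya = Dac) (e3 : Xa * Yd - Xd * Ya = Dad) (e4 : Xb * Yc - Xc * Yb = Dbc)
    (e5 : Xb * Yd - Xd * Yb = Dbd) (h1 : 0 < (Xa * Ya) * (Xb * Yb))
    (h2 : 0 < (Xc * Yc) * (Xd * Yd)) (h3 : (Xa * Ya) * (Xc * Yc) < 0) :
    (|Xc| + |Xd|) * (|Yc| + |Yd|) * (|Dab| / 2) ≤ (|Dac| + |Dad| + |Dbc| + |Dbd|) ^ 2 := by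
  have s1 : (Xa * Ya) * (Xd * Yd) < 0 := SF_sign h3 h2
  have s2 : (Xc * Yc) * (Xb * Yb) < 0 := SF_sign (by rw [mul_comm]; exact h3) h1
  have s2' : (Xb * Yb) * (Xc * Yc) < 0 := by rw [mul_comm]; exact s2
  have s3 : (Xb * Yb) * (Xd * Yd) < 0 := SF_sign s2' h2
  obtain ⟨u1, u2⟩ := SF_key (x := Xa * Yc) (y := Xc * Ya) (by nlinarith) e2
  obtain ⟨u3, u4⟩ := SF_key (x := Xa * Yd) (y := Xd * Ya) (by nlinarith) e3
  obtain ⟨u5, u6⟩ := SF_key (x := Xb * Yc) (y := Xc * Yb) (by nlinarith) e4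
  obtain ⟨u7, u8⟩ := SF_key (x := Xb * Yd) (y := Xd * Yb) (by nlinarith) e5
  rw [abs_mul] at u1 u2 u3 u4 u5 u6 u7 u8
  have n1 := abs_nonneg Dac
  have n2 := abs_nonneg Dad
  have n3 := abs_nonneg Dbc
  have n4 := abs_nonneg Dbd
  have m1 := abs_nonneg Xa
  have m2 := abs_nonneg Xb
  have m3 := abs_nonneg Xc
  have m4 := abs_nonneg Xd
  have k1 := abs_nonneg Ya
  have k2 := abs_nonneg Yb
  have k3 := abs_nonneg Yc
  have k4 := abs_nonneg Yd
  have v1 : |Xa| * (|Yc| + |Yd|) ≤ |Dac| + |Dad| + |Dbc| + |Dbd| := by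
    rw [mul_add]
    linarith
  have v2 : (|Xc| + |Xd|) * |Yb| ≤ |Dac| + |Dad| + |Dbc| + |Dbd| := by
    rw [add_mul]
    linarith
  have v3 : |Xb| * (|Yc| + |Yd|) ≤ |Dac| + |Dad| + |Dbc| + |Dbd| := by
    rw [mul_add]
    linarith
  have v4 : (|Xc| + |Xd|) * |Ya| ≤ |Dac| + |Dad| + |Dbc| + |Dbd| := by
    rw [add_mul]
    linarith
  generalize |Dac| + |Dad| + |Dbc| + |Dbd| = C at v1 v2 v3 v4
  have w1 : (|Xa| * (|Yc| + |Yd|)) * ((|Xc| + |Xd|) * |Yb|) ≤ C * C :=
    mul_le_mul v1 v2 (by positivity) ((by positivity : (0 : ℝ) ≤ |Xa| * (|Yc| + |Yd|)).trans v1)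
  have w2 : (|Xb| * (|Yc| + |Yd|)) * ((|Xc| + |Xd|) * |Ya|) ≤ C * C :=
    mul_le_mul v3 v4 (by positivity) ((by positivity : (0 : ℝ) ≤ |Xb| * (|Yc| + |Yd|)).trans v3)
  have hP : 0 ≤ (|Xc| + |Xd|) * (|Yc| + |Yd|) := by positivity
  have hD : |Dab| ≤ |Xa| * |Yb| + |Xb| * |Ya| := by
    rw [← e1, ← abs_mul, ← abs_mul]
    exact abs_sub _ _
  have h5 : (|Xc| + |Xd|) * (|Yc| + |Yd|) * |Dab| ≤
      (|Xc| + |Xd|) * (|Yc| + |Yd|) * (|Xa| * |Yb| + |Xb| * |Ya|) :=
    mul_le_mul_of_nonneg_left hD hP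
  nlinarith

theorem SF_ent {D p Xc Xd c2 d2 E : ℝ} (h : D * p = Xc * d2 - Xd * c2) (h1 : |c2| ≤ E)
    (h2 : |d2| ≤ E) : |D| * |p| ≤ (|Xc| + |Xd|) * E := by
  rw [← abs_mul, h]
  refine (abs_sub _ _).trans ?_
  rw [abs_mul, abs_mul, add_mul]
  exact add_le_add (mul_le_mul_of_nonneg_left h2 (abs_nonneg _))
    (mul_le_mul_of_nonneg_left h1 (abs_nonneg _))

theorem SF_int {p q r s : ℤ} {K : ℝ} (hdet : p * s - q * r = 1)
    (h1 : |(p : ℝ)| * |(r : ℝ)| ≤ K) (h2 : |(p : ℝ)| * |(s : ℝ)| ≤ K)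
    (h3 : |(q : ℝ)| * |(r : ℝ)| ≤ K) (h4 : |(q : ℝ)| * |(s : ℝ)| ≤ K) :
    |(p : ℝ)| ≤ K ∧ |(q : ℝ)| ≤ K ∧ |(r : ℝ)| ≤ K ∧ |(s : ℝ)| ≤ K := by
  have hint : ∀ x : ℤ, x ≠ 0 → 1 ≤ |(x : ℝ)| := by
    intro x hx
    have h := Int.one_le_abs hx
    exact_mod_cast h
  have hlin : ∀ {x y : ℝ}, 1 ≤ |y| → |x| * |y| ≤ K → |x| ≤ K := by
    intro x y h5 h6
    nlinarith [abs_nonneg x]
  have hlin' : ∀ {x y : ℝ}, 1 ≤ |x| → |x| * |y| ≤ K → |y| ≤ K := by
    intro x y h5 h6
    nlinarith [abs_nonneg y]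
  have hpq : p ≠ 0 ∨ q ≠ 0 := by
    by_contra h
    push Not at h
    rw [h.1, h.2] at hdet
    simp at hdet
  have hrs : r ≠ 0 ∨ s ≠ 0 := by
    by_contra h
    push Not at h
    rw [h.1, h.2] at hdet
    simp at hdet
  have e1 : |(p : ℝ)| ≤ K ∧ |(q : ℝ)| ≤ K := by
    rcases hrs with h | h
    · exact ⟨hlin (hint r h) h1, hlin (hint r h) h3⟩
    · exact ⟨hlin (hint s h) h2, hlin (hint s h) h4⟩
  have e2 : |(r : ℝ)| ≤ K ∧ |(s : ℝ)| ≤ K := by
    rcases hpq with h | h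
    · exact ⟨hlin' (hint p h) h1, hlin' (hint p h) h2⟩
    · exact ⟨hlin' (hint q h) h3, hlin' (hint q h) h4⟩
  exact ⟨e1.1, e1.2, e2.1, e2.2⟩

theorem SF_fin (K : ℝ) : {γ : SL(2, ℤ) | |((γ 0 0 : ℤ) : ℝ)| ≤ K ∧ |((γ 0 1 : ℤ) : ℝ)| ≤ K ∧
    |((γ 1 0 : ℤ) : ℝ)| ≤ K ∧ |((γ 1 1 : ℤ) : ℝ)| ≤ K}.Finite := by
  have hinj : Function.Injective (fun γ : SL(2, ℤ) => ((γ 0 0 : ℤ), (γ 0 1 : ℤ), (γ 1 0 : ℤ),
      (γ 1 1 : ℤ))) := by
    intro γ δ h
    simp only [Prod.mk.injEq] at h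
    obtain ⟨h1, h2, h3, h4⟩ := h
    apply Matrix.SpecialLinearGroup.ext
    intro i j
    fin_cases i <;> fin_cases j
    · exact h1
    · exact h2
    · exact h3
    · exact h4
  have hfin : (Set.Icc ((-⌈K⌉, -⌈K⌉, -⌈K⌉, -⌈K⌉) : ℤ × ℤ × ℤ × ℤ)
      (⌈K⌉, ⌈K⌉, ⌈K⌉, ⌈K⌉)).Finite := Set.finite_Icc _ _
  refine (hfin.preimage hinj.injOn).subset ?_
  intro γ hγ
  obtain ⟨h1, h2, h3, h4⟩ := hγ
  have hb : ∀ x : ℤ, |(x : ℝ)| ≤ K → -⌈K⌉ ≤ x ∧ x ≤ ⌈K⌉ := by
    intro x hx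
    have h5 : |(x : ℝ)| ≤ (⌈K⌉ : ℝ) := hx.trans (Int.le_ceil K)
    have h6 : |x| ≤ ⌈K⌉ := by exact_mod_cast h5
    exact abs_le.1 h6
  rw [Set.mem_preimage, Set.mem_Icc, Prod.mk_le_mk, Prod.mk_le_mk, Prod.mk_le_mk, Prod.mk_le_mk,
    Prod.mk_le_mk, Prod.mk_le_mk]
  exact ⟨⟨(hb _ h1).1, (hb _ h2).1, (hb _ h3).1, (hb _ h4).1⟩,
    ⟨(hb _ h1).2, (hb _ h2).2, (hb _ h3).2, (hb _ h4).2⟩⟩

theorem SF_tR (γ : SL(2, ℤ)) (i j : Fin 2) : (tR γ) i j = ((γ i j : ℤ) : ℝ) := by
  simp [tR]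

theorem sep_finite (a b c d : Pl) (hab : dt a b ≠ 0) (hcd : dt c d ≠ 0) :
    {γ : SL(2, ℤ) | 0 < cc γ a * cc γ b ∧ 0 < cc γ c * cc γ d ∧ cc γ a * cc γ c < 0}.Finite := by
  refine (SF_fin ((|dt a c| + |dt a d| + |dt b c| + |dt b d|) ^ 2 *
    (|c.1| + |c.2| + |d.1| + |d.2|) ^ 2 / ((dt c d) ^ 2 * (|dt a b| / 2)))).subset ?_
  intro γ hγ
  obtain ⟨h1, h2, h3⟩ := hγ
  have hdt := fun u v => dt_act (tR γ) u v
  have hdet : (γ 0 0 : ℤ) * γ 1 1 - γ 0 1 * γ 1 0 = 1 := by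
    have h := γ.det_coe
    rw [Matrix.det_fin_two] at h
    exact h
  unfold cc act at h1 h2 h3
  unfold act at hdt
  simp only [SF_tR] at h1 h2 h3 hdt
  generalize hp : (γ 0 0 : ℤ) = p at h1 h2 h3 hdt hdet
  generalize hq : (γ 0 1 : ℤ) = q at h1 h2 h3 hdt hdet
  generalize hr : (γ 1 0 : ℤ) = r at h1 h2 h3 hdt hdet
  generalize hs : (γ 1 1 : ℤ) = s at h1 h2 h3 hdt hdet
  have hPQ := SF_PQ (Xa := p * a.1 + q * a.2) (Xb := p * b.1 + q * b.2) (Xc := p * c.1 + q * c.2)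
    (Xd := p * d.1 + q * d.2) (Ya := r * a.1 + s * a.2) (Yb := r * b.1 + s * b.2)
    (Yc := r * c.1 + s * c.2) (Yd := r * d.1 + s * d.2) (Dab := dt a b) (Dac := dt a c)
    (Dad := dt a d) (Dbc := dt b c) (Dbd := dt b d)
    (by rw [← hdt a b]; unfold dt; ring) (by rw [← hdt a c]; unfold dt; ring)
    (by rw [← hdt a d]; unfold dt; ring) (by rw [← hdt b c]; unfold dt; ring)
    (by rw [← hdt b d]; unfold dt; ring) h1 h2 h3
  have b1 := abs_nonneg c.1
  have b2 := abs_nonneg c.2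
  have b3 := abs_nonneg d.1
  have b4 := abs_nonneg d.2
  have hp1 := SF_ent (D := dt c d) (p := (p : ℝ)) (Xc := p * c.1 + q * c.2)
    (Xd := p * d.1 + q * d.2) (c2 := c.2) (d2 := d.2) (E := |c.1| + |c.2| + |d.1| + |d.2|)
    (by unfold dt; ring) (by linarith) (by linarith)
  have hq1 := SF_ent (D := dt c d) (p := (q : ℝ)) (Xc := p * c.1 + q * c.2)
    (Xd := p * d.1 + q * d.2) (c2 := -c.1) (d2 := -d.1) (E := |c.1| + |c.2| + |d.1| + |d.2|)
    (by unfold dt; ring) (by rw [abs_neg]; linarith) (by rw [abs_neg]; linarith)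
  have hr1 := SF_ent (D := dt c d) (p := (r : ℝ)) (Xc := r * c.1 + s * c.2)
    (Xd := r * d.1 + s * d.2) (c2 := c.2) (d2 := d.2) (E := |c.1| + |c.2| + |d.1| + |d.2|)
    (by unfold dt; ring) (by linarith) (by linarith)
  have hs1 := SF_ent (D := dt c d) (p := (s : ℝ)) (Xc := r * c.1 + s * c.2)
    (Xd := r * d.1 + s * d.2) (c2 := -c.1) (d2 := -d.1) (E := |c.1| + |c.2| + |d.1| + |d.2|)
    (by unfold dt; ring) (by rw [abs_neg]; linarith) (by rw [abs_neg]; linarith)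
  have hE : 0 ≤ |c.1| + |c.2| + |d.1| + |d.2| := by positivity
  generalize |c.1| + |c.2| + |d.1| + |d.2| = E at hp1 hq1 hr1 hs1 hE
  have hP0 : 0 ≤ |(p : ℝ) * c.1 + q * c.2| + |(p : ℝ) * d.1 + q * d.2| := by positivity
  have hQ0 : 0 ≤ |(r : ℝ) * c.1 + s * c.2| + |(r : ℝ) * d.1 + s * d.2| := by positivity
  generalize |(p : ℝ) * c.1 + q * c.2| + |(p : ℝ) * d.1 + q * d.2| = P at hPQ hp1 hq1 hP0
  generalize |(r : ℝ) * c.1 + s * c.2| + |(r : ℝ) * d.1 + s * d.2| = Q at hPQ hr1 hs1 hQ0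
  generalize |dt a c| + |dt a d| + |dt b c| + |dt b d| = C at hPQ
  have hm : 0 < |dt a b| / 2 := by positivity
  have hDD : 0 < (dt c d) ^ 2 := by positivity
  have hfin : ∀ x y : ℝ, |dt c d| * |x| ≤ P * E → |dt c d| * |y| ≤ Q * E →
      |x| * |y| ≤ C ^ 2 * E ^ 2 / ((dt c d) ^ 2 * (|dt a b| / 2)) := by
    intro x y hx hy
    rw [le_div_iff₀ (by positivity)]
    have h5 : (|dt c d| * |x|) * (|dt c d| * |y|) ≤ (P * E) * (Q * E) :=
      mul_le_mul hx hy (by positivity) (by positivity)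
    have h6 : (|dt c d| * |x|) * (|dt c d| * |y|) = |x| * |y| * (dt c d) ^ 2 := by
      rw [← sq_abs (dt c d)]
      ring
    rw [h6] at h5
    calc |x| * |y| * ((dt c d) ^ 2 * (|dt a b| / 2)) =
        (|x| * |y| * (dt c d) ^ 2) * (|dt a b| / 2) := by ring
      _ ≤ ((P * E) * (Q * E)) * (|dt a b| / 2) := mul_le_mul_of_nonneg_right h5 hm.le
      _ = (P * Q * (|dt a b| / 2)) * E ^ 2 := by ring
      _ ≤ C ^ 2 * E ^ 2 := mul_le_mul_of_nonneg_right hPQ (sq_nonneg E)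
  have hres := SF_int hdet (hfin _ _ hp1 hr1) (hfin _ _ hp1 hs1) (hfin _ _ hq1 hr1)
    (hfin _ _ hq1 hs1)
  rw [Set.mem_ofPred_eq, hp, hq, hr, hs]
  exact hres

end SimplVol

end S_SF

section S_FP

/-!
# Module FP: the weights of the divisions

`u : Fin m → Pl` with `Good u` (so the `cc γ (u i)` are nonzero, `cc_ne`).
* `fs_finite`: if `NT s` then `{γ | fs γ u = s}` is finite: `NT s` gives `a ≠ b`, `c ≠ d` with `Sep s a b c d`; `fs γ u = s` gives the three sign conditions of `sep_finite` (a product that is not `> 0` is `< 0`), `dt (u a) (u b) ≠ 0`, `dt (u c) (u d) ≠ 0`.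
* `fl_pos`: the set is finite and nonempty (`fE`): `Nat.card_pos` / `Finite.card_pos`.
* `fs_res`: `fs γ (fun i => u (ι i)) = resS ι (fs γ u)` by `rfl`. `good_res`.
* `fE_res`: `b ∈ fE (u ∘ ι) ↔ ∃ e ∈ fE u, π e = some b` for `π e = if NT (resS ι e) then some (resS ι e) else none`: if `NT (resS ι e)` then `NT e` (the same four points, `ι` injective).
* `fl_res`: for `b` with `NT b`: `fl (u ∘ ι) b = ∑ e ∈ (fE u).filter (fun e => π e = some b), fl u e`: the finite set `{γ | resS ι (fs γ u) = b}` is the disjoint union of the sets `{γ | fs γ u = e}` over the `e` with `resS ι e = b` that occur (those are in `fE u` as `NT e`). (`Finset.card_eq_sum_card_fiberwise` with the finset of `fs_finite`; or `Nat.card_sigma`.)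
* `fs_act`: `fs δ (act (tR γ) ∘ u) = fs (δ * γ) u` (`cc_mul`), so `fE_act`, `fl_act` (bijection `δ ↦ δ * γ` of `SL(2, ℤ)`: `Nat.card_congr (Equiv.subtypeEquiv (Equiv.mulRight γ) ..)`). `fo_act`: `dt_act`. `good_act`: `irr_act`, `dt_act`.
-/

set_option autoImplicit false

open scoped BigOperators UpperHalfPlane MatrixGroups

namespace SimplVol

open Classical in
/-- The restriction of divisions, as a partial map. -/
noncomputable def piR {k m : ℕ} (ι : Fin k ↪ Fin m) (e : Split m) : Option (Split k) :=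
  if NT (resS ι e) then some (resS ι e) else none

private theorem FP_res {k m : ℕ} (ι : Fin k ↪ Fin m) (u : Fin m → Pl) (γ : SL(2, ℤ)) :
    fs γ (fun i => u (ι i)) = resS ι (fs γ u) := rfl

private theorem FP_nt {k m : ℕ} (ι : Fin k ↪ Fin m) (e : Split m) (h : NT (resS ι e)) : NT e := by
  obtain ⟨a, b, c, d, hab, hcd, hs⟩ := h
  exact ⟨ι a, ι b, ι c, ι d, fun h => hab (ι.injective h), fun h => hcd (ι.injective h), hs⟩

private theorem FP_pi {k m : ℕ} (ι : Fin k ↪ Fin m) (e : Split m) (b : Split k) :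
    piR ι e = some b ↔ NT (resS ι e) ∧ resS ι e = b := by
  unfold piR
  split_ifs with h
  · simp [h]
  · simp [h]

private theorem FP_memE {m : ℕ} (u : Fin m → Pl) (s : Split m) :
    s ∈ fE u ↔ NT s ∧ ∃ γ : SL(2, ℤ), fs γ u = s := by
  unfold fE
  simp only [Finset.mem_filter, Finset.mem_univ, true_and]

theorem fs_finite {m : ℕ} (u : Fin m → Pl) (hu : Good u) (s : Split m) (hs : NT s) :
    {γ : SL(2, ℤ) | fs γ u = s}.Finite := by
  obtain ⟨a, b, c, d, hab, hcd, h1, h2, h3⟩ := hs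
  refine (sep_finite (u a) (u b) (u c) (u d) (hu.2 a b hab) (hu.2 c d hcd)).subset ?_
  intro γ hγ
  rw [Set.mem_ofPred_eq] at hγ
  rw [← hγ] at h1 h2 h3
  unfold fs at h1 h2 h3
  have h1' := of_decide_eq_true h1
  have h2' := of_decide_eq_true h2
  have h3' := of_decide_eq_false h3
  have h4 : cc γ (u a) * cc γ (u c) ≠ 0 :=
    mul_ne_zero (cc_ne γ _ (hu.1 a)) (cc_ne γ _ (hu.1 c))
  exact ⟨h1', h2', lt_of_le_of_ne (not_lt.1 h3') h4⟩

theorem fl_pos {m : ℕ} (u : Fin m → Pl) (hu : Good u) (s : Split m) (hs : s ∈ fE u) :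
    0 < fl u s := by
  rw [FP_memE] at hs
  obtain ⟨h1, γ, hγ⟩ := hs
  have hf : Finite {γ : SL(2, ℤ) // fs γ u = s} := (fs_finite u hu s h1).to_subtype
  have hn : Nonempty {γ : SL(2, ℤ) // fs γ u = s} := ⟨⟨γ, hγ⟩⟩
  unfold fl
  exact_mod_cast Nat.card_pos

theorem good_res {k m : ℕ} (ι : Fin k ↪ Fin m) (u : Fin m → Pl) (hu : Good u) :
    Good fun i => u (ι i) :=
  ⟨fun i => hu.1 (ι i), fun i j hij => hu.2 _ _ fun h => hij (ι.injective h)⟩

theorem fE_res {k m : ℕ} (ι : Fin k ↪ Fin m) (u : Fin m → Pl) (b : Split k) :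
    b ∈ fE (fun i => u (ι i)) ↔ ∃ e ∈ fE u, piR ι e = some b := by
  rw [FP_memE]
  constructor
  · rintro ⟨h1, γ, hγ⟩
    rw [FP_res] at hγ
    refine ⟨fs γ u, (FP_memE _ _).2 ⟨FP_nt ι _ (by rw [hγ]; exact h1), γ, rfl⟩, ?_⟩
    rw [FP_pi]
    exact ⟨by rw [hγ]; exact h1, hγ⟩
  · rintro ⟨e, he, h⟩
    rw [FP_memE] at he
    rw [FP_pi] at h
    obtain ⟨h1, h2⟩ := h
    obtain ⟨_, γ, hγ⟩ := he
    refine ⟨by rw [← h2]; exact h1, γ, ?_⟩
    rw [FP_res, hγ, h2]

theorem fl_res {k m : ℕ} (ι : Fin k ↪ Fin m) (u : Fin m → Pl) (hu : Good u) (b : Split k)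
    (hb : NT b) : fl (fun i => u (ι i)) b =
      ∑ e ∈ (fE u).filter (fun e => piR ι e = some b), fl u e := by
  classical
  have hfin := fs_finite (fun i => u (ι i)) (good_res ι u hu) b hb
  have h1 : Nat.card {γ : SL(2, ℤ) // fs γ (fun i => u (ι i)) = b} = hfin.toFinset.card := by
    apply Nat.subtype_card
    intro γ
    rw [Set.Finite.mem_toFinset, Set.mem_ofPred_eq]
  have h2 := Finset.card_eq_sum_card_fiberwise (s := hfin.toFinset)
    (t := (fE u).filter (fun e => piR ι e = some b)) (f := fun γ => fs γ u) (by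
      intro γ hγ
      rw [Finset.mem_coe, Set.Finite.mem_toFinset, Set.mem_ofPred_eq, FP_res] at hγ
      rw [Finset.mem_coe, Finset.mem_filter, FP_memE, FP_pi]
      have h3 : NT (resS ι (fs γ u)) := by rw [hγ]; exact hb
      exact ⟨⟨FP_nt ι _ h3, γ, rfl⟩, h3, hγ⟩)
  unfold fl
  rw [h1, h2, Nat.cast_sum]
  apply Finset.sum_congr rfl
  intro e he
  rw [Finset.mem_filter, FP_pi] at he
  congr 1
  symm
  apply Nat.subtype_card
  intro γ
  rw [Finset.mem_filter, Set.Finite.mem_toFinset, Set.mem_ofPred_eq, FP_res]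
  constructor
  · exact fun h => h.2
  · intro h
    exact ⟨by rw [h]; exact he.2.2, h⟩

theorem good_act {m : ℕ} (γ : SL(2, ℤ)) (u : Fin m → Pl) :
    Good (fun i => act (tR γ) (u i)) ↔ Good u := by
  unfold Good
  have h1 : ∀ v, Irr (act (tR γ) v) ↔ Irr v := by
    intro v
    constructor
    · intro h
      have h2 := irr_act γ⁻¹ _ h
      rw [← act_mul, ← map_mul, inv_mul_cancel, map_one, act_one] at h2
      exact h2
    · exact irr_act γ v
  simp only [h1, dt_act]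

theorem fo_act {m : ℕ} (γ : SL(2, ℤ)) (u : Fin m → Pl) :
    fo (fun i => act (tR γ) (u i)) = fo u := by
  unfold fo
  simp only [dt_act]

private theorem FP_fs {m : ℕ} (δ γ : SL(2, ℤ)) (u : Fin m → Pl) :
    fs δ (fun i => act (tR γ) (u i)) = fs (δ * γ) u := by
  unfold fs
  simp only [cc_mul]

theorem fE_act {m : ℕ} (γ : SL(2, ℤ)) (u : Fin m → Pl) :
    fE (fun i => act (tR γ) (u i)) = fE u := by
  ext s
  rw [FP_memE, FP_memE]
  refine and_congr Iff.rfl ⟨?_, ?_⟩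
  · rintro ⟨δ, hδ⟩
    exact ⟨δ * γ, by rw [← FP_fs, hδ]⟩
  · rintro ⟨δ, hδ⟩
    exact ⟨δ * γ⁻¹, by rw [FP_fs, inv_mul_cancel_right, hδ]⟩

theorem fl_act {m : ℕ} (γ : SL(2, ℤ)) (u : Fin m → Pl) :
    fl (fun i => act (tR γ) (u i)) = fl u := by
  ext s
  unfold fl
  congr 1
  apply Nat.card_congr
  refine Equiv.subtypeEquiv (Equiv.mulRight γ) ?_
  intro δ
  rw [FP_fs]
  rfl

end SimplVol

end S_FP

section S_FQ

/-!
# Module FQ: the probabilities of the ranked trees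

`P u φ := PE (fl u) (fE u).card (fE u) (fun l => ∑ τ, if τ.o = fo u ∧ τ.l = l then φ τ else 0)`.
* `pr_sum_eq`: for `Good u`: `∑ τ, pr u τ * φ τ = P u φ`: `PE_sum`, `PE_smul` (write the inner sum as `∑ τ, (if τ.o = fo u then φ τ else 0) * (if l = τ.l then 1 else 0)`).
* `pr_nonneg`: `PE_nonneg`, `fl_pos`. `pr_one`: `P u 1`: by `PE_congr` only `l` with `l.Nodup`, `l.toFinset = fE u` matter, and for those exactly one `τ` has `τ.o = fo u ∧ τ.l = l` (`exists_tree`, `RTree.ext`), so the function is `1` and `PE_const`.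
* `pr_nat`: `P u (φ ∘ pull ι)`: for `l` with `l.Nodup`, `l.toFinset = fE u` there is a unique `τ₀` with `τ₀.o = fo u`, `τ₀.l = l`, so the inner sum is `φ (τ₀.pull ι)`. The tree `τ₀.pull ι` has the orientation `fo (u ∘ ι)` and the list `(l.filterMap (piR ι)).dedup` (from the definition of `RTree.pull`:
  `((l.map (resS ι)).filter NT).dedup`; `List.filterMap_eq_map..`, or induction on `l`), so the inner sum is also `Q (l.filterMap (piR ι)).dedup` for `Q l' = ∑ τ', if τ'.o = fo (u ∘ ι) ∧ τ'.l = l' then φ τ' else 0`. `PE_merge` with `w = fl u`, `E = fE u`, `π = piR ι`, `E' = fE (u ∘ ι)` (`fE_res`), then `PE_weights` with `fl_res`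
  (`b ∈ fE (u ∘ ι)` has `NT b`), and `pr_sum_eq` for `u ∘ ι` (`good_res`).
* `pr_o`: if `τ.o ≠ fo u` then `pr u τ = 0`; so the sum is `fo u a b c * ∑ pr u τ`.
* `pr_act`: `good_act`, `fo_act`, `fE_act`, `fl_act`.
-/

set_option autoImplicit false

open scoped BigOperators UpperHalfPlane MatrixGroups

namespace SimplVol

open Classical in
/-- The expectation of a function of the tree. -/
noncomputable def FQ_Q {m : ℕ} (o : Fin m → Fin m → Fin m → ℤ) (φ : RTree m → ℝ)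
    (l : List (Split m)) : ℝ :=
  ∑ τ : RTree m, if τ.o = o ∧ τ.l = l then φ τ else 0

theorem FQ_single {m : ℕ} (φ : RTree m → ℝ) (τ : RTree m) : FQ_Q τ.o φ τ.l = φ τ := by
  classical
  unfold FQ_Q
  rw [Finset.sum_eq_single τ]
  · rw [if_pos ⟨rfl, rfl⟩]
  · intro τ' _ h
    rw [if_neg]
    rintro ⟨h1, h2⟩
    exact h (RTree.ext h1 h2)
  · intro h
    exact absurd (Finset.mem_univ _) h

theorem pr_sum_eq {m : ℕ} (u : Fin m → Pl) (hu : Good u) (φ : RTree m → ℝ) :
    ∑ τ, pr u τ * φ τ = PE (fl u) (fE u).card (fE u) (FQ_Q (fo u) φ) := by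
  classical
  have h1 : ∀ τ : RTree m, pr u τ * φ τ = PE (fl u) (fE u).card (fE u)
      (fun l => (if τ.o = fo u then φ τ else 0) * (if l = τ.l then 1 else 0)) := by
    intro τ
    rw [PE_smul]
    unfold pr
    by_cases h : τ.o = fo u
    · rw [if_pos ⟨hu, h⟩, if_pos h, mul_comm]
    · rw [if_neg (fun h2 => h h2.2), if_neg h, zero_mul, zero_mul]
  rw [Finset.sum_congr rfl (fun τ _ => h1 τ), ← PE_sum]
  congr 1
  funext l
  unfold FQ_Q
  refine Finset.sum_congr rfl fun τ _ => ?_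
  by_cases h : τ.o = fo u
  · by_cases h2 : l = τ.l
    · rw [if_pos h, if_pos h2, if_pos ⟨h, h2.symm⟩, mul_one]
    · rw [if_neg h2, mul_zero, if_neg]
      rintro ⟨_, h3⟩
      exact h2 h3.symm
  · rw [if_neg h, zero_mul, if_neg]
    rintro ⟨h3, _⟩
    exact h h3

theorem FQ_list {k m : ℕ} (ι : Fin k ↪ Fin m) (l : List (Split m)) :
    (l.map (resS ι)).filter (fun s => decide (NT s)) = l.filterMap (piR ι) := by
  induction l with
  | nil => rfl
  | cons a l ih =>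
    by_cases h : NT (resS ι a)
    · have h1 : piR ι a = some (resS ι a) := by
        unfold piR
        rw [if_pos h]
      rw [List.map_cons, List.filter_cons_of_pos (p := fun s => decide (NT s)) (decide_eq_true h), ih,
        List.filterMap_cons_some h1]
    · have h1 : piR ι a = none := by
        unfold piR
        rw [if_neg h]
      rw [List.map_cons, List.filter_cons_of_neg (p := fun s => decide (NT s)) (by simpa using h), ih,
        List.filterMap_cons_none h1]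

theorem pr_nonneg {m : ℕ} (u : Fin m → Pl) (τ : RTree m) : 0 ≤ pr u τ := by
  classical
  unfold pr
  split_ifs with h
  · refine PE_nonneg (fl u) (fE u) (fl_pos u h.1) _ (fun l _ _ => ?_)
    split_ifs <;> norm_num
  · exact le_rfl

theorem pr_one {m : ℕ} (u : Fin m → Pl) (hu : Good u) : ∑ τ, pr u τ = 1 := by
  have h1 : ∑ τ, pr u τ = ∑ τ, pr u τ * (fun _ : RTree m => (1 : ℝ)) τ :=
    Finset.sum_congr rfl (fun τ _ => (mul_one _).symm)
  rw [h1, pr_sum_eq u hu, PE_congr _ _ _ (fun _ => (1 : ℝ)) ?_, PE_const _ _ (fl_pos u hu)]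
  intro l hl hlE
  obtain ⟨τ, h2, h3⟩ := exists_tree u hu l hl hlE
  rw [← h2, ← h3]
  exact FQ_single _ τ

theorem pr_le_one {m : ℕ} (u : Fin m → Pl) (τ : RTree m) : pr u τ ≤ 1 := by
  by_cases hu : Good u
  · rw [← pr_one u hu]
    exact Finset.single_le_sum (f := fun τ => pr u τ) (fun τ' _ => pr_nonneg u τ')
      (Finset.mem_univ τ)
  · unfold pr
    rw [if_neg (fun h => hu h.1)]
    norm_num

theorem pr_nat {k m : ℕ} (ι : Fin k ↪ Fin m) (u : Fin m → Pl) (hu : Good u) (φ : RTree k → ℝ) :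
    ∑ τ, pr u τ * φ (τ.pull ι) = ∑ τ', pr (fun i => u (ι i)) τ' * φ τ' := by
  have hu' := good_res ι u hu
  rw [pr_sum_eq u hu (fun τ => φ (τ.pull ι)), pr_sum_eq _ hu' φ,
    PE_congr (fl u) (fE u) _ (fun l => FQ_Q (fo fun i => u (ι i)) φ (l.filterMap (piR ι)).dedup) ?_,
    PE_merge (fl u) (fE u) (fl_pos u hu) (piR ι) (fE fun i => u (ι i)) (fE_res ι u)]
  · refine PE_weights _ _ _ _ (fun b hb => ?_) _
    have hb' : NT b := by
      simp only [fE, Finset.mem_filter, Finset.mem_univ, true_and] at hb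
      exact hb.1
    exact (fl_res ι u hu b hb').symm
  · intro l hl hlE
    obtain ⟨τ, h2, h3⟩ := exists_tree u hu l hl hlE
    have e1 := FQ_single (fun τ => φ (τ.pull ι)) τ
    have e2 := FQ_single φ (τ.pull ι)
    have e3 : (τ.pull ι).o = fo fun i => u (ι i) := by
      show (fun a b c => τ.o (ι a) (ι b) (ι c)) = _
      rw [h2]
      rfl
    have e4 : (τ.pull ι).l = (l.filterMap (piR ι)).dedup := by
      show ((τ.l.map (resS ι)).filter fun s => decide (NT s)).dedup = _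
      rw [h3, FQ_list]
    rw [h2, h3] at e1
    rw [e3, e4] at e2
    rw [e1]
    exact e2.symm

theorem pr_o {m : ℕ} (u : Fin m → Pl) (hu : Good u) (a b c : Fin m) :
    ∑ τ, pr u τ * ((τ.o a b c : ℤ) : ℝ) = ori (u a) (u b) (u c) := by
  have h1 : ∀ τ : RTree m, pr u τ * ((τ.o a b c : ℤ) : ℝ) = pr u τ * ((fo u a b c : ℤ) : ℝ) := by
    intro τ
    by_cases h : τ.o = fo u
    · rw [h]
    · have : pr u τ = 0 := by
        unfold pr
        rw [if_neg (fun h2 => h h2.2)]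
      rw [this, zero_mul, zero_mul]
  rw [Finset.sum_congr rfl (fun τ _ => h1 τ), ← Finset.sum_mul, pr_one u hu, one_mul, fo_ori]

theorem pr_act {m : ℕ} (γ : SL(2, ℤ)) (u : Fin m → Pl) (τ : RTree m) :
    pr (fun i => act (tR γ) (u i)) τ = pr u τ := by
  have hG := good_act γ u
  have hf := fo_act γ u
  have hE := fE_act γ u
  have hl := fl_act γ u
  unfold pr
  by_cases hu : Good u
  · by_cases h : τ.o = fo u
    · rw [if_pos ⟨hG.2 hu, h.trans hf.symm⟩, if_pos ⟨hu, h⟩, hE, hl]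
    · rw [if_neg (fun h2 => h (h2.2.trans hf)), if_neg (fun h2 => h h2.2)]
  · rw [if_neg (fun h2 => hu (hG.1 h2.1)), if_neg (fun h2 => hu h2.1)]

end SimplVol

end S_FQ

section S_FM

/-!
# Module FM: measurability of the probabilities

`PE_single`: `PE (fl u) (fE u).card (fE u) (fun l => if l = τ.l then 1 else 0) = if τ.l.Nodup ∧ τ.l.toFinset = fE u then wl (fl u) τ.l else 0`. So `pr u τ = if (Good u ∧ τ.o = fo u ∧ τ.l.toFinset = fE u) then wl (fl u) τ.l else 0` (`τ.nodup`).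
* `act (tR γ) v` is measurable in `v`, `cc γ` is measurable (`fun_prop` after unfolding, or `act_preserving .measurable`). For every `γ` and every `s : Split m` the set `{u | fs γ u = s}` is measurable: finite intersection over `a, b` of `{u | decide (0 < cc γ (u a) * cc γ (u b)) = s a b}` (`MeasurableSet` of `{x | 0 < f x}` or its complement).
* `{u | s ∈ fE u}`: union over the countable type `SL(2, ℤ)` (countable: injective map to `Fin 2 → Fin 2 → ℤ`, provide the instance if it is missing; for `s` without `NT s` it is empty). `{u | τ.l.toFinset = fE u}`: finite intersection over `s` of `s ∈ τ.l.toFinset ↔ s ∈ fE u`.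
* `{u | Good u}`: countable/finite intersections of `{u | a (u i).1 + b (u i).2 ≠ 0}` (for `(a, b) ≠ 0`), `{u | dt (u i) (u j) ≠ 0}`. `{u | τ.o = fo u}`: finite intersection over `a, b, c` of measurable sets (`fo` takes the values `1, -1, 0` on measurable sets).
* `u ↦ fl u s` is measurable: `fl u s = (∑' γ, if fs γ u = s then (1 : ENNReal) else 0).toReal`: if the set `{γ | fs γ u = s}` is finite, both sides are its cardinality (`tsum_eq_sum`/`ENNReal.tsum_..`, `Nat.card` of a finite type), if it is infinite, both sides are `0` (`Nat.card_eq_zero_of_infinite`, `ENNReal.tsum_const_eq_top_of_ne_zero` on the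
  infinite subtype: `tsum_subtype`). Perhaps `Measure.count` helps: `Measure.count_apply`, or `ENat.card`/`Set.encard` `ENNReal.tsum_one`/`tsum_one_eq..`. Then `Measurable.ennreal_tsum` (or `Measurable.tsum`-type lemma), `.ennreal_toReal`.
* `wl (fl u) l` is a finite product of quotients of sums: `Finset.measurable_prod`, `Measurable.div`, `List.measurable_sum`/induction on the list. `Measurable.ite`.
-/

set_option autoImplicit false

open scoped BigOperators UpperHalfPlane MatrixGroups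
open MeasureTheory

namespace SimplVol

theorem countable_SLZ : Countable SL(2, ℤ) := by
  have : Function.Injective (fun γ : SL(2, ℤ) => (fun i j => γ i j : Fin 2 → Fin 2 → ℤ)) := by
    intro γ δ h
    ext i j
    exact congrFun (congrFun h i) j
  exact this.countable

theorem FM_dt {m : ℕ} (i j : Fin m) : Measurable fun u : Fin m → Pl => dt (u i) (u j) := by
  unfold dt
  fun_prop

theorem FM_cc {m : ℕ} (γ : SL(2, ℤ)) (a : Fin m) : Measurable fun u : Fin m → Pl => cc γ (u a) := by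
  unfold cc act
  fun_prop

theorem measurableSet_good (m : ℕ) : MeasurableSet {u : Fin m → Pl | Good u} := by
  have h : {u : Fin m → Pl | Good u} =
      (⋂ i : Fin m, ⋂ a : ℤ, ⋂ b : ℤ, {u : Fin m → Pl | (a ≠ 0 ∨ b ≠ 0) →
        (a : ℝ) * (u i).1 + (b : ℝ) * (u i).2 ≠ 0}) ∩
      ⋂ i : Fin m, ⋂ j : Fin m, {u : Fin m → Pl | i ≠ j → dt (u i) (u j) ≠ 0} := by
    ext u
    simp only [Good, Irr, Set.mem_setOf_eq, Set.mem_inter_iff, Set.mem_iInter]
  rw [h]
  refine (MeasurableSet.iInter fun i => MeasurableSet.iInter fun a => MeasurableSet.iInter fun b =>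
    ?_).inter (MeasurableSet.iInter fun i => MeasurableSet.iInter fun j => ?_)
  · by_cases hab : a ≠ 0 ∨ b ≠ 0
    · have h1 : {u : Fin m → Pl | (a ≠ 0 ∨ b ≠ 0) → (a : ℝ) * (u i).1 + (b : ℝ) * (u i).2 ≠ 0} =
          {u : Fin m → Pl | (a : ℝ) * (u i).1 + (b : ℝ) * (u i).2 = 0}ᶜ := by
        ext u
        simp only [Set.mem_setOf_eq, Set.mem_compl_iff]
        exact ⟨fun h => h hab, fun h _ => h⟩
      rw [h1]
      refine MeasurableSet.compl (measurableSet_eq_fun ?_ measurable_const)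
      fun_prop
    · have h1 : {u : Fin m → Pl | (a ≠ 0 ∨ b ≠ 0) → (a : ℝ) * (u i).1 + (b : ℝ) * (u i).2 ≠ 0} =
          Set.univ := by
        ext u
        simp only [Set.mem_setOf_eq, Set.mem_univ, iff_true]
        exact fun h => absurd h hab
      rw [h1]
      exact MeasurableSet.univ
  · by_cases hij : i ≠ j
    · have h1 : {u : Fin m → Pl | i ≠ j → dt (u i) (u j) ≠ 0} =
          {u : Fin m → Pl | dt (u i) (u j) = 0}ᶜ := by
        ext u
        simp only [Set.mem_setOf_eq, Set.mem_compl_iff]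
        exact ⟨fun h => h hij, fun h _ => h⟩
      rw [h1]
      exact MeasurableSet.compl (measurableSet_eq_fun (FM_dt i j) measurable_const)
    · have h1 : {u : Fin m → Pl | i ≠ j → dt (u i) (u j) ≠ 0} = Set.univ := by
        ext u
        simp only [Set.mem_setOf_eq, Set.mem_univ, iff_true]
        exact fun h => absurd h hij
      rw [h1]
      exact MeasurableSet.univ

theorem FM_fs {m : ℕ} (γ : SL(2, ℤ)) (s : Split m) : MeasurableSet {u : Fin m → Pl | fs γ u = s} := by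
  have h : {u : Fin m → Pl | fs γ u = s} =
      ⋂ a : Fin m, ⋂ b : Fin m, {u : Fin m → Pl | 0 < cc γ (u a) * cc γ (u b) ↔ s a b = true} := by
    ext u
    simp only [Set.mem_setOf_eq, Set.mem_iInter, fs, funext_iff]
    refine forall_congr' fun a => forall_congr' fun b => ?_
    rcases hs : s a b with _ | _
    · simp
    · simp
  rw [h]
  refine MeasurableSet.iInter fun a => MeasurableSet.iInter fun b => ?_
  have h1 : MeasurableSet {u : Fin m → Pl | 0 < cc γ (u a) * cc γ (u b)} :=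
    measurableSet_lt measurable_const ((FM_cc γ a).mul (FM_cc γ b))
  by_cases hs : s a b = true
  · simpa [hs] using h1
  · have h2 : {u : Fin m → Pl | 0 < cc γ (u a) * cc γ (u b) ↔ s a b = true} =
        {u : Fin m → Pl | 0 < cc γ (u a) * cc γ (u b)}ᶜ := by
      ext u
      simp only [Set.mem_setOf_eq, Set.mem_compl_iff, hs, iff_false]
      simp
    rw [h2]
    exact h1.compl

theorem FM_fE {m : ℕ} (s : Split m) : MeasurableSet {u : Fin m → Pl | s ∈ fE u} := by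
  have := countable_SLZ
  by_cases hs : NT s
  · have h : {u : Fin m → Pl | s ∈ fE u} = ⋃ γ : SL(2, ℤ), {u : Fin m → Pl | fs γ u = s} := by
      ext u
      simp only [fE, Set.mem_setOf_eq, Finset.mem_filter, Finset.mem_univ, true_and, Set.mem_iUnion,
        hs]
    rw [h]
    exact MeasurableSet.iUnion fun γ => FM_fs γ s
  · have h : {u : Fin m → Pl | s ∈ fE u} = ∅ := by
      ext u
      simp only [fE, Set.mem_setOf_eq, Finset.mem_filter, Finset.mem_univ, true_and, hs,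
        false_and, Set.mem_empty_iff_false]
    rw [h]
    exact MeasurableSet.empty

theorem FM_fEeq {m : ℕ} (F : Finset (Split m)) : MeasurableSet {u : Fin m → Pl | F = fE u} := by
  have h : {u : Fin m → Pl | F = fE u} =
      ⋂ s : Split m, {u : Fin m → Pl | s ∈ F ↔ s ∈ fE u} := by
    ext u
    simp only [Set.mem_setOf_eq, Set.mem_iInter, Finset.ext_iff]
  rw [h]
  refine MeasurableSet.iInter fun s => ?_
  by_cases hs : s ∈ F
  · have h1 : {u : Fin m → Pl | s ∈ F ↔ s ∈ fE u} = {u : Fin m → Pl | s ∈ fE u} := by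
      ext u
      simp [hs]
    rw [h1]
    exact FM_fE s
  · have h1 : {u : Fin m → Pl | s ∈ F ↔ s ∈ fE u} = {u : Fin m → Pl | s ∈ fE u}ᶜ := by
      ext u
      simp [hs]
    rw [h1]
    exact (FM_fE s).compl

theorem FM_fo {m : ℕ} (o : Fin m → Fin m → Fin m → ℤ) :
    MeasurableSet {u : Fin m → Pl | o = fo u} := by
  have h : {u : Fin m → Pl | o = fo u} =
      ⋂ a : Fin m, ⋂ b : Fin m, ⋂ c : Fin m, {u : Fin m → Pl | fo u a b c = o a b c} := by
    ext u
    simp only [Set.mem_setOf_eq, Set.mem_iInter, funext_iff]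
    exact forall_congr' fun a => forall_congr' fun b => forall_congr' fun c => eq_comm
  rw [h]
  refine MeasurableSet.iInter fun a => MeasurableSet.iInter fun b => MeasurableSet.iInter fun c => ?_
  have h0 : Measurable fun u : Fin m → Pl => dt (u a) (u b) * dt (u b) (u c) * dt (u c) (u a) :=
    ((FM_dt a b).mul (FM_dt b c)).mul (FM_dt c a)
  have h1 : Measurable fun u : Fin m → Pl => fo u a b c := by
    unfold fo
    exact Measurable.ite (measurableSet_lt measurable_const h0) measurable_const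
      (Measurable.ite (measurableSet_lt h0 measurable_const) measurable_const measurable_const)
  exact h1 (measurableSet_singleton _)

theorem FM_fl {m : ℕ} (s : Split m) : Measurable fun u : Fin m → Pl => fl u s := by
  classical
  have := countable_SLZ
  have h : (fun u : Fin m → Pl => fl u s) =
      fun u => (∑' γ : SL(2, ℤ), if fs γ u = s then (1 : ENNReal) else 0).toReal := by
    funext u
    have h1 : (∑' γ : SL(2, ℤ), if fs γ u = s then (1 : ENNReal) else 0) =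
        ∑' γ : {γ : SL(2, ℤ) // fs γ u = s}, (1 : ENNReal) := by
      have := tsum_subtype {γ : SL(2, ℤ) | fs γ u = s} (fun _ => (1 : ENNReal))
      refine Eq.trans ?_ this.symm
      refine tsum_congr fun γ => ?_
      rw [Set.indicator_apply]
      rfl
    rw [h1]
    unfold fl
    rcases finite_or_infinite {γ : SL(2, ℤ) // fs γ u = s} with hf | hf
    · have := Fintype.ofFinite {γ : SL(2, ℤ) // fs γ u = s}
      rw [tsum_fintype, Finset.sum_const, Nat.card_eq_fintype_card, Finset.card_univ]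
      simp
    · rw [Nat.card_eq_zero_of_infinite, ENNReal.tsum_const_eq_top_of_ne_zero one_ne_zero]
      simp
  rw [h]
  refine Measurable.ennreal_toReal (Measurable.tsum fun γ => ?_)
  exact Measurable.ite (FM_fs γ s) measurable_const measurable_const

theorem FM_sum {m : ℕ} (l : List (Split m)) :
    Measurable fun u : Fin m → Pl => (l.map (fl u)).sum := by
  induction l with
  | nil => simp
  | cons a l ih =>
    simp only [List.map_cons, List.sum_cons]
    exact (FM_fl a).add ih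

theorem FM_wl {m : ℕ} (l : List (Split m)) : Measurable fun u : Fin m → Pl => wl (fl u) l := by
  unfold wl
  refine Finset.measurable_prod _ fun i _ => ?_
  exact (FM_fl _).div (FM_sum _)

open Classical in
theorem FM_pr {m : ℕ} (u : Fin m → Pl) (τ : RTree m) :
    pr u τ = if Good u ∧ τ.o = fo u ∧ τ.l.toFinset = fE u then wl (fl u) τ.l else 0 := by
  have h := PE_single (fl u) (fE u) τ.l
  have h2 : (PE (fl u) (fE u).card (fE u) fun l => if l = τ.l then 1 else 0) =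
      if τ.l.toFinset = fE u then wl (fl u) τ.l else 0 := by
    refine Eq.trans ?_ (h.trans ?_)
    · congr!
    · simp only [τ.nodup, true_and]
  unfold pr
  by_cases h1 : Good u ∧ τ.o = fo u
  · rw [if_pos h1]
    refine Eq.trans h2 ?_
    simp only [h1.1, h1.2, true_and]
  · rw [if_neg h1, if_neg]
    rintro ⟨h3, h4, _⟩
    exact h1 ⟨h3, h4⟩

theorem pr_measurable {m : ℕ} (τ : RTree m) : Measurable fun u : Fin m → Pl => pr u τ := by
  classical
  simp only [FM_pr]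
  refine Measurable.ite ?_ (FM_wl _) measurable_const
  exact (measurableSet_good m).inter ((FM_fo _).inter (FM_fEeq _))

end SimplVol

end S_FM
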