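import Pool.Agent.H54.RM.A2
import Pool.Agent.H54.RM.C1
import Pool.Agent.H74.SV.AR
import Pool.Agent.H74.SV.OA

/-! Simplicial volume and ranked planar trees, part C2: this file joins several modules to save build time. -/

section S_EP

/-!
# Module EP: independent uniformly distributed vectors in ellipses

* `eP_prob`: `volume_ell`: `volume (ell z) = ENNReal.ofReal π`, which is not `0` or `⊤`.
* `eP_act`: `act_preserving g` restricted: `ell_act`: `act g ⁻¹' ell (g • z) = ell z` (`MeasurePreserving.restrict_preimage`), then scale (`Measure.map_smul`).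
* `eP_pi_act`: `MeasureTheory.measurePreserving_pi`.
* `eP_pi_emb`: measurable; the measure `map` is the product measure by `Measure.pi_eq`: for measurable `s : Fin k → Set Pl`, the preimage of `Set.pi univ s` is `Set.pi univ t` with `t j = s i` if `j = ι i`, `univ` if `j` is not in the range (classical; `Function.extend`), and `∏_j eP (x j) (t j) = ∏_i eP (x (ι i)) (s i)` (`Measure.pi_pi`,
  `Finset.prod_subset`/`Finset.prod_map`, probability measures).
-/

set_option autoImplicit false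

open scoped BigOperators UpperHalfPlane MatrixGroups ENNReal
open MeasureTheory

namespace SimplVol

instance eP_prob (z : ℍ) : IsProbabilityMeasure (eP z) := by
  constructor
  rw [eP, Measure.smul_apply, Measure.restrict_apply_univ, volume_ell, smul_eq_mul]
  exact ENNReal.inv_mul_cancel (ENNReal.ofReal_pos.2 Real.pi_pos).ne' ENNReal.ofReal_ne_top

theorem eP_act (g : SL(2, ℝ)) (z : ℍ) : MeasurePreserving (act g) (eP z) (eP (g • z)) := by
  have h := (act_preserving g).restrict_preimage (ell_measurable (g • z))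
  have e : act g ⁻¹' ell (g • z) = ell z := by
    ext u
    exact ell_act g z u
  rw [e] at h
  exact h.smul_measure _

theorem eP_pi_act {m : ℕ} (g : SL(2, ℝ)) (x : Fin m → ℍ) :
    MeasurePreserving (fun (v : Fin m → Pl) i => act g (v i)) (Measure.pi fun i => eP (x i))
      (Measure.pi fun i => eP (g • x i)) :=
  measurePreserving_pi _ _ (fun i => eP_act g (x i))

theorem eP_pi_emb {k m : ℕ} (ι : Fin k ↪ Fin m) (x : Fin m → ℍ) :
    MeasurePreserving (fun (v : Fin m → Pl) i => v (ι i)) (Measure.pi fun i => eP (x i))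
      (Measure.pi fun i => eP (x (ι i))) := by
  classical
  have hm : Measurable (fun (v : Fin m → Pl) (i : Fin k) => v (ι i)) :=
    measurable_pi_lambda _ (fun i => measurable_pi_apply _)
  refine ⟨hm, ?_⟩
  symm
  apply Measure.pi_eq
  intro s hs
  rw [Measure.map_apply hm (MeasurableSet.univ_pi hs)]
  set t : Fin m → Set Pl := fun j => if h : ∃ i, ι i = j then s h.choose else Set.univ with ht
  have ht1 : ∀ i, t (ι i) = s i := by
    intro i
    have h : ∃ i', ι i' = ι i := ⟨i, rfl⟩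
    simp only [ht]
    rw [dif_pos h]
    exact congrArg s (ι.injective h.choose_spec)
  have ht2 : ∀ j, (¬ ∃ i, ι i = j) → t j = Set.univ := by
    intro j h
    simp only [ht]
    rw [dif_neg h]
  have e : (fun (v : Fin m → Pl) (i : Fin k) => v (ι i)) ⁻¹' (Set.univ.pi s) =
      Set.univ.pi t := by
    ext v
    simp only [Set.mem_preimage, Set.mem_univ_pi]
    constructor
    · intro h j
      by_cases hj : ∃ i, ι i = j
      · obtain ⟨i, rfl⟩ := hj
        rw [ht1]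
        exact h i
      · rw [ht2 j hj]
        exact Set.mem_univ _
    · intro h i
      have := h (ι i)
      rw [ht1] at this
      exact this
  rw [e, Measure.pi_pi]
  have h1 : ∏ j ∈ Finset.univ.map ι, eP (x j) (t j) = ∏ j, eP (x j) (t j) := by
    apply Finset.prod_subset (Finset.subset_univ _)
    intro j _ hj
    have hj' : ¬ ∃ i, ι i = j := by
      rintro ⟨i, rfl⟩
      exact hj (Finset.mem_map_of_mem ι (Finset.mem_univ i))
    rw [ht2 j hj', measure_univ]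
  rw [← h1, Finset.prod_map]
  apply Finset.prod_congr rfl
  intro i _
  rw [ht1]

end SimplVol

end S_EP

section S_EQ

/-!
# Module EQ: almost all configurations are good; the average orientation

* `eP_good`: for each `i` and `(a, b) ≠ 0` the line `{v | a v.1 + b v.2 = 0}` has measure zero in `Pl` (e.g. `Measure.addHaar_affineSubspace`/`addHaar_submodule`, or Fubini), so it is a null set for `eP z` (absolutely continuous) and its preimage under the evaluation at `i` is a null set of the product measure (`measurePreserving_eval`, quasi-measure-preserving).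
  For `i ≠ j`: `{v | dt (v i) (v j) = 0}` is null: by `eP_pi_emb` for the embedding `![i, j] : Fin 2 ↪ Fin m` reduce to two vectors; for fixed `v 0 ≠ 0` the set of the `v 1` is a line (`measurePreserving_finTwoArrow`, `Measure.prod`, `Measure.measure_prod_null`/`ae_prod`). Countably many conditions (`ae_all_iff`; `ℤ` is countable).
* `eP_ori`: `ori_avg` (module `Pool/Agent/H74/SV/OA.lean`: the integral of `ori` over `ell x ×ˢ ell y ×ˢ ell z`) is the statement for the iterated product; transfer to `Fin 3 → Pl` by `measurePreserving_piFinSuccAbove` twice, or show that `v ↦ (v 0, v 1, v 2)` maps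
  `Measure.pi` to the product measure (`Measure.prod_eq` on boxes twice). Scalars: `π^3`.
-/

set_option autoImplicit false

open scoped BigOperators UpperHalfPlane MatrixGroups ENNReal
open MeasureTheory

namespace SimplVol

theorem EQ_line (α β : ℝ) (h : α ≠ 0 ∨ β ≠ 0) :
    (volume : Measure Pl) {v : Pl | α * v.1 + β * v.2 = 0} = 0 := by
  let f : Pl →ₗ[ℝ] ℝ := α • LinearMap.fst ℝ ℝ ℝ + β • LinearMap.snd ℝ ℝ ℝ
  have hf : ∀ v : Pl, f v = α * v.1 + β * v.2 := fun v => by simp [f]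
  have e : {v : Pl | α * v.1 + β * v.2 = 0} = (LinearMap.ker f : Set Pl) := by
    ext v
    rw [SetLike.mem_coe, LinearMap.mem_ker, hf]
    rfl
  rw [e]
  apply Measure.addHaar_submodule
  intro htop
  rcases h with h | h
  · have h1 : ((1, 0) : Pl) ∈ LinearMap.ker f := by rw [htop]; trivial
    rw [LinearMap.mem_ker, hf] at h1
    apply h
    simpa using h1
  · have h1 : ((0, 1) : Pl) ∈ LinearMap.ker f := by rw [htop]; trivial
    rw [LinearMap.mem_ker, hf] at h1
    apply h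
    simpa using h1

theorem EQ_ac (z : ℍ) : eP z ≪ (volume : Measure Pl) := by
  unfold eP
  exact Measure.smul_absolutelyContinuous.trans Measure.restrict_le_self.absolutelyContinuous

theorem EQ_line' (z : ℍ) (α β : ℝ) (h : α ≠ 0 ∨ β ≠ 0) :
    ∀ᵐ v ∂(eP z), α * v.1 + β * v.2 ≠ 0 := by
  rw [ae_iff]
  have e : {v : Pl | ¬ (α * v.1 + β * v.2 ≠ 0)} = {v : Pl | α * v.1 + β * v.2 = 0} := by
    ext v
    simp
  rw [e]
  exact EQ_ac z (EQ_line α β h)

theorem EQ_irr (z : ℍ) : ∀ᵐ v ∂(eP z), Irr v := by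
  unfold Irr
  rw [ae_all_iff]
  intro a
  rw [ae_all_iff]
  intro b
  by_cases hab : a ≠ 0 ∨ b ≠ 0
  · have h := EQ_line' z (a : ℝ) (b : ℝ) (by
      rcases hab with h | h
      · exact Or.inl (by exact_mod_cast h)
      · exact Or.inr (by exact_mod_cast h))
    filter_upwards [h] with v hv _
    exact hv
  · exact ae_of_all _ fun v hv => absurd hv hab

theorem EQ_dt_meas : Measurable fun p : Pl × Pl => dt p.1 p.2 :=
  OA_dt_meas measurable_fst measurable_snd

theorem EQ_dt2 (z w : ℍ) : ∀ᵐ p ∂((eP z).prod (eP w)), dt p.1 p.2 ≠ 0 := by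
  have hm : MeasurableSet {p : Pl × Pl | dt p.1 p.2 ≠ 0} :=
    (EQ_dt_meas (measurableSet_singleton (0 : ℝ))).compl
  rw [Measure.ae_prod_iff_ae_ae hm]
  have h0 : ∀ᵐ v ∂(eP z), (1 : ℝ) * v.1 + 0 * v.2 ≠ 0 := EQ_line' z 1 0 (Or.inl one_ne_zero)
  filter_upwards [h0] with v hv
  have hv1 : v.1 ≠ 0 := by
    intro h
    apply hv
    rw [h]
    ring
  have h1 := EQ_line' w (-v.2) v.1 (Or.inr hv1)
  filter_upwards [h1] with u hu hu2
  apply hu
  unfold dt at hu2
  linarith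

theorem EQ_dt {m : ℕ} (x : Fin m → ℍ) (i j : Fin m) (hij : i ≠ j) :
    ∀ᵐ v ∂(Measure.pi fun i => eP (x i)), dt (v i) (v j) ≠ 0 := by
  let ι : Fin 2 ↪ Fin m := ⟨![i, j], by
    intro a b hab
    fin_cases a <;> fin_cases b
    · rfl
    · exact absurd hab hij
    · exact absurd hab hij.symm
    · rfl⟩
  have h1 := eP_pi_emb ι x
  have h2 := measurePreserving_piFinTwo (fun a : Fin 2 => eP (x (ι a)))
  have h3 := (h2.comp h1).quasiMeasurePreserving.ae (EQ_dt2 (x (ι 0)) (x (ι 1)))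
  exact h3

theorem eP_good {m : ℕ} (x : Fin m → ℍ) : ∀ᵐ v ∂(Measure.pi fun i => eP (x i)), Good v := by
  have h1 : ∀ᵐ v ∂(Measure.pi fun i => eP (x i)), ∀ i, Irr (v i) := by
    rw [ae_all_iff]
    intro i
    exact (measurePreserving_eval (fun i => eP (x i)) i).quasiMeasurePreserving.ae (EQ_irr (x i))
  have h2 : ∀ᵐ v ∂(Measure.pi fun i => eP (x i)), ∀ i j, i ≠ j → dt (v i) (v j) ≠ 0 := by
    rw [ae_all_iff]
    intro i
    rw [ae_all_iff]
    intro j
    by_cases hij : i = j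
    · exact ae_of_all _ fun v h => absurd hij h
    · filter_upwards [EQ_dt x i j hij] with v hv _
      exact hv
  filter_upwards [h1, h2] with v hv1 hv2
  exact ⟨hv1, hv2⟩

theorem EQ_triple (x y z : ℍ) :
    ∫ p, ori p.1 p.2.1 p.2.2 ∂((eP x).prod ((eP y).prod (eP z))) = area x y z / Real.pi := by
  have hpi := Real.pi_pos
  have hc : (ENNReal.ofReal Real.pi)⁻¹ ≠ ⊤ := by
    rw [ENNReal.inv_ne_top]
    exact (ENNReal.ofReal_pos.2 hpi).ne'
  have e : (eP x).prod ((eP y).prod (eP z)) =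
      (ENNReal.ofReal Real.pi)⁻¹ • (ENNReal.ofReal Real.pi)⁻¹ • (ENNReal.ofReal Real.pi)⁻¹ •
        (volume : Measure (Pl × Pl × Pl)).restrict (ell x ×ˢ (ell y ×ˢ ell z)) := by
    unfold eP
    rw [Measure.prod_smul_left, Measure.prod_smul_left, Measure.prod_smul_right,
      Measure.prod_smul_right, Measure.prod_smul_right, Measure.prod_restrict,
      Measure.prod_restrict]
    rfl
  rw [e, integral_smul_measure, integral_smul_measure, integral_smul_measure, ori_avg,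
    ENNReal.toReal_inv, ENNReal.toReal_ofReal hpi.le]
  simp only [smul_eq_mul]
  field_simp

theorem eP_ori (x : Fin 3 → ℍ) :
    ∫ v, ori (v 0) (v 1) (v 2) ∂(Measure.pi fun i => eP (x i)) =
      area (x 0) (x 1) (x 2) / Real.pi := by
  have h1 := measurePreserving_piFinSuccAbove (fun i : Fin 3 => eP (x i)) 0
  have h2 := measurePreserving_piFinTwo (fun j : Fin 2 => eP (x (Fin.succAbove 0 j)))
  have h3 := ((MeasurePreserving.id (eP (x 0))).prod h2).comp h1
  have h4 := h3.map_eq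
  rw [← EQ_triple]
  change _ = ∫ p, ori p.1 p.2.1 p.2.2 ∂((eP (x 0)).prod
    ((eP (x (Fin.succAbove 0 0))).prod (eP (x (Fin.succAbove 0 1)))))
  rw [← h4, integral_map h3.measurable.aemeasurable
    (ori_measurable.aestronglyMeasurable)]
  rfl

end SimplVol

end S_EQ

section S_SA

/-!
# Module SA: the space of matrices

`A = (p, q) : Pl × Pl` are the columns of a matrix.
* `tr_preserving`: compose `measurePreserving_prodAssoc`, `Measure.measurePreserving_swap` and products with the identity (`MeasurePreserving.prod`): `((a, b), (c, d)) → (a, (b, (c, d))) → (a, ((b, c), d)) → (a, ((c, b), d)) → (a, (c, (b, d))) → ((a, c), (b, d))`.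
* `lm_preserving`: product of `act_preserving g` with itself (`MeasurePreserving.prod`; `volume` on a product is the product measure by `rfl`). `rm_preserving`: `rm g A = tr (lm gᵀ (tr A))` with `tr` the transposition of `tr_preserving` and `gᵀ` the transposed matrix (`⟨(g : Matrix ..)ᵀ, _⟩`, `Matrix.det_transpose`).
* `dt_lm`: `dt_act`; `dt_rm`: `ring` and `det g = 1`. `sl_lm`, `sl_rm`: both sides are the matrix divided by the same square root; ext over the entries (`Subtype.ext`, `Matrix.ext`, `fin_cases`), `Matrix.mul_apply`, `Fin.sum_univ_two`. `lm_mul`: `act_mul`.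
* `sl_entries`: for `0 < dt A.1 A.2` the entries of `sl A` (definition).
* `act_sl_meas`: on the measurable set `{0 < dt A.1 A.2}` the entries are measurable functions; `sl A i j` is measurable in `A` for all `i, j` (`Measurable.ite`-type argument: `A ↦ sl A i j` equals `if 0 < dt A.1 A.2 then .. / √.. else (1 : matrix) i j`), then `act` is a polynomial in the entries.
* `sl_smul_meas`: `measurableEmbedding_coe.measurable_comp_iff`: it suffices that `A ↦ ((sl A • z : ℍ) : ℂ)` is measurable: `UpperHalfPlane.coe_specialLinearGroup_apply`: a quotient of affine functions of the (measurable) entries (`Complex.measurable_ofReal`). `smul_sl_meas`: composition with the continuous (`continuous_const_smul`) map `z ↦ g • z`, or `g • sl A • z = sl (lm g A) • z`.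
* `XX_pos`: `XX` contains the nonempty open set `{A | 0 < dt A.1 A.2 ∧ dt A.1 A.2 < 1}` (contains `((1/2, 0), (0, 1))`); `IsOpen.measure_pos`.
-/

set_option autoImplicit false

open scoped BigOperators UpperHalfPlane MatrixGroups
open MeasureTheory

namespace SimplVol

theorem tr_preserving : MeasurePreserving
    (fun A : Pl × Pl => (((A.1.1, A.2.1), (A.1.2, A.2.2)) : Pl × Pl)) volume volume := by
  -- `((a, b), (c, d)) → (a, (b, (c, d)))`
  have h1 : MeasurePreserving (MeasurableEquiv.prodAssoc : (ℝ × ℝ) × Pl ≃ᵐ ℝ × (ℝ × Pl))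
      volume volume := MeasureTheory.measurePreserving_prodAssoc volume volume volume
  have h2 : MeasurePreserving (MeasurableEquiv.prodAssoc : (ℝ × ℝ) × ℝ ≃ᵐ ℝ × (ℝ × ℝ))
      volume volume := MeasureTheory.measurePreserving_prodAssoc volume volume volume
  have h3 : MeasurePreserving (Prod.swap : ℝ × ℝ → ℝ × ℝ) volume volume :=
    Measure.measurePreserving_swap
  have hid : MeasurePreserving (id : ℝ → ℝ) volume volume := MeasurePreserving.id _
  -- `(b, (c, d)) → (c, (b, d))`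
  have h4 : MeasurePreserving (fun x : ℝ × (ℝ × ℝ) => (x.2.1, (x.1, x.2.2))) volume volume := by
    have h5 : MeasurePreserving (Prod.map (Prod.swap : ℝ × ℝ → ℝ × ℝ) (id : ℝ → ℝ))
        (volume : Measure ((ℝ × ℝ) × ℝ)) volume := h3.prod hid
    have h6 := (h2.comp h5).comp (MeasurePreserving.symm _ h2)
    exact h6
  have h7 : MeasurePreserving (Prod.map (id : ℝ → ℝ)
      (fun x : ℝ × (ℝ × ℝ) => (x.2.1, (x.1, x.2.2))))
        (volume : Measure (ℝ × (ℝ × (ℝ × ℝ)))) volume := hid.prod h4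
  exact ((MeasurePreserving.symm _ h1).comp h7).comp h1

theorem lm_preserving (g : SL(2, ℝ)) : MeasurePreserving (lm g) volume volume := by
  have h : MeasurePreserving (Prod.map (act g) (act g)) (volume : Measure (Pl × Pl)) volume :=
    (act_preserving g).prod (act_preserving g)
  exact h

theorem rm_preserving (g : SL(2, ℝ)) : MeasurePreserving (rm g) volume volume := by
  have h1 := tr_preserving.comp ((lm_preserving g.transpose).comp tr_preserving)
  have h2 : (rm g) = ((fun A : Pl × Pl => (((A.1.1, A.2.1), (A.1.2, A.2.2)) : Pl × Pl)) ∘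
      (lm g.transpose ∘ (fun A : Pl × Pl => (((A.1.1, A.2.1), (A.1.2, A.2.2)) : Pl × Pl)))) := by
    funext A
    simp [rm, lm, act, Matrix.transpose_apply]
  rw [h2]
  exact h1

theorem dt_lm (g : SL(2, ℝ)) (A : Pl × Pl) : dt (lm g A).1 (lm g A).2 = dt A.1 A.2 := dt_act _ _ _

theorem dt_rm (g : SL(2, ℝ)) (A : Pl × Pl) : dt (rm g A).1 (rm g A).2 = dt A.1 A.2 := by
  have hd := g.det_coe
  rw [Matrix.det_fin_two] at hd
  unfold rm dt
  simp only
  linear_combination (A.1.1 * A.2.2 - A.1.2 * A.2.1) * hd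

theorem lm_mul (g h : SL(2, ℝ)) (A : Pl × Pl) : lm (g * h) A = lm g (lm h A) := by
  unfold lm
  rw [act_mul, act_mul]

theorem lm_one (A : Pl × Pl) : lm 1 A = A := by
  unfold lm
  rw [act_one, act_one]

theorem lm_rm (g h : SL(2, ℝ)) (A : Pl × Pl) : lm g (rm h A) = rm h (lm g A) := by
  unfold lm rm act
  ext <;> simp only <;> ring

theorem rm_mul (g h : SL(2, ℝ)) (A : Pl × Pl) : rm (g * h) A = rm h (rm g A) := by
  unfold rm
  ext <;>
  · simp only [Matrix.SpecialLinearGroup.coe_mul, Matrix.mul_apply, Fin.sum_univ_two]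
    ring

theorem rm_one (A : Pl × Pl) : rm 1 A = A := by
  unfold rm
  ext <;> simp

/-- If a matrix is fixed, the group element is trivial. -/
theorem lm_free (g : SL(2, ℝ)) (A : Pl × Pl) (hA : 0 < dt A.1 A.2) (h : lm g A = A) : g = 1 := by
  have h1 : (act g A.1).1 = A.1.1 := congrArg (fun B : Pl × Pl => B.1.1) h
  have h2 : (act g A.1).2 = A.1.2 := congrArg (fun B : Pl × Pl => B.1.2) h
  have h3 : (act g A.2).1 = A.2.1 := congrArg (fun B : Pl × Pl => B.2.1) h
  have h4 : (act g A.2).2 = A.2.2 := congrArg (fun B : Pl × Pl => B.2.2) h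
  simp only [act] at h1 h2 h3 h4
  have hA' : 0 < A.1.1 * A.2.2 - A.1.2 * A.2.1 := hA
  have hne := hA'.ne'
  have e1 : g 0 0 = 1 := by
    have : (A.1.1 * A.2.2 - A.1.2 * A.2.1) * (g 0 0 - 1) = 0 := by
      linear_combination A.2.2 * h1 - A.1.2 * h3
    have := (mul_eq_zero.1 this).resolve_left hne
    linarith
  have e2 : g 0 1 = 0 := by
    have : (A.1.1 * A.2.2 - A.1.2 * A.2.1) * (g 0 1) = 0 := by
      linear_combination A.1.1 * h3 - A.2.1 * h1
    exact (mul_eq_zero.1 this).resolve_left hne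
  have e3 : g 1 0 = 0 := by
    have : (A.1.1 * A.2.2 - A.1.2 * A.2.1) * (g 1 0) = 0 := by
      linear_combination A.2.2 * h2 - A.1.2 * h4
    exact (mul_eq_zero.1 this).resolve_left hne
  have e4 : g 1 1 = 1 := by
    have : (A.1.1 * A.2.2 - A.1.2 * A.2.1) * (g 1 1 - 1) = 0 := by
      linear_combination A.1.1 * h4 - A.2.1 * h2
    have := (mul_eq_zero.1 this).resolve_left hne
    linarith
  ext i j
  fin_cases i <;> fin_cases j
  · simpa using e1
  · simpa using e2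
  · simpa using e3
  · simpa using e4

theorem SA_coe (A : Pl × Pl) (hA : 0 < dt A.1 A.2) : ((sl A : SL(2, ℝ)) : Matrix (Fin 2) (Fin 2) ℝ)
    = !![A.1.1 / Real.sqrt (dt A.1 A.2), A.2.1 / Real.sqrt (dt A.1 A.2);
        A.1.2 / Real.sqrt (dt A.1 A.2), A.2.2 / Real.sqrt (dt A.1 A.2)] := by
  unfold sl
  rw [dif_pos hA]

theorem sl_lm (g : SL(2, ℝ)) (A : Pl × Pl) (hA : 0 < dt A.1 A.2) : sl (lm g A) = g * sl A := by
  apply Subtype.ext
  rw [Matrix.SpecialLinearGroup.coe_mul, SA_coe A hA, SA_coe _ (by rw [dt_lm]; exact hA), dt_lm]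
  ext i j
  fin_cases i <;> fin_cases j <;>
  · simp [Matrix.mul_apply, Fin.sum_univ_two, lm, act]
    ring

theorem sl_rm (g : SL(2, ℝ)) (A : Pl × Pl) (hA : 0 < dt A.1 A.2) : sl (rm g A) = sl A * g := by
  apply Subtype.ext
  rw [Matrix.SpecialLinearGroup.coe_mul, SA_coe A hA, SA_coe _ (by rw [dt_rm]; exact hA), dt_rm]
  ext i j
  fin_cases i <;> fin_cases j <;>
  · simp [Matrix.mul_apply, Fin.sum_univ_two, rm]
    ring

theorem SA_dt_meas : Measurable fun A : Pl × Pl => dt A.1 A.2 := by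
  unfold dt
  fun_prop

theorem SA_set_meas : MeasurableSet {A : Pl × Pl | 0 < dt A.1 A.2} :=
  measurableSet_lt measurable_const SA_dt_meas

open Classical in
theorem sl_entry_meas (i j : Fin 2) : Measurable fun A : Pl × Pl => (sl A : SL(2, ℝ)) i j := by
  have hs : Measurable fun A : Pl × Pl => Real.sqrt (dt A.1 A.2) := SA_dt_meas.sqrt
  have h : (fun A : Pl × Pl => (sl A : SL(2, ℝ)) i j) = fun A =>
      if 0 < dt A.1 A.2 then
        (!![A.1.1 / Real.sqrt (dt A.1 A.2), A.2.1 / Real.sqrt (dt A.1 A.2);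
        A.1.2 / Real.sqrt (dt A.1 A.2), A.2.2 / Real.sqrt (dt A.1 A.2)] :
          Matrix (Fin 2) (Fin 2) ℝ) i j
      else (1 : SL(2, ℝ)) i j := by
    funext A
    by_cases hA : 0 < dt A.1 A.2
    · rw [if_pos hA, ← SA_coe A hA]
    · rw [if_neg hA]
      unfold sl
      rw [dif_neg hA]
  rw [h]
  refine Measurable.ite SA_set_meas ?_ measurable_const
  fin_cases i <;> fin_cases j
  · exact (measurable_fst.comp measurable_fst).div hs
  · exact (measurable_fst.comp measurable_snd).div hs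
  · exact (measurable_snd.comp measurable_fst).div hs
  · exact (measurable_snd.comp measurable_snd).div hs

theorem act_sl_meas : Measurable fun p : (Pl × Pl) × Pl => act (sl p.1) p.2 := by
  have h00 : Measurable fun p : (Pl × Pl) × Pl => (sl p.1 : SL(2, ℝ)) 0 0 :=
    (sl_entry_meas 0 0).comp measurable_fst
  have h01 : Measurable fun p : (Pl × Pl) × Pl => (sl p.1 : SL(2, ℝ)) 0 1 :=
    (sl_entry_meas 0 1).comp measurable_fst
  have h10 : Measurable fun p : (Pl × Pl) × Pl => (sl p.1 : SL(2, ℝ)) 1 0 :=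
    (sl_entry_meas 1 0).comp measurable_fst
  have h11 : Measurable fun p : (Pl × Pl) × Pl => (sl p.1 : SL(2, ℝ)) 1 1 :=
    (sl_entry_meas 1 1).comp measurable_fst
  have hx : Measurable fun p : (Pl × Pl) × Pl => p.2.1 := measurable_fst.comp measurable_snd
  have hy : Measurable fun p : (Pl × Pl) × Pl => p.2.2 := measurable_snd.comp measurable_snd
  exact ((h00.mul hx).add (h01.mul hy)).prodMk ((h10.mul hx).add (h11.mul hy))

theorem SA_smul_meas (z : ℍ) : Measurable fun A : Pl × Pl => sl A • z := by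
  rw [← UpperHalfPlane.measurableEmbedding_coe.measurable_comp_iff]
  have h00 := Complex.measurable_ofReal.comp (sl_entry_meas 0 0)
  have h01 := Complex.measurable_ofReal.comp (sl_entry_meas 0 1)
  have h10 := Complex.measurable_ofReal.comp (sl_entry_meas 1 0)
  have h11 := Complex.measurable_ofReal.comp (sl_entry_meas 1 1)
  have h : (UpperHalfPlane.coe ∘ fun A : Pl × Pl => sl A • z) = fun A : Pl × Pl =>
      (((sl A 0 0 : ℝ) : ℂ) * z + ((sl A 0 1 : ℝ) : ℂ)) /
        (((sl A 1 0 : ℝ) : ℂ) * z + ((sl A 1 1 : ℝ) : ℂ)) := by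
    funext A
    rw [Function.comp_apply, UpperHalfPlane.coe_specialLinearGroup_apply]
    rfl
  rw [h]
  exact ((h00.mul_const _).add h01).div ((h10.mul_const _).add h11)

theorem smul_sl_meas (g : SL(2, ℝ)) (z : ℍ) : Measurable fun A : Pl × Pl => g • sl A • z := by
  exact (continuous_const_smul g).measurable.comp (SA_smul_meas z)

theorem XX_meas : MeasurableSet XX :=
  SA_set_meas.inter (measurableSet_le SA_dt_meas measurable_const)

theorem XX_pos : 0 < volume XX := by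
  have hc : Continuous fun A : Pl × Pl => dt A.1 A.2 := by
    unfold dt
    fun_prop
  have ho : IsOpen {A : Pl × Pl | 0 < dt A.1 A.2 ∧ dt A.1 A.2 < 1} :=
    (isOpen_lt continuous_const hc).inter (isOpen_lt hc continuous_const)
  have hne : ({A : Pl × Pl | 0 < dt A.1 A.2 ∧ dt A.1 A.2 < 1}).Nonempty := by
    refine ⟨((1 / 2, 0), (0, 1)), ?_⟩
    simp only [Set.mem_setOf_eq, dt]
    norm_num
  exact (ho.measure_pos volume hne).trans_le (measure_mono fun A hA => ⟨hA.1, hA.2.le⟩)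

end SimplVol

end S_SA

section S_FN

/-!
# Module FN: the invariant family for `SL(2, ℤ)`

`NN x τ = ∫ v, pr v τ ∂(Measure.pi fun i => eP (x i))`, `0 ≤ pr ≤ 1` measurable (`pr_measurable`), probability measure: integrable.
* `NN_sum_mul`: `∑ τ, NN x τ * φ τ = ∫ v, ∑ τ, pr v τ * φ τ` (`integral_finsetSum`, `integral_mul_const`).
* `NN_nonneg`: `integral_nonneg`. `NN_one`: `eP_good`, `pr_one`, `integral_congr_ae`.
* `NN_act`: for `γ ∈ SL(2, ℤ)`: `eP_pi_act (tR γ) x` (`MeasurePreserving.integral_comp'`-like; as the map is measurable use `MeasurePreserving.map_eq` and `integral_map` with measurability of `pr`), `pr_act`.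
* `NN_smul` (the same for `g ∈ SL(2, ℝ)`): `NN (fun i => g • x i) τ = ∫ v, pr (fun i => act g (v i)) τ ∂(Measure.pi fun i => eP (x i))`.
* `NN_nat`: `eP_pi_emb`, `pr_nat`, `eP_good`: `∑ τ, NN x τ * φ (τ.pull ι) = ∫ ∑ τ, pr v τ * φ (τ.pull ι) = ∫ ∑ τ', pr (v ∘ ι) τ' * φ τ' ∂(x) = ∫ ∑ τ', pr w τ' * φ τ' ∂(x ∘ ι)`.
* `NN_area`: for distinct `a, b, c` take `ι = ![a, b, c] : Fin 3 ↪ Fin m`: `τ.o a b c = (τ.pull ι).o 0 1 2`, `NN_nat`, `pr_o`, `eP_ori`. If two of them are equal both sides are `0`: `o_swap`, `o_rot`; `area` with two equal points: `area x x z = 2 (sarg x x + sarg x z + sarg z x) = 0` (`sarg_self`, `sarg_swap` in `Pool/Agent/H74/SV/AR.lean`).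
* `NN_meas`: `NN_smul` with `g = sl A`; `(A, v) ↦ pr (fun i => act (sl A) (v i)) τ` is jointly measurable (`act_sl_meas`, `pr_measurable`, `measurable_pi_lambda`), `StronglyMeasurable.integral_prod_right` (`MeasureTheory.StronglyMeasurable.integral_prod_right'`), `.measurable`.
-/

set_option autoImplicit false

open scoped BigOperators UpperHalfPlane MatrixGroups
open MeasureTheory

namespace SimplVol

theorem FN_int {m : ℕ} (x : Fin m → ℍ) (τ : RTree m) :
    Integrable (fun v => pr v τ) (Measure.pi fun i => eP (x i)) := by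
  refine Integrable.of_bound (pr_measurable τ).aestronglyMeasurable 1
    (Filter.Eventually.of_forall fun v => ?_)
  rw [Real.norm_eq_abs, abs_le]
  exact ⟨by linarith [pr_nonneg v τ], pr_le_one v τ⟩

theorem NN_sum_mul {m : ℕ} (x : Fin m → ℍ) (φ : RTree m → ℝ) :
    ∑ τ, NN x τ * φ τ = ∫ v, ∑ τ, pr v τ * φ τ ∂(Measure.pi fun i => eP (x i)) := by
  rw [integral_finsetSum _ (fun τ _ => (FN_int x τ).mul_const _)]
  refine Finset.sum_congr rfl fun τ _ => ?_
  rw [integral_mul_const]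
  rfl

theorem NN_nonneg {m : ℕ} (x : Fin m → ℍ) (τ : RTree m) : 0 ≤ NN x τ :=
  integral_nonneg fun v => pr_nonneg v τ

theorem NN_one {m : ℕ} (x : Fin m → ℍ) : ∑ τ, NN x τ = 1 := by
  have h := NN_sum_mul x (fun _ => (1 : ℝ))
  simp only [mul_one] at h
  rw [h, integral_congr_ae (g := fun _ => (1 : ℝ)) ?_]
  · simp
  · filter_upwards [eP_good x] with v hv using pr_one v hv

theorem NN_smul {m : ℕ} (g : SL(2, ℝ)) (x : Fin m → ℍ) (τ : RTree m) :
    NN (fun i => g • x i) τ =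
      ∫ v, pr (fun i => act g (v i)) τ ∂(Measure.pi fun i => eP (x i)) := by
  have h := eP_pi_act g x
  unfold NN
  rw [← h.map_eq]
  exact integral_map h.measurable.aemeasurable (pr_measurable τ).aestronglyMeasurable

theorem NN_act {m : ℕ} (γ : SL(2, ℤ)) (x : Fin m → ℍ) (τ : RTree m) :
    NN (fun i => tR γ • x i) τ = NN x τ := by
  rw [NN_smul]
  simp only [pr_act]
  rfl

theorem NN_nat {k m : ℕ} (ι : Fin k ↪ Fin m) (x : Fin m → ℍ) (φ : RTree k → ℝ) :
    ∑ τ, NN x τ * φ (τ.pull ι) = ∑ τ', NN (fun i => x (ι i)) τ' * φ τ' := by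
  rw [NN_sum_mul x (fun τ => φ (τ.pull ι)), NN_sum_mul (fun i => x (ι i)) φ]
  have h := eP_pi_emb ι x
  rw [← h.map_eq, integral_map h.measurable.aemeasurable ?_]
  · refine integral_congr_ae ?_
    filter_upwards [eP_good x] with v hv using pr_nat ι v hv φ
  · exact (Finset.measurable_sum _ fun τ _ =>
      (pr_measurable τ).mul_const _).aestronglyMeasurable

theorem NN_area {m : ℕ} (x : Fin m → ℍ) (a b c : Fin m) :
    ∑ τ, NN x τ * ((τ.o a b c : ℤ) : ℝ) = area (x a) (x b) (x c) / Real.pi := by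
  have hz : ∀ (τ : RTree m) (a b : Fin m), τ.o a b b = 0 := fun τ a b => by
    have := τ.o_swap a b b
    omega
  by_cases hab : a = b
  · subst hab
    have h0 : ∀ τ : RTree m, τ.o a a c = 0 := fun τ => by rw [τ.o_rot c a a, hz]
    simp only [h0]
    unfold area
    rw [sarg_self, sarg_swap (x a) (x c)]
    simp
  by_cases hbc : b = c
  · subst hbc
    simp only [hz]
    unfold area
    rw [sarg_self, sarg_swap (x a) (x b)]
    simp
  by_cases hac : a = c
  · subst hac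
    have h0 : ∀ τ : RTree m, τ.o a b a = 0 := fun τ => by rw [← τ.o_rot a b a, hz]
    simp only [h0]
    unfold area
    rw [sarg_self, sarg_swap (x a) (x b)]
    simp
  have hinj : Function.Injective (![a, b, c] : Fin 3 → Fin m) := by
    intro i j hij
    fin_cases i <;> fin_cases j <;> first | rfl | (exfalso; simp at hij; tauto)
  have h1 := NN_nat ⟨![a, b, c], hinj⟩ x (fun τ' => ((τ'.o 0 1 2 : ℤ) : ℝ))
  have h2 : ∑ τ, NN x τ * ((τ.o a b c : ℤ) : ℝ) =
      ∑ τ : RTree m, NN x τ * (((τ.pull ⟨![a, b, c], hinj⟩).o 0 1 2 : ℤ) : ℝ) := rfl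
  rw [h2, h1, NN_sum_mul]
  have h3 := eP_ori (fun i => x ((⟨![a, b, c], hinj⟩ : Fin 3 ↪ Fin m) i))
  refine Eq.trans ?_ h3
  refine integral_congr_ae ?_
  filter_upwards [eP_good fun i => x ((⟨![a, b, c], hinj⟩ : Fin 3 ↪ Fin m) i)] with v hv
  exact pr_o v hv 0 1 2

theorem NN_meas {m : ℕ} (x : Fin m → ℍ) (τ : RTree m) :
    Measurable fun A : Pl × Pl => NN (fun i => sl A • x i) τ := by
  simp only [NN_smul]
  have h1 : Measurable fun p : (Pl × Pl) × (Fin m → Pl) =>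
      pr (fun i => act (sl p.1) (p.2 i)) τ := by
    refine (pr_measurable τ).comp (measurable_pi_lambda _ fun i => ?_)
    exact act_sl_meas.comp (measurable_fst.prodMk ((measurable_pi_apply i).comp measurable_snd))
  exact (h1.stronglyMeasurable.integral_prod_right').measurable

end SimplVol

end S_FN

section S_SB

/-!
# Module SB: averages over a fundamental domain

`FDom Γ R`: `R ⊆ XX` measurable of finite measure, for `A ∈ XX` there is exactly one `γ ∈ Γ` with `lm γ A ∈ R`. `Γ` countable.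
* `FDom.pos`: `XX` is contained in the countable union of the sets `(lm γ)⁻¹' R`, of the same measure as `R` (`lm_preserving .measure_preimage`); if it were `0`, `volume XX = 0`, against `XX_pos`.
* `FDom.rm`: for `g ∈ SL(2, ℝ)` the set `(rm g)⁻¹' R` is also a fundamental domain (`lm_rm`, `dt_rm`; `(rm g)` maps `XX` to itself).
* `FDom.eq`: for two fundamental domains `R`, `R'` and a function `f : Pl × Pl → ℝ` with `f (lm γ A) = f A` for `A ∈ XX`, `γ ∈ Γ`: `∫ A in R, f A = ∫ A in R', f A`. Either by Mathlib: put the action `lm` of `Γ` on `Pl × Pl` as a local instance (`letI : MulAction Γ (Pl × Pl) := ..`), the measure `μ = volume.restrict XX` is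
  invariant, `R` and `R'` are fundamental domains for `μ` (`IsFundamentalDomain`, `aedisjoint` from uniqueness), `MeasureTheory.IsFundamentalDomain.setIntegral_eq`, and `μ.restrict R = volume.restrict R` as `R ⊆ XX`. Mathlib's theorem needs `f` invariant everywhere: replace `f` by its product with the indicator of `XX`.
  Or directly: `R = ⋃_γ R ∩ (lm γ)⁻¹' R'` (disjoint), and `lm γ` maps `R ∩ (lm γ)⁻¹' R'` to `(lm γ⁻¹)⁻¹' R ∩ R'`.
* `Ev_inv`: `∫_{A ∈ R} Φ (sl A * g) = ∫_{A ∈ R} Φ (sl (rm g A)) = ∫_{A ∈ rm g '' R} Φ (sl A)` (`rm_preserving`, `rm g` is a measurable equivalence with inverse `rm g⁻¹`: `MeasurePreserving.setIntegral_preimage_emb` for `(rm g)` and the set `(rm g⁻¹)⁻¹' R`), then `FDom.eq`.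
* The rest: linearity and monotonicity of the integral of bounded measurable functions on a set of finite measure (`Integrable` by `Measure.integrableOn_of_bounded`/`Integrable.of_bound`..).
-/

set_option autoImplicit false

open scoped BigOperators UpperHalfPlane MatrixGroups
open MeasureTheory

namespace SimplVol

variable {Γ : Subgroup SL(2, ℝ)} {R : Set (Pl × Pl)}

theorem SB_lmXX (g : SL(2, ℝ)) (A : Pl × Pl) : lm g A ∈ XX ↔ A ∈ XX := by
  show (0 < dt (lm g A).1 (lm g A).2 ∧ dt (lm g A).1 (lm g A).2 ≤ 1) ↔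
    (0 < dt A.1 A.2 ∧ dt A.1 A.2 ≤ 1)
  rw [dt_lm]

theorem SB_rmXX (g : SL(2, ℝ)) (A : Pl × Pl) : rm g A ∈ XX ↔ A ∈ XX := by
  show (0 < dt (rm g A).1 (rm g A).2 ∧ dt (rm g A).1 (rm g A).2 ≤ 1) ↔
    (0 < dt A.1 A.2 ∧ dt A.1 A.2 ≤ 1)
  rw [dt_rm]

theorem FDom.rm {Γ : Subgroup SL(2, ℝ)} {R : Set (Pl × Pl)} (h : FDom Γ R) (g : SL(2, ℝ)) :
    FDom Γ ((SimplVol.rm g) ⁻¹' R) where
  meas := (rm_preserving g).measurable h.meas
  sub A hA := (SB_rmXX g A).1 (h.sub hA)
  dom A hA := by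
    have h1 := h.dom _ ((SB_rmXX g A).2 hA)
    simp only [lm_rm] at h1
    exact h1
  fin := by
    rw [(rm_preserving g).measure_preimage h.meas.nullMeasurableSet]
    exact h.fin

/-- The action of a subgroup on the pairs of vectors. -/
@[reducible] def SB_act (Γ : Subgroup SL(2, ℝ)) : MulAction Γ (Pl × Pl) where
  smul γ A := lm (γ : SL(2, ℝ)) A
  one_smul A := lm_one A
  mul_smul _ _ A := lm_mul _ _ A

theorem FDom.eq [Countable Γ] {R' : Set (Pl × Pl)} (h : FDom Γ R) (h' : FDom Γ R')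
    (f : Pl × Pl → ℝ) (hf : ∀ γ : SL(2, ℝ), γ ∈ Γ → ∀ A ∈ XX, f (lm γ A) = f A) :
    ∫ A in R, f A = ∫ A in R', f A := by
  let i1 : MulAction Γ (Pl × Pl) := SB_act Γ
  have hsm : ∀ (γ : Γ) (A : Pl × Pl), γ • A = lm (γ : SL(2, ℝ)) A := fun _ _ => rfl
  have i2 : MeasurableConstSMul Γ (Pl × Pl) := ⟨fun γ => (lm_preserving (γ : SL(2, ℝ))).measurable⟩
  have i3 : SMulInvariantMeasure Γ (Pl × Pl) (volume.restrict XX) := ⟨fun γ s hs => by
    have e : (fun x : Pl × Pl => γ • x) ⁻¹' s ∩ XX = (lm (γ : SL(2, ℝ))) ⁻¹' (s ∩ XX) := by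
      ext A
      simp only [Set.mem_inter_iff, Set.mem_preimage, SB_lmXX, hsm]
    have hms : MeasurableSet ((fun x : Pl × Pl => γ • x) ⁻¹' s) :=
      (lm_preserving (γ : SL(2, ℝ))).measurable hs
    rw [Measure.restrict_apply hms, Measure.restrict_apply hs, e,
      (lm_preserving (γ : SL(2, ℝ))).measure_preimage (hs.inter XX_meas).nullMeasurableSet]⟩
  have key : ∀ S : Set (Pl × Pl), FDom Γ S → IsFundamentalDomain Γ S (volume.restrict XX) := by
    intro S hS
    refine ⟨hS.meas.nullMeasurableSet, ?_, ?_⟩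
    · rw [ae_restrict_iff' XX_meas]
      exact Filter.Eventually.of_forall fun A hA => (hS.dom A hA).exists
    · intro γ δ hne
      refine Disjoint.aedisjoint ?_
      rw [Set.disjoint_left]
      rintro x ⟨a, ha, rfl⟩ ⟨b, hb, hab⟩
      apply hne
      have hX : lm (γ : SL(2, ℝ)) a ∈ XX := (SB_lmXX _ _).2 (hS.sub ha)
      have hab' : lm (δ : SL(2, ℝ)) b = lm (γ : SL(2, ℝ)) a := hab
      have h1 : lm ((γ⁻¹ : Γ) : SL(2, ℝ)) (lm (γ : SL(2, ℝ)) a) ∈ S := by
        rw [← lm_mul, ← Subgroup.coe_mul, inv_mul_cancel, Subgroup.coe_one, lm_one]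
        exact ha
      have h2 : lm ((δ⁻¹ : Γ) : SL(2, ℝ)) (lm (γ : SL(2, ℝ)) a) ∈ S := by
        rw [← hab', ← lm_mul, ← Subgroup.coe_mul, inv_mul_cancel, Subgroup.coe_one, lm_one]
        exact hb
      exact inv_injective ((hS.dom _ hX).unique h1 h2)
  have hF : ∀ (γ : Γ) (A : Pl × Pl), XX.indicator f (γ • A) = XX.indicator f A := by
    intro γ A
    rw [hsm]
    by_cases hA : A ∈ XX
    · rw [Set.indicator_of_mem hA, Set.indicator_of_mem ((SB_lmXX _ _).2 hA)]
      exact hf _ γ.2 A hA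
    · rw [Set.indicator_of_notMem hA, Set.indicator_of_notMem (fun h => hA ((SB_lmXX _ _).1 h))]
  have hS : ∀ S : Set (Pl × Pl), FDom Γ S →
      ∫ A in S, XX.indicator f A ∂(volume.restrict XX) = ∫ A in S, f A := by
    intro S hS
    rw [Measure.restrict_restrict hS.meas, Set.inter_eq_left.2 hS.sub]
    refine setIntegral_congr_fun hS.meas fun A hA => ?_
    exact Set.indicator_of_mem (hS.sub hA) f
  rw [← hS R h, ← hS R' h']
  exact (key R h).setIntegral_eq (key R' h') hF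

theorem FDom.pos [Countable Γ] (h : FDom Γ R) : 0 < (volume R).toReal := by
  refine ENNReal.toReal_pos ?_ h.fin
  intro h0
  have h1 : XX ⊆ ⋃ γ : Γ, (lm (γ : SL(2, ℝ))) ⁻¹' R := by
    intro A hA
    obtain ⟨γ, hγ, _⟩ := h.dom A hA
    exact Set.mem_iUnion.2 ⟨γ, hγ⟩
  have h2 : volume (⋃ γ : Γ, (lm (γ : SL(2, ℝ))) ⁻¹' R) = 0 := by
    refine measure_iUnion_null fun γ => ?_
    rw [(lm_preserving (γ : SL(2, ℝ))).measure_preimage h.meas.nullMeasurableSet]
    exact h0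
  exact XX_pos.ne' (measure_mono_null h1 h2)

theorem Ev_inv [Countable Γ] (h : FDom Γ R) (Φ : SL(2, ℝ) → ℝ)
    (hm : Measurable fun A : Pl × Pl => Φ (sl A)) (hΓ : ∀ γ : SL(2, ℝ), γ ∈ Γ → ∀ a, Φ (γ * a) = Φ a)
    (g : SL(2, ℝ)) : Ev R (fun a => Φ (a * g)) = Ev R Φ := by
  unfold Ev
  congr 1
  have e1 : ∫ A in R, Φ (sl A * g) = ∫ A in R, Φ (sl (rm g A)) := by
    refine setIntegral_congr_fun h.meas fun A hA => ?_
    show Φ (sl A * g) = Φ (sl (rm g A))
    rw [sl_rm g A (h.sub hA).1]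
  have e2 : R = (rm g) ⁻¹' ((rm g⁻¹) ⁻¹' R) := by
    ext A
    simp only [Set.mem_preimage]
    rw [← rm_mul, mul_inv_cancel, rm_one]
  have e3 : ∫ A in (rm g) ⁻¹' ((rm g⁻¹) ⁻¹' R), Φ (sl (rm g A)) =
      ∫ B in (rm g⁻¹) ⁻¹' R, Φ (sl B) := by
    have h3 := setIntegral_map (μ := (volume : Measure (Pl × Pl))) (g := rm g)
      (f := fun A : Pl × Pl => Φ (sl A)) (s := (rm g⁻¹) ⁻¹' R)
      ((rm_preserving g⁻¹).measurable h.meas) hm.aestronglyMeasurable
      (rm_preserving g).measurable.aemeasurable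
    rw [(rm_preserving g).map_eq] at h3
    exact h3.symm
  rw [e1]
  rw [← e2] at e3
  rw [e3]
  refine FDom.eq (h.rm g⁻¹) h _ ?_
  intro γ hγ A hA
  rw [sl_lm γ A hA.1]
  exact hΓ γ hγ _

theorem Ev_int (h : FDom Γ R) (Φ : SL(2, ℝ) → ℝ) (hm : Measurable fun A : Pl × Pl => Φ (sl A))
    (C : ℝ) (hC : ∀ A ∈ R, |Φ (sl A)| ≤ C) : IntegrableOn (fun A => Φ (sl A)) R := by
  refine Measure.integrableOn_of_bounded h.fin hm.aestronglyMeasurable (M := C) ?_
  rw [ae_restrict_iff' h.meas]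
  exact Filter.Eventually.of_forall fun A hA => by
    rw [Real.norm_eq_abs]
    exact hC A hA

theorem Ev_const [Countable Γ] (h : FDom Γ R) (c : ℝ) : Ev R (fun _ => c) = c := by
  unfold Ev
  rw [setIntegral_const, smul_eq_mul, Measure.real, ← mul_assoc,
    inv_mul_cancel₀ (FDom.pos h).ne', one_mul]

theorem Ev_add (Φ Ψ : SL(2, ℝ) → ℝ) (h1 : IntegrableOn (fun A => Φ (sl A)) R)
    (h2 : IntegrableOn (fun A => Ψ (sl A)) R) :
    Ev R (fun a => Φ a + Ψ a) = Ev R Φ + Ev R Ψ := by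
  unfold Ev
  rw [← mul_add, ← integral_add h1 h2]

theorem Ev_smul (c : ℝ) (Φ : SL(2, ℝ) → ℝ) : Ev R (fun a => c * Φ a) = c * Ev R Φ := by
  unfold Ev
  rw [integral_const_mul]
  ring

theorem Ev_sum {J : Type} (s : Finset J) (Φ : J → SL(2, ℝ) → ℝ)
    (hi : ∀ j ∈ s, IntegrableOn (fun A => Φ j (sl A)) R) :
    Ev R (fun a => ∑ j ∈ s, Φ j a) = ∑ j ∈ s, Ev R (Φ j) := by
  unfold Ev
  rw [← Finset.mul_sum, integral_finsetSum s hi]

theorem Ev_congr (h : FDom Γ R) (Φ Ψ : SL(2, ℝ) → ℝ) (hΦ : ∀ A ∈ R, Φ (sl A) = Ψ (sl A)) :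
    Ev R Φ = Ev R Ψ := by
  unfold Ev
  rw [setIntegral_congr_fun h.meas (g := fun A => Ψ (sl A)) fun A hA => hΦ A hA]

theorem Ev_nonneg (Φ : SL(2, ℝ) → ℝ) (h : ∀ a, 0 ≤ Φ a) : 0 ≤ Ev R Φ := by
  unfold Ev
  exact mul_nonneg (inv_nonneg.2 ENNReal.toReal_nonneg) (integral_nonneg fun A => h (sl A))

theorem Ev_bdd [Countable Γ] (h : FDom Γ R) (Φ : SL(2, ℝ) → ℝ) (C : ℝ)
    (hC : ∀ A ∈ R, |Φ (sl A)| ≤ C) : |Ev R Φ| ≤ C := by
  have hp := FDom.pos h
  have h1 := norm_setIntegral_le_of_norm_le_const (μ := (volume : Measure (Pl × Pl)))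
    (f := fun A => Φ (sl A)) (C := C) (lt_top_iff_ne_top.2 h.fin) (fun A hA => by
      rw [Real.norm_eq_abs]
      exact hC A hA)
  unfold Ev
  rw [abs_mul, abs_inv, abs_of_pos hp]
  rw [Real.norm_eq_abs, Measure.real] at h1
  calc (volume R).toReal⁻¹ * |∫ A in R, Φ (sl A)|
      ≤ (volume R).toReal⁻¹ * (C * (volume R).toReal) :=
        mul_le_mul_of_nonneg_left h1 (inv_nonneg.2 hp.le)
    _ = C := by field_simp

end SimplVol

end S_SB

section S_FZ

/-!
# Module FZ: a fundamental domain for `SL(2, ℤ)` in the space of matrices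

Rows of `A = (p, q)`: `r₁ = (p.1, q.1)`, `r₂ = (p.2, q.2)`. For `γ = (a b; c d)`: the rows of `lm γ A` are `a r₁ + b r₂`, `c r₁ + d r₂`. `Γ = tR.range`.
Use `exists_fd` with `G = tR.range` (countable: image of the countable group `SL(2, ℤ)`, which embeds in `Fin 2 → Fin 2 → ℤ`), `T g = lm g`, `X = XX`, `k A = p.1² + p.2² + q.1² + q.2²`, `e` = any injective measurable function `Pl × Pl → ℝ` (`MeasureTheory.measurableEmbedding_embeddingReal (Pl × Pl)`), free: `lm_free`.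
`hfin`: for `A ∈ XX` the entries of `g = (lm g A) A⁻¹` are bounded in terms of `k (lm g A)` (`g 0 0 = ((lm g A).1.1 A.2.2 - (lm g A).2.1 A.1.2)/dt A.1 A.2` etc.), so finitely many integral matrices.
Finite measure: for `A ∈ R`, minimality for `γ = (1 ±1; 0 1)` and `(1 0; ±1 1)`: `2 |r₁·r₂| ≤ |r₂|²` and `2 |r₁·r₂| ≤ |r₁|²`. So `R ⊆ S₁ ∪ S₂`, `S₁ = {A | 0 < dt ≤ 1, |r₁|² ≤ |r₂|², 2 |r₁·r₂| ≤ |r₁|²}` and `S₂` the same with `r₁`, `r₂` exchanged (the image of `S₁` under the measure preserving map `((p.1, p.2), (q.1, q.2)) ↦ ((p.2, p.1), (q.2, q.1))`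
up to the sign of the determinant: define `S₁` with `0 < |dt A.1 A.2| ≤ 1` to have symmetry). In `S₁`: `dt² = |r₁|²|r₂|² - (r₁·r₂)² ≥ (3/4) |r₁|²|r₂|² ≥ (3/4)|r₁|⁴`, so `|r₁|² ≤ 2`. So `S₁ ⊆ S = {|r₁|² ≤ 2, 0 < |r₁ ∧ r₂| ≤ 1, 2 |r₁·r₂| ≤ |r₁|²}`. After `tr_preserving` (rows as pairs) and Fubini (`Measure.prod_apply`, or
`measure_prod..`/`lintegral` bound): for fixed `r₁ ≠ 0` the slice is the preimage of the box `[-|r₁|²/2, |r₁|²/2] × [-1, 1]` under the linear map `r₂ ↦ (r₁·r₂, r₁ ∧ r₂)` of determinant `|r₁|²`, so its measure is `2` (`Measure.addHaar_preimage_linearMap`, `LinearMap.det_toLin` with `Module.Basis.finTwoProd ℝ` as in `act_preserving` of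
`Pool/Agent/H74/SV/PL.lean`); the slice at `r₁ = 0` is empty. The set of `r₁` with `|r₁|² ≤ 2` has finite measure (bounded). So the measure of `S` is finite.
-/

set_option autoImplicit false

open scoped BigOperators UpperHalfPlane MatrixGroups ENNReal
open MeasureTheory

namespace SimplVol

/-- the region in terms of the rows -/
def FZ_S : Set (Pl × Pl) := {x | 0 < x.1.1 ^ 2 + x.1.2 ^ 2 ∧ x.1.1 ^ 2 + x.1.2 ^ 2 ≤ 2 ∧
  (-1 ≤ x.1.1 * x.2.2 - x.1.2 * x.2.1 ∧ x.1.1 * x.2.2 - x.1.2 * x.2.1 ≤ 1) ∧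
  (-(x.1.1 ^ 2 + x.1.2 ^ 2) / 2 ≤ x.1.1 * x.2.1 + x.1.2 * x.2.2 ∧
    x.1.1 * x.2.1 + x.1.2 * x.2.2 ≤ (x.1.1 ^ 2 + x.1.2 ^ 2) / 2)}

theorem FZ_S_meas : MeasurableSet FZ_S := by
  have h1 : MeasurableSet {x : Pl × Pl | 0 < x.1.1 ^ 2 + x.1.2 ^ 2} :=
    measurableSet_lt measurable_const (by fun_prop)
  have h2 : MeasurableSet {x : Pl × Pl | x.1.1 ^ 2 + x.1.2 ^ 2 ≤ 2} :=
    measurableSet_le (by fun_prop) measurable_const
  have h3 : MeasurableSet {x : Pl × Pl | -1 ≤ x.1.1 * x.2.2 - x.1.2 * x.2.1} :=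
    measurableSet_le measurable_const (by fun_prop)
  have h4 : MeasurableSet {x : Pl × Pl | x.1.1 * x.2.2 - x.1.2 * x.2.1 ≤ 1} :=
    measurableSet_le (by fun_prop) measurable_const
  have h5 : MeasurableSet {x : Pl × Pl | -(x.1.1 ^ 2 + x.1.2 ^ 2) / 2 ≤
      x.1.1 * x.2.1 + x.1.2 * x.2.2} := measurableSet_le (by fun_prop) (by fun_prop)
  have h6 : MeasurableSet {x : Pl × Pl | x.1.1 * x.2.1 + x.1.2 * x.2.2 ≤
      (x.1.1 ^ 2 + x.1.2 ^ 2) / 2} := measurableSet_le (by fun_prop) (by fun_prop)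
  exact h1.inter (h2.inter ((h3.inter h4).inter (h5.inter h6)))

theorem FZ_slice (x : Pl) (hx : 0 < x.1 ^ 2 + x.2 ^ 2) :
    volume {v : Pl | (-1 ≤ x.1 * v.2 - x.2 * v.1 ∧ x.1 * v.2 - x.2 * v.1 ≤ 1) ∧
      (-(x.1 ^ 2 + x.2 ^ 2) / 2 ≤ x.1 * v.1 + x.2 * v.2 ∧
        x.1 * v.1 + x.2 * v.2 ≤ (x.1 ^ 2 + x.2 ^ 2) / 2)} = 2 := by
  have hd : LinearMap.det (Matrix.toLin (Module.Basis.finTwoProd ℝ) (Module.Basis.finTwoProd ℝ)
      !![x.1, x.2; -x.2, x.1]) = x.1 ^ 2 + x.2 ^ 2 := by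
    rw [LinearMap.det_toLin, Matrix.det_fin_two_of]
    ring
  have he : {v : Pl | (-1 ≤ x.1 * v.2 - x.2 * v.1 ∧ x.1 * v.2 - x.2 * v.1 ≤ 1) ∧
      (-(x.1 ^ 2 + x.2 ^ 2) / 2 ≤ x.1 * v.1 + x.2 * v.2 ∧
        x.1 * v.1 + x.2 * v.2 ≤ (x.1 ^ 2 + x.2 ^ 2) / 2)} =
      (Matrix.toLin (Module.Basis.finTwoProd ℝ) (Module.Basis.finTwoProd ℝ)
        !![x.1, x.2; -x.2, x.1]) ⁻¹'
        (Set.Icc (-(x.1 ^ 2 + x.2 ^ 2) / 2) ((x.1 ^ 2 + x.2 ^ 2) / 2) ×ˢ Set.Icc (-1) 1) := by
    ext v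
    rw [Set.mem_preimage, Matrix.toLin_finTwoProd, Set.mem_prod, Set.mem_Icc, Set.mem_Icc]
    have e1 : -x.2 * v.1 + x.1 * v.2 = x.1 * v.2 - x.2 * v.1 := by ring
    change _ ↔ (_ ≤ x.1 * v.1 + x.2 * v.2 ∧ x.1 * v.1 + x.2 * v.2 ≤ _) ∧
      (-1 ≤ -x.2 * v.1 + x.1 * v.2 ∧ -x.2 * v.1 + x.1 * v.2 ≤ 1)
    rw [e1]
    exact and_comm
  rw [he, Measure.addHaar_preimage_linearMap _ (by rw [hd]; exact hx.ne'), hd,
    Measure.volume_eq_prod, Measure.prod_prod, Real.volume_Icc, Real.volume_Icc,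
    ← ENNReal.ofReal_mul (by linarith), ← ENNReal.ofReal_mul (abs_nonneg _),
    abs_of_pos (inv_pos.2 hx)]
  have e2 : (x.1 ^ 2 + x.2 ^ 2)⁻¹ * (((x.1 ^ 2 + x.2 ^ 2) / 2 - -(x.1 ^ 2 + x.2 ^ 2) / 2) *
      (1 - -1)) = 2 := by
    field_simp
    ring
  rw [e2]
  norm_num

theorem FZ_S_fin : volume FZ_S ≠ ⊤ := by
  have hB : volume {x : Pl | x.1 ^ 2 + x.2 ^ 2 ≤ 2} ≠ ⊤ := by
    have hsub : {x : Pl | x.1 ^ 2 + x.2 ^ 2 ≤ 2} ⊆ Set.Icc ((-2, -2) : Pl) (2, 2) := by
      intro x hx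
      have hx' : x.1 ^ 2 + x.2 ^ 2 ≤ 2 := hx
      rw [Set.mem_Icc]
      exact ⟨⟨by nlinarith [sq_nonneg x.2, sq_nonneg (x.1 - 1), sq_nonneg (x.1 + 1)],
        by nlinarith [sq_nonneg x.1, sq_nonneg (x.2 - 1), sq_nonneg (x.2 + 1)]⟩,
        ⟨by nlinarith [sq_nonneg x.2, sq_nonneg (x.1 - 1), sq_nonneg (x.1 + 1)],
        by nlinarith [sq_nonneg x.1, sq_nonneg (x.2 - 1), sq_nonneg (x.2 + 1)]⟩⟩
    exact ((measure_mono hsub).trans_lt (isCompact_Icc.measure_lt_top)).ne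
  have hBm : MeasurableSet {x : Pl | x.1 ^ 2 + x.2 ^ 2 ≤ 2} :=
    measurableSet_le (by fun_prop) measurable_const
  have h1 : volume FZ_S ≤ ∫⁻ x : Pl, Set.indicator {x : Pl | x.1 ^ 2 + x.2 ^ 2 ≤ 2}
      (fun _ => (2 : ℝ≥0∞)) x := by
    rw [Measure.volume_eq_prod, Measure.prod_apply FZ_S_meas]
    refine lintegral_mono fun x => ?_
    by_cases hx : 0 < x.1 ^ 2 + x.2 ^ 2 ∧ x.1 ^ 2 + x.2 ^ 2 ≤ 2
    · rw [Set.indicator_of_mem (show x ∈ {x : Pl | x.1 ^ 2 + x.2 ^ 2 ≤ 2} from hx.2),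
        ← FZ_slice x hx.1]
      exact measure_mono fun v hv => hv.2.2
    · have he : Prod.mk x ⁻¹' FZ_S = ∅ := by
        rw [Set.eq_empty_iff_forall_notMem]
        intro v hv
        exact hx ⟨hv.1, hv.2.1⟩
      rw [he, measure_empty]
      exact zero_le
  rw [lintegral_indicator hBm, setLIntegral_const] at h1
  exact (h1.trans_lt (ENNReal.mul_lt_top (by simp) hB.lt_top)).ne

theorem FZ_reduced {x y z w : ℝ} (hD : 0 < x * w - y * z) (hD1 : x * w - y * z ≤ 1)
    (h1 : -(x ^ 2 + y ^ 2) ≤ 2 * (x * z + y * w)) (h2 : 2 * (x * z + y * w) ≤ x ^ 2 + y ^ 2)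
    (hle : x ^ 2 + y ^ 2 ≤ z ^ 2 + w ^ 2) : 0 < x ^ 2 + y ^ 2 ∧ x ^ 2 + y ^ 2 ≤ 2 := by
  have hL : (x * w - y * z) ^ 2 + (x * z + y * w) ^ 2 = (x ^ 2 + y ^ 2) * (z ^ 2 + w ^ 2) := by
    ring
  have hn0 : 0 ≤ x ^ 2 + y ^ 2 := by positivity
  generalize x ^ 2 + y ^ 2 = n at *
  generalize z ^ 2 + w ^ 2 = m at *
  generalize x * w - y * z = D at *
  generalize x * z + y * w = e at *
  have hpos : 0 < n := by
    rcases hn0.eq_or_lt with h | h
    · rw [← h] at hL
      nlinarith [sq_nonneg e]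
    · exact h
  refine ⟨hpos, ?_⟩
  have h3 : 4 * e ^ 2 ≤ n ^ 2 := by nlinarith
  have h4 : n ^ 2 ≤ n * m := by nlinarith
  have h5 : D ^ 2 ≤ 1 := by nlinarith
  nlinarith

theorem FZ_le {x r : ℝ} (h : x ^ 2 ≤ r) : |x| ≤ |r| + 1 := by
  have h1 := le_abs_self r
  have h2 := sq_abs x
  nlinarith [abs_nonneg x, abs_nonneg r, sq_nonneg (|x| - 1)]

theorem FZ_finite (A : Pl × Pl) (hA : 0 < dt A.1 A.2) (r : ℝ) :
    {γ : SL(2, ℤ) | (lm (tR γ) A).1.1 ^ 2 + (lm (tR γ) A).1.2 ^ 2 + (lm (tR γ) A).2.1 ^ 2 +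
      (lm (tR γ) A).2.2 ^ 2 ≤ r}.Finite := by
  refine (SF_fin (2 * (|r| + 1) * (|A.1.1| + |A.1.2| + |A.2.1| + |A.2.2|) /
    dt A.1 A.2)).subset ?_
  intro γ hγ
  rw [Set.mem_ofPred_eq] at hγ
  unfold lm act at hγ
  simp only [SF_tR] at hγ
  rw [Set.mem_ofPred_eq]
  generalize (γ 0 0 : ℤ) = a at hγ ⊢
  generalize (γ 0 1 : ℤ) = b at hγ ⊢
  generalize (γ 1 0 : ℤ) = c at hγ ⊢
  generalize (γ 1 1 : ℤ) = d at hγ ⊢
  have n1 := sq_nonneg ((a : ℝ) * A.1.1 + b * A.1.2)
  have n2 := sq_nonneg ((c : ℝ) * A.1.1 + d * A.1.2)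
  have n3 := sq_nonneg ((a : ℝ) * A.2.1 + b * A.2.2)
  have n4 := sq_nonneg ((c : ℝ) * A.2.1 + d * A.2.2)
  have m1 := FZ_le (x := (a : ℝ) * A.1.1 + b * A.1.2) (r := r) (by linarith)
  have m2 := FZ_le (x := (c : ℝ) * A.1.1 + d * A.1.2) (r := r) (by linarith)
  have m3 := FZ_le (x := (a : ℝ) * A.2.1 + b * A.2.2) (r := r) (by linarith)
  have m4 := FZ_le (x := (c : ℝ) * A.2.1 + d * A.2.2) (r := r) (by linarith)
  have b1 := abs_nonneg A.1.1
  have b2 := abs_nonneg A.1.2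
  have b3 := abs_nonneg A.2.1
  have b4 := abs_nonneg A.2.2
  have ha := SF_ent (D := dt A.1 A.2) (p := (a : ℝ)) (Xc := a * A.1.1 + b * A.1.2)
    (Xd := a * A.2.1 + b * A.2.2) (c2 := A.1.2) (d2 := A.2.2)
    (E := |A.1.1| + |A.1.2| + |A.2.1| + |A.2.2|)
    (by unfold dt; ring) (by linarith) (by linarith)
  have hb := SF_ent (D := dt A.1 A.2) (p := (b : ℝ)) (Xc := a * A.1.1 + b * A.1.2)
    (Xd := a * A.2.1 + b * A.2.2) (c2 := -A.1.1) (d2 := -A.2.1)
    (E := |A.1.1| + |A.1.2| + |A.2.1| + |A.2.2|)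
    (by unfold dt; ring) (by rw [abs_neg]; linarith) (by rw [abs_neg]; linarith)
  have hc := SF_ent (D := dt A.1 A.2) (p := (c : ℝ)) (Xc := c * A.1.1 + d * A.1.2)
    (Xd := c * A.2.1 + d * A.2.2) (c2 := A.1.2) (d2 := A.2.2)
    (E := |A.1.1| + |A.1.2| + |A.2.1| + |A.2.2|)
    (by unfold dt; ring) (by linarith) (by linarith)
  have hd := SF_ent (D := dt A.1 A.2) (p := (d : ℝ)) (Xc := c * A.1.1 + d * A.1.2)
    (Xd := c * A.2.1 + d * A.2.2) (c2 := -A.1.1) (d2 := -A.2.1)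
    (E := |A.1.1| + |A.1.2| + |A.2.1| + |A.2.2|)
    (by unfold dt; ring) (by rw [abs_neg]; linarith) (by rw [abs_neg]; linarith)
  rw [abs_of_pos hA] at ha hb hc hd
  have hE : 0 ≤ |A.1.1| + |A.1.2| + |A.2.1| + |A.2.2| := by positivity
  generalize |A.1.1| + |A.1.2| + |A.2.1| + |A.2.2| = E at ha hb hc hd hE ⊢
  have key : ∀ {x X Y : ℝ}, |X| ≤ |r| + 1 → |Y| ≤ |r| + 1 →
      dt A.1 A.2 * |x| ≤ (|X| + |Y|) * E → |x| ≤ 2 * (|r| + 1) * E / dt A.1 A.2 := by
    intro x X Y hX hY h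
    rw [le_div_iff₀ hA, mul_comm]
    refine h.trans (mul_le_mul_of_nonneg_right (by linarith) hE)
  exact ⟨key m1 m3 ha, key m1 m3 hb, key m2 m4 hc, key m2 m4 hd⟩

/-- the four elementary matrices -/
theorem FZ_min {A : Pl × Pl} (h : ∀ g : SL(2, ℤ), A.1.1 ^ 2 + A.1.2 ^ 2 + A.2.1 ^ 2 +
      A.2.2 ^ 2 ≤ (lm (tR g) A).1.1 ^ 2 + (lm (tR g) A).1.2 ^ 2 + (lm (tR g) A).2.1 ^ 2 +
      (lm (tR g) A).2.2 ^ 2) (ε : ℤ) :
    0 ≤ 2 * ε * (A.1.1 * A.1.2 + A.2.1 * A.2.2) + ε ^ 2 * (A.1.2 ^ 2 + A.2.2 ^ 2) ∧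
    0 ≤ 2 * ε * (A.1.1 * A.1.2 + A.2.1 * A.2.2) + ε ^ 2 * (A.1.1 ^ 2 + A.2.1 ^ 2) := by
  constructor
  · have h1 := h ⟨!![1, ε; 0, 1], by simp [Matrix.det_fin_two_of]⟩
    unfold lm act at h1
    simp only [SF_tR] at h1
    simp at h1
    nlinarith
  · have h1 := h ⟨!![1, 0; ε, 1], by simp [Matrix.det_fin_two_of]⟩
    unfold lm act at h1
    simp only [SF_tR] at h1
    simp at h1
    nlinarith

theorem exists_FZ : Countable tR.range ∧ ∃ R : Set (Pl × Pl), FDom tR.range R := by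
  have hcZ : Countable SL(2, ℤ) := by
    have hinj : Function.Injective (fun γ : SL(2, ℤ) => ((γ 0 0 : ℤ), (γ 0 1 : ℤ), (γ 1 0 : ℤ),
        (γ 1 1 : ℤ))) := by
      intro γ δ h
      simp only [Prod.mk.injEq] at h
      obtain ⟨h1, h2, h3, h4⟩ := h
      apply Matrix.SpecialLinearGroup.ext
      intro i j
      fin_cases i <;> fin_cases j
      · exact h1
      · exact h2
      · exact h3
      · exact h4
    exact hinj.countable
  have hcR : Countable tR.range := tR.rangeRestrict_surjective.countable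
  refine ⟨hcR, ?_⟩
  have he := MeasureTheory.measurableEmbedding_embeddingReal (Pl × Pl)
  obtain ⟨R, hRm, hRX, hRu, hRk⟩ := exists_fd (G := tR.range) (α := Pl × Pl)
    (fun g => lm (g : SL(2, ℝ))) (fun x => lm_one x)
    (fun g h x => lm_mul (g : SL(2, ℝ)) (h : SL(2, ℝ)) x)
    (fun g => (lm_preserving (g : SL(2, ℝ))).measurable) XX XX_meas
    (fun g x hx => by
      show 0 < dt (lm (g : SL(2, ℝ)) x).1 (lm (g : SL(2, ℝ)) x).2 ∧
        dt (lm (g : SL(2, ℝ)) x).1 (lm (g : SL(2, ℝ)) x).2 ≤ 1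
      rw [dt_lm]
      exact hx)
    (fun g x hx h => Subtype.ext (lm_free (g : SL(2, ℝ)) x hx.1 h))
    (fun A => A.1.1 ^ 2 + A.1.2 ^ 2 + A.2.1 ^ 2 + A.2.2 ^ 2)
    (MeasureTheory.embeddingReal (Pl × Pl)) (by fun_prop) he.measurable he.injective
    (fun x hx r => by
      refine ((FZ_finite x hx.1 r).image tR.rangeRestrict).subset ?_
      rintro ⟨g, γ, rfl⟩ hg
      exact ⟨γ, hg, rfl⟩)
  refine ⟨R, hRm, hRX, hRu, ?_⟩
  have hsub : R ⊆ (fun A : Pl × Pl => (((A.1.1, A.2.1), (A.1.2, A.2.2)) : Pl × Pl)) ⁻¹' FZ_S ∪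
      (fun A : Pl × Pl => (((A.1.1, A.2.1), (A.1.2, A.2.2)) : Pl × Pl)) ⁻¹'
        (Prod.swap ⁻¹' FZ_S) := by
    intro A hA
    have hX := hRX hA
    have hmin := FZ_min (A := A) (fun g => hRk A hA ⟨tR g, g, rfl⟩)
    obtain ⟨a1, a2⟩ := hmin 1
    obtain ⟨a3, a4⟩ := hmin (-1)
    push_cast at a1 a2 a3 a4
    obtain ⟨d1, d2⟩ := hX
    unfold dt at d1 d2
    rcases le_total (A.1.1 ^ 2 + A.2.1 ^ 2) (A.1.2 ^ 2 + A.2.2 ^ 2) with hle | hle
    · left
      obtain ⟨r1, r2⟩ := FZ_reduced (x := A.1.1) (y := A.2.1) (z := A.1.2) (w := A.2.2)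
        (by linarith) (by linarith) (by linarith) (by linarith) hle
      show (0 < A.1.1 ^ 2 + A.2.1 ^ 2 ∧ A.1.1 ^ 2 + A.2.1 ^ 2 ≤ 2 ∧
        (-1 ≤ A.1.1 * A.2.2 - A.2.1 * A.1.2 ∧ A.1.1 * A.2.2 - A.2.1 * A.1.2 ≤ 1) ∧
        (-(A.1.1 ^ 2 + A.2.1 ^ 2) / 2 ≤ A.1.1 * A.1.2 + A.2.1 * A.2.2 ∧
          A.1.1 * A.1.2 + A.2.1 * A.2.2 ≤ (A.1.1 ^ 2 + A.2.1 ^ 2) / 2))
      exact ⟨r1, r2, ⟨by linarith, by linarith⟩, ⟨by linarith, by linarith⟩⟩
    · right
      obtain ⟨r1, r2⟩ := FZ_reduced (x := A.2.2) (y := A.1.2) (z := A.2.1) (w := A.1.1)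
        (by linarith) (by linarith) (by linarith) (by linarith) (by linarith)
      show (0 < A.1.2 ^ 2 + A.2.2 ^ 2 ∧ A.1.2 ^ 2 + A.2.2 ^ 2 ≤ 2 ∧
        (-1 ≤ A.1.2 * A.2.1 - A.2.2 * A.1.1 ∧ A.1.2 * A.2.1 - A.2.2 * A.1.1 ≤ 1) ∧
        (-(A.1.2 ^ 2 + A.2.2 ^ 2) / 2 ≤ A.1.2 * A.1.1 + A.2.2 * A.2.1 ∧
          A.1.2 * A.1.1 + A.2.2 * A.2.1 ≤ (A.1.2 ^ 2 + A.2.2 ^ 2) / 2))
      exact ⟨by linarith, by linarith, ⟨by linarith, by linarith⟩, ⟨by linarith, by linarith⟩⟩
  have hswap : MeasurePreserving (Prod.swap : Pl × Pl → Pl × Pl) volume volume :=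
    Measure.measurePreserving_swap
  have m1 := tr_preserving.measure_preimage FZ_S_meas.nullMeasurableSet
  have m2 := tr_preserving.measure_preimage (hswap.measurable FZ_S_meas).nullMeasurableSet
  rw [hswap.measure_preimage FZ_S_meas.nullMeasurableSet] at m2
  refine ((measure_mono hsub).trans (measure_union_le _ _)).trans_lt ?_ |>.ne
  rw [m1, m2]
  exact ENNReal.add_lt_top.2 ⟨FZ_S_fin.lt_top, FZ_S_fin.lt_top⟩

end SimplVol

end S_FZ

section S_CS

/-!
# Module CS: the natural invariant family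

`R` from `exists_FZ`, `M m x τ = Ev R (fun a => NN (fun i => a • x i) τ)`. `NN` is between `0` and `1` (`NN_nonneg`, `NN_one`), measurable along `sl` (`NN_meas`), so `Ev_int`.
* `nonneg`: `Ev_nonneg`. `one`: `Ev_sum`, `NN_one`, `Ev_const`. `inv`: `Ev_inv` with `Φ a = NN (fun i => a • x i) τ`: `Φ (γ * a) = Φ a` for `γ = tR γ'` by `NN_act` (`mul_smul`); `Φ (a * g) = NN (fun i => a • g • x i) τ`. (`Countable tR.range` from `exists_FZ`.)
* `nat`: `Ev_sum`, `Ev_smul` (constant factors on the right: `mul_comm`), `NN_nat` for `a • x`. `area`: `NN_area`, `area_smul` (`Pool/Agent/H74/SV/AR.lean`), `Ev_const`.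
-/

set_option autoImplicit false

open scoped BigOperators UpperHalfPlane MatrixGroups
open MeasureTheory

namespace SimplVol

theorem CS_le_one {m : ℕ} (x : Fin m → ℍ) (τ : RTree m) : NN x τ ≤ 1 := by
  rw [← NN_one x]
  exact Finset.single_le_sum (fun i _ => NN_nonneg x i) (Finset.mem_univ τ)

theorem CS_abs {m : ℕ} (x : Fin m → ℍ) (τ : RTree m) : |NN x τ| ≤ 1 := by
  rw [abs_of_nonneg (NN_nonneg x τ)]
  exact CS_le_one x τ

theorem CS_int {R : Set (Pl × Pl)} (h : FDom tR.range R) {m : ℕ} (x : Fin m → ℍ) (τ : RTree m) :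
    IntegrableOn (fun A => NN (fun i => sl A • x i) τ) R :=
  Ev_int h (fun a => NN (fun i => a • x i) τ) (NN_meas x τ) 1 (fun _ _ => CS_abs _ _)

theorem CS_sum {R : Set (Pl × Pl)} (h : FDom tR.range R) {m : ℕ} (x : Fin m → ℍ)
    (φ : RTree m → ℝ) :
    ∑ τ, Ev R (fun a => NN (fun i => a • x i) τ) * φ τ =
      Ev R (fun a => ∑ τ, NN (fun i => a • x i) τ * φ τ) := by
  have h1 : Ev R (fun a => ∑ τ, φ τ * NN (fun i => a • x i) τ) =
      ∑ τ, Ev R (fun a => φ τ * NN (fun i => a • x i) τ) := by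
    refine Ev_sum Finset.univ (fun τ a => φ τ * NN (fun i => a • x i) τ) fun τ _ => ?_
    exact (CS_int h x τ).const_mul (φ τ)
  have h2 : Ev R (fun a => ∑ τ, NN (fun i => a • x i) τ * φ τ) =
      Ev R (fun a => ∑ τ, φ τ * NN (fun i => a • x i) τ) :=
    Ev_congr h _ _ fun A _ => Finset.sum_congr rfl fun τ _ => mul_comm _ _
  rw [h2, h1]
  refine Finset.sum_congr rfl fun τ _ => ?_
  rw [Ev_smul, mul_comm]

theorem exists_cstar : ∃ M : ∀ m : ℕ, (Fin m → ℍ) → RTree m → ℝ, CStar M := by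
  obtain ⟨hc, R, hR⟩ := exists_FZ
  have : Countable tR.range := hc
  refine ⟨fun m x τ => Ev R (fun a => NN (fun i => a • x i) τ), ?_, ?_, ?_, ?_, ?_⟩
  · intro m x τ
    exact Ev_nonneg _ fun a => NN_nonneg _ _
  · intro m x
    have h1 := CS_sum hR x (fun _ => 1)
    simp only [mul_one] at h1
    rw [h1]
    rw [Ev_congr hR _ (fun _ => 1) fun A _ => NN_one _]
    exact Ev_const hR 1
  · intro m g x τ
    have h1 := Ev_inv hR (fun a => NN (fun i => a • x i) τ) (NN_meas x τ) ?_ g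
    · rw [← h1]
      refine Ev_congr hR _ _ fun A _ => ?_
      simp only [mul_smul]
    · rintro γ ⟨γ', rfl⟩ a
      simp only [mul_smul]
      exact NN_act γ' (fun i => a • x i) τ
  · intro k m ι x φ
    rw [CS_sum hR x (fun τ => φ (τ.pull ι)), CS_sum hR (fun i => x (ι i)) φ]
    exact Ev_congr hR _ _ fun A _ => NN_nat ι (fun i => sl A • x i) φ
  · intro m x a b c
    rw [CS_sum hR x (fun τ => ((τ.o a b c : ℤ) : ℝ))]
    rw [Ev_congr hR _ (fun _ => area (x a) (x b) (x c) / Real.pi) fun A _ => ?_]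
    · exact Ev_const hR _
    · rw [NN_area, area_smul]

end SimplVol

end S_CS
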