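import Pool.Agent.H54.RM.A2
import Pool.Agent.H54.RM.B1
import Pool.Agent.H54.RM.C1
import Pool.Agent.H74.SV.AF
import Pool.Agent.H74.SV.AR
import Pool.Agent.H74.SV.BC
import Pool.Agent.H74.SV.CP
import Pool.Agent.H74.SV.EV

/-! Simplicial volume and ranked planar trees, part C3: this file joins several modules to save build time. -/

section S_LPR

/-!
# Module LPR: `lpVal n` is rational and the minimum is attained

`treeVol n τ = ((1/(2n)!) * ∑ sgn σ ∏_j o_j : ℚ)` (`push_cast`). Apply `lp_rat` with `I = Fin n → RTree (n*2+1)`, `J = Fin n → RTree (n*2)` (finite: `RTree.fintype`), `A τ ρ = ∑_i if (fun j => (τ j).pull δ_i) = ρ then (-1)^i else 0`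
(classical decidable equality), so `∑_ρ A τ ρ b ρ = ∑_i (-1)^i b (fun j => (τ j).pull δ_i)` (`Finset.sum_comm`, `Finset.sum_ite_eq`). `lpVal n = sInf S = q` as `q` is the least element (`IsLeast.csInf_eq`).
-/

set_option autoImplicit false

open scoped BigOperators

namespace SimplVol

theorem lpVal_rat (n : ℕ) (hne : Nonempty (RTree (n * 2 + 1))) : ∃ q : ℚ, lpVal n = q ∧
    ∃ b : (Fin n → RTree (n * 2)) → ℝ, ∀ τ : Fin n → RTree (n * 2 + 1),
      |treeVol n τ + ∑ i : Fin (n * 2 + 1), (-1 : ℝ) ^ (i : ℕ) *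
        b fun j => (τ j).pull (Fin.succAboveEmb i)| ≤ q := by
  classical
  let w : (Fin n → RTree (n * 2 + 1)) → ℚ := fun τ =>
    (1 / (((n * 2).factorial : ℕ) : ℚ)) * ∑ σ : Equiv.Perm (Fin (n * 2)),
      ((Equiv.Perm.sign σ : ℤ) : ℚ) *
      ∏ j : Fin n, (((τ j).o 0 (σ (finProdFinEquiv (j, 0))).succ
        (σ (finProdFinEquiv (j, 1))).succ : ℤ) : ℚ)
  have hw : ∀ τ, ((w τ : ℚ) : ℝ) = treeVol n τ := by
    intro τ
    simp only [w, treeVol]
    push_cast
    rfl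
  let A : (Fin n → RTree (n * 2 + 1)) → (Fin n → RTree (n * 2)) → ℚ := fun τ ρ =>
    ∑ i : Fin (n * 2 + 1), if (fun j => (τ j).pull (Fin.succAboveEmb i)) = ρ then
      (-1 : ℚ) ^ (i : ℕ) else 0
  have hA : ∀ (τ : Fin n → RTree (n * 2 + 1)) (b : (Fin n → RTree (n * 2)) → ℝ),
      ∑ ρ, ((A τ ρ : ℚ) : ℝ) * b ρ = ∑ i : Fin (n * 2 + 1), (-1 : ℝ) ^ (i : ℕ) *
        b fun j => (τ j).pull (Fin.succAboveEmb i) := by
    intro τ b
    simp only [A, Rat.cast_sum, Finset.sum_mul]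
    rw [Finset.sum_comm]
    refine Finset.sum_congr rfl fun i _ => ?_
    rw [Finset.sum_eq_single (fun j => (τ j).pull (Fin.succAboveEmb i))]
    · rw [if_pos rfl]
      push_cast
      rfl
    · intro ρ _ hρ
      rw [if_neg (fun h => hρ h.symm)]
      simp
    · intro h
      exact absurd (Finset.mem_univ _) h
  haveI : Nonempty (Fin n → RTree (n * 2 + 1)) := ⟨fun _ => hne.some⟩
  obtain ⟨q, hq⟩ := lp_rat w A
  have hS : {v : ℝ | ∃ b : (Fin n → RTree (n * 2)) → ℝ, ∀ τ : Fin n → RTree (n * 2 + 1),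
      |treeVol n τ + ∑ i : Fin (n * 2 + 1), (-1 : ℝ) ^ (i : ℕ) *
        b fun j => (τ j).pull (Fin.succAboveEmb i)| ≤ v} =
      {v : ℝ | ∃ b : (Fin n → RTree (n * 2)) → ℝ, ∀ i, |((w i : ℚ) : ℝ) +
        ∑ j, ((A i j : ℚ) : ℝ) * b j| ≤ v} := by
    ext v
    simp only [Set.mem_setOf_eq]
    constructor
    · rintro ⟨b, hb⟩
      refine ⟨b, fun τ => ?_⟩
      rw [hw, hA]
      exact hb τ
    · rintro ⟨b, hb⟩
      refine ⟨b, fun τ => ?_⟩
      have := hb τ
      rw [hw, hA] at this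
      exact this
  rw [← hS] at hq
  refine ⟨q, ?_, hq.1⟩
  exact hq.csInf_eq

/-- Every feasible value bounds `lpVal` from above. -/
theorem lpVal_le (n : ℕ) (hne : Nonempty (RTree (n * 2 + 1))) (v : ℝ)
    (b : (Fin n → RTree (n * 2)) → ℝ) (hb : ∀ τ : Fin n → RTree (n * 2 + 1),
      |treeVol n τ + ∑ i : Fin (n * 2 + 1), (-1 : ℝ) ^ (i : ℕ) *
        b fun j => (τ j).pull (Fin.succAboveEmb i)| ≤ v) : lpVal n ≤ v := by
  refine csInf_le ⟨0, ?_⟩ ⟨b, hb⟩
  rintro x ⟨c, hc⟩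
  exact (abs_nonneg _).trans (hc fun _ => hne.some)

end SimplVol

end S_LPR

section S_LB

/-!
# Module LB: the lower bound from a natural invariant family

`CStar M`. For `x : Fin m → Fin n → ℍ` and `τ : Fin n → RTree m` let `W x τ = ∏ j, M m (fun i => x i j) (τ j)`.
* `lb_one`: `∑ τ, W x τ = 1` (`Finset.prod_univ_sum`, `Fintype.piFinset_univ`, `CStar.one`); `W x τ ≥ 0`; `W (g • x) τ = W x τ`.
* `lb_nat`: `∑ τ, W x τ * b (fun j => (τ j).pull ι) = ∑ τ', W (x ∘ ι) τ' * b τ'`: `CStar.nat` with `φ = indicator of τ'` gives `M k (x ∘ ι) τ' = ∑_{τ} if τ.pull ι = τ' then M m x τ else 0`; take products (`Finset.prod_univ_sum`), `∑ τ, W x τ * b (pull τ) = ∑ τ', b τ' * ∑ τ, (if pull τ = τ' then W x τ else 0)` and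
  `(if (fun j => (τ j).pull ι) = τ' then ∏.. else 0) = ∏ j (if (τ j).pull ι = τ' j then .. else 0)`.
* `lb_vol`: `∑ τ, W x τ * treeVol n τ = vol n x / π^n`: unfold `treeVol`, exchange the sums, `∑ τ, ∏_j (M .. (τ j) * o_{τ j}(..)) = ∏_j ∑_{τ_j} .. = ∏_j area .. / π` (`Finset.prod_univ_sum`, `CStar.area`).
* `lower`: let `D b τ = ∑_i (-1)^i b (fun j => (τ j).pull δ_i)`, `Ψ x = ∑ τ, W x τ * (treeVol n τ + D b τ)`. `|Ψ x| ≤ v`. `Ψ x = vol n x / π^n + ∑_i (-1)^i Φ (x ∘ i.succAbove)` with `Φ x' = ∑ τ', W x' τ' * b τ'` (`lb_nat` for `ι = Fin.succAboveEmb i`), `Φ` invariant. Pairing with the cycle `w`: `pairF_coboundary` (`Pool/Agent/H74/SV/CP.lean`):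
  `pairF Γ Ψ w = volPair Γ w / π^n` (`volPair Γ w = pairF Γ (vol n) w` by `rfl`; linearity of `pairF` in the function), and `|pairF Γ Ψ w| ≤ v * norm1 w` (`Finsupp.sum`, `Finset.abs_sum_le_sum_abs`), see `norm1_ge` in `Pool/Agent/H74/SV/LC.lean` for the method.
* `lower_exact`: the statement used for positivity: if `treeVol n τ + D b τ = 0` for all `τ` then `vol n x = ∑_i (-1)^i B (x ∘ i.succAbove)` with `B = - π^n Φ` invariant.
-/

set_option autoImplicit false

open scoped BigOperators UpperHalfPlane MatrixGroups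

namespace SimplVol

variable {M : ∀ m : ℕ, (Fin m → ℍ) → RTree m → ℝ}

/-- The weight of a tuple of trees. -/
noncomputable def LB_W (M : ∀ m : ℕ, (Fin m → ℍ) → RTree m → ℝ) {m n : ℕ} (x : Fin m → Fin n → ℍ)
    (τ : Fin n → RTree m) : ℝ := ∏ j, M m (fun i => x i j) (τ j)

theorem LB_fub {m n : ℕ} (f : Fin n → RTree m → ℝ) :
    ∑ τ : Fin n → RTree m, ∏ j, f j (τ j) = ∏ j, ∑ t, f j t := by
  rw [Finset.prod_univ_sum, Fintype.piFinset_univ]

theorem LB_nonneg (hM : CStar M) {m n : ℕ} (x : Fin m → Fin n → ℍ) (τ : Fin n → RTree m) :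
    0 ≤ LB_W M x τ := Finset.prod_nonneg fun _ _ => hM.nonneg _ _ _

theorem LB_one (hM : CStar M) {m n : ℕ} (x : Fin m → Fin n → ℍ) :
    ∑ τ : Fin n → RTree m, LB_W M x τ = 1 := by
  unfold LB_W
  rw [LB_fub (fun j t => M m (fun i => x i j) t)]
  exact Finset.prod_eq_one fun j _ => hM.one m _

theorem LB_inv (hM : CStar M) {m n : ℕ} (g : Fin n → SL(2, ℝ)) (x : Fin m → Fin n → ℍ)
    (τ : Fin n → RTree m) : LB_W M (fun i j => g j • x i j) τ = LB_W M x τ :=
  Finset.prod_congr rfl fun j _ => hM.inv m (g j) (fun i => x i j) (τ j)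

open Classical in
theorem LB_pull (hM : CStar M) {k m n : ℕ} (ι : Fin k ↪ Fin m) (x : Fin m → Fin n → ℍ)
    (τ' : Fin n → RTree k) : LB_W M (fun l => x (ι l)) τ' =
      ∑ τ : Fin n → RTree m, LB_W M x τ * (if (fun j => (τ j).pull ι) = τ' then 1 else 0) := by
  have h1 : ∀ j, M k (fun i => x (ι i) j) (τ' j) =
      ∑ t, M m (fun i => x i j) t * (if t.pull ι = τ' j then 1 else 0) := by
    intro j
    have h := hM.nat k m ι (fun i => x i j) (fun s => if s = τ' j then 1 else 0)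
    rw [h]
    simp
  have h2 : LB_W M (fun l => x (ι l)) τ' =
      ∏ j, ∑ t, M m (fun i => x i j) t * (if t.pull ι = τ' j then 1 else 0) :=
    Finset.prod_congr rfl fun j _ => h1 j
  rw [h2, ← LB_fub (fun j t => M m (fun i => x i j) t * (if t.pull ι = τ' j then 1 else 0))]
  refine Finset.sum_congr rfl fun τ _ => ?_
  rw [Finset.prod_mul_distrib, Finset.prod_boole]
  have h3 : (∀ i ∈ (Finset.univ : Finset (Fin n)), (τ i).pull ι = τ' i) ↔
      (fun j => (τ j).pull ι) = τ' :=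
    ⟨fun h => funext fun j => h j (Finset.mem_univ j), fun h j _ => congrFun h j⟩
  unfold LB_W
  congr 1
  by_cases h4 : (fun j => (τ j).pull ι) = τ'
  · rw [if_pos h4, if_pos (h3.2 h4)]
  · rw [if_neg h4, if_neg (fun h => h4 (h3.1 h))]

theorem LB_nat (hM : CStar M) {k m n : ℕ} (ι : Fin k ↪ Fin m) (x : Fin m → Fin n → ℍ)
    (b : (Fin n → RTree k) → ℝ) :
    ∑ τ : Fin n → RTree m, LB_W M x τ * b (fun j => (τ j).pull ι) =
      ∑ τ' : Fin n → RTree k, LB_W M (fun l => x (ι l)) τ' * b τ' := by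
  classical
  have h1 : ∀ τ' : Fin n → RTree k, LB_W M (fun l => x (ι l)) τ' * b τ' =
      ∑ τ : Fin n → RTree m, LB_W M x τ * (if (fun j => (τ j).pull ι) = τ' then b τ' else 0) := by
    intro τ'
    rw [LB_pull hM, Finset.sum_mul]
    refine Finset.sum_congr rfl fun τ _ => ?_
    rw [mul_assoc]
    congr 1
    split_ifs
    · rw [one_mul]
    · rw [zero_mul]
  rw [Finset.sum_congr rfl (fun τ' _ => h1 τ'), Finset.sum_comm]
  refine Finset.sum_congr rfl fun τ _ => ?_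
  rw [← Finset.mul_sum]
  congr 1
  rw [Finset.sum_ite_eq, if_pos (Finset.mem_univ _)]

theorem LB_vol (hM : CStar M) {n : ℕ} (x : Fin (n * 2 + 1) → Fin n → ℍ) :
    ∑ τ : Fin n → RTree (n * 2 + 1), LB_W M x τ * treeVol n τ = vol n x / Real.pi ^ n := by
  have h1 : ∀ σ : Equiv.Perm (Fin (n * 2)), ∑ τ : Fin n → RTree (n * 2 + 1), LB_W M x τ *
      ∏ j : Fin n, (((τ j).o 0 (σ (finProdFinEquiv (j, 0))).succ
        (σ (finProdFinEquiv (j, 1))).succ : ℤ) : ℝ) =
      (∏ j : Fin n, area (x 0 j) (x (σ (finProdFinEquiv (j, 0))).succ j)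
        (x (σ (finProdFinEquiv (j, 1))).succ j)) / Real.pi ^ n := by
    intro σ
    have h2 : ∀ τ : Fin n → RTree (n * 2 + 1), LB_W M x τ *
      ∏ j : Fin n, (((τ j).o 0 (σ (finProdFinEquiv (j, 0))).succ
        (σ (finProdFinEquiv (j, 1))).succ : ℤ) : ℝ) = ∏ j : Fin n, (M (n * 2 + 1) (fun i => x i j) (τ j) *
        (((τ j).o 0 (σ (finProdFinEquiv (j, 0))).succ
        (σ (finProdFinEquiv (j, 1))).succ : ℤ) : ℝ)) := by
      intro τ
      rw [Finset.prod_mul_distrib]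
      rfl
    rw [Finset.sum_congr rfl (fun τ _ => h2 τ),
      LB_fub (fun j t => M (n * 2 + 1) (fun i => x i j) t *
        ((t.o 0 (σ (finProdFinEquiv (j, 0))).succ (σ (finProdFinEquiv (j, 1))).succ : ℤ) : ℝ))]
    have h3 : ∀ j : Fin n, ∑ t, M (n * 2 + 1) (fun i => x i j) t *
        ((t.o 0 (σ (finProdFinEquiv (j, 0))).succ (σ (finProdFinEquiv (j, 1))).succ : ℤ) : ℝ) =
        area (x 0 j) (x (σ (finProdFinEquiv (j, 0))).succ j)
          (x (σ (finProdFinEquiv (j, 1))).succ j) / Real.pi := fun j =>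
      hM.area (n * 2 + 1) (fun i => x i j) 0 _ _
    rw [Finset.prod_congr rfl (fun j _ => h3 j), Finset.prod_div_distrib, Finset.prod_const,
      Finset.card_univ, Fintype.card_fin]
  have h4 : ∀ τ : Fin n → RTree (n * 2 + 1), LB_W M x τ * treeVol n τ =
      ∑ σ : Equiv.Perm (Fin (n * 2)), ((1 / ((n * 2).factorial : ℝ)) * ((Equiv.Perm.sign σ : ℤ) : ℝ)) *
        (LB_W M x τ * ∏ j : Fin n, (((τ j).o 0 (σ (finProdFinEquiv (j, 0))).succ
        (σ (finProdFinEquiv (j, 1))).succ : ℤ) : ℝ)) := by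
    intro τ
    unfold treeVol
    rw [Finset.mul_sum, Finset.mul_sum]
    refine Finset.sum_congr rfl fun σ _ => ?_
    ring
  rw [Finset.sum_congr rfl (fun τ _ => h4 τ), Finset.sum_comm]
  have h5 : vol n x = ∑ σ : Equiv.Perm (Fin (n * 2)), ((1 / ((n * 2).factorial : ℝ)) *
      ((Equiv.Perm.sign σ : ℤ) : ℝ)) * ∏ j : Fin n, area (x 0 j) (x (σ (finProdFinEquiv (j, 0))).succ j)
        (x (σ (finProdFinEquiv (j, 1))).succ j) := by
    unfold vol
    rw [Finset.mul_sum]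
    refine Finset.sum_congr rfl fun σ _ => ?_
    ring
  rw [h5, Finset.sum_div]
  refine Finset.sum_congr rfl fun σ _ => ?_
  rw [← Finset.mul_sum, h1 σ, mul_div_assoc]

/-- The averaged cochain. -/
noncomputable def LB_Phi (M : ∀ m : ℕ, (Fin m → ℍ) → RTree m → ℝ) {m n : ℕ}
    (b : (Fin n → RTree m) → ℝ) (x : Fin m → Fin n → ℍ) : ℝ :=
  ∑ τ : Fin n → RTree m, LB_W M x τ * b τ

theorem LB_Phi_inv (hM : CStar M) {m n : ℕ} (b : (Fin n → RTree m) → ℝ) : InvN (LB_Phi M b) := by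
  intro g x
  exact Finset.sum_congr rfl fun τ _ => by rw [LB_inv hM]

theorem LB_main (hM : CStar M) {n : ℕ} (b : (Fin n → RTree (n * 2)) → ℝ)
    (x : Fin (n * 2 + 1) → Fin n → ℍ) :
    ∑ τ : Fin n → RTree (n * 2 + 1), LB_W M x τ * (treeVol n τ + ∑ i : Fin (n * 2 + 1),
      (-1 : ℝ) ^ (i : ℕ) * b fun j => (τ j).pull (Fin.succAboveEmb i)) =
    vol n x / Real.pi ^ n + ∑ i : Fin (n * 2 + 1), (-1 : ℝ) ^ (i : ℕ) *
      LB_Phi M b fun l => x (i.succAbove l) := by
  simp only [mul_add]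
  rw [Finset.sum_add_distrib, LB_vol hM]
  congr 1
  simp only [Finset.mul_sum]
  rw [Finset.sum_comm]
  refine Finset.sum_congr rfl fun i _ => ?_
  have h1 := LB_nat hM (Fin.succAboveEmb i) x b
  unfold LB_Phi
  have h2 : ∑ τ' : Fin n → RTree (n * 2), LB_W M (fun l => x (i.succAbove l)) τ' * b τ' =
      ∑ τ : Fin n → RTree (n * 2 + 1), LB_W M x τ * b (fun j => (τ j).pull (Fin.succAboveEmb i)) :=
    h1.symm
  rw [h2, Finset.mul_sum]
  refine Finset.sum_congr rfl fun τ _ => ?_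
  ring

theorem LB_bd (hM : CStar M) {m n : ℕ} (x : Fin m → Fin n → ℍ) (f : (Fin n → RTree m) → ℝ) (v : ℝ)
    (hv : ∀ τ, |f τ| ≤ v) : |∑ τ : Fin n → RTree m, LB_W M x τ * f τ| ≤ v := by
  calc |∑ τ : Fin n → RTree m, LB_W M x τ * f τ| ≤ ∑ τ : Fin n → RTree m, |LB_W M x τ * f τ| :=
        Finset.abs_sum_le_sum_abs _ _
    _ ≤ ∑ τ : Fin n → RTree m, LB_W M x τ * v := by
        refine Finset.sum_le_sum fun τ _ => ?_
        rw [abs_mul, abs_of_nonneg (LB_nonneg hM x τ)]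
        exact mul_le_mul_of_nonneg_left (hv τ) (LB_nonneg hM x τ)
    _ = v := by rw [← Finset.sum_mul, LB_one hM, one_mul]

theorem LB_pairbd {n p : ℕ} (Γ : Fin n → Subgroup SL(2, ℝ)) (F : (Fin p → Fin n → ℍ) → ℝ) (v : ℝ)
    (hF : ∀ x, |F x| ≤ v) (w : Chain p (∀ j, Surf (Γ j))) : pairF Γ F w ≤ v * norm1 w := by
  unfold pairF norm1 Finsupp.sum
  rw [Finset.mul_sum]
  refine Finset.sum_le_sum fun σ _ => ?_
  show w σ * F (vtx Γ σ) ≤ v * |w σ|
  calc w σ * F (vtx Γ σ) ≤ |w σ * F (vtx Γ σ)| := le_abs_self _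
    _ = |w σ| * |F (vtx Γ σ)| := abs_mul _ _
    _ ≤ |w σ| * v := mul_le_mul_of_nonneg_left (hF _) (abs_nonneg _)
    _ = v * |w σ| := mul_comm _ _

theorem LB_pairadd {n p : ℕ} (Γ : Fin n → Subgroup SL(2, ℝ)) (F G H : (Fin p → Fin n → ℍ) → ℝ) (c : ℝ)
    (h : ∀ x, F x = G x / c + H x) (w : Chain p (∀ j, Surf (Γ j))) :
    pairF Γ F w = pairF Γ G w / c + pairF Γ H w := by
  unfold pairF Finsupp.sum
  rw [Finset.sum_div, ← Finset.sum_add_distrib]
  refine Finset.sum_congr rfl fun σ _ => ?_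
  show w σ * F (vtx Γ σ) = w σ * G (vtx Γ σ) / c + w σ * H (vtx Γ σ)
  rw [h]
  ring

theorem lower (hM : CStar M) {n : ℕ} (Γ : Fin n → Subgroup SL(2, ℝ))
    (hΓ : ∀ j, IsSurfaceGroup (Γ j)) (b : (Fin n → RTree (n * 2)) → ℝ) (v : ℝ)
    (hv : ∀ τ : Fin n → RTree (n * 2 + 1), |treeVol n τ + ∑ i : Fin (n * 2 + 1),
      (-1 : ℝ) ^ (i : ℕ) * b fun j => (τ j).pull (Fin.succAboveEmb i)| ≤ v)
    (w : Chain (n * 2 + 1) (∀ j, Surf (Γ j))) (hw : boundary (n * 2) _ w = 0)
    (h1 : volPair Γ w = 1) : 1 ≤ Real.pi ^ n * v * norm1 w := by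
  have h2 := LB_pairadd Γ (fun x => ∑ τ : Fin n → RTree (n * 2 + 1), LB_W M x τ *
    (treeVol n τ + ∑ i : Fin (n * 2 + 1),
      (-1 : ℝ) ^ (i : ℕ) * b fun j => (τ j).pull (Fin.succAboveEmb i))) (vol n) _ (Real.pi ^ n)
    (LB_main hM b) w
  rw [pairF_coboundary Γ hΓ (LB_Phi M b) (LB_Phi_inv hM b) w hw, add_zero] at h2
  have h3 : pairF Γ (vol n) w = 1 := h1
  rw [h3] at h2
  have h4 := LB_pairbd Γ (fun x => ∑ τ : Fin n → RTree (n * 2 + 1), LB_W M x τ *
    (treeVol n τ + ∑ i : Fin (n * 2 + 1),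
      (-1 : ℝ) ^ (i : ℕ) * b fun j => (τ j).pull (Fin.succAboveEmb i))) v
    (fun x => LB_bd hM x _ v hv) w
  rw [h2, div_le_iff₀ (pow_pos Real.pi_pos n)] at h4
  calc (1 : ℝ) ≤ v * norm1 w * Real.pi ^ n := h4
    _ = Real.pi ^ n * v * norm1 w := by ring

theorem lower_exact (hM : CStar M) {n : ℕ} (b : (Fin n → RTree (n * 2)) → ℝ)
    (hv : ∀ τ : Fin n → RTree (n * 2 + 1), treeVol n τ + ∑ i : Fin (n * 2 + 1),
      (-1 : ℝ) ^ (i : ℕ) * b (fun j => (τ j).pull (Fin.succAboveEmb i)) = 0) :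
    ∃ B : (Fin (n * 2) → Fin n → ℍ) → ℝ, InvN B ∧ ∀ x : Fin (n * 2 + 1) → Fin n → ℍ,
      vol n x = ∑ i : Fin (n * 2 + 1), (-1 : ℝ) ^ (i : ℕ) * B fun l => x (i.succAbove l) := by
  refine ⟨fun x => -(Real.pi ^ n) * LB_Phi M b x, ?_, ?_⟩
  · intro g x
    show -(Real.pi ^ n) * LB_Phi M b (fun i j => g j • x i j) = -(Real.pi ^ n) * LB_Phi M b x
    rw [LB_Phi_inv hM b g x]
  · intro x
    have h1 := LB_main hM b x
    have h2 : ∑ τ : Fin n → RTree (n * 2 + 1), LB_W M x τ * (treeVol n τ + ∑ i : Fin (n * 2 + 1),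
      (-1 : ℝ) ^ (i : ℕ) * b fun j => (τ j).pull (Fin.succAboveEmb i)) = 0 :=
      Finset.sum_eq_zero fun τ _ => by rw [hv τ, mul_zero]
    rw [h2] at h1
    have hp : Real.pi ^ n ≠ 0 := (pow_pos Real.pi_pos n).ne'
    have h3 : vol n x / Real.pi ^ n = -∑ i : Fin (n * 2 + 1), (-1 : ℝ) ^ (i : ℕ) *
      LB_Phi M b fun l => x (i.succAbove l) := by linarith
    rw [div_eq_iff hp] at h3
    rw [h3, ← Finset.sum_neg_distrib, Finset.sum_mul]
    refine Finset.sum_congr rfl fun i _ => ?_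
    ring

end SimplVol

end S_LB

section S_KI

/-!
# Module KI: iterated averages over the roundings

Same structure as `MM` in module `Pool/Agent/H54/RT/MN.lean` (copy those proofs, with `κ j m (x^j)` in the role of `μ m (τ j)`): induction on `n`, `Fin.cons`, `Fin.cases`.
* `KM_add`, `KM_smul`, `KM_sum`: linearity in `F`. `KM_bdd`: `Rnd.bdd`.
* `KM_nat`: for `ι : Fin k → Fin m`: `Rnd.nat` (no conditions on `F`).
* `KM_inv`: if `F` is invariant under `∏_j Γ_j` then `KM n m κ F (g • x) = KM n m κ F x` for `g : Fin n → SL(2, ℝ)`: the inner function `x' ↦ κ 0 m (x^0) (y ↦ F (cons y x'))` is invariant under `∏_{j ≥ 1} Γ_j` (take `γ 0 = 1`), and for fixed `x'` the function `y ↦ F (cons y x')` is invariant under `Γ_0`, so `Rnd.inv` removes `g 0`; induction.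
* `KM_prod`: as `MM_prod`. `KM_vol`: as `MM_vol`: `vol n x = (1/(2n)!) ∑ sgn σ ∏_j area (x 0 j) ..`, `KM_prod` with `f j y = area (y 0) (y a_j) (y b_j)` and `Rnd.area`.
-/

set_option autoImplicit false

open scoped BigOperators UpperHalfPlane MatrixGroups

namespace SimplVol

/-- The iterated averages. -/
noncomputable def KM : ∀ (n m : ℕ),
    (Fin n → ∀ m, (Fin m → ℍ) → ((Fin m → ℍ) → ℝ) →ₗ[ℝ] ℝ) →
    ((Fin m → Fin n → ℍ) → ℝ) → (Fin m → Fin n → ℍ) → ℝ
  | 0, _, _, F, x => F x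
  | n + 1, m, κ, F, x => KM n m (fun j => κ j.succ)
      (fun x' => κ 0 m (fun i => x i 0) fun y => F fun i => Fin.cons (y i) (x' i))
      fun i j => x i j.succ

theorem KI_zero {m : ℕ} (κ : Fin 0 → ∀ m, (Fin m → ℍ) → ((Fin m → ℍ) → ℝ) →ₗ[ℝ] ℝ)
    (F : (Fin m → Fin 0 → ℍ) → ℝ) (x : Fin m → Fin 0 → ℍ) : KM 0 m κ F x = F x := rfl

theorem KI_succ {n m : ℕ} (κ : Fin (n + 1) → ∀ m, (Fin m → ℍ) → ((Fin m → ℍ) → ℝ) →ₗ[ℝ] ℝ)
    (F : (Fin m → Fin (n + 1) → ℍ) → ℝ) (x : Fin m → Fin (n + 1) → ℍ) :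
    KM (n + 1) m κ F x = KM n m (fun j => κ j.succ)
      (fun x' => κ 0 m (fun i => x i 0) fun y => F fun i => Fin.cons (y i) (x' i))
      fun i j => x i j.succ := rfl

theorem KM_add {n m : ℕ} (κ : Fin n → ∀ m, (Fin m → ℍ) → ((Fin m → ℍ) → ℝ) →ₗ[ℝ] ℝ)
    (F G : (Fin m → Fin n → ℍ) → ℝ) (x : Fin m → Fin n → ℍ) :
    KM n m κ (fun y => F y + G y) x = KM n m κ F x + KM n m κ G x := by
  induction n with
  | zero => rfl
  | succ n ih =>
    rw [KI_succ, KI_succ, KI_succ, ← ih]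
    congr 1
    funext x'
    exact map_add (κ 0 m (fun i => x i 0)) (fun y => F fun i => Fin.cons (y i) (x' i))
      (fun y => G fun i => Fin.cons (y i) (x' i))

theorem KM_smul {n m : ℕ} (κ : Fin n → ∀ m, (Fin m → ℍ) → ((Fin m → ℍ) → ℝ) →ₗ[ℝ] ℝ) (c : ℝ)
    (F : (Fin m → Fin n → ℍ) → ℝ) (x : Fin m → Fin n → ℍ) :
    KM n m κ (fun y => c * F y) x = c * KM n m κ F x := by
  induction n with
  | zero => rfl
  | succ n ih =>
    rw [KI_succ, KI_succ, ← ih]
    congr 1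
    funext x'
    exact map_smul (κ 0 m (fun i => x i 0)) c (fun y => F fun i => Fin.cons (y i) (x' i))

theorem KI_null {n m : ℕ} (κ : Fin n → ∀ m, (Fin m → ℍ) → ((Fin m → ℍ) → ℝ) →ₗ[ℝ] ℝ)
    (x : Fin m → Fin n → ℍ) : KM n m κ (fun _ => 0) x = 0 := by
  have h := KM_smul κ 0 (fun _ => (0 : ℝ)) x
  simp only [mul_zero, zero_mul] at h
  exact h

theorem KM_sum {n m : ℕ} (κ : Fin n → ∀ m, (Fin m → ℍ) → ((Fin m → ℍ) → ℝ) →ₗ[ℝ] ℝ) {J : Type}
    (s : Finset J) (F : J → (Fin m → Fin n → ℍ) → ℝ) (x : Fin m → Fin n → ℍ) :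
    KM n m κ (fun y => ∑ i ∈ s, F i y) x = ∑ i ∈ s, KM n m κ (F i) x := by
  classical
  induction s using Finset.induction_on with
  | empty =>
    simp only [Finset.sum_empty]
    exact KI_null κ x
  | insert a s ha ih =>
    rw [Finset.sum_insert ha, ← ih]
    simp only [Finset.sum_insert ha]
    exact KM_add _ _ _ x

theorem KM_bdd {n m : ℕ} (Γ : Fin n → Subgroup SL(2, ℝ))
    (κ : Fin n → ∀ m, (Fin m → ℍ) → ((Fin m → ℍ) → ℝ) →ₗ[ℝ] ℝ) (hκ : ∀ j, Rnd (Γ j) (κ j))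
    (F : (Fin m → Fin n → ℍ) → ℝ) (C : ℝ) (hF : ∀ y, |F y| ≤ C) (x : Fin m → Fin n → ℍ) :
    |KM n m κ F x| ≤ C := by
  induction n with
  | zero => exact hF _
  | succ n ih =>
    rw [KI_succ]
    exact ih (fun j => Γ j.succ) _ (fun j => hκ j.succ) _
      (fun x' => (hκ 0).bdd m _ _ C (fun y => hF _)) _

theorem KM_nat {n k m : ℕ} (Γ : Fin n → Subgroup SL(2, ℝ))
    (κ : Fin n → ∀ m, (Fin m → ℍ) → ((Fin m → ℍ) → ℝ) →ₗ[ℝ] ℝ) (hκ : ∀ j, Rnd (Γ j) (κ j))
    (ι : Fin k → Fin m) (F : (Fin k → Fin n → ℍ) → ℝ) (x : Fin m → Fin n → ℍ) :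
    KM n m κ (fun y => F fun i => y (ι i)) x = KM n k κ F fun i => x (ι i) := by
  induction n with
  | zero => rfl
  | succ n ih =>
    rw [KI_succ, KI_succ]
    have h2 := ih (fun j => Γ j.succ) (fun j => κ j.succ) (fun j => hκ j.succ)
      (fun x' => κ 0 k (fun i => x (ι i) 0) fun y' => F fun i => Fin.cons (y' i) (x' i))
      (fun i j => x i j.succ)
    rw [← h2]
    congr 1
    funext x'
    exact (hκ 0).nat k m ι (fun i => x i 0) (fun y' => F fun i => Fin.cons (y' i) (x' (ι i)))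

theorem KM_inv {n m : ℕ} (Γ : Fin n → Subgroup SL(2, ℝ))
    (κ : Fin n → ∀ m, (Fin m → ℍ) → ((Fin m → ℍ) → ℝ) →ₗ[ℝ] ℝ) (hκ : ∀ j, Rnd (Γ j) (κ j))
    (F : (Fin m → Fin n → ℍ) → ℝ)
    (hF : ∀ γ : Fin n → SL(2, ℝ), (∀ j, γ j ∈ Γ j) → ∀ y, F (fun i j => γ j • y i j) = F y)
    (g : Fin n → SL(2, ℝ)) (x : Fin m → Fin n → ℍ) :
    KM n m κ F (fun i j => g j • x i j) = KM n m κ F x := by
  induction n with
  | zero =>
    rw [KI_zero, KI_zero]
    congr 1
    funext i j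
    exact j.elim0
  | succ n ih =>
    rw [KI_succ, KI_succ]
    have h1 : (fun x' : Fin m → Fin n → ℍ => κ 0 m (fun i => g 0 • x i 0)
          fun y => F fun i => Fin.cons (y i) (x' i)) =
        fun x' => κ 0 m (fun i => x i 0) fun y => F fun i => Fin.cons (y i) (x' i) := by
      funext x'
      refine (hκ 0).inv m (fun i => x i 0) _ (g 0) ?_
      intro γ hγ y
      have h2 := hF (Fin.cons γ 1) (fun j => by
        refine Fin.cases ?_ (fun j => ?_) j
        · simpa using hγ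
        · simpa using (Γ j.succ).one_mem) (fun i => Fin.cons (y i) (x' i))
      show F (fun i => Fin.cons (γ • y i) (x' i)) = F fun i => Fin.cons (y i) (x' i)
      rw [← h2]
      congr 1
      funext i j
      refine Fin.cases ?_ (fun j => ?_) j
      · simp
      · simp
    rw [h1]
    refine ih (fun j => Γ j.succ) (fun j => κ j.succ) (fun j => hκ j.succ) _ ?_ (fun j => g j.succ)
      (fun i j => x i j.succ)
    intro γ hγ x'
    show κ 0 m (fun i => x i 0) (fun y => F fun i => Fin.cons (y i) (fun j => γ j • x' i j)) =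
      κ 0 m (fun i => x i 0) (fun y => F fun i => Fin.cons (y i) (x' i))
    congr 1
    funext y
    have h2 := hF (Fin.cons 1 γ) (fun j => by
      refine Fin.cases ?_ (fun j => ?_) j
      · simpa using (Γ 0).one_mem
      · simpa using hγ j) (fun i => Fin.cons (y i) (x' i))
    rw [← h2]
    congr 1
    funext i j
    refine Fin.cases ?_ (fun j => ?_) j
    · simp
    · simp

theorem KI_prod {n m : ℕ} (κ : Fin n → ∀ m, (Fin m → ℍ) → ((Fin m → ℍ) → ℝ) →ₗ[ℝ] ℝ)
    (f : Fin n → (Fin m → ℍ) → ℝ) (x : Fin m → Fin n → ℍ) :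
    KM n m κ (fun y => ∏ j, f j fun i => y i j) x = ∏ j, κ j m (fun i => x i j) (f j) := by
  induction n with
  | zero =>
    rw [KI_zero, Fin.prod_univ_zero, Fin.prod_univ_zero]
  | succ n ih =>
    rw [KI_succ, Fin.prod_univ_succ, ← ih (fun j => κ j.succ) (fun j => f j.succ)
      (fun i j => x i j.succ), ← KM_smul]
    congr 1
    funext x'
    have h1 : (fun y : Fin m → ℍ => ∏ j : Fin (n + 1),
        f j fun i => (Fin.cons (y i) (x' i) : Fin (n + 1) → ℍ) j) =
        (∏ j : Fin n, f j.succ fun i => x' i j) • (f 0) := by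
      funext y
      rw [Fin.prod_univ_succ]
      simp only [Fin.cons_zero, Fin.cons_succ, Pi.smul_apply, smul_eq_mul]
      rw [mul_comm]
    rw [h1, map_smul, smul_eq_mul, mul_comm]

theorem KM_vol {n : ℕ} (Γ : Fin n → Subgroup SL(2, ℝ))
    (κ : Fin n → ∀ m, (Fin m → ℍ) → ((Fin m → ℍ) → ℝ) →ₗ[ℝ] ℝ) (hκ : ∀ j, Rnd (Γ j) (κ j))
    (x : Fin (n * 2 + 1) → Fin n → ℍ) : KM n (n * 2 + 1) κ (vol n) x = vol n x := by
  have h0 : vol n = fun x => (1 / ((n * 2).factorial : ℝ)) *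
      (∑ σ : Equiv.Perm (Fin (n * 2)), ((Equiv.Perm.sign σ : ℤ) : ℝ) *
        ∏ j : Fin n, area (x 0 j) (x (σ (finProdFinEquiv (j, 0))).succ j)
          (x (σ (finProdFinEquiv (j, 1))).succ j)) := rfl
  have h1 : ∀ σ : Equiv.Perm (Fin (n * 2)), KM n (n * 2 + 1) κ
      (fun x => ((Equiv.Perm.sign σ : ℤ) : ℝ) *
        ∏ j : Fin n, area (x 0 j) (x (σ (finProdFinEquiv (j, 0))).succ j)
          (x (σ (finProdFinEquiv (j, 1))).succ j)) x =
      ((Equiv.Perm.sign σ : ℤ) : ℝ) *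
        ∏ j : Fin n, area (x 0 j) (x (σ (finProdFinEquiv (j, 0))).succ j)
          (x (σ (finProdFinEquiv (j, 1))).succ j) := by
    intro σ
    rw [KM_smul]
    have h2 := KI_prod κ (fun j (y : Fin (n * 2 + 1) → ℍ) =>
      area (y 0) (y (σ (finProdFinEquiv (j, 0))).succ) (y (σ (finProdFinEquiv (j, 1))).succ)) x
    have h3 : ∀ j : Fin n, κ j (n * 2 + 1) (fun i => x i j) (fun y : Fin (n * 2 + 1) → ℍ =>
        area (y 0) (y (σ (finProdFinEquiv (j, 0))).succ) (y (σ (finProdFinEquiv (j, 1))).succ)) =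
        area (x 0 j) (x (σ (finProdFinEquiv (j, 0))).succ j)
          (x (σ (finProdFinEquiv (j, 1))).succ j) := fun j => (hκ j).area _ _ _ _ _
    simp only [h3] at h2
    rw [h2]
  rw [h0, KM_smul, KM_sum]
  simp only [h1]

end SimplVol

end S_KI

section S_ZP

/-!
# Module ZP: evaluation of cochains on the chain of the cube

Let `IY` be `ℍ` with the indiscrete topology (`def IY : Type := ℍ`, `instance : TopologicalSpace IY := ⊤`), so every map to `IY` is continuous (`continuous_top`). For `P : Fin n → Fin 3 → ℍ` let `σ j : Sing 3 IY` be a map with `σ j (vertex i) = P j i` (e.g. `t ↦ if t = vertex 1 then P j 1 else if t = vertex 2 then P j 2 else P j 0`;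
the vertices are distinct).
For `B : (Fin p → Fin n → ℍ) → ℝ` let `ZP_ev B : Chain p (∀ _ : Fin n, IY) →ₗ[ℝ] ℝ := Finsupp.linearCombination ℝ fun τ => B fun i j => τ (stdSimplex.vertex i) j`.
* `ZP_ev (dB) w = ZP_ev B (boundary p _ w)` for `dB x = ∑_i (-1)^i B (x ∘ i.succAbove)` (check on `single τ a`; `faceMap p i (vertex l) = vertex (i.succAbove l)`: `stdSimplex.map_vertex`), as in `pairF_coboundary` in `Pool/Agent/H74/SV/CP.lean`.
* vertices of the cells: `cell σ y (vertex k) j = σ j (vertex (ty (y k) j)) = P j (ty (y k) j)` (`tri_vertex` in `Pool/Agent/H74/SV/AF.lean`); `ecell j σ e y (vertex k) i` is `P i (ty (y k) i)` for `i ≠ j` and `e (vertex (if y k (finProdFinEquiv (j, 1)) then 1 else 0))` for `i = j` (`col` at a vertex is `1` or `0`, `edgeMap` at `0`, `1` is the vertex `0`, `1`: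
  see `tri_vertex` and the lemmas of module AF for the method); for `e = (σ j).comp (faceMap 2 i)` this is `P j (i.succAbove (if .. then 1 else 0))`.
* `zp_formula`: `ZP_ev (dB) (cubeChain σ) = ZP_ev B (boundary _ _ (cubeChain σ))`, `boundary_cubeChain hn σ`, unfold `edgeChain`.
* `zp_vol`: `vol n (fun k j => P j (ty (y k) j)) = (∏_j area (P j 0) (P j 1) (P j 2)) * wvol n y` (`area_or3`, as in `vol_cell` of `Pool/Agent/H74/SV/PR.lean`), and `cub_wvol`.
-/

set_option autoImplicit false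

open scoped BigOperators UpperHalfPlane MatrixGroups

namespace SimplVol

/-- The vertices of the cell of an edge. -/
def ept {n : ℕ} (P : Fin n → Fin 3 → ℍ) (j : Fin n) (u v : ℍ) {p : ℕ}
    (y : Fin p → Fin (n * 2) → Bool) (k : Fin p) (i : Fin n) : ℍ :=
  if i = j then (if y k (finProdFinEquiv (j, 1)) = true then v else u) else P i (ty (y k) i)

/-- The evaluation on the chain of an edge. -/
noncomputable def eev {n : ℕ} (B : (Fin (n * 2) → Fin n → ℍ) → ℝ) (P : Fin n → Fin 3 → ℍ)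
    (j : Fin n) (u v : ℍ) : ℝ :=
  ∑ y : Fin (n * 2) → Fin (n * 2) → Bool,
    if ∀ k, y k (finProdFinEquiv (j, 0)) = true then
      fc (n * 2) (finProdFinEquiv (j, 0)) y * B (ept P j u v y) else 0

/-- The upper half plane with the indiscrete topology. -/
def ZPY : Type := ℍ

instance zpTop : TopologicalSpace ZPY := ⊤

open Classical in
/-- A singular triangle with given vertices. -/
noncomputable def zpS (Q : Fin 3 → ℍ) : Sing 3 ZPY :=
  ⟨fun t => if t 1 = 1 then Q 1 else if t 2 = 1 then Q 2 else Q 0, continuous_top⟩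

theorem zpS_vertex (Q : Fin 3 → ℍ) (i : Fin 3) : zpS Q (stdSimplex.vertex i) = Q i := by
  classical
  have h : zpS Q (stdSimplex.vertex i) =
      (if (stdSimplex.vertex i : stdSimplex ℝ (Fin 3)) 1 = 1 then Q 1 else
        if (stdSimplex.vertex i : stdSimplex ℝ (Fin 3)) 2 = 1 then Q 2 else Q 0 : ℍ) := by
    unfold zpS
    simp only [ContinuousMap.coe_mk]
    congr
  rw [h, stdSimplex.vertex_coe]
  fin_cases i <;> simp

/-- Evaluation of a cochain which depends on the vertices only. -/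
noncomputable def zpE {n p : ℕ} (B : (Fin p → Fin n → ℍ) → ℝ) :
    Chain p (∀ _ : Fin n, ZPY) →ₗ[ℝ] ℝ :=
  Finsupp.linearCombination ℝ fun τ : Sing p (∀ _ : Fin n, ZPY) =>
    B fun i j => τ (stdSimplex.vertex i) j

theorem zpE_boundary {n p : ℕ} (B : (Fin p → Fin n → ℍ) → ℝ)
    (w : Chain (p + 1) (∀ _ : Fin n, ZPY)) :
    zpE (fun x => ∑ i : Fin (p + 1), (-1 : ℝ) ^ (i : ℕ) * B (fun l => x (i.succAbove l))) w =
      zpE B (boundary p _ w) := by
  have key : zpE (fun x => ∑ i : Fin (p + 1), (-1 : ℝ) ^ (i : ℕ) *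
      B (fun l => x (i.succAbove l))) = (zpE B) ∘ₗ (boundary p (∀ _ : Fin n, ZPY)) := by
    refine Finsupp.lhom_ext fun σ a => ?_
    rw [LinearMap.comp_apply, zpE, boundary, Finsupp.linearCombination_single,
      Finsupp.linearCombination_single, map_smul, map_sum]
    congr 1
    refine Finset.sum_congr rfl fun i _ => ?_
    rw [map_smul, zpE, Finsupp.linearCombination_single, one_smul, smul_eq_mul]
    congr 1
    congr 1
    funext l j
    have h3 : faceMap p i (stdSimplex.vertex l) = stdSimplex.vertex (i.succAbove l) :=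
      stdSimplex.map_vertex _ _
    rw [ContinuousMap.comp_apply, h3]
  rw [key]
  rfl

theorem zp_cell {n p : ℕ} (P : Fin n → Fin 3 → ℍ) (y : Fin p → Fin (n * 2) → Bool) (k : Fin p)
    (j : Fin n) : cell (fun j => zpS (P j)) y (stdSimplex.vertex k) j = P j (ty (y k) j) := by
  show zpS (P j) (tri y j (stdSimplex.vertex k)) = _
  rw [tri_vertex, zpS_vertex]

theorem zp_edgeMap (b : Bool) : edgeMap (if b = true then 1 else 0) =
    stdSimplex.vertex (if b = true then 1 else 0 : Fin 2) := by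
  apply stdSimplex.ext
  funext k
  rw [AF_edgeMap_apply, stdSimplex.vertex_coe]
  cases b <;> fin_cases k <;> simp

theorem zp_ecell {n p : ℕ} (P : Fin n → Fin 3 → ℍ) (j : Fin n) (a : Fin 3)
    (y : Fin p → Fin (n * 2) → Bool) (k : Fin p) (i : Fin n) :
    ecell j (fun j => zpS (P j)) ((zpS (P j)).comp (faceMap 2 a)) y (stdSimplex.vertex k) i =
      ept P j (P j (a.succAbove 0)) (P j (a.succAbove 1)) y k i := by
  show (Function.update (fun i => (zpS (P i)).comp (tri y i)) j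
    (((zpS (P j)).comp (faceMap 2 a)).comp
      (edgeMap.comp (col fun k => y k (finProdFinEquiv (j, 1)))))) i (stdSimplex.vertex k) = _
  unfold ept
  by_cases h : i = j
  · subst h
    rw [Function.update_self, if_pos rfl]
    show zpS (P i) (faceMap 2 a (edgeMap (col (fun k => y k (finProdFinEquiv (i, 1)))
      (stdSimplex.vertex k)))) = _
    rw [col_vertex, zp_edgeMap]
    have h3 : ∀ l : Fin 2, faceMap 2 a (stdSimplex.vertex l) = stdSimplex.vertex (a.succAbove l) :=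
      fun l => stdSimplex.map_vertex _ _
    rw [h3, zpS_vertex]
    split_ifs <;> rfl
  · rw [Function.update_of_ne h, if_neg h]
    show zpS (P i) (tri y i (stdSimplex.vertex k)) = _
    rw [tri_vertex, zpS_vertex]

theorem zp_formula {n : ℕ} (hn : 1 ≤ n) (B : (Fin (n * 2) → Fin n → ℍ) → ℝ)
    (P : Fin n → Fin 3 → ℍ) :
    ∑ y : Fin (n * 2 + 1) → Fin (n * 2) → Bool, cub (n * 2) y *
      (∑ i : Fin (n * 2 + 1), (-1 : ℝ) ^ (i : ℕ) *
        B fun l j => P j (ty (y (i.succAbove l)) j)) =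
    ∑ j, ∑ i : Fin 3, (-1 : ℝ) ^ (i : ℕ) *
      eev B P j (P j (i.succAbove 0)) (P j (i.succAbove 1)) := by
  have h1 : zpE (fun x => ∑ i : Fin (n * 2 + 1), (-1 : ℝ) ^ (i : ℕ) *
      B (fun l => x (i.succAbove l))) (cubeChain fun j => zpS (P j)) =
      ∑ y : Fin (n * 2 + 1) → Fin (n * 2) → Bool, cub (n * 2) y *
      (∑ i : Fin (n * 2 + 1), (-1 : ℝ) ^ (i : ℕ) *
        B fun l j => P j (ty (y (i.succAbove l)) j)) := by
    rw [cubeChain, map_sum]
    refine Finset.sum_congr rfl fun y _ => ?_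
    rw [zpE, Finsupp.linearCombination_single, smul_eq_mul]
    congr 1
    refine Finset.sum_congr rfl fun i _ => ?_
    congr 1
    congr 1
    funext l j
    exact zp_cell P y _ j
  rw [← h1, zpE_boundary, boundary_cubeChain hn, map_sum]
  refine Finset.sum_congr rfl fun j _ => ?_
  rw [map_sum]
  refine Finset.sum_congr rfl fun i _ => ?_
  rw [map_smul, smul_eq_mul]
  congr 1
  unfold edgeChain eev
  rw [map_sum]
  refine Finset.sum_congr rfl fun y _ => ?_
  split_ifs with h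
  · rw [zpE, Finsupp.linearCombination_single, smul_eq_mul]
    congr 1
    congr 1
    funext k l
    exact zp_ecell P j i y k l
  · exact map_zero _

theorem zp_vol {n : ℕ} (P : Fin n → Fin 3 → ℍ) :
    ∑ y : Fin (n * 2 + 1) → Fin (n * 2) → Bool,
      cub (n * 2) y * vol n (fun k j => P j (ty (y k) j)) =
    ∏ j, area (P j 0) (P j 1) (P j 2) := by
  have hv : ∀ y : Fin (n * 2 + 1) → Fin (n * 2) → Bool,
      vol n (fun k j => P j (ty (y k) j)) = (∏ j, area (P j 0) (P j 1) (P j 2)) * wvol n y := by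
    intro y
    unfold vol wvol
    have h1 : ∀ a b c : Fin (n * 2 + 1), ∀ j : Fin n,
        area (P j (ty (y a) j)) (P j (ty (y b) j)) (P j (ty (y c) j)) =
        or3 (ty (y a) j) (ty (y b) j) (ty (y c) j) * area (P j 0) (P j 1) (P j 2) := by
      intro a b c j
      rw [area_or3]
    simp only [h1, Finset.prod_mul_distrib]
    rw [mul_left_comm]
    congr 1
    rw [Finset.mul_sum]
    apply Finset.sum_congr rfl
    intro π _
    ring
  simp only [hv]
  have h2 : ∀ y : Fin (n * 2 + 1) → Fin (n * 2) → Bool,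
      cub (n * 2) y * ((∏ j, area (P j 0) (P j 1) (P j 2)) * wvol n y) =
      (∏ j, area (P j 0) (P j 1) (P j 2)) * (cub (n * 2) y * wvol n y) := fun y => by ring
  simp only [h2]
  rw [← Finset.mul_sum, cub_wvol, mul_one]

end SimplVol

end S_ZP

section S_ZQ

/-!
# Module ZQ: the volume cocycle is not the coboundary of an invariant function

* `zq_area`: there are `x y z : ℍ` with `area x y z ≠ 0`: e.g. `x = I`, `y = 1 + I`, `z = 2 I`: `sarg_eq_arctan` (`Pool/Agent/H74/SV/AR.lean`): `sarg z w = arctan ((w.re - z.re)/(z.im + w.im))`: `sarg x y = arctan (1/2)`, `sarg y z = arctan (-1/3)`, `sarg z x = 0`, sum `arctan (1/2) - arctan (1/3) > 0`.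
* `eev_swap`: for `B` with `InvN B`: `eev B P j u v = eev B P j v u`: `swap_smul u v` gives `g` with `g • u = v`, `g • v = u`; `ept P j v u y k i = (Function.update 1 j g) i • ept P j u v y k i`, so `B (ept P j v u y) = B (ept P j u v y)`.
* `eev_congr`: `eev B P j u v` depends only on `P i`, `i ≠ j`.
* `vol_not_exact`. Suppose `vol n x = ∑_i (-1)^i B (x ∘ i.succAbove)` for all `x`. Fix `Q : Fin 3 → ℍ` with `a = area (Q 0) (Q 1) (Q 2) ≠ 0`. For `ε : Fin n → Equiv.Perm (Fin 3)` let `P_ε j = Q ∘ ε j`. `area (Q (π 0)) (Q (π 1)) (Q (π 2)) = sign π * a` (`area_or3` and `or3 (π 0) (π 1) (π 2) = sign π`, `decide`-like check of six permutations: `fin_cases π`/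
  `Equiv.Perm (Fin 3)`; or use that `area` is alternating and `Equiv.Perm.swap_induction_on`; or `simp [or3]` after enumerating). By `zp_vol`, `zp_formula`: `∏_j (sign (ε j) * a) = ∑_j ∑_i (-1)^i eev B P_ε j (Q (ε j (i.succAbove 0))) (Q (ε j (i.succAbove 1)))`. Multiply by `∏_j sign (ε j)` and sum over all `ε`: the left side is `(3!)^n a^n ≠ 0`.
  The right side: for fixed `j`, `i` the map `ε ↦ Function.update ε j (ε j * swap (i.succAbove 0) (i.succAbove 1))` is an involution without fixed points that changes the sign `∏_j sign (ε j)` and keeps `eev` (`eev_swap`, `eev_congr`): the sum is `0` (`Finset.sum_involution`, or: reindex by the involution, `S = -S`).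
-/

set_option autoImplicit false

open scoped BigOperators UpperHalfPlane MatrixGroups

namespace SimplVol

theorem zq_area : ∃ Q : Fin 3 → ℍ, area (Q 0) (Q 1) (Q 2) ≠ 0 := by
  refine ⟨![⟨Complex.I, by simp⟩, ⟨1 + Complex.I, by simp⟩, ⟨2 * Complex.I, by simp⟩], ?_⟩
  have e0 : sarg (⟨Complex.I, by simp⟩ : ℍ) ⟨1 + Complex.I, by simp⟩ = Real.arctan (1 / 2) := by
    rw [sarg_eq_arctan]
    congr 1
    simp [UpperHalfPlane.re, UpperHalfPlane.im]
    norm_num
  have e1 : sarg (⟨1 + Complex.I, by simp⟩ : ℍ) ⟨2 * Complex.I, by simp⟩ =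
      Real.arctan (-(1 / 3)) := by
    rw [sarg_eq_arctan]
    congr 1
    simp [UpperHalfPlane.re, UpperHalfPlane.im]
    norm_num
  have e2 : sarg (⟨2 * Complex.I, by simp⟩ : ℍ) ⟨Complex.I, by simp⟩ = 0 := by
    rw [sarg_eq_arctan]
    simp [UpperHalfPlane.re, UpperHalfPlane.im]
  show area (⟨Complex.I, by simp⟩ : ℍ) ⟨1 + Complex.I, by simp⟩ ⟨2 * Complex.I, by simp⟩ ≠ 0
  unfold area
  rw [e0, e1, e2, Real.arctan_neg, add_zero]
  have h : Real.arctan (1 / 3) < Real.arctan (1 / 2) := Real.arctan_strictMono (by norm_num)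
  intro h2
  linarith

/-- the integer version of `or3` -/
private def zq_or (a b c : Fin 3) : ℤ :=
  ((if b = 1 then 1 else 0) - (if a = 1 then 1 else 0)) *
      ((if c = 2 then 1 else 0) - (if a = 2 then 1 else 0)) -
    ((if b = 2 then 1 else 0) - (if a = 2 then 1 else 0)) *
      ((if c = 1 then 1 else 0) - (if a = 1 then 1 else 0))

private theorem zq_or_cast (a b c : Fin 3) : or3 a b c = (zq_or a b c : ℝ) := by
  unfold or3 zq_or
  push_cast
  rfl

private theorem zq_or_sign : ∀ π : Equiv.Perm (Fin 3),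
    zq_or (π 0) (π 1) (π 2) = ((Equiv.Perm.sign π : ℤˣ) : ℤ) := by
  decide

private theorem zq_area_perm (Q : Fin 3 → ℍ) (π : Equiv.Perm (Fin 3)) :
    area (Q (π 0)) (Q (π 1)) (Q (π 2)) =
      (((Equiv.Perm.sign π : ℤˣ) : ℤ) : ℝ) * area (Q 0) (Q 1) (Q 2) := by
  rw [area_or3, zq_or_cast, zq_or_sign]

theorem eev_congr {n : ℕ} (B : (Fin (n * 2) → Fin n → ℍ) → ℝ) (P P' : Fin n → Fin 3 → ℍ)
    (j : Fin n) (u v : ℍ) (h : ∀ i, i ≠ j → P i = P' i) : eev B P j u v = eev B P' j u v := by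
  have h1 : ∀ y : Fin (n * 2) → Fin (n * 2) → Bool, ept P j u v y = ept P' j u v y := by
    intro y
    funext k i
    unfold ept
    split_ifs with hi h2
    · rfl
    · rfl
    · rw [h i hi]
  unfold eev
  simp only [h1]

theorem eev_swap {n : ℕ} (B : (Fin (n * 2) → Fin n → ℍ) → ℝ) (hB : InvN B)
    (P : Fin n → Fin 3 → ℍ) (j : Fin n) (u v : ℍ) : eev B P j v u = eev B P j u v := by
  obtain ⟨g, h1, h2⟩ := swap_smul u v
  have h3 : ∀ y : Fin (n * 2) → Fin (n * 2) → Bool,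
      B (ept P j v u y) = B (ept P j u v y) := by
    intro y
    rw [← hB (fun i => if i = j then g else 1) (ept P j u v y)]
    congr 1
    funext k i
    unfold ept
    by_cases hi : i = j
    · simp only [if_pos hi]
      by_cases hy : y k (finProdFinEquiv (j, 1)) = true
      · rw [if_pos hy, if_pos hy, h2]
      · rw [if_neg hy, if_neg hy, h1]
    · simp only [if_neg hi, one_smul]
  unfold eev
  simp only [h3]

/-- the summand -/
private noncomputable def zq_f {n : ℕ} (B : (Fin (n * 2) → Fin n → ℍ) → ℝ)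
    (Q : Fin 3 → ℍ) (j : Fin n) (i : Fin 3) (ε : Fin n → Equiv.Perm (Fin 3)) : ℝ :=
  (∏ l, (((Equiv.Perm.sign (ε l) : ℤˣ) : ℤ) : ℝ)) *
    eev B (fun l m => Q (ε l m)) j (Q (ε j (i.succAbove 0))) (Q (ε j (i.succAbove 1)))

set_option maxHeartbeats 400000 in
private theorem zq_step {n : ℕ} (B : (Fin (n * 2) → Fin n → ℍ) → ℝ) (hB : InvN B)
    (Q : Fin 3 → ℍ) (j : Fin n) (i : Fin 3) (ε ε' : Fin n → Equiv.Perm (Fin 3))
    (e1 : ε' j = ε j * Equiv.swap (i.succAbove 0) (i.succAbove 1))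
    (e2 : ∀ l, l ≠ j → ε' l = ε l) : zq_f B Q j i ε' = - zq_f B Q j i ε := by
  have hne : i.succAbove (0 : Fin 2) ≠ i.succAbove 1 := by
    intro h
    have := Fin.succAbove_right_injective h
    exact absurd this (by decide)
  have e3 : ∏ l, (((Equiv.Perm.sign (ε' l) : ℤˣ) : ℤ) : ℝ) =
      - ∏ l, (((Equiv.Perm.sign (ε l) : ℤˣ) : ℤ) : ℝ) := by
    rw [← Finset.mul_prod_erase Finset.univ _ (Finset.mem_univ j),
      ← Finset.mul_prod_erase Finset.univ (fun l => (((Equiv.Perm.sign (ε l) : ℤˣ) : ℤ) : ℝ))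
        (Finset.mem_univ j), e1]
    have e4 : ∏ l ∈ Finset.univ.erase j, (((Equiv.Perm.sign (ε' l) : ℤˣ) : ℤ) : ℝ) =
        ∏ l ∈ Finset.univ.erase j, (((Equiv.Perm.sign (ε l) : ℤˣ) : ℤ) : ℝ) := by
      refine Finset.prod_congr rfl fun l hl => ?_
      rw [e2 l (Finset.ne_of_mem_erase hl)]
    rw [e4, Equiv.Perm.sign_mul, Equiv.Perm.sign_swap hne]
    push_cast
    ring
  have e5 : ε' j (i.succAbove 0) = ε j (i.succAbove 1) := by
    rw [e1, Equiv.Perm.mul_apply, Equiv.swap_apply_left]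
  have e6 : ε' j (i.succAbove 1) = ε j (i.succAbove 0) := by
    rw [e1, Equiv.Perm.mul_apply, Equiv.swap_apply_right]
  have e7 : eev B (fun l m => Q (ε' l m)) j (Q (ε j (i.succAbove 1))) (Q (ε j (i.succAbove 0))) =
      eev B (fun l m => Q (ε l m)) j (Q (ε j (i.succAbove 0))) (Q (ε j (i.succAbove 1))) := by
    rw [eev_swap B hB]
    refine eev_congr B _ _ j _ _ fun l hl => ?_
    funext m
    show Q (ε' l m) = Q (ε l m)
    rw [e2 l hl]
  unfold zq_f
  rw [e3, e5, e6, e7]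
  ring

set_option maxHeartbeats 400000 in
private theorem zq_zero {n : ℕ} (B : (Fin (n * 2) → Fin n → ℍ) → ℝ) (hB : InvN B)
    (Q : Fin 3 → ℍ) (j : Fin n) (i : Fin 3) :
    ∑ ε : Fin n → Equiv.Perm (Fin 3), zq_f B Q j i ε = 0 := by
  have h2 : ∑ ε, zq_f B Q j i (Equiv.mulRight
      (Pi.mulSingle j (Equiv.swap (i.succAbove 0) (i.succAbove 1)) :
        Fin n → Equiv.Perm (Fin 3)) ε) = ∑ ε, zq_f B Q j i ε :=
    Equiv.sum_comp (Equiv.mulRight
      (Pi.mulSingle j (Equiv.swap (i.succAbove 0) (i.succAbove 1)) :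
        Fin n → Equiv.Perm (Fin 3))) (zq_f B Q j i)
  have h1 : ∀ ε : Fin n → Equiv.Perm (Fin 3), zq_f B Q j i (Equiv.mulRight
      (Pi.mulSingle j (Equiv.swap (i.succAbove 0) (i.succAbove 1)) :
        Fin n → Equiv.Perm (Fin 3)) ε) = - zq_f B Q j i ε := by
    intro ε
    apply zq_step B hB Q j i
    · show ε j * Pi.mulSingle (M := fun _ => Equiv.Perm (Fin 3)) j
        (Equiv.swap (i.succAbove 0) (i.succAbove 1)) j = _
      rw [Pi.mulSingle_eq_same]
    · intro l hl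
      show ε l * Pi.mulSingle (M := fun _ => Equiv.Perm (Fin 3)) j
        (Equiv.swap (i.succAbove 0) (i.succAbove 1)) l = _
      rw [Pi.mulSingle_eq_of_ne hl, mul_one]
  rw [Finset.sum_congr rfl fun ε _ => h1 ε, Finset.sum_neg_distrib] at h2
  linarith

set_option maxHeartbeats 400000 in
theorem vol_not_exact {n : ℕ} (hn : 1 ≤ n) (B : (Fin (n * 2) → Fin n → ℍ) → ℝ) (hB : InvN B)
    (h : ∀ x : Fin (n * 2 + 1) → Fin n → ℍ, vol n x =
      ∑ i : Fin (n * 2 + 1), (-1 : ℝ) ^ (i : ℕ) * B fun l => x (i.succAbove l)) : False := by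
  obtain ⟨Q, hQ⟩ := zq_area
  have key : ∀ P : Fin n → Fin 3 → ℍ, ∏ j, area (P j 0) (P j 1) (P j 2) =
      ∑ j, ∑ i : Fin 3, (-1 : ℝ) ^ (i : ℕ) *
        eev B P j (P j (i.succAbove 0)) (P j (i.succAbove 1)) := by
    intro P
    rw [← zp_vol P, ← zp_formula hn B P]
    refine Finset.sum_congr rfl fun y _ => ?_
    rw [h]
  have h1 : ∑ ε : Fin n → Equiv.Perm (Fin 3), (∏ l, (((Equiv.Perm.sign (ε l) : ℤˣ) : ℤ) : ℝ)) *
      ∏ j, area (Q (ε j 0)) (Q (ε j 1)) (Q (ε j 2)) = 0 := by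
    have e1 : ∀ ε : Fin n → Equiv.Perm (Fin 3),
        (∏ l, (((Equiv.Perm.sign (ε l) : ℤˣ) : ℤ) : ℝ)) *
          ∏ j, area (Q (ε j 0)) (Q (ε j 1)) (Q (ε j 2)) =
        ∑ j, ∑ i : Fin 3, (-1 : ℝ) ^ (i : ℕ) * zq_f B Q j i ε := by
      intro ε
      rw [key fun l m => Q (ε l m), Finset.mul_sum]
      refine Finset.sum_congr rfl fun j _ => ?_
      rw [Finset.mul_sum]
      refine Finset.sum_congr rfl fun i _ => ?_
      unfold zq_f
      ring
    rw [Finset.sum_congr rfl fun ε _ => e1 ε, Finset.sum_comm]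
    refine Finset.sum_eq_zero fun j _ => ?_
    rw [Finset.sum_comm]
    refine Finset.sum_eq_zero fun i _ => ?_
    rw [← Finset.mul_sum, zq_zero B hB Q j i, mul_zero]
  have h2 : ∀ ε : Fin n → Equiv.Perm (Fin 3), (∏ l, (((Equiv.Perm.sign (ε l) : ℤˣ) : ℤ) : ℝ)) *
      ∏ j, area (Q (ε j 0)) (Q (ε j 1)) (Q (ε j 2)) = area (Q 0) (Q 1) (Q 2) ^ n := by
    intro ε
    rw [← Finset.prod_mul_distrib]
    have e2 : ∀ j : Fin n, (((Equiv.Perm.sign (ε j) : ℤˣ) : ℤ) : ℝ) *
        area (Q (ε j 0)) (Q (ε j 1)) (Q (ε j 2)) = area (Q 0) (Q 1) (Q 2) := by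
      intro j
      rw [zq_area_perm, ← mul_assoc]
      rcases Int.units_eq_one_or (Equiv.Perm.sign (ε j)) with h3 | h3 <;> rw [h3] <;> simp
    rw [Finset.prod_congr rfl fun j _ => e2 j, Finset.prod_const, Finset.card_univ,
      Fintype.card_fin]
  rw [Finset.sum_congr rfl fun ε _ => h2 ε, Finset.sum_const, Finset.card_univ,
    nsmul_eq_mul] at h1
  have h3 : (Fintype.card (Fin n → Equiv.Perm (Fin 3)) : ℝ) ≠ 0 := by
    exact_mod_cast Fintype.card_ne_zero
  exact mul_ne_zero h3 (pow_ne_zero n hQ) h1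

end SimplVol

end S_ZQ

section S_KB

/-!
# Module KB: Hahn-Banach

* `norm1` is a seminorm: `norm1_add`, `norm1_smul` (`Finsupp.sum` over the union of the supports; the private lemmas of `Pool/Agent/H74/SV/NM.lean` show how), `norm1 w ≥ 0`, `norm1 (single σ a) = |a|`.
* `volPair Γ` is linear: `volL Γ := Finsupp.linearCombination ℝ (fun σ => vol n (fun i j => liftVert ..))`, `volPair Γ w = volL Γ w` (`Finsupp.linearCombination_apply`).
* `exists_dual`: `exists_extension_of_le_sublinear` for the subspace `ker (boundary)`, `f = C • volL` restricted, `N = norm1` gives `g` linear with `g = C volPair` on cycles and `g w ≤ norm1 w` for all `w`; apply it to `-w`: `|g w| ≤ norm1 w`. The functional `g - C volL` vanishes on `ker (boundary)`, so it is `B ∘ boundary` for a linear `B`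
  (`LinearMap.range_dualMap_eq_dualAnnihilator_ker`, `LinearMap.dualMap_apply'`; or `LinearMap.exists_extend` of the induced map on the range: `LinearMap.quotKerEquivRange`, `Submodule.liftQ`).
-/

set_option autoImplicit false

open scoped BigOperators UpperHalfPlane MatrixGroups

namespace SimplVol

private theorem KB_eq {p : ℕ} {X : Type} [TopologicalSpace X] (c : Chain p X)
    (S : Finset (Sing p X)) (hS : c.support ⊆ S) : norm1 c = ∑ σ ∈ S, |c σ| := by
  unfold norm1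
  exact Finsupp.sum_of_support_subset c hS _ (fun _ _ => abs_zero)

private theorem KB_add {p : ℕ} {X : Type} [TopologicalSpace X] (c c' : Chain p X) :
    norm1 (c + c') ≤ norm1 c + norm1 c' := by
  classical
  rw [KB_eq c (c.support ∪ c'.support) Finset.subset_union_left,
    KB_eq c' (c.support ∪ c'.support) Finset.subset_union_right,
    KB_eq (c + c') (c.support ∪ c'.support) Finsupp.support_add, ← Finset.sum_add_distrib]
  refine Finset.sum_le_sum fun σ _ => ?_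
  rw [Finsupp.add_apply]
  exact abs_add_le _ _

theorem norm1_single' {p : ℕ} {Y : Type} [TopologicalSpace Y] (σ : Sing p Y) (a : ℝ) :
    norm1 (Finsupp.single σ a) = |a| := by
  unfold norm1
  exact Finsupp.sum_single_index abs_zero

theorem norm1_smul' {p : ℕ} {Y : Type} [TopologicalSpace Y] (a : ℝ) (w : Chain p Y) :
    norm1 (a • w) = |a| * norm1 w := by
  rw [KB_eq (a • w) w.support Finsupp.support_smul, KB_eq w w.support subset_rfl, Finset.mul_sum]
  refine Finset.sum_congr rfl fun σ _ => ?_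
  rw [Finsupp.smul_apply, smul_eq_mul, abs_mul]

/-- `volPair` as a linear map. -/
private noncomputable def KB_volL {n : ℕ} (Γ : Fin n → Subgroup SL(2, ℝ)) :
    Chain (n * 2 + 1) (∀ j, Surf (Γ j)) →ₗ[ℝ] ℝ :=
  Finsupp.linearCombination ℝ fun σ => vol n fun i j => liftVert (Γ j) ((proj Γ j).comp σ) i

private theorem KB_volL_eq {n : ℕ} (Γ : Fin n → Subgroup SL(2, ℝ))
    (w : Chain (n * 2 + 1) (∀ j, Surf (Γ j))) : KB_volL Γ w = volPair Γ w := by
  unfold KB_volL volPair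
  rw [Finsupp.linearCombination_apply]
  simp only [smul_eq_mul]

theorem volPair_smul' {n : ℕ} (Γ : Fin n → Subgroup SL(2, ℝ)) (a : ℝ)
    (w : Chain (n * 2 + 1) (∀ j, Surf (Γ j))) : volPair Γ (a • w) = a * volPair Γ w := by
  rw [← KB_volL_eq, ← KB_volL_eq, map_smul, smul_eq_mul]

theorem exists_dual {n : ℕ} (Γ : Fin n → Subgroup SL(2, ℝ)) (C : ℝ)
    (hC : ∀ w : Chain (n * 2 + 1) (∀ j, Surf (Γ j)), boundary (n * 2) _ w = 0 →
      C * volPair Γ w ≤ norm1 w) :
    ∃ (g : Chain (n * 2 + 1) (∀ j, Surf (Γ j)) →ₗ[ℝ] ℝ)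
      (B : Chain (n * 2) (∀ j, Surf (Γ j)) →ₗ[ℝ] ℝ),
      (∀ w, |g w| ≤ norm1 w) ∧ ∀ w, g w = C * volPair Γ w + B (boundary (n * 2) _ w) := by
  obtain ⟨g, hg1, hg2⟩ := exists_extension_of_le_sublinear
    (⟨LinearMap.ker (boundary (n * 2) (∀ j, Surf (Γ j))),
      (C • KB_volL Γ).domRestrict (LinearMap.ker (boundary (n * 2) (∀ j, Surf (Γ j))))⟩ :
        Chain (n * 2 + 1) (∀ j, Surf (Γ j)) →ₗ.[ℝ] ℝ) norm1
    (fun c hc x => by rw [norm1_smul', abs_of_pos hc]) (fun x y => KB_add x y)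
    (fun x => by
      change (C • KB_volL Γ) (x : Chain (n * 2 + 1) (∀ j, Surf (Γ j))) ≤ norm1 _
      rw [LinearMap.smul_apply, smul_eq_mul, KB_volL_eq]
      exact hC _ (LinearMap.mem_ker.1 x.2))
  have hmem : g - C • KB_volL Γ ∈
      (LinearMap.ker (boundary (n * 2) (∀ j, Surf (Γ j)))).dualAnnihilator := by
    rw [Submodule.mem_dualAnnihilator]
    intro w hw
    rw [LinearMap.sub_apply, sub_eq_zero]
    exact hg1 ⟨w, hw⟩
  rw [← LinearMap.range_dualMap_eq_dualAnnihilator_ker] at hmem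
  obtain ⟨B, hB⟩ := hmem
  refine ⟨g, B, fun w => ?_, fun w => ?_⟩
  · rw [abs_le]
    refine ⟨?_, hg2 w⟩
    have h1 := hg2 (-w)
    have h2 : norm1 (-w) = norm1 w := by
      have h3 := norm1_smul' (-1) w
      rwa [neg_one_smul, abs_neg, abs_one, one_mul] at h3
    rw [map_neg, h2] at h1
    linarith
  · have h1 := congrArg (fun f => f w) hB
    simp only [LinearMap.dualMap_apply, LinearMap.sub_apply, LinearMap.smul_apply, smul_eq_mul,
      KB_volL_eq] at h1
    linarith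

end SimplVol

end S_KB

section S_SS

/-!
# Module SS: straight simplices in the upper half plane

For `x : Fin p → ℍ` and `t` in the simplex put `W = ∑ t_i / y_i`, `Q = ∑ t_i x_i / y_i`, `P = ∑ t_i (x_i² + y_i²) / y_i` (`x_i = (x i).re`, `y_i = (x i).im`). `W > 0` (if `p ≥ 1`), and `P W - Q² ≥ 1 > 0`: `∑_i ∑_j t_i t_j (x_i - x_j)²/(2 y_i y_j) + (∑ t_i y_i)(∑ t_i / y_i) `, and `(∑ t_i y_i)(∑ t_i/y_i) ≥ (∑ t_i)² = 1`
(Cauchy-Schwarz: `Finset.sum_sq_le_sum_mul_sum_of_sq_eq_mul` or `inner_mul_le_norm_mul_norm`, `Finset.sum_mul_sq_le_sq_mul_sq`). The straight point is `w = (Q + i √(P W - Q²)) / W`; it is the unique `w : ℍ` with `(∗) W w² - 2 Q w + P = 0`, that is `∑ t_i (w - z_i)(w - conj z_i)/y_i = 0`.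
* `st1`: the explicit formula gives a continuous map to `ℍ` (`Continuous.subtype_mk`-like: `UpperHalfPlane.mk`; the topology of `ℍ` is induced by the coercion to `ℂ`: `UpperHalfPlane.isEmbedding_coe.continuous_iff`). (For `p = 0` the simplex is empty.)
* `st1_iff`: for `w : ℍ`: `w = st1 x t ↔ (∗)`: a real quadratic polynomial with `W > 0` and negative discriminant has exactly one root in the upper half plane: from `(∗)`: `(W w - Q)² = Q² - P W`, imaginary part: `2 (W re w - Q) W im w = 0` so `re w = Q/W`, real part: `(W im w)² = P W - Q²`.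
* `st1_smul`: let `g = (a b; c d)`, `z' = g • z = (a z + b)/(c z + d)`, `im z' = im z/|c z + d|²`; for `w : ℍ`, `w' = g • w`: `(w' - z')(w' - conj z')/im z' = (w - z)(w - conj z) /(im z * (c w + d)²)` (`w' - z' = (w - z)/((c w + d)(c z + d))`). So `(∗)` for `w`, `x` is `(∗)` for `g • w`, `g • x`.
* `st1_vertex`: at the vertex `i` the equation is `(w - z_i)(w - conj z_i) / y_i = 0`, satisfied by `w = z_i`. `st1_face`: `(∗)` for `faceMap p i t`: `faceMap` is `stdSimplex.map (Fin.succAbove i)`, whose coordinates are `(map s) j = ∑_{l : succAbove i l = j} s_l` (`stdSimplex.map_coe`/ `FunOnFinite.linearMap_apply_apply`..., see how `Pool/Agent/H74/SV/AF.lean` computes with `faceMap`),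
  so `∑_j (faceMap t)_j f j = ∑_l t_l f (i.succAbove l)`.
-/

set_option autoImplicit false

open scoped BigOperators UpperHalfPlane MatrixGroups

namespace SimplVol

private noncomputable def ssW {p : ℕ} (x : Fin p → ℍ) (t : Fin p → ℝ) : ℝ := ∑ i, t i / (x i).im

private noncomputable def ssQ {p : ℕ} (x : Fin p → ℍ) (t : Fin p → ℝ) : ℝ :=
  ∑ i, t i / (x i).im * (x i).re

private noncomputable def ssP {p : ℕ} (x : Fin p → ℍ) (t : Fin p → ℝ) : ℝ :=
  ∑ i, t i / (x i).im * ((x i).re ^ 2 + (x i).im ^ 2)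

private theorem ss_exists_pos {p : ℕ} (t : stdSimplex ℝ (Fin p)) : ∃ i, 0 < t i := by
  by_contra h
  push Not at h
  have h1 : ∑ i, t i = 1 := stdSimplex.sum_eq_one t
  have h2 : ∑ i, t i ≤ 0 := Finset.sum_nonpos fun i _ => h i
  linarith

private theorem ssW_pos {p : ℕ} (x : Fin p → ℍ) (t : stdSimplex ℝ (Fin p)) :
    0 < ssW x (fun i => t i) := by
  obtain ⟨i, hi⟩ := ss_exists_pos t
  refine Finset.sum_pos' (fun j _ => div_nonneg (stdSimplex.zero_le t j) (x j).im_pos.le)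
    ⟨i, Finset.mem_univ i, div_pos hi (x i).im_pos⟩

private theorem ss_quad {p : ℕ} (x : Fin p → ℍ) (t : Fin p → ℝ) (s : ℝ) :
    ssW x t * s ^ 2 - 2 * ssQ x t * s + ssP x t =
      ∑ i, t i / (x i).im * ((s - (x i).re) ^ 2 + (x i).im ^ 2) := by
  unfold ssW ssQ ssP
  rw [Finset.sum_mul, Finset.mul_sum, Finset.sum_mul, ← Finset.sum_sub_distrib,
    ← Finset.sum_add_distrib]
  refine Finset.sum_congr rfl fun i _ => ?_
  ring

private theorem ss_quadC {p : ℕ} (x : Fin p → ℍ) (t : Fin p → ℝ) (w : ℂ) :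
    (ssW x t : ℂ) * w ^ 2 - 2 * (ssQ x t : ℂ) * w + (ssP x t : ℂ) =
      ∑ i, (t i : ℂ) / ((x i).im : ℂ) * ((w - (x i : ℂ)) * (w - (starRingEnd ℂ) (x i : ℂ))) := by
  unfold ssW ssQ ssP
  push_cast
  rw [Finset.sum_mul, Finset.mul_sum, Finset.sum_mul, ← Finset.sum_sub_distrib,
    ← Finset.sum_add_distrib]
  refine Finset.sum_congr rfl fun i _ => ?_
  have h1 : (x i : ℂ) + (starRingEnd ℂ) (x i : ℂ) = 2 * ((x i).re : ℂ) := by
    rw [Complex.add_conj]
    push_cast
    rfl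
  have h2 : (x i : ℂ) * (starRingEnd ℂ) (x i : ℂ) = ((x i).re : ℂ) ^ 2 + ((x i).im : ℂ) ^ 2 := by
    rw [Complex.mul_conj, Complex.normSq_apply]
    push_cast
    show (((x i : ℂ).re : ℂ)) * _ + _ = (((x i : ℂ).re : ℂ)) ^ 2 + (((x i : ℂ).im : ℂ)) ^ 2
    ring
  have h3 : (w - (x i : ℂ)) * (w - (starRingEnd ℂ) (x i : ℂ)) =
      w ^ 2 - ((x i : ℂ) + (starRingEnd ℂ) (x i : ℂ)) * w + (x i : ℂ) * (starRingEnd ℂ) (x i : ℂ) := by
    ring
  rw [h3, h1, h2]
  ring

private theorem ssD_pos {p : ℕ} (x : Fin p → ℍ) (t : stdSimplex ℝ (Fin p)) :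
    0 < ssP x (fun i => t i) * ssW x (fun i => t i) - ssQ x (fun i => t i) ^ 2 := by
  have hW := ssW_pos x t
  have h := ss_quad x (fun i => t i) (ssQ x (fun i => t i) / ssW x (fun i => t i))
  have hp : 0 < ∑ i, t i / (x i).im *
      ((ssQ x (fun i => t i) / ssW x (fun i => t i) - (x i).re) ^ 2 + (x i).im ^ 2) := by
    obtain ⟨i, hi⟩ := ss_exists_pos t
    refine Finset.sum_pos' (fun j _ => mul_nonneg
      (div_nonneg (stdSimplex.zero_le t j) (x j).im_pos.le) (by positivity))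
      ⟨i, Finset.mem_univ i, mul_pos (div_pos hi (x i).im_pos) ?_⟩
    have := (x i).im_pos
    positivity
  rw [← h] at hp
  have h2 : ssP x (fun i => t i) * ssW x (fun i => t i) - ssQ x (fun i => t i) ^ 2 =
      (ssW x (fun i => t i) * (ssQ x (fun i => t i) / ssW x (fun i => t i)) ^ 2 -
        2 * ssQ x (fun i => t i) * (ssQ x (fun i => t i) / ssW x (fun i => t i)) +
        ssP x (fun i => t i)) * ssW x (fun i => t i) := by
    field_simp
    ring
  rw [h2]
  exact mul_pos hp hW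

private noncomputable def ssPt {p : ℕ} (x : Fin p → ℍ) (t : stdSimplex ℝ (Fin p)) : ℍ :=
  ⟨⟨ssQ x (fun i => t i) / ssW x (fun i => t i),
    √(ssP x (fun i => t i) * ssW x (fun i => t i) - ssQ x (fun i => t i) ^ 2) /
      ssW x (fun i => t i)⟩, div_pos (Real.sqrt_pos.2 (ssD_pos x t)) (ssW_pos x t)⟩

private theorem ss_cont {p : ℕ} (x : Fin p → ℍ) : Continuous (ssPt x) := by
  rw [UpperHalfPlane.isEmbedding_coe.continuous_iff]
  have ht : ∀ i, Continuous fun t : stdSimplex ℝ (Fin p) => (t i : ℝ) := fun i =>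
    (continuous_apply i).comp continuous_subtype_val
  have hW : Continuous fun t : stdSimplex ℝ (Fin p) => ssW x (fun i => t i) := by
    unfold ssW
    exact continuous_finsetSum _ fun i _ => (ht i).div_const _
  have hQ : Continuous fun t : stdSimplex ℝ (Fin p) => ssQ x (fun i => t i) := by
    unfold ssQ
    exact continuous_finsetSum _ fun i _ => ((ht i).div_const _).mul_const _
  have hP : Continuous fun t : stdSimplex ℝ (Fin p) => ssP x (fun i => t i) := by
    unfold ssP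
    exact continuous_finsetSum _ fun i _ => ((ht i).div_const _).mul_const _
  have h1 : Continuous fun t : stdSimplex ℝ (Fin p) =>
      ssQ x (fun i => t i) / ssW x (fun i => t i) := hQ.div hW fun t => (ssW_pos x t).ne'
  have h2 : Continuous fun t : stdSimplex ℝ (Fin p) =>
      √(ssP x (fun i => t i) * ssW x (fun i => t i) - ssQ x (fun i => t i) ^ 2) /
      ssW x (fun i => t i) :=
    (((hP.mul hW).sub (hQ.pow 2)).sqrt).div hW fun t => (ssW_pos x t).ne'
  have h3 : Continuous fun t : stdSimplex ℝ (Fin p) =>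
      (((ssQ x (fun i => t i) / ssW x (fun i => t i) : ℝ) : ℂ) +
      ((√(ssP x (fun i => t i) * ssW x (fun i => t i) - ssQ x (fun i => t i) ^ 2) /
      ssW x (fun i => t i) : ℝ) : ℂ) * Complex.I) :=
    (Complex.continuous_ofReal.comp h1).add ((Complex.continuous_ofReal.comp h2).mul
      continuous_const)
  refine h3.congr fun t => ?_
  exact Complex.mk_eq_add_mul_I _ _ |>.symm

/-- The equation of the straight point. -/
private def SSeq {p : ℕ} (x : Fin p → ℍ) (t : Fin p → ℝ) (w : ℂ) : Prop :=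
  ∑ i, (t i : ℂ) / ((x i).im : ℂ) * ((w - (x i : ℂ)) * (w - (starRingEnd ℂ) (x i : ℂ))) = 0

private theorem ss_iff {p : ℕ} (x : Fin p → ℍ) (t : stdSimplex ℝ (Fin p)) (w : ℍ) :
    SSeq x (fun i => t i) w ↔ w = ssPt x t := by
  have hW := ssW_pos x t
  have hD := ssD_pos x t
  unfold SSeq
  rw [← ss_quadC]
  set W := ssW x (fun i => t i)
  set Q := ssQ x (fun i => t i)
  set P := ssP x (fun i => t i)
  have hre : ((W : ℂ) * (w : ℂ) ^ 2 - 2 * (Q : ℂ) * (w : ℂ) + (P : ℂ)).re =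
      W * (w.re ^ 2 - w.im ^ 2) - 2 * Q * w.re + P := by
    simp only [Complex.add_re, Complex.sub_re, Complex.mul_re, Complex.ofReal_re,
      Complex.ofReal_im, pow_two, UpperHalfPlane.coe_re, UpperHalfPlane.coe_im,
      Complex.re_ofNat, Complex.im_ofNat, Complex.mul_im]
    ring
  have him : ((W : ℂ) * (w : ℂ) ^ 2 - 2 * (Q : ℂ) * (w : ℂ) + (P : ℂ)).im =
      2 * (W * w.re - Q) * w.im := by
    simp only [Complex.add_im, Complex.sub_im, Complex.mul_re, Complex.ofReal_re,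
      Complex.ofReal_im, pow_two, UpperHalfPlane.coe_re, UpperHalfPlane.coe_im,
      Complex.re_ofNat, Complex.im_ofNat, Complex.mul_im]
    ring
  have hy := w.im_pos
  constructor
  · intro h
    have h1 := congrArg Complex.im h
    have h2 := congrArg Complex.re h
    rw [him, Complex.zero_im] at h1
    rw [hre, Complex.zero_re] at h2
    have h3 : W * w.re - Q = 0 := by
      rcases mul_eq_zero.1 h1 with h4 | h4
      · linarith
      · exact absurd h4 hy.ne'
    have hx : w.re = Q / W := by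
      field_simp
      linarith
    have h5 : P * W - Q ^ 2 = (W * w.im) ^ 2 := by
      have : Q = W * w.re := by linarith
      rw [this] at h2 ⊢
      nlinarith
    have h6 : √(P * W - Q ^ 2) = W * w.im := by
      rw [h5]
      exact Real.sqrt_sq (by positivity)
    apply UpperHalfPlane.ext
    apply Complex.ext
    · show w.re = Q / W
      exact hx
    · show w.im = √(P * W - Q ^ 2) / W
      rw [h6]
      field_simp
  · intro h
    have hx : w.re = Q / W := by rw [h]; rfl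
    have hyy : w.im = √(P * W - Q ^ 2) / W := by rw [h]; rfl
    apply Complex.ext
    · rw [hre, Complex.zero_re, hx, hyy, div_pow, div_pow, Real.sq_sqrt hD.le]
      field_simp
      ring
    · rw [him, Complex.zero_im, hx]
      have : W * (Q / W) - Q = 0 := by
        field_simp
        ring
      rw [this]
      ring

private theorem ss_smul {p : ℕ} (g : SL(2, ℝ)) (x : Fin p → ℍ) (t : Fin p → ℝ) (w : ℍ)
    (h : SSeq x t w) : SSeq (fun i => g • x i) t ((g • w : ℍ) : ℂ) := by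
  unfold SSeq at *
  have hdet : (g 0 0 : ℂ) * (g 1 1 : ℂ) - (g 0 1 : ℂ) * (g 1 0 : ℂ) = 1 := by
    have := g.det_coe
    rw [Matrix.det_fin_two] at this
    exact_mod_cast this
  have hden : ∀ z : ℂ, z.im ≠ 0 → (g 1 0 : ℂ) * z + (g 1 1 : ℂ) ≠ 0 := by
    intro z hz h0
    have h1 := congrArg Complex.im h0
    have h2 := congrArg Complex.re h0
    simp only [Complex.add_im, Complex.mul_im, Complex.ofReal_re, Complex.ofReal_im, zero_mul,
      add_zero, Complex.zero_im] at h1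
    simp only [Complex.add_re, Complex.mul_re, Complex.ofReal_re, Complex.ofReal_im, zero_mul,
      sub_zero, Complex.zero_re] at h2
    rcases mul_eq_zero.1 h1 with h3 | h3
    · rw [h3, zero_mul, zero_add] at h2
      have := g.det_coe
      rw [Matrix.det_fin_two] at this
      have h4 : (g 1 0 : ℝ) = 0 := h3
      have h5 : (g 1 1 : ℝ) = 0 := h2
      rw [h4, h5] at this
      norm_num at this
    · exact hz h3
  have hw : ((g • w : ℍ) : ℂ) = ((g 0 0 : ℂ) * w + (g 0 1 : ℂ)) / ((g 1 0 : ℂ) * w + (g 1 1 : ℂ)) :=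
    UpperHalfPlane.coe_specialLinearGroup_apply g w
  have hcw := hden w w.im_pos.ne'
  have key : ∀ i, (t i : ℂ) / (((g • x i : ℍ)).im : ℂ) *
      ((((g • w : ℍ) : ℂ) - ((g • x i : ℍ) : ℂ)) *
      (((g • w : ℍ) : ℂ) - (starRingEnd ℂ) ((g • x i : ℍ) : ℂ))) =
      (1 / ((g 1 0 : ℂ) * w + (g 1 1 : ℂ)) ^ 2) * ((t i : ℂ) / ((x i).im : ℂ) *
        (((w : ℂ) - (x i : ℂ)) * ((w : ℂ) - (starRingEnd ℂ) (x i : ℂ)))) := by
    intro i
    have hz : ((g • x i : ℍ) : ℂ) =
        ((g 0 0 : ℂ) * (x i : ℂ) + (g 0 1 : ℂ)) / ((g 1 0 : ℂ) * (x i : ℂ) + (g 1 1 : ℂ)) :=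
      UpperHalfPlane.coe_specialLinearGroup_apply g (x i)
    have hzb : (starRingEnd ℂ) ((g • x i : ℍ) : ℂ) =
        ((g 0 0 : ℂ) * (starRingEnd ℂ) (x i : ℂ) + (g 0 1 : ℂ)) /
        ((g 1 0 : ℂ) * (starRingEnd ℂ) (x i : ℂ) + (g 1 1 : ℂ)) := by
      rw [hz]
      simp only [map_div₀, map_add, map_mul, Complex.conj_ofReal]
    have hcz := hden (x i) (x i).im_pos.ne'
    have hczb := hden ((starRingEnd ℂ) (x i : ℂ)) (by
      rw [Complex.conj_im]
      exact neg_ne_zero.2 (x i).im_pos.ne')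
    have hy1 : ((x i).im : ℂ) = ((x i : ℂ) - (starRingEnd ℂ) (x i : ℂ)) / (2 * Complex.I) := by
      rw [Complex.sub_conj]
      have : (2 * Complex.I) ≠ 0 := by simp
      field_simp
      push_cast
      rw [UpperHalfPlane.coe_im]
      ring
    have hy2 : (((g • x i : ℍ)).im : ℂ) =
        (((g • x i : ℍ) : ℂ) - (starRingEnd ℂ) ((g • x i : ℍ) : ℂ)) / (2 * Complex.I) := by
      rw [Complex.sub_conj]
      have : (2 * Complex.I) ≠ 0 := by simp
      field_simp
      push_cast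
      rw [UpperHalfPlane.coe_im]
      ring
    have hyy : (((g • x i : ℍ)).im : ℂ) = ((x i).im : ℂ) /
        (((g 1 0 : ℂ) * (x i : ℂ) + (g 1 1 : ℂ)) *
          ((g 1 0 : ℂ) * (starRingEnd ℂ) (x i : ℂ) + (g 1 1 : ℂ))) := by
      rw [hy2, hy1, hzb, hz]
      have : (2 * Complex.I) ≠ 0 := by simp
      rw [div_div, div_sub_div _ _ hcz hczb, div_div, div_eq_div_iff
        (mul_ne_zero (mul_ne_zero hcz hczb) this) (mul_ne_zero this (mul_ne_zero hcz hczb))]
      linear_combination (((x i : ℂ) - (starRingEnd ℂ) (x i : ℂ)) * (2 * Complex.I) *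
        (((g 1 0 : ℂ) * (x i : ℂ) + (g 1 1 : ℂ)) *
          ((g 1 0 : ℂ) * (starRingEnd ℂ) (x i : ℂ) + (g 1 1 : ℂ)))) * hdet
    have hyne : ((x i).im : ℂ) ≠ 0 := by exact_mod_cast (x i).im_pos.ne'
    have e1 : ((g • w : ℍ) : ℂ) - ((g • x i : ℍ) : ℂ) = ((w : ℂ) - (x i : ℂ)) /
        (((g 1 0 : ℂ) * w + (g 1 1 : ℂ)) * ((g 1 0 : ℂ) * (x i : ℂ) + (g 1 1 : ℂ))) := by
      rw [hw, hz, div_sub_div _ _ hcw hcz, div_eq_div_iff (mul_ne_zero hcw hcz)
        (mul_ne_zero hcw hcz)]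
      linear_combination (((w : ℂ) - (x i : ℂ)) *
        (((g 1 0 : ℂ) * w + (g 1 1 : ℂ)) * ((g 1 0 : ℂ) * (x i : ℂ) + (g 1 1 : ℂ)))) * hdet
    have e2 : ((g • w : ℍ) : ℂ) - (starRingEnd ℂ) ((g • x i : ℍ) : ℂ) =
        ((w : ℂ) - (starRingEnd ℂ) (x i : ℂ)) /
        (((g 1 0 : ℂ) * w + (g 1 1 : ℂ)) *
          ((g 1 0 : ℂ) * (starRingEnd ℂ) (x i : ℂ) + (g 1 1 : ℂ))) := by
      rw [hw, hzb, div_sub_div _ _ hcw hczb, div_eq_div_iff (mul_ne_zero hcw hczb)
        (mul_ne_zero hcw hczb)]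
      linear_combination (((w : ℂ) - (starRingEnd ℂ) (x i : ℂ)) *
        (((g 1 0 : ℂ) * w + (g 1 1 : ℂ)) *
          ((g 1 0 : ℂ) * (starRingEnd ℂ) (x i : ℂ) + (g 1 1 : ℂ)))) * hdet
    rw [e1, e2, hyy]
    generalize (x i : ℂ) = z at *
    generalize (starRingEnd ℂ) z = zb at *
    generalize (g 1 0 : ℂ) * (w : ℂ) + (g 1 1 : ℂ) = A at *
    generalize (g 1 0 : ℂ) * z + (g 1 1 : ℂ) = B at *
    generalize (g 1 0 : ℂ) * zb + (g 1 1 : ℂ) = C at *
    generalize (((x i).im : ℝ) : ℂ) = y at *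
    field_simp
  calc _ = ∑ i, (1 / ((g 1 0 : ℂ) * w + (g 1 1 : ℂ)) ^ 2) * ((t i : ℂ) / ((x i).im : ℂ) *
        (((w : ℂ) - (x i : ℂ)) * ((w : ℂ) - (starRingEnd ℂ) (x i : ℂ)))) :=
        Finset.sum_congr rfl fun i _ => key i
    _ = 0 := by rw [← Finset.mul_sum, h, mul_zero]

theorem exists_straight : ∃ st : ∀ p : ℕ, (Fin p → ℍ) → Sing p ℍ,
    (∀ (p : ℕ) (x : Fin p → ℍ) (i : Fin p), st p x (stdSimplex.vertex i) = x i) ∧
    (∀ (p : ℕ) (g : SL(2, ℝ)) (x : Fin p → ℍ) (t : stdSimplex ℝ (Fin p)),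
      st p (fun i => g • x i) t = g • st p x t) ∧
    ∀ (p : ℕ) (x : Fin (p + 1) → ℍ) (i : Fin (p + 1)),
      (st (p + 1) x).comp (faceMap p i) = st p fun l => x (i.succAbove l) := by
  refine ⟨fun p x => ⟨ssPt x, ss_cont x⟩, ?_, ?_, ?_⟩
  · intro p x i
    refine ((ss_iff x _ (x i)).1 ?_).symm
    unfold SSeq
    rw [Finset.sum_eq_single i]
    · rw [sub_self, zero_mul, mul_zero]
    · intro k _ hk
      rw [stdSimplex.vertex_coe]
      beta_reduce
      rw [Pi.single_eq_of_ne hk]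
      simp
    · intro h
      exact absurd (Finset.mem_univ i) h
  · intro p g x t
    exact ((ss_iff (fun i => g • x i) t (g • ssPt x t)).1
      (ss_smul g x _ _ ((ss_iff x t _).2 rfl))).symm
  · intro p x i
    apply ContinuousMap.ext
    intro t
    refine (ss_iff (fun l => x (i.succAbove l)) t _).1 ?_
    have h := (ss_iff x (faceMap p i t) (ssPt x (faceMap p i t))).2 rfl
    unfold SSeq at *
    rw [Fin.sum_univ_succAbove _ i] at h
    beta_reduce at h
    rw [faceMap_self] at h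
    simp only [faceMap_succAbove, Complex.ofReal_zero, zero_div, zero_mul, zero_add] at h
    exact h

end SimplVol

end S_SS

section S_SQ

/-!
# Module SQ: the invariant cochains of a functional

With `st` from `exists_straight`: `stq Γ x : Sing p (∀ j, Surf (Γ j))` is `t ↦ fun j => Quotient.mk _ (st p (fun i => x i j) t)` (continuous: `continuous_pi`, `continuous_quotient_mk'`).
* `stq Γ (fun i j => γ j • x i j) = stq Γ x` for `γ j ∈ Γ j` (`Quotient.sound`, orbit relation). `(stq Γ x).comp (faceMap p i) = stq Γ (fun l => x (i.succAbove l))`.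
* the `j`-th component of `stq Γ x` has the lift `st p (fun i => x i j)`, so by `liftVert_spec` there is `γ j ∈ Γ j` with `liftVert (Γ j) ((proj Γ j).comp (stq Γ x)) i = γ j • x i j`; `vol` is invariant (`area_smul`), so `volPair Γ (single (stq Γ x) 1) = vol n x`.
* With `g`, `B` from `exists_dual` put `f x = g (single (stq Γ x) 1)`, `β x = B (single (stq Γ x) 1)`. `|f x| ≤ norm1 (single _ 1) = 1`. `boundary (single σ 1) = ∑_i (-1)^i single (σ.comp (faceMap _ i)) 1` (`Finsupp.linearCombination_single`), so `f x = C vol n x + ∑_i (-1)^i β (x ∘ i.succAbove)`.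
-/

set_option autoImplicit false

open scoped BigOperators UpperHalfPlane MatrixGroups

namespace SimplVol

theorem vol_smul' {n : ℕ} (g : Fin n → SL(2, ℝ)) (x : Fin (n * 2 + 1) → Fin n → ℍ) :
    vol n (fun i j => g j • x i j) = vol n x := by
  unfold vol
  congr 1
  refine Finset.sum_congr rfl fun σ _ => ?_
  congr 1
  exact Finset.prod_congr rfl fun j _ => area_smul _ _ _ _

/-- The straight singular simplex of the quotient. -/
private noncomputable def SQ_stq (st : ∀ p : ℕ, (Fin p → ℍ) → Sing p ℍ) {n : ℕ}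
    (Γ : Fin n → Subgroup SL(2, ℝ)) {p : ℕ} (x : Fin p → Fin n → ℍ) :
    Sing p (∀ j, Surf (Γ j)) :=
  ⟨fun t j => Quotient.mk _ (st p (fun i => x i j) t),
    continuous_pi fun j => continuous_quotient_mk'.comp (st p fun i => x i j).continuous⟩

private theorem SQ_stq_apply (st : ∀ p : ℕ, (Fin p → ℍ) → Sing p ℍ) {n : ℕ}
    (Γ : Fin n → Subgroup SL(2, ℝ)) {p : ℕ} (x : Fin p → Fin n → ℍ) (t : stdSimplex ℝ (Fin p))
    (j : Fin n) : SQ_stq st Γ x t j = Quotient.mk _ (st p (fun i => x i j) t) := rfl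

private theorem SQ_inv (st : ∀ p : ℕ, (Fin p → ℍ) → Sing p ℍ)
    (h2 : ∀ (p : ℕ) (g : SL(2, ℝ)) (x : Fin p → ℍ) (t : stdSimplex ℝ (Fin p)),
      st p (fun i => g • x i) t = g • st p x t) {n : ℕ}
    (Γ : Fin n → Subgroup SL(2, ℝ)) {p : ℕ} (x : Fin p → Fin n → ℍ)
    (γ : Fin n → SL(2, ℝ)) (hγ : ∀ j, γ j ∈ Γ j) :
    SQ_stq st Γ (fun i j => γ j • x i j) = SQ_stq st Γ x := by
  ext t j
  rw [SQ_stq_apply, SQ_stq_apply, h2]
  refine Quotient.sound ?_
  change (MulAction.orbitRel (Γ j) ℍ) _ _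
  rw [MulAction.orbitRel_apply]
  exact ⟨⟨γ j, hγ j⟩, rfl⟩

private theorem SQ_face (st : ∀ p : ℕ, (Fin p → ℍ) → Sing p ℍ)
    (h3 : ∀ (p : ℕ) (x : Fin (p + 1) → ℍ) (i : Fin (p + 1)),
      (st (p + 1) x).comp (faceMap p i) = st p fun l => x (i.succAbove l)) {n : ℕ}
    (Γ : Fin n → Subgroup SL(2, ℝ)) {p : ℕ} (x : Fin (p + 1) → Fin n → ℍ) (i : Fin (p + 1)) :
    (SQ_stq st Γ x).comp (faceMap p i) = SQ_stq st Γ fun l => x (i.succAbove l) := by
  ext t j
  rw [ContinuousMap.comp_apply, SQ_stq_apply, SQ_stq_apply]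
  have h := congrArg (fun f : Sing p ℍ => f t) (h3 p (fun l => x l j) i)
  simp only [ContinuousMap.comp_apply] at h
  rw [h]

private theorem SQ_vol (st : ∀ p : ℕ, (Fin p → ℍ) → Sing p ℍ)
    (h1 : ∀ (p : ℕ) (x : Fin p → ℍ) (i : Fin p), st p x (stdSimplex.vertex i) = x i) {n : ℕ}
    (Γ : Fin n → Subgroup SL(2, ℝ)) (hΓ : ∀ j, IsSurfaceGroup (Γ j))
    (x : Fin (n * 2 + 1) → Fin n → ℍ) :
    volPair Γ (Finsupp.single (SQ_stq st Γ x) 1) = vol n x := by
  unfold volPair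
  rw [Finsupp.sum_single_index (by simp), one_mul]
  have H : ∀ j, ∃ γ : Γ j, ∀ i, liftVert (Γ j) ((proj Γ j).comp (SQ_stq st Γ x)) i =
      γ • st (n * 2 + 1) (fun i => x i j) (stdSimplex.vertex i) := fun j =>
    liftVert_spec (Γ j) (hΓ j) _ (st (n * 2 + 1) fun i => x i j) fun t => rfl
  choose γ hγ using H
  have e : (fun i j => liftVert (Γ j) ((proj Γ j).comp (SQ_stq st Γ x)) i) =
      fun i j => ((γ j : SL(2, ℝ))) • x i j := by
    funext i j
    rw [hγ j i, h1]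
    rfl
  rw [e, vol_smul']

theorem exists_cochain {n : ℕ} (Γ : Fin n → Subgroup SL(2, ℝ)) (hΓ : ∀ j, IsSurfaceGroup (Γ j))
    (C : ℝ) (hC : ∀ w : Chain (n * 2 + 1) (∀ j, Surf (Γ j)), boundary (n * 2) _ w = 0 →
      C * volPair Γ w ≤ norm1 w) :
    ∃ (f : (Fin (n * 2 + 1) → Fin n → ℍ) → ℝ) (β : (Fin (n * 2) → Fin n → ℍ) → ℝ),
      (∀ x, |f x| ≤ 1) ∧
      (∀ γ : Fin n → SL(2, ℝ), (∀ j, γ j ∈ Γ j) → ∀ x, f (fun i j => γ j • x i j) = f x) ∧
      (∀ γ : Fin n → SL(2, ℝ), (∀ j, γ j ∈ Γ j) → ∀ x, β (fun i j => γ j • x i j) = β x) ∧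
      ∀ x, f x = C * vol n x +
        ∑ i : Fin (n * 2 + 1), (-1 : ℝ) ^ (i : ℕ) * β fun l => x (i.succAbove l) := by
  obtain ⟨st, h1, h2, h3⟩ := exists_straight
  obtain ⟨g, B, hg, hB⟩ := exists_dual Γ C hC
  refine ⟨fun x => g (Finsupp.single (SQ_stq st Γ x) 1),
    fun x => B (Finsupp.single (SQ_stq st Γ x) 1), fun x => ?_, fun γ hγ x => ?_,
    fun γ hγ x => ?_, fun x => ?_⟩
  · refine (hg _).trans ?_
    rw [norm1_single', abs_one]
  · change g (Finsupp.single (SQ_stq st Γ fun i j => γ j • x i j) 1) = _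
    rw [SQ_inv st h2 Γ x γ hγ]
  · change B (Finsupp.single (SQ_stq st Γ fun i j => γ j • x i j) 1) = _
    rw [SQ_inv st h2 Γ x γ hγ]
  · change g (Finsupp.single (SQ_stq st Γ x) 1) = _
    rw [hB, SQ_vol st h1 Γ hΓ]
    congr 1
    rw [boundary, Finsupp.linearCombination_single, one_smul, map_sum]
    refine Finset.sum_congr rfl fun i _ => ?_
    rw [map_smul, smul_eq_mul, SQ_face st h3]

end SimplVol

end S_SQ
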