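import Pool.Agent.H54.RM.A2
import Pool.Agent.H54.RM.B1
import Pool.Agent.H54.RM.C2
import Pool.Agent.H54.RM.C3
import Pool.Agent.H74.SV.AR
import Pool.Agent.H74.SV.Defs

/-! Simplicial volume and ranked planar trees, part D1: this file joins several modules to save build time. -/

section S_KP

/-!
# Module KP: the averages over the roundings

`Rd Γ R ρ`. For `φ : (Fin m → ℍ) → ℝ` and `x : Fin m → ℍ` put `kap φ = Ev R (fun a => φ (fun i => ρ (a • x i)))`.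
* `kp_meas`: `A ↦ φ (fun i => ρ (sl A • x i))` restricted to `R`: the values of `A ↦ (ρ (sl A • x i))_i` on `R` lie in a finite set `V ⊆ (Fin m → ℍ)` (`Rd.fin` for every `i`: `Set.Finite.pi`), and for each `v ∈ V` the set of the `A` with this value is measurable (`Rd.meas`, finite intersection). So the function equals on `R` the simple function
  `∑_{v ∈ V} φ v • indicator`, hence it is integrable on `R` (`kp_int`) (finite measure, finite sum of indicators: `IntegrableOn.congr_fun`, `integrable_finsetSum`, `IntegrableOn.indicator`). Everywhere measurability (`kp_meas'`): `A ↦ ρ (sl A • x i)` has a countable range `{γ • w}`? Not needed if `Ev_inv` is applied to the function in the next item.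
* `Ev_inv` needs `Measurable fun A => Φ (sl A)`. Here `Φ a = φ (fun i => ρ (a • x i))`. The set of all values of `ρ` on `{sl A • z | A}` is countable: as `Γ` is countable and `XX ⊆ ⋃_γ (lm γ)⁻¹' R`, `ρ (sl A • z) ∈ ⋃_γ γ⁻¹ • (finite set)` for `A ∈ XX`; if `A ∉ XX`, then either `0 < dt` (scaling `A` by a factor does not change `sl A`, so `sl A = sl A'` with `A' ∈ XX`: `A' = A/√(dt A)`)
  or `sl A = 1`. So `A ↦ ρ (sl A • z)` takes countably many values, each on a measurable set (`Rd.meas`), so every function of the tuple `(ρ (sl A • x i))_i` is measurable (`measurable_to_countable'`-like; preimage of any set is a countable union of measurable sets).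
* `exists_kap`: linear by `Ev_add`, `Ev_smul`, `kp_int`. `bdd`: `Ev_bdd`. `nat`: by `rfl`. `inv`: `Ev_inv`: `Φ (γ * a) = Φ a` for `γ ∈ Γ` by `Rd.equiv`, `mul_smul` and the invariance of `φ`; `Φ (a * g) = φ (fun i => ρ (a • g • x i))`.
-/

set_option autoImplicit false

open scoped BigOperators UpperHalfPlane MatrixGroups
open MeasureTheory

namespace SimplVol

variable {Γ : Subgroup SL(2, ℝ)} {R : Set (Pl × Pl)} {ρ : ℍ → ℍ}

/-- The normalised matrix does not change under scaling. -/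
theorem kp_scale (A : Pl × Pl) (hA : 0 < dt A.1 A.2) : ∃ B ∈ XX, sl B = sl A := by
  obtain ⟨s, hs, hs2⟩ : ∃ s : ℝ, 0 < s ∧ s * s = dt A.1 A.2 :=
    ⟨Real.sqrt (dt A.1 A.2), Real.sqrt_pos.2 hA, Real.mul_self_sqrt hA.le⟩
  have hsq : Real.sqrt (dt A.1 A.2) = s := by
    rw [← hs2]
    exact Real.sqrt_mul_self hs.le
  have hdt : dt ((A.1.1 / s, A.1.2 / s) : Pl) ((A.2.1 / s, A.2.2 / s) : Pl) = 1 := by
    have e : dt ((A.1.1 / s, A.1.2 / s) : Pl) ((A.2.1 / s, A.2.2 / s) : Pl) =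
        dt A.1 A.2 / (s * s) := by
      unfold dt
      field_simp
    rw [e, hs2]
    exact div_self hA.ne'
  refine ⟨((A.1.1 / s, A.1.2 / s), (A.2.1 / s, A.2.2 / s)), ?_, ?_⟩
  · show 0 < dt ((A.1.1 / s, A.1.2 / s) : Pl) ((A.2.1 / s, A.2.2 / s) : Pl) ∧
      dt ((A.1.1 / s, A.1.2 / s) : Pl) ((A.2.1 / s, A.2.2 / s) : Pl) ≤ 1
    rw [hdt]
    exact ⟨one_pos, le_refl _⟩
  · apply Subtype.ext
    rw [SA_coe A hA, SA_coe _ (by
      show 0 < dt ((A.1.1 / s, A.1.2 / s) : Pl) ((A.2.1 / s, A.2.2 / s) : Pl)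
      rw [hdt]
      exact one_pos), hsq]
    simp only [hdt, Real.sqrt_one, div_one]

theorem kp_range [Countable Γ] (h : Rd Γ R ρ) (z : ℍ) :
    (Set.range fun A : Pl × Pl => ρ (sl A • z)).Countable := by
  have hsub : (Set.range fun A : Pl × Pl => ρ (sl A • z)) ⊆
      {ρ ((1 : SL(2, ℝ)) • z)} ∪
        ⋃ γ : Γ, (fun w : ℍ => ((γ⁻¹ : Γ) : SL(2, ℝ)) • w) '' {w | ∃ A ∈ R, w = ρ (sl A • z)} := by
    rintro _ ⟨A, rfl⟩
    by_cases hA : 0 < dt A.1 A.2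
    · right
      obtain ⟨B, hB, hBA⟩ := kp_scale A hA
      obtain ⟨γ, hγ, _⟩ := h.fd.dom B hB
      refine Set.mem_iUnion.2 ⟨γ, ρ (sl (lm (γ : SL(2, ℝ)) B) • z), ⟨_, hγ, rfl⟩, ?_⟩
      show ((γ⁻¹ : Γ) : SL(2, ℝ)) • ρ (sl (lm (γ : SL(2, ℝ)) B) • z) = ρ (sl A • z)
      rw [sl_lm _ B hB.1, mul_smul, h.equiv _ γ.2, ← mul_smul, ← Subgroup.coe_mul,
        inv_mul_cancel, Subgroup.coe_one, one_smul, hBA]
    · left
      have e : sl A = 1 := by
        unfold sl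
        rw [dif_neg hA]
      show ρ (sl A • z) = ρ ((1 : SL(2, ℝ)) • z)
      rw [e]
  refine Set.Countable.mono hsub ?_
  refine (Set.countable_singleton _).union (Set.countable_iUnion fun γ => ?_)
  exact ((h.fin z).countable).image _

theorem kp_meas [Countable Γ] (h : Rd Γ R ρ) {m : ℕ} (x : Fin m → ℍ) (φ : (Fin m → ℍ) → ℝ) :
    Measurable fun A : Pl × Pl => φ fun i => ρ (sl A • x i) := by
  have hc : (Set.range fun A : Pl × Pl => fun i => ρ (sl A • x i)).Countable := by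
    refine Set.Countable.mono ?_ (Set.countable_univ_pi fun i => kp_range h (x i))
    rintro _ ⟨A, rfl⟩ i _
    exact ⟨A, rfl⟩
  intro S _
  have e : (fun A : Pl × Pl => φ fun i => ρ (sl A • x i)) ⁻¹' S =
      ⋃ v ∈ (Set.range fun A : Pl × Pl => fun i => ρ (sl A • x i)) ∩ φ ⁻¹' S,
        ⋂ i : Fin m, {A : Pl × Pl | ρ (sl A • x i) = v i} := by
    ext A
    simp only [Set.mem_preimage, Set.mem_iUnion, Set.mem_iInter, Set.mem_inter_iff]
    constructor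
    · intro hA
      exact ⟨fun i => ρ (sl A • x i), ⟨⟨A, rfl⟩, hA⟩, fun i => rfl⟩
    · rintro ⟨v, ⟨_, hv⟩, hAv⟩
      have e2 : (fun i => ρ (sl A • x i)) = v := funext hAv
      rw [e2]
      exact hv
  rw [e]
  refine MeasurableSet.biUnion (hc.mono Set.inter_subset_left) fun v _ => ?_
  exact MeasurableSet.iInter fun i => h.meas (x i) (v i)

theorem kp_bdd (h : Rd Γ R ρ) {m : ℕ} (x : Fin m → ℍ) (φ : (Fin m → ℍ) → ℝ) :
    ∃ C : ℝ, ∀ A ∈ R, |φ fun i => ρ (sl A • x i)| ≤ C := by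
  have hf : (Set.univ.pi fun i : Fin m => {w | ∃ A ∈ R, w = ρ (sl A • x i)}).Finite :=
    Set.Finite.pi fun i => h.fin (x i)
  obtain ⟨C, hC⟩ := (hf.image fun v => |φ v|).bddAbove
  refine ⟨C, fun A hA => hC ⟨_, ?_, rfl⟩⟩
  intro i _
  exact ⟨A, hA, rfl⟩

theorem kp_int [Countable Γ] (h : Rd Γ R ρ) {m : ℕ} (x : Fin m → ℍ) (φ : (Fin m → ℍ) → ℝ) :
    IntegrableOn (fun A : Pl × Pl => φ fun i => ρ (sl A • x i)) R := by
  obtain ⟨C, hC⟩ := kp_bdd h x φ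
  exact Ev_int h.fd (fun a => φ fun i => ρ (a • x i)) (kp_meas h x φ) C hC

theorem exists_kap [Countable Γ] (h : Rd Γ R ρ) :
    ∃ κ : ∀ m, (Fin m → ℍ) → ((Fin m → ℍ) → ℝ) →ₗ[ℝ] ℝ,
      (∀ m x φ, κ m x φ = Ev R fun a => φ fun i => ρ (a • x i)) ∧
      (∀ m x φ (C : ℝ), (∀ y, |φ y| ≤ C) → |κ m x φ| ≤ C) ∧
      (∀ (k m : ℕ) (ι : Fin k → Fin m) x φ,
        κ m x (fun y => φ fun i => y (ι i)) = κ k (fun i => x (ι i)) φ) ∧
      ∀ m x φ (g : SL(2, ℝ)),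
        (∀ γ : SL(2, ℝ), γ ∈ Γ → ∀ y : Fin m → ℍ, φ (fun i => γ • y i) = φ y) →
        κ m (fun i => g • x i) φ = κ m x φ := by
  refine ⟨fun m x =>
    { toFun := fun φ => Ev R fun a => φ fun i => ρ (a • x i)
      map_add' := fun φ ψ => Ev_add (fun a => φ fun i => ρ (a • x i))
        (fun a => ψ fun i => ρ (a • x i)) (kp_int h x φ) (kp_int h x ψ)
      map_smul' := fun c φ => Ev_smul c (fun a => φ fun i => ρ (a • x i)) },
    fun m x φ => rfl, ?_, fun k m ι x φ => rfl, ?_⟩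
  · intro m x φ C hC
    exact Ev_bdd h.fd (fun a => φ fun i => ρ (a • x i)) C fun A _ => hC _
  · intro m x φ g hφ
    show Ev R (fun a => φ fun i => ρ (a • g • x i)) = Ev R fun a => φ fun i => ρ (a • x i)
    rw [← Ev_inv h.fd (fun a => φ fun i => ρ (a • x i)) (kp_meas h x φ) ?_ g]
    · simp only [mul_smul]
    · intro γ hγ a
      show (φ fun i => ρ ((γ * a) • x i)) = φ fun i => ρ (a • x i)
      rw [← hφ γ hγ (fun i => ρ (a • x i))]
      simp only [mul_smul, h.equiv γ hγ]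

end SimplVol

end S_KP

section S_RD

/-!
# Module RD: bounded exact fundamental domains in the upper half plane

`Γ` a surface group with compact quotient. `ℍ` is a proper metric space (closed balls are compact; there is an instance), `SL(2, ℝ)` acts by isometries (`dist_smul`), continuously.
* `rd_finite`: `{γ : Γ | dist (γ • z) w ≤ r}` is finite: `γ • z ∈ K = closedBall w (r + dist z w)`, `z ∈ K`, so `γ • K ∩ K ≠ ∅`, and `ProperlyDiscontinuousSMul.finite_disjoint_inter_image` (`hΓ.pd`).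
* `rd_countable`: `Γ = ⋃_n {γ | dist (γ • I) I ≤ n}`, a countable union of finite sets.
* `rd_radius`: there is `r` such that for every `z` there is `γ ∈ Γ` with `dist (γ • z) I ≤ r`: the images in `Surf Γ` of the open balls `ball I n` are open (`isOpenMap_quotient_mk'_mul`) and cover; `CompactSpace`: finite subcover (`IsCompact.elim_directed_cover` or `isCompact_univ.elim_finite_subcover`), the balls are increasing.
* `exists_D`: `exists_fd` with `G = Γ`, `α = ℍ`, `T γ z = γ • z`, `X = univ`, `k z = dist z I`, `e` = a measurable injective function: `embeddingReal ℂ ∘ UpperHalfPlane.coe` (`MeasureTheory.measurableEmbedding_embeddingReal`, `UpperHalfPlane.measurableEmbedding_coe`, `UpperHalfPlane.ext`/`coe_injective`). Free: `hΓ.free`. `Measurable (γ • ·)`: continuous and Borel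
  (`continuous_const_smul`, `.measurable`; the instances `MeasurableSpace ℍ`, `BorelSpace ℍ` are in `Mathlib.Analysis.Complex.UpperHalfPlane.Measure`). For `z ∈ D`: `dist z I ≤ dist (γ • z) I ≤ r` for a suitable `γ`.
-/

set_option autoImplicit false

open scoped UpperHalfPlane MatrixGroups
open MeasureTheory

namespace SimplVol

theorem rd_finite (Γ : Subgroup SL(2, ℝ)) (hΓ : IsSurfaceGroup Γ) (z w : ℍ) (r : ℝ) :
    {γ : Γ | dist (γ • z) w ≤ r}.Finite := by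
  have := hΓ.pd
  have hK : IsCompact (Metric.closedBall w (|r| + dist z w)) := isCompact_closedBall _ _
  refine (ProperlyDiscontinuousSMul.finite_disjoint_inter_image (Γ := Γ) hK hK).subset ?_
  intro γ hγ
  have h1 : dist (γ • z) w ≤ r := hγ
  have h2 : γ • z ∈ (γ • ·) '' Metric.closedBall w (|r| + dist z w) ∩
      Metric.closedBall w (|r| + dist z w) := by
    refine ⟨⟨z, ?_, rfl⟩, ?_⟩
    · rw [Metric.mem_closedBall]
      have := abs_nonneg r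
      linarith
    · rw [Metric.mem_closedBall]
      have := le_abs_self r
      have := dist_nonneg (x := z) (y := w)
      linarith
  exact ⟨_, h2⟩

theorem rd_countable (Γ : Subgroup SL(2, ℝ)) (hΓ : IsSurfaceGroup Γ) : Countable Γ := by
  have h : (Set.univ : Set Γ) = ⋃ n : ℕ, {γ : Γ | dist (γ • UpperHalfPlane.I) UpperHalfPlane.I ≤ n} := by
    symm
    rw [Set.eq_univ_iff_forall]
    intro γ
    obtain ⟨n, hn⟩ := exists_nat_ge (dist (γ • UpperHalfPlane.I) UpperHalfPlane.I)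
    exact Set.mem_iUnion.2 ⟨n, hn⟩
  rw [← Set.countable_univ_iff, h]
  exact Set.countable_iUnion fun n => (rd_finite Γ hΓ _ _ _).countable

theorem RD_cont (Γ : Subgroup SL(2, ℝ)) (γ : Γ) : Continuous fun z : ℍ => γ • z :=
  continuous_const_smul (γ : SL(2, ℝ))

theorem rd_radius (Γ : Subgroup SL(2, ℝ)) (hc : CompactSpace (Surf Γ)) :
    ∃ r : ℝ, ∀ z : ℍ, ∃ γ : Γ, dist (γ • z) UpperHalfPlane.I ≤ r := by
  have : ContinuousConstSMul Γ ℍ := ⟨RD_cont Γ⟩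
  have hopen : ∀ n : ℕ, IsOpen ((Quotient.mk _ : ℍ → Surf Γ) ''
      Metric.ball UpperHalfPlane.I (n : ℝ)) := fun n =>
    (isOpenMap_quotient_mk'_mul (Γ := Γ) (T := ℍ)) _ Metric.isOpen_ball
  have hcov : (Set.univ : Set (Surf Γ)) ⊆ ⋃ n : ℕ, (Quotient.mk _ : ℍ → Surf Γ) ''
      Metric.ball UpperHalfPlane.I (n : ℝ) := by
    intro x _
    obtain ⟨z, rfl⟩ := Quotient.exists_rep x
    obtain ⟨n, hn⟩ := exists_nat_gt (dist z UpperHalfPlane.I)
    exact Set.mem_iUnion.2 ⟨n, z, hn, rfl⟩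
  have hdir : Directed (· ⊆ ·) fun n : ℕ => (Quotient.mk _ : ℍ → Surf Γ) ''
      Metric.ball UpperHalfPlane.I (n : ℝ) := by
    refine Monotone.directed_le (fun m n hmn => ?_)
    exact Set.image_mono (Metric.ball_subset_ball (by exact_mod_cast hmn))
  obtain ⟨n, hn⟩ := (isCompact_univ (X := Surf Γ)).elim_directed_cover _ hopen hcov hdir
  refine ⟨n, fun z => ?_⟩
  obtain ⟨w, hw, he⟩ := hn (Set.mem_univ (Quotient.mk _ z : Surf Γ))
  have h1 : (MulAction.orbitRel Γ ℍ) w z := Quotient.exact he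
  rw [MulAction.orbitRel_apply] at h1
  obtain ⟨γ, hγ⟩ := h1
  refine ⟨γ, ?_⟩
  have h2 : γ • z = w := hγ
  rw [h2]
  exact (Metric.mem_ball.1 hw).le

theorem exists_D (Γ : Subgroup SL(2, ℝ)) (hΓ : IsSurfaceGroup Γ) (hc : CompactSpace (Surf Γ)) :
    ∃ (D : Set ℍ) (r : ℝ), MeasurableSet D ∧ (∀ z, ∃! γ : Γ, γ • z ∈ D) ∧
      ∀ z ∈ D, dist z UpperHalfPlane.I ≤ r := by
  have := rd_countable Γ hΓ
  obtain ⟨r, hr⟩ := rd_radius Γ hc
  obtain ⟨R, hR1, -, hR3, hR4⟩ := exists_fd (G := Γ) (α := ℍ) (fun γ z => γ • z)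
    (fun z => one_smul _ z) (fun g h x => mul_smul g h x)
    (fun γ => (RD_cont Γ γ).measurable) Set.univ MeasurableSet.univ
    (fun _ _ _ => Set.mem_univ _) (fun γ z _ h => hΓ.free γ z h)
    (fun z => dist z UpperHalfPlane.I)
    (fun z => MeasureTheory.embeddingReal ℂ (z : ℂ))
    (continuous_id.dist continuous_const).measurable
    ((MeasureTheory.measurableEmbedding_embeddingReal ℂ).measurable.comp
      UpperHalfPlane.continuous_coe.measurable)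
    (fun z w h => UpperHalfPlane.ext
      ((MeasureTheory.measurableEmbedding_embeddingReal ℂ).injective h))
    (fun z _ s => rd_finite Γ hΓ z UpperHalfPlane.I s)
  refine ⟨R, r, hR1, fun z => hR3 z (Set.mem_univ _), fun z hz => ?_⟩
  obtain ⟨γ, hγ⟩ := hr z
  exact (hR4 z hz γ).trans hγ

end SimplVol

end S_RD

section S_RE

/-!
# Module RE: rounding to an orbit

`D`, `r` from `exists_D`. `R = {A ∈ XX | sl A • I ∈ D}`; for `z : ℍ` let `γ_z ∈ Γ` be the unique element with `γ_z • z ∈ D` and `ρ z = γ_z⁻¹ • I`.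
* `equiv`: for `γ ∈ Γ`: `γ_{γ z} = γ_z * γ⁻¹` by uniqueness, so `ρ (γ • z) = γ • ρ z`.
* `fd`: `R` is measurable (`smul_sl_meas 1 I`), `R ⊆ XX`; `sl (lm γ A) • I = γ • sl A • I` (`sl_lm`, `mul_smul`) so exactly one `γ ∈ Γ` has `lm γ A ∈ R` (`lm γ A ∈ XX` by `dt_lm`). Finite measure: `R` is bounded: for `g = sl A`, `z = g • I`: `g 0 0 ^ 2 + g 0 1 ^ 2 + g 1 0 ^ 2 + g 1 1 ^ 2 = 2 cosh (dist z I) ≤ 2 cosh r`
  (`UpperHalfPlane.cosh_dist`: `cosh (dist z w) = 1 + dist (z:ℂ) w ^ 2/(2 * z.im * w.im)`, with `z = (a i + b)/(c i + d)`, `im z = 1/(c² + d²)`, `ad - bc = 1`), and the entries of `A` are the entries of `sl A` times `√(dt A.1 A.2) ≤ 1`; so `R` is a subset of a closed ball (or of a product of intervals) of finite measure.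
* `meas`: `{A | ρ (sl A • z) = w} = ⋃ γ ∈ {γ : Γ | γ⁻¹ • I = w}, {A | γ • sl A • z ∈ D}`: countable union (`rd_countable`), `smul_sl_meas γ z`.
* `fin`: for `A ∈ R` and `z`: with `γ = γ_{sl A • z}`: `dist (γ • sl A • z) I ≤ r` and `dist (sl A • z) I ≤ dist (sl A • z) (sl A • I) + dist (sl A • I) I ≤ dist z I + r`, so `dist (γ • I) I ≤ dist (γ • I) (γ • sl A • z) + r ≤ dist z I + 2 r`: finitely many `γ` (`rd_finite`), hence finitely many values `γ⁻¹ • I`.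
-/

set_option autoImplicit false

open scoped UpperHalfPlane MatrixGroups
open MeasureTheory

namespace SimplVol

theorem RE_cosh (g : SL(2, ℝ)) : Real.cosh (dist (g • UpperHalfPlane.I) UpperHalfPlane.I) =
    (g 0 0 ^ 2 + g 0 1 ^ 2 + g 1 0 ^ 2 + g 1 1 ^ 2) / 2 := by
  have h : g 0 0 * g 1 1 - g 0 1 * g 1 0 = 1 := by
    have h := g.det_coe
    rwa [Matrix.det_fin_two] at h
  have hco : ((g • UpperHalfPlane.I : ℍ) : ℂ) =
      (((g 0 0 : ℝ) : ℂ) * UpperHalfPlane.I + ((g 0 1 : ℝ) : ℂ)) /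
        (((g 1 0 : ℝ) : ℂ) * UpperHalfPlane.I + ((g 1 1 : ℝ) : ℂ)) :=
    UpperHalfPlane.coe_specialLinearGroup_apply g UpperHalfPlane.I
  rw [UpperHalfPlane.coe_I] at hco
  rw [UpperHalfPlane.cosh_dist, UpperHalfPlane.coe_I, UpperHalfPlane.I_im, dist_eq_norm,
    ← Complex.normSq_eq_norm_sq, ← UpperHalfPlane.coe_im, hco]
  revert h
  generalize g 0 0 = a
  generalize g 0 1 = b
  generalize g 1 0 = c
  generalize g 1 1 = d
  intro h
  have hN : 0 < c ^ 2 + d ^ 2 := by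
    rcases eq_or_ne c 0 with h0 | h0
    · have hd : d ≠ 0 := by
        rintro rfl
        rw [h0] at h
        simp at h
      positivity
    · positivity
  have hns : Complex.normSq ((c : ℂ) * Complex.I + (d : ℂ)) = c ^ 2 + d ^ 2 := by
    rw [Complex.normSq_apply]
    simp
    ring
  have hne : (c : ℂ) * Complex.I + (d : ℂ) ≠ 0 := by
    rw [← Complex.normSq_pos, hns]
    exact hN
  have e1 : ((a : ℂ) * Complex.I + (b : ℂ)) / ((c : ℂ) * Complex.I + (d : ℂ)) - Complex.I =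
      (((b + c : ℝ) : ℂ) + ((a - d : ℝ) : ℂ) * Complex.I) / ((c : ℂ) * Complex.I + (d : ℂ)) := by
    rw [eq_div_iff hne, sub_mul, div_mul_cancel₀ _ hne]
    push_cast
    linear_combination (-(c : ℂ)) * Complex.I_sq
  have e2 : Complex.normSq (((b + c : ℝ) : ℂ) + ((a - d : ℝ) : ℂ) * Complex.I) =
      (b + c) ^ 2 + (a - d) ^ 2 := by
    rw [Complex.normSq_apply]
    simp
    ring
  have e3 : (((a : ℂ) * Complex.I + (b : ℂ)) / ((c : ℂ) * Complex.I + (d : ℂ))).im =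
      1 / (c ^ 2 + d ^ 2) := by
    rw [Complex.div_im, hns]
    simp
    rw [← sub_div, h, inv_eq_one_div]
  rw [e1, Complex.normSq_div, hns, e2, e3]
  field_simp
  linear_combination (-2) * h

theorem RE_entries (A : Pl × Pl) (hA : 0 < dt A.1 A.2) (hA1 : dt A.1 A.2 ≤ 1) {r : ℝ}
    (h : dist (sl A • UpperHalfPlane.I) UpperHalfPlane.I ≤ r) :
    A.1.1 ^ 2 + A.1.2 ^ 2 + A.2.1 ^ 2 + A.2.2 ^ 2 ≤ 2 * Real.cosh r := by
  have h1 := RE_cosh (sl A)
  have h2 : Real.cosh (dist (sl A • UpperHalfPlane.I) UpperHalfPlane.I) ≤ Real.cosh r := by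
    rw [Real.cosh_le_cosh, abs_of_nonneg dist_nonneg]
    exact h.trans (le_abs_self r)
  have hs : sl A = ⟨!![A.1.1 / Real.sqrt (dt A.1 A.2), A.2.1 / Real.sqrt (dt A.1 A.2);
        A.1.2 / Real.sqrt (dt A.1 A.2), A.2.2 / Real.sqrt (dt A.1 A.2)], by
      rw [Matrix.det_fin_two_of, div_mul_div_comm, div_mul_div_comm, Real.mul_self_sqrt hA.le,
        ← sub_div]
      exact (div_eq_one_iff_eq hA.ne').2 (by unfold dt; ring)⟩ := by
    unfold sl
    rw [dif_pos hA]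
  have e00 : (sl A) 0 0 = A.1.1 / Real.sqrt (dt A.1 A.2) := by rw [hs]; rfl
  have e01 : (sl A) 0 1 = A.2.1 / Real.sqrt (dt A.1 A.2) := by rw [hs]; rfl
  have e10 : (sl A) 1 0 = A.1.2 / Real.sqrt (dt A.1 A.2) := by rw [hs]; rfl
  have e11 : (sl A) 1 1 = A.2.2 / Real.sqrt (dt A.1 A.2) := by rw [hs]; rfl
  rw [e00, e01, e10, e11] at h1
  have hsq : Real.sqrt (dt A.1 A.2) ^ 2 = dt A.1 A.2 := Real.sq_sqrt hA.le
  simp only [div_pow, hsq] at h1
  rw [h1] at h2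
  have h3 : A.1.1 ^ 2 / dt A.1 A.2 + A.2.1 ^ 2 / dt A.1 A.2 + A.1.2 ^ 2 / dt A.1 A.2 +
      A.2.2 ^ 2 / dt A.1 A.2 = (A.1.1 ^ 2 + A.2.1 ^ 2 + A.1.2 ^ 2 + A.2.2 ^ 2) / dt A.1 A.2 := by
    ring
  rw [h3] at h2
  have h4 : A.1.1 ^ 2 + A.2.1 ^ 2 + A.1.2 ^ 2 + A.2.2 ^ 2 ≤
      (A.1.1 ^ 2 + A.2.1 ^ 2 + A.1.2 ^ 2 + A.2.2 ^ 2) / dt A.1 A.2 := by
    rw [le_div_iff₀ hA]
    have h5 : 0 ≤ A.1.1 ^ 2 + A.2.1 ^ 2 + A.1.2 ^ 2 + A.2.2 ^ 2 := by positivity
    nlinarith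
  linarith

theorem RE_bdd (M : ℝ) :
    volume {A : Pl × Pl | A.1.1 ^ 2 + A.1.2 ^ 2 + A.2.1 ^ 2 + A.2.2 ^ 2 ≤ M} ≠ ⊤ := by
  have hsub : {A : Pl × Pl | A.1.1 ^ 2 + A.1.2 ^ 2 + A.2.1 ^ 2 + A.2.2 ^ 2 ≤ M} ⊆
      Set.Icc (((-(M + 1), -(M + 1)), (-(M + 1), -(M + 1))) : Pl × Pl)
        ((M + 1, M + 1), (M + 1, M + 1)) := by
    intro x hx
    have hx' : x.1.1 ^ 2 + x.1.2 ^ 2 + x.2.1 ^ 2 + x.2.2 ^ 2 ≤ M := hx
    have n1 := sq_nonneg x.1.1
    have n2 := sq_nonneg x.1.2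
    have n3 := sq_nonneg x.2.1
    have n4 := sq_nonneg x.2.2
    have key : ∀ y : ℝ, y ^ 2 ≤ M → -(M + 1) ≤ y ∧ y ≤ M + 1 := by
      intro y hy
      constructor
      · nlinarith [sq_nonneg (y + 1)]
      · nlinarith [sq_nonneg (y - 1)]
    have k1 := key x.1.1 (by linarith)
    have k2 := key x.1.2 (by linarith)
    have k3 := key x.2.1 (by linarith)
    have k4 := key x.2.2 (by linarith)
    rw [Set.mem_Icc]
    exact ⟨⟨⟨k1.1, k2.1⟩, ⟨k3.1, k4.1⟩⟩, ⟨⟨k1.2, k2.2⟩, ⟨k3.2, k4.2⟩⟩⟩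
  exact ((measure_mono hsub).trans_lt (isCompact_Icc.measure_lt_top)).ne

theorem exists_rd (Γ : Subgroup SL(2, ℝ)) (hΓ : IsSurfaceGroup Γ) (hc : CompactSpace (Surf Γ)) :
    ∃ (R : Set (Pl × Pl)) (ρ : ℍ → ℍ), Rd Γ R ρ := by
  obtain ⟨D, r, hDm, hDu, hDr⟩ := exists_D Γ hΓ hc
  choose c hcD hcu using hDu
  have huniq : ∀ (z : ℍ) (γ : Γ), γ • z ∈ D → γ = c z := fun z γ h => hcu z γ h
  have hRX : ∀ A, A ∈ {A : Pl × Pl | A ∈ XX ∧ sl A • UpperHalfPlane.I ∈ D} ↔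
      A ∈ XX ∧ sl A • UpperHalfPlane.I ∈ D := fun A => Iff.rfl
  refine ⟨{A | A ∈ XX ∧ sl A • UpperHalfPlane.I ∈ D}, fun z => (c z)⁻¹ • UpperHalfPlane.I,
    ?_, ?_, ?_, ?_⟩
  · refine ⟨?_, fun A hA => hA.1, ?_, ?_⟩
    · have h1 := smul_sl_meas 1 UpperHalfPlane.I
      simp only [one_smul] at h1
      exact XX_meas.inter (h1 hDm)
    · intro A hA
      have h1 : ∀ γ : Γ, lm (γ : SL(2, ℝ)) A ∈
          {A : Pl × Pl | A ∈ XX ∧ sl A • UpperHalfPlane.I ∈ D} ↔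
          γ • (sl A • UpperHalfPlane.I) ∈ D := by
        intro γ
        rw [hRX, SB_lmXX, sl_lm (γ : SL(2, ℝ)) A hA.1, mul_smul]
        exact ⟨fun h => h.2, fun h => ⟨hA, h⟩⟩
      refine ⟨c (sl A • UpperHalfPlane.I), (h1 _).2 (hcD _), ?_⟩
      intro γ hγ
      exact huniq _ γ ((h1 γ).1 hγ)
    · have hsub : {A : Pl × Pl | A ∈ XX ∧ sl A • UpperHalfPlane.I ∈ D} ⊆
          {A : Pl × Pl | A.1.1 ^ 2 + A.1.2 ^ 2 + A.2.1 ^ 2 + A.2.2 ^ 2 ≤ 2 * Real.cosh r} := by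
        intro A hA
        exact RE_entries A hA.1.1 hA.1.2 (hDr _ hA.2)
      exact ((measure_mono hsub).trans_lt (RE_bdd _).lt_top).ne
  · intro γ hγ z
    have h1 : c z * (⟨γ, hγ⟩ : Γ)⁻¹ = c (γ • z) := by
      refine huniq (γ • z) _ ?_
      have h2 : (c z * (⟨γ, hγ⟩ : Γ)⁻¹) • (γ • z) = c z • z := by
        have h3 : γ • z = (⟨γ, hγ⟩ : Γ) • z := rfl
        rw [h3, smul_smul, mul_assoc, inv_mul_cancel, mul_one]
      rw [h2]
      exact hcD z
    show (c (γ • z))⁻¹ • UpperHalfPlane.I = γ • (c z)⁻¹ • UpperHalfPlane.I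
    rw [← h1, mul_inv_rev, inv_inv, mul_smul]
    rfl
  · intro z
    refine ((rd_finite Γ hΓ UpperHalfPlane.I UpperHalfPlane.I
      (dist z UpperHalfPlane.I + 2 * r)).image fun γ : Γ => γ⁻¹ • UpperHalfPlane.I).subset ?_
    rintro w ⟨A, hA, rfl⟩
    refine ⟨c (sl A • z), ?_, rfl⟩
    rw [Set.mem_ofPred_eq]
    have d1 : dist (c (sl A • z) • (sl A • z)) UpperHalfPlane.I ≤ r := hDr _ (hcD _)
    have d2 : dist (sl A • UpperHalfPlane.I) UpperHalfPlane.I ≤ r := hDr _ hA.2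
    have d3 : dist (c (sl A • z) • UpperHalfPlane.I) (c (sl A • z) • (sl A • z)) =
        dist UpperHalfPlane.I (sl A • z) :=
      dist_smul ((c (sl A • z) : Γ) : SL(2, ℝ)) UpperHalfPlane.I (sl A • z)
    have d4 : dist (sl A • UpperHalfPlane.I) (sl A • z) = dist UpperHalfPlane.I z :=
      dist_smul (sl A) UpperHalfPlane.I z
    have d5 := dist_triangle (c (sl A • z) • UpperHalfPlane.I) (c (sl A • z) • (sl A • z))
      UpperHalfPlane.I
    have d6 := dist_triangle UpperHalfPlane.I (sl A • UpperHalfPlane.I) (sl A • z)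
    rw [dist_comm UpperHalfPlane.I (sl A • UpperHalfPlane.I)] at d6
    rw [dist_comm UpperHalfPlane.I z] at d4
    linarith
  · intro z w
    have hcount : Countable Γ := rd_countable Γ hΓ
    have he : {A : Pl × Pl | (c (sl A • z))⁻¹ • UpperHalfPlane.I = w} =
        ⋃ γ : Γ, ⋃ (_ : γ⁻¹ • UpperHalfPlane.I = w),
          (fun A : Pl × Pl => (γ : SL(2, ℝ)) • sl A • z) ⁻¹' D := by
      ext A
      simp only [Set.mem_iUnion, Set.mem_preimage, Set.mem_ofPred_eq]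
      constructor
      · intro h
        exact ⟨c (sl A • z), h, hcD _⟩
      · rintro ⟨γ, h1, h2⟩
        rw [← huniq (sl A • z) γ h2]
        exact h1
    show MeasurableSet {A : Pl × Pl | (c (sl A • z))⁻¹ • UpperHalfPlane.I = w}
    rw [he]
    exact MeasurableSet.iUnion fun γ => MeasurableSet.iUnion fun _ =>
      (smul_sl_meas (γ : SL(2, ℝ)) z) hDm

end SimplVol

end S_RE

section S_KQ

/-!
# Module KQ: the average of the area of the rounded triangle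

`area_coc`: `area b c d - area a c d + area a b d - area a b c = 0` (unfold, `sarg_swap`, `ring`).
`Rd Γ R ρ`, `κ` as in `exists_kap`. Fix `x₀ x₁ x₂ : ℍ`, for `a ∈ SL(2, ℝ)` let `a_i = a • x_i`, `r_i = ρ (a • x_i)`. For `y₀ y₁ : ℍ` put `h a = area (a • y₀) (ρ (a • y₀)) (ρ (a • y₁)) - area (a • y₀) (a • y₁) (ρ (a • y₁))` and `P y₀ y₁ = Ev R (h)`.
* `h` is bounded by `2π` (`abs_area_lt`), measurable along `sl` (`sl A • y` is measurable (`smul_sl_meas`), `ρ (sl A • y)` takes countably many values on measurable sets (see module KP: use `kp_meas`-like arguments: for fixed `v`, `A ↦ area (sl A • y₀) v v'` is continuous in `sl A • y₀`, hence measurable: `area` is a continuous/measurable function of its arguments: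
  `sarg_eq_arctan`), so it is measurable: e.g. write `A ↦ (sl A • y₀, sl A • y₁, ρ (sl A • y₀), ρ (sl A • y₁))`; it suffices that `A ↦ ρ (sl A • y)` is measurable into `ℍ`: `kp_meas` for the functions `φ = re`, `φ = im` of one point (`m = 1`)).
* `P (g • y₀) (g • y₁) = P y₀ y₁` by `Ev_inv` (`h (γ * a) = h a` by `area_smul` and `Rd.equiv`).
* `P y₁ y₀ = - P y₀ y₁`: `h_{y₀,y₁} + h_{y₁,y₀} = area a₀ r₀ r₁ - area a₀ a₁ r₁ + area a₁ r₁ r₀ - area a₁ a₀ r₀ = 0` by `area_coc a₀ a₁ r₀ r₁` and antisymmetry. With `swap_smul y₀ y₁` (`g • y₀ = y₁`, `g • y₁ = y₀`): `P y₁ y₀ = P y₀ y₁`. So `P = 0`.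
* Prism: `area r₀ r₁ r₂ - area a₀ a₁ a₂ = ± (h_{x₁,x₂} - h_{x₀,x₂} + h_{x₀,x₁})` (a combination of instances of `area_coc`; check: the instances for `(a₀, r₀, r₁, r₂)`, `(a₀, a₁, r₁, r₂)`, `(a₀, a₁, a₂, r₂)`; `linarith`/`linear_combination` after unfolding `area` in terms of `sarg` and using antisymmetry). `area a₀ a₁ a₂ = area x₀ x₁ x₂` (`area_smul`).
  So `Ev R (area r₀ r₁ r₂) = area x₀ x₁ x₂` (`Ev_add`, `Ev_smul`, `Ev_const`, `Ev_int`).
-/

set_option autoImplicit false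

open scoped BigOperators UpperHalfPlane MatrixGroups
open MeasureTheory

namespace SimplVol

theorem area_coc (a b c d : ℍ) : area b c d - area a c d + area a b d - area a b c = 0 := by
  have h1 := sarg_swap b d
  have h2 := sarg_swap a c
  unfold area
  rw [h1, h2]
  ring

/-- real and imaginary part are measurable -/
def KQ_MM (f : Pl × Pl → ℍ) : Prop :=
  (Measurable fun A => (f A).re) ∧ Measurable fun A => (f A).im

theorem KQ_sarg_meas {f g : Pl × Pl → ℍ} (hf : KQ_MM f) (hg : KQ_MM g) :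
    Measurable fun A => sarg (f A) (g A) := by
  simp only [sarg_eq_arctan]
  exact Real.measurable_arctan.comp ((hg.1.sub hf.1).div (hf.2.add hg.2))

theorem KQ_area_meas {f g k : Pl × Pl → ℍ} (hf : KQ_MM f) (hg : KQ_MM g) (hk : KQ_MM k) :
    Measurable fun A => area (f A) (g A) (k A) := by
  unfold area
  exact (((KQ_sarg_meas hf hg).add (KQ_sarg_meas hg hk)).add (KQ_sarg_meas hk hf)).const_mul 2

theorem KQ_sl_meas (y : ℍ) : KQ_MM fun A => sl A • y := by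
  have h := smul_sl_meas 1 y
  simp only [one_smul] at h
  exact ⟨UpperHalfPlane.continuous_re.measurable.comp h,
    UpperHalfPlane.continuous_im.measurable.comp h⟩

theorem KQ_rho_meas {Γ : Subgroup SL(2, ℝ)} {R : Set (Pl × Pl)} {ρ : ℍ → ℍ} [Countable Γ]
    (h : Rd Γ R ρ) (y : ℍ) : KQ_MM fun A => ρ (sl A • y) :=
  ⟨kp_meas h (m := 1) (fun _ => y) (fun v => (v 0).re),
    kp_meas h (m := 1) (fun _ => y) (fun v => (v 0).im)⟩

/-- the prism function -/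
noncomputable def KQ_h (ρ : ℍ → ℍ) (y₀ y₁ : ℍ) (a : SL(2, ℝ)) : ℝ :=
  area (a • y₀) (ρ (a • y₀)) (ρ (a • y₁)) - area (a • y₀) (a • y₁) (ρ (a • y₁))

section KQ

variable {Γ : Subgroup SL(2, ℝ)} {R : Set (Pl × Pl)} {ρ : ℍ → ℍ}

theorem KQ_h_meas [Countable Γ] (h : Rd Γ R ρ) (y₀ y₁ : ℍ) :
    Measurable fun A => KQ_h ρ y₀ y₁ (sl A) :=
  (KQ_area_meas (KQ_sl_meas y₀) (KQ_rho_meas h y₀) (KQ_rho_meas h y₁)).sub
    (KQ_area_meas (KQ_sl_meas y₀) (KQ_sl_meas y₁) (KQ_rho_meas h y₁))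

theorem KQ_h_int [Countable Γ] (h : Rd Γ R ρ) (y₀ y₁ : ℍ) :
    IntegrableOn (fun A => KQ_h ρ y₀ y₁ (sl A)) R := by
  refine Ev_int h.fd (KQ_h ρ y₀ y₁) (KQ_h_meas h y₀ y₁) (Real.pi + Real.pi) fun A _ => ?_
  unfold KQ_h
  refine (abs_sub _ _).trans (add_le_add (abs_area_lt _ _ _).le (abs_area_lt _ _ _).le)

theorem KQ_h_inv [Countable Γ] (h : Rd Γ R ρ) (y₀ y₁ : ℍ) (g : SL(2, ℝ)) :
    Ev R (KQ_h ρ (g • y₀) (g • y₁)) = Ev R (KQ_h ρ y₀ y₁) := by
  rw [← Ev_inv h.fd (KQ_h ρ y₀ y₁) (KQ_h_meas h y₀ y₁) ?_ g]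
  · congr 1
    funext a
    unfold KQ_h
    simp only [mul_smul]
  · intro γ hγ a
    unfold KQ_h
    simp only [mul_smul, h.equiv γ hγ, area_smul]

theorem KQ_h_anti (ρ : ℍ → ℍ) (y₀ y₁ : ℍ) (a : SL(2, ℝ)) :
    KQ_h ρ y₁ y₀ a = (-1) * KQ_h ρ y₀ y₁ a := by
  unfold KQ_h
  generalize a • y₀ = a₀
  generalize a • y₁ = a₁
  generalize ρ a₀ = r₀
  generalize ρ a₁ = r₁
  have s1 := sarg_swap a₀ a₁
  have s2 := sarg_swap r₀ r₁
  have s3 := sarg_swap a₀ r₀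
  have s4 := sarg_swap a₀ r₁
  have s5 := sarg_swap a₁ r₀
  have s6 := sarg_swap a₁ r₁
  unfold area
  linarith

theorem KQ_h_zero [Countable Γ] (h : Rd Γ R ρ) (y₀ y₁ : ℍ) : Ev R (KQ_h ρ y₀ y₁) = 0 := by
  obtain ⟨g, h1, h2⟩ := swap_smul y₀ y₁
  have e1 := KQ_h_inv h y₀ y₁ g
  rw [h1, h2] at e1
  have e2 : Ev R (KQ_h ρ y₁ y₀) = (-1) * Ev R (KQ_h ρ y₀ y₁) := by
    rw [← Ev_smul]
    congr 1
    funext a
    exact KQ_h_anti ρ y₀ y₁ a
  linarith

end KQ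

theorem kq_area {Γ : Subgroup SL(2, ℝ)} {R : Set (Pl × Pl)} {ρ : ℍ → ℍ} [Countable Γ]
    (h : Rd Γ R ρ) (x₀ x₁ x₂ : ℍ) :
    Ev R (fun a => area (ρ (a • x₀)) (ρ (a • x₁)) (ρ (a • x₂))) = area x₀ x₁ x₂ := by
  have hfun : (fun a : SL(2, ℝ) => area (ρ (a • x₀)) (ρ (a • x₁)) (ρ (a • x₂))) =
      fun a => area x₀ x₁ x₂ + (KQ_h ρ x₀ x₁ a + (KQ_h ρ x₁ x₂ a + (-1) * KQ_h ρ x₀ x₂ a)) := by
    funext a
    rw [← area_smul a x₀ x₁ x₂]
    unfold KQ_h
    generalize a • x₀ = a₀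
    generalize a • x₁ = a₁
    generalize a • x₂ = a₂
    generalize ρ a₀ = r₀
    generalize ρ a₁ = r₁
    generalize ρ a₂ = r₂
    have c1 := area_coc a₀ r₀ r₁ r₂
    have c2 := area_coc a₀ a₁ r₁ r₂
    have c3 := area_coc a₀ a₁ a₂ r₂
    linarith
  have i1 : IntegrableOn (fun A => (fun _ : SL(2, ℝ) => area x₀ x₁ x₂) (sl A)) R :=
    Ev_int h.fd (fun _ => area x₀ x₁ x₂) measurable_const |area x₀ x₁ x₂| fun A _ => le_refl _
  have i01 := KQ_h_int h x₀ x₁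
  have i12 := KQ_h_int h x₁ x₂
  have i02 := (KQ_h_int h x₀ x₂).const_mul (-1)
  rw [hfun, Ev_add (fun _ => area x₀ x₁ x₂)
    (fun a => KQ_h ρ x₀ x₁ a + (KQ_h ρ x₁ x₂ a + (-1) * KQ_h ρ x₀ x₂ a)) i1
    (i01.add (i12.add i02)),
    Ev_add (fun a => KQ_h ρ x₀ x₁ a) (fun a => KQ_h ρ x₁ x₂ a + (-1) * KQ_h ρ x₀ x₂ a) i01
    (i12.add i02),
    Ev_add (fun a => KQ_h ρ x₁ x₂ a) (fun a => (-1) * KQ_h ρ x₀ x₂ a) i12 i02,
    Ev_smul (-1) (fun a => KQ_h ρ x₀ x₂ a), Ev_const h.fd]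
  have z01 := KQ_h_zero h x₀ x₁
  have z12 := KQ_h_zero h x₁ x₂
  have z02 := KQ_h_zero h x₀ x₂
  rw [z01, z12, z02]
  ring

theorem exists_rnd (Γ : Subgroup SL(2, ℝ)) (hΓ : IsSurfaceGroup Γ) (hc : CompactSpace (Surf Γ)) :
    ∃ κ : ∀ m, (Fin m → ℍ) → ((Fin m → ℍ) → ℝ) →ₗ[ℝ] ℝ, Rnd Γ κ := by
  have hcount : Countable Γ := rd_countable Γ hΓ
  obtain ⟨R, ρ, hRd⟩ := exists_rd Γ hΓ hc
  obtain ⟨κ, h1, h2, h3, h4⟩ := exists_kap hRd
  refine ⟨κ, ⟨h2, h3, h4, ?_⟩⟩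
  intro m x a b c
  rw [h1]
  exact kq_area hRd (x a) (x b) (x c)

end SimplVol

end S_KQ

section S_GF

/-!
# Module GF: invariant cochains on the product of upper half planes

`f`, `β` from `exists_cochain`, `κ j` from `exists_rnd (Γ j)` (choose for every `j`). `F = KM n (n*2+1) κ f`, `B = KM n (n*2) κ β`.
`|F| ≤ 1`: `KM_bdd`. Invariance: `KM_inv`. `F x = C vol n x + ∑ (-1)^i B (x ∘ i.succAbove)`: `f = fun x => C * vol n x + ∑ ..` (funext), `KM_add`, `KM_smul`, `KM_vol`, `KM_sum`, `KM_smul`, `KM_nat` with `ι = i.succAbove`.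
-/

set_option autoImplicit false

open scoped BigOperators UpperHalfPlane MatrixGroups

namespace SimplVol

theorem exists_inv {n : ℕ} (Γ : Fin n → Subgroup SL(2, ℝ)) (hΓ : ∀ j, IsSurfaceGroup (Γ j))
    (hc : ∀ j, CompactSpace (Surf (Γ j))) (C : ℝ)
    (hC : ∀ w : Chain (n * 2 + 1) (∀ j, Surf (Γ j)), boundary (n * 2) _ w = 0 →
      C * volPair Γ w ≤ norm1 w) :
    ∃ (F : (Fin (n * 2 + 1) → Fin n → ℍ) → ℝ) (B : (Fin (n * 2) → Fin n → ℍ) → ℝ),
      (∀ x, |F x| ≤ 1) ∧ InvN F ∧ InvN B ∧ ∀ x, F x = C * vol n x +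
        ∑ i : Fin (n * 2 + 1), (-1 : ℝ) ^ (i : ℕ) * B fun l => x (i.succAbove l) := by
  obtain ⟨f, β, hf, hfi, hβi, hfβ⟩ := exists_cochain Γ hΓ C hC
  choose κ hκ using fun j => exists_rnd (Γ j) (hΓ j) (hc j)
  refine ⟨KM n (n * 2 + 1) κ f, KM n (n * 2) κ β, fun x => KM_bdd Γ κ hκ f 1 hf x,
    fun g x => KM_inv Γ κ hκ f hfi g x, fun g x => KM_inv Γ κ hκ β hβi g x, fun x => ?_⟩
  have e : f = fun x => C * vol n x +
      ∑ i : Fin (n * 2 + 1), (-1 : ℝ) ^ (i : ℕ) * β fun l => x (i.succAbove l) := funext hfβ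
  conv_lhs => rw [e]
  rw [KM_add, KM_smul, KM_vol Γ κ hκ,
    KM_sum κ Finset.univ (fun (i : Fin (n * 2 + 1)) (y : Fin (n * 2 + 1) → Fin n → ℍ) =>
      (-1 : ℝ) ^ (i : ℕ) * β fun l => y (i.succAbove l))]
  congr 1
  refine Finset.sum_congr rfl fun i _ => ?_
  rw [KM_smul, KM_nat Γ κ hκ i.succAbove]

end SimplVol

end S_GF
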