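import Pool.Agent.H54.RM.A2
import Pool.Agent.H54.RM.B1

/-! Simplicial volume and ranked planar trees, part E1: this file joins several modules to save build time. -/

section S_BT

/-!
# Module BT: plane rooted binary trees (definitions, membership)

* `spl_apply`, `spl_compl`: `decide`. `key_compl`. `mem_key`: a division `s ∈ τ.l` and a point `ρ` give the key `{a | s ρ a = false}`.
* `key_sep`: if `A` is a key with two different elements `a, a'` and two different elements `c, c'` outside, then `spl A ∈ τ.l` (`A` is not a singleton, nor is its complement).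
* `key_nested`: two keys `A, B` not containing `ρ` with a common element `x` are nested: else choose `a ∈ A \ B`, `b ∈ B \ A`; both are divisions in the list (`key_sep`: `A` contains `x, a`, not `b, ρ`; `B` contains `x, b`, not `a, ρ`), `Sep (spl A) x a b ρ` and
  `Sep (spl B) x b a ρ`, against `τ.excl`.
-/

set_option autoImplicit false

open scoped BigOperators

namespace SimplVol

/-- Plane rooted binary trees with labelled leaves. -/
inductive BT (m : ℕ) : Type
  | leaf (i : Fin m) : BT m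
  | node (x y : BT m) : BT m
  deriving DecidableEq

/-- The set of leaves. -/
def BT.lv {m : ℕ} : BT m → Finset (Fin m)
  | .leaf i => {i}
  | .node x y => x.lv ∪ y.lv

/-- The division given by a set. -/
def spl {m : ℕ} (A : Finset (Fin m)) : Split m := fun a b => decide (a ∈ A ↔ b ∈ A)

/-- `A` is a set of leaves cut off by an edge (internal or not) of the tree. -/
def Key {m : ℕ} (τ : RTree m) (A : Finset (Fin m)) : Prop :=
  (∃ i, A = {i}) ∨ (∃ i, Aᶜ = {i}) ∨ spl A ∈ τ.l

/-- `t` is a part of the ranked planar tree `τ`, seen from outside. -/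
def Rep {m : ℕ} (τ : RTree m) : BT m → Prop
  | .leaf _ => True
  | .node x y => Disjoint x.lv y.lv ∧
      (∀ a ∈ x.lv, ∀ b ∈ y.lv, ∀ c, c ∉ x.lv → c ∉ y.lv → τ.o c a b = 1) ∧
      Key τ x.lv ∧ Key τ y.lv ∧ Rep τ x ∧ Rep τ y

theorem BT.lv_nonempty {m : ℕ} (t : BT m) : t.lv.Nonempty := by
  induction t with
  | leaf i => exact Finset.singleton_nonempty i
  | node x y hx _ => exact hx.mono Finset.subset_union_left

theorem spl_apply {m : ℕ} (A : Finset (Fin m)) (a b : Fin m) :
    spl A a b = true ↔ (a ∈ A ↔ b ∈ A) := by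
  unfold spl
  exact decide_eq_true_iff

theorem BT_spl_false {m : ℕ} (A : Finset (Fin m)) (a b : Fin m) (h : a ∈ A) (h' : b ∉ A) :
    spl A a b = false := by
  rw [Bool.eq_false_iff, Ne, spl_apply]
  tauto

theorem spl_compl {m : ℕ} (A : Finset (Fin m)) : spl Aᶜ = spl A := by
  funext a b
  rw [Bool.eq_iff_iff, spl_apply, spl_apply, Finset.mem_compl, Finset.mem_compl, not_iff_not]

theorem spl_inj {m : ℕ} {A B : Finset (Fin m)} {ρ : Fin m} (hA : ρ ∉ A) (hB : ρ ∉ B)
    (h : spl A = spl B) : A = B := by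
  ext a
  have h1 := congrFun (congrFun h a) ρ
  rw [Bool.eq_iff_iff, spl_apply, spl_apply] at h1
  tauto

theorem key_compl {m : ℕ} (τ : RTree m) (A : Finset (Fin m)) : Key τ Aᶜ ↔ Key τ A := by
  unfold Key
  rw [compl_compl, spl_compl]
  tauto

theorem exists_key {m : ℕ} (τ : RTree m) (s : Split m) (hs : s ∈ τ.l) (ρ : Fin m) :
    ∃ A : Finset (Fin m), ρ ∉ A ∧ spl A = s ∧ Key τ A ∧ 2 ≤ A.card ∧ 2 ≤ Aᶜ.card := by
  obtain ⟨f, hf⟩ := τ.split s hs
  obtain ⟨a, b, c, d, h1, h2, h3, h4, h5⟩ := τ.nt s hs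
  rw [hf, beq_iff_eq] at h3 h4
  rw [hf] at h5
  have h5' : f a ≠ f c := by
    intro h
    rw [h] at h5
    simp at h5
  have hmem : ∀ x, x ∈ Finset.univ.filter (fun x => f x ≠ f ρ) ↔ f x ≠ f ρ := by
    intro x
    simp
  have hspl : spl (Finset.univ.filter (fun x => f x ≠ f ρ)) = s := by
    funext x y
    rw [Bool.eq_iff_iff, spl_apply, hmem, hmem, hf, beq_iff_eq]
    generalize f x = u
    generalize f y = v
    generalize f ρ = w
    revert u v w
    decide
  have hcard : ∀ (S : Finset (Fin m)) (x y : Fin m), x ∈ S → y ∈ S → x ≠ y → 2 ≤ S.card := by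
    intro S x y hx hy hne
    exact Finset.one_lt_card.2 ⟨x, hx, y, hy, hne⟩
  refine ⟨Finset.univ.filter (fun x => f x ≠ f ρ), ?_, hspl, ?_, ?_, ?_⟩
  · rw [hmem]
    exact fun h => h rfl
  · refine Or.inr (Or.inr ?_)
    rw [hspl]
    exact hs
  · by_cases h : f a = f ρ
    · refine hcard _ c d ((hmem c).2 ?_) ((hmem d).2 ?_) h2
      · rw [← h]; exact h5'.symm
      · rw [← h4, ← h]; exact h5'.symm
    · exact hcard _ a b ((hmem a).2 h) ((hmem b).2 (by rw [← h3]; exact h)) h1
  · by_cases h : f a = f ρ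
    · refine hcard _ a b ?_ ?_ h1
      · rw [Finset.mem_compl, hmem, not_not]; exact h
      · rw [Finset.mem_compl, hmem, not_not, ← h3]; exact h
    · have h6 : f c = f ρ := by
        revert h h5'
        generalize f a = u
        generalize f c = v
        generalize f ρ = w
        revert u v w
        decide
      refine hcard _ c d ?_ ?_ h2
      · rw [Finset.mem_compl, hmem, not_not]; exact h6
      · rw [Finset.mem_compl, hmem, not_not, ← h4]; exact h6

theorem key_sep {m : ℕ} (τ : RTree m) (A : Finset (Fin m)) (hA : Key τ A) (a a' c c' : Fin m)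
    (h1 : a ∈ A) (h2 : a' ∈ A) (h3 : a ≠ a') (h4 : c ∉ A) (h5 : c' ∉ A) (h6 : c ≠ c') :
    spl A ∈ τ.l := by
  rcases hA with ⟨i, hi⟩ | ⟨i, hi⟩ | h
  · rw [hi, Finset.mem_singleton] at h1 h2
    exact absurd (h1.trans h2.symm) h3
  · rw [← Finset.mem_compl, hi, Finset.mem_singleton] at h4 h5
    exact absurd (h4.trans h5.symm) h6
  · exact h

theorem key_nested {m : ℕ} (τ : RTree m) (A B : Finset (Fin m)) (hA : Key τ A) (hB : Key τ B)
    (ρ x : Fin m) (h1 : ρ ∉ A) (h2 : ρ ∉ B) (h3 : x ∈ A) (h4 : x ∈ B) : A ⊆ B ∨ B ⊆ A := by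
  by_contra hcon
  rw [not_or, Finset.not_subset, Finset.not_subset] at hcon
  obtain ⟨⟨a, ha, ha'⟩, b, hb, hb'⟩ := hcon
  have e1 : x ≠ a := fun h => ha' (h ▸ h4)
  have e2 : x ≠ b := fun h => hb' (h ▸ h3)
  have e3 : b ≠ ρ := fun h => h2 (h ▸ hb)
  have e4 : a ≠ ρ := fun h => h1 (h ▸ ha)
  have hsA := key_sep τ A hA x a b ρ h3 ha e1 hb' h1 e3
  have hsB := key_sep τ B hB x b a ρ h4 hb e2 ha' h2 e4
  refine τ.excl (spl A) hsA (spl B) hsB x a b ρ ⟨?_, ?_, ?_⟩ ⟨?_, ?_, ?_⟩
  · rw [spl_apply]; tauto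
  · rw [spl_apply]; tauto
  · exact BT_spl_false A x b h3 hb'
  · rw [spl_apply]; tauto
  · rw [spl_apply]; tauto
  · exact BT_spl_false B x a h4 ha'

/-- The leaves outside a key see two leaves in the key in the same order. -/
theorem key_o {m : ℕ} (τ : RTree m) (A : Finset (Fin m)) (hA : Key τ A) (a b c d : Fin m)
    (h1 : a ∈ A) (h2 : b ∈ A) (h3 : c ∉ A) (h4 : d ∉ A) : τ.o c a b = τ.o d a b := by
  by_cases hab : a = b
  · subst hab
    rw [τ.o_zero₂₃, τ.o_zero₂₃]
  by_cases hcd : c = d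
  · rw [hcd]
  have hs := key_sep τ A hA a b c d h1 h2 hab h3 h4 hcd
  have hp := τ.planar (spl A) hs a b c d ⟨by rw [spl_apply]; tauto, by rw [spl_apply]; tauto,
    BT_spl_false A a c h1 h3⟩
  have e1 := τ.o_rot c a b
  have e2 := τ.o_rot d a b
  rw [← e1, ← e2, hp]

end SimplVol

end S_BT

section S_BE

/-!
# Module BE: existence and uniqueness of the plane rooted tree

Fix `ρ`; `a < b` means `τ.o ρ a b = 1`: a strict total order on the leaves `≠ ρ` (transitive: `o_coc` for `ρ, a, b, c`: `o a b c = o ρ b c - o ρ a c + o ρ a b`, all `±1`).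
EXISTENCE, by strong induction on `|A|` for keys `A` with `ρ ∉ A`, `A ≠ ∅`: a tree `t` with `t.lv = A`, `Rep τ t`. If `|A| = 1` it is a leaf. Let `|A| ≥ 2`, `a` = the smallest element of `A`.
`A₁` = a key `B` with `a ∈ B ⊊ A` of maximal cardinality (`{a}` is one; `Finset.exists_max_image` on `A.powerset.filter ..`), `A₂ = A \ A₁ ≠ ∅`, `b` = the smallest element of `A₂`, `B` = a key with `b ∈ B ⊊ A` of maximal cardinality.
(i) `B ∩ A₁ = ∅`: else `B`, `A₁` are nested (`key_nested`); `B ⊆ A₁` is wrong (`b`), so `A₁ ⊊ B ∋ a`, against the maximality of `A₁`.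
(ii) `B = A₂`: else let `d ∈ A₂ \ B`, so `a < b < d` (`a` smallest in `A`, `b` smallest in `A₂`). `τ.res` for `ρ, a, b, d`: a division `s ∈ τ.l` with `{ρ,a}|{b,d}`, `{ρ,b}|{a,d}` or `{ρ,d}|{a,b}`; let `C` be its side
without `ρ`; it is a key. `{ρ,b}|{a,d}` is impossible: planar for `Sep s a d ρ b`: `o a d ρ = o a d b`, but `o ρ a d = 1` (rotate) and `o a b d = 1` (from `o_coc`, `a<b<d`), so `o a d b = -1`.
`{ρ,a}|{b,d}`: `C ∋ b, d`, `a ∉ C`; `C`, `A` are nested (`b` common): `A ⊆ C` is wrong (`a`), so `C ⊊ A`; `C`, `B` nested (common `b`); `d ∈ C \ B`, so `B ⊊ C`, against the maximality of `B`.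
`{ρ,d}|{a,b}`: `C ∋ a, b`, `d ∉ C`, so `C ⊊ A` as before; `C`, `A₁` nested (common `a`), `b ∈ C \ A₁`, so `A₁ ⊊ C`: against the maximality of `A₁`.
(iii) for `x ∈ A₁`, `y ∈ A₂`: `x < y`. If `y < x`: `a < y < x` (`a ≠ y`); `x ≠ a`, so `A₁ ∋ a, x`, `∌ y, ρ`, `spl A₁ ∈ τ.l` (`key_sep`), `Sep a x ρ y`: `o a x ρ = o a x y`; `o a x ρ = o ρ a x = 1`, `o a x y = - o a y x = -1`. Contradiction.
By `key_o` for `A`, `o c x y = o ρ x y = 1` for all `c ∉ A`. The tree is `node t₁ t₂`.
`exists_rep`: `A = {ρ}ᶜ` is a key (its complement is a singleton), nonempty as `m ≥ 2`.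
UNIQUENESS, by induction on `t` (for all `t'`), `ρ ∉ t.lv`. If `t` is a leaf, `t'.lv` has one element, `t'` is a leaf (two disjoint nonempty sets have at least two elements). `t = node x y`, `t' = node x' y'`: claim `x.lv = x'.lv` (then `y.lv = y'.lv` by
disjointness, and induction). Both `x.lv < y.lv`, `x'.lv < y'.lv` (all elements). Suppose `u ∈ x.lv \ x'.lv`, so `u ∈ y'.lv`; then `x'.lv ⊆ x.lv`: if `w ∈ x'.lv`, `w ∈ y.lv`: `w < u < w`. So `x'.lv ⊊ x.lv`; choose `a ∈ x'.lv`, `b = u ∈ x.lv ∩ y'.lv`,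
`c ∈ y.lv ⊆ y'.lv` (`c ∉ x'.lv` as `x'.lv ⊆ x.lv`). `x.lv ∋ a, b`, `∌ c, ρ`: `Sep (spl x.lv) a b c ρ`; `y'.lv ∋ b, c`, `∌ a, ρ`: `Sep (spl y'.lv) b c a ρ`; both are in `τ.l` by `key_sep`; against `τ.excl` (`Sep s b a c ρ`, `Sep t b c a ρ`). Symmetrically if `x'.lv ⊄ x.lv`.
`key_of_subtree`: not needed.
-/

set_option autoImplicit false

open scoped BigOperators

namespace SimplVol

theorem be_zero {m : ℕ} (τ : RTree m) (ρ a : Fin m) : τ.o ρ a a = 0 := by
  have := τ.o_swap ρ a a
  omega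

theorem be_zero' {m : ℕ} (τ : RTree m) (ρ a : Fin m) : τ.o ρ ρ a = 0 := by
  rw [← τ.o_rot]
  rw [← τ.o_rot]
  exact be_zero τ a ρ

theorem be_zero'' {m : ℕ} (τ : RTree m) (ρ a : Fin m) : τ.o ρ a ρ = 0 := by
  have := τ.o_swap ρ ρ a
  rw [be_zero'] at this
  simpa using this

theorem be_le {m : ℕ} (τ : RTree m) (a b c : Fin m) : τ.o a b c ≤ 1 ∧ -1 ≤ τ.o a b c := by
  by_cases h1 : a = b
  · subst h1; rw [be_zero']; norm_num
  by_cases h2 : b = c
  · subst h2; rw [be_zero]; norm_num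
  by_cases h3 : a = c
  · subst h3; rw [be_zero'']; norm_num
  rcases τ.o_vals a b c h1 h2 h3 with h | h <;> rw [h] <;> norm_num

theorem be_ne {m : ℕ} (τ : RTree m) {a b c : Fin m} (h : τ.o a b c = 1) :
    a ≠ b ∧ b ≠ c ∧ a ≠ c := by
  refine ⟨?_, ?_, ?_⟩
  · rintro rfl; rw [be_zero'] at h; omega
  · rintro rfl; rw [be_zero] at h; omega
  · rintro rfl; rw [be_zero''] at h; omega

theorem be_asymm {m : ℕ} (τ : RTree m) {a b c : Fin m} (h : τ.o a b c = 1) : τ.o a c b = -1 := by
  rw [τ.o_swap, h]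

theorem be_trans {m : ℕ} (τ : RTree m) {ρ a b c : Fin m} (h1 : τ.o ρ a b = 1) (h2 : τ.o ρ b c = 1) :
    τ.o ρ a c = 1 ∧ τ.o a b c = 1 := by
  have h3 := τ.o_coc ρ a b c
  have h4 := be_le τ a b c
  have h5 := be_le τ ρ a c
  omega

theorem be_tot {m : ℕ} (τ : RTree m) {ρ a b : Fin m} (h1 : ρ ≠ a) (h2 : a ≠ b) (h3 : ρ ≠ b) :
    τ.o ρ a b = 1 ∨ τ.o ρ b a = 1 := by
  rcases τ.o_vals ρ a b h1 h2 h3 with h | h
  · exact Or.inl h
  · right
    rw [τ.o_swap, h]; norm_num

theorem be_min {m : ℕ} (τ : RTree m) (ρ : Fin m) (A : Finset (Fin m)) (hne : A.Nonempty) :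
    ρ ∉ A → ∃ a ∈ A, ∀ b ∈ A, b ≠ a → τ.o ρ a b = 1 := by
  induction hne using Finset.Nonempty.cons_induction with
  | singleton a =>
    intro _
    refine ⟨a, Finset.mem_singleton_self a, ?_⟩
    intro b hb hne
    exact absurd (Finset.mem_singleton.mp hb) hne
  | cons x s hx hs ih =>
    intro hρ
    simp only [Finset.mem_cons, not_or] at hρ
    obtain ⟨a, ha, hmin⟩ := ih hρ.2
    have hxa : x ≠ a := fun h => hx (h ▸ ha)
    have hρa : ρ ≠ a := fun h => hρ.2 (h ▸ ha)
    rcases be_tot τ hρ.1 hxa hρa with h | h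
    · refine ⟨x, Finset.mem_cons_self x s, ?_⟩
      intro b hb hbx
      rcases Finset.mem_cons.mp hb with hb | hb
      · exact absurd hb hbx
      · by_cases hba : b = a
        · rw [hba]; exact h
        · exact (be_trans τ h (hmin b hb hba)).1
    · refine ⟨a, Finset.mem_cons_of_mem ha, ?_⟩
      intro b hb hba
      rcases Finset.mem_cons.mp hb with hb | hb
      · rw [hb]; exact h
      · exact hmin b hb hba

theorem be_spl_false {m : ℕ} (A : Finset (Fin m)) (a b : Fin m) :
    spl A a b = false ↔ ¬ (a ∈ A ↔ b ∈ A) := by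
  rw [← spl_apply, Bool.not_eq_true]

theorem be_max {m : ℕ} (τ : RTree m) (A : Finset (Fin m)) (a : Fin m) (ha : a ∈ A) (h2 : A ≠ {a}) :
    ∃ B : Finset (Fin m), B ⊆ A ∧ a ∈ B ∧ B ≠ A ∧ Key τ B ∧
      ∀ C : Finset (Fin m), C ⊆ A → a ∈ C → C ≠ A → Key τ C → B ⊆ C → B = C := by
  classical
  obtain ⟨B, hB, hmax⟩ := Finset.exists_max_image
    (A.powerset.filter fun B => a ∈ B ∧ B ≠ A ∧ Key τ B) Finset.card
    ⟨{a}, by
      simp only [Finset.mem_filter, Finset.mem_powerset, Finset.singleton_subset_iff,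
        Finset.mem_singleton, true_and]
      exact ⟨ha, fun h => h2 h.symm, Or.inl ⟨a, rfl⟩⟩⟩
  simp only [Finset.mem_filter, Finset.mem_powerset] at hB hmax
  refine ⟨B, hB.1, hB.2.1, hB.2.2.1, hB.2.2.2, ?_⟩
  intro C h1 h3 h4 h5 h6
  exact Finset.eq_of_subset_of_card_le h6 (hmax C ⟨h1, h3, h4, h5⟩)

theorem exists_rep_key {m : ℕ} (τ : RTree m) (ρ : Fin m) (A : Finset (Fin m)) (hA : Key τ A)
    (hρ : ρ ∉ A) (hne : A.Nonempty) : ∃ t : BT m, t.lv = A ∧ Rep τ t := by
  classical
  induction A using Finset.strongInduction with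
  | H A ih =>
  obtain ⟨a, ha, hamin⟩ := be_min τ ρ A hne hρ
  by_cases hsing : A = {a}
  · exact ⟨BT.leaf a, by rw [hsing]; rfl, trivial⟩
  obtain ⟨A₁, hA₁A, haA₁, hA₁ne, hK₁, hmax₁⟩ := be_max τ A a ha hsing
  have hρ₁ : ρ ∉ A₁ := fun h => hρ (hA₁A h)
  have hA₁ss : A₁ ⊂ A := Finset.ssubset_iff_subset_ne.mpr ⟨hA₁A, hA₁ne⟩
  have hne₂ : (A \ A₁).Nonempty := by
    rw [Finset.sdiff_nonempty]
    intro h
    exact hA₁ne (Finset.Subset.antisymm hA₁A h)
  have hρ₂ : ρ ∉ A \ A₁ := fun h => hρ (Finset.mem_sdiff.mp h).1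
  obtain ⟨b, hb, hbmin⟩ := be_min τ ρ (A \ A₁) hne₂ hρ₂
  have hbA : b ∈ A := (Finset.mem_sdiff.mp hb).1
  have hbA₁ : b ∉ A₁ := (Finset.mem_sdiff.mp hb).2
  have hab' : a ≠ b := fun h => hbA₁ (h ▸ haA₁)
  have hab : τ.o ρ a b = 1 := hamin b hbA hab'.symm
  have hsing' : A ≠ {b} := fun h => hab' (Finset.mem_singleton.mp (h ▸ ha))
  obtain ⟨B, hBA, hbB, hBne, hKB, hmaxB⟩ := be_max τ A b hbA hsing'
  have hρB : ρ ∉ B := fun h => hρ (hBA h)
  have hdisj : ∀ x ∈ B, x ∉ A₁ := by
    intro x hx hx1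
    rcases key_nested τ B A₁ hKB hK₁ ρ x hρB hρ₁ hx hx1 with h | h
    · exact hbA₁ (h hbB)
    · have := hmax₁ B hBA (h haA₁) hBne hKB h
      exact hbA₁ (this ▸ hbB)
  have hBA₂ : B ⊆ A \ A₁ := fun x hx => Finset.mem_sdiff.mpr ⟨hBA hx, hdisj x hx⟩
  have hBeq : B = A \ A₁ := by
    apply Finset.Subset.antisymm hBA₂
    intro d hd
    by_contra hdB
    have hdA : d ∈ A := (Finset.mem_sdiff.mp hd).1
    have hdA₁ : d ∉ A₁ := (Finset.mem_sdiff.mp hd).2
    have hdb : d ≠ b := fun h => hdB (h ▸ hbB)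
    have hda : d ≠ a := fun h => hdA₁ (h ▸ haA₁)
    have hbd : τ.o ρ b d = 1 := hbmin d hd hdb
    obtain ⟨had, habd⟩ := be_trans τ hab hbd
    have hρa : ρ ≠ a := fun h => hρ (h ▸ ha)
    have hρb : ρ ≠ b := fun h => hρ (h ▸ hbA)
    have hρd : ρ ≠ d := fun h => hρ (h ▸ hdA)
    obtain ⟨s, hs, hsep⟩ := τ.res ρ a b d hρa hρb hρd hab' hda.symm hdb.symm
    obtain ⟨C, hρC, hCs, hKC, -, -⟩ := exists_key τ s hs ρ
    subst hCs
    rcases hsep with h | h | h
    · obtain ⟨h1, h2, h3⟩ := h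
      rw [spl_apply] at h1 h2
      rw [be_spl_false] at h3
      have haC : a ∉ C := fun h => hρC (h1.mpr h)
      have hbC : b ∈ C := by
        by_contra hcon
        exact h3 ⟨fun h => absurd h hρC, fun h => absurd h hcon⟩
      have hdC : d ∈ C := h2.mp hbC
      have hCA : C ⊆ A := by
        rcases key_nested τ C A hKC hA ρ b hρC hρ hbC hbA with h | h
        · exact h
        · exact absurd (h ha) haC
      have hCne : C ≠ A := fun h => haC (h ▸ ha)
      rcases key_nested τ C B hKC hKB ρ b hρC hρB hbC hbB with h | h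
      · exact hdB (h hdC)
      · have := hmaxB C hCA hbC hCne hKC h
        exact hdB (this ▸ hdC)
    · obtain ⟨h1, h2, h3⟩ := h
      have h1' := h1
      have h2' := h2
      rw [spl_apply] at h1 h2
      rw [be_spl_false] at h3
      have haC : a ∈ C := by
        by_contra hcon
        exact h3 ⟨fun h => absurd h hρC, fun h => absurd h hcon⟩
      have h3' : spl C a ρ = false := by
        rw [be_spl_false]
        intro h
        exact hρC (h.mp haC)
      have hpl := τ.planar _ hs a d ρ b ⟨h2', h1', h3'⟩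
      rw [τ.o_rot ρ a d, had, τ.o_swap a b d, habd] at hpl
      omega
    · obtain ⟨h1, h2, h3⟩ := h
      rw [spl_apply] at h1 h2
      rw [be_spl_false] at h3
      have hdC : d ∉ C := fun h => hρC (h1.mpr h)
      have haC : a ∈ C := by
        by_contra hcon
        exact h3 ⟨fun h => absurd h hρC, fun h => absurd h hcon⟩
      have hbC : b ∈ C := h2.mp haC
      have hCA : C ⊆ A := by
        rcases key_nested τ C A hKC hA ρ a hρC hρ haC ha with h | h
        · exact h
        · exact absurd (h hdA) hdC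
      have hCne : C ≠ A := fun h => hdC (h ▸ hdA)
      rcases key_nested τ C A₁ hKC hK₁ ρ a hρC hρ₁ haC haA₁ with h | h
      · exact hbA₁ (h hbC)
      · have := hmax₁ C hCA haC hCne hKC h
        exact hbA₁ (this ▸ hbC)
  have hord : ∀ x ∈ A₁, ∀ y ∈ A \ A₁, τ.o ρ x y = 1 := by
    intro x hx y hy
    have hyA : y ∈ A := (Finset.mem_sdiff.mp hy).1
    have hyA₁ : y ∉ A₁ := (Finset.mem_sdiff.mp hy).2
    have hxy : x ≠ y := fun h => hyA₁ (h ▸ hx)
    have hρx : ρ ≠ x := fun h => hρ₁ (h ▸ hx)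
    have hρy : ρ ≠ y := fun h => hρ (h ▸ hyA)
    rcases be_tot τ hρx hxy hρy with h | h
    · exact h
    exfalso
    have hya : y ≠ a := fun h => hyA₁ (h ▸ haA₁)
    have hay : τ.o ρ a y = 1 := hamin y hyA hya
    obtain ⟨hax, hayx⟩ := be_trans τ hay h
    have hxa : x ≠ a := fun hh => by
      rw [hh, be_zero] at hax
      omega
    have hsp : spl A₁ ∈ τ.l := key_sep τ A₁ hK₁ a x y ρ haA₁ hx hxa.symm hyA₁ hρ₁ hρy.symm
    have hsep : Sep (spl A₁) a x ρ y := by
      refine ⟨?_, ?_, ?_⟩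
      · rw [spl_apply]; exact ⟨fun _ => hx, fun _ => haA₁⟩
      · rw [spl_apply]; exact ⟨fun h => absurd h hρ₁, fun h => absurd h hyA₁⟩
      · rw [be_spl_false]; exact fun h => hρ₁ (h.mp haA₁)
    have hpl := τ.planar _ hsp a x ρ y hsep
    rw [τ.o_rot ρ a x, hax, τ.o_swap a y x, hayx] at hpl
    omega
  obtain ⟨t₁, ht₁, hr₁⟩ := ih A₁ hA₁ss hK₁ hρ₁ ⟨a, haA₁⟩
  have hss₂ : A \ A₁ ⊂ A := by
    refine Finset.ssubset_iff_subset_ne.mpr ⟨Finset.sdiff_subset, ?_⟩
    intro h
    have : a ∈ A \ A₁ := by rw [h]; exact ha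
    exact (Finset.mem_sdiff.mp this).2 haA₁
  obtain ⟨t₂, ht₂, hr₂⟩ := ih (A \ A₁) hss₂ (hBeq ▸ hKB) hρ₂ hne₂
  refine ⟨BT.node t₁ t₂, ?_, ?_⟩
  · show t₁.lv ∪ t₂.lv = A
    rw [ht₁, ht₂, Finset.union_sdiff_of_subset hA₁A]
  · show Disjoint t₁.lv t₂.lv ∧
      (∀ a ∈ t₁.lv, ∀ b ∈ t₂.lv, ∀ c, c ∉ t₁.lv → c ∉ t₂.lv → τ.o c a b = 1) ∧
      Key τ t₁.lv ∧ Key τ t₂.lv ∧ Rep τ t₁ ∧ Rep τ t₂
    rw [ht₁, ht₂]
    refine ⟨Finset.disjoint_sdiff, ?_, hK₁, hBeq ▸ hKB, hr₁, hr₂⟩
    intro x hx y hy c hc1 hc2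
    have hcA : c ∉ A := by
      intro h
      exact hc2 (Finset.mem_sdiff.mpr ⟨h, hc1⟩)
    rw [key_o τ A hA x y c ρ (hA₁A hx) (Finset.mem_sdiff.mp hy).1 hcA hρ]
    exact hord x hx y hy

theorem exists_rep {m : ℕ} (hm : 2 ≤ m) (τ : RTree m) (ρ : Fin m) :
    ∃ t : BT m, t.lv = {ρ}ᶜ ∧ Rep τ t := by
  apply exists_rep_key τ ρ
  · exact Or.inr (Or.inl ⟨ρ, compl_compl _⟩)
  · simp
  · rw [← Finset.card_pos, Finset.card_compl, Fintype.card_fin, Finset.card_singleton]
    omega

theorem be_unique_sub {m : ℕ} (τ : RTree m) (ρ : Fin m) (X Y X' Y' : Finset (Fin m))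
    (hY : Y.Nonempty) (hX' : X'.Nonempty)
    (hd : Disjoint X Y) (hd' : Disjoint X' Y')
    (ho : ∀ a ∈ X, ∀ b ∈ Y, τ.o ρ a b = 1) (ho' : ∀ a ∈ X', ∀ b ∈ Y', τ.o ρ a b = 1)
    (hK : Key τ X) (hK' : Key τ Y') (hu : X ∪ Y = X' ∪ Y') (hρ : ρ ∉ X ∪ Y) : X ⊆ X' := by
  classical
  intro u hu1
  by_contra hu2
  have huY' : u ∈ Y' := by
    have : u ∈ X' ∪ Y' := hu ▸ Finset.mem_union_left _ hu1
    rcases Finset.mem_union.mp this with h | h
    · exact absurd h hu2
    · exact h
  have hsub : X' ⊆ X := by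
    intro w hw
    have : w ∈ X ∪ Y := hu ▸ Finset.mem_union_left _ hw
    rcases Finset.mem_union.mp this with h | h
    · exact h
    · exfalso
      have h1 := ho u hu1 w h
      have h2 := ho' w hw u huY'
      have h3 := be_asymm τ h1
      omega
  obtain ⟨a, ha⟩ := hX'
  obtain ⟨c, hc⟩ := hY
  have haX := hsub ha
  have hcX : c ∉ X := fun h => (Finset.disjoint_left.mp hd) h hc
  have hcY' : c ∈ Y' := by
    have : c ∈ X' ∪ Y' := hu ▸ Finset.mem_union_right _ hc
    rcases Finset.mem_union.mp this with h | h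
    · exact absurd (hsub h) hcX
    · exact h
  have hau : u ≠ a := fun h => hu2 (h ▸ ha)
  have hρX : ρ ∉ X := fun h => hρ (Finset.mem_union_left _ h)
  have hρY' : ρ ∉ Y' := fun h => hρ (hu ▸ Finset.mem_union_right _ h)
  have hcρ : c ≠ ρ := fun h => hρ (h ▸ Finset.mem_union_right _ hc)
  have haρ : a ≠ ρ := fun h => hρX (h ▸ haX)
  have haY' : a ∉ Y' := fun h => (Finset.disjoint_left.mp hd') ha h
  have huc : u ≠ c := fun h => hcX (h ▸ hu1)
  have hs := key_sep τ X hK u a c ρ hu1 haX hau hcX hρX hcρ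
  have ht := key_sep τ Y' hK' u c a ρ huY' hcY' huc haY' hρY' haρ
  refine τ.excl _ hs _ ht u a c ρ ⟨?_, ?_, ?_⟩ ⟨?_, ?_, ?_⟩
  · rw [spl_apply]; exact ⟨fun _ => haX, fun _ => hu1⟩
  · rw [spl_apply]; exact ⟨fun h => absurd h hcX, fun h => absurd h hρX⟩
  · rw [be_spl_false]; exact fun h => hcX (h.mp hu1)
  · rw [spl_apply]; exact ⟨fun _ => hcY', fun _ => huY'⟩
  · rw [spl_apply]; exact ⟨fun h => absurd h haY', fun h => absurd h hρY'⟩
  · rw [be_spl_false]; exact fun h => haY' (h.mp huY')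

theorem be_node_ne {m : ℕ} (τ : RTree m) (x y : BT m) (i : Fin m) (h : Rep τ (BT.node x y)) :
    x.lv ∪ y.lv ≠ {i} := by
  intro he
  obtain ⟨a, ha⟩ := x.lv_nonempty
  obtain ⟨b, hb⟩ := y.lv_nonempty
  have h1 : a = i := Finset.mem_singleton.mp (he ▸ Finset.mem_union_left _ ha)
  have h2 : b = i := Finset.mem_singleton.mp (he ▸ Finset.mem_union_right _ hb)
  rw [h1] at ha
  rw [h2] at hb
  exact (Finset.disjoint_left.mp h.1) ha hb

theorem rep_unique {m : ℕ} (τ : RTree m) (ρ : Fin m) (t t' : BT m) (h : Rep τ t) (h' : Rep τ t')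
    (hl : t.lv = t'.lv) (hρ : ρ ∉ t.lv) : t = t' := by
  classical
  induction t generalizing t' with
  | leaf i =>
    cases t' with
    | leaf j =>
      have : ({i} : Finset (Fin m)) = {j} := hl
      rw [Finset.singleton_inj.mp this]
    | node x' y' => exact absurd hl.symm (be_node_ne τ x' y' i h')
  | node x y ihx ihy =>
    cases t' with
    | leaf j => exact absurd hl (be_node_ne τ x y j h)
    | node x' y' =>
      have hl' : x.lv ∪ y.lv = x'.lv ∪ y'.lv := hl
      have hρ' : ρ ∉ x.lv ∪ y.lv := hρ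
      have hρ'' : ρ ∉ x'.lv ∪ y'.lv := hl' ▸ hρ'
      obtain ⟨hd, ho, hKx, hKy, hrx, hry⟩ := h
      obtain ⟨hd', ho', hKx', hKy', hrx', hry'⟩ := h'
      have hρ1 : ρ ∉ x.lv := fun h => hρ' (Finset.mem_union_left _ h)
      have hρ2 : ρ ∉ y.lv := fun h => hρ' (Finset.mem_union_right _ h)
      have hρ3 : ρ ∉ x'.lv := fun h => hρ'' (Finset.mem_union_left _ h)
      have hρ4 : ρ ∉ y'.lv := fun h => hρ'' (Finset.mem_union_right _ h)
      have hO : ∀ a ∈ x.lv, ∀ b ∈ y.lv, τ.o ρ a b = 1 := fun a ha b hb => ho a ha b hb ρ hρ1 hρ2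
      have hO' : ∀ a ∈ x'.lv, ∀ b ∈ y'.lv, τ.o ρ a b = 1 :=
        fun a ha b hb => ho' a ha b hb ρ hρ3 hρ4
      have h1 : x.lv = x'.lv := Finset.Subset.antisymm
        (be_unique_sub τ ρ _ _ _ _ y.lv_nonempty x'.lv_nonempty hd hd' hO hO' hKx hKy' hl' hρ')
        (be_unique_sub τ ρ _ _ _ _ y'.lv_nonempty x.lv_nonempty hd' hd hO' hO hKx' hKy hl'.symm
          hρ'')
      have h2 : y.lv = y'.lv := by
        have e1 : y.lv = (x.lv ∪ y.lv) \ x.lv := by
          rw [Finset.union_sdiff_left]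
          exact (Finset.sdiff_eq_self_of_disjoint hd.symm).symm
        have e2 : y'.lv = (x'.lv ∪ y'.lv) \ x'.lv := by
          rw [Finset.union_sdiff_left]
          exact (Finset.sdiff_eq_self_of_disjoint hd'.symm).symm
        rw [e1, e2, hl', h1]
      rw [ihx x' hrx hrx' h1 hρ1, ihy y' hry hry' h2 hρ2]

end SimplVol

end S_BE

section S_GR

/-!
# Module GR: words act on the upper half plane

`gL : z ↦ z/(z+1)`, `gR : z ↦ z + 1`, `gS : z ↦ -1/z`. As matrices: `L S R = S`, `R S L = S`, `R S R = L`, `L S L = -R` (`Subtype.ext`, `Matrix.ext`, `Fin` cases, `Matrix.mul_apply`, `norm_num`; or `decide`-like `simp` with `Matrix.of_mul..`).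
`-g` acts on `ℍ` as `g` (`ModularGroup.SL_neg_smul` or `UpperHalfPlane.SLneg_smul`; or from `UpperHalfPlane.coe_specialLinearGroup_apply`). `gS • I = I`.
`rho_gS_rv`: induction on `w`: `rho (t :: w) * gS * rho (rv (t :: w)) = rho [t] * (rho w * gS * rho (rv w)) * rho [!t] = rho [t] * gS * rho [!t] = gS`.
-/

set_option autoImplicit false

open scoped BigOperators UpperHalfPlane MatrixGroups

namespace SimplVol

/-- The left turn. -/
noncomputable def gL : SL(2, ℝ) := ⟨!![1, 0; 1, 1], by simp [Matrix.det_fin_two_of]⟩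

/-- The right turn. -/
noncomputable def gR : SL(2, ℝ) := ⟨!![1, 1; 0, 1], by simp [Matrix.det_fin_two_of]⟩

/-- The half turn. -/
noncomputable def gS : SL(2, ℝ) := ⟨!![0, -1; 1, 0], by simp [Matrix.det_fin_two_of]⟩

/-- The group element of a letter: `false` is the left turn, `true` the right turn. -/
noncomputable def gT (t : Bool) : SL(2, ℝ) := if t then gR else gL

/-- The group element of a word. -/
noncomputable def rho (w : Wd) : SL(2, ℝ) := (w.map gT).prod

theorem rho_nil : rho [] = 1 := rfl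

theorem rho_cons (t : Bool) (w : Wd) : rho (t :: w) = gT t * rho w := by
  simp [rho]

theorem rho_append (v w : Wd) : rho (v ++ w) = rho v * rho w := by
  simp [rho]

theorem gT_gS_gT (t : Bool) : gT t * gS * gT (!t) = gS := by
  apply Subtype.ext
  cases t
  · show (!![1, 0; 1, 1] : Matrix (Fin 2) (Fin 2) ℝ) * !![0, -1; 1, 0] * !![1, 1; 0, 1] =
      !![0, -1; 1, 0]
    rw [Matrix.mul_fin_two, Matrix.mul_fin_two]
    norm_num
  · show (!![1, 1; 0, 1] : Matrix (Fin 2) (Fin 2) ℝ) * !![0, -1; 1, 0] * !![1, 0; 1, 1] =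
      !![0, -1; 1, 0]
    rw [Matrix.mul_fin_two, Matrix.mul_fin_two]
    norm_num

/-- `-g` acts as `g` -/
theorem GR_neg (g h : SL(2, ℝ)) (e : (g : Matrix (Fin 2) (Fin 2) ℝ) = -(h : Matrix (Fin 2) (Fin 2) ℝ))
    (z : ℍ) : g • z = h • z := by
  apply UpperHalfPlane.ext
  rw [UpperHalfPlane.coe_specialLinearGroup_apply, UpperHalfPlane.coe_specialLinearGroup_apply]
  have h1 : ∀ i j, g i j = -(h i j) := fun i j => congrFun (congrFun e i) j
  rw [h1, h1, h1, h1]
  simp only [map_neg, Complex.ofReal_neg]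
  rw [← neg_div_neg_eq]
  congr 1
  · ring
  · ring

/-- A turn, seen from the other branch. -/
theorem turn_smul (t : Bool) (z : ℍ) : (gT t * gS * gT t) • z = gT (!t) • z := by
  cases t
  · refine GR_neg _ _ ?_ z
    show (!![1, 0; 1, 1] : Matrix (Fin 2) (Fin 2) ℝ) * !![0, -1; 1, 0] * !![1, 0; 1, 1] =
      -!![1, 1; 0, 1]
    rw [Matrix.mul_fin_two, Matrix.mul_fin_two]
    ext i j
    fin_cases i <;> fin_cases j <;> norm_num
  · have h1 : gT true * gS * gT true = gT (!true) := by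
      apply Subtype.ext
      show (!![1, 1; 0, 1] : Matrix (Fin 2) (Fin 2) ℝ) * !![0, -1; 1, 0] * !![1, 1; 0, 1] =
        !![1, 0; 1, 1]
      rw [Matrix.mul_fin_two, Matrix.mul_fin_two]
      norm_num
    rw [h1]

theorem gS_smul_I : gS • UpperHalfPlane.I = UpperHalfPlane.I := by
  apply UpperHalfPlane.ext
  rw [UpperHalfPlane.coe_specialLinearGroup_apply]
  have h00 : gS 0 0 = 0 := rfl
  have h01 : gS 0 1 = -1 := rfl
  have h10 : gS 1 0 = 1 := rfl
  have h11 : gS 1 1 = 0 := rfl
  rw [h00, h01, h10, h11]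
  simp

theorem gS_gS_smul (z : ℍ) : gS • gS • z = z := by
  rw [smul_smul]
  have h1 : (gS * gS) • z = (1 : SL(2, ℝ)) • z := by
    refine GR_neg _ _ ?_ z
    show (!![0, -1; 1, 0] : Matrix (Fin 2) (Fin 2) ℝ) * !![0, -1; 1, 0] = -1
    rw [Matrix.mul_fin_two]
    ext i j
    fin_cases i <;> fin_cases j <;> norm_num
  rw [h1, one_smul]

theorem rho_gS_rv (w : Wd) : rho w * gS * rho (rv w) = gS := by
  induction w with
  | nil => rw [rv_nil, rho_nil, one_mul, mul_one]
  | cons t w ih =>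
    rw [rv_cons, rho_append, rho_cons t w, rho_cons (!t) [], rho_nil, mul_one]
    have h1 : gT t * rho w * gS * (rho (rv w) * gT !t) = gT t * (rho w * gS * rho (rv w)) * gT !t := by
      group
    rw [h1, ih, gT_gS_gT]

end SimplVol

end S_GR

section S_CF

/-!
# Module CF: configurations, change of the root

`t.wd v i` is the word of the path from the root to the leaf `i`, with the words `v` of the edges; `conf t ρ v` is the configuration: the root `ρ` at `i`, the leaf `i` at `rho (t.wd v i) • i`.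
`rot ρ' t s`: the tree seen from the leaf `ρ'` of `t`, where `s` is the rest seen from the root edge of `t`.
* `rot_spec` (induction on `t`, for all `s`): assume `Rep τ t`, `Rep τ s`, `Key τ t.lv`, `s.lv = t.lvᶜ`, `ρ' ∈ t.lv`; then `Rep τ (rot ρ' t s)` and `(rot ρ' t s).lv = {ρ'}ᶜ`. `t = leaf`: `ρ' = i`, `rot = s`. `t = node x y`, `ρ' ∈ x.lv`: `s' = node y s` satisfies
  the hypotheses for `x`: `s'.lv = y.lv ∪ (x.lv ∪ y.lv)ᶜ = x.lvᶜ` (`Disjoint x.lv y.lv`), `Key τ y.lv`, `Key τ s.lv` (`key_compl`), and for `b ∈ y.lv`, `c ∈ s.lv`, `a ∉ y.lv`, `a ∉ s.lv`, so `a ∈ x.lv`: `o a b c = 1` from `o c a b = 1` (`o_rot`).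
  `ρ' ∈ y.lv` (then `ρ' ∉ x.lv`): `s' = node s x`, for `c ∈ s.lv`, `a ∈ x.lv`, `b ∈ y.lv`: `o b c a = 1`.
* `wd_congr`: if `v`, `v'` agree on all `spl B`, `B ⊆ t.lv`, then `t.wd v i = t.wd v' i`. `wd_eq`: `t.wd v i = v (spl t.lv) ++ t.wd0 v i`.
-/

set_option autoImplicit false

open scoped BigOperators UpperHalfPlane MatrixGroups

namespace SimplVol

/-- The word of the path from the root to a leaf. -/
def BT.wd {m : ℕ} (v : Split m → Wd) : BT m → Fin m → Wd
  | .leaf j, _ => v (spl {j})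
  | .node x y, i => v (spl (x.lv ∪ y.lv)) ++
      (if i ∈ x.lv then false :: x.wd v i else true :: y.wd v i)

/-- The same without the word of the root edge. -/
def BT.wd0 {m : ℕ} (v : Split m → Wd) : BT m → Fin m → Wd
  | .leaf _, _ => []
  | .node x y, i => if i ∈ x.lv then false :: x.wd v i else true :: y.wd v i

/-- The configuration of points. -/
noncomputable def conf {m : ℕ} (t : BT m) (ρ : Fin m) (v : Split m → Wd) (i : Fin m) : ℍ :=
  if i = ρ then UpperHalfPlane.I else rho (t.wd v i) • UpperHalfPlane.I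

/-- The tree seen from the leaf `ρ'` of `t`. -/
def rot {m : ℕ} (ρ' : Fin m) : BT m → BT m → BT m
  | .leaf _, s => s
  | .node x y, s => if ρ' ∈ x.lv then rot ρ' x (.node y s) else rot ρ' y (.node s x)

theorem wd_eq {m : ℕ} (v : Split m → Wd) (t : BT m) (i : Fin m) :
    t.wd v i = v (spl t.lv) ++ t.wd0 v i := by
  cases t with
  | leaf j => simp [BT.wd, BT.wd0, BT.lv]
  | node x y => rfl

theorem wd_congr {m : ℕ} (v v' : Split m → Wd) (t : BT m)
    (h : ∀ B : Finset (Fin m), B ⊆ t.lv → v (spl B) = v' (spl B)) (i : Fin m) :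
    t.wd v i = t.wd v' i := by
  induction t with
  | leaf j => exact h {j} (Finset.Subset.refl _)
  | node x y hx hy =>
    rw [BT.wd, BT.wd, h (x.lv ∪ y.lv) (Finset.Subset.refl _),
      hx (fun B hB => h B (hB.trans Finset.subset_union_left)),
      hy (fun B hB => h B (hB.trans Finset.subset_union_right))]

theorem rot_spec {m : ℕ} (τ : RTree m) (ρ' : Fin m) (t s : BT m) (ht : Rep τ t) (hs : Rep τ s)
    (hk : Key τ t.lv) (hl : s.lv = t.lvᶜ) (hρ : ρ' ∈ t.lv) :
    Rep τ (rot ρ' t s) ∧ (rot ρ' t s).lv = {ρ'}ᶜ := by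
  induction t generalizing s with
  | leaf i =>
    have h1 : ρ' = i := Finset.mem_singleton.1 hρ
    subst h1
    exact ⟨hs, hl⟩
  | node x y hx hy =>
    obtain ⟨hd, ho, kx, ky, rx, ry⟩ := ht
    have hd' := Finset.disjoint_left.1 hd
    have hl' : ∀ c, c ∈ s.lv ↔ (c ∉ x.lv ∧ c ∉ y.lv) := by
      intro c
      rw [hl]
      simp [BT.lv]
    have ks : Key τ s.lv := by
      rw [hl]
      exact (key_compl τ _).2 hk
    have hρ' : ρ' ∈ x.lv ∨ ρ' ∈ y.lv := Finset.mem_union.1 hρ
    by_cases h : ρ' ∈ x.lv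
    · rw [rot, if_pos h]
      refine hx (.node y s) rx ⟨?_, ?_, ky, ks, ry, hs⟩ kx ?_ h
      · rw [Finset.disjoint_left]
        intro c hc hc2
        exact ((hl' c).1 hc2).2 hc
      · intro b hb c hc a ha1 ha2
        have hax : a ∈ x.lv := by
          by_contra h2
          exact ha2 ((hl' a).2 ⟨h2, ha1⟩)
        have h3 := ho a hax b hb c ((hl' c).1 hc).1 ((hl' c).1 hc).2
        rw [← τ.o_rot] at h3
        exact h3
      · ext c
        have h1 := hl' c
        have h2 := @hd' c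
        simp only [BT.lv, Finset.mem_union, Finset.mem_compl]
        tauto
    · have hy' : ρ' ∈ y.lv := hρ'.resolve_left h
      rw [rot, if_neg h]
      refine hy (.node s x) ry ⟨?_, ?_, ks, kx, hs, rx⟩ ky ?_ hy'
      · rw [Finset.disjoint_left]
        intro c hc hc2
        exact ((hl' c).1 hc).1 hc2
      · intro c hc a ha b hb1 hb2
        have hby : b ∈ y.lv := by
          by_contra h2
          exact hb1 ((hl' b).2 ⟨hb2, h2⟩)
        have h3 := ho a ha b hby c ((hl' c).1 hc).1 ((hl' c).1 hc).2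
        rw [← τ.o_rot, ← τ.o_rot] at h3
        exact h3
      · ext c
        have h1 := hl' c
        have h2 := @hd' c
        simp only [BT.lv, Finset.mem_union, Finset.mem_compl]
        tauto

end SimplVol

end S_CF

section S_BD

/-!
# Module BD: deletion of a leaf from a plane rooted tree

`t.wf u i` is the word of the path to `i` when the edge above the subtree with leaf set `B` has the word `u B`; `t.wd v = t.wf (v ∘ spl)`.
`resF ι A = {j | ι j ∈ A}`.
* `key_res`: if `Key τ A` and `resF ι A`, its complement are nonempty then `Key (τ.pull ι) (resF ι A)`: if `A = {i}` or `Aᶜ = {i}` then `resF ι A` (or its complement) is a singleton; if `spl A ∈ τ.l`: `resS ι (spl A) = spl (resF ι A)`; if it is `NT` it is in `(τ.pull ι).l`, else one of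
  the two classes has at most one element.
* `coincide` : two pairs `(insert c B, B)`, `(insert c D, D)` of keys with `B, D` nonempty, `c, ρ ∉ B, D`, `c ≠ ρ`, are equal: `insert c B`, `insert c D` are nested (`key_nested`, common element `c`), say `insert c B ⊆ insert c D`, so `B ⊆ D`; if `d ∈ D \ B`, `b ∈ B`: `D ∋ b, d`, `∌ c, ρ`; `insert c B ∋ b, c`, `∌ d, ρ`:
  `Sep (spl D) b d c ρ`, `Sep (spl (insert c B)) b c d ρ`, both in `τ.l` by `key_sep`, against `τ.excl`.
* `delete` (induction on `t`): Let `Rep τ t`, `ρ ∉ t.lv`, `c ∈ t.lv`, `t ≠ leaf c`, `Key τ t.lv`, `c = c₀` with `ι = Fin.succAboveEmb c`. There are `A` with `c ∈ A ⊆ t.lv`, `A.erase c` nonempty, `Key τ A`, `Key τ (A.erase c)`, `b : Bool`, and `t' : BT k` with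
  `Rep (τ.pull ι) t'`, `t'.lv = resF ι t.lv`, and for all `u`, `i` with `ι i ∈ t.lv`: `t'.wf (delU τ c A b u) i = t.wf u (ι i)`, where `delU τ c A b u B' = let B := B'.map ι; if B = A.erase c then u A ++ [b] ++ u B else if Key τ (insert c B) then u (insert c B) else u B`.
  Case `t = node (leaf c) y`: `A = t.lv`, `b = true` (`y` is the right child), `t' =` the tree `y` relabelled (`BT.relabel`: a tree `t'` with `t'.map ι = y` exists as `c ∉ y.lv`; `exists_unmap`). For the subtrees `B` of `y` other than `y` itself, `insert c B` is not a key (`coincide`: `(A, A.erase c)`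
  is such a pair and `B` is a key, `B ≠ A.erase c`), so the words are `u B`; for `y` itself the word is `u A ++ [true] ++ u y.lv`. `t.wf u (ι i) = u A ++ true :: y.wf u (ι i)`.
  Case `t = node x (leaf c)`: the same with `b = false`.
  Case `t = node x y`, `c ∈ x.lv`, `x ≠ leaf c`: induction hypothesis for `x` gives `A ⊆ x.lv`, `b`, `x'`; `y'` with `y'.map ι = y`; `t' = node x' y'`. The word of `t'` for `B' = t'.lv`, `B = t.lv.erase c`: `B ≠ A.erase c` (`B` contains the elements of `y.lv`), `insert c B = t.lv` is a key, so it is `u t.lv`. Subtrees of `y'`: `B ⊆ y.lv`,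
  `B ≠ A.erase c`, `insert c B` is not a key (`coincide`), so `u B`. Order condition of `Rep` for `t'`: the points outside come from points outside. Case `c ∈ y.lv`, `y ≠ leaf c`: the same.
-/

set_option autoImplicit false

open scoped BigOperators

namespace SimplVol

/-- The word of the path to a leaf for words given for sets. -/
def BT.wf {m : ℕ} (u : Finset (Fin m) → Wd) : BT m → Fin m → Wd
  | .leaf j, _ => u {j}
  | .node x y, i => u (x.lv ∪ y.lv) ++
      (if i ∈ x.lv then false :: x.wf u i else true :: y.wf u i)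

theorem wd_eq_wf {m : ℕ} (v : Split m → Wd) (t : BT m) (i : Fin m) :
    t.wd v i = t.wf (fun B => v (spl B)) i := by
  induction t with
  | leaf j => rfl
  | node x y hx hy => simp only [BT.wd, BT.wf, hx, hy]

/-- Relabelling the leaves. -/
def BT.mapL {k m : ℕ} (ι : Fin k ↪ Fin m) : BT k → BT m
  | .leaf i => .leaf (ι i)
  | .node x y => .node (x.mapL ι) (y.mapL ι)

theorem lv_mapL {k m : ℕ} (ι : Fin k ↪ Fin m) (t : BT k) : (t.mapL ι).lv = t.lv.map ι := by
  induction t with
  | leaf j => simp [BT.mapL, BT.lv]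
  | node x y hx hy => simp only [BT.mapL, BT.lv, hx, hy, Finset.map_union]

theorem exists_unmap {k m : ℕ} (ι : Fin k ↪ Fin m) (t : BT m) (h : ∀ i ∈ t.lv, ∃ j, ι j = i) :
    ∃ t' : BT k, t'.mapL ι = t := by
  induction t with
  | leaf i =>
    obtain ⟨j, hj⟩ := h i (by simp [BT.lv])
    exact ⟨.leaf j, by simp [BT.mapL, hj]⟩
  | node x y hx hy =>
    obtain ⟨x', hx'⟩ := hx fun i hi => h i (Finset.mem_union_left _ hi)
    obtain ⟨y', hy'⟩ := hy fun i hi => h i (Finset.mem_union_right _ hi)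
    exact ⟨.node x' y', by simp [BT.mapL, hx', hy']⟩

theorem wf_mapL {k m : ℕ} (ι : Fin k ↪ Fin m) (t : BT k) (u : Finset (Fin m) → Wd) (i : Fin k) :
    (t.mapL ι).wf u (ι i) = t.wf (fun B => u (B.map ι)) i := by
  induction t with
  | leaf j => simp [BT.mapL, BT.wf]
  | node x y hx hy =>
    simp only [BT.mapL, BT.wf, hx, hy, lv_mapL, Finset.map_union, Finset.mem_map']

/-- The restriction of a set of leaves. -/
def resF {k m : ℕ} (ι : Fin k ↪ Fin m) (A : Finset (Fin m)) : Finset (Fin k) :=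
  Finset.univ.filter fun j => ι j ∈ A

theorem BD_mem_resF {k m : ℕ} (ι : Fin k ↪ Fin m) (A : Finset (Fin m)) (j : Fin k) :
    j ∈ resF ι A ↔ ι j ∈ A := by
  simp [resF]

theorem resS_spl {k m : ℕ} (ι : Fin k ↪ Fin m) (A : Finset (Fin m)) :
    resS ι (spl A) = spl (resF ι A) := by
  funext a b
  simp only [resS, spl, BD_mem_resF]

theorem BD_sep {m : ℕ} {A : Finset (Fin m)} {a b c d : Fin m} (ha : a ∈ A) (hb : b ∈ A)
    (hc : c ∉ A) (hd : d ∉ A) : Sep (spl A) a b c d := by
  refine ⟨?_, ?_, ?_⟩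
  · simp [spl, ha, hb]
  · simp [spl, hc, hd]
  · simp [spl, ha, hc]

theorem BD_single {m : ℕ} {C : Finset (Fin m)} (h : C.Nonempty)
    (h1 : ¬ ∃ a ∈ C, ∃ b ∈ C, a ≠ b) : ∃ j, C = {j} := by
  obtain ⟨j, hj⟩ := h
  refine ⟨j, Finset.eq_singleton_iff_unique_mem.mpr ⟨hj, fun x hx => ?_⟩⟩
  by_contra hne
  exact h1 ⟨x, hx, j, hj, hne⟩

theorem key_res {k m : ℕ} (τ : RTree m) (ι : Fin k ↪ Fin m) (A : Finset (Fin m)) (h : Key τ A)
    (h1 : (resF ι A).Nonempty) (h2 : (resF ι A)ᶜ.Nonempty) : Key (τ.pull ι) (resF ι A) := by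
  by_cases hC : ∃ a ∈ resF ι A, ∃ b ∈ resF ι A, a ≠ b
  · by_cases hD : ∃ a ∈ (resF ι A)ᶜ, ∃ b ∈ (resF ι A)ᶜ, a ≠ b
    · obtain ⟨a, ha, b, hb, hab⟩ := hC
      obtain ⟨c, hc, d, hd, hcd⟩ := hD
      rw [Finset.mem_compl] at hc hd
      have hnt : NT (spl (resF ι A)) := ⟨a, b, c, d, hab, hcd, BD_sep ha hb hc hd⟩
      rw [BD_mem_resF] at ha hb hc hd
      have hs : spl A ∈ τ.l := key_sep τ A h (ι a) (ι b) (ι c) (ι d) ha hb
        (fun h => hab (ι.injective h)) hc hd (fun h => hcd (ι.injective h))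
      right
      right
      change spl (resF ι A) ∈ ((τ.l.map (resS ι)).filter fun s => decide (NT s)).dedup
      rw [List.mem_dedup, List.mem_filter, List.mem_map]
      exact ⟨⟨spl A, hs, resS_spl ι A⟩, decide_eq_true hnt⟩
    · right
      left
      exact BD_single h2 hD
  · left
    exact BD_single h1 hC

theorem BD_coin {m : ℕ} (τ : RTree m) (c ρ : Fin m) (hc : c ≠ ρ) (B D : Finset (Fin m))
    (hB : B.Nonempty) (h1 : c ∉ B) (h2 : ρ ∉ B) (h3 : c ∉ D) (h4 : ρ ∉ D)
    (k2 : Key τ (insert c B)) (k3 : Key τ D) (hs : insert c B ⊆ insert c D) : B = D := by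
  have hBD : B ⊆ D := by
    intro x hx
    have h5 := hs (Finset.mem_insert_of_mem hx)
    rcases Finset.mem_insert.mp h5 with h6 | h6
    · exact absurd (h6 ▸ hx) h1
    · exact h6
  by_contra hne
  obtain ⟨d, hd, hdB⟩ : ∃ d ∈ D, d ∉ B := by
    by_contra hcon
    push Not at hcon
    exact hne (Finset.Subset.antisymm hBD hcon)
  obtain ⟨b, hb⟩ := hB
  have hbd : b ≠ d := fun h => hdB (h ▸ hb)
  have hbc : b ≠ c := fun h => h1 (h ▸ hb)
  have hdc : d ≠ c := fun h => h3 (h ▸ hd)
  have hdρ : d ≠ ρ := fun h => h4 (h ▸ hd)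
  have hd' : d ∉ insert c B := by
    rw [Finset.mem_insert]
    push Not
    exact ⟨hdc, hdB⟩
  have hρ' : ρ ∉ insert c B := by
    rw [Finset.mem_insert]
    push Not
    exact ⟨fun h => hc h.symm, h2⟩
  have hb' : b ∈ insert c B := Finset.mem_insert_of_mem hb
  have hc' : c ∈ insert c B := Finset.mem_insert_self _ _
  have s1 : spl D ∈ τ.l := key_sep τ D k3 b d c ρ (hBD hb) hd hbd h3 h4 hc
  have s2 : spl (insert c B) ∈ τ.l := key_sep τ _ k2 b c d ρ hb' hc' hbc hd' hρ' hdρ
  exact τ.excl _ s1 _ s2 b d c ρ (BD_sep (hBD hb) hd h3 h4) (BD_sep hb' hc' hd' hρ')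

theorem coincide {m : ℕ} (τ : RTree m) (c ρ : Fin m) (hc : c ≠ ρ) (B D : Finset (Fin m))
    (hB : B.Nonempty) (hD : D.Nonempty) (h1 : c ∉ B) (h2 : ρ ∉ B) (h3 : c ∉ D) (h4 : ρ ∉ D)
    (k1 : Key τ B) (k2 : Key τ (insert c B)) (k3 : Key τ D) (k4 : Key τ (insert c D)) : B = D := by
  have hr : ∀ C : Finset (Fin m), ρ ∉ C → ρ ∉ insert c C := by
    intro C hC
    rw [Finset.mem_insert]
    push Not
    exact ⟨fun h => hc h.symm, hC⟩
  rcases key_nested τ _ _ k2 k4 ρ c (hr B h2) (hr D h4) (Finset.mem_insert_self _ _)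
    (Finset.mem_insert_self _ _) with h | h
  · exact BD_coin τ c ρ hc B D hB h1 h2 h3 h4 k2 k3 h
  · exact (BD_coin τ c ρ hc D B hD h3 h4 h1 h2 k4 k1 h).symm

open Classical in
/-- The words after the deletion of the leaf `c`. -/
noncomputable def delU {k : ℕ} (τ : RTree (k + 1)) (c : Fin (k + 1)) (A : Finset (Fin (k + 1)))
    (b : Bool) (u : Finset (Fin (k + 1)) → Wd) (B' : Finset (Fin k)) : Wd :=
  if B'.map (Fin.succAboveEmb c) = A.erase c then u A ++ [b] ++ u (A.erase c)
  else if Key τ (insert c (B'.map (Fin.succAboveEmb c))) then u (insert c (B'.map (Fin.succAboveEmb c)))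
  else u (B'.map (Fin.succAboveEmb c))

open Classical in
/-- The same on sets of leaves of the large tree. -/
noncomputable def BD_D {k : ℕ} (τ : RTree (k + 1)) (c : Fin (k + 1)) (A : Finset (Fin (k + 1)))
    (b : Bool) (u : Finset (Fin (k + 1)) → Wd) (B : Finset (Fin (k + 1))) : Wd :=
  if B = A.erase c then u A ++ [b] ++ u (A.erase c)
  else if Key τ (insert c B) then u (insert c B) else u B

theorem BD_wf_del {k : ℕ} (τ : RTree (k + 1)) (c : Fin (k + 1)) (A : Finset (Fin (k + 1)))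
    (b : Bool) (u : Finset (Fin (k + 1)) → Wd) (t' : BT k) (i : Fin k) :
    t'.wf (delU τ c A b u) i =
      (t'.mapL (Fin.succAboveEmb c)).wf (BD_D τ c A b u) (Fin.succAboveEmb c i) := by
  rw [wf_mapL]
  rfl

/-- The word without the word of the root edge. -/
def BD_wf0 {m : ℕ} (u : Finset (Fin m) → Wd) : BT m → Fin m → Wd
  | .leaf _, _ => []
  | .node x y, i => if i ∈ x.lv then false :: x.wf u i else true :: y.wf u i

theorem BD_wf_eq {m : ℕ} (u : Finset (Fin m) → Wd) (t : BT m) (i : Fin m) :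
    t.wf u i = u t.lv ++ BD_wf0 u t i := by
  cases t with
  | leaf j => simp [BT.wf, BT.lv, BD_wf0]
  | node x y => rfl

theorem BD_congr {m : ℕ} (τ : RTree m) (u u' : Finset (Fin m) → Wd) (t : BT m) (i : Fin m)
    (ht : Rep τ t) (hk : Key τ t.lv)
    (h : ∀ B : Finset (Fin m), B ⊆ t.lv → B.Nonempty → Key τ B → u B = u' B) :
    t.wf u i = t.wf u' i := by
  induction t with
  | leaf j => exact h {j} (by simp [BT.lv]) (Finset.singleton_nonempty j) (Or.inl ⟨j, rfl⟩)
  | node x y hx hy =>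
    obtain ⟨h1, h2, h3, h4, h5, h6⟩ := ht
    have e1 := hx h5 h3 fun B hB => h B (hB.trans Finset.subset_union_left)
    have e2 := hy h6 h4 fun B hB => h B (hB.trans Finset.subset_union_right)
    have e3 := h _ (Finset.Subset.refl _) (BT.lv_nonempty (.node x y)) hk
    simp only [BT.wf, e1, e2]
    rw [show u (x.lv ∪ y.lv) = u' (x.lv ∪ y.lv) from e3]

theorem BD_congr0 {m : ℕ} (τ : RTree m) (u u' : Finset (Fin m) → Wd) (t : BT m) (i : Fin m)
    (ht : Rep τ t)
    (h : ∀ B : Finset (Fin m), B ⊆ t.lv → B ≠ t.lv → B.Nonempty → Key τ B → u B = u' B) :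
    BD_wf0 u t i = BD_wf0 u' t i := by
  cases t with
  | leaf j => rfl
  | node x y =>
    obtain ⟨h1, h2, h3, h4, h5, h6⟩ := ht
    have e1 := BD_congr τ u u' x i h5 h3 fun B hB hn hkB => by
      refine h B (hB.trans Finset.subset_union_left) ?_ hn hkB
      intro he
      obtain ⟨z, hz⟩ := y.lv_nonempty
      have hz2 : z ∈ B := by
        rw [he]
        exact Finset.mem_union_right _ hz
      exact Finset.disjoint_left.mp h1 (hB hz2) hz
    have e2 := BD_congr τ u u' y i h6 h4 fun B hB hn hkB => by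
      refine h B (hB.trans Finset.subset_union_right) ?_ hn hkB
      intro he
      obtain ⟨z, hz⟩ := x.lv_nonempty
      have hz2 : z ∈ B := by
        rw [he]
        exact Finset.mem_union_left _ hz
      exact Finset.disjoint_left.mp h1 hz (hB hz2)
    simp only [BD_wf0, e1, e2]

theorem BD_resF_map {k m : ℕ} (ι : Fin k ↪ Fin m) (A : Finset (Fin k)) :
    resF ι (A.map ι) = A := by
  ext j
  rw [BD_mem_resF, Finset.mem_map']

theorem BD_rep {k m : ℕ} (τ : RTree m) (ι : Fin k ↪ Fin m) (t : BT k) (h : Rep τ (t.mapL ι)) :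
    Rep (τ.pull ι) t := by
  induction t with
  | leaf j => trivial
  | node x y hx hy =>
    obtain ⟨h1, h2, h3, h4, h5, h6⟩ := h
    rw [lv_mapL] at h1 h2 h3 h4
    rw [lv_mapL] at h1 h2
    have hd : Disjoint x.lv y.lv := (Finset.disjoint_map ι).mp h1
    have kx := key_res τ ι _ h3
    have ky := key_res τ ι _ h4
    rw [BD_resF_map] at kx ky
    refine ⟨hd, ?_, kx x.lv_nonempty ?_, ky y.lv_nonempty ?_, hx h5, hy h6⟩
    · intro a ha b hb c hc1 hc2
      exact h2 (ι a) ((Finset.mem_map' ι).mpr ha) (ι b) ((Finset.mem_map' ι).mpr hb) (ι c)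
        (fun h => hc1 ((Finset.mem_map' ι).mp h)) (fun h => hc2 ((Finset.mem_map' ι).mp h))
    · obtain ⟨z, hz⟩ := y.lv_nonempty
      exact ⟨z, Finset.mem_compl.mpr (Finset.disjoint_right.mp hd hz)⟩
    · obtain ⟨z, hz⟩ := x.lv_nonempty
      exact ⟨z, Finset.mem_compl.mpr (Finset.disjoint_left.mp hd hz)⟩

theorem BD_unmap {k : ℕ} (c : Fin (k + 1)) (t : BT (k + 1)) (h : c ∉ t.lv) :
    ∃ t' : BT k, t'.mapL (Fin.succAboveEmb c) = t := by
  apply exists_unmap
  intro i hi
  have hic : i ≠ c := fun he => h (he ▸ hi)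
  exact Fin.exists_succAbove_eq hic

theorem BD_lv_unmap {k : ℕ} (c : Fin (k + 1)) (t : BT (k + 1)) (t' : BT k)
    (h : t'.mapL (Fin.succAboveEmb c) = t) : t'.lv = resF (Fin.succAboveEmb c) t.lv := by
  rw [← h, lv_mapL, BD_resF_map]

theorem BD_ne {k : ℕ} (c : Fin (k + 1)) (i : Fin k) : Fin.succAboveEmb c i ≠ c :=
  Fin.succAbove_ne c i

/-- The value of `D` on a key that does not come from `A`. -/
theorem BD_D_other {k : ℕ} (τ : RTree (k + 1)) (c ρ : Fin (k + 1)) (hc : c ≠ ρ)
    (A : Finset (Fin (k + 1))) (b : Bool) (u : Finset (Fin (k + 1)) → Wd)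
    (B : Finset (Fin (k + 1))) (hcA : c ∈ A) (hρA : ρ ∉ A) (hA : (A.erase c).Nonempty)
    (kA : Key τ A) (kE : Key τ (A.erase c)) (hB : B.Nonempty) (hcB : c ∉ B) (hρB : ρ ∉ B)
    (kB : Key τ B) (hne : B ≠ A.erase c) : BD_D τ c A b u B = u B := by
  unfold BD_D
  rw [if_neg hne, if_neg]
  intro hk
  apply hne
  apply coincide τ c ρ hc B (A.erase c) hB hA hcB hρB (Finset.notMem_erase c A)
    (fun h => hρA (Finset.mem_of_mem_erase h)) kB hk kE
  rw [Finset.insert_erase hcA]
  exact kA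

/-- The case of a child which is the leaf `c`. -/
theorem BD_child {k : ℕ} (τ : RTree (k + 1)) (c ρ : Fin (k + 1)) (hc : c ≠ ρ) (y : BT (k + 1))
    (hy : Rep τ y) (ky : Key τ y.lv) (hcy : c ∉ y.lv) (hρy : ρ ∉ y.lv)
    (kA : Key τ (insert c y.lv)) (b : Bool) :
    ∃ t' : BT k, Rep (τ.pull (Fin.succAboveEmb c)) t' ∧
      t'.lv = resF (Fin.succAboveEmb c) (insert c y.lv) ∧
      ∀ (u : Finset (Fin (k + 1)) → Wd) (i : Fin k),
        t'.wf (delU τ c (insert c y.lv) b u) i =
          u (insert c y.lv) ++ (b :: y.wf u (c.succAbove i)) := by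
  obtain ⟨y', hy'⟩ := BD_unmap c y hcy
  have he : (insert c y.lv).erase c = y.lv := Finset.erase_insert hcy
  refine ⟨y', BD_rep τ _ y' (by rw [hy']; exact hy), ?_, ?_⟩
  · rw [BD_lv_unmap c y y' hy']
    ext j
    rw [BD_mem_resF, BD_mem_resF, Finset.mem_insert]
    constructor
    · exact fun h => Or.inr h
    · rintro (h | h)
      · exact absurd h (BD_ne c j)
      · exact h
  · intro u i
    rw [BD_wf_del, hy', BD_wf_eq]
    have h1 : BD_D τ c (insert c y.lv) b u y.lv = u (insert c y.lv) ++ [b] ++ u y.lv := by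
      unfold BD_D
      rw [if_pos he.symm, he]
    have h2 : BD_wf0 (BD_D τ c (insert c y.lv) b u) y (Fin.succAboveEmb c i) =
        BD_wf0 u y (Fin.succAboveEmb c i) := by
      apply BD_congr0 τ _ _ y _ hy
      intro B hB hne hn kB
      refine BD_D_other τ c ρ hc _ b u B (Finset.mem_insert_self _ _) ?_ ?_ kA ?_ hn
        (fun h => hcy (hB h)) (fun h => hρy (hB h)) kB ?_
      · rw [Finset.mem_insert]
        push Not
        exact ⟨fun h => hc h.symm, hρy⟩
      · rw [he]
        exact y.lv_nonempty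
      · rw [he]
        exact ky
      · rw [he]
        exact hne
    rw [h1, h2]
    have h3 : y.wf u (c.succAbove i) = u y.lv ++ BD_wf0 u y (Fin.succAboveEmb c i) :=
      BD_wf_eq u y _
    rw [h3]
    simp

/-- The words in a subtree which does not contain `c`. -/
theorem BD_away {k : ℕ} (τ : RTree (k + 1)) (c ρ : Fin (k + 1)) (hc : c ≠ ρ) (x y : BT (k + 1))
    (y' : BT k) (hy : Rep τ y) (ky : Key τ y.lv) (hcy : c ∉ y.lv) (hρx : ρ ∉ x.lv)
    (hρy : ρ ∉ y.lv) (hd : Disjoint x.lv y.lv) (hy' : y'.mapL (Fin.succAboveEmb c) = y)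
    (A : Finset (Fin (k + 1))) (b : Bool) (hcA : c ∈ A) (hAx : A ⊆ x.lv)
    (hA : (A.erase c).Nonempty) (kA : Key τ A) (kE : Key τ (A.erase c))
    (u : Finset (Fin (k + 1)) → Wd) (i : Fin k) :
    y'.wf (delU τ c A b u) i = y.wf u (c.succAbove i) := by
  rw [BD_wf_del, hy']
  apply BD_congr τ _ _ y _ hy ky
  intro B hB hn kB
  apply BD_D_other τ c ρ hc A b u B hcA (fun h => hρx (hAx h)) hA kA kE hn
    (fun h => hcy (hB h)) (fun h => hρy (hB h)) kB
  intro he
  obtain ⟨z, hz⟩ := hn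
  have h1 : z ∈ A.erase c := he ▸ hz
  exact Finset.disjoint_left.mp hd (hAx (Finset.mem_of_mem_erase h1)) (hB hz)

/-- The word of the root edge. -/
theorem BD_root {k : ℕ} (τ : RTree (k + 1)) (c : Fin (k + 1)) (L : Finset (Fin (k + 1)))
    (A : Finset (Fin (k + 1))) (b : Bool) (hcL : c ∈ L) (kL : Key τ L)
    (hne : ∃ z ∈ L, z ≠ c ∧ z ∉ A) (u : Finset (Fin (k + 1)) → Wd) :
    delU τ c A b u (resF (Fin.succAboveEmb c) L) = u L := by
  have h1 : (resF (Fin.succAboveEmb c) L).map (Fin.succAboveEmb c) = L.erase c := by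
    ext z
    rw [Finset.mem_map, Finset.mem_erase]
    constructor
    · rintro ⟨j, hj, rfl⟩
      exact ⟨BD_ne c j, (BD_mem_resF _ _ _).mp hj⟩
    · rintro ⟨hz, hzL⟩
      obtain ⟨j, hj⟩ := Fin.exists_succAbove_eq hz
      refine ⟨j, (BD_mem_resF _ _ _).mpr ?_, hj⟩
      change c.succAbove j ∈ L
      rw [hj]
      exact hzL
  unfold delU
  rw [h1, if_neg, Finset.insert_erase hcL, if_pos kL]
  intro he
  obtain ⟨z, hz, hzc, hzA⟩ := hne
  have h2 : z ∈ L.erase c := Finset.mem_erase.mpr ⟨hzc, hz⟩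
  rw [he] at h2
  exact hzA (Finset.mem_of_mem_erase h2)

theorem BD_resF_union {k m : ℕ} (ι : Fin k ↪ Fin m) (A B : Finset (Fin m)) :
    resF ι (A ∪ B) = resF ι A ∪ resF ι B := by
  ext j
  simp only [BD_mem_resF, Finset.mem_union]

theorem BD_resF_disj {k m : ℕ} (ι : Fin k ↪ Fin m) (A B : Finset (Fin m)) (h : Disjoint A B) :
    Disjoint (resF ι A) (resF ι B) := by
  rw [Finset.disjoint_left] at h ⊢
  intro j hj hj'
  rw [BD_mem_resF] at hj hj'
  exact h hj hj'

/-- `Rep` for a node of the tree after the deletion. -/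
theorem BD_node {k m : ℕ} (τ : RTree m) (ι : Fin k ↪ Fin m) (x y : BT m) (x' y' : BT k)
    (h : Rep τ (.node x y)) (hx : x'.lv = resF ι x.lv) (hy : y'.lv = resF ι y.lv)
    (rx : Rep (τ.pull ι) x') (ry : Rep (τ.pull ι) y') : Rep (τ.pull ι) (.node x' y') := by
  obtain ⟨h1, h2, h3, h4, h5, h6⟩ := h
  have hd : Disjoint x'.lv y'.lv := by
    rw [hx, hy]
    exact BD_resF_disj ι _ _ h1
  have kx := key_res τ ι _ h3
  have ky := key_res τ ι _ h4
  rw [← hx] at kx
  rw [← hy] at ky
  refine ⟨hd, ?_, kx x'.lv_nonempty ?_, ky y'.lv_nonempty ?_, rx, ry⟩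
  · intro a ha b hb c hc1 hc2
    rw [hx, BD_mem_resF] at ha hc1
    rw [hy, BD_mem_resF] at hb hc2
    exact h2 (ι a) ha (ι b) hb (ι c) hc1 hc2
  · obtain ⟨z, hz⟩ := y'.lv_nonempty
    exact ⟨z, Finset.mem_compl.mpr (Finset.disjoint_right.mp hd hz)⟩
  · obtain ⟨z, hz⟩ := x'.lv_nonempty
    exact ⟨z, Finset.mem_compl.mpr (Finset.disjoint_left.mp hd hz)⟩

theorem delete {k : ℕ} (τ : RTree (k + 1)) (c ρ : Fin (k + 1)) (hc : c ≠ ρ) (t : BT (k + 1))
    (ht : Rep τ t) (hk : Key τ t.lv) (hρ : ρ ∉ t.lv) (hct : c ∈ t.lv) (hne : t ≠ .leaf c) :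
    ∃ (A : Finset (Fin (k + 1))) (b : Bool) (t' : BT k), c ∈ A ∧ A ⊆ t.lv ∧
      (A.erase c).Nonempty ∧ Key τ A ∧ Key τ (A.erase c) ∧
      Rep (τ.pull (Fin.succAboveEmb c)) t' ∧ t'.lv = resF (Fin.succAboveEmb c) t.lv ∧
      ∀ (u : Finset (Fin (k + 1)) → Wd) (i : Fin k), c.succAbove i ∈ t.lv →
        t'.wf (delU τ c A b u) i = t.wf u (c.succAbove i) := by
  induction t with
  | leaf j =>
    exfalso
    have h1 : c = j := by simpa [BT.lv] using hct
    exact hne (by rw [h1])
  | node x y ihx ihy =>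
    have hrep := ht
    obtain ⟨h1, h2, h3, h4, h5, h6⟩ := ht
    have hρx : ρ ∉ x.lv := fun h => hρ (Finset.mem_union_left _ h)
    have hρy : ρ ∉ y.lv := fun h => hρ (Finset.mem_union_right _ h)
    have hlv : (BT.node x y).lv = x.lv ∪ y.lv := rfl
    rcases Finset.mem_union.mp hct with hcx | hcy
    · have hcy : c ∉ y.lv := Finset.disjoint_left.mp h1 hcx
      by_cases hx : x = .leaf c
      · -- the left child is `c`
        have hA : (BT.node x y).lv = insert c y.lv := by
          rw [hlv, hx]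
          ext z
          simp [BT.lv]
        rw [hA] at hk
        obtain ⟨t', r1, r2, r3⟩ := BD_child τ c ρ hc y h6 h4 hcy hρy hk true
        refine ⟨insert c y.lv, true, t', Finset.mem_insert_self _ _, by rw [hA], ?_, hk, ?_, r1,
          by rw [hA]; exact r2, ?_⟩
        · rw [Finset.erase_insert hcy]
          exact y.lv_nonempty
        · rw [Finset.erase_insert hcy]
          exact h4
        · intro u i hi
          rw [r3]
          have h7 : (BT.node x y).wf u (c.succAbove i) = u (x.lv ∪ y.lv) ++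
            (if c.succAbove i ∈ x.lv then false :: x.wf u (c.succAbove i)
              else true :: y.wf u (c.succAbove i)) := rfl
          rw [h7, ← hlv, hA, if_neg]
          rw [hx]
          simp only [BT.lv, Finset.mem_singleton]
          exact Fin.succAbove_ne c i
      · obtain ⟨A, b, x', a1, a2, a3, a4, a5, a6, a7, a8⟩ := ihx h5 h3 hρx hcx hx
        obtain ⟨y', hy'⟩ := BD_unmap c y hcy
        have hyl := BD_lv_unmap c y y' hy'
        refine ⟨A, b, .node x' y', a1, a2.trans Finset.subset_union_left, a3, a4, a5, ?_, ?_, ?_⟩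
        · exact BD_node τ _ x y x' y' hrep a7 hyl a6 (BD_rep τ _ y' (by rw [hy']; exact h6))
        · rw [hlv, BD_resF_union, ← a7, ← hyl]
          rfl
        · intro u i hi
          have h7 : (BT.node x y).wf u (c.succAbove i) = u (x.lv ∪ y.lv) ++
            (if c.succAbove i ∈ x.lv then false :: x.wf u (c.succAbove i)
              else true :: y.wf u (c.succAbove i)) := rfl
          have h8 : (BT.node x' y').wf (delU τ c A b u) i = delU τ c A b u (x'.lv ∪ y'.lv) ++
            (if i ∈ x'.lv then false :: x'.wf (delU τ c A b u) i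
              else true :: y'.wf (delU τ c A b u) i) := rfl
          have h9 : delU τ c A b u (x'.lv ∪ y'.lv) = u (x.lv ∪ y.lv) := by
            rw [a7, hyl, ← BD_resF_union]
            apply BD_root τ c _ A b hct hk
            obtain ⟨z, hz⟩ := y.lv_nonempty
            exact ⟨z, Finset.mem_union_right _ hz, fun h => hcy (h ▸ hz),
              fun h => Finset.disjoint_left.mp h1 (a2 h) hz⟩
          have h10 : i ∈ x'.lv ↔ c.succAbove i ∈ x.lv := by
            rw [a7, BD_mem_resF]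
            rfl
          rw [h7, h8, h9]
          congr 1
          by_cases h11 : c.succAbove i ∈ x.lv
          · rw [if_pos h11, if_pos (h10.mpr h11), a8 u i h11]
          · rw [if_neg h11, if_neg (fun h => h11 (h10.mp h)),
              BD_away τ c ρ hc x y y' h6 h4 hcy hρx hρy h1 hy' A b a1 a2 a3 a4 a5 u i]
    · have hcx : c ∉ x.lv := Finset.disjoint_right.mp h1 hcy
      by_cases hy : y = .leaf c
      · have hA : (BT.node x y).lv = insert c x.lv := by
          rw [hlv, hy]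
          ext z
          simp only [BT.lv, Finset.mem_union, Finset.mem_singleton, Finset.mem_insert]
          exact Or.comm
        rw [hA] at hk
        obtain ⟨t', r1, r2, r3⟩ := BD_child τ c ρ hc x h5 h3 hcx hρx hk false
        refine ⟨insert c x.lv, false, t', Finset.mem_insert_self _ _, by rw [hA], ?_, hk, ?_, r1,
          by rw [hA]; exact r2, ?_⟩
        · rw [Finset.erase_insert hcx]
          exact x.lv_nonempty
        · rw [Finset.erase_insert hcx]
          exact h3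
        · intro u i hi
          rw [r3]
          have h7 : (BT.node x y).wf u (c.succAbove i) = u (x.lv ∪ y.lv) ++
            (if c.succAbove i ∈ x.lv then false :: x.wf u (c.succAbove i)
              else true :: y.wf u (c.succAbove i)) := rfl
          rw [h7, ← hlv, hA, if_pos]
          rw [hA] at hi
          rcases Finset.mem_insert.mp hi with h | h
          · exact absurd h (Fin.succAbove_ne c i)
          · exact h
      · obtain ⟨A, b, y', a1, a2, a3, a4, a5, a6, a7, a8⟩ := ihy h6 h4 hρy hcy hy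
        obtain ⟨x', hx'⟩ := BD_unmap c x hcx
        have hxl := BD_lv_unmap c x x' hx'
        refine ⟨A, b, .node x' y', a1, a2.trans Finset.subset_union_right, a3, a4, a5, ?_, ?_, ?_⟩
        · exact BD_node τ _ x y x' y' hrep hxl a7 (BD_rep τ _ x' (by rw [hx']; exact h5)) a6
        · rw [hlv, BD_resF_union, ← a7, ← hxl]
          rfl
        · intro u i hi
          have h7 : (BT.node x y).wf u (c.succAbove i) = u (x.lv ∪ y.lv) ++
            (if c.succAbove i ∈ x.lv then false :: x.wf u (c.succAbove i)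
              else true :: y.wf u (c.succAbove i)) := rfl
          have h8 : (BT.node x' y').wf (delU τ c A b u) i = delU τ c A b u (x'.lv ∪ y'.lv) ++
            (if i ∈ x'.lv then false :: x'.wf (delU τ c A b u) i
              else true :: y'.wf (delU τ c A b u) i) := rfl
          have h9 : delU τ c A b u (x'.lv ∪ y'.lv) = u (x.lv ∪ y.lv) := by
            rw [a7, hxl, ← BD_resF_union]
            apply BD_root τ c _ A b hct hk
            obtain ⟨z, hz⟩ := x.lv_nonempty
            exact ⟨z, Finset.mem_union_left _ hz, fun h => hcx (h ▸ hz),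
              fun h => Finset.disjoint_left.mp h1 hz (a2 h)⟩
          have h10 : i ∈ x'.lv ↔ c.succAbove i ∈ x.lv := by
            rw [hxl, BD_mem_resF]
            rfl
          rw [h7, h8, h9]
          congr 1
          by_cases h11 : c.succAbove i ∈ x.lv
          · rw [if_pos h11, if_pos (h10.mpr h11),
              BD_away τ c ρ hc y x x' h5 h3 hcx hρy hρx h1.symm hx' A b a1 a2 a3 a4 a5 u i]
          · have h12 : c.succAbove i ∈ y.lv := by
              rcases Finset.mem_union.mp hi with h | h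
              · exact absurd h h11
              · exact h
            rw [if_neg h11, if_neg (fun h => h11 (h10.mp h)), a8 u i h12]

end SimplVol

end S_BD

section S_FL

/-!
# Module FL: the list of all edges

`FL τ π`: the divisions given by all edges, internal ones first (in the order of their ranks), then the leaf edges in the order `π` (a list of all leaves); divisions with only one class are dropped and of equal ones the last is kept.
* `mem_FL`: `s ∈ FL τ π ↔ ∃ A, Key τ A ∧ A.Nonempty ∧ Aᶜ.Nonempty ∧ spl A = s` (for `π` containing all leaves): a member of `τ.l` is `spl A` for a key (`exists_key`), `spl {i}`: `A = {i}`; conversely `A = {i}`, `Aᶜ = {i}` (`spl_compl`), `spl A ∈ τ.l`; `ntr (spl A)` iff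
  `A`, `Aᶜ` are nonempty.
* `dedup_map_filter` (general): `((L.filter p).dedup.map r).filter q |>.dedup = ((L.map r).filter q).dedup` if `q (r a) → p a`; (module TB has similar lemmas for `pull_trans`; prove what is needed here independently).
* `FL_pull`: both sides are `(L'.filter ntr).dedup` of lists: the left side is `((τ.l.map r ++ π.map (fun i => r (spl {i}))).filter ntr).dedup`, `r = resS ι`. For `i = ι j`: `r (spl {i}) = spl {j}`; for `i` not in the range of `ι`: `r (spl {i})` has only one class and is dropped.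
  So it is `((τ.l.map r ++ π'.map (fun j => spl {j})).filter ntr).dedup` with `π' = π.filterMap (partialInv ι)`. The right side is the same with `((τ.l.map r).filter NT).dedup` in place of `τ.l.map r`. An element `s = r t`, `t ∈ τ.l`, with `ntr s` but not
  `NT s` has two classes (`τ.split`), one of which is a singleton `{j}`, so `s = spl {j}`, which occurs in `π'.map ..` (all `j` are in `π'`), so it may be dropped in the first part: (lemma: `(L₁ ++ L₂).dedup = (L₁.filter (· ∉ L₂)).dedup ++ L₂.dedup`, `List.dedup_append`, induction on `L₁`).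
-/

set_option autoImplicit false

open scoped BigOperators

namespace SimplVol

/-- The division has more than one class. -/
def ntr {m : ℕ} (s : Split m) : Bool := !(decide (∀ a b, s a b = true))

/-- The list of the divisions of all edges. -/
def FL {m : ℕ} (τ : RTree m) (π : List (Fin m)) : List (Split m) :=
  ((τ.l ++ π.map fun i => spl {i}).filter ntr).dedup

theorem FL_nodup {m : ℕ} (τ : RTree m) (π : List (Fin m)) : (FL τ π).Nodup := List.nodup_dedup _

theorem FL_ntr {m : ℕ} (s : Split m) : ntr s = true ↔ ∃ a b, s a b = false := by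
  unfold ntr
  rw [Bool.not_eq_true', decide_eq_false_iff_not]
  push Not
  simp

theorem ntr_spl {m : ℕ} (A : Finset (Fin m)) : ntr (spl A) = true ↔ A.Nonempty ∧ Aᶜ.Nonempty := by
  rw [FL_ntr]
  constructor
  · rintro ⟨a, b, h⟩
    have h1 : ¬ (a ∈ A ↔ b ∈ A) := by
      intro h2
      rw [(spl_apply A a b).2 h2] at h
      exact Bool.noConfusion h
    by_cases ha : a ∈ A
    · have hb : b ∉ A := fun hb => h1 ⟨fun _ => hb, fun _ => ha⟩
      exact ⟨⟨a, ha⟩, ⟨b, Finset.mem_compl.2 hb⟩⟩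
    · have hb : b ∈ A := by
        by_contra hb
        exact h1 ⟨fun h => absurd h ha, fun h => absurd h hb⟩
      exact ⟨⟨b, hb⟩, ⟨a, Finset.mem_compl.2 ha⟩⟩
  · rintro ⟨⟨a, ha⟩, ⟨b, hb⟩⟩
    refine ⟨a, b, ?_⟩
    rw [Finset.mem_compl] at hb
    rw [Bool.eq_false_iff]
    intro h
    exact hb (((spl_apply A a b).1 h).1 ha)

theorem mem_FL {m : ℕ} (τ : RTree m) (π : List (Fin m)) (hπ : ∀ i, i ∈ π) (s : Split m) :
    s ∈ FL τ π ↔ ∃ A, Key τ A ∧ A.Nonempty ∧ Aᶜ.Nonempty ∧ spl A = s := by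
  unfold FL
  rw [List.mem_dedup, List.mem_filter, List.mem_append, List.mem_map]
  constructor
  · rintro ⟨h | ⟨i, _, rfl⟩, h2⟩
    · obtain ⟨ρ, b, _⟩ := (FL_ntr s).1 h2
      obtain ⟨A, _, hA2, hA3, hA4, hA5⟩ := exists_key τ s h ρ
      exact ⟨A, hA3, Finset.card_pos.1 (by omega), Finset.card_pos.1 (by omega), hA2⟩
    · have h3 := (ntr_spl {i}).1 h2
      exact ⟨{i}, Or.inl ⟨i, rfl⟩, h3.1, h3.2, rfl⟩
  · rintro ⟨A, hA, h1, h2, rfl⟩
    refine ⟨?_, (ntr_spl A).2 ⟨h1, h2⟩⟩
    rcases hA with ⟨i, rfl⟩ | ⟨i, hi⟩ | h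
    · exact Or.inr ⟨i, hπ i, rfl⟩
    · refine Or.inr ⟨i, hπ i, ?_⟩
      show spl {i} = spl A
      rw [← hi, spl_compl]
    · exact Or.inl h

theorem FL_cc {α : Type} [DecidableEq α] (b : α) {X Y : List α} (h : X.dedup = Y.dedup) :
    (b :: X).dedup = (b :: Y).dedup := by
  have hm : b ∈ X ↔ b ∈ Y := by rw [← List.mem_dedup, h, List.mem_dedup]
  by_cases hb : b ∈ X
  · rw [List.dedup_cons_of_mem hb, List.dedup_cons_of_mem (hm.1 hb), h]
  · rw [List.dedup_cons_of_notMem hb, List.dedup_cons_of_notMem (fun h => hb (hm.2 h)), h]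

theorem FL_dmf {α β : Type} [DecidableEq α] [DecidableEq β] (L : List α) (r : α → β) (q : β → Bool) :
    ((L.dedup.map r).filter q).dedup = ((L.map r).filter q).dedup := by
  induction L with
  | nil => rfl
  | cons a L ih =>
    by_cases ha : a ∈ L
    · rw [List.dedup_cons_of_mem ha, List.map_cons, List.filter_cons]
      by_cases hq : q (r a) = true
      · rw [if_pos hq, List.dedup_cons_of_mem, ih]
        exact List.mem_filter.2 ⟨List.mem_map_of_mem ha, hq⟩
      · rw [if_neg hq, ih]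
    · rw [List.dedup_cons_of_notMem ha, List.map_cons, List.map_cons, List.filter_cons, List.filter_cons]
      by_cases hq : q (r a) = true
      · rw [if_pos hq, if_pos hq]
        exact FL_cc _ ih
      · rw [if_neg hq, if_neg hq, ih]

theorem FL_fil {α β : Type} (L : List α) (r : α → β) (p : α → Bool) (q : β → Bool)
    (h : ∀ a, q (r a) = true → p a = true) :
    ((L.filter p).map r).filter q = (L.map r).filter q := by
  induction L with
  | nil => rfl
  | cons a L ih =>
    rw [List.filter_cons, List.map_cons, List.filter_cons (x := r a)]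
    by_cases hp : p a = true
    · rw [if_pos hp, List.map_cons, List.filter_cons, ih]
    · have hq : ¬ q (r a) = true := fun hq => hp (h a hq)
      rw [if_neg hp, if_neg hq, ih]

theorem FL_app {α : Type} [DecidableEq α] (X M : List α) : (X.dedup ++ M).dedup = (X ++ M).dedup := by
  induction X with
  | nil => rfl
  | cons a X ih =>
    by_cases ha : a ∈ X
    · rw [List.dedup_cons_of_mem ha, List.cons_append, List.dedup_cons_of_mem (List.mem_append_left _ ha), ih]
    · rw [List.dedup_cons_of_notMem ha, List.cons_append, List.cons_append]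
      exact FL_cc _ ih

theorem FL_two {α : Type} [DecidableEq α] (A M : List α) (p q : α → Bool)
    (hqp : ∀ x, q x = true → p x = true)
    (hM : ∀ x ∈ A, p x = true → ¬ q x = true → x ∈ M) :
    (A.filter p ++ M).dedup = (A.filter q ++ M).dedup := by
  induction A with
  | nil => rfl
  | cons a A ih =>
    have ih' := ih (fun x hx => hM x (List.mem_cons_of_mem _ hx))
    rw [List.filter_cons, List.filter_cons]
    by_cases hq : q a = true
    · rw [if_pos hq, if_pos (hqp a hq), List.cons_append, List.cons_append]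
      exact FL_cc _ ih'
    · by_cases hp : p a = true
      · rw [if_pos hp, if_neg hq, List.cons_append, List.dedup_cons_of_mem, ih']
        exact List.mem_append_right _ (hM a List.mem_cons_self hp hq)
      · rw [if_neg hp, if_neg hq, ih']

theorem FL_NT {m : ℕ} (s : Split m) (h : NT s) : ntr s = true := by
  obtain ⟨a, b, c, d, _, _, h1⟩ := h
  exact (FL_ntr s).2 ⟨a, c, h1.2.2⟩

theorem FL_leaf {k m : ℕ} (ι : Fin k ↪ Fin m) (π : List (Fin m)) :
    (π.map (fun i => resS ι (spl {i}))).filter ntr =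
      ((π.filterMap (Function.partialInv ι)).map (fun j => spl {j})).filter ntr := by
  induction π with
  | nil => rfl
  | cons i π ih =>
    by_cases hi : ∃ j, ι j = i
    · obtain ⟨j, rfl⟩ := hi
      have h1 : Function.partialInv ι (ι j) = some j := Function.partialInv_left ι.injective j
      have h2 : resS ι (spl {ι j}) = spl {j} := by
        funext a b
        rw [Bool.eq_iff_iff, spl_apply]
        unfold resS
        rw [spl_apply, Finset.mem_singleton, Finset.mem_singleton, Finset.mem_singleton,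
          Finset.mem_singleton, ι.injective.eq_iff, ι.injective.eq_iff]
      rw [List.map_cons, List.filterMap_cons_some h1, List.map_cons, List.filter_cons, List.filter_cons,
        ih, h2]
    · have h1 : Function.partialInv ι i = none := by
        unfold Function.partialInv
        rw [dif_neg hi]
      have h2 : ¬ ntr (resS ι (spl {i})) = true := by
        rw [FL_ntr]
        rintro ⟨a, b, h⟩
        unfold resS at h
        have h3 : spl {i} (ι a) (ι b) = true := by
          rw [spl_apply, Finset.mem_singleton, Finset.mem_singleton]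
          exact ⟨fun h => absurd ⟨a, h⟩ hi, fun h => absurd ⟨b, h⟩ hi⟩
        rw [h3] at h
        exact Bool.noConfusion h
      rw [List.map_cons, List.filterMap_cons_none h1, List.filter_cons, if_neg h2, ih]

theorem FL_one {m : ℕ} (s : Split m) (g : Fin m → Bool) (hg : ∀ a b, s a b = (g a == g b))
    (h1 : ntr s = true) (h2 : ¬ NT s) : ∃ j, s = spl {j} := by
  have key : ∀ (v : Bool) (j : Fin m), g j = v → (∀ a, g a = v → a = j) → s = spl {j} := by
    intro v j hj h
    funext a b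
    rw [Bool.eq_iff_iff, spl_apply, hg, Finset.mem_singleton, Finset.mem_singleton, beq_iff_eq]
    have e : ∀ a, a = j ↔ g a = v := fun a => ⟨fun h => by rw [h, hj], h a⟩
    rw [e, e]
    cases hga : g a <;> cases hgb : g b <;> cases v <;> simp
  obtain ⟨a0, b0, h3⟩ := (FL_ntr s).1 h1
  rw [hg, beq_eq_false_iff_ne] at h3
  by_cases hA : ∀ a, g a = g a0 → a = a0
  · exact ⟨a0, key _ a0 rfl hA⟩
  · by_cases hB : ∀ b, g b = g b0 → b = b0
    · exact ⟨b0, key _ b0 rfl hB⟩
    · exfalso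
      push Not at hA hB
      obtain ⟨a, ha, ha'⟩ := hA
      obtain ⟨b, hb, hb'⟩ := hB
      apply h2
      refine ⟨a0, a, b0, b, ha'.symm, hb'.symm, ?_, ?_, ?_⟩
      · rw [hg, ha]
        exact beq_self_eq_true _
      · rw [hg, hb]
        exact beq_self_eq_true _
      · rw [hg, beq_eq_false_iff_ne]
        exact h3

theorem FL_pull {k m : ℕ} (τ : RTree m) (ι : Fin k ↪ Fin m) (π : List (Fin m))
    (hπ : ∀ i, i ∈ π) :
    (((FL τ π).map (resS ι)).filter ntr).dedup =
      FL (τ.pull ι) (π.filterMap (Function.partialInv ι)) := by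
  have hmem : ∀ j, j ∈ π.filterMap (Function.partialInv ι) := fun j =>
    List.mem_filterMap.2 ⟨ι j, hπ _, Function.partialInv_left ι.injective j⟩
  unfold FL
  rw [FL_dmf, FL_fil, List.map_append, List.filter_append, List.map_map]
  · have e1 : (π.map (resS ι ∘ fun i => spl {i})).filter ntr =
      ((π.filterMap (Function.partialInv ι)).map (fun j => spl {j})).filter ntr := FL_leaf ι π
    rw [e1, List.filter_append]
    have e2 : (τ.pull ι).l = ((τ.l.map (resS ι)).filter fun s => decide (NT s)).dedup := rfl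
    have e3 : ((τ.pull ι).l).filter ntr = (τ.pull ι).l := by
      rw [List.filter_eq_self]
      intro s hs
      exact FL_NT s ((τ.pull ι).nt s hs)
    rw [e3, e2, FL_app]
    apply FL_two
    · intro x hx
      exact FL_NT x (of_decide_eq_true hx)
    · intro x hx h1 h2
      rw [decide_eq_true_iff] at h2
      obtain ⟨t, ht, rfl⟩ := List.mem_map.1 hx
      obtain ⟨f, hf⟩ := τ.split t ht
      obtain ⟨j, hj⟩ := FL_one (resS ι t) (fun a => f (ι a)) (fun a b => hf _ _) h1 h2
      rw [List.mem_filter, List.mem_map]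
      exact ⟨⟨j, hmem j, hj.symm⟩, h1⟩
  · intro s hs
    obtain ⟨a, b, h⟩ := (FL_ntr _).1 hs
    exact (FL_ntr s).2 ⟨ι a, ι b, h⟩

end SimplVol

end S_FL
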