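import Pool.Agent.H54.RM.A2
import Pool.Agent.H54.RM.B1
import Pool.Agent.H54.RM.E1
import Pool.Agent.H74.SV.AR
import Pool.Agent.H74.SV.PP

/-! Simplicial volume and ranked planar trees, part E2: this file joins several modules to save build time. -/

section S_DE

/-!
# Module DE: iterated means and deletion of a leaf

`ι = Fin.succAboveEmb c`, `r = resS ι`, `L = FL τ π`, `L' = FL (τ.pull ι) π'`, so `L' = ((L.map r).filter ntr).dedup` (`FL_pull`).
CASE `k = 1`. `t.lv = {ρ}ᶜ = {c}`; the function is `P (fun _ => I)` (the only `i` has `c.succAbove i = ρ`, as `ρ ≠ c`), a constant: both sides are `P (fun _ => I)` (`JJ_const`; `conf t' ρ' v i` with `i = ρ'`).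
CASE `k ≥ 2`. `t ≠ leaf c` (`{ρ}ᶜ` has at least two elements), `Key τ t.lv` (complement a singleton). `delete`: `A, b, t''`, and `t'' = t'` by `rep_unique` (`t''.lv = resF ι {ρ}ᶜ = {ρ'}ᶜ`). Let `s₁ = spl A`, `s₂ = spl (A.erase c)`, `s₀ = spl {c}`; all in `L` (`mem_FL`), distinct (`spl_inj` with `ρ`; `{c} ≠ A`,
`{c} ≠ A.erase c`). `r s₁ = r s₂ = spl (resF ι A) =: e'`, `r s₀` has only one class.
(I) COINCIDENCES: if `s ≠ s'` in `L`, `r s = r s'`, `ntr (r s)`, then `{s, s'} = {s₁, s₂}`: write `s = spl B`, `s' = spl D`, `ρ ∉ B, D` (`mem_FL`, `key_compl`, `spl_compl`), `resF ι B = resF ι D` (`resS_spl`, `spl_inj` with `ρ'`), so `B`, `D` differ only in `c`: say `D = insert c B`, `c ∉ B`, `B` nonempty;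
`coincide` with `(A, A.erase c)`: `B = A.erase c`, `D = A`. And `ntr (r s) = false` for `s ∈ L` iff `s = s₀`.
(II) Let `s_a, s_b ∈ {s₁, s₂}` be the earlier and the later one in `L` and `Lt = (L.filter (· ≠ s₀)).filter (· ≠ s_a)`. Then `r` is injective on `Lt` and `L' = Lt.map r` (`dedup` keeps the last of the two equal elements; lemma by induction on the list). Let `pick : Split k → Split (k+1)` with `pick (r s) = s` for `s ∈ Lt`
(choice; anything else outside) and `R v s' = if s' ∈ L' then v (pick s') else []`. `R (update v s u) = update (R v) (r s) u` for `s ∈ Lt`.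
(III) Let `P' v = P (conf t' ρ' (R v))`. Claim: `P (fun i => conf t ρ v (c.succAbove i)) = P' (update v s_b w)` with `w = v s₁ ++ [b] ++ v s₂` : for `i = ρ'` both points are `I`; else `conf t ρ v (ι i) = rho (t.wd v (ι i)) • I`, `t.wd v (ι i) = t.wf (v ∘ spl) (ι i) = t'.wf (delU τ c A b (v ∘ spl)) i`, and
`t'.wd (R (update v s_b w)) i = t'.wf (fun B' => R (update v s_b w) (spl B')) i`; only the subtrees `B'` of `t'` occur (`wf_congr`: they are nonempty keys, not containing `ρ'`): with `B = B'.map ι` (`ρ ∉ B`, `c ∉ B`): `B'` is a key of the pulled back tree, so `spl B' ∈ L'`. If `B = A.erase c`: `delU = w`, `spl B' = r s₂`, `pick = s_b`,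
value `w` ✓. Else if `insert c B` is a key: `spl (insert c B) ∈ L`, `≠ s₁` (else `B = A.erase c`), `≠ s₂`, `≠ s₀`, so it is in `Lt`, `r` of it is `spl B'`, value `v (spl (insert c B))` ✓. Else `spl B' ∈ L'` comes from some `s = spl D ∈ Lt`, `ρ ∉ D`, `resF ι D = B'`, so `D = B` or `D = insert c B`; the latter is excluded: value `v (spl B)` ✓.
(IV) `JJ M L (fun v => P' (update v s_b w))`: does not depend on `v s₀` (`R` does not see `s₀`, and `s₀ ≠ s₁, s₂`): `JJ_indep`, list `L.filter (· ≠ s₀)`. `P'` does not depend on `v s_a`. If `s_a = s₁`: `w = v s_a ++ [b] ++ v s_b`: `JJ_merge₁`. If `s_a = s₂`: `w = v s_b ++ [b] ++ v s_a`: `JJ_merge₂`.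
Result `JJ M Lt P' = JJ M (Lt.map r) (P ∘ conf t' ρ')` (`JJ_map`, `R (fun _ => []) = fun _ => []`). (Write the lists as `L₁ ++ s :: L₂` with `List.append_of_mem`/`List.mem_iff_append`; `Nodup`.)
-/

set_option autoImplicit false

open scoped BigOperators UpperHalfPlane MatrixGroups

namespace SimplVol

section DEaux

variable {M : (Wd → ℝ) →ₗ[ℝ] ℝ} {X Y : Type} [DecidableEq X] [DecidableEq Y]

theorem DE_dedup (l₁ l₂ : List Y) (a : Y) (ha : a ∈ l₂) (hn : (l₁ ++ l₂).Nodup) :
    (l₁ ++ a :: l₂).dedup = l₁ ++ l₂ := by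
  induction l₁ with
  | nil =>
    rw [List.nil_append, List.nil_append, List.dedup_cons_of_mem ha]
    exact List.Nodup.dedup hn
  | cons x l₁ ih =>
    rw [List.cons_append, List.nodup_cons] at hn
    rw [List.cons_append, List.dedup_cons_of_notMem, ih hn.2, List.cons_append]
    intro h
    rw [List.mem_append, List.mem_cons] at h
    apply hn.1
    rw [List.mem_append]
    rcases h with h | rfl | h
    · exact Or.inl h
    · exact Or.inr ha
    · exact Or.inr h

/-- deletion of one variable and merging of two. -/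
theorem DE_core (hM : WMean M) (r : X → Y) (q : Y → Bool) (L₁ L₂ K₁ K₂ K₃ : List X) (s₀ sa sb : X)
    (hn : (L₁ ++ s₀ :: L₂).Nodup) (hK : L₁ ++ L₂ = K₁ ++ sa :: (K₂ ++ sb :: K₃))
    (h0 : q (r s₀) = false) (h1 : ∀ s ∈ L₁ ++ L₂, q (r s) = true)
    (hr : r sa = r sb)
    (hinj : ∀ s ∈ L₁ ++ L₂, ∀ s' ∈ L₁ ++ L₂, s ≠ sa → s' ≠ sa → r s = r s' → s = s')
    (f : Wd → Wd → Wd)
    (hmerge : ∀ P : (X → Wd) → ℝ, (∃ C, ∀ v, |P v| ≤ C) →
      (∀ v u, P (Function.update v sa u) = P v) →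
      JJ M (K₁ ++ sa :: (K₂ ++ sb :: K₃)) (fun v => P (Function.update v sb (f (v sa) (v sb)))) =
        JJ M (K₁ ++ (K₂ ++ sb :: K₃)) P)
    (Q : (X → Wd) → ℝ) (P₀ : (Y → Wd) → ℝ) (hP : ∃ C, ∀ w, |P₀ w| ≤ C)
    (hQ : ∀ v w, (∀ s ∈ L₁ ++ L₂, s ≠ sa → s ≠ sb → w (r s) = v s) →
      w (r sb) = f (v sa) (v sb) → Q v = P₀ w) :
    JJ M (L₁ ++ s₀ :: L₂) Q = JJ M ((((L₁ ++ s₀ :: L₂).map r).filter q).dedup) P₀ := by
  classical
  obtain ⟨C, hC⟩ := hP
  have hs0 : s₀ ∉ L₁ ++ L₂ := by
    rw [List.nodup_middle, List.nodup_cons] at hn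
    exact hn.1
  have hnK : (L₁ ++ L₂).Nodup := by
    rw [List.nodup_middle, List.nodup_cons] at hn
    exact hn.2
  have hnK' : (K₁ ++ sa :: (K₂ ++ sb :: K₃)).Nodup := hK ▸ hnK
  have hnK2 := hnK'
  rw [List.nodup_middle, List.nodup_cons] at hnK2
  obtain ⟨hsa, hnLt⟩ := hnK2
  have hmem : ∀ s, s ∈ L₁ ++ L₂ ↔ s = sa ∨ s ∈ K₁ ++ (K₂ ++ sb :: K₃) := by
    intro s
    rw [hK]
    simp only [List.mem_append, List.mem_cons]
    tauto
  have hsb : sb ∈ K₁ ++ (K₂ ++ sb :: K₃) := by simp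
  have hsaK : sa ∈ L₁ ++ L₂ := (hmem sa).2 (Or.inl rfl)
  have hsbK : sb ∈ L₁ ++ L₂ := (hmem sb).2 (Or.inr hsb)
  generalize hLt : K₁ ++ (K₂ ++ sb :: K₃) = Lt at hsa hnLt hmem hsb hmerge
  let R : (X → Wd) → (Y → Wd) := fun v y => if h : ∃ s ∈ Lt, r s = y then v h.choose else []
  have hRdef : ∀ v y, R v y = if h : ∃ s ∈ Lt, r s = y then v h.choose else [] := fun v y => rfl
  have hch : ∀ s ∈ Lt, ∀ h : (∃ s' ∈ Lt, r s' = r s), h.choose = s := by
    intro s hs h
    obtain ⟨h3, h4⟩ := h.choose_spec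
    refine hinj _ ((hmem _).2 (Or.inr h3)) _ ((hmem _).2 (Or.inr hs)) ?_ ?_ h4
    · intro h5
      exact hsa (h5 ▸ h3)
    · intro h5
      exact hsa (h5 ▸ hs)
  have hR : ∀ v, ∀ s ∈ Lt, R v (r s) = v s := by
    intro v s hs
    have hex : ∃ s' ∈ Lt, r s' = r s := ⟨s, hs, rfl⟩
    rw [hRdef, dif_pos hex, hch s hs hex]
  have hRu : ∀ v s u, s ∉ Lt → R (Function.update v s u) = R v := by
    intro v s u hs
    funext y
    rw [hRdef, hRdef]
    split_ifs with h
    · rw [Function.update_of_ne]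
      intro h5
      exact hs (h5 ▸ h.choose_spec.1)
    · rfl
  have hRu' : ∀ v, ∀ s ∈ Lt, ∀ u, R (Function.update v s u) = Function.update (R v) (r s) u := by
    intro v s hs u
    funext y
    by_cases hy : y = r s
    · subst hy
      rw [hR _ s hs, Function.update_self, Function.update_self]
    · rw [Function.update_of_ne hy, hRdef, hRdef]
      split_ifs with h
      · rw [Function.update_of_ne]
        intro h5
        exact hy (by rw [← h.choose_spec.2, h5])
      · rfl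
  have hR0 : R (fun _ => []) = fun _ => [] := by
    funext y
    refine (hRdef (fun _ => []) y).trans ?_
    split_ifs <;> rfl
  have hQ' : Q = fun v => P₀ (R (Function.update v sb (f (v sa) (v sb)))) := by
    funext v
    refine hQ v _ (fun s hs h3 h4 => ?_) ?_
    · have h5 : s ∈ Lt := ((hmem s).1 hs).resolve_left h3
      rw [hR _ s h5, Function.update_of_ne h4]
    · rw [hR _ sb hsb, Function.update_self]
  have hs0Lt : s₀ ∉ Lt := fun h => hs0 ((hmem s₀).2 (Or.inr h))
  have hs0a : sa ≠ s₀ := by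
    rintro rfl
    exact hs0 hsaK
  have hs0b : sb ≠ s₀ := by
    rintro rfl
    exact hs0 hsbK
  rw [hQ']
  rw [JJ_indep hM L₁ L₂ s₀ (fun v => P₀ (R (Function.update v sb (f (v sa) (v sb))))) (fun v u => by
    simp only [Function.update_of_ne hs0a, Function.update_of_ne hs0b]
    rw [Function.update_comm hs0b.symm, hRu _ _ _ hs0Lt]), hK]
  rw [hmerge (fun v => P₀ (R v)) ⟨C, fun v => hC _⟩ (fun v u => by
    show P₀ (R (Function.update v sa u)) = P₀ (R v)
    rw [hRu _ _ _ hsa])]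
  rw [JJ_map Lt r R hR0 hRu' P₀]
  have hlist : (((L₁ ++ s₀ :: L₂).map r).filter q).dedup = Lt.map r := by
    have e1 : ((L₁ ++ s₀ :: L₂).map r).filter q = (L₁ ++ L₂).map r := by
      rw [List.map_append, List.map_cons, List.filter_append, List.filter_cons_of_neg (by
        rw [h0]
        exact Bool.false_ne_true), ← List.filter_append, ← List.map_append]
      rw [List.filter_eq_self]
      intro y hy
      rw [List.mem_map] at hy
      obtain ⟨s, hs, rfl⟩ := hy
      exact h1 s hs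
    have hnm : (Lt.map r).Nodup := by
      refine List.Nodup.map_on ?_ hnLt
      intro x hx y hy hxy
      refine hinj x ((hmem _).2 (Or.inr hx)) y ((hmem _).2 (Or.inr hy)) ?_ ?_ hxy
      · intro h5
        exact hsa (h5 ▸ hx)
      · intro h5
        exact hsa (h5 ▸ hy)
    rw [e1, hK, ← hLt, List.map_append, List.map_cons, DE_dedup, ← List.map_append]
    · rw [hr, List.mem_map]
      exact ⟨sb, by simp, rfl⟩
    · rw [← List.map_append, hLt]
      exact hnm
  rw [hlist]

end DEaux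

theorem DE_mem_resF {k m : ℕ} (ι : Fin k ↪ Fin m) (A : Finset (Fin m)) (j : Fin k) :
    j ∈ resF ι A ↔ ι j ∈ A := by
  simp [resF]

theorem DE_resF_map {k : ℕ} (c : Fin (k + 1)) (B' : Finset (Fin k)) :
    resF (Fin.succAboveEmb c) (B'.map (Fin.succAboveEmb c)) = B' := by
  ext j
  rw [DE_mem_resF, Finset.mem_map']

theorem DE_resF_erase {k : ℕ} (c : Fin (k + 1)) (A : Finset (Fin (k + 1))) :
    resF (Fin.succAboveEmb c) (A.erase c) = resF (Fin.succAboveEmb c) A := by
  ext j
  rw [DE_mem_resF, DE_mem_resF, Finset.mem_erase]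
  have h : Fin.succAboveEmb c j ≠ c := Fin.succAbove_ne c j
  tauto

theorem DE_resF_insert {k : ℕ} (c : Fin (k + 1)) (B' : Finset (Fin k)) :
    resF (Fin.succAboveEmb c) (insert c (B'.map (Fin.succAboveEmb c))) = B' := by
  ext j
  rw [DE_mem_resF, Finset.mem_insert, Finset.mem_map']
  have h : Fin.succAboveEmb c j ≠ c := Fin.succAbove_ne c j
  tauto

theorem DE_notMem_map {k : ℕ} (c : Fin (k + 1)) (B' : Finset (Fin k)) :
    c ∉ B'.map (Fin.succAboveEmb c) := by
  rw [Finset.mem_map]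
  rintro ⟨j, _, hj⟩
  exact Fin.succAbove_ne c j hj

theorem DE_map_resF {k : ℕ} (c : Fin (k + 1)) (D : Finset (Fin (k + 1))) :
    (resF (Fin.succAboveEmb c) D).map (Fin.succAboveEmb c) = D.erase c := by
  ext i
  rw [Finset.mem_map, Finset.mem_erase]
  constructor
  · rintro ⟨j, hj, rfl⟩
    exact ⟨Fin.succAbove_ne c j, (DE_mem_resF _ _ _).1 hj⟩
  · rintro ⟨h1, h2⟩
    obtain ⟨j, hj⟩ := Fin.exists_succAbove_eq h1
    exact ⟨j, (DE_mem_resF _ _ _).2 (by
      show c.succAbove j ∈ D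
      rw [hj]
      exact h2), hj⟩

theorem DE_mem {m : ℕ} (τ : RTree m) (π : List (Fin m)) (hπ : ∀ i, i ∈ π) {ρ : Fin m}
    {D : Finset (Fin m)} (hρ : ρ ∉ D) (hne : D.Nonempty) (hk : Key τ D) : spl D ∈ FL τ π :=
  (mem_FL τ π hπ _).2 ⟨D, hk, hne, ⟨ρ, Finset.mem_compl.2 hρ⟩, rfl⟩

theorem DE_rep {m : ℕ} (τ : RTree m) (π : List (Fin m)) (hπ : ∀ i, i ∈ π) (ρ : Fin m)
    (s : Split m) (hs : s ∈ FL τ π) :
    ∃ D : Finset (Fin m), ρ ∉ D ∧ D.Nonempty ∧ Key τ D ∧ spl D = s := by
  obtain ⟨D, hk, hne, hne', rfl⟩ := (mem_FL τ π hπ s).1 hs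
  by_cases h : ρ ∈ D
  · exact ⟨Dᶜ, fun h' => (Finset.mem_compl.1 h') h, hne', (key_compl τ D).2 hk, spl_compl D⟩
  · exact ⟨D, h, hne, hk, rfl⟩

theorem DE_wf_congr {m : ℕ} (σ : RTree m) (u u' : Finset (Fin m) → Wd) (t : BT m) (ht : Rep σ t)
    (hk : Key σ t.lv) (h : ∀ B : Finset (Fin m), B.Nonempty → B ⊆ t.lv → Key σ B → u B = u' B)
    (i : Fin m) : t.wf u i = t.wf u' i := by
  induction t with
  | leaf j => exact h {j} (Finset.singleton_nonempty j) (Finset.Subset.refl _) hk
  | node x y ihx ihy =>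
    obtain ⟨hd, ho, kx, ky, rx, ry⟩ := ht
    have e1 : u (x.lv ∪ y.lv) = u' (x.lv ∪ y.lv) :=
      h _ ((BT.node x y).lv_nonempty) (Finset.Subset.refl _) hk
    have e2 := ihx rx kx (fun B hB hBx kB => h B hB (hBx.trans Finset.subset_union_left) kB)
    have e3 := ihy ry ky (fun B hB hBx kB => h B hB (hBx.trans Finset.subset_union_right) kB)
    show u (x.lv ∪ y.lv) ++ (if i ∈ x.lv then false :: x.wf u i else true :: y.wf u i) =
      u' (x.lv ∪ y.lv) ++ (if i ∈ x.lv then false :: x.wf u' i else true :: y.wf u' i)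
    rw [e1, e2, e3]

/-- a key of the restricted tree comes from a key. -/
theorem DE_key_up {k : ℕ} (τ : RTree (k + 1)) (c ρ : Fin (k + 1)) (ρ' : Fin k)
    (hρ : c.succAbove ρ' = ρ) (π : List (Fin (k + 1))) (hπ : ∀ i, i ∈ π) (B' : Finset (Fin k))
    (hne : B'.Nonempty) (hB : ρ' ∉ B') (hk : Key (τ.pull (Fin.succAboveEmb c)) B') :
    Key τ (insert c (B'.map (Fin.succAboveEmb c))) ∨ Key τ (B'.map (Fin.succAboveEmb c)) := by
  have hπ' : ∀ j, j ∈ π.filterMap (Function.partialInv (Fin.succAboveEmb c)) := by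
    intro j
    rw [List.mem_filterMap]
    exact ⟨Fin.succAboveEmb c j, hπ _,
      Function.partialInv_left (Fin.succAboveEmb c).injective j⟩
  have h1 := DE_mem (τ.pull (Fin.succAboveEmb c)) _ hπ' hB hne hk
  rw [← FL_pull τ (Fin.succAboveEmb c) π hπ, List.mem_dedup, List.mem_filter, List.mem_map] at h1
  obtain ⟨⟨s, hs, hsB⟩, -⟩ := h1
  obtain ⟨D, hρD, hDne, hDk, rfl⟩ := DE_rep τ π hπ ρ s hs
  rw [resS_spl] at hsB
  have h2 : ρ' ∉ resF (Fin.succAboveEmb c) D := by
    rw [DE_mem_resF]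
    show c.succAbove ρ' ∉ D
    rw [hρ]
    exact hρD
  have h3 := spl_inj h2 hB hsB
  have h4 := DE_map_resF c D
  rw [h3] at h4
  rw [h4]
  by_cases hcD : c ∈ D
  · left
    rw [Finset.insert_erase hcD]
    exact hDk
  · right
    rw [Finset.erase_eq_of_notMem hcD]
    exact hDk

theorem JJ_del {M : (Wd → ℝ) →ₗ[ℝ] ℝ} (hM : WMean M) {k : ℕ} (hk : 1 ≤ k) (τ : RTree (k + 1))
    (c ρ : Fin (k + 1)) (hc : c ≠ ρ) (ρ' : Fin k) (hρ : c.succAbove ρ' = ρ) (t : BT (k + 1))
    (ht : Rep τ t) (hl : t.lv = {ρ}ᶜ) (t' : BT k)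
    (ht' : 2 ≤ k → Rep (τ.pull (Fin.succAboveEmb c)) t' ∧ t'.lv = {ρ'}ᶜ)
    (π : List (Fin (k + 1))) (hπ : ∀ i, i ∈ π) (P : (Fin k → ℍ) → ℝ) (hP : ∃ C, ∀ y, |P y| ≤ C) :
    JJ M (FL τ π) (fun v => P fun i => conf t ρ v (c.succAbove i)) =
      JJ M (FL (τ.pull (Fin.succAboveEmb c))
        (π.filterMap (Function.partialInv (Fin.succAboveEmb c)))) (fun v => P (conf t' ρ' v)) := by
  classical
  rcases Nat.lt_or_ge k 2 with h2 | h2
  · have hk1 : k = 1 := by omega
    subst hk1
    have e1 : (fun v : Split 2 → Wd => P fun i => conf t ρ v (c.succAbove i)) =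
        fun _ => P fun _ => UpperHalfPlane.I := by
      funext v
      congr 1
      funext i
      have h3 : i = ρ' := Subsingleton.elim _ _
      rw [h3, hρ]
      unfold conf
      rw [if_pos rfl]
    have e2 : (fun v : Split 1 → Wd => P (conf t' ρ' v)) =
        fun _ => P fun _ => UpperHalfPlane.I := by
      funext v
      congr 1
      funext i
      have h3 : i = ρ' := Subsingleton.elim _ _
      rw [h3]
      unfold conf
      rw [if_pos rfl]
    rw [e2, JJ_const hM]
    have e3 := JJ_const (A := Split 2) hM (FL τ π) (P fun _ => UpperHalfPlane.I)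
    rw [← e1] at e3
    exact e3
  obtain ⟨hR', hl'⟩ := ht' h2
  have hkey : Key τ t.lv := by
    rw [hl]
    exact Or.inr (Or.inl ⟨ρ, compl_compl _⟩)
  have hρt : ρ ∉ t.lv := by
    rw [hl]
    simp
  have hct : c ∈ t.lv := by
    rw [hl]
    simp [hc]
  have hne : t ≠ .leaf c := by
    rintro rfl
    have h3 : ({c} : Finset (Fin (k + 1))) = {ρ}ᶜ := hl
    have h4 := congrArg Finset.card h3
    rw [Finset.card_singleton, Finset.card_compl, Finset.card_singleton, Fintype.card_fin] at h4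
    omega
  obtain ⟨A, b, t'', hcA, hAt, hAne, kA, kAc, hRep, hlv, hwf⟩ :=
    delete τ c ρ hc t ht hkey hρt hct hne
  have hlt : t'' = t' := by
    refine rep_unique (τ.pull (Fin.succAboveEmb c)) ρ' t'' t' hRep hR' ?_ ?_
    · rw [hlv, hl', hl]
      ext j
      rw [DE_mem_resF, Finset.mem_compl, Finset.mem_compl, Finset.mem_singleton,
        Finset.mem_singleton, ← hρ]
      show ¬ (c.succAbove j = c.succAbove ρ') ↔ ¬ (j = ρ')
      rw [Fin.succAbove_right_inj]
    · rw [hlv, hl, DE_mem_resF, Finset.mem_compl, Finset.mem_singleton, ← hρ]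
      exact fun h => h rfl
  subst hlt
  have hρA : ρ ∉ A := fun h => hρt (hAt h)
  have hρAc : ρ ∉ A.erase c := fun h => hρA (Finset.mem_of_mem_erase h)
  have hρc : ρ ∉ ({c} : Finset (Fin (k + 1))) := by
    rw [Finset.mem_singleton]
    exact hc.symm
  have kc : Key τ {c} := Or.inl ⟨c, rfl⟩
  have m1 : spl A ∈ FL τ π := DE_mem τ π hπ hρA ⟨c, hcA⟩ kA
  have m2 : spl (A.erase c) ∈ FL τ π := DE_mem τ π hπ hρAc hAne kAc
  have m0 : spl {c} ∈ FL τ π := DE_mem τ π hπ hρc (Finset.singleton_nonempty c) kc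
  have n12 : spl A ≠ spl (A.erase c) := by
    intro h
    have h3 := spl_inj hρA hρAc h
    rw [h3] at hcA
    exact (Finset.notMem_erase c A) hcA
  have n01 : spl {c} ≠ spl A := by
    intro h
    have h3 := spl_inj hρc hρA h
    rw [← h3] at hAne
    simp at hAne
  have n02 : spl {c} ≠ spl (A.erase c) := by
    intro h
    have h3 := spl_inj hρc hρAc h
    have h4 : c ∈ A.erase c := by
      rw [← h3]
      exact Finset.mem_singleton_self c
    exact (Finset.notMem_erase c A) h4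
  have hr12 : resS (Fin.succAboveEmb c) (spl A) =
      resS (Fin.succAboveEmb c) (spl (A.erase c)) := by
    rw [resS_spl, resS_spl, DE_resF_erase]
  have hntr0 : ntr (resS (Fin.succAboveEmb c) (spl {c})) = false := by
    rw [resS_spl, ← Bool.not_eq_true, ntr_spl]
    rintro ⟨⟨j, hj⟩, -⟩
    rw [DE_mem_resF, Finset.mem_singleton] at hj
    exact Fin.succAbove_ne c j hj
  have hρr : ∀ D : Finset (Fin (k + 1)), ρ ∉ D → ρ' ∉ resF (Fin.succAboveEmb c) D := by
    intro D hD
    rw [DE_mem_resF]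
    show c.succAbove ρ' ∉ D
    rw [hρ]
    exact hD
  have hntr : ∀ s ∈ FL τ π, s ≠ spl {c} → ntr (resS (Fin.succAboveEmb c) s) = true := by
    intro s hs hs0
    obtain ⟨D, hρD, hDne, hDk, rfl⟩ := DE_rep τ π hπ ρ s hs
    rw [resS_spl, ntr_spl]
    refine ⟨?_, ⟨ρ', Finset.mem_compl.2 (hρr D hρD)⟩⟩
    by_contra hem
    rw [Finset.not_nonempty_iff_eq_empty] at hem
    apply hs0
    have h3 := DE_map_resF c D
    rw [hem, Finset.map_empty] at h3
    have h4 : D = {c} := by
      by_cases hcD : c ∈ D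
      · rw [← Finset.insert_erase hcD, ← h3]
        rfl
      · rw [Finset.erase_eq_of_notMem hcD] at h3
        rw [← h3] at hDne
        exact absurd hDne Finset.not_nonempty_empty
    rw [h4]
  have hcoin1 : ∀ D D' : Finset (Fin (k + 1)), ρ ∉ D → ρ ∉ D' → Key τ D → Key τ D' →
      D'.Nonempty → c ∈ D → c ∉ D' → D.erase c = D' → D = A ∧ D' = A.erase c := by
    intro D D' h3 h4 h5 h6 h7 h8 h9 h10
    have h11 : insert c D' = D := by
      rw [← h10, Finset.insert_erase h8]
    have h12 : D' = A.erase c := by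
      refine coincide τ c ρ hc D' (A.erase c) h7 hAne h9 h4 (Finset.notMem_erase c A) hρAc h6 ?_
        kAc ?_
      · rw [h11]
        exact h5
      · rw [Finset.insert_erase hcA]
        exact kA
    refine ⟨?_, h12⟩
    rw [← h11, h12, Finset.insert_erase hcA]
  have hcoin : ∀ s ∈ FL τ π, ∀ s' ∈ FL τ π,
      resS (Fin.succAboveEmb c) s = resS (Fin.succAboveEmb c) s' →
      s ≠ spl {c} → s' ≠ spl {c} → s = s' ∨ (s = spl A ∧ s' = spl (A.erase c)) ∨
        (s' = spl A ∧ s = spl (A.erase c)) := by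
    intro s hs s' hs' h3 hs0 hs0'
    obtain ⟨D, hρD, hDne, hDk, rfl⟩ := DE_rep τ π hπ ρ s hs
    obtain ⟨D', hρD', hDne', hDk', rfl⟩ := DE_rep τ π hπ ρ s' hs'
    rw [resS_spl, resS_spl] at h3
    have h4 := spl_inj (hρr D hρD) (hρr D' hρD') h3
    have h5 : D.erase c = D'.erase c := by
      rw [← DE_map_resF, ← DE_map_resF, h4]
    by_cases hcD : c ∈ D
    · by_cases hcD' : c ∈ D'
      · left
        rw [← Finset.insert_erase hcD, h5, Finset.insert_erase hcD']
      · right
        left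
        rw [Finset.erase_eq_of_notMem hcD'] at h5
        obtain ⟨h6, h7⟩ := hcoin1 D D' hρD hρD' hDk hDk' hDne' hcD hcD' h5
        exact ⟨congrArg spl h6, congrArg spl h7⟩
    · by_cases hcD' : c ∈ D'
      · right
        right
        rw [Finset.erase_eq_of_notMem hcD] at h5
        obtain ⟨h6, h7⟩ := hcoin1 D' D hρD' hρD hDk' hDk hDne hcD' hcD h5.symm
        exact ⟨congrArg spl h6, congrArg spl h7⟩
      · left
        rw [Finset.erase_eq_of_notMem hcD, Finset.erase_eq_of_notMem hcD'] at h5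
        rw [h5]
  have hQ0 : ∀ (v : Split (k + 1) → Wd) (w : Split k → Wd),
      (∀ s ∈ FL τ π, s ≠ spl {c} → s ≠ spl A → s ≠ spl (A.erase c) →
        w (resS (Fin.succAboveEmb c) s) = v s) →
      w (resS (Fin.succAboveEmb c) (spl A)) = v (spl A) ++ [b] ++ v (spl (A.erase c)) →
      (P fun i => conf t ρ v (c.succAbove i)) = P (conf t'' ρ' w) := by
    intro v w hw1 hw2
    congr 1
    funext i
    unfold conf
    by_cases hi : i = ρ'
    · rw [if_pos hi, if_pos (by rw [hi, hρ])]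
    · have hi' : c.succAbove i ≠ ρ := by
        rw [← hρ]
        intro h
        exact hi (Fin.succAbove_right_injective h)
      rw [if_neg hi, if_neg hi', wd_eq_wf, wd_eq_wf]
      have h3 : c.succAbove i ∈ t.lv := by
        rw [hl, Finset.mem_compl, Finset.mem_singleton]
        exact hi'
      rw [← hwf (fun B => v (spl B)) i h3]
      have hk' : Key (τ.pull (Fin.succAboveEmb c)) t''.lv := by
        rw [hl']
        exact Or.inr (Or.inl ⟨ρ', compl_compl _⟩)
      rw [DE_wf_congr (τ.pull (Fin.succAboveEmb c))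
        (delU τ c A b fun B => v (spl B)) (fun B => w (spl B)) t'' hRep hk' ?_ i]
      intro B' hB'ne hB't kB'
      have hρB' : ρ' ∉ B' := by
        intro h
        have h4 := hB't h
        rw [hl'] at h4
        simp at h4
      have hcB := DE_notMem_map c B'
      have hρB : ρ ∉ B'.map (Fin.succAboveEmb c) := by
        rw [← hρ]
        intro h
        apply hρB'
        have h4 : Fin.succAboveEmb c ρ' ∈ B'.map (Fin.succAboveEmb c) := h
        rwa [Finset.mem_map'] at h4
      have hBne : (B'.map (Fin.succAboveEmb c)).Nonempty := hB'ne.map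
      have hρBi : ρ ∉ insert c (B'.map (Fin.succAboveEmb c)) := by
        rw [Finset.mem_insert, not_or]
        exact ⟨hc.symm, hρB⟩
      unfold delU
      by_cases c1 : B'.map (Fin.succAboveEmb c) = A.erase c
      · rw [if_pos c1]
        have h5 : spl B' = resS (Fin.succAboveEmb c) (spl A) := by
          rw [resS_spl, ← DE_resF_erase, ← c1, DE_resF_map]
        show v (spl A) ++ [b] ++ v (spl (A.erase c)) = w (spl B')
        rw [h5, hw2]
      · rw [if_neg c1]
        by_cases c2 : Key τ (insert c (B'.map (Fin.succAboveEmb c)))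
        · rw [if_pos c2]
          show v (spl (insert c (B'.map (Fin.succAboveEmb c)))) = w (spl B')
          have h5 : spl B' = resS (Fin.succAboveEmb c)
              (spl (insert c (B'.map (Fin.succAboveEmb c)))) := by
            rw [resS_spl, DE_resF_insert]
          rw [h5, hw1 _ (DE_mem τ π hπ hρBi ⟨c, Finset.mem_insert_self _ _⟩ c2)]
          · intro h
            have h6 := spl_inj hρBi hρc h
            obtain ⟨x, hx⟩ := hBne
            have h7 : x ∈ ({c} : Finset (Fin (k + 1))) := by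
              rw [← h6]
              exact Finset.mem_insert_of_mem hx
            rw [Finset.mem_singleton] at h7
            rw [h7] at hx
            exact hcB hx
          · intro h
            have h6 := spl_inj hρBi hρA h
            apply c1
            rw [← h6, Finset.erase_insert hcB]
          · intro h
            have h6 := spl_inj hρBi hρAc h
            have h7 : c ∈ A.erase c := by
              rw [← h6]
              exact Finset.mem_insert_self _ _
            exact Finset.notMem_erase c A h7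
        · rw [if_neg c2]
          show v (spl (B'.map (Fin.succAboveEmb c))) = w (spl B')
          have c3 : Key τ (B'.map (Fin.succAboveEmb c)) :=
            (DE_key_up τ c ρ ρ' hρ π hπ B' hB'ne hρB' kB').resolve_left c2
          have h5 : spl B' = resS (Fin.succAboveEmb c) (spl (B'.map (Fin.succAboveEmb c))) := by
            rw [resS_spl, DE_resF_map]
          rw [h5, hw1 _ (DE_mem τ π hπ hρB hBne c3)]
          · intro h
            have h6 := spl_inj hρB hρc h
            rw [h6] at hcB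
            exact hcB (Finset.mem_singleton_self c)
          · intro h
            have h6 := spl_inj hρB hρA h
            rw [h6] at hcB
            exact hcB hcA
          · intro h
            exact c1 (spl_inj hρB hρAc h)
  rw [← FL_pull τ (Fin.succAboveEmb c) π hπ]
  obtain ⟨C, hC⟩ := hP
  obtain ⟨L₁, L₂, hL⟩ := List.append_of_mem m0
  have hnd := FL_nodup τ π
  have hmem : ∀ s, s ∈ FL τ π ↔ s = spl {c} ∨ s ∈ L₁ ++ L₂ := by
    intro s
    rw [hL]
    simp only [List.mem_append, List.mem_cons]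
    tauto
  have hnd' : spl {c} ∉ L₁ ++ L₂ := by
    rw [hL, List.nodup_middle, List.nodup_cons] at hnd
    exact hnd.1
  have hnd2 : (L₁ ++ L₂).Nodup := by
    rw [hL, List.nodup_middle, List.nodup_cons] at hnd
    exact hnd.2
  have m1' : spl A ∈ L₁ ++ L₂ := ((hmem _).1 m1).resolve_left n01.symm
  have m2' : spl (A.erase c) ∈ L₁ ++ L₂ := ((hmem _).1 m2).resolve_left n02.symm
  have hne0 : ∀ s ∈ L₁ ++ L₂, s ≠ spl {c} := by
    rintro s hs rfl
    exact hnd' hs
  obtain ⟨N₁, N₂, hN⟩ := List.append_of_mem m1'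
  have m2'' := m2'
  rw [hN, List.mem_append, List.mem_cons] at m2''
  rcases m2'' with m | m | m
  · obtain ⟨K₁, K₂, hK⟩ := List.append_of_mem m
    have hK' : L₁ ++ L₂ = K₁ ++ spl (A.erase c) :: (K₂ ++ spl A :: N₂) := by
      rw [hN, hK]
      simp
    have hnK : (K₁ ++ spl (A.erase c) :: (K₂ ++ spl A :: N₂)).Nodup := hK' ▸ hnd2
    have hcore := DE_core hM (resS (Fin.succAboveEmb c)) ntr L₁ L₂ K₁ K₂ N₂ (spl {c})
      (spl (A.erase c)) (spl A) (hL ▸ hnd) hK' hntr0
      (fun s hs => hntr s ((hmem s).2 (Or.inr hs)) (hne0 s hs)) hr12.symm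
      (fun s hs s' hs' h3 h4 h5 => by
        rcases hcoin s ((hmem s).2 (Or.inr hs)) s' ((hmem s').2 (Or.inr hs')) h5 (hne0 s hs)
          (hne0 s' hs') with h6 | ⟨h6, h7⟩ | ⟨h6, h7⟩
        · exact h6
        · exact absurd h7 h4
        · exact absurd h7 h3)
      (fun x y => y ++ [b] ++ x)
      (fun P hP h => JJ_merge₂ hM K₁ K₂ N₂ (spl (A.erase c)) (spl A) hnK P hP h b)
      (fun v => P fun i => conf t ρ v (c.succAbove i)) (fun v => P (conf t'' ρ' v))
      ⟨C, fun w => hC _⟩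
      (fun v w h3 h4 => hQ0 v w (fun s hs h5 h6 h7 =>
        h3 s (((hmem s).1 hs).resolve_left h5) h7 h6) h4)
    rw [hL]
    exact hcore
  · exact absurd m.symm n12
  · obtain ⟨K₂, K₃, hK⟩ := List.append_of_mem m
    have hK' : L₁ ++ L₂ = N₁ ++ spl A :: (K₂ ++ spl (A.erase c) :: K₃) := by
      rw [hN, hK]
    have hnK : (N₁ ++ spl A :: (K₂ ++ spl (A.erase c) :: K₃)).Nodup := hK' ▸ hnd2
    have hcore := DE_core hM (resS (Fin.succAboveEmb c)) ntr L₁ L₂ N₁ K₂ K₃ (spl {c})
      (spl A) (spl (A.erase c)) (hL ▸ hnd) hK' hntr0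
      (fun s hs => hntr s ((hmem s).2 (Or.inr hs)) (hne0 s hs)) hr12
      (fun s hs s' hs' h3 h4 h5 => by
        rcases hcoin s ((hmem s).2 (Or.inr hs)) s' ((hmem s').2 (Or.inr hs')) h5 (hne0 s hs)
          (hne0 s' hs') with h6 | ⟨h6, h7⟩ | ⟨h6, h7⟩
        · exact h6
        · exact absurd h6 h3
        · exact absurd h6 h4)
      (fun x y => x ++ [b] ++ y)
      (fun P hP h => JJ_merge₁ hM N₁ K₂ K₃ (spl A) (spl (A.erase c)) hnK P hP h b)
      (fun v => P fun i => conf t ρ v (c.succAbove i)) (fun v => P (conf t'' ρ' v))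
      ⟨C, fun w => hC _⟩
      (fun v w h3 h4 => hQ0 v w (fun s hs h5 h6 h7 =>
        h3 s (((hmem s).1 hs).resolve_left h5) h6 h7) (by rw [hr12, h4]))
    rw [hL]
    exact hcore

end SimplVol

end S_DE

section S_CG

/-!
# Module CG: change of the root

* `rot_conf` (induction on `t`, for all `s` and `g`): let `ρ ∈ s.lv`, `ρ' ∈ t.lv`, `s.lv = t.lvᶜ`, `Rep τ t` (only the disjointness is used), `v' x = if x ρ ρ' then v x else rv (v x)`. There is `g'` with (a) `(g * rho (t.wd v i)) • I = (g' * rho ((rot ρ' t s).wd v' i)) • I` for `i ∈ t.lv`, `i ≠ ρ'`;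
  (b) `(g * rho (t.wd v ρ')) • I = g' • I`; (c) `(g * gS * rho (s.wd0 v' i)) • I = (g' * rho ((rot ρ' t s).wd v' i)) • I` for `i ∈ s.lv`. All these hold with arbitrary points instead of `I` up to sign of matrices; work with the action.
  `t = leaf ρ'`: `V = v (spl {ρ'})`, `g' = g * rho V * gS`. (b): `gS • I = I`. (c): `s.wd v' i = v' (spl s.lv) ++ s.wd0 v' i`, `spl s.lv = spl {ρ'}` (`spl_compl`), it separates `ρ`, `ρ'`, so `v' (..) = rv V` and `g' * rho (rv V) = g * gS` (`rho_gS_rv`).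
  `t = node x y`, `ρ' ∈ x.lv`, `V = v (spl t.lv)`, `g₁ = g * rho V * gL`, `s' = node y s`; apply the induction hypothesis to `x`, `s'`, `g₁`. For `i ∈ x.lv`: `t.wd v i = V ++ false :: x.wd v i`, so (a), (b) for `t` are those for `x`. For `i ∈ y.lv`: `s'.wd0 v' i = false :: y.wd v' i`,
  `y.wd v' i = y.wd v i` (subsets `B` of `y.lv` contain neither `ρ` nor `ρ'`, so `spl B ρ ρ' = true`), and `g₁ gS gL rho(..) • I = g rho V (gL gS gL) rho(..) • I = g rho V gR rho (y.wd v i) • I` (`turn_smul`) which is `g rho (t.wd v i) • I`: (c) for `s'` gives (a) for `t`.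
  For `i ∈ s.lv`: `s'.wd0 v' i = true :: s.wd v' i` (`i ∉ y.lv`), `s.wd v' i = v' (spl s.lv) ++ s.wd0 v' i`, `v' (spl s.lv) = rv V`; `g₁ gS gR rho (rv V) = g rho V (gL gS gR) rho (rv V) = g rho V gS rho (rv V) = g gS` (`gT_gS_gT`, `rho_gS_rv`).
  `ρ' ∈ y.lv`: the same with `g₁ = g * rho V * gR`, `s' = node s x`: for `i ∈ x.lv`: `s'.wd0 v' i = true :: x.wd v' i` (`i ∉ s.lv`), `gR gS gR` acts as `gL`; for `i ∈ s.lv`: `false :: s.wd v' i`, `gR gS gL = gS`.
* `conf_root`: `t.lv = {ρ}ᶜ`; apply `rot_spec`, `rot_conf` with `s = leaf ρ`, `g = 1` (if `ρ' ≠ ρ`; for `ρ' = ρ`: `v' = v` because `spl`-like divisions... use `s ρ ρ = true` only for the divisions that occur: here `v' x = v x` whenever `x ρ ρ = true`, and `spl B ρ ρ = true`; `t = t'` by `rep_unique`, `g = 1`).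
  `Key τ t.lv` as `t.lvᶜ = {ρ}`; `rot ρ' t (leaf ρ) = t'` by `rep_unique`. (c) for `i = ρ`: `(gS * rho []) • I = I = conf t ρ v ρ`.
-/

set_option autoImplicit false

open scoped BigOperators UpperHalfPlane MatrixGroups

namespace SimplVol

theorem rot_conf {m : ℕ} (τ : RTree m) (ρ ρ' : Fin m) (v : Split m → Wd) (t s : BT m)
    (ht : Rep τ t) (hl : s.lv = t.lvᶜ) (hρ : ρ ∈ s.lv) (hρ' : ρ' ∈ t.lv) (g : SL(2, ℝ)) :
    ∃ g' : SL(2, ℝ),
      (∀ i ∈ t.lv, i ≠ ρ' → (g * rho (t.wd v i)) • UpperHalfPlane.I =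
        (g' * rho ((rot ρ' t s).wd (fun x => if x ρ ρ' = false then rv (v x) else v x) i)) •
          UpperHalfPlane.I) ∧
      (g * rho (t.wd v ρ')) • UpperHalfPlane.I = g' • UpperHalfPlane.I ∧
      (∀ i ∈ s.lv, (g * gS * rho (s.wd0 (fun x => if x ρ ρ' = false then rv (v x) else v x) i)) •
        UpperHalfPlane.I =
        (g' * rho ((rot ρ' t s).wd (fun x => if x ρ ρ' = false then rv (v x) else v x) i)) •
          UpperHalfPlane.I) := by
  induction t generalizing s g with
  | leaf j =>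
    have hj : ρ' = j := by simpa [BT.lv] using hρ'
    subst hj
    have hρs : ρ ∉ ({ρ'} : Finset (Fin m)) := by
      rw [hl] at hρ
      simpa [BT.lv] using hρ
    have hsep : (spl ({ρ'} : Finset (Fin m))) ρ ρ' = false := by
      rw [← Bool.not_eq_true, spl_apply]
      intro h
      exact hρs (h.2 (Finset.mem_singleton_self _))
    have hsp : spl s.lv = spl ({ρ'} : Finset (Fin m)) := by
      rw [hl, spl_compl]; rfl
    refine ⟨g * rho (v (spl {ρ'})) * gS, ?_, ?_, ?_⟩
    · intro i hi hne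
      exact absurd (by simpa [BT.lv] using hi) hne
    · rw [mul_smul (g * rho (v (spl {ρ'}))), gS_smul_I]
      rfl
    · intro i hi
      have e1 : (rot ρ' (BT.leaf ρ') s) = s := rfl
      rw [e1, wd_eq, hsp]
      simp only [hsep, if_true]
      rw [rho_append]
      have e2 : g * rho (v (spl {ρ'})) * gS * (rho (rv (v (spl {ρ'}))) *
          rho (s.wd0 (fun x => if x ρ ρ' = false then rv (v x) else v x) i)) =
          g * (rho (v (spl {ρ'})) * gS * rho (rv (v (spl {ρ'})))) *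
          rho (s.wd0 (fun x => if x ρ ρ' = false then rv (v x) else v x) i) := by
        simp only [mul_assoc]
      rw [e2, rho_gS_rv]
  | node x y ihx ihy =>
    obtain ⟨hd, -, -, -, hrx, hry⟩ := ht
    have hlU : s.lv = (x.lv ∪ y.lv)ᶜ := hl
    have hρx : ρ ∉ x.lv := by
      rw [hlU] at hρ
      simp only [Finset.mem_compl, Finset.mem_union, not_or] at hρ
      exact hρ.1
    have hρy : ρ ∉ y.lv := by
      rw [hlU] at hρ
      simp only [Finset.mem_compl, Finset.mem_union, not_or] at hρ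
      exact hρ.2
    have hρU : ρ' ∈ x.lv ∪ y.lv := hρ'
    have hsp : spl s.lv = spl (x.lv ∪ y.lv) := by rw [hlU, spl_compl]
    have hsep : spl (x.lv ∪ y.lv) ρ ρ' = false := by
      rw [← Bool.not_eq_true, spl_apply]
      intro h
      have := h.2 hρU
      rw [Finset.mem_union] at this
      rcases this with h | h
      · exact hρx h
      · exact hρy h
    have hws : ∀ i, s.wd (fun x => if x ρ ρ' = false then rv (v x) else v x) i =
        rv (v (spl (x.lv ∪ y.lv))) ++
          s.wd0 (fun x => if x ρ ρ' = false then rv (v x) else v x) i := by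
      intro i
      rw [wd_eq, hsp]
      simp only [hsep, if_true]
    have hcongr : ∀ z : BT m, ρ ∉ z.lv → ρ' ∉ z.lv → ∀ i,
        z.wd (fun x => if x ρ ρ' = false then rv (v x) else v x) i = z.wd v i := by
      intro z h1 h2 i
      refine wd_congr _ _ z (fun B hB => ?_) i
      have : spl B ρ ρ' = true := by
        rw [spl_apply]
        exact ⟨fun h => absurd (hB h) h1, fun h => absurd (hB h) h2⟩
      simp [this]
    have hgF : gT false = gL := rfl
    have hgTt : gT true = gR := rfl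
    by_cases hx : ρ' ∈ x.lv
    · have hy : ρ' ∉ y.lv := fun h => (Finset.disjoint_left.1 hd) hx h
      have hsl : (BT.node y s).lv = x.lvᶜ := by
        show y.lv ∪ s.lv = x.lvᶜ
        rw [hlU]
        ext a
        simp only [Finset.mem_union, Finset.mem_compl, not_or]
        constructor
        · rintro (h | h)
          · exact fun h' => (Finset.disjoint_left.1 hd) h' h
          · exact h.1
        · intro h
          by_cases h2 : a ∈ y.lv
          · exact Or.inl h2
          · exact Or.inr ⟨h, h2⟩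
      have hρs' : ρ ∈ (BT.node y s).lv := by rw [hsl]; simpa using hρx
      obtain ⟨g', ha, hb, hc⟩ := ihx (BT.node y s) hrx hsl hρs' hx
        (g * rho (v (spl (x.lv ∪ y.lv))) * gL)
      have erot : rot ρ' (BT.node x y) s = rot ρ' x (BT.node y s) := by
        show (if ρ' ∈ x.lv then rot ρ' x (.node y s) else rot ρ' y (.node s x)) = _
        rw [if_pos hx]
      have ewx : ∀ i ∈ x.lv, (BT.node x y).wd v i =
          v (spl (x.lv ∪ y.lv)) ++ false :: x.wd v i := by
        intro i hi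
        show v (spl (x.lv ∪ y.lv)) ++
          (if i ∈ x.lv then false :: x.wd v i else true :: y.wd v i) = _
        rw [if_pos hi]
      have ewy : ∀ i, i ∉ x.lv → (BT.node x y).wd v i =
          v (spl (x.lv ∪ y.lv)) ++ true :: y.wd v i := by
        intro i hi
        show v (spl (x.lv ∪ y.lv)) ++
          (if i ∈ x.lv then false :: x.wd v i else true :: y.wd v i) = _
        rw [if_neg hi]
      refine ⟨g', ?_, ?_, ?_⟩
      · intro i hi hne
        rw [erot]
        by_cases hix : i ∈ x.lv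
        · rw [← ha i hix hne, ewx i hix, rho_append, rho_cons, hgF]
          simp only [mul_assoc]
        · have hiy : i ∈ y.lv := by
            have : i ∈ x.lv ∪ y.lv := hi
            rw [Finset.mem_union] at this
            exact this.resolve_left hix
          have his' : i ∈ (BT.node y s).lv := by
            show i ∈ y.lv ∪ s.lv
            exact Finset.mem_union_left _ hiy
          rw [← hc i his', ewy i hix]
          have e0 : (BT.node y s).wd0 (fun x => if x ρ ρ' = false then rv (v x) else v x) i =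
              false :: y.wd v i := by
            show (if i ∈ y.lv then
              false :: y.wd (fun x => if x ρ ρ' = false then rv (v x) else v x) i
              else true :: s.wd (fun x => if x ρ ρ' = false then rv (v x) else v x) i) = _
            rw [if_pos hiy, hcongr y hρy hy]
          rw [e0, rho_append, rho_cons, rho_cons, hgF, hgTt]
          have e1 : g * rho (v (spl (x.lv ∪ y.lv))) * gL * gS * (gL * rho (y.wd v i)) =
              g * rho (v (spl (x.lv ∪ y.lv))) * (gL * gS * gL) * rho (y.wd v i) := by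
            simp only [mul_assoc]
          have e2 : g * (rho (v (spl (x.lv ∪ y.lv))) * (gR * rho (y.wd v i))) =
              g * rho (v (spl (x.lv ∪ y.lv))) * gR * rho (y.wd v i) := by
            simp only [mul_assoc]
          rw [e1, e2, mul_smul _ (rho (y.wd v i)), mul_smul _ (rho (y.wd v i)),
            mul_smul _ (gL * gS * gL), mul_smul _ gR]
          have e3 := turn_smul false (rho (y.wd v i) • UpperHalfPlane.I)
          simp only [Bool.not_false] at e3
          rw [hgF, hgTt] at e3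
          rw [e3]
      · rw [← hb, ewx ρ' hx, rho_append, rho_cons, hgF]
        simp only [mul_assoc]
      · intro i hi
        rw [erot]
        have hiU : i ∉ x.lv ∧ i ∉ y.lv := by
          rw [hlU] at hi
          simpa [not_or] using hi
        have his' : i ∈ (BT.node y s).lv := by
          show i ∈ y.lv ∪ s.lv
          exact Finset.mem_union_right _ hi
        rw [← hc i his']
        have e0 : (BT.node y s).wd0 (fun x => if x ρ ρ' = false then rv (v x) else v x) i =
            true :: s.wd (fun x => if x ρ ρ' = false then rv (v x) else v x) i := by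
          show (if i ∈ y.lv then
            false :: y.wd (fun x => if x ρ ρ' = false then rv (v x) else v x) i
            else true :: s.wd (fun x => if x ρ ρ' = false then rv (v x) else v x) i) = _
          rw [if_neg hiU.2]
        rw [e0, hws, rho_cons, rho_append, hgTt]
        have e1 : g * rho (v (spl (x.lv ∪ y.lv))) * gL * gS * (gR *
            (rho (rv (v (spl (x.lv ∪ y.lv)))) *
              rho (s.wd0 (fun x => if x ρ ρ' = false then rv (v x) else v x) i))) =
            g * (rho (v (spl (x.lv ∪ y.lv))) * (gL * gS * gR) *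
              rho (rv (v (spl (x.lv ∪ y.lv))))) *
              rho (s.wd0 (fun x => if x ρ ρ' = false then rv (v x) else v x) i) := by
          simp only [mul_assoc]
        have e2 := gT_gS_gT false
        simp only [Bool.not_false] at e2
        rw [hgF, hgTt] at e2
        rw [e1, e2, rho_gS_rv]
    · have hy : ρ' ∈ y.lv := by
        rw [Finset.mem_union] at hρU
        exact hρU.resolve_left hx
      have hsl : (BT.node s x).lv = y.lvᶜ := by
        show s.lv ∪ x.lv = y.lvᶜ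
        rw [hlU]
        ext a
        simp only [Finset.mem_union, Finset.mem_compl, not_or]
        constructor
        · rintro (h | h)
          · exact h.2
          · exact fun h' => (Finset.disjoint_left.1 hd) h h'
        · intro h
          by_cases h2 : a ∈ x.lv
          · exact Or.inr h2
          · exact Or.inl ⟨h2, h⟩
      have hρs' : ρ ∈ (BT.node s x).lv := by rw [hsl]; simpa using hρy
      obtain ⟨g', ha, hb, hc⟩ := ihy (BT.node s x) hry hsl hρs' hy
        (g * rho (v (spl (x.lv ∪ y.lv))) * gR)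
      have erot : rot ρ' (BT.node x y) s = rot ρ' y (BT.node s x) := by
        show (if ρ' ∈ x.lv then rot ρ' x (.node y s) else rot ρ' y (.node s x)) = _
        rw [if_neg hx]
      have ewx : ∀ i ∈ x.lv, (BT.node x y).wd v i =
          v (spl (x.lv ∪ y.lv)) ++ false :: x.wd v i := by
        intro i hi
        show v (spl (x.lv ∪ y.lv)) ++
          (if i ∈ x.lv then false :: x.wd v i else true :: y.wd v i) = _
        rw [if_pos hi]
      have ewy : ∀ i, i ∉ x.lv → (BT.node x y).wd v i =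
          v (spl (x.lv ∪ y.lv)) ++ true :: y.wd v i := by
        intro i hi
        show v (spl (x.lv ∪ y.lv)) ++
          (if i ∈ x.lv then false :: x.wd v i else true :: y.wd v i) = _
        rw [if_neg hi]
      refine ⟨g', ?_, ?_, ?_⟩
      · intro i hi hne
        rw [erot]
        by_cases hix : i ∈ x.lv
        · have his' : i ∈ (BT.node s x).lv := by
            show i ∈ s.lv ∪ x.lv
            exact Finset.mem_union_right _ hix
          have his : i ∉ s.lv := by
            rw [hlU]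
            simp [hix]
          rw [← hc i his', ewx i hix]
          have e0 : (BT.node s x).wd0 (fun x => if x ρ ρ' = false then rv (v x) else v x) i =
              true :: x.wd v i := by
            show (if i ∈ s.lv then
              false :: s.wd (fun x => if x ρ ρ' = false then rv (v x) else v x) i
              else true :: x.wd (fun x => if x ρ ρ' = false then rv (v x) else v x) i) = _
            rw [if_neg his, hcongr x hρx hx]
          rw [e0, rho_append, rho_cons, rho_cons, hgF, hgTt]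
          have e1 : g * rho (v (spl (x.lv ∪ y.lv))) * gR * gS * (gR * rho (x.wd v i)) =
              g * rho (v (spl (x.lv ∪ y.lv))) * (gR * gS * gR) * rho (x.wd v i) := by
            simp only [mul_assoc]
          have e2 : g * (rho (v (spl (x.lv ∪ y.lv))) * (gL * rho (x.wd v i))) =
              g * rho (v (spl (x.lv ∪ y.lv))) * gL * rho (x.wd v i) := by
            simp only [mul_assoc]
          rw [e1, e2, mul_smul _ (rho (x.wd v i)), mul_smul _ (rho (x.wd v i)),
            mul_smul _ (gR * gS * gR), mul_smul _ gL]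
          have e3 := turn_smul true (rho (x.wd v i) • UpperHalfPlane.I)
          simp only [Bool.not_true] at e3
          rw [hgF, hgTt] at e3
          rw [e3]
        · have hiy : i ∈ y.lv := by
            have : i ∈ x.lv ∪ y.lv := hi
            rw [Finset.mem_union] at this
            exact this.resolve_left hix
          rw [← ha i hiy hne, ewy i hix, rho_append, rho_cons, hgTt]
          simp only [mul_assoc]
      · rw [← hb, ewy ρ' hx, rho_append, rho_cons, hgTt]
        simp only [mul_assoc]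
      · intro i hi
        rw [erot]
        have his' : i ∈ (BT.node s x).lv := by
          show i ∈ s.lv ∪ x.lv
          exact Finset.mem_union_left _ hi
        rw [← hc i his']
        have e0 : (BT.node s x).wd0 (fun x => if x ρ ρ' = false then rv (v x) else v x) i =
            false :: s.wd (fun x => if x ρ ρ' = false then rv (v x) else v x) i := by
          show (if i ∈ s.lv then
            false :: s.wd (fun x => if x ρ ρ' = false then rv (v x) else v x) i
            else true :: x.wd (fun x => if x ρ ρ' = false then rv (v x) else v x) i) = _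
          rw [if_pos hi]
        rw [e0, hws, rho_cons, rho_append, hgF]
        have e1 : g * rho (v (spl (x.lv ∪ y.lv))) * gR * gS * (gL *
            (rho (rv (v (spl (x.lv ∪ y.lv)))) *
              rho (s.wd0 (fun x => if x ρ ρ' = false then rv (v x) else v x) i))) =
            g * (rho (v (spl (x.lv ∪ y.lv))) * (gR * gS * gL) *
              rho (rv (v (spl (x.lv ∪ y.lv))))) *
              rho (s.wd0 (fun x => if x ρ ρ' = false then rv (v x) else v x) i) := by
          simp only [mul_assoc]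
        have e2 := gT_gS_gT true
        simp only [Bool.not_true] at e2
        rw [hgF, hgTt] at e2
        rw [e1, e2, rho_gS_rv]

theorem conf_root {m : ℕ} (τ : RTree m) (ρ ρ' : Fin m) (t t' : BT m) (ht : Rep τ t)
    (hl : t.lv = {ρ}ᶜ) (ht' : Rep τ t') (hl' : t'.lv = {ρ'}ᶜ) (v : Split m → Wd) :
    ∃ g : SL(2, ℝ), ∀ i, conf t ρ v i =
      g • conf t' ρ' (fun x => if x ρ ρ' = false then rv (v x) else v x) i := by
  by_cases hne : ρ' = ρ
  · subst hne
    have htt : t = t' := by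
      refine rep_unique τ ρ' t t' ht ht' (by rw [hl, hl']) ?_
      rw [hl]; simp
    subst htt
    refine ⟨1, fun i => ?_⟩
    rw [one_smul]
    unfold conf
    have : t.wd v i = t.wd (fun x => if x ρ' ρ' = false then rv (v x) else v x) i := by
      refine wd_congr _ _ t (fun B _ => ?_) i
      have : spl B ρ' ρ' = true := by rw [spl_apply]
      simp [this]
    rw [this]
  · have hkey : Key τ t.lv := Or.inr (Or.inl ⟨ρ, by rw [hl, compl_compl]⟩)
    have hsl : (BT.leaf ρ : BT m).lv = t.lvᶜ := by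
      rw [hl, compl_compl]; rfl
    have hρ' : ρ' ∈ t.lv := by rw [hl]; simpa using hne
    have hρs : ρ ∈ (BT.leaf ρ : BT m).lv := by
      show ρ ∈ ({ρ} : Finset (Fin m))
      simp
    obtain ⟨hr, hrl⟩ := rot_spec τ ρ' t (BT.leaf ρ) ht trivial hkey hsl hρ'
    have hrt : rot ρ' t (BT.leaf ρ) = t' := by
      refine rep_unique τ ρ' _ t' hr ht' (by rw [hrl, hl']) ?_
      rw [hrl]; simp
    obtain ⟨g', ha, hb, hc⟩ := rot_conf τ ρ ρ' v t (BT.leaf ρ) ht hsl hρs hρ' 1
    rw [hrt] at ha hc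
    refine ⟨g', fun i => ?_⟩
    by_cases hi : i = ρ
    · subst hi
      have e := hc i hρs
      have e0 : (BT.leaf i : BT m).wd0 (fun x => if x i ρ' = false then rv (v x) else v x) i =
        [] := rfl
      rw [e0, rho_nil, mul_one, one_mul, gS_smul_I, mul_smul] at e
      unfold conf
      rw [if_pos rfl, if_neg (fun h => hne h.symm)]
      exact e
    · by_cases hi' : i = ρ'
      · subst hi'
        rw [one_mul] at hb
        unfold conf
        rw [if_neg hi, if_pos rfl]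
        exact hb
      · have hit : i ∈ t.lv := by rw [hl]; simpa using hi
        have e := ha i hit hi'
        rw [one_mul, mul_smul] at e
        unfold conf
        rw [if_neg hi, if_neg hi']
        exact e

end SimplVol

end S_CG

section S_PM

/-!
# Module PM: iterated means, permutations of the leaves and change of the root

* `JJ_perm`: `e = σ.toEmbedding`. `t'.mapL e` represents `τ`: `rep_mapL`: if `Rep (τ.pull e) t'` then `Rep τ (t'.mapL e)` (induction; `lv_mapL`; keys: `Key (τ.pull e) B → Key τ (B.map e)`: singletons, complements of singletons (`(B.map e)ᶜ = Bᶜ.map e` for a bijection), and if `spl B ∈ (τ.pull e).l` then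
  `spl B = resS e s` with `s ∈ τ.l`, so `s = spl (B.map e)` (evaluate at `σ a`)); its leaves are `{σ ρ'}ᶜ`, so it is `t` (`rep_unique`). `conf t (σ ρ') v (σ i) = conf t' ρ' (R v) i` with `R v s' = v (fun a b => s' (σ⁻¹ a) (σ⁻¹ b))` (`wd_eq_wf`, `wf_mapL`; `spl (B.map e) = fun a b => spl B (σ⁻¹ a) (σ⁻¹ b)`).
  `(FL τ π).map (resS e) = FL (τ.pull e) (π.map σ⁻¹)`: by `FL_pull` the right side is `(((FL τ π).map (resS e)).filter ntr).dedup` with `π.filterMap (partialInv e) = π.map σ⁻¹` (`Function.partialInv_left`-like: `partialInv e (σ a) = some a`), and nothing is dropped: `resS e` is injective,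
  `ntr (resS e s) = ntr s`. Then `JJ_map` with the map `resS e`.
* `JJ_root`: for fixed `v`, `conf t ρ v = g • conf t' ρ' v'` (`conf_root`), so `P (conf t ρ v) = P (conf t' ρ' v')` by invariance, and `JJ_rev` with `X x := x ρ ρ' = false`.
-/

set_option autoImplicit false

open scoped BigOperators UpperHalfPlane MatrixGroups

namespace SimplVol

theorem PM_key_map {m : ℕ} (τ : RTree m) (σ : Equiv.Perm (Fin m)) (B : Finset (Fin m))
    (h : Key (τ.pull σ.toEmbedding) B) : Key τ (B.map σ.toEmbedding) := by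
  rcases h with ⟨i, h⟩ | ⟨i, h⟩ | h
  · left
    exact ⟨σ i, by rw [h, Finset.map_singleton]; rfl⟩
  · right; left
    refine ⟨σ i, ?_⟩
    ext x
    rw [Finset.mem_compl, Finset.mem_map_equiv, ← Finset.mem_compl, h, Finset.mem_singleton,
      Finset.mem_singleton, Equiv.symm_apply_eq]
  · right; right
    have h1 : spl B ∈ ((τ.l.map (resS σ.toEmbedding)).filter fun s => decide (NT s)).dedup := h
    rw [List.mem_dedup, List.mem_filter, List.mem_map] at h1
    obtain ⟨⟨s, hs, hs2⟩, _⟩ := h1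
    have h2 : s = spl (B.map σ.toEmbedding) := by
      funext a b
      have h3 := congrFun (congrFun hs2 (σ.symm a)) (σ.symm b)
      have h4 : resS σ.toEmbedding s (σ.symm a) (σ.symm b) = s a b := by
        show s (σ (σ.symm a)) (σ (σ.symm b)) = s a b
        rw [Equiv.apply_symm_apply, Equiv.apply_symm_apply]
      rw [h4] at h3
      rw [h3]
      show decide (σ.symm a ∈ B ↔ σ.symm b ∈ B) = decide (a ∈ B.map σ.toEmbedding ↔ b ∈ B.map σ.toEmbedding)
      simp only [Finset.mem_map_equiv]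
    rw [← h2]
    exact hs

theorem PM_rep_mapL {m : ℕ} (τ : RTree m) (σ : Equiv.Perm (Fin m)) (t' : BT m)
    (h : Rep (τ.pull σ.toEmbedding) t') : Rep τ (t'.mapL σ.toEmbedding) := by
  induction t' with
  | leaf i => trivial
  | node x y hx hy =>
    obtain ⟨h1, h2, h3, h4, h5, h6⟩ := h
    refine ⟨?_, ?_, ?_, ?_, hx h5, hy h6⟩
    · rw [lv_mapL, lv_mapL, Finset.disjoint_map]
      exact h1
    · intro a ha b hb c hc hc'
      rw [lv_mapL, Finset.mem_map_equiv] at ha hb hc hc'
      have h7 := h2 _ ha _ hb _ hc hc'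
      have h8 : τ.o (σ (σ.symm c)) (σ (σ.symm a)) (σ (σ.symm b)) = 1 := h7
      rw [Equiv.apply_symm_apply, Equiv.apply_symm_apply, Equiv.apply_symm_apply] at h8
      exact h8
    · rw [lv_mapL]
      exact PM_key_map τ σ _ h3
    · rw [lv_mapL]
      exact PM_key_map τ σ _ h4

/-- The words of the relabelled divisions. -/
def PM_R {m : ℕ} (σ : Equiv.Perm (Fin m)) (v : Split m → Wd) (s : Split m) : Wd :=
  v fun a b => s (σ.symm a) (σ.symm b)

theorem PM_conf {m : ℕ} (σ : Equiv.Perm (Fin m)) (ρ' : Fin m) (t' : BT m) (v : Split m → Wd)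
    (i : Fin m) : conf (t'.mapL σ.toEmbedding) (σ ρ') v (σ i) = conf t' ρ' (PM_R σ v) i := by
  unfold conf
  by_cases h : i = ρ'
  · rw [if_pos h, if_pos (by rw [h])]
  · rw [if_neg h, if_neg (fun h2 => h (σ.injective h2))]
    have h1 : (t'.mapL σ.toEmbedding).wd v (σ i) = t'.wd (PM_R σ v) i := by
      rw [wd_eq_wf, wd_eq_wf]
      have h2 := wf_mapL σ.toEmbedding t' (fun B => v (spl B)) i
      refine Eq.trans h2 ?_
      congr 1
      funext B
      show v (spl (B.map σ.toEmbedding)) = v fun a b => spl B (σ.symm a) (σ.symm b)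
      congr 1
      funext a b
      show decide (a ∈ B.map σ.toEmbedding ↔ b ∈ B.map σ.toEmbedding) =
        decide (σ.symm a ∈ B ↔ σ.symm b ∈ B)
      simp only [Finset.mem_map_equiv]
    rw [h1]

theorem PM_ext_iff {m : ℕ} (σ : Equiv.Perm (Fin m)) (s s' : Split m) :
    (fun a b => s' (σ.symm a) (σ.symm b)) = s ↔ s' = resS σ.toEmbedding s := by
  constructor
  · intro h
    rw [← h]
    funext a b
    show s' a b = s' (σ.symm (σ a)) (σ.symm (σ b))
    rw [Equiv.symm_apply_apply, Equiv.symm_apply_apply]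
  · intro h
    rw [h]
    funext a b
    show s (σ (σ.symm a)) (σ (σ.symm b)) = s a b
    rw [Equiv.apply_symm_apply, Equiv.apply_symm_apply]

theorem PM_ntr {m : ℕ} (σ : Equiv.Perm (Fin m)) (s : Split m) :
    ntr (resS σ.toEmbedding s) = ntr s := by
  unfold ntr
  congr 1
  rw [decide_eq_decide]
  constructor
  · intro h a b
    have h1 : s (σ (σ.symm a)) (σ (σ.symm b)) = true := h (σ.symm a) (σ.symm b)
    rw [Equiv.apply_symm_apply, Equiv.apply_symm_apply] at h1
    exact h1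
  · intro h a b
    exact h _ _

theorem PM_FL {m : ℕ} (τ : RTree m) (σ : Equiv.Perm (Fin m)) (π : List (Fin m))
    (hπ : ∀ i, i ∈ π) :
    (FL τ π).map (resS σ.toEmbedding) = FL (τ.pull σ.toEmbedding) (π.map σ.symm) := by
  have h1 := FL_pull τ σ.toEmbedding π hπ
  have h2 : π.filterMap (Function.partialInv σ.toEmbedding) = π.map σ.symm := by
    rw [← List.filterMap_eq_map]
    congr 1
    funext b
    have h3 := Function.partialInv_left σ.injective (σ.symm b)
    rw [Equiv.apply_symm_apply] at h3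
    exact h3
  rw [h2] at h1
  rw [← h1]
  have h4 : ((FL τ π).map (resS σ.toEmbedding)).filter ntr = (FL τ π).map (resS σ.toEmbedding) := by
    rw [List.filter_eq_self]
    intro s hs
    rw [List.mem_map] at hs
    obtain ⟨s', hs', rfl⟩ := hs
    rw [PM_ntr]
    have h5 : s' ∈ ((τ.l ++ π.map fun i => spl {i}).filter ntr).dedup := hs'
    rw [List.mem_dedup, List.mem_filter] at h5
    exact h5.2
  rw [h4, List.Nodup.dedup]
  refine List.Nodup.map ?_ (FL_nodup τ π)
  intro s s' h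
  rw [← (PM_ext_iff σ s _).2 rfl, ← (PM_ext_iff σ s' _).2 rfl, h]

theorem JJ_perm {M : (Wd → ℝ) →ₗ[ℝ] ℝ} {m : ℕ} (τ : RTree m) (σ : Equiv.Perm (Fin m))
    (ρ' : Fin m) (t t' : BT m) (ht : Rep τ t) (hl : t.lv = {σ ρ'}ᶜ)
    (ht' : Rep (τ.pull σ.toEmbedding) t') (hl' : t'.lv = {ρ'}ᶜ)
    (π : List (Fin m)) (hπ : ∀ i, i ∈ π) (P : (Fin m → ℍ) → ℝ) :
    JJ M (FL τ π) (fun v => P fun i => conf t (σ ρ') v (σ i)) =
      JJ M (FL (τ.pull σ.toEmbedding) (π.map σ.symm)) (fun v => P (conf t' ρ' v)) := by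
  have h1 : t = t'.mapL σ.toEmbedding := by
    refine rep_unique τ (σ ρ') t _ ht (PM_rep_mapL τ σ t' ht') ?_ ?_
    · rw [hl, lv_mapL, hl']
      ext x
      rw [Finset.mem_map_equiv, Finset.mem_compl, Finset.mem_compl, Finset.mem_singleton,
        Finset.mem_singleton, Equiv.symm_apply_eq]
    · rw [hl, Finset.mem_compl, Finset.mem_singleton]
      exact fun h => h rfl
  rw [← PM_FL τ σ π hπ]
  have h2 : (fun v => P fun i => conf t (σ ρ') v (σ i)) =
      fun v => (fun w => P (conf t' ρ' w)) (PM_R σ v) := by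
    funext v
    show (P fun i => conf t (σ ρ') v (σ i)) = P (conf t' ρ' (PM_R σ v))
    congr 1
    funext i
    rw [h1, PM_conf]
  rw [h2]
  refine JJ_map (FL τ π) (resS σ.toEmbedding) (PM_R σ) rfl ?_ (fun w => P (conf t' ρ' w))
  intro v s _ u
  funext s'
  show Function.update v s u (fun a b => s' (σ.symm a) (σ.symm b)) =
    Function.update (PM_R σ v) (resS σ.toEmbedding s) u s'
  by_cases h : s' = resS σ.toEmbedding s
  · rw [(PM_ext_iff σ s s').2 h, h, Function.update_self, Function.update_self]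
  · rw [Function.update_of_ne h, Function.update_of_ne (fun h3 => h ((PM_ext_iff σ s s').1 h3))]
    rfl

theorem JJ_root {M : (Wd → ℝ) →ₗ[ℝ] ℝ} (hM : WMean M) {m : ℕ} (τ : RTree m) (ρ ρ' : Fin m)
    (t t' : BT m) (ht : Rep τ t) (hl : t.lv = {ρ}ᶜ) (ht' : Rep τ t') (hl' : t'.lv = {ρ'}ᶜ)
    (L : List (Split m)) (P : (Fin m → ℍ) → ℝ) (hI : ∀ (g : SL(2, ℝ)) y, P (fun i => g • y i) = P y)
    (hP : ∃ C, ∀ y, |P y| ≤ C) :
    JJ M L (fun v => P (conf t ρ v)) = JJ M L (fun v => P (conf t' ρ' v)) := by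
  obtain ⟨C, hC⟩ := hP
  rw [← JJ_rev hM L (fun x => x ρ ρ' = false) (fun v => P (conf t' ρ' v)) ⟨C, fun v => hC _⟩]
  congr 1
  funext v
  obtain ⟨g, hg⟩ := conf_root τ ρ ρ' t t' ht hl ht' hl' v
  rw [← hI g (conf t' ρ' fun x => if x ρ ρ' = false then rv (v x) else v x)]
  congr 1
  funext i
  exact hg i

end SimplVol

end S_PM

section S_MU

/-!
# Module MU: the system of means

`MUf M τ ρ t P`: average over the orders `π` of the leaf edges (`PE` with equal weights) of the iterated mean of `P` at the configuration of `t` with root `ρ`.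
* `MUf_add`, `MUf_smul`, `MUf_bdd`: `PE_add`, `JJ_add`, ... (`JJ_bdd`, `PE_bdd`).
* `MUf_root`: `PE_congr` and `JJ_root`. (For `m = 1` both configurations are constant.)
* `MUf_perm`: `PE_congr`: for every ordering `π` (contains all leaves, as `π.toFinset = univ`), `JJ_perm`; then `PE_map` with `e = σ.symm.toEmbedding` (`univ.map e = univ`), weights `1`.
* `MUf_del`: `JJ_del` for every ordering `π` of `Fin (k+1)`; then `PE_merge` with `π := partialInv (Fin.succAboveEmb c) : Fin (k+1) → Option (Fin k)` (`Function.partialInv_of_injective`), `E' = univ`; the lists `l.filterMap _` have no repetition (so `dedup` does nothing); the weights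
  `∑_{e, pinv e = some b} 1 = 1` (`PE_weights`).
-/

set_option autoImplicit false

open scoped BigOperators UpperHalfPlane MatrixGroups

namespace SimplVol

variable {M : (Wd → ℝ) →ₗ[ℝ] ℝ}

/-- The mean for a given root. -/
noncomputable def MUf (M : (Wd → ℝ) →ₗ[ℝ] ℝ) {m : ℕ} (τ : RTree m) (ρ : Fin m) (t : BT m)
    (P : (Fin m → ℍ) → ℝ) : ℝ :=
  PE (fun _ => (1 : ℝ)) (Finset.univ : Finset (Fin m)).card Finset.univ fun π =>
    JJ M (FL τ π) fun v => P (conf t ρ v)

theorem MUf_add {m : ℕ} (τ : RTree m) (ρ : Fin m) (t : BT m) (P Q : (Fin m → ℍ) → ℝ) :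
    MUf M τ ρ t (P + Q) = MUf M τ ρ t P + MUf M τ ρ t Q := by
  unfold MUf
  rw [← PE_add]
  congr 1
  funext π
  exact JJ_add (FL τ π) (fun v => P (conf t ρ v)) (fun v => Q (conf t ρ v))

theorem MUf_smul {m : ℕ} (τ : RTree m) (ρ : Fin m) (t : BT m) (c : ℝ) (P : (Fin m → ℍ) → ℝ) :
    MUf M τ ρ t (c • P) = c • MUf M τ ρ t P := by
  unfold MUf
  rw [smul_eq_mul, ← PE_smul]
  congr 1
  funext π
  exact JJ_smul (FL τ π) c (fun v => P (conf t ρ v))

theorem MUf_bdd (hM : WMean M) {m : ℕ} (τ : RTree m) (ρ : Fin m) (t : BT m)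
    (P : (Fin m → ℍ) → ℝ) (C : ℝ) (h : ∀ y, |P y| ≤ C) : |MUf M τ ρ t P| ≤ C :=
  PE_bdd _ _ (fun _ _ => one_pos) _ C fun π _ _ =>
    JJ_bdd hM (FL τ π) (fun v => P (conf t ρ v)) C fun v => h _

theorem MU_all {m : ℕ} {π : List (Fin m)} (h : π.toFinset = Finset.univ) (i : Fin m) : i ∈ π := by
  rw [← List.mem_toFinset, h]
  exact Finset.mem_univ i

theorem MUf_root (hM : WMean M) {m : ℕ} (hm : 2 ≤ m) (τ : RTree m) (ρ ρ' : Fin m) (t t' : BT m)
    (ht : Rep τ t) (hl : t.lv = {ρ}ᶜ) (ht' : Rep τ t') (hl' : t'.lv = {ρ'}ᶜ)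
    (P : (Fin m → ℍ) → ℝ) (hI : InvH P) (hP : ∃ C, ∀ y, |P y| ≤ C) :
    MUf M τ ρ t P = MUf M τ ρ' t' P :=
  PE_congr _ _ _ _ fun π _ _ => JJ_root hM τ ρ ρ' t t' ht hl ht' hl' (FL τ π) P hI hP

theorem MUf_perm {m : ℕ} (τ : RTree m) (σ : Equiv.Perm (Fin m)) (ρ' : Fin m) (t t' : BT m)
    (ht : Rep τ t) (hl : t.lv = {σ ρ'}ᶜ) (ht' : Rep (τ.pull σ.toEmbedding) t')
    (hl' : t'.lv = {ρ'}ᶜ) (P : (Fin m → ℍ) → ℝ) :
    MUf M τ (σ ρ') t (fun y => P fun i => y (σ i)) =
      MUf M (τ.pull σ.toEmbedding) ρ' t' P := by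
  have h1 : MUf M τ (σ ρ') t (fun y => P fun i => y (σ i)) =
      PE (fun _ => (1 : ℝ)) (Finset.univ : Finset (Fin m)).card Finset.univ fun π =>
        JJ M (FL (τ.pull σ.toEmbedding) (π.map σ.symm)) (fun v => P (conf t' ρ' v)) :=
    PE_congr _ _ _ _ fun π _ hπ => JJ_perm τ σ ρ' t t' ht hl ht' hl' π (MU_all hπ) P
  rw [h1]
  have h2 := PE_map (fun _ : Fin m => (1 : ℝ)) Finset.univ σ.symm.toEmbedding fun π =>
    JJ M (FL (τ.pull σ.toEmbedding) π) (fun v => P (conf t' ρ' v))
  rw [Finset.map_univ_equiv] at h2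
  exact h2.symm

theorem MUf_del (hM : WMean M) {k : ℕ} (hk : 1 ≤ k) (τ : RTree (k + 1)) (c ρ : Fin (k + 1))
    (hc : c ≠ ρ) (ρ' : Fin k) (hρ : c.succAbove ρ' = ρ) (t : BT (k + 1)) (ht : Rep τ t)
    (hl : t.lv = {ρ}ᶜ) (t' : BT k)
    (ht' : 2 ≤ k → Rep (τ.pull (Fin.succAboveEmb c)) t' ∧ t'.lv = {ρ'}ᶜ)
    (P : (Fin k → ℍ) → ℝ) (hP : ∃ C, ∀ y, |P y| ≤ C) :
    MUf M τ ρ t (fun y => P fun i => y (c.succAbove i)) =
      MUf M (τ.pull (Fin.succAboveEmb c)) ρ' t' P := by
  set pinv : Fin (k + 1) → Option (Fin k) := Function.partialInv (Fin.succAboveEmb c) with hpinv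
  have hp : ∀ (e : Fin (k + 1)) (b : Fin k), pinv e = some b ↔ Fin.succAboveEmb c b = e :=
    fun e b => Function.partialInv_of_injective (Fin.succAboveEmb c).injective b e
  have h1 : MUf M τ ρ t (fun y => P fun i => y (c.succAbove i)) =
      PE (fun _ => (1 : ℝ)) (Finset.univ : Finset (Fin (k + 1))).card Finset.univ fun π =>
        JJ M (FL (τ.pull (Fin.succAboveEmb c)) (π.filterMap pinv).dedup)
          (fun v => P (conf t' ρ' v)) := by
    refine PE_congr _ _ _ _ fun π hn hπ => ?_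
    have h2 : (π.filterMap pinv).Nodup := by
      refine List.Nodup.filterMap (fun a a' b hb hb' => ?_) hn
      rw [Option.mem_def, hp] at hb hb'
      rw [← hb, ← hb']
    rw [h2.dedup]
    exact JJ_del hM hk τ c ρ hc ρ' hρ t ht hl t' ht' π (MU_all hπ) P hP
  rw [h1, PE_merge (fun _ => (1 : ℝ)) Finset.univ (fun _ _ => one_pos) pinv Finset.univ
    (fun b => ⟨fun _ => ⟨Fin.succAboveEmb c b, Finset.mem_univ _, (hp _ _).2 rfl⟩,
      fun _ => Finset.mem_univ _⟩)
    (fun π => JJ M (FL (τ.pull (Fin.succAboveEmb c)) π) (fun v => P (conf t' ρ' v)))]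
  refine PE_weights _ _ _ _ (fun b _ => ?_) _
  have h3 : (Finset.univ.filter fun e => pinv e = some b) = {Fin.succAboveEmb c b} := by
    ext e
    rw [Finset.mem_filter, Finset.mem_singleton, hp]
    exact ⟨fun h => h.2.symm, fun h => ⟨Finset.mem_univ _, h.symm⟩⟩
  rw [h3, Finset.sum_singleton]

end SimplVol

end S_MU

section S_MV

/-!
# Module MV: the system of means, naturality

* `muF`: root `0`, a tree chosen by `exists_rep`. `muF_nat`: induction on `m` (for all `k`, `ι`). If `k = m`: `ι` is bijective (`Finite.injective_iff_bijective`), `ι = σ.toEmbedding` (`Equiv.ofBijective`); `m = 1`: `σ = 1`. Else `MUf_root` to the root `σ 0` and `MUf_perm` with `ρ' = 0`.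
  If `k < m`: `m = m' + 1`, some `c` is not in the range of `ι` (cardinality), `ι = ι'.trans (Fin.succAboveEmb c)` (`Fin.exists_succAbove_eq`), `ρ = ι 0 ≠ c`, `ρ' = ι' 0`; `MUf_root` from `0` to `ρ`, then `MUf_del` for the function `y' ↦ P (y' ∘ ι')` (bounded), with `t'` a tree for root `ρ'`
  (`exists_rep` if `m' ≥ 2`), then `MUf_root` from `ρ'` to `0`, then the induction hypothesis, `pull_trans`.
-/

set_option autoImplicit false

open scoped BigOperators UpperHalfPlane MatrixGroups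

namespace SimplVol

variable {M : (Wd → ℝ) →ₗ[ℝ] ℝ}

/-- The chosen tree with root `0`. -/
noncomputable def tree0 {m : ℕ} (τ : RTree (m + 1)) : BT (m + 1) :=
  if h : 2 ≤ m + 1 then (exists_rep h τ 0).choose else .leaf 0

/-- The system of means. -/
noncomputable def muF (M : (Wd → ℝ) →ₗ[ℝ] ℝ) : ∀ m, RTree m → ((Fin m → ℍ) → ℝ) →ₗ[ℝ] ℝ
  | 0, _ => 0
  | _ + 1, τ =>
    { toFun := fun P => MUf M τ 0 (tree0 τ) P
      map_add' := MUf_add τ 0 (tree0 τ)
      map_smul' := MUf_smul τ 0 (tree0 τ) }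

theorem MV_apply (M : (Wd → ℝ) →ₗ[ℝ] ℝ) {m : ℕ} (τ : RTree (m + 1))
    (P : (Fin (m + 1) → ℍ) → ℝ) : muF M (m + 1) τ P = MUf M τ 0 (tree0 τ) P := rfl

theorem MV_tree {m : ℕ} (h : 2 ≤ m + 1) (τ : RTree (m + 1)) :
    Rep τ (tree0 τ) ∧ (tree0 τ).lv = {0}ᶜ := by
  have h1 : tree0 τ = (exists_rep h τ 0).choose := dif_pos h
  rw [h1]
  exact ⟨(exists_rep h τ 0).choose_spec.2, (exists_rep h τ 0).choose_spec.1⟩

/-- the mean does not depend on the root -/
theorem MV_root (hM : WMean M) {m : ℕ} (h : 2 ≤ m + 1) (τ : RTree (m + 1)) (ρ : Fin (m + 1))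
    (t : BT (m + 1)) (ht : Rep τ t) (hl : t.lv = {ρ}ᶜ) (P : (Fin (m + 1) → ℍ) → ℝ) (hI : InvH P)
    (hP : ∃ C, ∀ y, |P y| ≤ C) : muF M (m + 1) τ P = MUf M τ ρ t P := by
  rw [MV_apply]
  exact MUf_root hM h τ 0 ρ _ t (MV_tree h τ).1 (MV_tree h τ).2 ht hl P hI hP

theorem MV_inv {k m : ℕ} (ι : Fin k → Fin m) (P : (Fin k → ℍ) → ℝ) (hI : InvH P) :
    InvH (fun y : Fin m → ℍ => P fun i => y (ι i)) := by
  intro g y
  exact hI g fun i => y (ι i)

theorem MV_bdd {k m : ℕ} (ι : Fin k → Fin m) (P : (Fin k → ℍ) → ℝ) (hP : ∃ C, ∀ y, |P y| ≤ C) :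
    ∃ C, ∀ y : Fin m → ℍ, |P fun i => y (ι i)| ≤ C := by
  obtain ⟨C, hC⟩ := hP
  exact ⟨C, fun y => hC _⟩

theorem MV_perm (hM : WMean M) (m : ℕ) (σ : Equiv.Perm (Fin m)) (τ : RTree m)
    (P : (Fin m → ℍ) → ℝ) (hk : 1 ≤ m) (hI : InvH P) (hP : ∃ C, ∀ y, |P y| ≤ C) :
    muF M m τ (fun y => P fun i => y (σ i)) = muF M m (τ.pull σ.toEmbedding) P := by
  obtain ⟨m, rfl⟩ : ∃ m', m = m' + 1 := ⟨m - 1, by omega⟩
  by_cases h : 2 ≤ m + 1
  · obtain ⟨t, hl, ht⟩ := exists_rep h τ (σ 0)
    rw [MV_root hM h τ (σ 0) t ht hl _ (MV_inv σ P hI) (MV_bdd σ P hP), MV_apply]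
    exact MUf_perm τ σ 0 t _ ht hl (MV_tree h _).1 (MV_tree h _).2 P
  · have hm : m = 0 := by omega
    subst hm
    have hσ : σ = 1 := by
      apply Equiv.ext
      intro i
      exact Subsingleton.elim (α := Fin 1) _ _
    subst hσ
    have h1 : (1 : Equiv.Perm (Fin (0 + 1))).toEmbedding = Function.Embedding.refl _ := by
      ext i
      rfl
    rw [h1, RTree.pull_refl]
    rfl

theorem MV_del (hM : WMean M) {k : ℕ} (hk : 1 ≤ k) (τ : RTree (k + 1)) (c : Fin (k + 1))
    (P : (Fin k → ℍ) → ℝ) (hI : InvH P) (hP : ∃ C, ∀ y, |P y| ≤ C) :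
    muF M (k + 1) τ (fun y => P fun i => y (c.succAbove i)) =
      muF M k (τ.pull (Fin.succAboveEmb c)) P := by
  obtain ⟨k, rfl⟩ : ∃ k', k = k' + 1 := ⟨k - 1, by omega⟩
  have h2 : 2 ≤ k + 1 + 1 := by omega
  obtain ⟨t, hl, ht⟩ := exists_rep h2 τ (c.succAbove 0)
  rw [MV_root hM h2 τ (c.succAbove 0) t ht hl _ (MV_inv c.succAbove P hI)
    (MV_bdd c.succAbove P hP), MV_apply]
  refine MUf_del hM hk τ c (c.succAbove 0) (Fin.succAbove_ne c 0).symm 0 rfl t ht hl _ ?_ P hP
  intro h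
  exact MV_tree h _

theorem muF_nat (hM : WMean M) (k m : ℕ) (ι : Fin k ↪ Fin m) (τ : RTree m)
    (P : (Fin k → ℍ) → ℝ) (hk : 1 ≤ k) (hI : InvH P) (hP : ∃ C, ∀ y, |P y| ≤ C) :
    muF M m τ (fun y => P fun i => y (ι i)) = muF M k (τ.pull ι) P := by
  induction m with
  | zero => exact (ι ⟨0, hk⟩).elim0
  | succ m ih =>
    have hle : k ≤ m + 1 := by
      have := Fintype.card_le_of_embedding ι
      simpa using this
    rcases Nat.eq_or_lt_of_le hle with h | h
    · subst h
      have hb : Function.Bijective ι := Finite.injective_iff_bijective.1 ι.injective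
      have h1 : ι = (Equiv.ofBijective ι hb).toEmbedding := by
        ext i
        rfl
      have h2 := MV_perm hM (m + 1) (Equiv.ofBijective ι hb) τ P hk hI hP
      rw [← h1] at h2
      exact h2
    · obtain ⟨c, hc⟩ : ∃ c : Fin (m + 1), ∀ i, ι i ≠ c := by
        by_contra hcon
        push Not at hcon
        have hs : Function.Surjective ι := hcon
        have := Fintype.card_le_of_surjective ι hs
        simp at this
        omega
      choose f hf using fun i => Fin.exists_succAbove_eq (hc i)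
      have hfi : Function.Injective f := by
        intro a b hab
        apply ι.injective
        rw [← hf a, ← hf b, hab]
      have h1 : ι = (⟨f, hfi⟩ : Fin k ↪ Fin m).trans (Fin.succAboveEmb c) := by
        ext i
        show ((ι i : Fin (m + 1)) : ℕ) = (c.succAbove (f i) : Fin (m + 1))
        rw [hf i]
      have hm : 1 ≤ m := by omega
      have h2 := MV_del hM hm τ c (fun y => P fun i => y (f i)) (MV_inv f P hI) (MV_bdd f P hP)
      have h3 := ih ⟨f, hfi⟩ (τ.pull (Fin.succAboveEmb c))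
      rw [RTree.pull_trans, ← h1] at h3
      have h4 : (fun y : Fin (m + 1) → ℍ => P fun i => y (ι i)) =
          fun y => P fun i => y (c.succAbove (f i)) := by
        funext y
        congr 1
        funext i
        rw [hf i]
      rw [h4]
      exact h2.trans h3

end SimplVol

end S_MV

section S_AA

/-!
# Module AA: the area of a triangle with vertices far out

* `vol_bad`: for `Re a ≥ 0` (`x = a.re ≥ 0`, `y = a.im`, `|a|² = x² + y²`): `u ∈ ell a` means `u₁² - 2 x u₁ u₂ + |a|² u₂² ≤ y`; if `u₁ u₂ ≤ 0` then `u₁² + |a|² u₂² ≤ y`, so `|u₁| ≤ √y`, `|u₂| ≤ √y/|a|`: the set lies in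
  `([-√y, 0] × [0, √y/|a|]) ∪ ([0, √y] × [-√y/|a|, 0])`, of volume `2 y/|a|` (`Measure.prod_prod`, `Real.volume_Icc`, `measure_union_le`).
* `word_point`: let `rho w = (p q; r s)`: nonnegative integers (real numbers), determinant `1`, `p + q ≥ 1`, `r + s ≥ 1`, `p + q + r + s ≥ |w| + 2` (induction on `w`: multiply by `gL` or `gR` from the LEFT: `(p q; p+r q+s)`, `(p+r q+s; r s)`).
  `a = rho w • I = (p i + q)/(r i + s)`: `a.re = (p r + q s)/(r² + s²) ≥ 0`, `a.im = 1/(r² + s²)`, `|a|² = (p² + q²)/(r² + s²)`, so `a.im/|a| = 1/√((p²+q²)(r²+s²))`, and `(p²+q²)(r²+s²) ≥ ((p+q)²/2)((r+s)²/2)`, `(p+q)(r+s) ≥ (p+q)+(r+s)-1 ≥ |w|+1`: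
  `a.im/|a| ≤ 2/(|w|+1)`. (`UpperHalfPlane.coe_specialLinearGroup_apply`.)
* `area_words`: let `x₀ = gS • a₀`, `x₁ = gL • a₁`, `x₂ = gR • a₂`, `a_j = rho w_j • I`. Good sets: `J₀ : u₁ u₂ < 0`, `J₁ : u₁ (u₂ - u₁) > 0`, `J₂ : (u₁ - u₂) u₂ > 0`; `act gS u ∈ J₀ ↔ u₁ u₂ > 0`, `act gL u ∈ J₁ ↔ u₁ u₂ > 0`, `act gR u ∈ J₂ ↔ u₁ u₂ > 0`. By `ell_act` and
  `act_preserving` the volume of `ell x_j \ J_j` is that of `{u ∈ ell a_j | u₁ u₂ ≤ 0}`, at most `2 (a_j.im/|a_j|) ≤ 4/(|w_j|+1)`. If `u ∈ J₀`, `v ∈ J₁`, `w ∈ J₂` then `dt u v * dt v w * dt w u > 0` (signs: WLOG `u₂, v₂, w₂ > 0`; `dt u v < 0`, `dt v w < 0`, `dt w u > 0`; `nlinarith` or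
  divide by `u₂ v₂ w₂`: slopes `s < 0 < t < 1 < r`). So the set of the positively oriented triples in `ell x₀ × ell x₁ × ell x₂` (volume `π³` in total, `volume_ell`) misses at most the union of three sets of volume `≤ π² * 4/(|w_j|+1)`: `PP x₀ x₁ x₂ ≥ 1 - (4/π) Σ 1/(|w_j|+1)`;
  `PP x₁ x₀ x₂ ≤ 1 - PP x₀ x₁ x₂` (`PP_swap`). `PP_sub`: `area x₀ x₁ x₂ ≥ π - 8 Σ`; `area ≤ π` (module AR: `abs_area_lt` or `PP_sub` and `PP ≤ 1`).
* `area_conf`: `area` is invariant (`area_smul`): apply `(rho w₀)⁻¹ = gS * rho (rv w₀) * gS⁻¹` (from `rho_gS_rv`) to `I`, `rho (w₀ ++ false :: w₁) • I`, `rho (w₀ ++ true :: w₂) • I`: get `gS • rho (rv w₀) • I` (`gS⁻¹ • I = I`), `gL • rho w₁ • I`, `gR • rho w₂ • I`; `|rv w₀| = |w₀|`.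
-/

set_option autoImplicit false

open scoped BigOperators UpperHalfPlane MatrixGroups ENNReal
open MeasureTheory

namespace SimplVol

theorem vol_bad (a : ℍ) (ha : 0 ≤ a.re) :
    volume {u : Pl | u ∈ ell a ∧ u.1 * u.2 ≤ 0} ≤
      ENNReal.ofReal (2 * a.im / Real.sqrt (a.re ^ 2 + a.im ^ 2)) := by
  have hy := a.im_pos
  set N := Real.sqrt (a.re ^ 2 + a.im ^ 2) with hN
  have hNN : N ^ 2 = a.re ^ 2 + a.im ^ 2 := Real.sq_sqrt (by positivity)
  have hNpos : 0 < N := Real.sqrt_pos.2 (by positivity)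
  set S := Real.sqrt a.im with hS
  have hSS : S * S = a.im := Real.mul_self_sqrt hy.le
  have hSpos : 0 < S := Real.sqrt_pos.2 hy
  have hsub : {u : Pl | u ∈ ell a ∧ u.1 * u.2 ≤ 0} ⊆
      (Set.Icc (-S) 0 ×ˢ Set.Icc 0 (S / N)) ∪ (Set.Icc 0 S ×ˢ Set.Icc (-(S / N)) 0) := by
    rintro u ⟨h1, h2⟩
    have h1' : (u.1 - a.re * u.2) ^ 2 + (a.im * u.2) ^ 2 ≤ a.im := h1
    have h3 : 0 ≤ -(a.re * (u.1 * u.2)) := by
      have := mul_nonpos_of_nonneg_of_nonpos ha h2
      linarith
    have h4 : u.1 ^ 2 + (N * u.2) ^ 2 ≤ a.im := by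
      have : (N * u.2) ^ 2 = (a.re ^ 2 + a.im ^ 2) * u.2 ^ 2 := by rw [mul_pow, hNN]
      rw [this]
      nlinarith [h1', h3]
    have h5 : |u.1| ≤ S := Real.abs_le_sqrt (by nlinarith [sq_nonneg (N * u.2)])
    have h6 : |N * u.2| ≤ S := Real.abs_le_sqrt (by nlinarith [sq_nonneg u.1])
    rw [abs_le] at h5 h6
    have h7 : u.2 ≤ S / N := by
      rw [le_div_iff₀ hNpos]
      linarith [h6.2]
    have h8 : -(S / N) ≤ u.2 := by
      rw [← neg_div, div_le_iff₀ hNpos]
      linarith [h6.1]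
    rcases mul_nonpos_iff.1 h2 with ⟨h9, h10⟩ | ⟨h9, h10⟩
    · right
      exact ⟨⟨h9, h5.2⟩, ⟨h8, h10⟩⟩
    · left
      exact ⟨⟨h5.1, h9⟩, ⟨h10, h7⟩⟩
  refine (measure_mono hsub).trans ((measure_union_le _ _).trans ?_)
  have e : (volume : Measure Pl) = (volume : Measure ℝ).prod (volume : Measure ℝ) := rfl
  rw [e, Measure.prod_prod, Measure.prod_prod, Real.volume_Icc, Real.volume_Icc, Real.volume_Icc,
    Real.volume_Icc]
  have hSN : 0 ≤ S / N := by positivity
  rw [← ENNReal.ofReal_mul (by linarith), ← ENNReal.ofReal_mul (by linarith),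
    ← ENNReal.ofReal_add (by nlinarith) (by nlinarith)]
  apply ENNReal.ofReal_le_ofReal
  apply le_of_eq
  rw [← hSS]
  field_simp
  ring

private theorem AA_mul (g h : SL(2, ℝ)) (i j : Fin 2) :
    (g * h) i j = g i 0 * h 0 j + g i 1 * h 1 j := by
  rw [Matrix.SpecialLinearGroup.coe_mul, Matrix.mul_apply, Fin.sum_univ_two]

private theorem AA_ent (w : Wd) : 0 ≤ rho w 0 0 ∧ 0 ≤ rho w 0 1 ∧ 0 ≤ rho w 1 0 ∧
    0 ≤ rho w 1 1 ∧ 1 ≤ rho w 0 0 + rho w 0 1 ∧ 1 ≤ rho w 1 0 + rho w 1 1 ∧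
    (w.length : ℝ) + 2 ≤ rho w 0 0 + rho w 0 1 + rho w 1 0 + rho w 1 1 := by
  induction w with
  | nil =>
    have h00 : rho [] 0 0 = 1 := by rw [rho_nil]; rfl
    have h01 : rho [] 0 1 = 0 := by rw [rho_nil]; rfl
    have h10 : rho [] 1 0 = 0 := by rw [rho_nil]; rfl
    have h11 : rho [] 1 1 = 1 := by rw [rho_nil]; rfl
    rw [h00, h01, h10, h11]
    norm_num
  | cons t w ih =>
    obtain ⟨h1, h2, h3, h4, h5, h6, h7⟩ := ih
    rw [rho_cons]
    simp only [AA_mul]
    cases t
    · have g00 : gT false 0 0 = 1 := rfl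
      have g01 : gT false 0 1 = 0 := rfl
      have g10 : gT false 1 0 = 1 := rfl
      have g11 : gT false 1 1 = 1 := rfl
      rw [g00, g01, g10, g11]
      simp only [List.length_cons, Nat.cast_add, Nat.cast_one]
      refine ⟨?_, ?_, ?_, ?_, ?_, ?_, ?_⟩ <;> linarith
    · have g00 : gT true 0 0 = 1 := rfl
      have g01 : gT true 0 1 = 1 := rfl
      have g10 : gT true 1 0 = 0 := rfl
      have g11 : gT true 1 1 = 1 := rfl
      rw [g00, g01, g10, g11]
      simp only [List.length_cons, Nat.cast_add, Nat.cast_one]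
      refine ⟨?_, ?_, ?_, ?_, ?_, ?_, ?_⟩ <;> linarith

theorem word_point (w : Wd) : 0 ≤ (rho w • UpperHalfPlane.I).re ∧
    (rho w • UpperHalfPlane.I).im /
      Real.sqrt ((rho w • UpperHalfPlane.I).re ^ 2 + (rho w • UpperHalfPlane.I).im ^ 2) ≤
      2 / ((w.length : ℝ) + 1) := by
  obtain ⟨h1, h2, h3, h4, h5, h6, h7⟩ := AA_ent w
  have hdet : rho w 0 0 * rho w 1 1 - rho w 0 1 * rho w 1 0 = 1 := by
    have h := (rho w).det_coe
    rwa [Matrix.det_fin_two] at h
  have hco : ((rho w • UpperHalfPlane.I : ℍ) : ℂ) =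
      ((rho w 0 0 : ℂ) * Complex.I + rho w 0 1) / ((rho w 1 0 : ℂ) * Complex.I + rho w 1 1) :=
    UpperHalfPlane.coe_specialLinearGroup_apply (rho w) UpperHalfPlane.I
  set p := rho w 0 0
  set q := rho w 0 1
  set r := rho w 1 0
  set s := rho w 1 1
  set D := r ^ 2 + s ^ 2 with hD
  have hDpos : 0 < D := by nlinarith [sq_nonneg (r - s), sq_nonneg (r + s)]
  have hnorm : Complex.normSq ((r : ℂ) * Complex.I + s) = D := by
    rw [Complex.normSq_apply]
    simp
    ring
  have hre : (rho w • UpperHalfPlane.I : ℍ).re = (p * r + q * s) / D := by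
    rw [← UpperHalfPlane.coe_re, hco, Complex.div_re, hnorm]
    simp
    ring
  have him : (rho w • UpperHalfPlane.I : ℍ).im = 1 / D := by
    rw [← UpperHalfPlane.coe_im, hco, Complex.div_im, hnorm, ← hdet]
    simp
    ring
  rw [hre, him]
  refine ⟨by positivity, ?_⟩
  have hsq : ((p * r + q * s) / D) ^ 2 + (1 / D) ^ 2 = (p ^ 2 + q ^ 2) / D := by
    have h8 : (p * r + q * s) ^ 2 + 1 = (p ^ 2 + q ^ 2) * D := by
      have : (1 : ℝ) = (p * s - q * r) ^ 2 := by rw [hdet]; norm_num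
      rw [this, hD]
      ring
    rw [div_pow, div_pow, ← add_div, one_pow, h8]
    field_simp
  rw [hsq]
  have hA : 0 < p ^ 2 + q ^ 2 := by nlinarith [sq_nonneg (p - q), sq_nonneg (p + q)]
  have hQpos : 0 < Real.sqrt ((p ^ 2 + q ^ 2) / D) := Real.sqrt_pos.2 (by positivity)
  have hL : (0 : ℝ) < (w.length : ℝ) + 1 := by positivity
  rw [div_le_div_iff₀ hQpos hL]
  have h9 : 1 / D * ((w.length : ℝ) + 1) / 2 ≤ Real.sqrt ((p ^ 2 + q ^ 2) / D) := by
    apply Real.le_sqrt_of_sq_le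
    have h10 : ((w.length : ℝ) + 1) ≤ (p + q) * (r + s) := by nlinarith
    have h11 : ((w.length : ℝ) + 1) ^ 2 ≤ ((p + q) * (r + s)) ^ 2 :=
      pow_le_pow_left₀ hL.le h10 2
    have h12 : (p + q) ^ 2 ≤ 2 * (p ^ 2 + q ^ 2) := by nlinarith [sq_nonneg (p - q)]
    have h13 : (r + s) ^ 2 ≤ 2 * D := by nlinarith [sq_nonneg (r - s)]
    have h14 : ((p + q) * (r + s)) ^ 2 ≤ (2 * (p ^ 2 + q ^ 2)) * (2 * D) := by
      rw [mul_pow]
      exact mul_le_mul h12 h13 (by positivity) (by positivity)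
    have h15 : (1 / D * ((w.length : ℝ) + 1) / 2) ^ 2 = ((w.length : ℝ) + 1) ^ 2 / (4 * D ^ 2) := by
      field_simp
      ring
    rw [h15, div_le_div_iff₀ (by positivity) hDpos]
    have h16 : ((w.length : ℝ) + 1) ^ 2 ≤ 4 * (p ^ 2 + q ^ 2) * D := by linarith
    nlinarith [h16, hDpos]
  linarith

/-- The measure of a bad set. -/
private theorem AA_bad (g : SL(2, ℝ)) (J : Set Pl) (hJ : MeasurableSet J)
    (hg : ∀ u, 0 < u.1 * u.2 → act g u ∈ J) (w : Wd) :
    volume (ell (g • rho w • UpperHalfPlane.I) \ J) ≤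
      ENNReal.ofReal (4 / ((w.length : ℝ) + 1)) := by
  set a : ℍ := rho w • UpperHalfPlane.I with ha
  obtain ⟨h1, h2⟩ := word_point w
  have hm : MeasurableSet (ell (g • a) \ J) := (ell_measurable _).diff hJ
  rw [← (act_preserving g).measure_preimage hm.nullMeasurableSet]
  have hsub : act g ⁻¹' (ell (g • a) \ J) ⊆ {u : Pl | u ∈ ell a ∧ u.1 * u.2 ≤ 0} := by
    rintro u ⟨h3, h4⟩
    refine ⟨(ell_act g a u).1 h3, ?_⟩
    by_contra h5
    exact h4 (hg u (not_le.1 h5))
  refine (measure_mono hsub).trans ((vol_bad a h1).trans (ENNReal.ofReal_le_ofReal ?_))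
  rw [mul_div_assoc]
  calc 2 * (a.im / Real.sqrt (a.re ^ 2 + a.im ^ 2)) ≤ 2 * (2 / ((w.length : ℝ) + 1)) :=
        mul_le_mul_of_nonneg_left h2 (by norm_num)
    _ = 4 / ((w.length : ℝ) + 1) := by ring

private theorem AA_sign (u v w : Pl) (hu : u.1 * u.2 < 0) (hv : 0 < v.1 * (v.2 - v.1))
    (hw : 0 < (w.1 - w.2) * w.2) : 0 < dt u v * dt v w * dt w u := by
  have hu2 : u.2 ≠ 0 := by
    intro h
    rw [h, mul_zero] at hu
    exact lt_irrefl _ hu
  have hv2 : v.2 ≠ 0 := by
    intro h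
    rw [h] at hv
    nlinarith [sq_nonneg v.1]
  have hw2 : w.2 ≠ 0 := by
    intro h
    rw [h, mul_zero] at hw
    exact lt_irrefl _ hw
  obtain ⟨s, hs⟩ : ∃ s, u.1 = s * u.2 := ⟨u.1 / u.2, by field_simp⟩
  obtain ⟨t, ht⟩ : ∃ t, v.1 = t * v.2 := ⟨v.1 / v.2, by field_simp⟩
  obtain ⟨r, hr⟩ : ∃ r, w.1 = r * w.2 := ⟨w.1 / w.2, by field_simp⟩
  have pu : 0 < u.2 ^ 2 := by positivity
  have pv : 0 < v.2 ^ 2 := by positivity
  have pw : 0 < w.2 ^ 2 := by positivity
  have h1 : s < 0 := by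
    have : s * u.2 ^ 2 < 0 := by
      rw [hs] at hu
      linarith
    by_contra h
    push Not at h
    have := mul_nonneg h pu.le
    linarith
  have h2 : 0 < t * (1 - t) := by
    have h3 : 0 < (t * (1 - t)) * v.2 ^ 2 := by
      rw [ht] at hv
      linarith
    exact pos_of_mul_pos_left h3 pv.le
  have h3 : 0 < t := by
    by_contra h
    push Not at h
    nlinarith
  have h4 : t < 1 := by
    by_contra h
    push Not at h
    nlinarith
  have h5 : 1 < r := by
    have h6 : 0 < (r - 1) * w.2 ^ 2 := by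
      rw [hr] at hw
      linarith
    have := pos_of_mul_pos_left h6 pw.le
    linarith
  have h6 : dt u v * dt v w * dt w u =
      (u.2 ^ 2 * v.2 ^ 2 * w.2 ^ 2) * ((t - s) * (r - t) * (r - s)) := by
    unfold dt
    rw [hs, ht, hr]
    ring
  rw [h6]
  have h7 : 0 < t - s := by linarith
  have h8 : 0 < r - t := by linarith
  have h9 : 0 < r - s := by linarith
  positivity

theorem area_words (w₀ w₁ w₂ : Wd) :
    |area (gS • rho w₀ • UpperHalfPlane.I) (gL • rho w₁ • UpperHalfPlane.I)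
      (gR • rho w₂ • UpperHalfPlane.I) - Real.pi| ≤
      8 * (1 / ((w₀.length : ℝ) + 1) + 1 / ((w₁.length : ℝ) + 1) + 1 / ((w₂.length : ℝ) + 1)) := by
  have hpi := Real.pi_pos
  set x₀ : ℍ := gS • rho w₀ • UpperHalfPlane.I with hx₀
  set x₁ : ℍ := gL • rho w₁ • UpperHalfPlane.I with hx₁
  set x₂ : ℍ := gR • rho w₂ • UpperHalfPlane.I with hx₂
  set Sg : ℝ := 1 / ((w₀.length : ℝ) + 1) + 1 / ((w₁.length : ℝ) + 1) +
    1 / ((w₂.length : ℝ) + 1) with hSg
  set J₀ : Set Pl := {u | u.1 * u.2 < 0} with hJ₀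
  set J₁ : Set Pl := {u | 0 < u.1 * (u.2 - u.1)} with hJ₁
  set J₂ : Set Pl := {u | 0 < (u.1 - u.2) * u.2} with hJ₂
  have m₀ : MeasurableSet J₀ := measurableSet_lt (by fun_prop) measurable_const
  have m₁ : MeasurableSet J₁ := measurableSet_lt measurable_const (by fun_prop)
  have m₂ : MeasurableSet J₂ := measurableSet_lt measurable_const (by fun_prop)
  have b₀ : volume (ell x₀ \ J₀) ≤ ENNReal.ofReal (4 / ((w₀.length : ℝ) + 1)) := by
    refine AA_bad gS J₀ m₀ ?_ w₀
    intro u hu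
    have h00 : gS 0 0 = 0 := rfl
    have h01 : gS 0 1 = -1 := rfl
    have h10 : gS 1 0 = 1 := rfl
    have h11 : gS 1 1 = 0 := rfl
    change (gS 0 0 * u.1 + gS 0 1 * u.2) * (gS 1 0 * u.1 + gS 1 1 * u.2) < 0
    rw [h00, h01, h10, h11]
    linarith
  have b₁ : volume (ell x₁ \ J₁) ≤ ENNReal.ofReal (4 / ((w₁.length : ℝ) + 1)) := by
    refine AA_bad gL J₁ m₁ ?_ w₁
    intro u hu
    have h00 : gL 0 0 = 1 := rfl
    have h01 : gL 0 1 = 0 := rfl
    have h10 : gL 1 0 = 1 := rfl
    have h11 : gL 1 1 = 1 := rfl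
    change 0 < (gL 0 0 * u.1 + gL 0 1 * u.2) *
      ((gL 1 0 * u.1 + gL 1 1 * u.2) - (gL 0 0 * u.1 + gL 0 1 * u.2))
    rw [h00, h01, h10, h11]
    linarith
  have b₂ : volume (ell x₂ \ J₂) ≤ ENNReal.ofReal (4 / ((w₂.length : ℝ) + 1)) := by
    refine AA_bad gR J₂ m₂ ?_ w₂
    intro u hu
    have h00 : gR 0 0 = 1 := rfl
    have h01 : gR 0 1 = 1 := rfl
    have h10 : gR 1 0 = 0 := rfl
    have h11 : gR 1 1 = 1 := rfl
    change 0 < ((gR 0 0 * u.1 + gR 0 1 * u.2) - (gR 1 0 * u.1 + gR 1 1 * u.2)) *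
      (gR 1 0 * u.1 + gR 1 1 * u.2)
    rw [h00, h01, h10, h11]
    linarith
  set E : Set (Pl × Pl × Pl) := ell x₀ ×ˢ (ell x₁ ×ˢ ell x₂) with hE
  set T : Set (Pl × Pl × Pl) := {p | p.1 ∈ ell x₀ ∧ p.2.1 ∈ ell x₁ ∧ p.2.2 ∈ ell x₂ ∧
    0 < dt p.1 p.2.1 * dt p.2.1 p.2.2 * dt p.2.2 p.1} with hT
  have e : (volume : Measure (Pl × Pl × Pl)) =
      (volume : Measure Pl).prod ((volume : Measure Pl).prod (volume : Measure Pl)) := rfl
  have hEvol : volume E = ENNReal.ofReal (Real.pi ^ 3) := by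
    rw [hE, e, Measure.prod_prod, Measure.prod_prod,
      volume_ell, volume_ell, volume_ell, ← ENNReal.ofReal_mul Real.pi_pos.le,
      ← ENNReal.ofReal_mul Real.pi_pos.le]
    congr 1
    ring
  have hcov : E ⊆ T ∪ (((ell x₀ \ J₀) ×ˢ (ell x₁ ×ˢ ell x₂)) ∪
      ((ell x₀ ×ˢ ((ell x₁ \ J₁) ×ˢ ell x₂)) ∪ (ell x₀ ×ˢ (ell x₁ ×ˢ (ell x₂ \ J₂))))) := by
    rintro ⟨u, v, w⟩ ⟨h1, h2, h3⟩
    by_cases c₀ : u ∈ J₀
    · by_cases c₁ : v ∈ J₁
      · by_cases c₂ : w ∈ J₂
        · left
          exact ⟨h1, h2, h3, AA_sign u v w c₀ c₁ c₂⟩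
        · right; right; right
          exact ⟨h1, h2, h3, c₂⟩
      · right; right; left
        exact ⟨h1, ⟨h2, c₁⟩, h3⟩
    · right; left
      exact ⟨⟨h1, c₀⟩, h2, h3⟩
  have hbd : ENNReal.ofReal (Real.pi ^ 3) ≤ volume T +
      ENNReal.ofReal (4 * Real.pi ^ 2 * Sg) := by
    rw [← hEvol]
    refine (measure_mono hcov).trans ((measure_union_le _ _).trans ?_)
    gcongr
    refine (measure_union_le _ _).trans ?_
    refine (add_le_add le_rfl (measure_union_le _ _)).trans ?_
    rw [e, Measure.prod_prod, Measure.prod_prod, Measure.prod_prod, Measure.prod_prod,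
      Measure.prod_prod, Measure.prod_prod, volume_ell, volume_ell, volume_ell]
    have k₀ : volume (ell x₀ \ J₀) * (ENNReal.ofReal Real.pi * ENNReal.ofReal Real.pi) ≤
        ENNReal.ofReal (4 * Real.pi ^ 2 * (1 / ((w₀.length : ℝ) + 1))) := by
      refine (mul_le_mul' b₀ le_rfl).trans ?_
      rw [← ENNReal.ofReal_mul hpi.le, ← ENNReal.ofReal_mul (by positivity)]
      apply ENNReal.ofReal_le_ofReal
      apply le_of_eq
      ring
    have k₁ : ENNReal.ofReal Real.pi * (volume (ell x₁ \ J₁) * ENNReal.ofReal Real.pi) ≤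
        ENNReal.ofReal (4 * Real.pi ^ 2 * (1 / ((w₁.length : ℝ) + 1))) := by
      refine (mul_le_mul' le_rfl (mul_le_mul' b₁ le_rfl)).trans ?_
      rw [← ENNReal.ofReal_mul (by positivity), ← ENNReal.ofReal_mul (by positivity)]
      apply ENNReal.ofReal_le_ofReal
      apply le_of_eq
      ring
    have k₂ : ENNReal.ofReal Real.pi * (ENNReal.ofReal Real.pi * volume (ell x₂ \ J₂)) ≤
        ENNReal.ofReal (4 * Real.pi ^ 2 * (1 / ((w₂.length : ℝ) + 1))) := by
      refine (mul_le_mul' le_rfl (mul_le_mul' le_rfl b₂)).trans ?_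
      rw [← ENNReal.ofReal_mul (by positivity), ← ENNReal.ofReal_mul (by positivity)]
      apply ENNReal.ofReal_le_ofReal
      apply le_of_eq
      ring
    refine (add_le_add k₀ (add_le_add k₁ k₂)).trans ?_
    rw [← ENNReal.ofReal_add (by positivity) (by positivity),
      ← ENNReal.ofReal_add (by positivity) (by positivity)]
    apply ENNReal.ofReal_le_ofReal
    apply le_of_eq
    rw [hSg]
    ring
  have hTfin : volume T ≠ ⊤ := by
    refine ne_top_of_le_ne_top (b := volume E) ?_ (measure_mono ?_)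
    · rw [hEvol]
      exact ENNReal.ofReal_ne_top
    · rintro p ⟨h1, h2, h3, -⟩
      exact ⟨h1, h2, h3⟩
  have hSg0 : 0 ≤ Sg := by positivity
  have hreal : Real.pi ^ 3 ≤ (volume T).toReal + 4 * Real.pi ^ 2 * Sg := by
    have h1 := ENNReal.toReal_mono
      (ENNReal.add_ne_top.2 ⟨hTfin, ENNReal.ofReal_ne_top⟩) hbd
    rwa [ENNReal.toReal_ofReal (by positivity), ENNReal.toReal_add hTfin ENNReal.ofReal_ne_top,
      ENNReal.toReal_ofReal (by positivity)] at h1
  have hPP : 1 - 4 * Sg / Real.pi ≤ PP x₀ x₁ x₂ := by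
    have h1 : PP x₀ x₁ x₂ = (volume T).toReal / Real.pi ^ 3 := rfl
    rw [h1, le_div_iff₀ (by positivity)]
    have h2 : (1 - 4 * Sg / Real.pi) * Real.pi ^ 3 = Real.pi ^ 3 - 4 * Real.pi ^ 2 * Sg := by
      field_simp
    linarith
  have h1 := PP_swap x₀ x₁ x₂
  have h2 := PP_sub x₀ x₁ x₂
  have h3 := abs_area_lt x₀ x₁ x₂
  rw [abs_lt] at h3
  have h4 : 1 - 8 * Sg / Real.pi ≤ area x₀ x₁ x₂ / Real.pi := by
    rw [← h2]
    have : 8 * Sg / Real.pi = 4 * Sg / Real.pi + 4 * Sg / Real.pi := by ring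
    linarith
  rw [le_div_iff₀ hpi] at h4
  have h5 : (1 - 8 * Sg / Real.pi) * Real.pi = Real.pi - 8 * Sg := by
    field_simp
  rw [abs_le]
  constructor <;> linarith

theorem area_conf (w₀ w₁ w₂ : Wd) :
    |area UpperHalfPlane.I (rho (w₀ ++ false :: w₁) • UpperHalfPlane.I)
      (rho (w₀ ++ true :: w₂) • UpperHalfPlane.I) - Real.pi| ≤
      8 * (1 / ((w₀.length : ℝ) + 1) + 1 / ((w₁.length : ℝ) + 1) + 1 / ((w₂.length : ℝ) + 1)) := by
  have h1 := area_words (rv w₀) w₁ w₂
  have hlen : (rv w₀).length = w₀.length := by simp [rv]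
  rw [hlen] at h1
  have h2 : rho w₀ • gS • rho (rv w₀) • UpperHalfPlane.I = UpperHalfPlane.I := by
    rw [← mul_smul, ← mul_smul, rho_gS_rv, gS_smul_I]
  have h3 : rho (w₀ ++ false :: w₁) • UpperHalfPlane.I =
      rho w₀ • gL • rho w₁ • UpperHalfPlane.I := by
    rw [rho_append, rho_cons, mul_smul, mul_smul]
    rfl
  have h4 : rho (w₀ ++ true :: w₂) • UpperHalfPlane.I =
      rho w₀ • gR • rho w₂ • UpperHalfPlane.I := by
    rw [rho_append, rho_cons, mul_smul, mul_smul]
    rfl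
  have h5 : area UpperHalfPlane.I (rho (w₀ ++ false :: w₁) • UpperHalfPlane.I)
      (rho (w₀ ++ true :: w₂) • UpperHalfPlane.I) =
      area (gS • rho (rv w₀) • UpperHalfPlane.I) (gL • rho w₁ • UpperHalfPlane.I)
        (gR • rho w₂ • UpperHalfPlane.I) := by
    rw [h3, h4]
    have h6 := area_smul (rho w₀) (gS • rho (rv w₀) • UpperHalfPlane.I)
      (gL • rho w₁ • UpperHalfPlane.I) (gR • rho w₂ • UpperHalfPlane.I)
    rwa [h2] at h6
  rw [h5]
  exact h1

end SimplVol

end S_AA

section S_MA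

/-!
# Module MA: the system of means, areas

* `JJ_mono`: for bounded `P ≤ Q`: `hM.bdd` for `Q - P - C/2` gives `M (Q - P) ≥ 0` if `0 ≤ Q - P ≤ C`; induction on the list. `JJ_coord`: `JJ M L (fun v => f (v s)) = M f` for `s ∈ L`, `L.Nodup` (`JJ_indep`-like induction: before `s` constants; after `s` the function is constant).
* `muF_tplus`: `Rep tplus (node (leaf 1) (leaf 2))`, leaves `{0}ᶜ`; by `rep_unique` it is the chosen tree. `conf .. v 0 = I`, `conf .. v 1 = rho (v s₀ ++ false :: v s₁) • I`, `conf .. v 2 = rho (v s₀ ++ true :: v s₂) • I`, `s₀ = spl {1, 2}`, `s₁ = spl {1}`, `s₂ = spl {2}`, all in `FL tplus π`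
  (`mem_FL`). `area_conf`, `JJ_mono`, `JJ_coord`, `hM.small`: `|JJ (area) - π| ≤ 8 * 3 * 0 = 0`.
* `muF_area`: if two of `a, b, c` are equal both sides are `0` (`area` is alternating: module AR; `o_zero..`). Else `ι = ![a, b, c]` is injective, `muF_nat` (`InvH`: `area_smul`; bounded: `abs_area_lt` of AR), `RTree.three_cases` for `τ.pull ι`; for `tplus.pull (swap 0 1)` use `muF_nat` for the swap
  and `area y₁ y₀ y₂ = - area y₀ y₁ y₂`.
-/

set_option autoImplicit false

open scoped BigOperators UpperHalfPlane MatrixGroups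

namespace SimplVol

variable {M : (Wd → ℝ) →ₗ[ℝ] ℝ}

theorem MA_mono (hM : WMean M) (f g : Wd → ℝ) (hf : ∃ C, ∀ w, |f w| ≤ C)
    (hg : ∃ C, ∀ w, |g w| ≤ C) (h : ∀ w, f w ≤ g w) : M f ≤ M g := by
  obtain ⟨C, hC⟩ := hf
  obtain ⟨D, hD⟩ := hg
  have h1 := hM.bdd (fun w => (g w + (-1) * f w) + (-((C + D) / 2))) ((C + D) / 2) (fun w => by
    have a1 := abs_le.1 (hC w)
    have a2 := abs_le.1 (hD w)
    have a3 := h w
    rw [abs_le]
    constructor <;> linarith [a1.1, a1.2, a2.1, a2.2])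
  rw [WJ_add, WJ_add, WJ_smul, WJ_const hM, abs_le] at h1
  linarith [h1.1]

/-- Bounded functions: monotonicity. -/
theorem JJ_mono (hM : WMean M) {A : Type} [DecidableEq A] (L : List A) (P Q : (A → Wd) → ℝ)
    (hP : ∃ C, ∀ v, |P v| ≤ C) (hQ : ∃ C, ∀ v, |Q v| ≤ C) (h : ∀ v, P v ≤ Q v) :
    JJ M L P ≤ JJ M L Q := by
  obtain ⟨C, hC⟩ := hP
  obtain ⟨D, hD⟩ := hQ
  induction L generalizing P Q with
  | nil => exact h _
  | cons s L ih =>
    exact MA_mono hM _ _ ⟨C, fun u => JJ_bdd hM L _ C fun v => hC _⟩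
      ⟨D, fun u => JJ_bdd hM L _ D fun v => hD _⟩
      (fun u => ih _ _ (fun v => h _) (fun v => hC _) (fun v => hD _))

theorem JJ_coord (hM : WMean M) {A : Type} [DecidableEq A] (L : List A) (hL : L.Nodup) (s : A)
    (hs : s ∈ L) (f : Wd → ℝ) : JJ M L (fun v => f (v s)) = M f := by
  induction L with
  | nil => exact absurd hs (List.not_mem_nil)
  | cons s' L ih =>
    rw [List.nodup_cons] at hL
    show M (fun u => JJ M L fun v => f (Function.update v s' u s)) = M f
    by_cases h : s = s'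
    · subst h
      simp only [Function.update_self]
      congr 1
      funext u
      exact JJ_const hM L (f u)
    · have hs' : s ∈ L := by
        rcases List.mem_cons.1 hs with h1 | h1
        · exact absurd h1 h
        · exact h1
      simp only [Function.update_of_ne h]
      rw [ih hL.2 hs']
      exact WJ_const hM _

theorem MA_rep : Rep tplus (BT.node (.leaf 1) (.leaf 2)) := by
  refine ⟨?_, ?_, Or.inl ⟨1, rfl⟩, Or.inl ⟨2, rfl⟩, trivial, trivial⟩
  · show Disjoint ({1} : Finset (Fin 3)) {2}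
    decide
  · intro a ha b hb c hc1 hc2
    have h1 : a = 1 := Finset.mem_singleton.1 ha
    have h2 : b = 2 := Finset.mem_singleton.1 hb
    have h3 : c ≠ 1 := fun h => hc1 (Finset.mem_singleton.2 h)
    have h4 : c ≠ 2 := fun h => hc2 (Finset.mem_singleton.2 h)
    have h5 : c = 0 := by
      revert h3 h4
      clear hc1 hc2
      revert c
      decide
    subst h1 h2 h5
    decide

theorem MA_tree0 : tree0 tplus = BT.node (.leaf 1) (.leaf 2) := by
  have h2 : (2 : ℕ) ≤ 2 + 1 := by norm_num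
  have h : tree0 tplus = (exists_rep h2 tplus 0).choose := by
    unfold tree0
    rw [dif_pos h2]
  have hs := (exists_rep h2 tplus 0).choose_spec
  rw [h]
  have hl : (BT.node (.leaf 1) (.leaf 2) : BT 3).lv = {0}ᶜ := by
    show ({1} : Finset (Fin 3)) ∪ {2} = {0}ᶜ
    decide
  refine rep_unique tplus 0 _ _ hs.2 MA_rep (hs.1.trans hl.symm) ?_
  rw [hs.1]
  simp

/-- The error term. -/
noncomputable def MA_err {A : Type} (s₀ s₁ s₂ : A) (v : A → Wd) : ℝ :=
  8 * ((1 / (((v s₀).length : ℝ) + 1) + 1 / (((v s₁).length : ℝ) + 1)) +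
    1 / (((v s₂).length : ℝ) + 1))

theorem MA_inv_bd (w : Wd) : |1 / ((w.length : ℝ) + 1)| ≤ 1 := by
  have h1 : (0 : ℝ) < (w.length : ℝ) + 1 := by positivity
  rw [abs_of_pos (by positivity), div_le_one h1]
  have : (0 : ℝ) ≤ (w.length : ℝ) := by positivity
  linarith

theorem MA_err_bd {A : Type} (s₀ s₁ s₂ : A) (v : A → Wd) : |MA_err s₀ s₁ s₂ v| ≤ 24 := by
  unfold MA_err
  have h0 := abs_le.1 (MA_inv_bd (v s₀))
  have h1 := abs_le.1 (MA_inv_bd (v s₁))
  have h2 := abs_le.1 (MA_inv_bd (v s₂))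
  rw [abs_le]
  constructor <;> linarith [h0.1, h0.2, h1.1, h1.2, h2.1, h2.2]

theorem MA_err_JJ (hM : WMean M) {A : Type} [DecidableEq A] (L : List A) (hL : L.Nodup)
    (s₀ s₁ s₂ : A) (h₀ : s₀ ∈ L) (h₁ : s₁ ∈ L) (h₂ : s₂ ∈ L) :
    JJ M L (MA_err s₀ s₁ s₂) = 0 := by
  have e : ∀ s ∈ L, JJ M L (fun v => 1 / (((v s).length : ℝ) + 1)) = 0 := fun s hs =>
    (JJ_coord hM L hL s hs (fun w => 1 / ((w.length : ℝ) + 1))).trans hM.small
  show JJ M L (fun v => 8 * ((1 / (((v s₀).length : ℝ) + 1) + 1 / (((v s₁).length : ℝ) + 1)) +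
    1 / (((v s₂).length : ℝ) + 1))) = 0
  rw [JJ_smul, JJ_add, JJ_add, e s₀ h₀, e s₁ h₁, e s₂ h₂]
  norm_num

theorem MA_one (hM : WMean M) (π : List (Fin 3)) (hπ : ∀ i, i ∈ π) :
    JJ M (FL tplus π) (fun v => area (conf (BT.node (.leaf 1) (.leaf 2)) 0 v 0)
      (conf (BT.node (.leaf 1) (.leaf 2)) 0 v 1) (conf (BT.node (.leaf 1) (.leaf 2)) 0 v 2)) =
      Real.pi := by
  set s₀ : Split 3 := spl ({1} ∪ {2}) with hs₀
  set s₁ : Split 3 := spl {1} with hs₁
  set s₂ : Split 3 := spl {2} with hs₂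
  have m₀ : s₀ ∈ FL tplus π := by
    rw [mem_FL tplus π hπ]
    exact ⟨{1} ∪ {2}, Or.inr (Or.inl ⟨0, by decide⟩), by decide, by decide, rfl⟩
  have m₁ : s₁ ∈ FL tplus π := by
    rw [mem_FL tplus π hπ]
    exact ⟨{1}, Or.inl ⟨1, rfl⟩, by decide, by decide, rfl⟩
  have m₂ : s₂ ∈ FL tplus π := by
    rw [mem_FL tplus π hπ]
    exact ⟨{2}, Or.inl ⟨2, rfl⟩, by decide, by decide, rfl⟩
  have hE := MA_err_JJ hM (FL tplus π) (FL_nodup tplus π) s₀ s₁ s₂ m₀ m₁ m₂
  have hc : ∀ v : Split 3 → Wd, |area (conf (BT.node (.leaf 1) (.leaf 2)) 0 v 0)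
      (conf (BT.node (.leaf 1) (.leaf 2)) 0 v 1) (conf (BT.node (.leaf 1) (.leaf 2)) 0 v 2) -
      Real.pi| ≤ MA_err s₀ s₁ s₂ v := by
    intro v
    have e0 : conf (BT.node (.leaf 1) (.leaf 2) : BT 3) 0 v 0 = UpperHalfPlane.I := if_pos rfl
    have e1 : conf (BT.node (.leaf 1) (.leaf 2) : BT 3) 0 v 1 =
        rho (v s₀ ++ false :: v s₁) • UpperHalfPlane.I := by
      unfold conf
      rw [if_neg (by decide)]
      rfl
    have e2 : conf (BT.node (.leaf 1) (.leaf 2) : BT 3) 0 v 2 =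
        rho (v s₀ ++ true :: v s₂) • UpperHalfPlane.I := by
      unfold conf
      rw [if_neg (by decide)]
      rfl
    rw [e0, e1, e2]
    exact area_conf (v s₀) (v s₁) (v s₂)
  have hb : ∃ C, ∀ v : Split 3 → Wd, |area (conf (BT.node (.leaf 1) (.leaf 2)) 0 v 0)
      (conf (BT.node (.leaf 1) (.leaf 2)) 0 v 1)
      (conf (BT.node (.leaf 1) (.leaf 2)) 0 v 2)| ≤ C :=
    ⟨Real.pi, fun v => (abs_area_lt _ _ _).le⟩
  apply le_antisymm
  · have h1 := JJ_mono hM (FL tplus π) _ (fun v => Real.pi + MA_err s₀ s₁ s₂ v) hb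
      ⟨Real.pi + 24, fun v => by
        have h2 := abs_le.1 (MA_err_bd s₀ s₁ s₂ v)
        have h3 := Real.pi_pos
        rw [abs_le]
        constructor <;> linarith [h2.1, h2.2]⟩
      (fun v => by linarith [(abs_le.1 (hc v)).2])
    rw [JJ_add, JJ_const hM, hE, add_zero] at h1
    exact h1
  · have h1 := JJ_mono hM (FL tplus π) (fun v => Real.pi + (-1) * MA_err s₀ s₁ s₂ v) _
      ⟨Real.pi + 24, fun v => by
        have h2 := abs_le.1 (MA_err_bd s₀ s₁ s₂ v)
        have h3 := Real.pi_pos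
        rw [abs_le]
        constructor <;> linarith [h2.1, h2.2]⟩ hb
      (fun v => by linarith [(abs_le.1 (hc v)).1])
    rw [JJ_add, JJ_const hM, JJ_smul, hE, mul_zero, add_zero] at h1
    exact h1

theorem muF_tplus (hM : WMean M) :
    muF M 3 tplus (fun y => area (y 0) (y 1) (y 2)) = Real.pi := by
  show MUf M tplus 0 (tree0 tplus) (fun y => area (y 0) (y 1) (y 2)) = Real.pi
  rw [MA_tree0]
  unfold MUf
  rw [PE_congr _ _ _ (fun _ => Real.pi) (fun l hl hlE => MA_one hM l (fun i => by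
    have : i ∈ l.toFinset := by rw [hlE]; exact Finset.mem_univ i
    exact List.mem_toFinset.1 this))]
  exact PE_const _ _ (fun _ _ => one_pos) _

theorem MA_area_xx (x z : ℍ) : area x x z = 0 := by
  unfold area
  rw [sarg_self, sarg_swap x z]
  ring

theorem MA_area_rot (x y z : ℍ) : area y z x = area x y z := by
  unfold area
  ring

theorem MA_area_swap (x y z : ℍ) : area y x z = (-1) * area x y z := by
  unfold area
  rw [sarg_swap x y, sarg_swap z x, sarg_swap y z]
  ring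

theorem muF_area (hM : WMean M) (m : ℕ) (τ : RTree m) (a b c : Fin m) :
    muF M m τ (fun y => area (y a) (y b) (y c)) = Real.pi * ((τ.o a b c : ℤ) : ℝ) := by
  by_cases hab : a = b
  · subst hab
    rw [τ.o_zero₁₂]
    have : (fun y : Fin m → ℍ => area (y a) (y a) (y c)) = 0 := by
      funext y
      exact MA_area_xx _ _
    rw [this, map_zero]
    simp
  by_cases hbc : b = c
  · subst hbc
    rw [τ.o_zero₂₃]
    have : (fun y : Fin m → ℍ => area (y a) (y b) (y b)) = 0 := by
      funext y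
      rw [← MA_area_rot]
      exact MA_area_xx _ _
    rw [this, map_zero]
    simp
  by_cases hac : a = c
  · subst hac
    rw [τ.o_zero₁₃]
    have : (fun y : Fin m → ℍ => area (y a) (y b) (y a)) = 0 := by
      funext y
      rw [MA_area_rot (y a) (y a) (y b)]
      exact MA_area_xx _ _
    rw [this, map_zero]
    simp
  have hinj : Function.Injective (![a, b, c] : Fin 3 → Fin m) := by
    intro i j hij
    fin_cases i <;> fin_cases j <;> simp at hij ⊢ <;> first
      | exact hab hij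
      | exact hac hij
      | exact hbc hij
      | exact hab hij.symm
      | exact hac hij.symm
      | exact hbc hij.symm
  set ι : Fin 3 ↪ Fin m := ⟨![a, b, c], hinj⟩ with hι
  have hI : InvH (fun y : Fin 3 → ℍ => area (y 0) (y 1) (y 2)) := fun g y => area_smul g _ _ _
  have hP : ∃ C, ∀ y : Fin 3 → ℍ, |area (y 0) (y 1) (y 2)| ≤ C :=
    ⟨Real.pi, fun y => (abs_area_lt _ _ _).le⟩
  have h1 := muF_nat hM 3 m ι τ (fun y => area (y 0) (y 1) (y 2)) (by norm_num) hI hP
  have h2 : (fun y : Fin m → ℍ => (fun y : Fin 3 → ℍ => area (y 0) (y 1) (y 2))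
      fun i => y (ι i)) = fun y => area (y a) (y b) (y c) := rfl
  rw [h2] at h1
  rw [h1]
  have h3 : τ.o a b c = (τ.pull ι).o 0 1 2 := rfl
  rw [h3]
  rcases (τ.pull ι).three_cases with h | h
  · rw [h, muF_tplus hM, tplus_o]
    simp
  · rw [h]
    have h4 := muF_nat hM 3 3 (Equiv.swap (0 : Fin 3) 1).toEmbedding tplus
      (fun y => area (y 0) (y 1) (y 2)) (by norm_num) hI hP
    rw [← h4]
    have h5 : (fun y : Fin 3 → ℍ => (fun y : Fin 3 → ℍ => area (y 0) (y 1) (y 2))
        fun i => y ((Equiv.swap (0 : Fin 3) 1).toEmbedding i)) =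
        (-1 : ℝ) • fun y => area (y 0) (y 1) (y 2) := by
      funext y
      exact MA_area_swap (y 0) (y 1) (y 2)
    rw [h5, map_smul, muF_tplus hM]
    have h6 : (tplus.pull (Equiv.swap (0 : Fin 3) 1).toEmbedding).o 0 1 2 = -1 := by decide
    rw [h6]
    simp

theorem exists_means : ∃ μ : ∀ m, RTree m → ((Fin m → ℍ) → ℝ) →ₗ[ℝ] ℝ, Means μ := by
  obtain ⟨M, hM⟩ := exists_wmean
  refine ⟨muF M, ?_, ?_, ?_⟩
  · intro m τ φ C h
    cases m with
    | zero =>
      show |(0 : ((Fin 0 → ℍ) → ℝ) →ₗ[ℝ] ℝ) φ| ≤ C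
      rw [LinearMap.zero_apply, abs_zero]
      exact (abs_nonneg _).trans (h fun i => i.elim0)
    | succ m => exact MUf_bdd hM τ 0 (tree0 τ) φ C h
  · intro k m ι τ φ hk hI hb
    exact muF_nat hM k m ι τ φ hk hI hb
  · intro m τ a b c
    exact muF_area hM m τ a b c

end SimplVol

end S_MA
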