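import Pool.Agent.H54.RM.B1

/-! Simplicial volume and ranked planar trees, part B2: this file joins several modules to save build time. -/

section S_IN

/-!
# Module IN: insertion of a leaf on the top edge

`TopSide τ f`: the last (= highest) division of `τ` is `eF f = (f a == f b)`; `A = {f = true}`, `B = {f = false}`. The new leaf (index `0`; the old
leaf `i` becomes `i.succ`) is inserted after `A` and before `B` in the cyclic order. `a₀ ∈ A`, `b₀ ∈ B` are fixed.
`extS x s` puts the new leaf next to `x` in the division `s`.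
FACTS. (1) Every `s ∈ τ.l`, `s ≠ eF f`, is constant on `A` or on `B` (`∀ a a', f a = f a' = true → s a a'`, or the same for `B`): else there are
`a, a' ∈ A` with `¬ s a a'`, `b, b' ∈ B` with `¬ s b b'`; `s` has two classes (`τ.split`), so `s a b, s a' b'` or `s a b', s a' b`;
contradiction to `τ.excl` with `eF f` (`Sep (eF f) a a' b b'`, `Sep s a b a' b'`). It is not constant on both, else it is `eF f` or has
only one class (against `τ.nt`).
(2) `τ.o b₀ q r` for `q, r ∈ A` does not depend on `b₀ ∈ B` (`τ.planar` for `eF f`, `Sep q r b₀ b₀'`, `o_rot`); the same with `A`, `B` exchanged.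
THE CONDITIONS FOR `ins`. `gI q r` is the value of `o` on (new, q, r). It is antisymmetric. `o_coc` with the new leaf first:
`o p q r - gI q r + gI p r - gI p q = 0` (with the sign conventions): if `p, q, r ∈ A` this is `o_coc` for `b₀, p, q, r`; if `p, q ∈ A`, `r ∈ B`:
`gI q r = -1 = gI p r`, `gI p q = o b₀ p q = o r p q = o p q r` (2); the other cases are similar (antisymmetry). If the new leaf is not
first, reduce to this case by `o_swap`/`o_rot` (all four positions), if it occurs twice everything cancels by antisymmetry.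
`nodup`: the new divisions restrict (along `Fin.succ`) to the old ones, `eF f` twice; `extS b₀ (eF f) ≠ extS a₀ (eF f)` at `(0, a₀.succ)`.
`split`: `extS x s` is given by `f' ∘ (Fin.cases x id)`. `nt`: the old witnesses.
`planar`, `excl`, `res` for four leaves: if the new leaf does not occur, use the old tree. All new divisions have the form `extS b₀ s` with `s` constant on `B`
(or `s = eF f`), or `extS a₀ s` with `s` constant on `A` (or `s = eF f`); note that `eF f` is constant on both.
`planar`: `Sep s' a b c d` with the new leaf among them, say (by the symmetries of `Sep`) it is `a` or `b` or `c` or `d`: compare with `b₀` (or `a₀`) in its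
place; the value `gI q r` equals `o b₀ q r` unless one of `q, r` is in `B`...: the statement is that for `s' = extS b₀ s`, `s` constant on `B`,
`Sep s' 0 p q r` (so `b₀ ~ p`, `q ~ r`, `b₀ ≁ q`, hence `q, r ∈ A`) `gI p q = gI p r`: if `p ∈ A` this is `o b₀ p q = o b₀ p r` (planar for `s`),
if `p ∈ B` both are `1`; and the other form of the statement (`o q r 0 = o q r p`): `gI q r = o b₀ q r = o p q r` (planar). The same for `extS a₀ s`.
`res`: for (new, p, q, r) with all of `p, q, r ∈ A`: use `res` of `b₀, p, q, r` (the division found is not `eF f`, and it is not constant on `A`, so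
constant on `B`); two in `A`, one in `B`: `p, q ∈ A`, `r ∈ B`: `extS b₀ (eF f)` separates `{new, r}`, `{p, q}`; one in `A`, two in `B`: `extS a₀ (eF f)`.
`excl`: `extS x s`, `extS x t` with the same `x`: from `excl` at `x`. `extS b₀ s` (`s` constant on `B`) and `extS a₀ t` (`t` constant on `A`): say
`b₀ ~_s p`, `q ~_s r`, `b₀ ≁_s q`, so `q, r ∈ A`; `a₀ ~_t q`, `p ~_t r`, `a₀ ≁_t p`: but `r ∈ A` gives `a₀ ~_t r ~_t p`, contradiction.
-/

set_option autoImplicit false

open scoped BigOperators Nat

namespace SimplVol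

/-- The division given by a function. -/
def eF {m : ℕ} (f : Fin m → Bool) : Split m := fun a b => (f a == f b)

/-- The highest division of the tree is the one given by `f`. -/
def TopSide {m : ℕ} (τ : RTree m) (f : Fin m → Bool) : Prop := ∃ l₀, τ.l = l₀ ++ [eF f]

/-- The division of the larger set in which the new leaf is next to `x`. -/
def extS {m : ℕ} (x : Fin m) (s : Split m) : Split (m + 1) := fun p q =>
  s (Fin.cases x (fun i => i) p) (Fin.cases x (fun i => i) q)

/-- The orientation of (new, `q`, `r`). -/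
def gI {m : ℕ} (τ : RTree m) (f : Fin m → Bool) (a₀ b₀ : Fin m) (q r : Fin m) : ℤ :=
  if f q = f r then (if f q = true then τ.o b₀ q r else τ.o a₀ q r) else (if f r = true then 1 else -1)

/-- The new orientation. -/
def oI {m : ℕ} (τ : RTree m) (f : Fin m → Bool) (a₀ b₀ : Fin m) (p q r : Fin (m + 1)) : ℤ :=
  Fin.cases (motive := fun _ => ℤ)
    (Fin.cases (motive := fun _ => ℤ) 0
      (fun q' => Fin.cases (motive := fun _ => ℤ) 0 (fun r' => gI τ f a₀ b₀ q' r') r) q)
    (fun p' => Fin.cases (motive := fun _ => ℤ)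
      (Fin.cases (motive := fun _ => ℤ) 0 (fun r' => - gI τ f a₀ b₀ p' r') r)
      (fun q' => Fin.cases (motive := fun _ => ℤ) (gI τ f a₀ b₀ p' q')
        (fun r' => τ.o p' q' r') r) q) p

/-- The extension of a division (other than the top one). -/
def extI {m : ℕ} (f : Fin m → Bool) (a₀ b₀ : Fin m) (s : Split m) : Split (m + 1) :=
  if ∀ b b', f b = false → f b' = false → s b b' = true then extS b₀ s else extS a₀ s

/-- The new list. -/
def lI {m : ℕ} (τ : RTree m) (f : Fin m → Bool) (a₀ b₀ : Fin m) : List (Split (m + 1)) :=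
  τ.l.dropLast.map (extI f a₀ b₀) ++ [extS b₀ (eF f), extS a₀ (eF f)]

theorem IN_mem {m : ℕ} (τ : RTree m) (f : Fin m → Bool) (h : TopSide τ f) : eF f ∈ τ.l := by
  obtain ⟨l₀, hl⟩ := h
  rw [hl]
  simp

theorem exists_side {m : ℕ} (τ : RTree m) (f : Fin m → Bool) (h : TopSide τ f) :
    ∃ p : Fin m × Fin m, f p.1 = true ∧ f p.2 = false := by
  obtain ⟨a, b, c, d, -, -, -, -, h3⟩ := τ.nt _ (IN_mem τ f h)
  have h3' : (f a == f c) = false := h3
  cases ha : f a <;> cases hc : f c
  · rw [ha, hc] at h3'
    exact absurd h3' (by decide)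
  · exact ⟨(c, a), hc, ha⟩
  · exact ⟨(a, c), ha, hc⟩
  · rw [ha, hc] at h3'
    exact absurd h3' (by decide)

theorem IN_beq (a b : Bool) : (a == b) = true ↔ a = b := by
  cases a <;> cases b <;> decide

theorem IN_bne (a b : Bool) : (a == b) = false ↔ a ≠ b := by
  cases a <;> cases b <;> decide

theorem IN_not (a b : Bool) (h : a ≠ b) : b = !a := by
  cases a <;> cases b <;> simp_all

/-- Fact (1). -/
theorem const_side {m : ℕ} (τ : RTree m) (f : Fin m → Bool) (h : TopSide τ f) (s : Split m)
    (hs : s ∈ τ.l) (hne : s ≠ eF f) :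
    ((∀ a a', f a = true → f a' = true → s a a' = true) ∧
      ¬ ∀ b b', f b = false → f b' = false → s b b' = true) ∨
    ((∀ b b', f b = false → f b' = false → s b b' = true) ∧
      ¬ ∀ a a', f a = true → f a' = true → s a a' = true) := by
  obtain ⟨g, hg⟩ := τ.split s hs
  have hmem := IN_mem τ f h
  have h1 : (∀ a a', f a = true → f a' = true → s a a' = true) ∨
      (∀ b b', f b = false → f b' = false → s b b' = true) := by
    by_contra hcon
    push Not at hcon
    obtain ⟨⟨a, a', ha, ha', hsa⟩, ⟨b, b', hb, hb', hsb⟩⟩ := hcon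
    have ga : g a ≠ g a' := by
      intro e
      apply hsa
      rw [hg, IN_beq]
      exact e
    have gb : g b ≠ g b' := by
      intro e
      apply hsb
      rw [hg, IN_beq]
      exact e
    by_cases e : g a = g b
    · have e' : g a' = g b' := by
        rw [IN_not _ _ ga, IN_not _ _ gb, e]
      refine τ.excl _ hmem _ hs a a' b b' ⟨?_, ?_, ?_⟩ ⟨?_, ?_, ?_⟩
      · show (f a == f a') = true
        rw [ha, ha']
        rfl
      · show (f b == f b') = true
        rw [hb, hb']
        rfl
      · show (f a == f b) = false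
        rw [ha, hb]
        rfl
      · rw [hg, IN_beq]
        exact e
      · rw [hg, IN_beq]
        exact e'
      · rw [hg, IN_bne]
        exact ga
    · have e1 : g b' = g a := by
        rw [IN_not _ _ gb, IN_not _ _ e, Bool.not_not]
      have e2 : g a' = g b := by
        rw [IN_not _ _ ga, IN_not _ _ e]
      refine τ.excl _ hmem _ hs a a' b' b ⟨?_, ?_, ?_⟩ ⟨?_, ?_, ?_⟩
      · show (f a == f a') = true
        rw [ha, ha']
        rfl
      · show (f b' == f b) = true
        rw [hb, hb']
        rfl
      · show (f a == f b') = false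
        rw [ha, hb']
        rfl
      · rw [hg, IN_beq]
        exact e1.symm
      · rw [hg, IN_beq]
        exact e2
      · rw [hg, IN_bne]
        exact ga
  have h2 : ¬ ((∀ a a', f a = true → f a' = true → s a a' = true) ∧
      (∀ b b', f b = false → f b' = false → s b b' = true)) := by
    rintro ⟨hA, hB⟩
    have hsame : ∀ x y, f x = f y → s x y = true := by
      intro x y hxy
      cases hx : f x
      · exact hB x y hx (by rw [← hxy]; exact hx)
      · exact hA x y hx (by rw [← hxy]; exact hx)
    obtain ⟨a, -, c, -, -, -, -, -, h3⟩ := τ.nt s hs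
    have gac : g a ≠ g c := by
      rw [hg, IN_bne] at h3
      exact h3
    have fac : f a ≠ f c := by
      intro e
      rw [hsame a c e] at h3
      exact absurd h3 (by decide)
    have gof : ∀ x y, f x = f y → g x = g y := by
      intro x y e
      have := hsame x y e
      rw [hg, IN_beq] at this
      exact this
    have key : ∀ x, (f x = f a ∧ g x = g a) ∨ (f x = f c ∧ g x = g c) := by
      intro x
      by_cases e : f x = f a
      · exact Or.inl ⟨e, gof x a e⟩
      · have e' : f x = f c := by
          rw [IN_not _ _ (Ne.symm e), IN_not _ _ fac]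
        exact Or.inr ⟨e', gof x c e'⟩
    apply hne
    funext x y
    show s x y = (f x == f y)
    rw [hg]
    rcases key x with ⟨x1, x2⟩ | ⟨x1, x2⟩ <;> rcases key y with ⟨y1, y2⟩ | ⟨y1, y2⟩ <;>
      rw [x1, x2, y1, y2]
    · rw [(IN_beq (g a) (g a)).2 rfl, (IN_beq (f a) (f a)).2 rfl]
    · rw [(IN_bne (g a) (g c)).2 gac, (IN_bne (f a) (f c)).2 fac]
    · rw [(IN_bne (g c) (g a)).2 (Ne.symm gac), (IN_bne (f c) (f a)).2 (Ne.symm fac)]
    · rw [(IN_beq (g c) (g c)).2 rfl, (IN_beq (f c) (f c)).2 rfl]
  rcases h1 with hA | hB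
  · exact Or.inl ⟨hA, fun hB => h2 ⟨hA, hB⟩⟩
  · exact Or.inr ⟨hB, fun hA => h2 ⟨hA, hB⟩⟩

/-- Fact (2). -/
theorem o_side {m : ℕ} (τ : RTree m) (f : Fin m → Bool) (h : TopSide τ f) (x y q r : Fin m)
    (hxy : f x = f y) (hqr : f q = f r) (hxq : f x ≠ f q) : τ.o x q r = τ.o y q r := by
  have h1 := τ.planar _ (IN_mem τ f h) q r x y ⟨?_, ?_, ?_⟩
  · rw [← τ.o_rot x q r, ← τ.o_rot y q r]
    exact h1
  · show (f q == f r) = true
    rw [IN_beq]
    exact hqr
  · show (f x == f y) = true
    rw [IN_beq]
    exact hxy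
  · show (f q == f x) = false
    rw [IN_bne]
    exact Ne.symm hxq

section evals
variable {m : ℕ} (τ : RTree m) (f : Fin m → Bool) (a₀ b₀ : Fin m)

theorem IN_e1 (x : Fin (m + 1)) : oI τ f a₀ b₀ 0 0 x = 0 := rfl
theorem IN_e2 (q : Fin m) : oI τ f a₀ b₀ 0 q.succ 0 = 0 := rfl
theorem IN_e3 (q r : Fin m) : oI τ f a₀ b₀ 0 q.succ r.succ = gI τ f a₀ b₀ q r := rfl
theorem IN_e4 (p : Fin m) : oI τ f a₀ b₀ p.succ 0 0 = 0 := rfl
theorem IN_e5 (p r : Fin m) : oI τ f a₀ b₀ p.succ 0 r.succ = - gI τ f a₀ b₀ p r := rfl
theorem IN_e6 (p q : Fin m) : oI τ f a₀ b₀ p.succ q.succ 0 = gI τ f a₀ b₀ p q := rfl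
theorem IN_e7 (p q r : Fin m) : oI τ f a₀ b₀ p.succ q.succ r.succ = τ.o p q r := rfl

theorem IN_g1 (q r : Fin m) (hq : f q = true) (hr : f r = true) :
    gI τ f a₀ b₀ q r = τ.o b₀ q r := by
  unfold gI
  rw [if_pos (by rw [hq, hr]), if_pos hq]

theorem IN_g2 (q r : Fin m) (hq : f q = false) (hr : f r = false) :
    gI τ f a₀ b₀ q r = τ.o a₀ q r := by
  unfold gI
  rw [if_pos (by rw [hq, hr]), if_neg (by rw [hq]; decide)]

theorem IN_g3 (q r : Fin m) (hq : f q = false) (hr : f r = true) :
    gI τ f a₀ b₀ q r = 1 := by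
  unfold gI
  rw [if_neg (by rw [hq, hr]; decide), if_pos hr]

theorem IN_g4 (q r : Fin m) (hq : f q = true) (hr : f r = false) :
    gI τ f a₀ b₀ q r = -1 := by
  unfold gI
  rw [if_neg (by rw [hq, hr]; decide), if_neg (by rw [hr]; decide)]

theorem IN_anti (q r : Fin m) : gI τ f a₀ b₀ r q = - gI τ f a₀ b₀ q r := by
  cases hq : f q <;> cases hr : f r
  · rw [IN_g2 τ f a₀ b₀ q r hq hr, IN_g2 τ f a₀ b₀ r q hr hq]
    exact τ.o_swap _ _ _
  · rw [IN_g3 τ f a₀ b₀ q r hq hr, IN_g4 τ f a₀ b₀ r q hr hq]
  · rw [IN_g4 τ f a₀ b₀ q r hq hr, IN_g3 τ f a₀ b₀ r q hr hq]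
    rfl
  · rw [IN_g1 τ f a₀ b₀ q r hq hr, IN_g1 τ f a₀ b₀ r q hr hq]
    exact τ.o_swap _ _ _

end evals

theorem IN_gvals {m : ℕ} (τ : RTree m) (f : Fin m → Bool) (a₀ b₀ : Fin m)
    (ha : f a₀ = true) (hb : f b₀ = false) (q r : Fin m) (h : q ≠ r) :
    gI τ f a₀ b₀ q r = 1 ∨ gI τ f a₀ b₀ q r = -1 := by
  have hne : ∀ x y : Fin m, f x ≠ f y → x ≠ y := fun x y h1 h2 => h1 (by rw [h2])
  cases hq : f q <;> cases hr : f r
  · rw [IN_g2 τ f a₀ b₀ q r hq hr]
    exact τ.o_vals _ _ _ (hne _ _ (by rw [ha, hq]; decide)) h (hne _ _ (by rw [ha, hr]; decide))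
  · rw [IN_g3 τ f a₀ b₀ q r hq hr]
    exact Or.inl rfl
  · rw [IN_g4 τ f a₀ b₀ q r hq hr]
    exact Or.inr rfl
  · rw [IN_g1 τ f a₀ b₀ q r hq hr]
    exact τ.o_vals _ _ _ (hne _ _ (by rw [hb, hq]; decide)) h (hne _ _ (by rw [hb, hr]; decide))

theorem oI_vals {m : ℕ} (τ : RTree m) (f : Fin m → Bool) (h : TopSide τ f) (a₀ b₀ : Fin m)
    (ha : f a₀ = true) (hb : f b₀ = false) (a b c : Fin (m + 1)) (h1 : a ≠ b) (h2 : b ≠ c)
    (h3 : a ≠ c) : oI τ f a₀ b₀ a b c = 1 ∨ oI τ f a₀ b₀ a b c = -1 := by
  have hG := IN_gvals τ f a₀ b₀ ha hb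
  cases a using Fin.cases with
  | zero =>
    cases b using Fin.cases with
    | zero => exact absurd rfl h1
    | succ b =>
      cases c using Fin.cases with
      | zero => exact absurd rfl h3
      | succ c =>
        rw [IN_e3]
        exact hG b c (fun e => h2 (by rw [e]))
  | succ a =>
    cases b using Fin.cases with
    | zero =>
      cases c using Fin.cases with
      | zero => exact absurd rfl h2
      | succ c =>
        rw [IN_e5]
        rcases hG a c (fun e => h3 (by rw [e])) with h4 | h4
        · exact Or.inr (by rw [h4])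
        · exact Or.inl (by rw [h4]; rfl)
    | succ b =>
      cases c using Fin.cases with
      | zero =>
        rw [IN_e6]
        exact hG a b (fun e => h1 (by rw [e]))
      | succ c =>
        rw [IN_e7]
        exact τ.o_vals _ _ _ (fun e => h1 (by rw [e])) (fun e => h2 (by rw [e]))
          (fun e => h3 (by rw [e]))

theorem oI_swap {m : ℕ} (τ : RTree m) (f : Fin m → Bool) (a₀ b₀ : Fin m)
    (a b c : Fin (m + 1)) : oI τ f a₀ b₀ a c b = - oI τ f a₀ b₀ a b c := by
  cases a using Fin.cases with
  | zero =>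
    cases b using Fin.cases with
    | zero =>
      cases c using Fin.cases with
      | zero => rfl
      | succ c => rfl
    | succ b =>
      cases c using Fin.cases with
      | zero => rfl
      | succ c =>
        rw [IN_e3, IN_e3]
        exact IN_anti τ f a₀ b₀ b c
  | succ a =>
    cases b using Fin.cases with
    | zero =>
      cases c using Fin.cases with
      | zero => rfl
      | succ c => rw [IN_e5, IN_e6, neg_neg]
    | succ b =>
      cases c using Fin.cases with
      | zero => rw [IN_e5, IN_e6]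
      | succ c =>
        rw [IN_e7, IN_e7]
        exact τ.o_swap _ _ _

theorem oI_rot {m : ℕ} (τ : RTree m) (f : Fin m → Bool) (a₀ b₀ : Fin m)
    (a b c : Fin (m + 1)) : oI τ f a₀ b₀ b c a = oI τ f a₀ b₀ a b c := by
  cases a using Fin.cases with
  | zero =>
    cases b using Fin.cases with
    | zero =>
      cases c using Fin.cases with
      | zero => rfl
      | succ c => rfl
    | succ b =>
      cases c using Fin.cases with
      | zero => rfl
      | succ c => rfl
  | succ a =>
    cases b using Fin.cases with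
    | zero =>
      cases c using Fin.cases with
      | zero => rfl
      | succ c =>
        rw [IN_e3, IN_e5]
        exact IN_anti τ f a₀ b₀ a c
    | succ b =>
      cases c using Fin.cases with
      | zero =>
        rw [IN_e5, IN_e6, IN_anti τ f a₀ b₀ a b, neg_neg]
      | succ c =>
        rw [IN_e7, IN_e7]
        exact τ.o_rot _ _ _

theorem IN_K {m : ℕ} (τ : RTree m) (f : Fin m → Bool) (h : TopSide τ f) (a₀ b₀ : Fin m)
    (ha : f a₀ = true) (hb : f b₀ = false) (p q r : Fin m) :
    τ.o p q r - gI τ f a₀ b₀ q r + gI τ f a₀ b₀ p r - gI τ f a₀ b₀ p q = 0 := by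
  have hrot := τ.o_rot
  have hsw := τ.o_swap
  cases hp : f p <;> cases hq : f q <;> cases hr : f r
  · rw [IN_g2 τ f a₀ b₀ q r hq hr, IN_g2 τ f a₀ b₀ p r hp hr, IN_g2 τ f a₀ b₀ p q hp hq]
    exact τ.o_coc _ _ _ _
  · rw [IN_g3 τ f a₀ b₀ q r hq hr, IN_g3 τ f a₀ b₀ p r hp hr, IN_g2 τ f a₀ b₀ p q hp hq]
    have h1 := o_side τ f h r a₀ p q (by rw [hr, ha]) (by rw [hp, hq]) (by rw [hr, hp]; decide)
    have h2 := hrot r p q
    omega
  · rw [IN_g4 τ f a₀ b₀ q r hq hr, IN_g2 τ f a₀ b₀ p r hp hr, IN_g3 τ f a₀ b₀ p q hp hq]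
    have h1 := o_side τ f h q a₀ p r (by rw [hq, ha]) (by rw [hp, hr]) (by rw [hq, hp]; decide)
    have h2 := hrot p q r
    have h3 := hsw q p r
    omega
  · rw [IN_g1 τ f a₀ b₀ q r hq hr, IN_g3 τ f a₀ b₀ p r hp hr, IN_g3 τ f a₀ b₀ p q hp hq]
    have h1 := o_side τ f h p b₀ q r (by rw [hp, hb]) (by rw [hq, hr]) (by rw [hp, hq]; decide)
    omega
  · rw [IN_g2 τ f a₀ b₀ q r hq hr, IN_g4 τ f a₀ b₀ p r hp hr, IN_g4 τ f a₀ b₀ p q hp hq]
    have h1 := o_side τ f h p a₀ q r (by rw [hp, ha]) (by rw [hq, hr]) (by rw [hp, hq]; decide)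
    omega
  · rw [IN_g3 τ f a₀ b₀ q r hq hr, IN_g1 τ f a₀ b₀ p r hp hr, IN_g4 τ f a₀ b₀ p q hp hq]
    have h1 := o_side τ f h q b₀ p r (by rw [hq, hb]) (by rw [hp, hr]) (by rw [hq, hp]; decide)
    have h2 := hrot p q r
    have h3 := hsw q p r
    omega
  · rw [IN_g4 τ f a₀ b₀ q r hq hr, IN_g4 τ f a₀ b₀ p r hp hr, IN_g1 τ f a₀ b₀ p q hp hq]
    have h1 := o_side τ f h r b₀ p q (by rw [hr, hb]) (by rw [hp, hq]) (by rw [hr, hp]; decide)
    have h2 := hrot r p q
    omega
  · rw [IN_g1 τ f a₀ b₀ q r hq hr, IN_g1 τ f a₀ b₀ p r hp hr, IN_g1 τ f a₀ b₀ p q hp hq]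
    exact τ.o_coc _ _ _ _

theorem oI_coc {m : ℕ} (τ : RTree m) (f : Fin m → Bool) (h : TopSide τ f) (a₀ b₀ : Fin m)
    (ha : f a₀ = true) (hb : f b₀ = false) (a b c d : Fin (m + 1)) :
    oI τ f a₀ b₀ b c d - oI τ f a₀ b₀ a c d + oI τ f a₀ b₀ a b d - oI τ f a₀ b₀ a b c = 0 := by
  have hK := IN_K τ f h a₀ b₀ ha hb
  cases a using Fin.cases with
  | zero =>
    cases b using Fin.cases with
    | zero =>
      rw [IN_e1, IN_e1]
      ring
    | succ b =>
      cases c using Fin.cases with
      | zero =>
        rw [IN_e1, IN_e2]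
        cases d using Fin.cases with
        | zero =>
          rw [IN_e4, IN_e2]
          ring
        | succ d =>
          rw [IN_e5, IN_e3]
          ring
      | succ c =>
        cases d using Fin.cases with
        | zero =>
          rw [IN_e6, IN_e2, IN_e2, IN_e3]
          ring
        | succ d =>
          rw [IN_e7, IN_e3, IN_e3, IN_e3]
          exact hK b c d
  | succ a =>
    cases b using Fin.cases with
    | zero =>
      cases c using Fin.cases with
      | zero =>
        rw [IN_e1, IN_e4]
        ring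
      | succ c =>
        cases d using Fin.cases with
        | zero =>
          rw [IN_e2, IN_e6, IN_e4, IN_e5]
          ring
        | succ d =>
          rw [IN_e3, IN_e7, IN_e5, IN_e5]
          have := hK a c d
          linarith
    | succ b =>
      cases c using Fin.cases with
      | zero =>
        cases d using Fin.cases with
        | zero =>
          rw [IN_e4, IN_e4]
          ring
        | succ d =>
          rw [IN_e5, IN_e5, IN_e7, IN_e6]
          have := hK a b d
          linarith
      | succ c =>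
        cases d using Fin.cases with
        | zero =>
          rw [IN_e6, IN_e6, IN_e6, IN_e7]
          have := hK a b c
          linarith
        | succ d =>
          rw [IN_e7, IN_e7, IN_e7, IN_e7]
          exact τ.o_coc _ _ _ _

end SimplVol

end S_IN

section S_IN2

/-!
# Module IN2: insertion of a leaf, the divisions; definition of `RTree.ins`

See the header of module IN for the proofs (nodup, split, nt, planar, res, excl). Useful first: `mem_lI`: a member `s'` of `lI` is
`extS b₀ s` with `s ∈ τ.l` constant on `B`, or `extS a₀ s` with `s ∈ τ.l` constant on `A` (`eF f ∈ τ.l` is constant on both), and conversely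
`extS b₀ s ∈ lI` for `s ∈ τ.l` constant on `B`, `extS a₀ s ∈ lI` for `s ∈ τ.l` constant on `A` (for `s ≠ eF f` by `const_side`
`extI` picks the right one; `τ.l = τ.l.dropLast ++ [eF f]`, `List.dropLast_append_cons`/`List.dropLast_concat`).
-/

set_option autoImplicit false

open scoped BigOperators Nat

namespace SimplVol

theorem IN2_not_mem {m : ℕ} (τ : RTree m) (f : Fin m → Bool) (l₀ : List (Split m))
    (h : τ.l = l₀ ++ [eF f]) : eF f ∉ l₀ := by
  intro hm
  have h1 := τ.nodup
  rw [h, List.nodup_append] at h1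
  exact h1.2.2 _ hm _ (List.mem_singleton.2 rfl) rfl

theorem IN2_lI {m : ℕ} (τ : RTree m) (f : Fin m → Bool) (l₀ : List (Split m))
    (h : τ.l = l₀ ++ [eF f]) (a₀ b₀ : Fin m) :
    lI τ f a₀ b₀ = l₀.map (extI f a₀ b₀) ++ [extS b₀ (eF f), extS a₀ (eF f)] := by
  unfold lI
  rw [h, List.dropLast_concat]

theorem mem_lI {m : ℕ} (τ : RTree m) (f : Fin m → Bool) (h : TopSide τ f) (a₀ b₀ : Fin m)
    (ha : f a₀ = true) (hb : f b₀ = false) (s' : Split (m + 1)) :
    s' ∈ lI τ f a₀ b₀ ↔
      (∃ s ∈ τ.l, (∀ b b', f b = false → f b' = false → s b b' = true) ∧ s' = extS b₀ s) ∨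
      (∃ s ∈ τ.l, (∀ a a', f a = true → f a' = true → s a a' = true) ∧ s' = extS a₀ s) := by
  obtain ⟨l₀, hl⟩ := id h
  have hnm := IN2_not_mem τ f l₀ hl
  rw [IN2_lI τ f l₀ hl, List.mem_append, List.mem_map]
  have hB : ∀ b b', f b = false → f b' = false → eF f b b' = true := by
    intro b b' h1 h2
    unfold eF
    rw [h1, h2]
    rfl
  have hA : ∀ b b', f b = true → f b' = true → eF f b b' = true := by
    intro b b' h1 h2
    unfold eF
    rw [h1, h2]
    rfl
  have hem : eF f ∈ τ.l := by
    rw [hl]
    exact List.mem_append_right _ (List.mem_singleton.2 rfl)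
  constructor
  · rintro (⟨s, hs, rfl⟩ | hs)
    · have hs' : s ∈ τ.l := by
        rw [hl]
        exact List.mem_append_left _ hs
      have hne : s ≠ eF f := fun h0 => hnm (h0 ▸ hs)
      unfold extI
      rcases const_side τ f h s hs' hne with ⟨h1, h2⟩ | ⟨h1, h2⟩
      · rw [if_neg h2]
        exact Or.inr ⟨s, hs', h1, rfl⟩
      · rw [if_pos h1]
        exact Or.inl ⟨s, hs', h1, rfl⟩
    · rw [List.mem_cons, List.mem_singleton] at hs
      rcases hs with rfl | rfl
      · exact Or.inl ⟨eF f, hem, hB, rfl⟩
      · exact Or.inr ⟨eF f, hem, hA, rfl⟩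
  · rintro (⟨s, hs, h1, rfl⟩ | ⟨s, hs, h1, rfl⟩)
    · by_cases hne : s = eF f
      · right
        rw [hne]
        exact List.mem_cons_self
      · left
        rw [hl, List.mem_append, List.mem_singleton] at hs
        rcases hs with hs | hs
        · refine ⟨s, hs, ?_⟩
          unfold extI
          rw [if_pos h1]
        · exact absurd hs hne
    · by_cases hne : s = eF f
      · right
        rw [hne]
        exact List.mem_cons_of_mem _ (List.mem_singleton.2 rfl)
      · left
        rcases const_side τ f h s hs hne with ⟨_, h2⟩ | ⟨_, h2⟩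
        · rw [hl, List.mem_append, List.mem_singleton] at hs
          rcases hs with hs | hs
          · refine ⟨s, hs, ?_⟩
            unfold extI
            rw [if_neg h2]
          · exact absurd hs hne
        · exact absurd h1 h2

theorem IN2_extI_succ {m : ℕ} (f : Fin m → Bool) (a₀ b₀ : Fin m) (s : Split m) (p q : Fin m) :
    extI f a₀ b₀ s p.succ q.succ = s p q := by
  unfold extI
  split_ifs
  · rfl
  · rfl

/-- uniform form of membership. -/
theorem IN2_cases {m : ℕ} (τ : RTree m) (f : Fin m → Bool) (h : TopSide τ f) (a₀ b₀ : Fin m)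
    (ha : f a₀ = true) (hb : f b₀ = false) (s' : Split (m + 1)) :
    s' ∈ lI τ f a₀ b₀ ↔ ∃ x, (x = a₀ ∨ x = b₀) ∧ ∃ s ∈ τ.l,
      (∀ p q, f p = f x → f q = f x → s p q = true) ∧ s' = extS x s := by
  rw [mem_lI τ f h a₀ b₀ ha hb]
  constructor
  · rintro (⟨s, hs, h1, rfl⟩ | ⟨s, hs, h1, rfl⟩)
    · refine ⟨b₀, Or.inr rfl, s, hs, ?_, rfl⟩
      rw [hb]
      exact h1
    · refine ⟨a₀, Or.inl rfl, s, hs, ?_, rfl⟩
      rw [ha]
      exact h1
  · rintro ⟨x, rfl | rfl, s, hs, h1, rfl⟩
    · rw [ha] at h1
      exact Or.inr ⟨s, hs, h1, rfl⟩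
    · rw [hb] at h1
      exact Or.inl ⟨s, hs, h1, rfl⟩

/-- symmetries of the relation of separation. -/
theorem IN2_sep {m : ℕ} (s : Split m) (hs : ∃ g : Fin m → Bool, ∀ a b, s a b = (g a == g b))
    (a b c d : Fin m) (h : Sep s a b c d) :
    Sep s b a c d ∧ Sep s a b d c ∧ Sep s c d a b := by
  obtain ⟨g, hg⟩ := hs
  unfold Sep at h ⊢
  simp only [hg] at h ⊢
  generalize g a = A at h ⊢
  generalize g b = B at h ⊢
  generalize g c = C at h ⊢
  generalize g d = D at h ⊢
  revert h
  revert A B C D
  decide

theorem lI_nodup {m : ℕ} (τ : RTree m) (f : Fin m → Bool) (h : TopSide τ f) (a₀ b₀ : Fin m)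
    (ha : f a₀ = true) (hb : f b₀ = false) : (lI τ f a₀ b₀).Nodup := by
  obtain ⟨l₀, hl⟩ := h
  have hnm := IN2_not_mem τ f l₀ hl
  have hnd := τ.nodup
  rw [hl, List.nodup_append] at hnd
  have hinj : Function.Injective (extI f a₀ b₀) := by
    intro s t hst
    funext p q
    rw [← IN2_extI_succ f a₀ b₀ s p q, ← IN2_extI_succ f a₀ b₀ t p q, hst]
  have hdiff : ∀ s ∈ l₀, ∀ x : Fin m, extI f a₀ b₀ s ≠ extS x (eF f) := by
    intro s hs x hx
    apply hnm
    have : s = eF f := by
      funext p q
      rw [← IN2_extI_succ f a₀ b₀ s p q, hx]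
      rfl
    rw [← this]
    exact hs
  rw [IN2_lI τ f l₀ hl, List.nodup_append]
  refine ⟨hnd.1.map hinj, ?_, ?_⟩
  · rw [List.nodup_cons]
    refine ⟨?_, List.nodup_singleton _⟩
    rw [List.mem_singleton]
    intro h0
    have h1 := congrFun (congrFun h0 0) a₀.succ
    have h2 : extS b₀ (eF f) 0 a₀.succ = (f b₀ == f a₀) := rfl
    have h3 : extS a₀ (eF f) 0 a₀.succ = (f a₀ == f a₀) := rfl
    rw [h2, h3, ha, hb] at h1
    exact absurd h1 (by decide)
  · intro s hs t ht
    obtain ⟨s', hs', rfl⟩ := List.mem_map.1 hs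
    rw [List.mem_cons, List.mem_singleton] at ht
    rcases ht with rfl | rfl
    · exact hdiff s' hs' _
    · exact hdiff s' hs' _

theorem lI_split {m : ℕ} (τ : RTree m) (f : Fin m → Bool) (h : TopSide τ f) (a₀ b₀ : Fin m)
    (ha : f a₀ = true) (hb : f b₀ = false) (s : Split (m + 1)) (hs : s ∈ lI τ f a₀ b₀) :
    ∃ f' : Fin (m + 1) → Bool, ∀ a b, s a b = (f' a == f' b) := by
  obtain ⟨x, _, t, ht, _, rfl⟩ := (IN2_cases τ f h a₀ b₀ ha hb s).1 hs
  obtain ⟨g, hg⟩ := τ.split t ht
  exact ⟨fun a => g (Fin.cases (motive := fun _ => Fin m) x (fun i => i) a), fun a b => hg _ _⟩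

theorem lI_nt {m : ℕ} (τ : RTree m) (f : Fin m → Bool) (h : TopSide τ f) (a₀ b₀ : Fin m)
    (ha : f a₀ = true) (hb : f b₀ = false) (s : Split (m + 1)) (hs : s ∈ lI τ f a₀ b₀) : NT s := by
  obtain ⟨x, _, t, ht, _, rfl⟩ := (IN2_cases τ f h a₀ b₀ ha hb s).1 hs
  obtain ⟨a, b, c, d, h1, h2, h3⟩ := τ.nt t ht
  exact ⟨a.succ, b.succ, c.succ, d.succ, fun h0 => h1 (Fin.succ_injective _ h0),
    fun h0 => h2 (Fin.succ_injective _ h0), h3⟩

theorem IN2_bool {a b c : Bool} (h1 : a ≠ c) (h2 : b ≠ c) : a = b := by
  revert a b c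
  decide

theorem IN2_planar {m : ℕ} (τ : RTree m) (f : Fin m → Bool) (a₀ b₀ : Fin m)
    (ha : f a₀ = true) (hb : f b₀ = false) (x : Fin m) (hx : x = a₀ ∨ x = b₀) (t : Split m)
    (ht : t ∈ τ.l) (hc : ∀ p q, f p = f x → f q = f x → t p q = true)
    (a b c d : Fin (m + 1)) (hsep : Sep (extS x t) a b c d) :
    oI τ f a₀ b₀ a b c = oI τ f a₀ b₀ a b d := by
  obtain ⟨g, hg⟩ := τ.split t ht
  have tsymm : ∀ p q, t p q = t q p := by
    intro p q
    rw [hg, hg]
    generalize g p = P
    generalize g q = Q
    revert P Q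
    decide
  have ttrans : ∀ p q r, t p q = true → t q r = false → t p r = false := by
    intro p q r
    rw [hg, hg, hg]
    generalize g p = P
    generalize g q = Q
    generalize g r = R
    revert P Q R
    decide
  have trefl : ∀ p, t p p = true := by
    intro p
    rw [hg]
    generalize g p = P
    revert P
    decide
  have G1 : ∀ q r, f q = f r → f q ≠ f x → gI τ f a₀ b₀ q r = τ.o x q r := by
    intro q r h1 h2
    unfold gI
    rw [if_pos h1]
    rcases hx with rfl | rfl
    · rw [ha] at h2
      rw [if_neg h2]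
    · rw [hb] at h2
      rw [if_pos (by revert h2; generalize f q = Q; revert Q; decide)]
  have G2 : ∀ q r, f q ≠ f r → gI τ f a₀ b₀ q r = if f r = true then 1 else -1 := by
    intro q r h1
    unfold gI
    rw [if_neg h1]
  have hne : ∀ c, t x c = false → f c ≠ f x := by
    intro c h1 h2
    rw [hc x c rfl h2] at h1
    exact absurd h1 (by decide)
  have M1 : ∀ b c d, t x b = true → t c d = true → t x c = false →
      gI τ f a₀ b₀ b c = gI τ f a₀ b₀ b d := by
    intro b c d h1 h2 h3
    have h4 : t x d = false := by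
      rw [tsymm x d]
      exact ttrans d c x (by rw [tsymm]; exact h2) (by rw [tsymm]; exact h3)
    have h5 := hne c h3
    have h6 := hne d h4
    have h7 : f c = f d := IN2_bool h5 h6
    by_cases h8 : f b = f c
    · rw [G1 b c h8 (by rw [h8]; exact h5), G1 b d (h8.trans h7) (by rw [h8]; exact h5)]
      exact τ.planar t ht x b c d ⟨h1, h2, h3⟩
    · rw [G2 b c h8, G2 b d (by rw [← h7]; exact h8), h7]
  have M2 : ∀ a b d, t a b = true → t x d = true → t a x = false →
      gI τ f a₀ b₀ a b = τ.o a b d := by
    intro a b d h1 h2 h3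
    have h4 : t x a = false := by
      rw [tsymm]
      exact h3
    have h5 : t x b = false := by
      rw [tsymm]
      exact ttrans b a x (by rw [tsymm]; exact h1) h3
    have h6 := hne a h4
    have h7 := hne b h5
    rw [G1 a b (IN2_bool h6 h7) h6, ← τ.o_rot x a b]
    exact τ.planar t ht a b x d ⟨h1, h2, h3⟩
  induction a using Fin.cases with
  | zero =>
    induction b using Fin.cases with
    | zero => rfl
    | succ b =>
      induction c using Fin.cases with
      | zero =>
        have h1 : t x x = false := hsep.2.2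
        rw [trefl] at h1
        exact absurd h1 (by decide)
      | succ c =>
        induction d using Fin.cases with
        | zero =>
          have h1 : t c x = true := hsep.2.1
          have h2 : t x c = false := hsep.2.2
          rw [tsymm, h1] at h2
          exact absurd h2 (by decide)
        | succ d =>
          show gI τ f a₀ b₀ b c = gI τ f a₀ b₀ b d
          exact M1 b c d hsep.1 hsep.2.1 hsep.2.2
  | succ a =>
    induction b using Fin.cases with
    | zero =>
      have h0 : t a x = true := hsep.1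
      induction c using Fin.cases with
      | zero =>
        have h1 : t a x = false := hsep.2.2
        rw [h0] at h1
        exact absurd h1 (by decide)
      | succ c =>
        have h1 : t a c = false := hsep.2.2
        induction d using Fin.cases with
        | zero =>
          have h2 : t c x = true := hsep.2.1
          have h3 : t c a = false := by
            rw [tsymm]
            exact h1
          have h4 := ttrans x c a (by rw [tsymm]; exact h2) h3
          rw [tsymm, h0] at h4
          exact absurd h4 (by decide)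
        | succ d =>
          show - gI τ f a₀ b₀ a c = - gI τ f a₀ b₀ a d
          rw [M1 a c d (by rw [tsymm]; exact h0) hsep.2.1
            (ttrans x a c (by rw [tsymm]; exact h0) h1)]
    | succ b =>
      have h0 : t a b = true := hsep.1
      induction c using Fin.cases with
      | zero =>
        have h1 : t a x = false := hsep.2.2
        induction d using Fin.cases with
        | zero => rfl
        | succ d =>
          show gI τ f a₀ b₀ a b = τ.o a b d
          exact M2 a b d h0 hsep.2.1 h1
      | succ c =>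
        have h1 : t a c = false := hsep.2.2
        induction d using Fin.cases with
        | zero =>
          have h2 : t c x = true := hsep.2.1
          show τ.o a b c = gI τ f a₀ b₀ a b
          refine (M2 a b c h0 (by rw [tsymm]; exact h2) ?_).symm
          rw [tsymm]
          exact ttrans x c a (by rw [tsymm]; exact h2) (by rw [tsymm]; exact h1)
        | succ d => exact τ.planar t ht a b c d hsep

theorem lI_planar {m : ℕ} (τ : RTree m) (f : Fin m → Bool) (h : TopSide τ f) (a₀ b₀ : Fin m)
    (ha : f a₀ = true) (hb : f b₀ = false) (s : Split (m + 1)) (hs : s ∈ lI τ f a₀ b₀)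
    (a b c d : Fin (m + 1)) (hsep : Sep s a b c d) :
    oI τ f a₀ b₀ a b c = oI τ f a₀ b₀ a b d := by
  obtain ⟨x, hx, t, ht, hc, rfl⟩ := (IN2_cases τ f h a₀ b₀ ha hb s).1 hs
  exact IN2_planar τ f a₀ b₀ ha hb x hx t ht hc a b c d hsep

/-- every old division has an extension. -/
theorem IN2_ext {m : ℕ} (τ : RTree m) (f : Fin m → Bool) (h : TopSide τ f) (a₀ b₀ : Fin m)
    (ha : f a₀ = true) (hb : f b₀ = false) (s : Split m) (hs : s ∈ τ.l) :
    ∃ x : Fin m, extS x s ∈ lI τ f a₀ b₀ := by
  by_cases hne : s = eF f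
  · refine ⟨a₀, (mem_lI τ f h a₀ b₀ ha hb _).2 (Or.inr ⟨s, hs, ?_, rfl⟩)⟩
    intro a a' h1 h2
    rw [hne]
    unfold eF
    rw [h1, h2]
    rfl
  · rcases const_side τ f h s hs hne with ⟨h1, _⟩ | ⟨h1, _⟩
    · exact ⟨a₀, (mem_lI τ f h a₀ b₀ ha hb _).2 (Or.inr ⟨s, hs, h1, rfl⟩)⟩
    · exact ⟨b₀, (mem_lI τ f h a₀ b₀ ha hb _).2 (Or.inl ⟨s, hs, h1, rfl⟩)⟩

theorem IN2_eF {m : ℕ} (τ : RTree m) (f : Fin m → Bool) (h : TopSide τ f) (a₀ b₀ : Fin m)
    (ha : f a₀ = true) (hb : f b₀ = false) (x : Fin m) (hx : x = a₀ ∨ x = b₀) :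
    extS x (eF f) ∈ lI τ f a₀ b₀ := by
  rw [IN2_cases τ f h a₀ b₀ ha hb]
  obtain ⟨l₀, hl⟩ := h
  refine ⟨x, hx, eF f, ?_, ?_, rfl⟩
  · rw [hl]
    exact List.mem_append_right _ (List.mem_singleton.2 rfl)
  · intro p q h1 h2
    unfold eF
    rw [h1, h2]
    exact beq_self_eq_true _

/-- four leaves, the first of them new. -/
theorem IN2_res0 {m : ℕ} (τ : RTree m) (f : Fin m → Bool) (h : TopSide τ f) (a₀ b₀ : Fin m)
    (ha : f a₀ = true) (hb : f b₀ = false) (p q r : Fin m) (h1 : p ≠ q) (h2 : p ≠ r)
    (h3 : q ≠ r) :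
    ∃ s ∈ lI τ f a₀ b₀, Sep s 0 p.succ q.succ r.succ ∨ Sep s 0 q.succ p.succ r.succ ∨
      Sep s 0 r.succ p.succ q.succ := by
  have hrep : ∀ v : Bool, ∃ x, (x = a₀ ∨ x = b₀) ∧ f x = v := by
    intro v
    cases v
    · exact ⟨b₀, Or.inr rfl, hb⟩
    · exact ⟨a₀, Or.inl rfl, ha⟩
  have key : ∀ u v w : Fin m, f u = f v → f w ≠ f u →
      ∃ s ∈ lI τ f a₀ b₀, Sep s 0 w.succ u.succ v.succ := by
    intro u v w huv hw
    obtain ⟨x, hx, hxw⟩ := hrep (f w)
    refine ⟨extS x (eF f), IN2_eF τ f h a₀ b₀ ha hb x hx, ?_, ?_, ?_⟩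
    · show (f x == f w) = true
      rw [hxw]
      exact beq_self_eq_true _
    · show (f u == f v) = true
      rw [huv]
      exact beq_self_eq_true _
    · show (f x == f u) = false
      rw [hxw, beq_eq_false_iff_ne]
      exact hw
  by_cases hpq : f p = f q
  · by_cases hpr : f p = f r
    · obtain ⟨x, hx, hxv⟩ := hrep (!(f p))
      have hxp : f x ≠ f p := by
        rw [hxv]
        generalize f p = P
        revert P
        decide
      obtain ⟨s, hs, hsep⟩ := τ.res x p q r (fun h0 => hxp (by rw [h0]))
        (fun h0 => hxp (by rw [h0, hpq])) (fun h0 => hxp (by rw [h0, hpr])) h1 h2 h3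
      obtain ⟨g, hg⟩ := τ.split s hs
      have hnc : ¬ ∀ u v, f u = f p → f v = f p → s u v = true := by
        intro h0
        have h4 := h0 p q rfl hpq.symm
        have h5 := h0 p r rfl hpr.symm
        have h6 := h0 q r hpq.symm hpr.symm
        unfold Sep at hsep
        simp only [hg] at h4 h5 h6 hsep
        generalize g p = P at h4 h5 h6 hsep
        generalize g q = Q at h4 h5 h6 hsep
        generalize g r = R at h4 h5 h6 hsep
        generalize g x = X at h4 h5 h6 hsep
        revert h4 h5 h6 hsep
        revert P Q R X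
        decide
      have hne : s ≠ eF f := by
        intro h0
        apply hnc
        intro u v hu hv
        rw [h0]
        unfold eF
        rw [hu, hv]
        exact beq_self_eq_true _
      have hcx : ∀ u v, f u = f x → f v = f x → s u v = true := by
        rcases const_side τ f h s hs hne with ⟨h4, h5⟩ | ⟨h4, h5⟩
        · have hfx : f x = true := by
            by_contra h6
            have h7 : f x = false := by
              revert h6
              generalize f x = X
              revert X
              decide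
            have h8 : f p = true := by
              rw [h7] at hxp
              revert hxp
              generalize f p = P
              revert P
              decide
            rw [h8] at hnc
            exact hnc h4
          rw [hfx]
          exact h4
        · have hfx : f x = false := by
            by_contra h6
            have h7 : f x = true := by
              revert h6
              generalize f x = X
              revert X
              decide
            have h8 : f p = false := by
              rw [h7] at hxp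
              revert hxp
              generalize f p = P
              revert P
              decide
            rw [h8] at hnc
            exact hnc h4
          rw [hfx]
          exact h4
      exact ⟨extS x s, (IN2_cases τ f h a₀ b₀ ha hb _).2 ⟨x, hx, s, hs, hcx, rfl⟩, hsep⟩
    · obtain ⟨s, hs, hsep⟩ := key p q r hpq (fun h0 => hpr h0.symm)
      exact ⟨s, hs, Or.inr (Or.inr hsep)⟩
  · by_cases hpr : f p = f r
    · obtain ⟨s, hs, hsep⟩ := key p r q hpr (fun h0 => hpq h0.symm)
      exact ⟨s, hs, Or.inr (Or.inl hsep)⟩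
    · have hqr : f q = f r := IN2_bool (fun h0 => hpq h0.symm) (fun h0 => hpr h0.symm)
      obtain ⟨s, hs, hsep⟩ := key q r p hqr hpq
      exact ⟨s, hs, Or.inl hsep⟩

theorem lI_res {m : ℕ} (τ : RTree m) (f : Fin m → Bool) (h : TopSide τ f) (a₀ b₀ : Fin m)
    (ha : f a₀ = true) (hb : f b₀ = false) (a b c d : Fin (m + 1)) (h1 : a ≠ b) (h2 : a ≠ c)
    (h3 : a ≠ d) (h4 : b ≠ c) (h5 : b ≠ d) (h6 : c ≠ d) :
    ∃ s ∈ lI τ f a₀ b₀, Sep s a b c d ∨ Sep s a c b d ∨ Sep s a d b c := by
  have hsp := lI_split τ f h a₀ b₀ ha hb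
  have sc : ∀ {x : Fin m} {y : Fin m}, x.succ ≠ y.succ → x ≠ y := fun h0 h4 => h0 (by rw [h4])
  -- permutations of the four leaves
  have swap1 : ∀ a b c d : Fin (m + 1),
      (∃ s ∈ lI τ f a₀ b₀, Sep s a b c d ∨ Sep s a c b d ∨ Sep s a d b c) →
      ∃ s ∈ lI τ f a₀ b₀, Sep s b a c d ∨ Sep s b c a d ∨ Sep s b d a c := by
    rintro a b c d ⟨s, hs, hsep⟩
    refine ⟨s, hs, ?_⟩
    obtain ⟨g, hg⟩ := hsp s hs
    unfold Sep at hsep ⊢
    simp only [hg] at hsep ⊢
    generalize g a = A at hsep ⊢
    generalize g b = B at hsep ⊢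
    generalize g c = C at hsep ⊢
    generalize g d = D at hsep ⊢
    revert hsep
    revert A B C D
    decide
  have swap2 : ∀ a b c d : Fin (m + 1),
      (∃ s ∈ lI τ f a₀ b₀, Sep s a b c d ∨ Sep s a c b d ∨ Sep s a d b c) →
      ∃ s ∈ lI τ f a₀ b₀, Sep s a c b d ∨ Sep s a b c d ∨ Sep s a d c b := by
    rintro a b c d ⟨s, hs, hsep⟩
    refine ⟨s, hs, ?_⟩
    obtain ⟨g, hg⟩ := hsp s hs
    unfold Sep at hsep ⊢
    simp only [hg] at hsep ⊢
    generalize g a = A at hsep ⊢
    generalize g b = B at hsep ⊢
    generalize g c = C at hsep ⊢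
    generalize g d = D at hsep ⊢
    revert hsep
    revert A B C D
    decide
  have swap3 : ∀ a b c d : Fin (m + 1),
      (∃ s ∈ lI τ f a₀ b₀, Sep s a b c d ∨ Sep s a c b d ∨ Sep s a d b c) →
      ∃ s ∈ lI τ f a₀ b₀, Sep s a b d c ∨ Sep s a d b c ∨ Sep s a c b d := by
    rintro a b c d ⟨s, hs, hsep⟩
    refine ⟨s, hs, ?_⟩
    obtain ⟨g, hg⟩ := hsp s hs
    unfold Sep at hsep ⊢
    simp only [hg] at hsep ⊢
    generalize g a = A at hsep ⊢
    generalize g b = B at hsep ⊢
    generalize g c = C at hsep ⊢
    generalize g d = D at hsep ⊢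
    revert hsep
    revert A B C D
    decide
  induction a using Fin.cases with
  | zero =>
    induction b using Fin.cases with
    | zero => exact absurd rfl h1
    | succ b =>
      induction c using Fin.cases with
      | zero => exact absurd rfl h2
      | succ c =>
        induction d using Fin.cases with
        | zero => exact absurd rfl h3
        | succ d => exact IN2_res0 τ f h a₀ b₀ ha hb b c d (sc h4) (sc h5) (sc h6)
  | succ a =>
    induction b using Fin.cases with
    | zero =>
      induction c using Fin.cases with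
      | zero => exact absurd rfl h4
      | succ c =>
        induction d using Fin.cases with
        | zero => exact absurd rfl h5
        | succ d =>
          exact swap1 _ _ _ _ (IN2_res0 τ f h a₀ b₀ ha hb a c d (sc h2) (sc h3) (sc h6))
    | succ b =>
      induction c using Fin.cases with
      | zero =>
        induction d using Fin.cases with
        | zero => exact absurd rfl h6
        | succ d =>
          exact swap2 _ _ _ _ (swap1 _ _ _ _
            (IN2_res0 τ f h a₀ b₀ ha hb a b d (sc h1) (sc h3) (sc h5)))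
      | succ c =>
        induction d using Fin.cases with
        | zero =>
          exact swap3 _ _ _ _ (swap2 _ _ _ _ (swap1 _ _ _ _
            (IN2_res0 τ f h a₀ b₀ ha hb a b c (sc h1) (sc h2) (sc h4))))
        | succ d =>
          obtain ⟨s, hs, hsep⟩ := τ.res a b c d (sc h1) (sc h2) (sc h3) (sc h4) (sc h5) (sc h6)
          obtain ⟨x, hx⟩ := IN2_ext τ f h a₀ b₀ ha hb s hs
          exact ⟨extS x s, hx, hsep⟩

/-- exclusion, the first leaf new and the representatives different. -/
theorem IN2_excl0 {m : ℕ} (τ : RTree m) (f : Fin m → Bool) (x y : Fin m) (hxy : f x ≠ f y)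
    (s t : Split m) (hs : s ∈ τ.l) (ht : t ∈ τ.l)
    (hcs : ∀ p q, f p = f x → f q = f x → s p q = true)
    (hct : ∀ p q, f p = f y → f q = f y → t p q = true) (b c d : Fin (m + 1))
    (h1 : Sep (extS x s) 0 b c d) : ¬ Sep (extS y t) 0 c b d := by
  intro h2
  obtain ⟨g, hg⟩ := τ.split s hs
  obtain ⟨k, hk⟩ := τ.split t ht
  induction b using Fin.cases with
  | zero =>
    have h3 : t y y = false := h2.2.2
    rw [hk] at h3
    generalize k y = Y at h3
    revert h3
    revert Y
    decide
  | succ b =>
    induction c using Fin.cases with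
    | zero =>
      have h3 : s x x = false := h1.2.2
      rw [hg] at h3
      generalize g x = X at h3
      revert h3
      revert X
      decide
    | succ c =>
      have h3 : s x c = false := h1.2.2
      have h4 : t y b = false := h2.2.2
      induction d using Fin.cases with
      | zero =>
        have h5 : s c x = true := h1.2.1
        rw [hg] at h3 h5
        generalize g x = X at h3 h5
        generalize g c = C at h3 h5
        revert h3 h5
        revert X C
        decide
      | succ d =>
        have h5 : s c d = true := h1.2.1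
        have h6 : t b d = true := h2.2.1
        have h7 : s x d = false := by
          rw [hg] at h3 h5 ⊢
          generalize g x = X at h3 ⊢
          generalize g c = C at h3 h5
          generalize g d = D at h5 ⊢
          revert h3 h5
          revert X C D
          decide
        have h8 : t y d = false := by
          rw [hk] at h4 h6 ⊢
          generalize k y = X at h4 ⊢
          generalize k b = C at h4 h6
          generalize k d = D at h6 ⊢
          revert h4 h6
          revert X C D
          decide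
        have h9 : f d ≠ f x := by
          intro h0
          rw [hcs x d rfl h0] at h7
          exact absurd h7 (by decide)
        have h10 : f d ≠ f y := by
          intro h0
          rw [hct y d rfl h0] at h8
          exact absurd h8 (by decide)
        exact hxy (IN2_bool (fun h0 => h9 h0.symm) (fun h0 => h10 h0.symm))

theorem lI_excl {m : ℕ} (τ : RTree m) (f : Fin m → Bool) (h : TopSide τ f) (a₀ b₀ : Fin m)
    (ha : f a₀ = true) (hb : f b₀ = false) (s : Split (m + 1)) (hs : s ∈ lI τ f a₀ b₀)
    (t : Split (m + 1)) (ht : t ∈ lI τ f a₀ b₀) (a b c d : Fin (m + 1)) (hsep : Sep s a b c d) :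
    ¬ Sep t a c b d := by
  intro hsep2
  have hsp := lI_split τ f h a₀ b₀ ha hb s hs
  have htp := lI_split τ f h a₀ b₀ ha hb t ht
  obtain ⟨x, hx, s', hs', hcs, rfl⟩ := (IN2_cases τ f h a₀ b₀ ha hb s).1 hs
  obtain ⟨y, hy, t', ht', hct, rfl⟩ := (IN2_cases τ f h a₀ b₀ ha hb t).1 ht
  by_cases hxy : x = y
  · subst hxy
    exact τ.excl s' hs' t' ht' _ _ _ _ hsep hsep2
  · have hf : f x ≠ f y := by
      rcases hx with rfl | rfl
      · rcases hy with rfl | rfl
        · exact absurd rfl hxy
        · rw [ha, hb]
          decide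
      · rcases hy with rfl | rfl
        · rw [ha, hb]
          decide
        · exact absurd rfl hxy
    have S1 := IN2_sep (extS x s') hsp
    have T1 := IN2_sep (extS y t') htp
    have E0 := IN2_excl0 τ f x y hf s' t' hs' ht' hcs hct
    induction a using Fin.cases with
    | zero => exact E0 b c d hsep hsep2
    | succ a =>
      induction b using Fin.cases with
      | zero =>
        -- (b, a, d, c)
        have e1 := ((S1 _ _ _ _ ((S1 _ _ _ _ hsep).1)).2.1)
        have e3 := (T1 _ _ _ _ hsep2).2.2
        exact E0 _ _ _ e1 e3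
      | succ b =>
        induction c using Fin.cases with
        | zero =>
          have e1 := (S1 _ _ _ _ hsep).2.2
          have e3 := (T1 _ _ _ _ ((T1 _ _ _ _ hsep2).1)).2.1
          exact E0 _ _ _ e1 e3
        | succ c =>
          induction d using Fin.cases with
          | zero =>
            have e1 := (S1 _ _ _ _ ((S1 _ _ _ _ ((S1 _ _ _ _ hsep).2.2)).1)).2.1
            have e3 := (T1 _ _ _ _ ((T1 _ _ _ _ ((T1 _ _ _ _ hsep2).2.2)).1)).2.1
            exact E0 _ _ _ e1 e3
          | succ d => exact τ.excl s' hs' t' ht' a b c d hsep hsep2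

/-- Insertion of a leaf on the highest edge, with given `a₀`, `b₀`. -/
def insAB {m : ℕ} (τ : RTree m) (f : Fin m → Bool) (h : TopSide τ f) (a₀ b₀ : Fin m)
    (ha : f a₀ = true) (hb : f b₀ = false) : RTree (m + 1) where
  o := oI τ f a₀ b₀
  l := lI τ f a₀ b₀
  o_vals := oI_vals τ f h a₀ b₀ ha hb
  o_swap := oI_swap τ f a₀ b₀
  o_rot := oI_rot τ f a₀ b₀
  o_coc := oI_coc τ f h a₀ b₀ ha hb
  nodup := lI_nodup τ f h a₀ b₀ ha hb
  split := lI_split τ f h a₀ b₀ ha hb
  nt := lI_nt τ f h a₀ b₀ ha hb
  planar s hs a b c d := lI_planar τ f h a₀ b₀ ha hb s hs a b c d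
  res := lI_res τ f h a₀ b₀ ha hb
  excl s hs t ht a b c d := lI_excl τ f h a₀ b₀ ha hb s hs t ht a b c d

/-- Insertion of a leaf on the highest edge. -/
noncomputable def RTree.ins {m : ℕ} (τ : RTree m) (f : Fin m → Bool) (h : TopSide τ f) :
    RTree (m + 1) :=
  insAB τ f h (exists_side τ f h).choose.1 (exists_side τ f h).choose.2
    (exists_side τ f h).choose_spec.1 (exists_side τ f h).choose_spec.2

end SimplVol

end S_IN2

section S_IN3

/-!
# Module IN3: insertion of a leaf and restriction

* `ins_eq`: `ins` does not depend on the choices: the orientations `gI` agree by `o_side`; the extensions agree: for `s` constant on `B`,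
  `extS b₀ s = extS b₀' s` (`s b₀ x = s b₀' x` as `s b₀ b₀'`), same for `A`; `eF f b₀ x = eF f b₀' x`. `RTree.ext`.
* `topSide_iff`: if `τ.l = l₀ ++ [eF f] = l₁ ++ [eF f']` then `eF f = eF f'` (`List.append_inj`), so `f' = f` or `f' = !f` (compare at one point `x₀`:
  `f' a = f' x₀` iff `f a = f x₀`; `m ≥ 1` as there are leaves). `exists_topSide`: `τ.l ≠ []`, its last element is given by some `f`
  (`τ.split`; `List.dropLast_append_getLast`), `funext`.
* `ins_face_zero`: `RTree.ext`; orientation by definition; list: restriction along `Fin.succ` of `extS x s` is `s`; so the restricted list is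
  `τ.l.dropLast ++ [eF f, eF f]`, all `NT`, and `dedup` gives `τ.l.dropLast ++ [eF f] = τ.l` (`τ.nodup`).
-/

set_option autoImplicit false

open scoped BigOperators Nat

namespace SimplVol

/-- The embedding that fixes the new leaf. -/
def consE {k m : ℕ} (ι : Fin k ↪ Fin m) : Fin (k + 1) ↪ Fin (m + 1) :=
  ⟨Fin.cons 0 (fun i => (ι i).succ), by
    intro a b
    refine Fin.cases ?_ (fun a' => ?_) a
    · refine Fin.cases ?_ (fun b' => ?_) b
      · intro _; rfl
      · intro h; exact absurd h (Fin.succ_ne_zero _).symm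
    · refine Fin.cases ?_ (fun b' => ?_) b
      · intro h; exact absurd h (Fin.succ_ne_zero _)
      · intro h
        have h2 : (ι a').succ = (ι b').succ := h
        rw [ι.injective (Fin.succ_injective _ h2)]⟩

theorem consE_zero {k m : ℕ} (ι : Fin k ↪ Fin m) : consE ι 0 = 0 := rfl

theorem consE_succ {k m : ℕ} (ι : Fin k ↪ Fin m) (i : Fin k) : consE ι i.succ = (ι i).succ := rfl

theorem consE_succAbove {m : ℕ} (c : Fin (m + 1)) :
    consE (Fin.succAboveEmb c) = Fin.succAboveEmb c.succ := by
  apply DFunLike.ext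
  intro i
  refine Fin.cases ?_ (fun j => ?_) i
  · rw [consE_zero]
    simp [Fin.succAboveEmb_apply]
  · rw [consE_succ]
    simp [Fin.succAboveEmb_apply]

theorem IN3_extS_congr {m : ℕ} (s : Split m)
    (hs : ∃ f : Fin m → Bool, ∀ a b, s a b = (f a == f b)) (x y : Fin m) (hxy : s x y = true) :
    extS x s = extS y s := by
  obtain ⟨f', hf'⟩ := hs
  have h1 : f' x = f' y := by
    have := hf' x y
    rw [hxy] at this
    exact eq_of_beq this.symm
  funext p q
  refine Fin.cases ?_ (fun p' => ?_) p
  · refine Fin.cases ?_ (fun q' => ?_) q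
    · simp only [extS, Fin.cases_zero]
      rw [hf', hf', h1]
    · simp only [extS, Fin.cases_zero, Fin.cases_succ]
      rw [hf', hf', h1]
  · refine Fin.cases ?_ (fun q' => ?_) q
    · simp only [extS, Fin.cases_zero, Fin.cases_succ]
      rw [hf', hf', h1]
    · simp only [extS, Fin.cases_succ]

theorem IN3_ne_eF {m : ℕ} (τ : RTree m) (f : Fin m → Bool) (h : TopSide τ f) (s : Split m)
    (hs : s ∈ τ.l.dropLast) : s ≠ eF f := by
  obtain ⟨l₀, hl₀⟩ := h
  have hn := τ.nodup
  rw [hl₀] at hn
  rw [hl₀, List.dropLast_concat] at hs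
  intro he
  rw [List.nodup_append] at hn
  exact hn.2.2 s hs (eF f) (by simp) he

theorem IN3_gI_eq {m : ℕ} (τ : RTree m) (f : Fin m → Bool) (h : TopSide τ f) (a₀ b₀ a₁ b₁ : Fin m)
    (ha : f a₀ = true) (hb : f b₀ = false) (ha' : f a₁ = true) (hb' : f b₁ = false) :
    gI τ f a₀ b₀ = gI τ f a₁ b₁ := by
  funext q r
  unfold gI
  by_cases h1 : f q = f r
  · rw [if_pos h1, if_pos h1]
    by_cases h2 : f q = true
    · rw [if_pos h2, if_pos h2]
      exact o_side τ f h b₀ b₁ q r (by rw [hb, hb']) h1 (by rw [hb, h2]; simp)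
    · rw [if_neg h2, if_neg h2]
      exact o_side τ f h a₀ a₁ q r (by rw [ha, ha']) h1 (by rw [ha]; exact fun h3 => h2 h3.symm)
  · rw [if_neg h1, if_neg h1]

theorem IN3_insAB_eq {m : ℕ} (τ : RTree m) (f : Fin m → Bool) (h : TopSide τ f)
    (a₀ b₀ a₁ b₁ : Fin m)
    (ha : f a₀ = true) (hb : f b₀ = false) (ha' : f a₁ = true) (hb' : f b₁ = false) :
    insAB τ f h a₀ b₀ ha hb = insAB τ f h a₁ b₁ ha' hb' := by
  apply RTree.ext
  · change oI τ f a₀ b₀ = oI τ f a₁ b₁
    unfold oI
    rw [IN3_gI_eq τ f h a₀ b₀ a₁ b₁ ha hb ha' hb']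
  · change lI τ f a₀ b₀ = lI τ f a₁ b₁
    unfold lI
    have h1 : extS b₀ (eF f) = extS b₁ (eF f) :=
      IN3_extS_congr _ ⟨f, fun _ _ => rfl⟩ _ _ (by rw [hb, hb']; rfl)
    have h2 : extS a₀ (eF f) = extS a₁ (eF f) :=
      IN3_extS_congr _ ⟨f, fun _ _ => rfl⟩ _ _ (by rw [ha, ha']; rfl)
    rw [h1, h2]
    congr 1
    apply List.map_congr_left
    intro s hs
    have hne := IN3_ne_eF τ f h s hs
    have hmem : s ∈ τ.l := List.mem_of_mem_dropLast hs
    unfold extI
    by_cases h3 : ∀ b b', f b = false → f b' = false → s b b' = true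
    · rw [if_pos h3, if_pos h3]
      exact IN3_extS_congr _ (τ.split s hmem) _ _ (h3 _ _ hb hb')
    · rw [if_neg h3, if_neg h3]
      rcases const_side τ f h s hmem hne with h4 | h4
      · exact IN3_extS_congr _ (τ.split s hmem) _ _ (h4.1 _ _ ha ha')
      · exact absurd h4.1 h3

theorem ins_eq {m : ℕ} (τ : RTree m) (f : Fin m → Bool) (h : TopSide τ f) (a₀ b₀ : Fin m)
    (ha : f a₀ = true) (hb : f b₀ = false) : τ.ins f h = insAB τ f h a₀ b₀ ha hb :=
  IN3_insAB_eq τ f h _ _ _ _ _ _ _ _

theorem exists_topSide {m : ℕ} (hm : 4 ≤ m) (τ : RTree m) : ∃ f, TopSide τ f := by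
  have hne := τ.l_ne_nil hm
  obtain ⟨f, hf⟩ := τ.split (τ.l.getLast hne) (List.getLast_mem hne)
  refine ⟨f, τ.l.dropLast, ?_⟩
  have h1 : eF f = τ.l.getLast hne := by
    funext a b
    exact (hf a b).symm
  rw [h1]
  exact (List.dropLast_append_getLast hne).symm

theorem topSide_iff {m : ℕ} (τ : RTree m) (f : Fin m → Bool) (h : TopSide τ f)
    (f' : Fin m → Bool) : TopSide τ f' ↔ f' = f ∨ f' = fun a => !(f a) := by
  constructor
  · intro h'
    obtain ⟨⟨x₀, y₀⟩, -⟩ := exists_side τ f h
    obtain ⟨l₀, hl₀⟩ := h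
    obtain ⟨l₁, hl₁⟩ := h'
    rw [hl₀] at hl₁
    have he : eF f = eF f' := by
      have := (List.append_inj' hl₁ rfl).2
      simpa using this
    have hp : ∀ a, (f a == f x₀) = (f' a == f' x₀) := fun a => congrFun (congrFun he a) x₀
    by_cases hx : f' x₀ = f x₀
    · left
      funext a
      have := hp a
      rw [hx] at this
      revert this
      generalize f a = u
      generalize f' a = v
      generalize f x₀ = w
      revert u v w
      decide
    · right
      funext a
      have := hp a
      revert this hx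
      generalize f a = u
      generalize f' a = v
      generalize f x₀ = w
      generalize f' x₀ = z
      revert u v w z
      decide
  · rintro (rfl | rfl)
    · exact h
    · obtain ⟨l₀, hl₀⟩ := h
      refine ⟨l₀, ?_⟩
      rw [hl₀]
      have : eF f = eF (fun a => !(f a)) := by
        funext a b
        change (f a == f b) = ((!(f a)) == (!(f b)))
        generalize f a = u
        generalize f b = v
        revert u v
        decide
      rw [this]

theorem IN3_dedup {α : Type} [DecidableEq α] (e : α) : ∀ l : List α, (l ++ [e]).Nodup →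
    (l ++ [e, e]).dedup = l ++ [e]
  | [], _ => by
    rw [List.nil_append, List.dedup_cons_of_mem (by simp)]
    rw [List.nil_append]
    exact (List.nodup_singleton e).dedup
  | a :: l, h => by
    rw [List.cons_append, List.nodup_cons] at h
    rw [List.cons_append, List.dedup_cons_of_notMem, IN3_dedup e l h.2, List.cons_append]
    intro h2
    apply h.1
    simpa using h2

theorem IN3_res_ext {m : ℕ} (x : Fin m) (s : Split m) :
    resS (Fin.succAboveEmb 0) (extS x s) = s := by
  funext a b
  simp only [resS, extS, Fin.succAboveEmb_apply, Fin.zero_succAbove, Fin.cases_succ]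

theorem ins_face_zero {m : ℕ} (τ : RTree m) (f : Fin m → Bool) (h : TopSide τ f) :
    (τ.ins f h).pull (Fin.succAboveEmb 0) = τ := by
  apply RTree.ext
  · funext a b c
    change oI τ f (exists_side τ f h).choose.1 (exists_side τ f h).choose.2
      ((Fin.succAboveEmb 0) a) ((Fin.succAboveEmb 0) b) ((Fin.succAboveEmb 0) c) = _
    simp only [Fin.succAboveEmb_apply, Fin.zero_succAbove, oI, Fin.cases_succ]
  · change (((lI τ f (exists_side τ f h).choose.1 (exists_side τ f h).choose.2).map (resS (Fin.succAboveEmb 0))).filter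
      fun s => decide (NT s)).dedup = τ.l
    have h1 : ∀ a₀ b₀ : Fin m, (lI τ f a₀ b₀).map (resS (Fin.succAboveEmb 0)) =
        τ.l.dropLast ++ [eF f, eF f] := by
      intro a₀ b₀
      unfold lI
      rw [List.map_append, List.map_map]
      simp only [List.map_cons, List.map_nil, IN3_res_ext]
      congr 1
      have h2 : ∀ s ∈ τ.l.dropLast, (resS (Fin.succAboveEmb 0) ∘ extI f a₀ b₀) s = id s := by
        intro s _
        simp only [Function.comp, extI, id]
        split_ifs
        · exact IN3_res_ext _ _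
        · exact IN3_res_ext _ _
      rw [List.map_congr_left h2, List.map_id]
    rw [h1]
    obtain ⟨l₀, hl₀⟩ := h
    have hd : τ.l.dropLast = l₀ := by rw [hl₀, List.dropLast_concat]
    rw [hd]
    have h3 : (l₀ ++ [eF f, eF f]).filter (fun s => decide (NT s)) = l₀ ++ [eF f, eF f] := by
      rw [List.filter_eq_self]
      intro s hs
      apply decide_eq_true
      apply τ.nt
      rw [hl₀]
      simpa using hs
    rw [h3, hl₀]
    apply IN3_dedup
    rw [← hl₀]
    exact τ.nodup

end SimplVol

end S_IN3

section S_IN4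

/-!
# Module IN4: insertion and restriction

* `topSide_pull`, `ins_pull`: let `ι⁺ = consE ι`. Let `eF f` restricted to `Fin k` be `NT`; it is `eF (f ∘ ι)`. `(τ.pull ι).l = ((τ.l.map r).filter NT).dedup` with
  `τ.l = D ++ [eF f]`, `r = resS ι`; `dedup` keeps the last occurrence, so it is `D' ++ [eF (f ∘ ι)]` with `D' = (((D.map r).filter NT).filter (≠ eF (f ∘ ι))).dedup`
  (lemma `dedup_concat`: `(L ++ [x]).dedup = (L.filter (≠ x)).dedup ++ [x]`, induction). Choose `a₀, b₀` in the range of `ι` (`ins_eq`): `NT` of `eF (f ∘ ι)` gives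
  `a₀ = ι a`, `b₀ = ι b`. Orientations: `oI τ f (ι a) (ι b)` at `ι⁺` is `oI (τ.pull ι) (f ∘ ι) a b` by definition (`Fin.cases`). Lists: `resS ι⁺ (extS (ι x) s) = extS x (resS ι s)`.
  `(ins τ).l = D.map ext ++ [extS b₀ (eF f), extS a₀ (eF f)]`; its restriction, filtered and deduplicated: the last two are `extS b (eF (f ∘ ι))`, `extS a (eF (f ∘ ι))`, both `NT` and
  different. For `s ∈ D`, `s` constant on `B`, say, the restriction is `extS b (r s)`; it is `NT` iff `r s` is `NT` or ... : if `r s = eF (f ∘ ι)` it is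
  equal to `extS b (eF (f ∘ ι))` and is dropped as the earlier duplicate; if `r s` is not `NT` then `extS b (r s)` is not `NT`: the class of `b` contains the class `B`
  restricted, which has ≥ 2 elements (as `eF (f ∘ ι)` is `NT`), so the class which has ≤ 1 element is the other one, and it does not
  change (if `r s` has only one class then so has `extS b (r s)`); if `r s` is `NT`, `≠ eF (f ∘ ι)`, then `extI (f ∘ ι) a b (r s) = extS b (r s)` (it is
  constant on `B` restricted). `extS b` (`extS a`) are injective, and `extS b t ≠ extS a t'` for `t ≠ t'`... (restrict to `Fin.succ`), so `dedup` and `map`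
  commute (`List.dedup_map_of_injective`-like; `ext' : t ↦ extI (f ∘ ι) a b t` is injective as its restriction along `Fin.succ` is `t`).
-/

set_option autoImplicit false

open scoped BigOperators Nat

namespace SimplVol

private theorem in4_dedup_concat {α : Type*} [DecidableEq α] (L : List α) (x : α) :
    (L ++ [x]).dedup = (L.filter fun y => decide (y ≠ x)).dedup ++ [x] := by
  induction L with
  | nil => simp
  | cons a L ih =>
    rw [List.cons_append]
    by_cases hax : a = x
    · subst hax
      rw [List.dedup_cons_of_mem (by simp), ih, List.filter_cons_of_neg (by simp)]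
    · rw [List.filter_cons_of_pos (by simpa using hax)]
      by_cases haL : a ∈ L
      · rw [List.dedup_cons_of_mem (List.mem_append_left _ haL), ih,
          List.dedup_cons_of_mem (List.mem_filter.mpr ⟨haL, by simpa using hax⟩)]
      · rw [List.dedup_cons_of_notMem (by simp [haL, hax]), ih,
          List.dedup_cons_of_notMem (fun hh => haL (List.mem_filter.mp hh).1)]
        rfl

private theorem in4_pull_l {k m : ℕ} (ι : Fin k ↪ Fin m) (τ : RTree m) (f : Fin m → Bool)
    (l₀ : List (Split m)) (h : τ.l = l₀ ++ [eF f]) (hn : NT (eF fun i => f (ι i))) :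
    (τ.pull ι).l = (((l₀.map (resS ι)).filter fun s => decide (NT s)).filter
      fun y => decide (y ≠ eF fun i => f (ι i))).dedup ++ [eF fun i => f (ι i)] := by
  change (((τ.l.map (resS ι)).filter fun s => decide (NT s)).dedup) = _
  rw [h, List.map_append, List.filter_append]
  have e : ((List.map (resS ι) [eF f]).filter fun s => decide (NT s)) = [eF fun i => f (ι i)] := by
    change (([eF fun i => f (ι i)] : List (Split k)).filter fun s => decide (NT s)) = _
    rw [List.filter_cons_of_pos (by simpa using hn)]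
    rfl
  rw [e, in4_dedup_concat]

theorem topSide_pull {k m : ℕ} (ι : Fin k ↪ Fin m) (τ : RTree m) (f : Fin m → Bool)
    (h : TopSide τ f) (hn : NT (eF fun i => f (ι i))) :
    TopSide (τ.pull ι) (fun i => f (ι i)) := by
  obtain ⟨l₀, hl⟩ := h
  exact ⟨_, in4_pull_l ι τ f l₀ hl hn⟩

private theorem in4_res_ext {k m : ℕ} (ι : Fin k ↪ Fin m) (x : Fin k) (s : Split m) :
    resS (consE ι) (extS (ι x) s) = extS x (resS ι s) := by
  funext p q
  refine Fin.cases ?_ (fun p' => ?_) p
  · refine Fin.cases ?_ (fun q' => ?_) q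
    · rfl
    · rfl
  · refine Fin.cases ?_ (fun q' => ?_) q
    · rfl
    · rfl

private theorem in4_ext_inj {k : ℕ} {x y : Fin k} {s t : Split k} (h : extS x s = extS y t) :
    s = t := by
  funext p q
  exact congrFun (congrFun h p.succ) q.succ

private theorem in4_extI_inj {k : ℕ} (f : Fin k → Bool) (a b : Fin k) :
    Function.Injective (extI f a b) := by
  intro s t h
  unfold extI at h
  split_ifs at h
  · exact in4_ext_inj h
  · exact in4_ext_inj h
  · exact in4_ext_inj h
  · exact in4_ext_inj h

private theorem in4_nt_ext {k : ℕ} (x : Fin k) (s : Split k) (h : NT s) : NT (extS x s) := by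
  obtain ⟨a, b, c, d, h1, h2, h3⟩ := h
  exact ⟨a.succ, b.succ, c.succ, d.succ, fun e => h1 (Fin.succ_injective _ e),
    fun e => h2 (Fin.succ_injective _ e), h3⟩

private theorem in4_nt_of_ext {k : ℕ} (x x' : Fin k) (s : Split k)
    (hs : ∃ f : Fin k → Bool, ∀ a b, s a b = (f a == f b)) (hx : x ≠ x') (hxx : s x x' = true)
    (h : NT (extS x s)) : NT s := by
  obtain ⟨f, hf⟩ := hs
  obtain ⟨p, q, u, v, h1, h2, h3, h4, h5⟩ := h
  -- class of `p` and of `u`
  have hxx' : f x = f x' := by
    have := hf x x'
    rw [hxx] at this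
    simpa using this.symm
  revert h1 h2 h3 h4 h5
  refine Fin.cases ?_ (fun p' => ?_) p
  · refine Fin.cases ?_ (fun q' => ?_) q
    · intro h1; exact absurd rfl h1
    · refine Fin.cases ?_ (fun u' => ?_) u
      · intro _ _ _ _ h5
        change s x x = false at h5
        rw [hf] at h5
        simp at h5
      · refine Fin.cases ?_ (fun v' => ?_) v
        · intro _ _ _ h4 h5
          change s u' x = true at h4
          change s x u' = false at h5
          rw [hf] at h4 h5
          simp only [beq_iff_eq, beq_eq_false_iff_ne] at h4 h5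
          exact absurd h4.symm h5
        · intro _ h2 _ h4 h5
          exact ⟨x, x', u', v', hx, fun e => h2 (by rw [e]), hxx, h4, h5⟩
  · refine Fin.cases ?_ (fun q' => ?_) q
    · refine Fin.cases ?_ (fun u' => ?_) u
      · intro _ _ h3 _ h5
        change s p' x = true at h3
        change s p' x = false at h5
        rw [h3] at h5
        exact absurd h5 (by simp)
      · refine Fin.cases ?_ (fun v' => ?_) v
        · intro _ _ h3 h4 h5
          change s p' x = true at h3
          change s u' x = true at h4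
          change s p' u' = false at h5
          rw [hf] at h3 h4 h5
          simp only [beq_iff_eq, beq_eq_false_iff_ne] at h3 h4 h5
          exact absurd (h3.trans h4.symm) h5
        · intro _ h2 h3 h4 h5
          change s p' x = true at h3
          change s u' v' = true at h4
          change s p' u' = false at h5
          refine ⟨x, x', u', v', hx, fun e => h2 (by rw [e]), hxx, h4, ?_⟩
          rw [hf] at h3 h5 ⊢
          simp only [beq_iff_eq, beq_eq_false_iff_ne] at h3 h5 ⊢
          exact fun e => h5 (h3.trans e)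
    · refine Fin.cases ?_ (fun u' => ?_) u
      · refine Fin.cases ?_ (fun v' => ?_) v
        · intro _ h2
          exact absurd rfl h2
        · intro h1 _ h3 h4 h5
          change s p' q' = true at h3
          change s p' x = false at h5
          exact ⟨p', q', x, x', fun e => h1 (by rw [e]), hx, h3, hxx, h5⟩
      · refine Fin.cases ?_ (fun v' => ?_) v
        · intro h1 _ h3 h4 h5
          change s p' q' = true at h3
          change s u' x = true at h4
          change s p' u' = false at h5
          refine ⟨p', q', x, x', fun e => h1 (by rw [e]), hx, h3, hxx, ?_⟩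
          rw [hf] at h4 h5 ⊢
          simp only [beq_iff_eq, beq_eq_false_iff_ne] at h4 h5 ⊢
          exact fun e => h5 (e.trans h4.symm)
        · intro h1 h2 h3 h4 h5
          exact ⟨p', q', u', v', fun e => h1 (by rw [e]), fun e => h2 (by rw [e]), h3, h4, h5⟩

private theorem in4_const_both {k : ℕ} (F : Fin k → Bool) (s : Split k)
    (hs : ∃ f : Fin k → Bool, ∀ a b, s a b = (f a == f b)) (h : NT s)
    (hc : ∀ a b, F a = F b → s a b = true) : s = eF F := by
  obtain ⟨f, hf⟩ := hs
  obtain ⟨a, _, c, _, _, _, _, _, h5⟩ := h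
  have hc' : ∀ a b, F a = F b → f a = f b := by
    intro a b hab
    have := hc a b hab
    rw [hf] at this
    simpa using this
  have h5' : f a ≠ f c := by
    rw [hf] at h5
    simpa using h5
  funext p q
  rw [hf]
  change _ = (F p == F q)
  by_cases hpq : F p = F q
  · rw [hpq, hc' p q hpq]
    simp
  · have hne : f p ≠ f q := by
      intro e
      apply h5'
      have key : ∀ z, f z = f p := by
        intro z
        by_cases hz : F z = F p
        · exact hc' z p hz
        · have : F z = F q := by
            revert hz hpq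
            cases F z <;> cases F p <;> cases F q <;> simp
          rw [hc' z q this, e]
      rw [key a, key c]
    have h1 : (f p == f q) = false := by simpa using hne
    have h2 : (F p == F q) = false := by simpa using hpq
    rw [h1, h2]

private theorem in4_list {α β γ : Type*} (D : List α) (g : α → γ) (r : α → β) (e : β → γ)
    (P Q R : γ → Bool) (P' Q' : β → Bool)
    (h1 : ∀ s ∈ D, (P (g s) = true ∧ Q (g s) = true ∧ R (g s) = true) ↔
      (P' (r s) = true ∧ Q' (r s) = true))
    (h2 : ∀ s ∈ D, P' (r s) = true → Q' (r s) = true → g s = e (r s)) :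
    (((D.map g).filter P).filter Q).filter R = (((D.map r).filter P').filter Q').map e := by
  induction D with
  | nil => rfl
  | cons s D ih =>
    have ih' := ih (fun t ht => h1 t (List.mem_cons_of_mem _ ht))
      (fun t ht => h2 t (List.mem_cons_of_mem _ ht))
    simp only [List.map_cons]
    have hs := h1 s (List.mem_cons_self)
    by_cases hb : P' (r s) = true ∧ Q' (r s) = true
    · obtain ⟨p1, p2, p3⟩ := hs.mpr hb
      rw [List.filter_cons_of_pos (by rw [p1]), List.filter_cons_of_pos (by rw [p2]),
        List.filter_cons_of_pos (by rw [p3]), List.filter_cons_of_pos (by rw [hb.1]),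
        List.filter_cons_of_pos (by rw [hb.2]), List.map_cons, ih',
        h2 s (List.mem_cons_self) hb.1 hb.2]
    · have hb' : ¬ (P (g s) = true ∧ Q (g s) = true ∧ R (g s) = true) := fun hh => hb (hs.mp hh)
      have l1 : ((((g s) :: D.map g).filter P).filter Q).filter R
          = (((D.map g).filter P).filter Q).filter R := by
        by_cases q1 : P (g s) = true
        · rw [List.filter_cons_of_pos q1]
          by_cases q2 : Q (g s) = true
          · rw [List.filter_cons_of_pos q2]
            by_cases q3 : R (g s) = true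
            · exact absurd ⟨q1, q2, q3⟩ hb'
            · rw [List.filter_cons_of_neg q3]
          · rw [List.filter_cons_of_neg q2]
        · rw [List.filter_cons_of_neg q1]
      have l2 : (((r s) :: D.map r).filter P').filter Q' = ((D.map r).filter P').filter Q' := by
        by_cases q1 : P' (r s) = true
        · rw [List.filter_cons_of_pos q1]
          by_cases q2 : Q' (r s) = true
          · exact absurd ⟨q1, q2⟩ hb
          · rw [List.filter_cons_of_neg q2]
        · rw [List.filter_cons_of_neg q1]
      rw [l1, l2, ih']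

private theorem in4_pair {k : ℕ} (F : Fin k → Bool) (hn : NT (eF F)) :
    (∃ a a', a ≠ a' ∧ F a = true ∧ F a' = true) ∧ ∃ b b', b ≠ b' ∧ F b = false ∧ F b' = false := by
  obtain ⟨a, b, c, d, h1, h2, h3, h4, h5⟩ := hn
  change (F a == F b) = true at h3
  change (F c == F d) = true at h4
  change (F a == F c) = false at h5
  revert h3 h4 h5
  cases ha : F a <;> cases hb : F b <;> cases hc : F c <;> cases hd : F d <;> intro h3 h4 h5 <;>
    first
      | exact absurd h3 (by decide)
      | exact absurd h4 (by decide)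
      | exact absurd h5 (by decide)
      | exact ⟨⟨a, b, h1, ha, hb⟩, c, d, h2, hc, hd⟩
      | exact ⟨⟨c, d, h2, hc, hd⟩, a, b, h1, ha, hb⟩

theorem ins_pull {k m : ℕ} (ι : Fin k ↪ Fin m) (τ : RTree m) (f : Fin m → Bool)
    (h : TopSide τ f) (hn : NT (eF fun i => f (ι i))) :
    (τ.ins f h).pull (consE ι) = (τ.pull ι).ins (fun i => f (ι i)) (topSide_pull ι τ f h hn) := by
  obtain ⟨⟨a, a', haa, ha, ha'⟩, b, b', hbb, hb, hb'⟩ := in4_pair (fun i => f (ι i)) hn
  rw [ins_eq τ f h (ι a) (ι b) ha hb, ins_eq (τ.pull ι) (fun i => f (ι i)) _ a b ha hb]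
  obtain ⟨l₀, hl⟩ := id h
  have hdrop : τ.l.dropLast = l₀ := by rw [hl, List.dropLast_concat]
  have hdrop' : (τ.pull ι).l.dropLast = (((l₀.map (resS ι)).filter fun s => decide (NT s)).filter
      fun y => decide (y ≠ eF fun i => f (ι i))).dedup := by
    rw [in4_pull_l ι τ f l₀ hl hn, List.dropLast_concat]
  apply RTree.ext
  · funext p q r
    change oI τ f (ι a) (ι b) (consE ι p) (consE ι q) (consE ι r)
      = oI (τ.pull ι) (fun i => f (ι i)) a b p q r
    refine Fin.cases ?_ (fun p' => ?_) p
    · refine Fin.cases ?_ (fun q' => ?_) q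
      · rfl
      · refine Fin.cases ?_ (fun r' => ?_) r
        · rfl
        · rfl
    · refine Fin.cases ?_ (fun q' => ?_) q
      · refine Fin.cases ?_ (fun r' => ?_) r
        · rfl
        · rfl
      · refine Fin.cases ?_ (fun r' => ?_) r
        · rfl
        · rfl
  · change (((lI τ f (ι a) (ι b)).map (resS (consE ι))).filter fun s => decide (NT s)).dedup
      = lI (τ.pull ι) (fun i => f (ι i)) a b
    unfold lI
    rw [hdrop, hdrop', List.map_append, List.filter_append, List.map_map]
    have e2 : (([extS (ι b) (eF f), extS (ι a) (eF f)].map (resS (consE ι))).filter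
        fun s => decide (NT s)) = [extS b (eF fun i => f (ι i)), extS a (eF fun i => f (ι i))] := by
      rw [List.map_cons, List.map_cons, List.map_nil, in4_res_ext, in4_res_ext]
      rw [List.filter_cons_of_pos, List.filter_cons_of_pos]
      · rfl
      · exact decide_eq_true (in4_nt_ext a _ hn)
      · exact decide_eq_true (in4_nt_ext b _ hn)
    have hxy : extS b (eF fun i => f (ι i)) ≠ extS a (eF fun i => f (ι i)) := by
      intro e
      have := congrFun (congrFun e 0) a.succ
      change (f (ι b) == f (ι a)) = (f (ι a) == f (ι a)) at this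
      rw [ha, hb] at this
      simp at this
    rw [e2]
    rw [show ([extS b (eF fun i => f (ι i)), extS a (eF fun i => f (ι i))] : List (Split (k + 1)))
      = [extS b (eF fun i => f (ι i))] ++ [extS a (eF fun i => f (ι i))] from rfl,
      ← List.append_assoc, in4_dedup_concat, List.filter_append]
    rw [List.filter_cons_of_pos (a := extS b (eF fun i => f (ι i))) (by simpa using hxy),
      List.filter_nil, in4_dedup_concat, ← List.append_assoc]
    congr 2
    rw [← List.dedup_map_of_injective (in4_extI_inj (fun i => f (ι i)) a b)]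
    congr 1
    have hmem : ∀ s ∈ l₀, s ∈ τ.l ∧ s ≠ eF f := by
      intro s hs
      refine ⟨by rw [hl]; exact List.mem_append_left _ hs, fun e => ?_⟩
      have hnd := τ.nodup
      rw [hl, List.nodup_append] at hnd
      exact hnd.2.2 s hs (eF f) (by simp) e
    apply in4_list
    · intro s hs
      obtain ⟨hsl, hsne⟩ := hmem s hs
      have hsplit : ∃ f' : Fin k → Bool, ∀ p q, resS ι s p q = (f' p == f' q) := by
        obtain ⟨f', hf'⟩ := τ.split s hsl
        exact ⟨fun p => f' (ι p), fun p q => hf' _ _⟩
      simp only [Function.comp_apply, decide_eq_true_eq]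
      rcases const_side τ f h s hsl hsne with ⟨hA, hB⟩ | ⟨hB, hA⟩
      · have eg : extI f (ι a) (ι b) s = extS (ι a) s := if_neg hB
        rw [eg, in4_res_ext]
        constructor
        · rintro ⟨n1, n2, n3⟩
          refine ⟨in4_nt_of_ext a a' _ hsplit haa (hA _ _ ha ha') n1, fun e => n2 ?_⟩
          rw [e]
        · rintro ⟨n1, n2⟩
          exact ⟨in4_nt_ext a _ n1, fun e => n2 (in4_ext_inj e), fun e => n2 (in4_ext_inj e)⟩
      · have eg : extI f (ι a) (ι b) s = extS (ι b) s := if_pos hB
        rw [eg, in4_res_ext]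
        constructor
        · rintro ⟨n1, n2, n3⟩
          refine ⟨in4_nt_of_ext b b' _ hsplit hbb (hB _ _ hb hb') n1, fun e => n3 ?_⟩
          rw [e]
        · rintro ⟨n1, n2⟩
          exact ⟨in4_nt_ext b _ n1, fun e => n2 (in4_ext_inj e), fun e => n2 (in4_ext_inj e)⟩
    · intro s hs n1 n2
      obtain ⟨hsl, hsne⟩ := hmem s hs
      have hsplit : ∃ f' : Fin k → Bool, ∀ p q, resS ι s p q = (f' p == f' q) := by
        obtain ⟨f', hf'⟩ := τ.split s hsl
        exact ⟨fun p => f' (ι p), fun p q => hf' _ _⟩
      simp only [decide_eq_true_eq] at n1 n2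
      simp only [Function.comp_apply]
      rcases const_side τ f h s hsl hsne with ⟨hA, hB⟩ | ⟨hB, hA⟩
      · have eg : extI f (ι a) (ι b) s = extS (ι a) s := if_neg hB
        rw [eg, in4_res_ext]
        symm
        apply if_neg
        intro hB'
        apply n2
        refine in4_const_both (fun i => f (ι i)) _ hsplit n1 fun p q hpq => ?_
        cases hq : f (ι q) with
        | true => exact hA _ _ (hpq.trans hq) hq
        | false => exact hB' _ _ (hpq.trans hq) hq
      · have eg : extI f (ι a) (ι b) s = extS (ι b) s := if_pos hB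
        rw [eg, in4_res_ext]
        symm
        apply if_pos
        intro p q hp hq
        exact hB _ _ hp hq

end SimplVol

end S_IN4

section S_HC

/-!
# Module HC: the contraction on alternating functions of trees

`hT g τ = ½ ∑ g (τ.ins f)` over the two `f` with `TopSide τ f` (for at least `4` leaves).
* `hT_eq`: for `m ≥ 4` and `TopSide τ f`: the sum over all `f'` has exactly the two nonzero terms `f` and `!f` (`topSide_iff`; `f ≠ !f` at a leaf;
  `Finset.sum_eq_add` or `Finset.sum_pair` after `Finset.sum_subset`).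
* `hT_alt`: for `m ≥ 4`, `σ : Perm (Fin m)`, `ι = σ.toEmbedding`: `TopSide (τ.pull ι) (f ∘ σ)` (`topSide_pull`; `eF (f ∘ σ)` is `NT` because `eF f ∈ τ.l` is) and
  `(τ.pull ι).ins (f ∘ σ) = (τ.ins f).pull (consE ι)` (`ins_pull`), `consE ι` is the embedding of the permutation of `exists_perm_ext`, of the same sign;
  the same for `!f` (`(!f) ∘ σ = !(f ∘ σ)`); use `hT_eq` for both sides.
-/

set_option autoImplicit false

open scoped BigOperators Nat

namespace SimplVol

open Classical in
/-- The contraction. -/
noncomputable def hT (g : ∀ m, RTree m → ℝ) (m : ℕ) (τ : RTree m) : ℝ :=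
  if 4 ≤ m then (1 / 2) * ∑ f : Fin m → Bool, (if h : TopSide τ f then g (m + 1) (τ.ins f h) else 0)
  else 0

theorem hT_of_lt (g : ∀ m, RTree m → ℝ) {m : ℕ} (hm : m < 4) (τ : RTree m) : hT g m τ = 0 := by
  unfold hT
  rw [if_neg (by omega)]

theorem hT_eq (g : ∀ m, RTree m → ℝ) {m : ℕ} (hm : 4 ≤ m) (τ : RTree m) (f : Fin m → Bool)
    (h : TopSide τ f) (h' : TopSide τ fun a => !(f a)) :
    hT g m τ = (1 / 2) * (g (m + 1) (τ.ins f h) + g (m + 1) (τ.ins (fun a => !(f a)) h')) := by
  classical
  unfold hT
  rw [if_pos hm]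
  congr 1
  have hne : f ≠ fun a => !(f a) := by
    intro h1
    have h2 := congrFun h1 ⟨0, by omega⟩
    revert h2
    generalize f ⟨0, by omega⟩ = x
    cases x <;> decide
  rw [Finset.sum_eq_add f (fun a => !(f a)) hne]
  · rw [dif_pos h, dif_pos h']
  · intro c _ hc
    rw [dif_neg]
    intro h1
    rcases (topSide_iff τ f h c).1 h1 with h2 | h2
    · exact hc.1 h2
    · exact hc.2 h2
  · intro h1
    exact absurd (Finset.mem_univ _) h1
  · intro h1
    exact absurd (Finset.mem_univ _) h1

theorem hT_add (g g' : ∀ m, RTree m → ℝ) (m : ℕ) (τ : RTree m) :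
    hT (fun m τ => g m τ + g' m τ) m τ = hT g m τ + hT g' m τ := by
  unfold hT
  by_cases hm : 4 ≤ m
  · rw [if_pos hm, if_pos hm, if_pos hm, ← mul_add, ← Finset.sum_add_distrib]
    congr 1
    refine Finset.sum_congr rfl fun f _ => ?_
    by_cases h : TopSide τ f
    · rw [dif_pos h, dif_pos h, dif_pos h]
    · rw [dif_neg h, dif_neg h, dif_neg h, add_zero]
  · rw [if_neg hm, if_neg hm, if_neg hm, add_zero]

theorem hT_smul (c : ℝ) (g : ∀ m, RTree m → ℝ) (m : ℕ) (τ : RTree m) :
    hT (fun m τ => c * g m τ) m τ = c * hT g m τ := by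
  unfold hT
  by_cases hm : 4 ≤ m
  · rw [if_pos hm, if_pos hm, mul_left_comm, Finset.mul_sum Finset.univ _ c]
    congr 1
    refine Finset.sum_congr rfl fun f _ => ?_
    by_cases h : TopSide τ f
    · rw [dif_pos h, dif_pos h]
    · rw [dif_neg h, dif_neg h, mul_zero]
  · rw [if_neg hm, if_neg hm, mul_zero]

theorem abs_hT_le (g : ∀ m, RTree m → ℝ) (C : ℝ) (m : ℕ) (τ : RTree m)
    (h : ∀ τ' : RTree (m + 1), |g (m + 1) τ'| ≤ C) (hC : 0 ≤ C) : |hT g m τ| ≤ C := by
  by_cases hm : 4 ≤ m
  · obtain ⟨f, hf⟩ := exists_topSide hm τ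
    have hf' : TopSide τ fun a => !(f a) := (topSide_iff τ f hf _).2 (Or.inr rfl)
    rw [hT_eq g hm τ f hf hf']
    have h1 := h (τ.ins f hf)
    have h2 := h (τ.ins (fun a => !(f a)) hf')
    rw [abs_le] at h1 h2 ⊢
    constructor <;> linarith [h1.1, h1.2, h2.1, h2.2]
  · rw [hT_of_lt g (by omega), abs_zero]
    exact hC

theorem hT_nt_perm {m : ℕ} (σ : Equiv.Perm (Fin m)) (f : Fin m → Bool) (h : NT (eF f)) :
    NT (eF fun i => f (σ.toEmbedding i)) := by
  obtain ⟨a, b, c, d, hab, hcd, h1, h2, h3⟩ := h
  refine ⟨σ.symm a, σ.symm b, σ.symm c, σ.symm d, fun h => hab (σ.symm.injective h),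
    fun h => hcd (σ.symm.injective h), ?_, ?_, ?_⟩
  · simpa [eF] using h1
  · simpa [eF] using h2
  · simpa [eF] using h3

theorem hT_alt (g : ∀ m, RTree m → ℝ) (hg : AltT g) : AltT (hT g) := by
  intro m σ τ
  by_cases hm : 4 ≤ m
  · obtain ⟨f, hf⟩ := exists_topSide hm τ
    have hf' : TopSide τ fun a => !(f a) := (topSide_iff τ f hf _).2 (Or.inr rfl)
    have hn : NT (eF fun i => f (σ.toEmbedding i)) := by
      apply hT_nt_perm
      obtain ⟨l₀, hl⟩ := hf
      exact τ.nt _ (by rw [hl]; simp)
    have hn' : NT (eF fun i => (fun a => !(f a)) (σ.toEmbedding i)) := by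
      apply hT_nt_perm σ (fun a => !(f a))
      obtain ⟨l₀, hl⟩ := hf'
      exact τ.nt _ (by rw [hl]; simp)
    obtain ⟨σ', h0, hs, hsign⟩ := exists_perm_ext σ
    have hE : consE σ.toEmbedding = σ'.toEmbedding := by
      refine Function.Embedding.ext fun i => ?_
      refine Fin.cases ?_ (fun i => ?_) i
      · rw [consE_zero]
        exact h0.symm
      · rw [consE_succ]
        exact (hs i).symm
    have e1 := ins_pull σ.toEmbedding τ f hf hn
    have e2 := ins_pull σ.toEmbedding τ (fun a => !(f a)) hf' hn'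
    rw [hE] at e1 e2
    rw [hT_eq g hm (τ.pull σ.toEmbedding) (fun i => f (σ.toEmbedding i))
      (topSide_pull _ τ f hf hn) (topSide_pull _ τ _ hf' hn'), hT_eq g hm τ f hf hf']
    have e3 : g (m + 1) ((τ.pull σ.toEmbedding).ins (fun i => f (σ.toEmbedding i))
        (topSide_pull _ τ f hf hn)) = ((Equiv.Perm.sign σ : ℤ) : ℝ) * g (m + 1) (τ.ins f hf) := by
      rw [← e1, hg, hsign]
    have e4 : g (m + 1) ((τ.pull σ.toEmbedding).ins (fun i => !(f (σ.toEmbedding i)))
        (topSide_pull _ τ _ hf' hn')) =
        ((Equiv.Perm.sign σ : ℤ) : ℝ) * g (m + 1) (τ.ins (fun a => !(f a)) hf') := by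
      rw [← e2, hg, hsign]
    rw [e3, e4]
    ring
  · rw [hT_of_lt g (by omega), hT_of_lt g (by omega), mul_zero]

end SimplVol

end S_HC

section S_HD

/-!
# Module HD: the contraction identity

* `contraction`: let `τ : RTree (m+1)`, `m ≥ 3`, `f` with `TopSide τ f`, `f' = !f`. Both `f₁ ∈ {f, f'}`:
  `dT g (τ.ins f₁) = g τ - ∑_c (-1)^c g ((τ.ins f₁).pull δ_{c+1})` (`dT_succ`, `Fin.sum_univ_succ`, `ins_face_zero`; `(-1)^(c+1) = -(-1)^c`). Put
  `P c f₁ = g ((τ.ins f₁).pull δ_{c.succ})`, `Q c = hT g m (τ.pull δ_c)`. To show: `∑_c (-1)^c (Q c - ½ (P c f + P c f')) = 0`. Call `c` good if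
  `NT (eF (f ∘ δ_c))`. For good `c` the term is `0`: then `4 ≤ m` (four different leaves), `hT_eq` for `τ.pull δ_c` and `f ∘ δ_c`
  (`topSide_pull`), `ins_pull`, `consE_succAbove`. If `c` is not good, then the side of `c` has exactly two elements, `{c, c'}`: both sides have
  at least two elements (`NT (eF f)`); if the side of `c` had three elements `c, x, y` and the other side contains `z ≠ w`, then `x, y, z, w` show that `c` is good.
  Then `c'` is not good either, and `Twin τ c c'`: every `s ∈ τ.l` has `s c c'` (`s = eF f` or `const_side`: if `s` is constant on the side of `c` fine; if `s` is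
  constant on the other side `O` and `¬ s c c'`: `s` has two classes, `O` is in the class of `c` or of `c'`, the other class has one element, against
  `τ.nt`), and `τ.o c x y = τ.o c' x y` for `x, y ≠ c, c'` (`x, y ∈ O`: `o_side`). In the same way `Twin (τ.ins f₁) c.succ c'.succ`: the divisions `extS x s` do not separate;
  the orientation: `x, y` may be the new leaf `0`: then `oI c.succ 0 y'.succ = - gI c y'` with `y' ∈ O` is `±1` depending only on the sides; `oI c.succ x' y'` is `τ.o`.
  (`ins_eq`, unfold.) By `twin_cancel` for `g` and `τ.ins f₁`: `(-1)^(c+1) P c f₁ + (-1)^(c'+1) P c' f₁ = 0`, and by `twin_cancel` for `hT g` (`hT_alt`) and `τ`: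
  `(-1)^c Q c + (-1)^c' Q c' = 0`. So the terms of `c` and `c'` cancel: `Finset.sum_involution`-like; simplest: let `t c` be the term; for
  bad `c` define `p c` = the other element of its side, an involution on the bad `c` with `t c + t (p c) = 0`, `p c ≠ c` (`Finset.sum_involution` on `univ.filter bad`).
-/

set_option autoImplicit false

open scoped BigOperators Nat

namespace SimplVol

/-- the two leaves of a side of two elements are twins -/
theorem HD_twin {m : ℕ} (τ : RTree m) (f : Fin m → Bool) (h : TopSide τ f) (c c' : Fin m)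
    (hne : c ≠ c') (hside : ∀ x, f x = f c ↔ x = c ∨ x = c') : Twin τ c c' := by
  have hcc : f c' = f c := (hside c').mpr (Or.inr rfl)
  refine ⟨hne, ?_, ?_⟩
  · intro s hs
    by_cases hse : s = eF f
    · rw [hse]
      simp [eF, hcc]
    · by_contra hfalse
      obtain ⟨f'', hf''⟩ := τ.split s hs
      have hval : f'' c ≠ f'' c' := by
        intro he
        apply hfalse
        rw [hf'', he]
        simp
      -- constant on the other side
      have hother : ∀ x y, f x ≠ f c → f y ≠ f c → f'' x = f'' y := by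
        intro x y hx hy
        rcases const_side τ f h s hs hse with ⟨hA, -⟩ | ⟨hB, -⟩
        · -- constant on `A`
          cases hfc : f c with
          | true =>
            exfalso
            apply hfalse
            exact hA c c' hfc (by rw [hcc, hfc])
          | false =>
            rw [hfc] at hx hy
            have hx' : f x = true := by simpa using hx
            have hy' : f y = true := by simpa using hy
            have := hA x y hx' hy'
            rw [hf''] at this
            exact eq_of_beq this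
        · cases hfc : f c with
          | false =>
            exfalso
            apply hfalse
            exact hB c c' hfc (by rw [hcc, hfc])
          | true =>
            rw [hfc] at hx hy
            have hx' : f x = false := by simpa using hx
            have hy' : f y = false := by simpa using hy
            have := hB x y hx' hy'
            rw [hf''] at this
            exact eq_of_beq this
      -- a class with one element
      obtain ⟨a, b, a', b', hab, hab', h1, h2, h3⟩ := τ.nt s hs
      rw [hf''] at h1 h2 h3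
      have e1 : f'' a = f'' b := eq_of_beq h1
      have e2 : f'' a' = f'' b' := eq_of_beq h2
      have e3 : f'' a ≠ f'' a' := by
        intro he
        rw [he] at h3
        simp at h3
      -- two different elements with the value of c, or with the value of c'
      have hpair : ∀ u w : Fin m, u ≠ w → f'' u = f'' w → (f u ≠ f c ∨ f w ≠ f c) := by
        intro u w huw he
        by_contra hc
        push Not at hc
        rcases (hside u).mp hc.1 with hu | hu <;> rcases (hside w).mp hc.2 with hw | hw
        · exact huw (hu.trans hw.symm)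
        · rw [hu, hw] at he
          exact hval he
        · rw [hu, hw] at he
          exact hval he.symm
        · exact huw (hu.trans hw.symm)
      -- the pair `a, b` contains `x ∈ O`, the pair `a', b'` contains `y ∈ O`
      obtain ⟨x, hx, hxv⟩ : ∃ x, f x ≠ f c ∧ f'' x = f'' a := by
        rcases hpair a b hab e1 with hu | hu
        · exact ⟨a, hu, rfl⟩
        · exact ⟨b, hu, e1.symm⟩
      obtain ⟨y, hy, hyv⟩ : ∃ y, f y ≠ f c ∧ f'' y = f'' a' := by
        rcases hpair a' b' hab' e2 with hu | hu
        · exact ⟨a', hu, rfl⟩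
        · exact ⟨b', hu, e2.symm⟩
      exact e3 (by rw [← hxv, ← hyv, hother x y hx hy])
  · intro x y hxc hxc' hyc hyc'
    have hx : f x ≠ f c := fun he => by
      rcases (hside x).mp he with he | he
      · exact hxc he
      · exact hxc' he
    have hy : f y ≠ f c := fun he => by
      rcases (hside y).mp he with he | he
      · exact hyc he
      · exact hyc' he
    apply o_side τ f h c c' x y hcc.symm _ (Ne.symm hx)
    cases hfx : f x <;> cases hfy : f y <;> cases hfc : f c <;> simp_all

/-- the same for the tree with the new leaf -/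
theorem HD_twin_ins {m : ℕ} (τ : RTree m) (f : Fin m → Bool) (h : TopSide τ f) (c c' : Fin m)
    (hne : c ≠ c') (hside : ∀ x, f x = f c ↔ x = c ∨ x = c') :
    Twin (τ.ins f h) c.succ c'.succ := by
  obtain ⟨-, hT2, hT3⟩ := HD_twin τ f h c c' hne hside
  have hcc : f c' = f c := (hside c').mpr (Or.inr rfl)
  obtain ⟨p, hp⟩ : ∃ p : Fin m × Fin m, f p.1 = true ∧ f p.2 = false := exists_side τ f h
  rw [ins_eq τ f h p.1 p.2 hp.1 hp.2]
  refine ⟨fun he => hne (Fin.succ_injective _ he), ?_, ?_⟩
  · intro s hs
    rcases (mem_lI τ f h p.1 p.2 hp.1 hp.2 s).mp hs with ⟨t, ht, -, rfl⟩ | ⟨t, ht, -, rfl⟩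
    · exact hT2 t ht
    · exact hT2 t ht
  · have hg : ∀ y', y' ≠ c → y' ≠ c' → gI τ f p.1 p.2 c y' = gI τ f p.1 p.2 c' y' := by
      intro y' h1 h2
      have hy : f y' ≠ f c := fun he => by
        rcases (hside y').mp he with he | he
        · exact h1 he
        · exact h2 he
      unfold gI
      have hy2 : ¬ (f c' = f y') := by
        rw [hcc]
        exact Ne.symm hy
      have hy1 : ¬ (f c = f y') := Ne.symm hy
      rw [if_neg hy1, if_neg hy2]
    intro x y
    change x ≠ c.succ → x ≠ c'.succ → y ≠ c.succ → y ≠ c'.succ →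
      oI τ f p.1 p.2 c.succ x y = oI τ f p.1 p.2 c'.succ x y
    refine Fin.cases ?_ (fun x' => ?_) x
    · refine Fin.cases ?_ (fun y' => ?_) y
      · intro _ _ _ _
        rfl
      · intro _ _ h3 h4
        change - gI τ f p.1 p.2 c y' = - gI τ f p.1 p.2 c' y'
        rw [hg y' (fun he => h3 (by rw [he])) (fun he => h4 (by rw [he]))]
    · refine Fin.cases ?_ (fun y' => ?_) y
      · intro h1 h2 _ _
        change gI τ f p.1 p.2 c x' = gI τ f p.1 p.2 c' x'
        rw [hg x' (fun he => h1 (by rw [he])) (fun he => h2 (by rw [he]))]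
      · intro h1 h2 h3 h4
        change τ.o c x' y' = τ.o c' x' y'
        exact hT3 x' y' (fun he => h1 (by rw [he])) (fun he => h2 (by rw [he]))
          (fun he => h3 (by rw [he])) (fun he => h4 (by rw [he]))

/-- a bad leaf is in a side of two elements -/
theorem HD_bad {m : ℕ} (τ : RTree (m + 1)) (f : Fin (m + 1) → Bool) (h : TopSide τ f)
    (c : Fin (m + 1)) (hbad : ¬ NT (eF fun i => f (Fin.succAboveEmb c i))) :
    ∃ c', c ≠ c' ∧ ∀ x, f x = f c ↔ x = c ∨ x = c' := by
  have hmem : eF f ∈ τ.l := by
    obtain ⟨l₀, hl⟩ := h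
    rw [hl]
    simp
  obtain ⟨a, b, a', b', hab, hab', h1, h2, h3⟩ := τ.nt _ hmem
  simp only [eF] at h1 h2 h3
  have e1 : f a = f b := eq_of_beq h1
  have e2 : f a' = f b' := eq_of_beq h2
  have e3 : f a ≠ f a' := by
    intro he
    rw [he] at h3
    simp at h3
  -- two elements in the side of `c`, two in the other side
  obtain ⟨u, w, z, y, huw, hzy, hu, hw, hz, hy⟩ : ∃ u w z y, u ≠ w ∧ z ≠ y ∧ f u = f c ∧
      f w = f c ∧ f z ≠ f c ∧ f y ≠ f c := by
    by_cases hc : f a = f c
    · exact ⟨a, b, a', b', hab, hab', hc, by rw [← e1, hc], by rw [← hc]; exact Ne.symm e3,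
        by rw [← e2, ← hc]; exact Ne.symm e3⟩
    · have hc' : f a' = f c := by
        cases hfa : f a <;> cases hfa' : f a' <;> cases hfc : f c <;> simp_all
      exact ⟨a', b', a, b, hab', hab, hc', by rw [← e2, hc'], hc, by rw [← e1]; exact hc⟩
  obtain ⟨c', hcc', hfc'⟩ : ∃ c', c ≠ c' ∧ f c' = f c := by
    by_cases hcu : c = u
    · exact ⟨w, by rw [hcu]; exact huw, hw⟩
    · exact ⟨u, hcu, hu⟩
  refine ⟨c', hcc', fun x => ⟨fun hx => ?_, ?_⟩⟩
  · by_contra hcon
    push Not at hcon
    apply hbad
    obtain ⟨i1, hi1⟩ := Fin.exists_succAbove_eq (Ne.symm hcc')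
    obtain ⟨i2, hi2⟩ := Fin.exists_succAbove_eq hcon.1
    obtain ⟨i3, hi3⟩ := Fin.exists_succAbove_eq (show z ≠ c by rintro rfl; exact hz rfl)
    obtain ⟨i4, hi4⟩ := Fin.exists_succAbove_eq (show y ≠ c by rintro rfl; exact hy rfl)
    refine ⟨i1, i2, i3, i4, ?_, ?_, ?_, ?_, ?_⟩
    · rintro rfl
      exact hcon.2 (hi2.symm.trans hi1)
    · rintro rfl
      exact hzy (hi3.symm.trans hi4)
    · simp only [eF, Fin.succAboveEmb_apply, hi1, hi2, hfc', hx]
      simp
    · have hzy' : f z = f y := by
        cases hfz : f z <;> cases hfy : f y <;> cases hfc : f c <;> simp_all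
      simp only [eF, Fin.succAboveEmb_apply, hi3, hi4, hzy']
      simp
    · simp only [eF, Fin.succAboveEmb_apply, hi1, hi3, hfc']
      simpa using Ne.symm hz
  · rintro (rfl | rfl)
    · rfl
    · exact hfc'

theorem HD_bad' {m : ℕ} (f : Fin (m + 1) → Bool) (c c' : Fin (m + 1))
    (hside : ∀ x, f x = f c ↔ x = c ∨ x = c') :
    ¬ NT (eF fun i => f (Fin.succAboveEmb c' i)) := by
  rintro ⟨a, b, a', b', hab, hab', h1, h2, h3⟩
  simp only [eF, Fin.succAboveEmb_apply] at h1 h2 h3
  have e1 : f (c'.succAbove a) = f (c'.succAbove b) := eq_of_beq h1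
  have e2 : f (c'.succAbove a') = f (c'.succAbove b') := eq_of_beq h2
  have e3 : f (c'.succAbove a) ≠ f (c'.succAbove a') := by
    intro he
    rw [he] at h3
    simp at h3
  have key : ∀ u w, u ≠ w → f (c'.succAbove u) = f (c'.succAbove w) →
      f (c'.succAbove u) ≠ f c := by
    intro u w huw he hc
    rcases (hside _).mp hc with hu | hu
    · rw [he] at hc
      rcases (hside _).mp hc with hw | hw
      · exact huw (Fin.succAbove_right_injective (hu.trans hw.symm))
      · exact Fin.succAbove_ne _ _ hw
    · exact Fin.succAbove_ne _ _ hu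
  have k1 := key a b hab e1
  have k2 := key a' b' hab' e2
  cases hfa : f (c'.succAbove a) <;> cases hfa' : f (c'.succAbove a') <;> cases hfc : f c <;>
    simp_all

theorem HD_four {k : ℕ} (s : Split k) (f : Fin k → Bool) (hs : s = eF f) (h : NT s) : 4 ≤ k := by
  obtain ⟨a, b, a', b', hab, hab', h1, h2, h3⟩ := h
  rw [hs] at h1 h2 h3
  simp only [eF] at h1 h2 h3
  have e1 : f a = f b := eq_of_beq h1
  have e2 : f a' = f b' := eq_of_beq h2
  have e3 : f a ≠ f a' := by
    intro he
    rw [he] at h3
    simp at h3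
  have n1 : a ≠ a' := fun h => e3 (by rw [h])
  have n2 : a ≠ b' := fun h => e3 (by rw [h, e2])
  have n3 : b ≠ a' := fun h => e3 (by rw [e1, h])
  have n4 : b ≠ b' := fun h => e3 (by rw [e1, h, e2])
  have hcard : ({a, b, a', b'} : Finset (Fin k)).card = 4 := by
    rw [Finset.card_insert_of_notMem (by simp [hab, n1, n2]),
      Finset.card_insert_of_notMem (by simp [n3, n4]),
      Finset.card_insert_of_notMem (by simp [hab']), Finset.card_singleton]
  have := Finset.card_le_univ ({a, b, a', b'} : Finset (Fin k))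
  rw [hcard, Fintype.card_fin] at this
  exact this

theorem contraction (g : ∀ m, RTree m → ℝ) (hg : AltT g) (m : ℕ) (hm : 4 ≤ m) (τ : RTree m) :
    hT (dT g) m τ + dT (hT g) m τ = g m τ := by
  classical
  obtain ⟨M, rfl⟩ : ∃ M, m = M + 1 := ⟨m - 1, by omega⟩
  obtain ⟨f, h⟩ := exists_topSide hm τ
  have h' : TopSide τ (fun a => !(f a)) := (topSide_iff τ f h _).mpr (Or.inr rfl)
  -- expansion of the first term
  have hexp : ∀ (f₁ : Fin (M + 1) → Bool) (h₁ : TopSide τ f₁),
      dT g (M + 1 + 1) (τ.ins f₁ h₁) = g (M + 1) τ - ∑ c : Fin (M + 1), (-1 : ℝ) ^ (c : ℕ) *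
        g (M + 1) ((τ.ins f₁ h₁).pull (Fin.succAboveEmb c.succ)) := by
    intro f₁ h₁
    rw [dT_succ, Fin.sum_univ_succ, ins_face_zero, sub_eq_add_neg, ← Finset.sum_neg_distrib]
    congr 1
    · simp
    · apply Finset.sum_congr rfl
      intro c _
      rw [Fin.val_succ, pow_succ]
      ring
  rw [hT_eq (dT g) hm τ f h h', hexp f h, hexp _ h', dT_succ]
  have key : ∑ c : Fin (M + 1), ((-1 : ℝ) ^ (c : ℕ) *
      (hT g M (τ.pull (Fin.succAboveEmb c)) -
        (1 / 2) * (g (M + 1) ((τ.ins f h).pull (Fin.succAboveEmb c.succ)) +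
          g (M + 1) ((τ.ins _ h').pull (Fin.succAboveEmb c.succ))))) = 0 := by
    -- good leaves
    have hgood : ∀ c : Fin (M + 1), NT (eF fun i => f (Fin.succAboveEmb c i)) →
        hT g M (τ.pull (Fin.succAboveEmb c)) -
        (1 / 2) * (g (M + 1) ((τ.ins f h).pull (Fin.succAboveEmb c.succ)) +
          g (M + 1) ((τ.ins _ h').pull (Fin.succAboveEmb c.succ))) = 0 := by
      intro c hc
      have hM4 : 4 ≤ M := HD_four _ _ rfl hc
      have heq : (eF fun i => !(f (Fin.succAboveEmb c i))) =
          eF fun i => f (Fin.succAboveEmb c i) := by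
        funext a b
        simp [eF]
      have hc' : NT (eF fun i => !(f (Fin.succAboveEmb c i))) := by rw [heq]; exact hc
      have t1 := topSide_pull (Fin.succAboveEmb c) τ f h hc
      have t2 := topSide_pull (Fin.succAboveEmb c) τ (fun a => !(f a)) h' hc'
      rw [hT_eq g hM4 (τ.pull (Fin.succAboveEmb c)) _ t1 t2]
      have p1 := ins_pull (Fin.succAboveEmb c) τ f h hc
      have p2 := ins_pull (Fin.succAboveEmb c) τ (fun a => !(f a)) h' hc'
      rw [consE_succAbove] at p1 p2
      rw [p1, p2, sub_self]
    -- bad leaves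
    have hbad : ∀ c c' : Fin (M + 1), c ≠ c' → (∀ x, f x = f c ↔ x = c ∨ x = c') →
        (-1 : ℝ) ^ (c : ℕ) * (hT g M (τ.pull (Fin.succAboveEmb c)) -
        (1 / 2) * (g (M + 1) ((τ.ins f h).pull (Fin.succAboveEmb c.succ)) +
          g (M + 1) ((τ.ins _ h').pull (Fin.succAboveEmb c.succ)))) +
        (-1 : ℝ) ^ (c' : ℕ) * (hT g M (τ.pull (Fin.succAboveEmb c')) -
        (1 / 2) * (g (M + 1) ((τ.ins f h).pull (Fin.succAboveEmb c'.succ)) +
          g (M + 1) ((τ.ins _ h').pull (Fin.succAboveEmb c'.succ)))) = 0 := by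
      intro c c' hne hside
      have hside' : ∀ x, (!(f x)) = (!(f c)) ↔ x = c ∨ x = c' := by
        intro x
        rw [← hside x]
        constructor
        · intro he
          cases hfx : f x <;> cases hfc : f c <;> simp_all
        · intro he
          rw [he]
      have q1 := twin_cancel (hT g) (hT_alt g hg) τ c c' (HD_twin τ f h c c' hne hside)
      have q2 := twin_cancel g hg (τ.ins f h) c.succ c'.succ
        (HD_twin_ins τ f h c c' hne hside)
      have q3 := twin_cancel g hg (τ.ins _ h') c.succ c'.succ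
        (HD_twin_ins τ _ h' c c' hne hside')
      rw [Fin.val_succ, Fin.val_succ, pow_succ, pow_succ] at q2 q3
      linear_combination q1 + (1 / 2) * q2 + (1 / 2) * q3
    -- the involution
    let P : Fin (M + 1) → Fin (M + 1) := fun c =>
      if hc : NT (eF fun i => f (Fin.succAboveEmb c i)) then c
      else (HD_bad τ f h c hc).choose
    have hPspec : ∀ c, ¬ NT (eF fun i => f (Fin.succAboveEmb c i)) →
        c ≠ P c ∧ ∀ x, f x = f c ↔ x = c ∨ x = P c := by
      intro c hc
      have e : P c = (HD_bad τ f h c hc).choose := dif_neg hc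
      rw [e]
      exact (HD_bad τ f h c hc).choose_spec
    have hPgood : ∀ c, NT (eF fun i => f (Fin.succAboveEmb c i)) → P c = c :=
      fun c hc => dif_pos hc
    refine Finset.sum_involution (fun c _ => P c) ?_ ?_ (fun c _ => Finset.mem_univ _) ?_
    · intro c _
      by_cases hc : NT (eF fun i => f (Fin.succAboveEmb c i))
      · rw [hPgood c hc, hgood c hc, mul_zero, add_zero]
      · obtain ⟨h1, h2⟩ := hPspec c hc
        exact hbad c (P c) h1 h2
    · intro c _ hne
      by_cases hc : NT (eF fun i => f (Fin.succAboveEmb c i))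
      · exact absurd (by rw [hgood c hc, mul_zero]) hne
      · exact (hPspec c hc).1.symm
    · intro c _
      by_cases hc : NT (eF fun i => f (Fin.succAboveEmb c i))
      · simp only [hPgood c hc]
      · obtain ⟨h1, h2⟩ := hPspec c hc
        have hc' : ¬ NT (eF fun i => f (Fin.succAboveEmb (P c) i)) := HD_bad' f c (P c) h2
        obtain ⟨h3, h4⟩ := hPspec (P c) hc'
        have hPc : f (P c) = f c := (h2 (P c)).mpr (Or.inr rfl)
        rcases (h4 c).mp hPc.symm with h5 | h5
        · exact absurd h5 h1
        · exact h5.symm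
  have hsplit : ∑ c : Fin (M + 1), ((-1 : ℝ) ^ (c : ℕ) *
      (hT g M (τ.pull (Fin.succAboveEmb c)) -
        (1 / 2) * (g (M + 1) ((τ.ins f h).pull (Fin.succAboveEmb c.succ)) +
          g (M + 1) ((τ.ins _ h').pull (Fin.succAboveEmb c.succ))))) =
      (∑ c : Fin (M + 1), (-1 : ℝ) ^ (c : ℕ) * hT g M (τ.pull (Fin.succAboveEmb c))) -
      (1 / 2) * ((∑ c : Fin (M + 1), (-1 : ℝ) ^ (c : ℕ) *
        g (M + 1) ((τ.ins f h).pull (Fin.succAboveEmb c.succ))) +
      ∑ c : Fin (M + 1), (-1 : ℝ) ^ (c : ℕ) *
        g (M + 1) ((τ.ins _ h').pull (Fin.succAboveEmb c.succ))) := by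
    rw [← Finset.sum_add_distrib, Finset.mul_sum, ← Finset.sum_sub_distrib]
    apply Finset.sum_congr rfl
    intro c _
    ring
  rw [hsplit] at key
  linear_combination key

end SimplVol

end S_HD
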