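import Pool.Agent.H54.RM.B1
import Pool.Agent.H54.RM.B2
import Pool.Agent.H74.SV.AR

/-! Simplicial volume and ranked planar trees, part B3: this file joins several modules to save build time. -/

section S_LR3

/-!
# Module LR3: the parts of degree zero and two; the part of degree at least three

* `G0_coc`: support `GG_supp` (`|a| + 1 ≠ p + 1`), bound `hμ.bdd` and `GG_bdd`, invariance `GG_map_left`; cocycle: `dd [] = 0`; for `a ≠ []`: `mg_total` with `m = 1`, where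
  `dT (..) 1 tone = mg .. 0 .. = 0`.
* `G2_coc`: the same with `m = 3`, `p = q + 2`: `dT (..) 3 tplus` is a sum of values at `m = 2`, `mg_two`.
* `g4`, `gt`. `total_gt`: let `g u := mg μ (GG F) u`, so `g [] = 0`. Case `m ≤ 3`: `hT .. m = 0`, `dT (gt ..) m τ` is a sum of values of `hT` at `m - 1 < 4` (or `0`), so both sides are `0`.
  Case `m ≥ 4`: `dT (gt μ F a) m τ = (-1)^(|a|-1) dT (hT (g a)) m τ`. If `|a| = 1`: `dd (fun u => gt μ F u m τ) a = gt μ F [] m τ = 0` (`hT` of the zero function), and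
  `dT (g a) = 0` on all trees with at least one leaf by `mg_total` (`dd (fun u => g u m τ) [x] = g [] m τ = 0`), so `hT (dT (g a)) m τ = 0`, and `contraction` gives
  `dT (hT (g a)) m τ = g a m τ`. If `|a| ≥ 2`: for `|u| + 1 = |a|` the sign `(-1)^(|u|-1)` is `(-1)^|a|`, so (`dd_congr`) `dd (fun u => gt μ F u m τ) a
  = (-1)^|a| dd (fun u => hT (g u) m τ) a = (-1)^|a| hT (fun m τ => dd (fun u => g u m τ) a) m τ` (`hT m τ` is a finite linear combination of values: `dd_smul`, `dd_sum`)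
  `= (-1)^|a| hT (fun m τ => -(-1)^(|a|-1) dT (g a) m τ) m τ = hT (dT (g a)) m τ` (`mg_total`; `hT` at `m` uses only values at `m + 1 ≥ 1`; `hT_smul`), and `contraction` for `g a` (`mg_alt`).
-/

set_option autoImplicit false

open scoped BigOperators UpperHalfPlane MatrixGroups

namespace SimplVol

variable {S : Type} {K : Set (S → S)} {p : ℕ} {F : List (S × ℍ) → ℝ}
  {μ : ∀ m, RTree m → ((Fin m → ℍ) → ℝ) →ₗ[ℝ] ℝ}

theorem LR3_supp (hF : Coc (prodK K) p F) (a : List S) (m : ℕ) (τ : RTree m)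
    (h : a.length + m ≠ p + 1) : mg μ (GG F) a m τ = 0 := by
  unfold mg
  have h1 : (fun y : Fin m → ℍ => GG F a (List.ofFn y)) = 0 := by
    funext y
    exact GG_supp hF a _ (by rw [List.length_ofFn]; exact h)
  rw [h1, map_zero]

theorem LR3_bdd (hμ : Means μ) (hF : Coc (prodK K) p F) :
    ∃ C, 0 ≤ C ∧ ∀ a m (τ : RTree m), |mg μ (GG F) a m τ| ≤ C := by
  obtain ⟨C, hC, h⟩ := GG_bdd hF
  exact ⟨C, hC, fun a m τ => hμ.bdd m τ _ C fun y => h a _⟩

theorem LR3_inv (hF : Coc (prodK K) p F) (κ : S → S) (hκ : κ ∈ K) (a : List S) :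
    mg μ (GG F) (a.map κ) = mg μ (GG F) a := by
  funext m τ
  unfold mg
  simp only [GG_map_left hF κ hκ]

theorem G0_coc (hμ : Means μ) (hF : Coc (prodK K) p F) (hp : 2 ≤ p) : Coc K p (G0 μ F) := by
  refine ⟨fun l hl => ?_, ?_, fun κ hκ l => ?_, fun l => ?_⟩
  · exact LR3_supp hF l 1 tone (by omega)
  · obtain ⟨C, -, h⟩ := LR3_bdd hμ hF
    exact ⟨C, fun l => h l 1 tone⟩
  · unfold G0
    rw [LR3_inv hF κ hκ l]
  · by_cases hl : l = []
    · rw [hl, dd_nil]
    · have h := mg_total hμ hF hp l hl 1 le_rfl tone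
      have h2 : dT (mg μ (GG F) l) 1 tone = 0 := by
        rw [dT_succ]
        refine Finset.sum_eq_zero fun i _ => ?_
        rw [mg_zero, mul_zero]
      rw [h2, mul_zero, add_zero] at h
      exact h

theorem G2_coc (hμ : Means μ) {q : ℕ} (hF : Coc (prodK K) (q + 2) F) : Coc K q (G2 μ F) := by
  refine ⟨fun l hl => ?_, ?_, fun κ hκ l => ?_, fun l => ?_⟩
  · exact LR3_supp hF l 3 tplus (by omega)
  · obtain ⟨C, -, h⟩ := LR3_bdd hμ hF
    exact ⟨C, fun l => h l 3 tplus⟩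
  · unfold G2
    rw [LR3_inv hF κ hκ l]
  · by_cases hl : l = []
    · rw [hl, dd_nil]
    · have h := mg_total hμ hF (by omega) l hl 3 (by norm_num) tplus
      have h2 : dT (mg μ (GG F) l) 3 tplus = 0 := by
        rw [dT_succ]
        refine Finset.sum_eq_zero fun i _ => ?_
        rw [mg_two hμ hF, mul_zero]
      rw [h2, mul_zero, add_zero] at h
      exact h

/-- The part with at least four leaves. -/
noncomputable def g4 (μ : ∀ m, RTree m → ((Fin m → ℍ) → ℝ) →ₗ[ℝ] ℝ) (F : List (S × ℍ) → ℝ)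
    (a : List S) (m : ℕ) (τ : RTree m) : ℝ := if 4 ≤ m then mg μ (GG F) a m τ else 0

/-- Its primitive. -/
noncomputable def gt (μ : ∀ m, RTree m → ((Fin m → ℍ) → ℝ) →ₗ[ℝ] ℝ) (F : List (S × ℍ) → ℝ)
    (a : List S) (m : ℕ) (τ : RTree m) : ℝ := (-1) ^ (a.length - 1) * hT (mg μ (GG F) a) m τ

theorem LR3_hT_congr (g g' : ∀ m, RTree m → ℝ) (m : ℕ) (τ : RTree m)
    (h : ∀ τ' : RTree (m + 1), g (m + 1) τ' = g' (m + 1) τ') : hT g m τ = hT g' m τ := by
  unfold hT
  simp only [h]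

theorem LR3_hT_zero (m : ℕ) (τ : RTree m) : hT (fun _ _ => 0) m τ = 0 := by
  unfold hT
  simp

theorem LR3_dd_hT (g : List S → ∀ m, RTree m → ℝ) (m : ℕ) (τ : RTree m) (a : List S) :
    dd (fun u => hT (g u) m τ) a = hT (fun m' τ' => dd (fun u => g u m' τ') a) m τ := by
  classical
  unfold hT
  by_cases hm : 4 ≤ m
  · simp only [if_pos hm]
    rw [dd_smul, dd_sum]
    congr 1
    refine Finset.sum_congr rfl fun f _ => ?_
    by_cases h : TopSide τ f
    · simp only [dif_pos h]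
    · simp only [dif_neg h]
      exact dd_zero a
  · simp only [if_neg hm]
    exact dd_zero a

theorem LR3_gt_nil (m : ℕ) (τ : RTree m) : hT (mg μ (GG F) ([] : List S)) m τ = 0 := by
  rw [LR3_hT_congr _ (fun _ _ => 0) m τ fun τ' => mg_nil F (m + 1) τ']
  exact LR3_hT_zero m τ

theorem LR3_dT_smul (c : ℝ) (g : ∀ m, RTree m → ℝ) (m : ℕ) (τ : RTree m) :
    dT (fun m τ => c * g m τ) m τ = c * dT g m τ := by
  cases m with
  | zero => exact (mul_zero c).symm
  | succ m =>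
    rw [dT_succ, dT_succ, Finset.mul_sum]
    refine Finset.sum_congr rfl fun i _ => ?_
    ring

theorem total_gt (hμ : Means μ) (hF : Coc (prodK K) p F) (hp : 2 ≤ p) (a : List S) (ha : a ≠ [])
    (m : ℕ) (hm : 1 ≤ m) (τ : RTree m) :
    dd (fun u => gt μ F u m τ) a + (-1) ^ (a.length - 1) * dT (gt μ F a) m τ = g4 μ F a m τ := by
  by_cases h4 : 4 ≤ m
  · have e0 : ∀ k : ℕ, ((-1 : ℝ) ^ k) * (-1) ^ k = 1 := fun k => by
      rw [← mul_pow]
      norm_num
    have e1 : dT (gt μ F a) m τ = (-1) ^ (a.length - 1) * dT (hT (mg μ (GG F) a)) m τ :=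
      LR3_dT_smul ((-1) ^ (a.length - 1)) (hT (mg μ (GG F) a)) m τ
    have hlen : 1 ≤ a.length := List.length_pos_iff.2 ha
    have e2 : dd (fun u => gt μ F u m τ) a = (-1) ^ a.length * dd (fun u => hT (mg μ (GG F) u) m τ) a := by
      rw [← dd_smul]
      refine dd_congr _ _ a fun u hu => ?_
      unfold gt
      by_cases hu0 : u = []
      · rw [hu0, LR3_gt_nil, mul_zero, mul_zero]
      · have hul : 1 ≤ u.length := List.length_pos_iff.2 hu0
        congr 1
        rw [← hu]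
        obtain ⟨k, hk⟩ := Nat.exists_eq_add_of_le hul
        rw [hk]
        have : 1 + k - 1 = k := by omega
        rw [this, pow_add, pow_add]
        norm_num
    have e3 : hT (fun m' τ' => dd (fun u => mg μ (GG F) u m' τ') a) m τ =
        (-(-1) ^ (a.length - 1)) * hT (dT (mg μ (GG F) a)) m τ := by
      rw [← hT_smul]
      refine LR3_hT_congr _ _ m τ fun τ' => ?_
      have h := mg_total hμ hF hp a ha (m + 1) (by omega) τ'
      linarith
    have e4 : ((-1 : ℝ) ^ a.length) * (-(-1) ^ (a.length - 1)) = 1 := by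
      obtain ⟨k, hk⟩ := Nat.exists_eq_add_of_le hlen
      rw [hk]
      have : 1 + k - 1 = k := by omega
      rw [this, pow_add, pow_one]
      have := e0 k
      linarith
    have e5 := contraction (mg μ (GG F) a) (mg_alt hμ hF a) m h4 τ
    rw [e2, LR3_dd_hT, e3, ← mul_assoc, e4, one_mul, e1, ← mul_assoc, e0, one_mul, e5]
    unfold g4
    rw [if_pos h4]
  · have hz : ∀ (u : List S) (j : ℕ) (τ' : RTree j), j < 4 → gt μ F u j τ' = 0 := by
      intro u j τ' hj
      unfold gt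
      rw [hT_of_lt _ hj, mul_zero]
    have e1 : dd (fun u => gt μ F u m τ) a = 0 := by
      have : (fun u => gt μ F u m τ) = fun _ => 0 := funext fun u => hz u m τ (by omega)
      rw [this, dd_zero]
    have e2 : dT (gt μ F a) m τ = 0 := by
      obtain ⟨j, rfl⟩ := Nat.exists_eq_add_of_le' hm
      rw [dT_succ]
      refine Finset.sum_eq_zero fun i _ => ?_
      rw [hz a j _ (by omega), mul_zero]
    rw [e1, e2]
    unfold g4
    rw [if_neg h4]
    ring

theorem gt_nil (m : ℕ) (τ : RTree m) : gt μ F [] m τ = 0 := by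
  unfold gt
  rw [LR3_gt_nil, mul_zero]

theorem gt_zero (a : List S) (τ : RTree 0) : gt μ F a 0 τ = 0 := by
  unfold gt
  rw [hT_of_lt _ (by norm_num), mul_zero]

theorem gt_bdd (hμ : Means μ) (hF : Coc (prodK K) p F) :
    ∃ C, 0 ≤ C ∧ ∀ a m (τ : RTree m), |gt μ F a m τ| ≤ C := by
  obtain ⟨C, hC, h⟩ := LR3_bdd hμ hF
  refine ⟨C, hC, fun a m τ => ?_⟩
  unfold gt
  rw [abs_mul, abs_pow, abs_neg, abs_one, one_pow, one_mul]
  exact abs_hT_le _ C m τ (fun τ' => h a (m + 1) τ') hC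

theorem gt_inv (hF : Coc (prodK K) p F) (κ : S → S) (hκ : κ ∈ K) (a : List S) (m : ℕ)
    (τ : RTree m) : gt μ F (a.map κ) m τ = gt μ F a m τ := by
  unfold gt
  rw [LR3_inv hF κ hκ a, List.length_map]

end SimplVol

end S_LR3

section S_LR4

/-!
# Module LR4: the decomposition according to the number of leaves in the last face

`Lx x = [(x 0, 0), …]`, the list of the pairs (point, leaf).
* `aw_decomp`: `aw_eq_sum` for `l = Lx x`, `l.length = k + 3`, `l.map Prod.fst = ofFn x`, `l.map Prod.snd = ofFn id`. In the sum over `p < k + 3` the back face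
  `(ofFn id).drop p` is `ofFn (e_p)` with `e_p : Fin (k+3-p) ↪ Fin (k+3)`, `i ↦ i + p` (`List.drop` of `List.ofFn`; or `List.ext_getElem`), it has `k + 3 - p` elements.
  `p = k + 2`: front `ofFn x`, back `[last]`, value `mg .. 1 _ = G0` (`RTree.ext_of_le_two`). `p = k + 1`: `mg_two`. `p = k`: front `ofFn (x ∘ castAdd 2)` (`List.take`), back the last three leaves,
  `mg_three`, `(τ.pull e).o 0 1 2 = τ.o k (k+1) (k+2)`. `p < k`: at least four leaves, `g4 = mg`; and for `p ≥ k` the `g4` term is `0`. (`Finset.sum_range_succ` three times.)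
* `aw_g4`: `aw_congr` and `total_gt`: for nonempty `a`, `b` with `b` a suffix of `(Lx x).map Prod.snd`, so `b.Nodup`: `dtot (ev (gt μ F) τ) a b = ev (g4 μ F) τ a b` by `dd_ev`, `dd_ev_left`
  (unfold `ev`; `b.length ≥ 1`). Then `aw_dtot`, with `ev (gt μ F) τ [] _ = 0` (`gt_nil`), `ev (gt μ F) τ _ [] = 0` (`gt_zero`).
* `dd_aw_ofFn`: `dd_ofFn` (for `Lx x = ofFn (fun i => (x i, i))`); the faces are `(Lx (x ∘ i.succAbove)).map (Prod.map id i.succAbove)`; `aw_map`, `ev_map` for `Fin.succAboveEmb i`.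
-/

set_option autoImplicit false

open scoped BigOperators UpperHalfPlane MatrixGroups

namespace SimplVol

variable {S : Type} {K : Set (S → S)} {p : ℕ} {F : List (S × ℍ) → ℝ}
  {μ : ∀ m, RTree m → ((Fin m → ℍ) → ℝ) →ₗ[ℝ] ℝ}

/-- The list of the pairs (point, leaf). -/
def Lx {m : ℕ} (x : Fin m → S) : List (S × Fin m) := List.ofFn fun i => (x i, i)

theorem LR4_drop {α : Type} (p j : ℕ) (f : Fin (p + j) → α) :
    (List.ofFn f).drop p = List.ofFn (fun i : Fin j => f (Fin.natAdd p i)) := by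
  rw [List.ofFn_add]
  exact List.drop_left' (by simp)

theorem LR4_take {α : Type} (p j : ℕ) (f : Fin (p + j) → α) :
    (List.ofFn f).take p = List.ofFn (fun i : Fin p => f (Fin.castAdd j i)) := by
  rw [List.ofFn_add]
  exact List.take_left' (by simp)

theorem LR4_fst {m : ℕ} (x : Fin m → S) : (Lx x).map Prod.fst = List.ofFn x := by
  unfold Lx
  rw [List.map_ofFn]
  rfl

theorem LR4_snd {m : ℕ} (x : Fin m → S) : (Lx x).map Prod.snd = List.ofFn (fun i : Fin m => i) := by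
  unfold Lx
  rw [List.map_ofFn]
  rfl

theorem LR4_len {m : ℕ} (x : Fin m → S) : (Lx x).length = m := by
  unfold Lx
  rw [List.length_ofFn]

theorem LR4_ev_zero (g h : List S → ∀ m, RTree m → ℝ) {M : ℕ} (τ : RTree M) (a : List S)
    (l : List (Fin M)) (H : ∀ τ' : RTree l.length, g a l.length τ' = h a l.length τ') :
    ev g τ a l = ev h τ a l := by
  unfold ev
  split_ifs
  · exact H _
  · rfl

theorem LR4_big {k : ℕ} (τ : RTree (k + 3)) (a : List S) (p : ℕ) (hp : p < k) :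
    ev (mg μ (GG F)) τ a ((List.ofFn (fun i : Fin (k + 3) => i)).drop p) -
      ev (g4 μ F) τ a ((List.ofFn (fun i : Fin (k + 3) => i)).drop p) = 0 := by
  rw [sub_eq_zero]
  apply LR4_ev_zero
  intro τ'
  unfold g4
  rw [if_pos]
  rw [List.length_drop, List.length_ofFn]
  omega

theorem LR4_small {k j : ℕ} (hj : j < 4) (τ : RTree (k + j)) (a : List S) :
    ev (mg μ (GG F)) τ a ((List.ofFn (fun i : Fin (k + j) => i)).drop k) -
      ev (g4 μ F) τ a ((List.ofFn (fun i : Fin (k + j) => i)).drop k) =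
      mg μ (GG F) a j (τ.pull (Fin.natAddEmb k)) := by
  rw [LR4_drop]
  have h1 : (fun i : Fin j => Fin.natAdd k i) = (Fin.natAddEmb k : Fin j ↪ Fin (k + j)) := rfl
  rw [h1, ev_ofFn, ev_ofFn]
  unfold g4
  rw [if_neg (by omega), sub_zero]

theorem aw_decomp (hμ : Means μ) {k : ℕ} (hF : Coc (prodK K) (k + 3) F) (x : Fin (k + 3) → S)
    (τ : RTree (k + 3)) :
    aw (ev (mg μ (GG F)) τ) (Lx x) = G0 μ F (List.ofFn x) +
      G2 μ F (List.ofFn fun i : Fin (k + 1) => x (Fin.castAdd 2 i)) *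
        ((τ.o ⟨k, by omega⟩ ⟨k + 1, by omega⟩ ⟨k + 2, by omega⟩ : ℤ) : ℝ) +
      aw (ev (g4 μ F) τ) (Lx x) := by
  have h := aw_sub (ev (mg μ (GG F)) τ) (ev (g4 μ F) τ) (Lx x)
  have h2 : aw (fun a b => ev (mg μ (GG F)) τ a b - ev (g4 μ F) τ a b) (Lx x) =
      G0 μ F (List.ofFn x) + G2 μ F (List.ofFn fun i : Fin (k + 1) => x (Fin.castAdd 2 i)) *
        ((τ.o ⟨k, by omega⟩ ⟨k + 1, by omega⟩ ⟨k + 2, by omega⟩ : ℤ) : ℝ) := by
    rw [aw_eq_sum, LR4_fst, LR4_snd, LR4_len, Finset.sum_range_succ, Finset.sum_range_succ,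
      Finset.sum_range_succ, Finset.sum_eq_zero (fun p hp => LR4_big τ _ p (Finset.mem_range.1 hp))]
    have e3 := LR4_small (μ := μ) (F := F) (j := 3) (by norm_num) τ ((List.ofFn x).take (k + 1))
    have e2 := LR4_small (μ := μ) (F := F) (k := k + 1) (j := 2) (by norm_num) τ ((List.ofFn x).take (k + 1 + 1))
    have e1 := LR4_small (μ := μ) (F := F) (k := k + 2) (j := 1) (by norm_num) τ ((List.ofFn x).take (k + 2 + 1))
    have e3' : (List.ofFn x).take (k + 1) = List.ofFn fun i : Fin (k + 1) => x (Fin.castAdd 2 i) :=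
      LR4_take (k + 1) 2 x
    have e1' : (List.ofFn x).take (k + 2 + 1) = List.ofFn x := by
      apply List.take_of_length_le
      rw [List.length_ofFn]
    rw [mg_three hμ hF] at e3
    rw [mg_two hμ hF] at e2
    rw [e3'] at e3
    rw [e1', RTree.ext_of_le_two (by norm_num) (τ.pull (Fin.natAddEmb (k + 2))) tone] at e1
    rw [e3', e1']
    refine Eq.trans (congrArg₂ (· + ·) (congrArg₂ (· + ·) (congrArg (0 + ·) e3) e2) e1) ?_
    unfold G0 G2
    have e4 : (τ.pull (Fin.natAddEmb k)).o 0 1 2 =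
        τ.o ⟨k, by omega⟩ ⟨k + 1, by omega⟩ ⟨k + 2, by omega⟩ := rfl
    rw [e4]
    ring
  linarith

theorem aw_g4 (hμ : Means μ) (hF : Coc (prodK K) p F) (hp : 2 ≤ p) {m : ℕ} (x : Fin (m + 1) → S)
    (τ : RTree (m + 1)) : aw (ev (g4 μ F) τ) (Lx x) = dd (aw (ev (gt μ F) τ)) (Lx x) := by
  have h1 : aw (ev (g4 μ F) τ) (Lx x) = aw (dtot (ev (gt μ F) τ)) (Lx x) := by
    apply aw_congr
    intro a b ha hb _ _ hsuf
    have hnd : b.Nodup := by
      refine List.Nodup.sublist hsuf.sublist ?_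
      rw [LR4_snd]
      exact List.nodup_ofFn.2 (fun _ _ h => h)
    unfold dtot
    rw [dd_ev _ τ a b hnd, dd_ev_left _ τ a b hnd]
    unfold ev
    rw [dif_pos hnd, dif_pos hnd, dif_pos hnd]
    exact (total_gt hμ hF hp a ha b.length (List.length_pos_iff.2 hb) _).symm
  have hne : Lx x ≠ [] := by
    intro h
    have := congrArg List.length h
    rw [LR4_len] at this
    simp at this
  rw [h1, aw_dtot _ _ hne]
  have h2 : ev (gt μ F) τ [] ((Lx x).map Prod.snd) = 0 := by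
    unfold ev
    split_ifs
    · exact gt_nil _ _
    · rfl
  have h3 : ev (gt μ F) τ ((Lx x).map Prod.fst) [] = 0 := by
    unfold ev
    split_ifs
    · exact gt_zero _ _
    · rfl
  rw [h2, h3]
  ring

theorem dd_aw_ofFn (g : List S → ∀ m, RTree m → ℝ) {m : ℕ} (x : Fin (m + 1) → S)
    (τ : RTree (m + 1)) :
    dd (aw (ev g τ)) (Lx x) = ∑ i : Fin (m + 1), (-1 : ℝ) ^ (i : ℕ) *
      aw (ev g (τ.pull (Fin.succAboveEmb i))) (Lx fun j => x (i.succAbove j)) := by
  unfold Lx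
  rw [dd_ofFn]
  refine Finset.sum_congr rfl (fun i _ => ?_)
  congr 1
  have h1 : (List.ofFn fun j => (x (i.succAbove j), i.succAbove j)) =
      (List.ofFn fun j : Fin m => (x (i.succAbove j), j)).map (Prod.map id (Fin.succAboveEmb i)) := by
    rw [List.map_ofFn]
    rfl
  rw [h1, aw_map]
  congr 1
  funext a b
  rw [List.map_id]
  exact ev_map g (Fin.succAboveEmb i) τ a b

end SimplVol

end S_LR4

section S_LR5

/-!
# Module LR5: the mean of a cocycle in the last factor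

PROOF of `lemR`. For `z : Fin (k+3) → S × ℍ` the list `List.ofFn z` has length `k + 3`; `homotopy (k+2)`: as `dd F = 0` (function), `hh (k+3) (dd F) = 0` (`hh_zero_fun`), so
`F (ofFn z) = tt F (ofFn z) + dd (hh (k+2) F) (ofFn z)`, and `tt F (ofFn z) = aw (GG F) (ofFn z)` (`tt_of_ne`).
Let `z i = (x i, y i)`. `μ (k+3) τ (fun y => aw (GG F) (ofFn z)) = aw (ev (mg μ (GG F)) τ) (Lx x)` by `mean_aw` (`L = Lx x`; `GG_map_right`, `GG_bdd`). Then `aw_decomp`, `aw_g4`, `dd_aw_ofFn`.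
`dd (hh (k+2) F) (ofFn z) = ∑ i, (-1)^i hh (k+2) F (ofFn (z ∘ i.succAbove))`, and `μ (k+3) τ` of `y ↦ hh (k+2) F (ofFn fun j => (x (i.succAbove j), y (i.succAbove j)))` is
`μ (k+2) (τ.pull δ_i) (y' ↦ hh (k+2) F (ofFn fun j => (x (i.succAbove j), y' j)))` (`hμ.nat`; invariant by `hh_map` with `Prod.map id g`, bounded by `abs_hh_le`).
So with `b a τ' := if a.length = k + 2 then μ (k+2) τ' (fun y => hh (k+2) F (a.zip (ofFn y))) + aw (ev (gt μ F) τ') (a.zip (List.finRange (k+2))) else 0` (note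
`(ofFn x').zip (ofFn y) = ofFn (fun j => (x' j, y j))`, `(ofFn x').zip (List.finRange _) = Lx x'`) the formula holds. `b` is bounded: `abs_hh_le`, `hμ.bdd`, `abs_aw_le`, `gt_bdd` (`|ev ..| ≤ C`);
`b` is invariant: `hh_map` with `Prod.map κ id` (`(a.map κ).zip l = (a.zip l).map (Prod.map κ id)`, `List.zip_map_left`), `aw_map`, `gt_inv`. For the zero length etc. `List.length_map`.
-/

set_option autoImplicit false

open scoped BigOperators UpperHalfPlane MatrixGroups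

namespace SimplVol

variable {S : Type} {K : Set (S → S)} {F : List (S × ℍ) → ℝ}
  {μ : ∀ m, RTree m → ((Fin m → ℍ) → ℝ) →ₗ[ℝ] ℝ}

theorem LR5_zip (n : ℕ) {X Y : Type} (x : Fin n → X) (y : Fin n → Y) :
    (List.ofFn x).zip (List.ofFn y) = List.ofFn fun j => (x j, y j) := by
  apply List.ext_getElem
  · simp
  · intro i h1 h2
    simp

theorem LR5_zip_fin {X : Type} (n : ℕ) (x : Fin n → X) :
    (List.ofFn x).zip (List.finRange n) = Lx x := by
  unfold Lx
  apply List.ext_getElem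
  · simp
  · intro i h1 h2
    simp

theorem LR5_ev_abs {g : List S → ∀ m, RTree m → ℝ} {C : ℝ} (hC : 0 ≤ C)
    (h : ∀ a m (τ : RTree m), |g a m τ| ≤ C) {M : ℕ} (τ : RTree M) (a : List S)
    (l : List (Fin M)) : |ev g τ a l| ≤ C := by
  unfold ev
  split_ifs with hl
  · exact h _ _ _
  · rw [abs_zero]
    exact hC

theorem LR5_hh_inv_left {p : ℕ} (hF : Coc (prodK K) p F) (q : ℕ) (κ : S → S) (hκ : κ ∈ K)
    (l : List (S × ℍ)) : hh q F (l.map (Prod.map κ id)) = hh q F l := by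
  rw [hh_map κ (id : ℍ → ℍ) q F l]
  have h2 : (fun m : List (S × ℍ) => F (m.map (Prod.map κ id))) = F := by
    funext m
    exact hF.inv _ (Or.inl ⟨κ, hκ, rfl⟩) m
  rw [h2]

theorem LR5_hh_inv_right {p : ℕ} (hF : Coc (prodK K) p F) (q : ℕ) (g : SL(2, ℝ))
    (l : List (S × ℍ)) : hh q F (l.map (Prod.map id fun z : ℍ => g • z)) = hh q F l := by
  rw [hh_map (id : S → S) (fun z : ℍ => g • z) q F l]
  have h2 : (fun m : List (S × ℍ) => F (m.map (Prod.map id fun z : ℍ => g • z))) = F := by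
    funext m
    exact hF.inv _ (Or.inr ⟨g, rfl⟩) m
  rw [h2]

theorem LR5_hom {p : ℕ} (hF : Coc (prodK K) p F) (q : ℕ) (l : List (S × ℍ)) (hl : l.length = q + 1) :
    F l = aw (GG F) l + dd (hh q F) l := by
  have h := homotopy q F l hl
  have h5 : dd F = fun _ => (0 : ℝ) := funext fun l => hF.coc l
  rw [h5, hh_zero_fun, zero_add] at h
  have hne : l ≠ [] := by
    intro h0
    rw [h0] at hl
    simp at hl
  have h6 : tt F l = aw (GG F) l := tt_of_ne F l hne
  rw [h6] at h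
  linarith

theorem LR5_Lx_snd {m : ℕ} (x : Fin m → S) : ((Lx x).map Prod.snd).Nodup := by
  unfold Lx
  rw [List.map_ofFn, List.nodup_ofFn]
  intro i j h
  exact h

theorem lemR (hμ : Means μ) {k : ℕ} (hF : Coc (prodK K) (k + 3) F) :
    ∃ b : List S → RTree (k + 2) → ℝ, (∃ C, ∀ a τ, |b a τ| ≤ C) ∧
      (∀ κ ∈ K, ∀ a τ, b (a.map κ) τ = b a τ) ∧
      ∀ (x : Fin (k + 3) → S) (τ : RTree (k + 3)),
        μ (k + 3) τ (fun y => F (List.ofFn fun i => (x i, y i))) =
          G0 μ F (List.ofFn x) +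
          G2 μ F (List.ofFn fun i : Fin (k + 1) => x (Fin.castAdd 2 i)) *
            ((τ.o ⟨k, by omega⟩ ⟨k + 1, by omega⟩ ⟨k + 2, by omega⟩ : ℤ) : ℝ) +
          ∑ i : Fin (k + 3), (-1 : ℝ) ^ (i : ℕ) *
            b (List.ofFn fun j => x (i.succAbove j)) (τ.pull (Fin.succAboveEmb i)) := by
  classical
  obtain ⟨C, hC⟩ := hF.bdd
  have hC0 : 0 ≤ C := (abs_nonneg _).trans (hC [])
  obtain ⟨Kh, hKh0, hKh⟩ := abs_hh_le (S := S) (Y := ℍ) (k + 2)
  obtain ⟨Cg, hCg0, hCg⟩ := gt_bdd hμ hF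
  have hhb : ∀ l : List (S × ℍ), l.length = k + 2 → |hh (k + 2) F l| ≤ Kh * C :=
    fun l hl => hKh F C hC0 hC l hl
  refine ⟨fun a τ' => if a.length = k + 2 then
      μ (k + 2) τ' (fun y => hh (k + 2) F (a.zip (List.ofFn y))) +
        aw (ev (gt μ F) τ') (a.zip (List.finRange (k + 2))) else 0,
    ⟨Kh * C + ((k + 2 : ℕ) : ℝ) * Cg, fun a τ => ?_⟩, fun κ hκ a τ => ?_, fun x τ => ?_⟩
  · show |(if a.length = k + 2 then
      μ (k + 2) τ (fun y => hh (k + 2) F (a.zip (List.ofFn y))) +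
        aw (ev (gt μ F) τ) (a.zip (List.finRange (k + 2))) else 0)| ≤ _
    by_cases ha : a.length = k + 2
    · rw [if_pos ha]
      have h1 : |μ (k + 2) τ (fun y => hh (k + 2) F (a.zip (List.ofFn y)))| ≤ Kh * C := by
        refine hμ.bdd _ _ _ _ fun y => hhb _ ?_
        simp [ha]
      have h2 : |aw (ev (gt μ F) τ) (a.zip (List.finRange (k + 2)))| ≤
          ((k + 2 : ℕ) : ℝ) * Cg := by
        have h3 := abs_aw_le (ev (gt μ F) τ) Cg (a.zip (List.finRange (k + 2)))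
          fun a' b' _ _ _ => LR5_ev_abs hCg0 hCg τ a' b'
        have h4 : (a.zip (List.finRange (k + 2))).length = k + 2 := by
          simp [ha]
        rw [h4] at h3
        exact h3
      exact (abs_add_le _ _).trans (add_le_add h1 h2)
    · rw [if_neg ha, abs_zero]
      positivity
  · show (if (a.map κ).length = k + 2 then
      μ (k + 2) τ (fun y => hh (k + 2) F ((a.map κ).zip (List.ofFn y))) +
        aw (ev (gt μ F) τ) ((a.map κ).zip (List.finRange (k + 2))) else 0) =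
      (if a.length = k + 2 then
      μ (k + 2) τ (fun y => hh (k + 2) F (a.zip (List.ofFn y))) +
        aw (ev (gt μ F) τ) (a.zip (List.finRange (k + 2))) else 0)
    rw [List.length_map]
    have h1 : (fun y : Fin (k + 2) → ℍ => hh (k + 2) F ((a.map κ).zip (List.ofFn y))) =
        fun y : Fin (k + 2) → ℍ => hh (k + 2) F (a.zip (List.ofFn y)) := by
      funext y
      rw [List.zip_map_left, LR5_hh_inv_left hF (k + 2) κ hκ]
    have h2 : aw (ev (gt μ F) τ) ((a.map κ).zip (List.finRange (k + 2))) =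
        aw (ev (gt μ F) τ) (a.zip (List.finRange (k + 2))) := by
      rw [List.zip_map_left, aw_map κ (id : Fin (k + 2) → Fin (k + 2))]
      have h3 : (fun (a : List S) (b : List (Fin (k + 2))) =>
          ev (gt μ F) τ (a.map κ) (b.map id)) = ev (gt μ F) τ := by
        funext a' b'
        rw [List.map_id]
        unfold ev
        split_ifs with hn
        · exact gt_inv hF κ hκ a' _ _
        · rfl
      rw [h3]
    rw [h1, h2]
  · show μ (k + 3) τ (fun y => F (List.ofFn fun i => (x i, y i))) =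
          G0 μ F (List.ofFn x) +
          G2 μ F (List.ofFn fun i : Fin (k + 1) => x (Fin.castAdd 2 i)) *
            ((τ.o ⟨k, by omega⟩ ⟨k + 1, by omega⟩ ⟨k + 2, by omega⟩ : ℤ) : ℝ) +
          ∑ i : Fin (k + 3), (-1 : ℝ) ^ (i : ℕ) *
            (if (List.ofFn fun j => x (i.succAbove j)).length = k + 2 then
              μ (k + 2) (τ.pull (Fin.succAboveEmb i)) (fun y => hh (k + 2) F
                ((List.ofFn fun j => x (i.succAbove j)).zip (List.ofFn y))) +
              aw (ev (gt μ F) (τ.pull (Fin.succAboveEmb i)))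
                ((List.ofFn fun j => x (i.succAbove j)).zip (List.finRange (k + 2))) else 0)
    have hF1 : (fun y : Fin (k + 3) → ℍ => F (List.ofFn fun i => (x i, y i))) =
        (fun y : Fin (k + 3) → ℍ => aw (GG F) ((Lx x).map fun p => (p.1, y p.2))) +
        ∑ i : Fin (k + 3), ((-1 : ℝ) ^ (i : ℕ)) • fun y : Fin (k + 3) → ℍ =>
          hh (k + 2) F (List.ofFn fun j => (x (i.succAbove j), y (i.succAbove j))) := by
      funext y
      rw [Pi.add_apply, Finset.sum_apply]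
      have h1 := LR5_hom hF (k + 2) (List.ofFn fun i => (x i, y i)) (by simp)
      rw [h1]
      have h2 : (List.ofFn fun i => (x i, y i)) = (Lx x).map fun p => (p.1, y p.2) := by
        unfold Lx
        rw [List.map_ofFn]
        rfl
      rw [← h2, dd_ofFn]
      rfl
    rw [hF1, map_add, map_sum]
    have hA : μ (k + 3) τ (fun y : Fin (k + 3) → ℍ =>
        aw (GG F) ((Lx x).map fun p => (p.1, y p.2))) = aw (ev (mg μ (GG F)) τ) (Lx x) := by
      refine mean_aw hμ (GG F) (fun a g b => GG_map_right hF g a b) (fun a n => ?_) τ (Lx x)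
        (LR5_Lx_snd x)
      obtain ⟨C', _, hC'⟩ := GG_bdd hF
      exact ⟨C', fun b _ => hC' a b⟩
    have hB : ∀ i : Fin (k + 3), μ (k + 3) τ (((-1 : ℝ) ^ (i : ℕ)) •
        fun y : Fin (k + 3) → ℍ =>
          hh (k + 2) F (List.ofFn fun j => (x (i.succAbove j), y (i.succAbove j)))) =
        (-1 : ℝ) ^ (i : ℕ) * μ (k + 2) (τ.pull (Fin.succAboveEmb i)) (fun y => hh (k + 2) F
                ((List.ofFn fun j => x (i.succAbove j)).zip (List.ofFn y))) := by
      intro i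
      rw [map_smul, smul_eq_mul]
      congr 1
      have h3 : (fun y : Fin (k + 2) → ℍ => hh (k + 2) F
                ((List.ofFn fun j => x (i.succAbove j)).zip (List.ofFn y))) =
          fun y : Fin (k + 2) → ℍ => hh (k + 2) F
            (List.ofFn fun j => (x (i.succAbove j), y j)) := by
        funext y
        rw [LR5_zip]
      rw [h3]
      refine hμ.nat (k + 2) (k + 3) (Fin.succAboveEmb i) τ (fun y : Fin (k + 2) → ℍ =>
        hh (k + 2) F (List.ofFn fun j => (x (i.succAbove j), y j))) (by omega) ?_ ?_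
      · intro g y
        show hh (k + 2) F (List.ofFn fun j => (x (i.succAbove j), g • y j)) =
          hh (k + 2) F (List.ofFn fun j => (x (i.succAbove j), y j))
        rw [← LR5_hh_inv_right hF (k + 2) g (List.ofFn fun j => (x (i.succAbove j), y j)),
          List.map_ofFn]
        rfl
      · exact ⟨Kh * C, fun y => hhb _ (by simp)⟩
    rw [hA, aw_decomp hμ hF x τ, aw_g4 hμ hF (by omega) x τ, dd_aw_ofFn]
    have hD : ∀ i : Fin (k + 3), (if (List.ofFn fun j => x (i.succAbove j)).length = k + 2 then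
              μ (k + 2) (τ.pull (Fin.succAboveEmb i)) (fun y => hh (k + 2) F
                ((List.ofFn fun j => x (i.succAbove j)).zip (List.ofFn y))) +
              aw (ev (gt μ F) (τ.pull (Fin.succAboveEmb i)))
                ((List.ofFn fun j => x (i.succAbove j)).zip (List.finRange (k + 2))) else 0) =
        μ (k + 2) (τ.pull (Fin.succAboveEmb i)) (fun y => hh (k + 2) F
                ((List.ofFn fun j => x (i.succAbove j)).zip (List.ofFn y))) +
              aw (ev (gt μ F) (τ.pull (Fin.succAboveEmb i))) (Lx fun j => x (i.succAbove j)) := by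
      intro i
      rw [if_pos (by simp), LR5_zip_fin]
    simp only [hD, hB, mul_add, Finset.sum_add_distrib]
    ring

end SimplVol

end S_LR5

section S_EX

/-!
# Module EX: means of bounded cocycles are coboundaries

For `F : List (Fin (n+1) → ℍ) → ℝ` put `F̂ l = F (l.map (cE n))`. `coc_hat`: if `Coc (KK (n+1)) p F` then `Coc (prodK (KK n)) p F̂` (`dd_map`; `cE n ∘ Prod.map κ id` for `κ` given by `g` is the
map given by `Fin.cons 1 g` after `cE n`; `cE n ∘ Prod.map id g` is the map given by `Fin.cons g 1` after `cE n`; `Fin.cases` on the index).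
`ex_step`: let `τ : Fin (n+1) → RTree (k+3)`, `τ' j = τ j.succ`. `MM_succ`: `MM (n+1) (k+3) (fun x => F (ofFn x)) τ = MM n (k+3) (fun x => μ (k+3) (τ 0) (fun y => F̂ (ofFn fun i => (x i, y i)))) τ'`
(`(ofFn z).map (cE n) = ofFn (cE n ∘ z)`), and by `lemR` for `F̂` the inner function is `G0 (ofFn x) + G2 (ofFn (x ∘ castAdd 2)) * o + ∑ (-1)^i b (ofFn (x ∘ δ_i)) ((τ 0).pull δ_i)`; `MM_add`, `MM_sum`, `MM_smul`; `MM_nat` for
`castAdd 2` (an embedding `Fin (k+1) ↪ Fin (k+3)`) and for `δ_i`, the functions `x ↦ G2 (ofFn x)` and `x ↦ b (ofFn x) σ` are bounded and `InvN` (elements of `KK n`; `List.map_ofFn`).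
So with `M0 τ' = MM n (k+3) (G0 ∘ ofFn) τ'`, `M2 τ'' = MM n (k+1) (G2 ∘ ofFn) τ''`, `b'' σ τ'' = MM n (k+2) (fun x => b (ofFn x) σ) τ''`:
 `MM (n+1) (k+3) F τ = M0 τ' + M2 (τ' restricted to the first k+1 leaves) * (τ 0).o k (k+1) (k+2) + ∑_i (-1)^i b'' ((τ 0).pull δ_i) (τ'.pull δ_i)`.
If `M0 τ' = ∑_{i : Fin (k+3)} (-1)^i c0 (τ'.pull δ_i)` and `M2 τ'' = ∑_{i : Fin (k+1)} (-1)^i c2 (τ''.pull δ_i)` (for trees with `k+1` leaves) then the whole is the coboundary of
`σ ↦ c0 σ' + (if k ≥ 1: c2 (σ' restricted to the first k leaves) * (σ 0).o (k-1) k (k+1)) + b'' (σ 0) σ'` on trees with `k + 2` leaves: for `σ = τ.pull δ_i`: `i ≤ k`: the first `k` leaves of `δ_i` are those of the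
first `k+1` leaves without `i`, the last three leaves are `k, k+1, k+2`; for `i = k, k+1, k+2` the first `k` leaves of `τ.pull δ_i` are `0..k-1`, the last three are `{k-1,k,k+1,k+2}` without one. So the sum over
`i` of the middle terms is `∑_{i ≤ k} (-1)^i c2 (..) o(k,k+1,k+2)` plus `c2 (first k leaves) * (± (o(k-1,k+1,k+2) - o(k-1,k,k+2) + o(k-1,k,k+1)))` with sign `(-1)^(k+1)`, plus the correction that the term `i = k` of the
first sum has been counted: precisely `∑_{i<k} (-1)^i c2 (first k+1 leaves without i) o(k,k+1,k+2) + (-1)^k c2 (first k leaves) [o(k-1,k+1,k+2) - o(k-1,k,k+2) + o(k-1,k,k+1)]`, and by `o_coc` (for `k-1,k,k+1,k+2`) the bracket is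
`o(k,k+1,k+2)`. `(τ.pull δ_i).pull (castAdd) = τ.pull _` by `pull_trans`, equality of embeddings.
* `ex_V` (induction on `n`, for all `q`). `n = 0`: `q ≥ 1`, let `a` be the value of `F` at the list of `q + 1` copies of the unique point. `dd F` at `q + 2` copies is `(∑_{i<q+2} (-1)^i) a = 0`. If `q` is odd, then
  `q + 2` is odd and `a = 0`: take `b = 0`. If `q` is even, `∑_{i<q+1} (-1)^i = 1`: take `b = a`. Step: `q > (n+1)*2`, so `q + 1 = k + 3` with `k ≥ 1`; `G0_coc`, `G2_coc` for `F̂`; `G0` has `q + 1` points, `q > n*2`;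
  `G2` has `q - 1 = (q - 2) + 1` points, `q - 2 > n*2`: induction hypothesis for both.
* `ex_Z` (induction on `n`). `n = 0`: `F [*] = 0`, `b = 0`. Step: `F` has `(n+1)*2 + 1 = k + 3` points, `k = n*2`; `G0` has `n*2 + 3` points: `ex_V n`; `G2` has `n*2 + 1` points and `ZZ n (G2 μ F̂)` by `ZZ_mean` (`G y a = GG F̂ a (ofFn y)`,
  `ZZ (n+1) F`): induction hypothesis (if `n = 0` the functions on trees with `0` leaves: `k = 0`, no `c2` term; then `M2 = 0` because `G2 [*] = 0`).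
-/

set_option autoImplicit false

open scoped BigOperators UpperHalfPlane MatrixGroups

namespace SimplVol

variable {μ : ∀ m, RTree m → ((Fin m → ℍ) → ℝ) →ₗ[ℝ] ℝ}

theorem coc_hat {n p : ℕ} {F : List (Fin (n + 1) → ℍ) → ℝ} (hF : Coc (KK (n + 1)) p F) :
    Coc (prodK (KK n)) p fun l => F (l.map (cE n)) where
  supp l hl := hF.supp _ (by rwa [List.length_map])
  bdd := by
    obtain ⟨C, hC⟩ := hF.bdd
    exact ⟨C, fun l => hC _⟩
  inv κ hκ l := by
    rcases hκ with ⟨κ', ⟨g, rfl⟩, rfl⟩ | ⟨g, rfl⟩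
    · have h1 : ∀ z : (Fin n → ℍ) × ℍ, cE n (Prod.map (fun z j => g j • z j) id z) =
          fun j => (Fin.cons 1 g : Fin (n + 1) → SL(2, ℝ)) j • cE n z j := by
        intro z
        funext j
        refine Fin.cases ?_ (fun j => ?_) j
        · simp [cE]
        · simp [cE]
      have h2 := hF.inv (fun z j => (Fin.cons 1 g : Fin (n + 1) → SL(2, ℝ)) j • z j) ⟨_, rfl⟩
        (l.map (cE n))
      rw [List.map_map] at h2
      rw [List.map_map, ← h2]
      congr 1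
      apply List.map_congr_left
      intro z _
      exact h1 z
    · have h1 : ∀ z : (Fin n → ℍ) × ℍ, cE n (Prod.map id (fun z => g • z) z) =
          fun j => (Fin.cons g (fun _ => 1) : Fin (n + 1) → SL(2, ℝ)) j • cE n z j := by
        intro z
        funext j
        refine Fin.cases ?_ (fun j => ?_) j
        · simp [cE]
        · simp [cE]
      have h2 := hF.inv (fun z j => (Fin.cons g (fun _ => 1) : Fin (n + 1) → SL(2, ℝ)) j • z j)
        ⟨_, rfl⟩ (l.map (cE n))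
      rw [List.map_map] at h2
      rw [List.map_map, ← h2]
      congr 1
      apply List.map_congr_left
      intro z _
      exact h1 z
  coc l := by
    rw [dd_map]
    exact hF.coc _

theorem EX_inv {n m p : ℕ} {G : List (Fin n → ℍ) → ℝ} (hG : Coc (KK n) p G) :
    InvN (fun x : Fin m → Fin n → ℍ => G (List.ofFn x)) := by
  intro g x
  have h := hG.inv (fun z j => g j • z j) ⟨g, rfl⟩ (List.ofFn x)
  rw [List.map_ofFn] at h
  exact h

theorem EX_main (hμ : Means μ) {n k : ℕ} {F : List (Fin (n + 1) → ℍ) → ℝ}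
    (hF : Coc (KK (n + 1)) (k + 3) F) :
    ∃ B : RTree (k + 2) → (Fin n → RTree (k + 2)) → ℝ, ∀ τ : Fin (n + 1) → RTree (k + 3),
      MM μ (n + 1) (k + 3) (fun x => F (List.ofFn x)) τ =
        MM μ n (k + 3) (fun x => G0 μ (fun l => F (l.map (cE n))) (List.ofFn x))
          (fun j => τ j.succ) +
        MM μ n (k + 1) (fun x => G2 μ (fun l => F (l.map (cE n))) (List.ofFn x))
          (fun j => (τ j.succ).pull (Fin.castAddEmb 2)) *
          (((τ 0).o ⟨k, by omega⟩ ⟨k + 1, by omega⟩ ⟨k + 2, by omega⟩ : ℤ) : ℝ) +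
        ∑ i : Fin (k + 3), (-1 : ℝ) ^ (i : ℕ) *
          B ((τ 0).pull (Fin.succAboveEmb i)) (fun j => (τ j.succ).pull (Fin.succAboveEmb i)) := by
  have hF' := coc_hat hF
  obtain ⟨b, ⟨C, hbC⟩, hbI, hb⟩ := lemR hμ hF'
  have hG2 : Coc (KK n) (k + 1) (G2 μ fun l => F (l.map (cE n))) := G2_coc hμ hF'
  refine ⟨fun σ ρ => MM μ n (k + 2) (fun x => b (List.ofFn x) σ) ρ, fun τ => ?_⟩
  rw [MM_succ]
  have h1 : (fun x : Fin (k + 3) → Fin n → ℍ => μ (k + 3) (τ 0) fun y =>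
      F (List.ofFn fun i => (Fin.cons (y i) (x i) : Fin (n + 1) → ℍ))) = fun x =>
      (G0 μ (fun l => F (l.map (cE n))) (List.ofFn x) +
        (((τ 0).o ⟨k, by omega⟩ ⟨k + 1, by omega⟩ ⟨k + 2, by omega⟩ : ℤ) : ℝ) *
          G2 μ (fun l => F (l.map (cE n))) (List.ofFn fun i : Fin (k + 1) => x (Fin.castAddEmb 2 i))) +
        ∑ i : Fin (k + 3), (-1 : ℝ) ^ (i : ℕ) *
          b (List.ofFn fun j => x (Fin.succAboveEmb i j)) ((τ 0).pull (Fin.succAboveEmb i)) := by
    funext x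
    have h2 := hb x (τ 0)
    have h3 : (fun y : Fin (k + 3) → ℍ =>
        F (List.ofFn fun i => (Fin.cons (y i) (x i) : Fin (n + 1) → ℍ))) =
        fun y => F ((List.ofFn fun i => (x i, y i)).map (cE n)) := by
      funext y
      rw [List.map_ofFn]
      rfl
    rw [h3, h2]
    rw [mul_comm (G2 μ _ _)]
    rfl
  rw [h1, MM_add, MM_add, MM_smul, MM_sum]
  have h4 := MM_nat hμ (by omega : 1 ≤ k + 1) (Fin.castAddEmb 2 : Fin (k + 1) ↪ Fin (k + 3))
    (fun x => G2 μ (fun l => F (l.map (cE n))) (List.ofFn x)) (EX_inv hG2)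
    (by obtain ⟨C', hC'⟩ := hG2.bdd; exact ⟨C', fun x => hC' _⟩) (fun j => τ j.succ)
  rw [h4]
  rw [mul_comm (((τ 0).o ⟨k, by omega⟩ ⟨k + 1, by omega⟩ ⟨k + 2, by omega⟩ : ℤ) : ℝ)]
  congr 1
  refine Finset.sum_congr rfl fun i _ => ?_
  rw [MM_smul]
  congr 1
  exact MM_nat hμ (by omega : 1 ≤ k + 2) (Fin.succAboveEmb i)
    (fun x => b (List.ofFn x) ((τ 0).pull (Fin.succAboveEmb i))) (by
      intro g x
      have h5 := hbI (fun z j => g j • z j) ⟨g, rfl⟩ (List.ofFn x) ((τ 0).pull (Fin.succAboveEmb i))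
      rw [List.map_ofFn] at h5
      exact h5) ⟨C, fun x => hbC _ _⟩ (fun j => τ j.succ)

theorem EX_lt {m : ℕ} (i : Fin (m + 1)) (u : ℕ) (hu : u < m) (h : u < (i : ℕ)) :
    Fin.succAboveEmb i ⟨u, hu⟩ = ⟨u, by omega⟩ := by
  rw [Fin.succAboveEmb_apply, Fin.succAbove_of_castSucc_lt]
  · rfl
  · exact h

theorem EX_ge {m : ℕ} (i : Fin (m + 1)) (u : ℕ) (hu : u < m) (h : (i : ℕ) ≤ u) :
    Fin.succAboveEmb i ⟨u, hu⟩ = ⟨u + 1, by omega⟩ := by
  rw [Fin.succAboveEmb_apply, Fin.succAbove_of_le_castSucc]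
  · rfl
  · exact h

theorem EX_alg {n k : ℕ} (c2 : (Fin n → RTree (k + 1)) → ℝ) (τ0 : RTree (k + 4))
    (τ : Fin n → RTree (k + 4)) :
    ∑ i : Fin (k + 4), (-1 : ℝ) ^ (i : ℕ) *
      (c2 (fun j => ((τ j).pull (Fin.succAboveEmb i)).pull
          (Fin.castAddEmb 2 : Fin (k + 1) ↪ Fin (k + 3))) *
        (((τ0.pull (Fin.succAboveEmb i)).o (⟨k, by omega⟩ : Fin (k + 3)) ⟨k + 1, by omega⟩
          ⟨k + 2, by omega⟩ : ℤ) : ℝ)) =
    (∑ i : Fin (k + 2), (-1 : ℝ) ^ (i : ℕ) *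
      c2 (fun j => ((τ j).pull (Fin.castAddEmb 2 : Fin (k + 2) ↪ Fin (k + 4))).pull
        (Fin.succAboveEmb i))) *
      ((τ0.o ⟨k + 1, by omega⟩ ⟨k + 2, by omega⟩ ⟨k + 3, by omega⟩ : ℤ) : ℝ) := by
  have hD : ∀ (i : Fin (k + 4)) (i' : Fin (k + 2)), ((i : ℕ) = i' ∨ (k + 1 ≤ (i : ℕ) ∧ (i' : ℕ) = k + 1)) →
      c2 (fun j => ((τ j).pull (Fin.succAboveEmb i)).pull
          (Fin.castAddEmb 2 : Fin (k + 1) ↪ Fin (k + 3))) =
      c2 (fun j => ((τ j).pull (Fin.castAddEmb 2 : Fin (k + 2) ↪ Fin (k + 4))).pull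
        (Fin.succAboveEmb i')) := by
    intro i i' h
    congr 1
    funext j
    rw [RTree.pull_trans, RTree.pull_trans]
    congr 1
    ext u
    have hu := u.2
    simp only [Function.Embedding.trans_apply, Fin.succAboveEmb_apply, Fin.castAddEmb_apply,
      Fin.succAbove, Fin.lt_def]
    split_ifs with h1 h2 h2 <;> simp at h1 h2 ⊢ <;> omega
  rw [Fin.sum_univ_castSucc, Fin.sum_univ_castSucc, Fin.sum_univ_castSucc]
  rw [Fin.sum_univ_castSucc (n := k + 1)]
  have hO1 : ∀ i : Fin (k + 1), (τ0.pull (Fin.succAboveEmb i.castSucc.castSucc.castSucc)).o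
      (⟨k, by omega⟩ : Fin (k + 3)) ⟨k + 1, by omega⟩ ⟨k + 2, by omega⟩ =
      τ0.o ⟨k + 1, by omega⟩ ⟨k + 2, by omega⟩ ⟨k + 3, by omega⟩ := by
    intro i
    have hi := i.2
    change τ0.o (Fin.succAboveEmb _ _) (Fin.succAboveEmb _ _) (Fin.succAboveEmb _ _) = _
    rw [EX_ge _ k (by omega) (by simp <;> omega), EX_ge _ (k + 1) (by omega) (by simp <;> omega),
      EX_ge _ (k + 2) (by omega) (by simp <;> omega)]
  have hO2 : (τ0.pull (Fin.succAboveEmb (Fin.last (k + 1)).castSucc.castSucc)).o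
      (⟨k, by omega⟩ : Fin (k + 3)) ⟨k + 1, by omega⟩ ⟨k + 2, by omega⟩ =
      τ0.o ⟨k, by omega⟩ ⟨k + 2, by omega⟩ ⟨k + 3, by omega⟩ := by
    change τ0.o (Fin.succAboveEmb _ _) (Fin.succAboveEmb _ _) (Fin.succAboveEmb _ _) = _
    rw [EX_lt _ k (by omega) (by simp), EX_ge _ (k + 1) (by omega) (by simp),
      EX_ge _ (k + 2) (by omega) (by simp)]
  have hO3 : (τ0.pull (Fin.succAboveEmb (Fin.last (k + 2)).castSucc)).o
      (⟨k, by omega⟩ : Fin (k + 3)) ⟨k + 1, by omega⟩ ⟨k + 2, by omega⟩ =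
      τ0.o ⟨k, by omega⟩ ⟨k + 1, by omega⟩ ⟨k + 3, by omega⟩ := by
    change τ0.o (Fin.succAboveEmb _ _) (Fin.succAboveEmb _ _) (Fin.succAboveEmb _ _) = _
    rw [EX_lt _ k (by omega) (by simp), EX_lt _ (k + 1) (by omega) (by simp),
      EX_ge _ (k + 2) (by omega) (by simp)]
  have hO4 : (τ0.pull (Fin.succAboveEmb (Fin.last (k + 3)))).o
      (⟨k, by omega⟩ : Fin (k + 3)) ⟨k + 1, by omega⟩ ⟨k + 2, by omega⟩ =
      τ0.o ⟨k, by omega⟩ ⟨k + 1, by omega⟩ ⟨k + 2, by omega⟩ := by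
    change τ0.o (Fin.succAboveEmb _ _) (Fin.succAboveEmb _ _) (Fin.succAboveEmb _ _) = _
    rw [EX_lt _ k (by omega) (by simp), EX_lt _ (k + 1) (by omega) (by simp),
      EX_lt _ (k + 2) (by omega) (by simp)]
  rw [hO2, hO3, hO4, hD (Fin.last (k + 1)).castSucc.castSucc (Fin.last (k + 1)) (by simp),
    hD (Fin.last (k + 2)).castSucc (Fin.last (k + 1)) (by simp),
    hD (Fin.last (k + 3)) (Fin.last (k + 1)) (by simp)]
  have hS : ∀ i : Fin (k + 1), (-1 : ℝ) ^ ((i.castSucc.castSucc.castSucc : Fin (k + 4)) : ℕ) *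
      (c2 (fun j => ((τ j).pull (Fin.succAboveEmb i.castSucc.castSucc.castSucc)).pull
          (Fin.castAddEmb 2 : Fin (k + 1) ↪ Fin (k + 3))) *
        (((τ0.pull (Fin.succAboveEmb i.castSucc.castSucc.castSucc)).o (⟨k, by omega⟩ : Fin (k + 3))
          ⟨k + 1, by omega⟩ ⟨k + 2, by omega⟩ : ℤ) : ℝ)) =
      ((-1 : ℝ) ^ ((i.castSucc : Fin (k + 2)) : ℕ) *
        c2 (fun j => ((τ j).pull (Fin.castAddEmb 2 : Fin (k + 2) ↪ Fin (k + 4))).pull
        (Fin.succAboveEmb i.castSucc))) *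
      ((τ0.o ⟨k + 1, by omega⟩ ⟨k + 2, by omega⟩ ⟨k + 3, by omega⟩ : ℤ) : ℝ) := by
    intro i
    rw [hO1 i, hD i.castSucc.castSucc.castSucc i.castSucc (Or.inl (by simp))]
    simp only [Fin.val_castSucc]
    ring
  rw [Finset.sum_congr rfl fun i _ => hS i, ← Finset.sum_mul]
  have hco := τ0.o_coc ⟨k, by omega⟩ ⟨k + 1, by omega⟩ ⟨k + 2, by omega⟩ ⟨k + 3, by omega⟩
  have hco' : ((τ0.o ⟨k + 1, by omega⟩ ⟨k + 2, by omega⟩ ⟨k + 3, by omega⟩ : ℤ) : ℝ) =
      ((τ0.o ⟨k, by omega⟩ ⟨k + 2, by omega⟩ ⟨k + 3, by omega⟩ : ℤ) : ℝ) -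
      ((τ0.o ⟨k, by omega⟩ ⟨k + 1, by omega⟩ ⟨k + 3, by omega⟩ : ℤ) : ℝ) +
      ((τ0.o ⟨k, by omega⟩ ⟨k + 1, by omega⟩ ⟨k + 2, by omega⟩ : ℤ) : ℝ) := by
    rw [← Int.cast_sub, ← Int.cast_add]
    congr 1
    omega
  rw [add_mul, hco']
  simp only [Fin.val_castSucc, Fin.val_last, pow_succ]
  ring

theorem ex_step (hμ : Means μ) {n k : ℕ} {F : List (Fin (n + 1) → ℍ) → ℝ}
    (hF : Coc (KK (n + 1)) (k + 3) F)
    (h0 : ∃ c0 : (Fin n → RTree (k + 2)) → ℝ, ∀ τ : Fin n → RTree (k + 3),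
      MM μ n (k + 3) (fun x => G0 μ (fun l => F (l.map (cE n))) (List.ofFn x)) τ =
        ∑ i : Fin (k + 3), (-1 : ℝ) ^ (i : ℕ) * c0 fun j => (τ j).pull (Fin.succAboveEmb i))
    (h2 : ∃ c2 : (Fin n → RTree k) → ℝ, ∀ τ : Fin n → RTree (k + 1),
      MM μ n (k + 1) (fun x => G2 μ (fun l => F (l.map (cE n))) (List.ofFn x)) τ =
        if k = 0 then 0 else
        ∑ i : Fin (k + 1), (-1 : ℝ) ^ (i : ℕ) * c2 fun j => (τ j).pull (Fin.succAboveEmb i)) :
    ∃ b : (Fin (n + 1) → RTree (k + 2)) → ℝ, ∀ τ : Fin (n + 1) → RTree (k + 3),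
      MM μ (n + 1) (k + 3) (fun x => F (List.ofFn x)) τ =
        ∑ i : Fin (k + 3), (-1 : ℝ) ^ (i : ℕ) * b fun j => (τ j).pull (Fin.succAboveEmb i) := by
  obtain ⟨B, hB⟩ := EX_main hμ hF
  obtain ⟨c0, hc0⟩ := h0
  obtain ⟨c2, hc2⟩ := h2
  cases k with
  | zero =>
    refine ⟨fun ρ => c0 (fun j => ρ j.succ) + B (ρ 0) (fun j => ρ j.succ), fun τ => ?_⟩
    rw [hB, hc0, hc2, if_pos rfl, zero_mul, add_zero, ← Finset.sum_add_distrib]
    refine Finset.sum_congr rfl fun i _ => ?_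
    ring
  | succ k =>
    refine ⟨fun ρ => c0 (fun j => ρ j.succ) +
      c2 (fun j => (ρ j.succ).pull (Fin.castAddEmb 2 : Fin (k + 1) ↪ Fin (k + 3))) *
        (((ρ 0).o (⟨k, by omega⟩ : Fin (k + 3)) ⟨k + 1, by omega⟩ ⟨k + 2, by omega⟩ : ℤ) : ℝ) +
      B (ρ 0) (fun j => ρ j.succ), fun τ => ?_⟩
    rw [hB, hc0, hc2, if_neg (by omega)]
    have h3 := EX_alg c2 (τ 0) (fun j => τ j.succ)
    rw [← h3, ← Finset.sum_add_distrib, ← Finset.sum_add_distrib]
    refine Finset.sum_congr rfl fun i _ => ?_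
    ring

theorem ex_V (hμ : Means μ) (n : ℕ) : ∀ q : ℕ, n * 2 < q → ∀ F : List (Fin n → ℍ) → ℝ,
    Coc (KK n) (q + 1) F → ∃ b : (Fin n → RTree q) → ℝ, ∀ τ : Fin n → RTree (q + 1),
      MM μ n (q + 1) (fun x => F (List.ofFn x)) τ =
        ∑ i : Fin (q + 1), (-1 : ℝ) ^ (i : ℕ) * b fun j => (τ j).pull (Fin.succAboveEmb i) := by
  induction n with
  | zero =>
    intro q hq F hF
    have hsum : ∀ m : ℕ, ∑ i : Fin m, (-1 : ℝ) ^ (i : ℕ) = if Even m then 0 else 1 := by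
      intro m
      rw [Fin.sum_univ_eq_sum_range (fun i => (-1 : ℝ) ^ i) m, neg_one_geom_sum]
    rcases Nat.even_or_odd q with he | ho
    · refine ⟨fun _ => F (List.ofFn fun (_ : Fin (q + 1)) (j : Fin 0) => j.elim0), fun τ => ?_⟩
      rw [MM_zero, ← Finset.sum_mul, hsum, if_neg (by rw [Nat.not_even_iff_odd]; exact he.add_one),
        one_mul]
    · refine ⟨fun _ => 0, fun τ => ?_⟩
      have h1 := hF.coc (List.ofFn fun (_ : Fin (q + 1 + 1)) (j : Fin 0) => (j.elim0 : ℍ))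
      rw [dd_ofFn, ← Finset.sum_mul, hsum, if_neg (by
        rw [Nat.not_even_iff_odd]; exact ho.add_one.add_one), one_mul] at h1
      rw [MM_zero, h1]
      simp
  | succ n ih =>
    intro q hq F hF
    obtain ⟨k, rfl⟩ : ∃ k, q = k + 2 := ⟨q - 2, by omega⟩
    have hF' := coc_hat hF
    obtain ⟨c0, hc0⟩ := ih (k + 2) (by omega) _ (G0_coc hμ hF' (by omega))
    obtain ⟨c2, hc2⟩ := ih k (by omega) _ (G2_coc (q := k + 1) hμ hF')
    exact ex_step hμ hF ⟨c0, hc0⟩ ⟨c2, fun τ => by rw [if_neg (by omega)]; exact hc2 τ⟩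

theorem EX_Z (hμ : Means μ) (n : ℕ) : ∀ m : ℕ, m = n * 2 → ∀ F : List (Fin n → ℍ) → ℝ,
    Coc (KK n) (m + 1) F → ZZ n F → ∃ b : (Fin n → RTree m) → ℝ,
      ∀ τ : Fin n → RTree (m + 1), MM μ n (m + 1) (fun x => F (List.ofFn x)) τ =
        ∑ i : Fin (m + 1), (-1 : ℝ) ^ (i : ℕ) * b fun j => (τ j).pull (Fin.succAboveEmb i) := by
  induction n with
  | zero =>
    intro m hm F hF hZ
    obtain rfl : m = 0 := by omega
    refine ⟨fun _ => 0, fun τ => ?_⟩
    rw [MM_zero]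
    simp only [mul_zero, Finset.sum_const_zero]
    exact hZ
  | succ n ih =>
    intro m hm F hF hZ
    obtain ⟨k, rfl⟩ : ∃ k, m = k + 2 := ⟨m - 2, by omega⟩
    have hF' := coc_hat hF
    obtain ⟨c0, hc0⟩ := ex_V hμ n (k + 2) (by omega) _ (G0_coc hμ hF' (by omega))
    have hZ2 : ZZ n (G2 μ fun l => F (l.map (cE n))) := ZZ_mean μ n _ hZ tplus
    obtain ⟨c2, hc2⟩ := ih k (by omega) _ (G2_coc (q := k + 1) hμ hF') hZ2
    refine ex_step hμ hF ⟨c0, hc0⟩ ⟨c2, fun τ => ?_⟩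
    split_ifs with hk
    · subst hk
      obtain rfl : n = 0 := by omega
      rw [MM_zero]
      exact hZ2
    · exact hc2 τ

theorem ex_Z (hμ : Means μ) (n : ℕ) : ∀ F : List (Fin n → ℍ) → ℝ,
    Coc (KK n) (n * 2 + 1) F → ZZ n F → ∃ b : (Fin n → RTree (n * 2)) → ℝ,
      ∀ τ : Fin n → RTree (n * 2 + 1), MM μ n (n * 2 + 1) (fun x => F (List.ofFn x)) τ =
        ∑ i : Fin (n * 2 + 1), (-1 : ℝ) ^ (i : ℕ) * b fun j => (τ j).pull (Fin.succAboveEmb i) :=
  fun F hF hZ => EX_Z hμ n (n * 2) rfl F hF hZ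

end SimplVol

end S_EX

section S_UP

/-!
# Module UP: the upper bound from the means

`hμ : Means μ`, `F = C vol + dB` with `|F| ≤ 1`, `F`, `B` invariant, `n ≥ 1`. Let `F' x = F x - C vol n x = ∑_i (-1)^i B (x ∘ i.succAbove)`.
* list functions: `Bl : List (Fin n → ℍ) → ℝ`, `Bl l = if h : l.length = n * 2 then B (fun i => l.get (i.cast h.symm)) else 0`. So `Bl (List.ofFn x) = B x`, `Bl [] = 0` as `n * 2 ≠ 0`; `Bl (l.map κ) = Bl l` for `κ = fun z j => g j • z j`. `Fl = dd Bl`: `Fl (List.ofFn x) = F' x` (`dd_ofFn` in module LD), `Fl l = 0` if `l.length ≠ n * 2 + 1` (`dd_congr` with `0`, `dd_zero`).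
* `Coc (KK n) (n * 2 + 1) Fl`: `supp` as said; `bdd`: `|F' x| ≤ 1 + |C| |vol|`, `|vol n x| ≤ π^n` (each area is at most `π` in absolute value: `abs_area_lt` in `Pool/Agent/H74/SV/AR.lean`; the average over permutations: `(1/(2n)!) * (2n)! * π^n`); `inv`: `dd_map` and the invariance of `Bl`; `coc`: `dd_dd`.
* `ZZ n Fl`: `ZZ_exact`. `ex_Z` gives `b₀` with `MM μ n (n*2+1) F' τ = ∑_i (-1)^i b₀ (..)`.
* `MM μ n _ F τ = C * MM (vol n) τ + MM F' τ = C π^n treeVol n τ + ∑_i (-1)^i b₀ ..` (`MM_add`, `MM_smul`, `MMn_vol`), and it is at most `1` in absolute value (`MM_bdd`).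
-/

set_option autoImplicit false

open scoped BigOperators UpperHalfPlane MatrixGroups

namespace SimplVol

/-- The function of lists given by a function of tuples. -/
noncomputable def UP_l {Z : Type} {k : ℕ} (B : (Fin k → Z) → ℝ) (l : List Z) : ℝ :=
  if h : l.length = k then B (fun i => l.get (i.cast h.symm)) else 0

theorem UP_l_ne {Z : Type} {k : ℕ} (B : (Fin k → Z) → ℝ) (l : List Z) (h : l.length ≠ k) :
    UP_l B l = 0 := dif_neg h

theorem UP_l_ofFn {Z : Type} {k : ℕ} (B : (Fin k → Z) → ℝ) (x : Fin k → Z) :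
    UP_l B (List.ofFn x) = B x := by
  unfold UP_l
  rw [dif_pos (List.length_ofFn)]
  congr 1
  funext i
  simp

theorem UP_ex {Z : Type} {k : ℕ} (l : List Z) (h : l.length = k) :
    ∃ x : Fin k → Z, l = List.ofFn x := by
  subst h
  exact ⟨l.get, (List.ofFn_get l).symm⟩

theorem UP_l_map {Z : Type} {k : ℕ} (B : (Fin k → Z) → ℝ) (κ : Z → Z)
    (hB : ∀ x : Fin k → Z, B (fun i => κ (x i)) = B x) (l : List Z) :
    UP_l B (l.map κ) = UP_l B l := by
  by_cases h : l.length = k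
  · obtain ⟨x, rfl⟩ := UP_ex l h
    rw [List.map_ofFn, UP_l_ofFn, UP_l_ofFn]
    exact hB x
  · rw [UP_l_ne B l h, UP_l_ne B _ (by rwa [List.length_map])]

theorem UP_dd {n k : ℕ} (B : (Fin k → Fin n → ℍ) → ℝ) (x : Fin (k + 1) → Fin n → ℍ) :
    dd (UP_l B) (List.ofFn x) =
      ∑ i : Fin (k + 1), (-1 : ℝ) ^ (i : ℕ) * B fun l => x (i.succAbove l) := by
  rw [dd_ofFn]
  refine Finset.sum_congr rfl fun i _ => ?_
  rw [UP_l_ofFn]

theorem UP_vol {n : ℕ} (x : Fin (n * 2 + 1) → Fin n → ℍ) :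
    |vol n x| ≤ (1 / ((n * 2).factorial : ℝ)) *
      ∑ _σ : Equiv.Perm (Fin (n * 2)), ∏ _j : Fin n, Real.pi := by
  unfold vol
  rw [abs_mul, abs_of_nonneg (by positivity : (0 : ℝ) ≤ 1 / ((n * 2).factorial : ℝ))]
  refine mul_le_mul_of_nonneg_left ?_ (by positivity)
  refine (Finset.abs_sum_le_sum_abs _ _).trans (Finset.sum_le_sum fun σ _ => ?_)
  have h1 : |((Equiv.Perm.sign σ : ℤ) : ℝ)| = 1 := by
    rcases Int.units_eq_one_or (Equiv.Perm.sign σ) with h | h <;> simp [h]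
  rw [abs_mul, h1, one_mul, Finset.abs_prod]
  exact Finset.prod_le_prod (fun _ _ => abs_nonneg _) fun j _ => (abs_area_lt _ _ _).le

theorem upper {μ : ∀ m, RTree m → ((Fin m → ℍ) → ℝ) →ₗ[ℝ] ℝ} (hμ : Means μ) {n : ℕ} (hn : 1 ≤ n)
    (C : ℝ) (F : (Fin (n * 2 + 1) → Fin n → ℍ) → ℝ) (B : (Fin (n * 2) → Fin n → ℍ) → ℝ)
    (hF : ∀ x, |F x| ≤ 1) (hB : InvN B)
    (h : ∀ x, F x = C * vol n x +
      ∑ i : Fin (n * 2 + 1), (-1 : ℝ) ^ (i : ℕ) * B fun l => x (i.succAbove l)) :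
    ∃ b : (Fin n → RTree (n * 2)) → ℝ, ∀ τ : Fin n → RTree (n * 2 + 1),
      |C * (Real.pi ^ n * treeVol n τ) + ∑ i : Fin (n * 2 + 1), (-1 : ℝ) ^ (i : ℕ) *
        b fun j => (τ j).pull (Fin.succAboveEmb i)| ≤ 1 := by
  have hmap : ∀ (g : Fin n → SL(2, ℝ)) (l : List (Fin n → ℍ)),
      UP_l B (l.map fun z j => g j • z j) = UP_l B l := fun g l =>
    UP_l_map B _ (fun x => hB g x) l
  have hdd : ∀ x : Fin (n * 2 + 1) → Fin n → ℍ,
      dd (UP_l B) (List.ofFn x) = F x - C * vol n x := by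
    intro x
    rw [UP_dd, h x]
    ring
  have hC : Coc (KK n) (n * 2 + 1) (dd (UP_l B)) := by
    refine ⟨?_, ?_, ?_, dd_dd _⟩
    · intro l hl
      rw [← dd_zero l]
      exact dd_congr _ _ l fun m hm => UP_l_ne B m (by omega)
    · refine ⟨1 + |C| * ((1 / ((n * 2).factorial : ℝ)) *
        ∑ _σ : Equiv.Perm (Fin (n * 2)), ∏ _j : Fin n, Real.pi), fun l => ?_⟩
      by_cases hl : l.length = n * 2 + 1
      · obtain ⟨x, rfl⟩ := UP_ex l hl
        rw [hdd]
        refine (abs_sub _ _).trans (add_le_add (hF x) ?_)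
        rw [abs_mul]
        exact mul_le_mul_of_nonneg_left (UP_vol x) (abs_nonneg C)
      · have h0 : dd (UP_l B) l = 0 := by
          rw [← dd_zero l]
          exact dd_congr _ _ l fun m hm => UP_l_ne B m (by omega)
        rw [h0, abs_zero]
        have := Real.pi_pos
        positivity
    · rintro κ ⟨g, rfl⟩ l
      rw [← dd_map]
      refine dd_congr _ _ l fun m _ => hmap g m
  obtain ⟨b, hb⟩ := ex_Z hμ n (dd (UP_l B)) hC
    (ZZ_exact n (UP_l B) hmap (UP_l_ne B [] (by simp only [List.length_nil]; omega)))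
  refine ⟨b, fun τ => ?_⟩
  rw [← hb τ, ← MMn_vol hμ τ, ← MM_smul, ← MM_add]
  refine MM_bdd hμ _ 1 (fun x => ?_) τ
  rw [hdd]
  have h2 : C * vol n x + (F x - C * vol n x) = F x := by ring
  rw [h2]
  exact hF x

end SimplVol

end S_UP
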